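import Pool.Agent.TK.WBase

/-!
# Tokunaga's problem: the direct construction when both double penalty lemmas fail
-/

set_option autoImplicit false

namespace Pool.Agent.TK

theorem sep_neg_pos {a b u v x y : Pt} (hu : dt a b u ≤ 0) (hv : dt a b v ≤ 0) (hx : 0 < dt a b x)
    (hy : 0 < dt a b y) : ¬ Cross u v x y := by
  intro hc
  have e := dt_eq_fn a b
  refine not_cross_of_sep (-(b.2 - a.2), b.1 - a.1) (fn (-(b.2 - a.2), b.1 - a.1) a)
      ?_ ?_ ?_ ?_ ?_ hc.symm
  · rw [e] at hx; linarith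
  · rw [e] at hy; linarith
  · rw [e] at hu; linarith
  · rw [e] at hv; linarith
  · rw [e] at hx; left; linarith

theorem sep_pos_neg {a b u v x y : Pt} (hu : 0 ≤ dt a b u) (hv : 0 ≤ dt a b v) (hx : dt a b x < 0)
    (hy : dt a b y < 0) : ¬ Cross u v x y := by
  apply sep_neg_pos (a := b) (b := a)
  · rw [dt_swap]; linarith
  · rw [dt_swap]; linarith
  · rw [dt_swap]; linarith
  · rw [dt_swap]; linarith

/-- transitivity across the point `υ` -/
theorem opp_trans {c d υ p x : Pt} (h1 : fn c d < fn c υ) (hp : fn c υ < fn c p)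
    (hx : fn c υ < fn c x) (h2 : 0 ≤ dt d υ p) (h3 : 0 < dt υ p x) : 0 < dt d υ x := by
  have key : dt d υ x * (fn c p - fn c υ) =
      dt d υ p * (fn c x - fn c υ) + dt υ p x * (fn c υ - fn c d) := by
    unfold dt fn; ring
  have i1 := mul_nonneg h2 (sub_pos.2 hx).le
  have i2 := mul_pos h3 (sub_pos.2 h1)
  by_contra hc
  have i3 := mul_nonneg (neg_nonneg.2 (not_lt.1 hc)) (sub_pos.2 hp).le
  nlinarith

theorem opp_trans' {c d υ p x : Pt} (h1 : fn c d < fn c υ) (hp : fn c υ < fn c p)
    (hx : fn c υ < fn c x) (h2 : dt d υ p ≤ 0) (h3 : dt υ p x < 0) : dt d υ x < 0 := by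
  have key : dt d υ x * (fn c p - fn c υ) =
      dt d υ p * (fn c x - fn c υ) + dt υ p x * (fn c υ - fn c d) := by
    unfold dt fn; ring
  have i1 := mul_nonneg (neg_nonneg.2 h2) (sub_pos.2 hx).le
  have i2 := mul_pos (neg_pos.2 h3) (sub_pos.2 h1)
  by_contra hc
  have i3 := mul_nonneg (not_lt.1 hc) (sub_pos.2 hp).le
  nlinarith

/-- the part of the wire `d w` below `υ` is not west of the line `d' b` -/
theorem wire_sep {c υ d w d' b x y : Pt} (h1 : fn c d < fn c υ) (h2 : fn c υ < fn c w)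
    (h3 : 0 < dt d υ w) (h4 : fn c d' < fn c b) (h5 : 0 ≤ dt d' b υ) (h6 : 0 ≤ dt d' b w)
    (hx : fn c υ < fn c x) (hy : fn c υ < fn c y) (hx' : dt d' b x < 0) (hy' : dt d' b y < 0) :
    ¬ Cross d w x y := by
  intro hc
  obtain ⟨α, β, s, t, hα, hβ, hαβ, hs, ht, hst, hE⟩ := hc.exists_inter
  have key : (fn c w - fn c υ) * dt d' b d - (fn c d - fn c υ) * dt d' b w =
      ((fn c w - fn c υ) - (fn c d - fn c υ)) * dt d' b υ + dt d υ w * (fn c b - fn c d') := by
    unfold dt fn; ring
  have e1 : α * fn c d + β * fn c w = s * fn c x + t * fn c y := by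
    have := congrArg (fn c) hE
    rwa [fn_combo, fn_combo] at this
  have e2 : α * dt d' b d + β * dt d' b w = s * dt d' b x + t * dt d' b y := by
    have := congrArg (dt d' b) hE
    rwa [dt_combo _ _ _ _ _ _ hαβ, dt_combo _ _ _ _ _ _ hst] at this
  have e3 : 0 < α * (fn c d - fn c υ) + β * (fn c w - fn c υ) := by
    have i1 := mul_pos hs (sub_pos.2 hx)
    have i2 := mul_pos ht (sub_pos.2 hy)
    have i3 : α * fn c υ + β * fn c υ = s * fn c υ + t * fn c υ := by
      rw [← add_mul, ← add_mul, hαβ, hst]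
    linarith
  have e4 : α * dt d' b d + β * dt d' b w < 0 := by
    rw [e2]
    have i1 := mul_neg_of_pos_of_neg hs hx'
    have i2 := mul_neg_of_pos_of_neg ht hy'
    linarith
  set F := fn c w - fn c υ with hF
  set G := fn c d - fn c υ with hG
  have hF0 : 0 < F := by rw [hF]; linarith
  have hG0 : G < 0 := by rw [hG]; linarith
  have k1 : 0 ≤ F * dt d' b d - G * dt d' b w := by
    rw [key]
    have i1 := mul_nonneg (sub_pos.2 (hG0.trans hF0)).le h5
    have i2 := mul_pos h3 (sub_pos.2 h4)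
    linarith
  have k2 := mul_nonneg hα.le k1
  have k3 := mul_nonneg h6 e3.le
  have k4 := mul_neg_of_pos_of_neg hF0 e4
  nlinarith

theorem countP_unique {α : Type*} {q : α → Bool} {l : List α} (h : l.countP q ≤ 1) {a b : α}
    (ha : a ∈ l) (hb : b ∈ l) (qa : q a = true) (qb : q b = true) : a = b := by
  by_contra hne
  induction l with
  | nil => simp at ha
  | cons x l ih =>
    rw [List.countP_cons] at h
    rcases List.mem_cons.1 ha with rfl | ha'
    · rcases List.mem_cons.1 hb with rfl | hb'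
      · exact hne rfl
      · have : 0 < l.countP q := List.countP_pos_iff.2 ⟨b, hb', qb⟩
        rw [if_pos qa] at h
        omega
    · rcases List.mem_cons.1 hb with rfl | hb'
      · have : 0 < l.countP q := List.countP_pos_iff.2 ⟨a, ha', qa⟩
        rw [if_pos qb] at h
        omega
      · exact ih (by omega) ha' hb'

/-- the main construction: a red path crossing the line `υ p` once and a wire `d w` -/
theorem bf_core {R B : Finset Pt} {d d' υ c p g g' : Pt}
    (hG : GP (insert d (insert d' (insert υ (R ∪ B))))) (hdR : d ∉ R ∪ B) (hυR : υ ∉ R ∪ B)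
    (hdυ : d ≠ υ) (hd'R : d' ∉ R ∪ B) (hd'υ : d' ≠ υ) (hD : Disjoint R B)
    (hfd : fn c d < fn c υ) (hfd' : fn c d' < fn c υ) (hlow : ∀ z ∈ R ∪ B, fn c υ < fn c z)
    (hfp : fn c υ < fn c p) (hdp : 0 ≤ dt d υ p) (hd'p : dt d' υ p ≤ 0) (hpg : 0 < dt υ p g)
    (hpg' : dt υ p g' < 0) (hpr : ∀ r ∈ R, dt υ p r ≠ 0)
    (hLF : ∀ r ∈ R, ∀ b ∈ B, 0 < dt d υ r → 0 < dt d υ b → 0 < dt d b r)
    (hLF' : ∀ r ∈ R, ∀ b ∈ B, dt d' υ r < 0 → dt d' υ b < 0 → dt d' b r < 0)
    (hb : ∃ b ∈ B, 0 < dt d υ b) (hvg : HV R g) (hvg' : HV R g') :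
    ∃ lR lB w1 l', HamPath R g g' lR ∧ HamPath (insert d (insert υ B)) d υ lB ∧
      (∀ f ∈ pe lB, cnt f (pe lR) ≤ 1) ∧ (∀ e ∈ pe lR, cnt e (pe lB) ≤ 2) ∧
      lB = d :: w1 :: l' ∧ w1 ∈ B ∧ 0 < dt d υ w1 := by
  classical
  have hRs : R ⊆ insert d (insert d' (insert υ (R ∪ B))) := fun z hz => by simp [hz]
  have hBs : insert υ B ⊆ insert d (insert d' (insert υ (R ∪ B))) := by
    intro z hz
    rcases Finset.mem_insert.1 hz with h | h
    · simp [h]
    · simp [h]
  have hBd : insert d (insert υ B) ⊆ insert d (insert d' (insert υ (R ∪ B))) := by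
    intro z hz
    rcases Finset.mem_insert.1 hz with h | h
    · simp [h]
    · exact hBs h
  have hBd' : insert d' (insert υ B) ⊆ insert d (insert d' (insert υ (R ∪ B))) := by
    intro z hz
    rcases Finset.mem_insert.1 hz with h | h
    · simp [h]
    · exact hBs h
  have hdB : d ∉ B := fun h => hdR (Finset.mem_union_right _ h)
  have hd'B : d' ∉ B := fun h => hd'R (Finset.mem_union_right _ h)
  have hυB : υ ∉ B := fun h => hυR (Finset.mem_union_right _ h)
  have hBlow : ∀ z ∈ B, fn c υ < fn c z := fun z hz => hlow z (Finset.mem_union_right _ hz)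
  have hRlow : ∀ z ∈ R, fn c υ < fn c z := fun z hz => hlow z (Finset.mem_union_left _ hz)
  obtain ⟨b0, hb0, hb0'⟩ := hb
  -- red path
  set γ : Pt := (-(p.2 - υ.2), p.1 - υ.1) with hγ
  set k : ℝ := fn γ υ with hk
  have hm : ∀ z, dt υ p z = fn γ z - k := fun z => dt_eq_fn υ p z
  obtain ⟨lR, hlR, hlc⟩ := hvg.path_line' (hG.mono hRs) (γ := γ) (k := k)
    (fun x hx he => hpr x hx (by rw [hm, he]; ring)) hvg' (by have := hm g; linarith)
    (by have := hm g'; linarith)
  -- the wire
  have hvυ : HV (insert υ B) υ := by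
    refine ⟨by simp, c, ?_⟩
    intro z hz hzυ
    rcases Finset.mem_insert.1 hz with h | h
    · exact absurd h hzυ
    · exact hBlow z h
  have hcard : 2 ≤ (insert υ B).card := by
    rw [Finset.card_insert_of_notMem hυB]
    have : 0 < B.card := Finset.card_pos.2 ⟨b0, hb0⟩
    omega
  obtain ⟨w, hw⟩ := hvυ.prev (hG.mono hBs) hcard
  have hwB : w ∈ B := by
    rcases Finset.mem_insert.1 hw.1 with h | h
    · exact absurd h hw.ne
    · exact h
  have hwE : 0 < dt d υ w := by
    by_cases h : b0 = w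
    · rw [← h]; exact hb0'
    · have h1 := hw.2.2.2 b0 (Finset.mem_insert_of_mem hb0) h (fun e => hυB (e ▸ hb0))
      have h2 : 0 < dt υ b0 w := by rw [dt_rot]; exact h1
      exact opp_trans hfd (hBlow b0 hb0) (hBlow w hwB) hb0'.le h2
  have hdw : d ≠ w := fun e => hdB (e ▸ hwB)
  have hw0 : ∀ z ∈ insert υ B, 0 ≤ dt w υ z := by
    intro z hz
    by_cases a1 : z = w
    · rw [a1]; simp
    by_cases a2 : z = υ
    · rw [a2]; simp
    exact (hw.2.2.2 z hz a1 a2).le
  have hwd : dt w υ d < 0 := by rw [dt_swap'']; linarith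
  have hwire : ∀ r ∈ insert υ B, ∀ q ∈ insert υ B, ¬ Cross d w r q := by
    intro r hr q hq hc
    have e := dt_eq_fn w υ
    refine not_cross_of_sep (-(υ.2 - w.2), υ.1 - w.1) (fn (-(υ.2 - w.2), υ.1 - w.1) w)
      ?_ ?_ ?_ ?_ ?_ hc.symm
    · have := hw0 r hr; rw [e] at this; linarith
    · have := hw0 q hq; rw [e] at this; linarith
    · rw [e] at hwd; linarith
    · exact le_rfl
    · rw [e] at hwd; right; right; left; linarith
  -- outermost blue point around d
  have hvd : HV (insert d (insert υ B)) d := by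
    refine ⟨by simp, c, ?_⟩
    intro z hz hzd
    rcases Finset.mem_insert.1 hz with h | h
    · exact absurd h hzd
    · rcases Finset.mem_insert.1 h with h | h
      · rw [h]; exact hfd
      · exact hfd.trans (hBlow z h)
  have hcd : 2 ≤ (insert d (insert υ B)).card := by
    refine hcard.trans (Finset.card_le_card (Finset.subset_insert _ _))
  obtain ⟨b1, hb1⟩ := hvd.prev (hG.mono hBd) hcd
  have hb1' : ∀ z ∈ insert d (insert υ B), dt d b1 z ≤ 0 := by
    intro z hz
    by_cases a1 : z = b1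
    · rw [a1]; simp
    by_cases a2 : z = d
    · rw [a2]; simp
    have := hb1.2.2.2 z hz a1 a2
    have h2 : dt d b1 z = - dt b1 d z := by rw [dt_swap]
    linarith
  have hb1B : b1 ∈ B ∧ 0 < dt d υ b1 := by
    have h1 : dt d b1 υ ≤ 0 := hb1' υ (by simp)
    have h2 : dt d b1 b0 ≤ 0 := hb1' b0 (by simp [hb0])
    rcases Finset.mem_insert.1 hb1.1 with h | h
    · exact absurd h hb1.ne
    · rcases Finset.mem_insert.1 h with h | h
      · rw [h] at h2; linarith
      · refine ⟨h, ?_⟩
        have h3 : dt d υ b1 = - dt d b1 υ := by rw [dt_swap']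
        have h4 : dt d b1 υ ≠ 0 := hG d (by simp) b1 (hBs (Finset.mem_insert_of_mem h)) υ
          (by simp) (fun e => hdB (e ▸ h)) hdυ (fun e => hυB (e ▸ h))
        rcases lt_or_eq_of_le h1 with h5 | h5
        · linarith
        · exact absurd h5 h4
  have east : ∀ x ∈ R, ∀ y ∈ R, 0 < dt υ p x → 0 < dt υ p y → ∀ u ∈ insert d (insert υ B),
      ∀ v ∈ insert d (insert υ B), ¬ Cross u v x y := by
    intro x hx y hy h1 h2 u hu v hv
    have i1 := opp_trans hfd hfp (hRlow x hx) hdp h1
    have i2 := opp_trans hfd hfp (hRlow y hy) hdp h2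
    exact sep_neg_pos (hb1' u hu) (hb1' v hv) (hLF x hx b1 hb1B.1 i1 hb1B.2)
      (hLF y hy b1 hb1B.1 i2 hb1B.2)
  -- outermost blue point around d'
  have hvd' : HV (insert d' (insert υ B)) d' := by
    refine ⟨by simp, c, ?_⟩
    intro z hz hzd
    rcases Finset.mem_insert.1 hz with h | h
    · exact absurd h hzd
    · rcases Finset.mem_insert.1 h with h | h
      · rw [h]; exact hfd'
      · exact hfd'.trans (hBlow z h)
  have hcd' : 2 ≤ (insert d' (insert υ B)).card := by
    refine hcard.trans (Finset.card_le_card (Finset.subset_insert _ _))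
  obtain ⟨b2, hb2⟩ := hvd'.next (hG.mono hBd') hcd'
  have hb2' : ∀ z ∈ insert υ B, 0 ≤ dt d' b2 z := by
    intro z hz
    by_cases a1 : z = b2
    · rw [a1]; simp
    by_cases a2 : z = d'
    · rw [a2]; simp
    exact (hb2.2.2.2 z (Finset.mem_insert_of_mem hz) a2 a1).le
  have hb2i : b2 ∈ insert υ B := by
    rcases Finset.mem_insert.1 hb2.2.1 with h | h
    · exact absurd h.symm hb2.ne
    · exact h
  have hb2f : fn c d' < fn c b2 := by
    rcases Finset.mem_insert.1 hb2i with h | h
    · rw [h]; exact hfd'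
    · exact hfd'.trans (hBlow b2 h)
  have westS : ∀ x ∈ R, dt υ p x < 0 → dt d' b2 x < 0 := by
    intro x hx h1
    have i1 := opp_trans' hfd' hfp (hRlow x hx) hd'p h1
    rcases Finset.mem_insert.1 hb2i with h | h
    · rw [h]; exact i1
    · have i2 : 0 < dt d' b2 υ := by
        have h3 := hb2' υ (by simp)
        have h4 : dt d' b2 υ ≠ 0 := hG d' (by simp) b2 (hBs (Finset.mem_insert_of_mem h)) υ
          (by simp) (fun e => hd'B (e ▸ h)) hd'υ (fun e => hυB (e ▸ h))
        exact lt_of_le_of_ne h3 h4.symm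
      exact hLF' x hx b2 h i1 (by rw [dt_swap']; linarith)
  -- only red edges over the line cross blue edges
  have hcr : ∀ u v : Pt, ((u ∈ insert υ B ∧ v ∈ insert υ B) ∨ (u = d ∧ v = w)) →
      ∀ e ∈ pe lR, CrossE (u, v) e → (fn γ e.1 - k) * (fn γ e.2 - k) < 0 := by
    intro u v huv e he hc
    have hin := hlR.inside e he
    rw [← hm, ← hm]
    by_contra hcon
    have n1 := hpr _ hin.1
    have n2 := hpr _ hin.2
    have hud : u ∈ insert d (insert υ B) ∧ v ∈ insert d (insert υ B) := by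
      rcases huv with h | h
      · exact ⟨Finset.mem_insert_of_mem h.1, Finset.mem_insert_of_mem h.2⟩
      · rw [h.1, h.2]; simp [hwB]
    rcases lt_or_gt_of_ne n1 with a1 | a1 <;> rcases lt_or_gt_of_ne n2 with a2 | a2
    · have w1 := westS _ hin.1 a1
      have w2 := westS _ hin.2 a2
      rcases huv with h | h
      · exact sep_pos_neg (hb2' u h.1) (hb2' v h.2) w1 w2 hc
      · have hc' : Cross d w e.1 e.2 := by
          have : CrossE (u, v) e := hc
          rw [h.1, h.2] at this
          exact this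
        exact wire_sep hfd (hBlow w hwB) hwE hb2f (hb2' υ (by simp))
          (hb2' w (by simp [hwB])) (hRlow _ hin.1) (hRlow _ hin.2) w1 w2 hc'
    · exact hcon (mul_neg_of_neg_of_pos a1 a2)
    · exact hcon (mul_neg_of_pos_of_neg a1 a2)
    · exact east _ hin.1 _ hin.2 a1 a2 u hud.1 v hud.2 hc
  -- the blue path
  have hvw : HV (insert υ B) w := hw.hv_left
  have hl0 : ∃ l0, HamPath (insert υ B) w υ l0 ∧ ∀ e ∈ pe lR, cnt e (pe (d :: l0)) ≤ 2 := by
    by_cases hex : ∃ e ∈ pe lR, (fn γ e.1 - k) * (fn γ e.2 - k) < 0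
    · obtain ⟨e, he, hem⟩ := hex
      have hin := hlR.inside e he
      -- ends of the crossing edge
      obtain ⟨r1, r2, hr1, hr2, h1, h2, hee⟩ : ∃ r1 r2, r1 ∈ R ∧ r2 ∈ R ∧ 0 < dt υ p r1 ∧
          dt υ p r2 < 0 ∧ (e = (r2, r1) ∨ e = (r1, r2)) := by
        rw [← hm, ← hm] at hem
        rcases mul_neg_iff.1 hem with ⟨a1, a2⟩ | ⟨a1, a2⟩
        · exact ⟨e.1, e.2, hin.1, hin.2, a1, a2, Or.inr rfl⟩
        · exact ⟨e.2, e.1, hin.2, hin.1, a2, a1, Or.inl rfl⟩
      have hr12 : r1 ≠ r2 := by rintro rfl; linarith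
      set γ' : Pt := (-(r1.2 - r2.2), r1.1 - r2.1) with hγ'
      set k' : ℝ := fn γ' r2 with hk'
      have hm' : ∀ z, dt r2 r1 z = fn γ' z - k' := fun z => dt_eq_fn r2 r1 z
      have hγ0 : γ' ≠ 0 := by
        intro h0
        have e1 := congrArg Prod.fst h0
        have e2 := congrArg Prod.snd h0
        rw [hγ'] at e1 e2
        simp only [Prod.fst_zero, Prod.snd_zero] at e1 e2
        exact hr12 (Prod.ext (by linarith) (by linarith))
      have hk1 : fn γ' r1 = k' := by
        have := hm' r1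
        rw [dt_self_right] at this
        linarith
      have hne : ∀ x ∈ insert υ B, fn γ' x ≠ k' := by
        intro x hx h0
        have h3 : dt r2 r1 x = 0 := by rw [hm', h0]; ring
        have hxR : x ∉ R := by
          intro h4
          rcases Finset.mem_insert.1 hx with h | h
          · exact hυR (Finset.mem_union_left _ (h ▸ h4))
          · exact Finset.disjoint_left.1 hD h4 h
        exact hG r2 (hRs hr2) r1 (hRs hr1) x (hBs hx) hr12.symm (fun h => hxR (h ▸ hr2))
          (fun h => hxR (h ▸ hr1)) h3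
      have htυ : k' < fn γ' υ := by
        have h3 : 0 < dt υ r2 r1 := by
          apply ang_trans (hRlow r2 hr2) hfp (hRlow r1 hr1) _ h1
          rw [dt_swap']; linarith
        rw [dt_rot] at h3
        have h4 : dt r1 υ r2 = dt r2 r1 υ := by rw [dt_rot]
        have := hm' υ
        linarith
      have hcnt : ∀ l : List Pt, cnt e (pe l) ≤ lc γ' k' l := by
        intro l
        rcases hee with h | h
        · rw [h]; exact cnt_le_lc rfl hk1 hγ0
        · rw [h]; exact cnt_le_lc hk1 rfl hγ0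
      have huniq : ∀ e' ∈ pe lR, (fn γ e'.1 - k) * (fn γ e'.2 - k) < 0 → e' = e := by
        intro e' he' hem'
        exact countP_unique hlc he' he (by simpa using hem') (by simpa using hem)
      -- finishing: it is enough to treat e
      have hfin : ∀ l0, HamPath (insert υ B) w υ l0 → cnt e (pe (d :: l0)) ≤ 2 →
          ∀ e' ∈ pe lR, cnt e' (pe (d :: l0)) ≤ 2 := by
        intro l0 h0 h3 e' he'
        by_cases h4 : (fn γ e'.1 - k) * (fn γ e'.2 - k) < 0
        · rw [huniq e' he' h4]; exact h3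
        · rw [cnt_zero]
          · omega
          · intro f hf hc
            apply h4
            apply hcr f.1 f.2 _ e' he' (crossE_comm.1 hc)
            cases l0 with
            | nil => simp at hf
            | cons a l0 =>
              have ha : a = w := by have := h0.hd; simpa using this
              rw [pe_cons_cons, List.mem_cons] at hf
              rcases hf with rfl | hf
              · right; exact ⟨rfl, ha⟩
              · left; exact h0.inside f hf
      have hsplit : ∀ l0, HamPath (insert υ B) w υ l0 →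
          cnt e (pe (d :: l0)) = cnt e (pe l0) + cnt e [(d, w)] := by
        intro l0 h0
        cases l0 with
        | nil => have := h0.hd; simp at this
        | cons a l0 =>
          have ha : a = w := by have := h0.hd; simpa using this
          subst ha
          rw [pe_cons_cons, cnt_cons, cnt_cons, cnt_nil, Nat.zero_add]
      by_cases htw : fn γ' w < k'
      · obtain ⟨l0, h0, h3⟩ := hvw.path_line (hG.mono hBs) hne hvυ htw htυ
        refine ⟨l0, h0, hfin l0 h0 ?_⟩
        rw [hsplit l0 h0]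
        have i1 := hcnt l0
        have i2 : cnt e [(d, w)] ≤ 1 := by rw [cnt_cons, cnt_nil]; split_ifs <;> simp
        omega
      · have htw' : k' < fn γ' w := lt_of_le_of_ne (not_lt.1 htw) (hne w (by simp [hwB])).symm
        obtain ⟨l0, h0, h3⟩ := hvw.path_two (hG.mono hBs) hne hvυ hw.ne
        refine ⟨l0, h0, hfin l0 h0 ?_⟩
        rw [hsplit l0 h0]
        have i1 := hcnt l0
        have i2 : cnt e [(d, w)] = 0 := by
          apply cnt_zero
          intro f hf hc
          have hfw : f = (d, w) := by simpa using hf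
          subst hfw
          have hc' : Cross d w r2 r1 := by
            rcases hee with h | h
            · rw [h] at hc; exact hc.symm
            · rw [h] at hc; exact (cross_swap_left.1 hc).symm
          have j1 : 0 < dt d w r1 :=
            hLF r1 hr1 w hwB (opp_trans hfd hfp (hRlow r1 hr1) hdp h1) hwE
          have j2 : dt d w r2 < 0 := by
            rcases mul_neg_iff.1 hc'.1 with ⟨_, a2⟩ | ⟨a1, _⟩
            · linarith
            · exact a1
          have j3 : dt d w r2 - dt d w r1 = dt r2 r1 w - dt r2 r1 d := by unfold dt; ring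
          have j4 : 0 < dt r2 r1 w := by have := hm' w; linarith
          have j5 : 0 < dt r2 r1 d := by linarith
          exact absurd hc'.2 (not_lt.2 (mul_pos j5 j4).le)
        omega
    · obtain ⟨l0, h0⟩ := hvw.path (hG.mono hBs) hvυ hw.ne
      refine ⟨l0, h0, ?_⟩
      intro e' he'
      rw [cnt_zero]
      · omega
      · intro f hf hc
        apply hex
        refine ⟨e', he', hcr f.1 f.2 ?_ e' he' (crossE_comm.1 hc)⟩
        cases l0 with
        | nil => simp at hf
        | cons a l0 =>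
          have ha : a = w := by have := h0.hd; simpa using this
          rw [pe_cons_cons, List.mem_cons] at hf
          rcases hf with rfl | hf
          · right; exact ⟨rfl, ha⟩
          · left; exact h0.inside f hf
  obtain ⟨l0, h0, h2⟩ := hl0
  obtain ⟨l', hl'⟩ : ∃ l', l0 = w :: l' := by
    cases l0 with
    | nil => have := h0.hd; simp at this
    | cons a l0 =>
      have ha : a = w := by have := h0.hd; simpa using this
      exact ⟨l0, by rw [ha]⟩
  have hdi : d ∉ insert υ B := by simp [hdυ, hdB]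
  have her : (insert d (insert υ B)).erase d = insert υ B := Finset.erase_insert hdi
  refine ⟨lR, d :: l0, w, l', hlR, ?_, ?_, h2, by rw [hl'], hwB, hwE⟩
  · apply HamPath.cons (c := w) (by simp)
    · rw [her]; exact h0
    · rw [her]; exact hwire
  · intro f hf
    refine le_trans ?_ hlc
    unfold cnt lc
    apply List.countP_mono_left
    intro e he hc
    simp only [decide_eq_true_eq] at *
    apply hcr f.1 f.2 _ e he hc
    rw [hl', pe_cons_cons, List.mem_cons] at hf
    rcases hf with rfl | hf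
    · right; exact ⟨rfl, rfl⟩
    · left
      rw [← hl'] at hf
      exact h0.inside f hf

/-- one half: red cycle and blue path leaving `d` on the positive side -/
theorem bf_half {R B : Finset Pt} {d d' υ c p g g' : Pt} {K : List Pt}
    (hG : GP (insert d (insert d' (insert υ (R ∪ B))))) (hD : Disjoint R B)
    (hdR : d ∉ R ∪ B) (hd'R : d' ∉ R ∪ B) (hυR : υ ∉ R ∪ B) (hdυ : d ≠ υ) (hd'υ : d' ≠ υ)
    (hfd : fn c d < fn c υ) (hfd' : fn c d' < fn c υ) (hlow : ∀ z ∈ R ∪ B, fn c υ < fn c z)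
    (hfp : fn c υ < fn c p) (hdp : 0 ≤ dt d υ p) (hd'p : dt d' υ p ≤ 0) (hpg : 0 < dt υ p g)
    (hpg' : dt υ p g' < 0) (hpr : ∀ r ∈ R, dt υ p r ≠ 0)
    (hLF : ∀ r ∈ R, (r ∈ K → r = g ∨ r = g') → ∀ b ∈ B, 0 < dt d υ r → 0 < dt d υ b →
      0 < dt d b r)
    (hLF' : ∀ r ∈ R, (r ∈ K → r = g ∨ r = g') → ∀ b ∈ B, dt d' υ r < 0 → dt d' υ b < 0 →
      dt d' b r < 0)
    (hb : ∃ b ∈ B, 0 < dt d υ b) (hvg : HV R g) (hvg' : HV R g')
    (hKn : K.Nodup) (hKR : ∀ x ∈ K, x ∈ R) (hKh : K.head? = some g) (hKl : K.getLast? = some g')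
    (hKe : ∀ e ∈ pe K, HE (R ∪ B) e.1 e.2) : Out R B d υ := by
  classical
  have hgg : g ≠ g' := by rintro rfl; linarith
  set R' : Finset Pt := R \ (K.toFinset \ {g, g'}) with hR'
  have hmem : ∀ r, r ∈ R' ↔ r ∈ R ∧ (r ∈ K → r = g ∨ r = g') := by
    intro r
    rw [hR', Finset.mem_sdiff, Finset.mem_sdiff, List.mem_toFinset]
    simp only [Finset.mem_insert, Finset.mem_singleton]
    tauto
  have hsub : R' ⊆ R := fun z hz => ((hmem z).1 hz).1
  have hgR : g ∈ R' := (hmem g).2 ⟨hvg.1, fun _ => Or.inl rfl⟩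
  have hgR' : g' ∈ R' := (hmem g').2 ⟨hvg'.1, fun _ => Or.inr rfl⟩
  have hsubB : R' ∪ B ⊆ R ∪ B := Finset.union_subset_union hsub (Finset.Subset.refl _)
  have hG' : GP (insert d (insert d' (insert υ (R' ∪ B)))) := hG.mono
    (Finset.insert_subset_insert _ (Finset.insert_subset_insert _
      (Finset.insert_subset_insert _ hsubB)))
  obtain ⟨lR, lB, w1, l', h1, h2, h3, h4, h5, h6, h7⟩ := bf_core (R := R') (B := B) (d := d)
    (d' := d') (υ := υ) (c := c) (p := p) (g := g) (g' := g') hG' (fun h => hdR (hsubB h))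
    (fun h => hυR (hsubB h)) hdυ (fun h => hd'R (hsubB h)) hd'υ
    (Finset.disjoint_of_subset_left hsub hD) hfd hfd' (fun z hz => hlow z (hsubB hz)) hfp hdp
    hd'p hpg hpg' (fun r hr => hpr r (hsub hr))
    (fun r hr => hLF r ((hmem r).1 hr).1 ((hmem r).1 hr).2)
    (fun r hr => hLF' r ((hmem r).1 hr).1 ((hmem r).1 hr).2) hb (hvg.mono hsub hgR)
    (hvg'.mono hsub hgR')
  obtain ⟨b0, hb0, _⟩ := hb
  have hconf : Conf (pe lR) (pe lB) := by
    refine ⟨h1.nc, h2.nc, h4, ?_⟩
    intro f hf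
    have := h3 f hf
    omega
  obtain ⟨E, hE1, hE2⟩ := closeK (R := R) (B := B) (d := d) (υ := υ) (a := g) (a' := g') (K := K)
    (lR := lR) (lB := lB)
    (hG.mono (fun z hz => by
      rw [Finset.mem_insert, Finset.mem_insert, Finset.mem_insert]
      exact Or.inr (Or.inr (Or.inr hz)))) ⟨b0, hb0⟩
    (fun h => hdR (Finset.mem_union_right _ h)) (fun h => hυR (Finset.mem_union_right _ h)) hdυ hgg
    hKn hKR hKh hKl hKe h1 h2 hconf
    (fun e he => h3 e (List.mem_of_mem_head? he))
    (fun e he => h3 e (List.mem_of_getLast? he))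
  exact ⟨E, lB, w1, l', hE1, h2, hE2, h5, h6, h7⟩

/-- the line `υ p` -/
theorem exists_line {R B : Finset Pt} {d1 d2 υ c g g' : Pt}
    (hG : GP (insert d1 (insert d2 (insert υ (R ∪ B))))) (hd1 : d1 ∉ R ∪ B) (hd2 : d2 ∉ R ∪ B)
    (hυ : υ ∉ R ∪ B) (h1υ : d1 ≠ υ) (h2υ : d2 ≠ υ) (hdd : d1 = d2 ∨ 0 < dt υ d1 d2)
    (hf1 : fn c d1 < fn c υ) (hf2 : fn c d2 < fn c υ) (hlow : ∀ z ∈ R ∪ B, fn c υ < fn c z)
    (hg : g ∈ R) (hg' : g' ∈ R) (hgg : 0 < dt υ g' g) (h1g : 0 < dt d1 υ g)
    (h2g : dt d2 υ g' < 0) :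
    ∃ p, fn c υ < fn c p ∧ 0 ≤ dt d1 υ p ∧ dt d2 υ p ≤ 0 ∧ 0 < dt υ p g ∧ dt υ p g' < 0 ∧
      ∀ r ∈ R, dt υ p r ≠ 0 := by
  classical
  have hRs : ∀ r ∈ R, r ∈ insert d1 (insert d2 (insert υ (R ∪ B))) := fun r hr => by simp [hr]
  have hdd0 : 0 ≤ dt υ d1 d2 := by
    rcases hdd with h | h
    · rw [h]; simp
    · exact h.le
  have hυr : ∀ r ∈ R, r ≠ υ := fun r hr e => hυ (Finset.mem_union_left _ (e ▸ hr))
  by_cases c1 : dt d1 υ g' < 0
  · refine ⟨(2 * υ.1 - d1.1, 2 * υ.2 - d1.2), ?_, ?_, ?_, ?_, ?_, ?_⟩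
    · unfold fn at hf1 ⊢; simp only; linarith
    · have : dt d1 υ (2 * υ.1 - d1.1, 2 * υ.2 - d1.2) = 0 := by unfold dt; simp only; ring
      rw [this]
    · have : dt d2 υ (2 * υ.1 - d1.1, 2 * υ.2 - d1.2) = - dt υ d1 d2 := by
        unfold dt; simp only; ring
      rw [this]; linarith
    · have : dt υ (2 * υ.1 - d1.1, 2 * υ.2 - d1.2) g = dt d1 υ g := by unfold dt; simp only; ring
      rw [this]; exact h1g
    · have : dt υ (2 * υ.1 - d1.1, 2 * υ.2 - d1.2) g' = dt d1 υ g' := by
        unfold dt; simp only; ring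
      rw [this]; exact c1
    · intro r hr
      have : dt υ (2 * υ.1 - d1.1, 2 * υ.2 - d1.2) r = dt d1 υ r := by unfold dt; simp only; ring
      rw [this]
      exact hG d1 (by simp) υ (by simp) r (hRs r hr) h1υ
        (fun e => hd1 (Finset.mem_union_left _ (e ▸ hr))) (hυr r hr).symm
  by_cases c2 : 0 < dt d2 υ g
  · refine ⟨(2 * υ.1 - d2.1, 2 * υ.2 - d2.2), ?_, ?_, ?_, ?_, ?_, ?_⟩
    · unfold fn at hf2 ⊢; simp only; linarith
    · have : dt d1 υ (2 * υ.1 - d2.1, 2 * υ.2 - d2.2) = dt υ d1 d2 := by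
        unfold dt; simp only; ring
      rw [this]; exact hdd0
    · have : dt d2 υ (2 * υ.1 - d2.1, 2 * υ.2 - d2.2) = 0 := by unfold dt; simp only; ring
      rw [this]
    · have : dt υ (2 * υ.1 - d2.1, 2 * υ.2 - d2.2) g = dt d2 υ g := by unfold dt; simp only; ring
      rw [this]; exact c2
    · have : dt υ (2 * υ.1 - d2.1, 2 * υ.2 - d2.2) g' = dt d2 υ g' := by
        unfold dt; simp only; ring
      rw [this]; exact h2g
    · intro r hr
      have : dt υ (2 * υ.1 - d2.1, 2 * υ.2 - d2.2) r = dt d2 υ r := by unfold dt; simp only; ring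
      rw [this]
      exact hG d2 (by simp) υ (by simp) r (hRs r hr) h2υ
        (fun e => hd2 (Finset.mem_union_left _ (e ▸ hr))) (hυr r hr).symm
  -- a generic point between g' and g
  push Not at c1 c2
  have hgne : g ≠ g' := by rintro rfl; simp at hgg
  obtain ⟨t, ht, htb⟩ := (Set.Ioo_infinite (show (0 : ℝ) < 1 by norm_num)).exists_notMem_finset
    (R.image (fun r => dt υ g' r / (dt υ g' r - dt υ g r)))
  obtain ⟨t0, t1⟩ := ht
  have s0 : 0 < 1 - t := by linarith
  have hst : (1 - t) + t = 1 := by ring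
  refine ⟨(1 - t) • g' + t • g, ?_, ?_, ?_, ?_, ?_, ?_⟩
  · rw [fn_combo]
    have i1 := mul_pos s0 (sub_pos.2 (hlow g' (Finset.mem_union_left _ hg')))
    have i2 := mul_pos t0 (sub_pos.2 (hlow g (Finset.mem_union_left _ hg)))
    linarith
  · rw [dt_combo _ _ _ _ _ _ hst]
    exact add_nonneg (mul_nonneg s0.le c1) (mul_pos t0 h1g).le
  · rw [dt_combo _ _ _ _ _ _ hst]
    have i1 := mul_neg_of_pos_of_neg s0 h2g
    have i2 := mul_nonpos_of_nonneg_of_nonpos t0.le c2
    linarith
  · have e : dt υ ((1 - t) • g' + t • g) g = (1 - t) * dt υ g' g := by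
      rw [dt_swap', dt_combo _ _ _ _ _ _ hst, dt_self_right, dt_swap' υ g' g]; ring
    rw [e]; exact mul_pos s0 hgg
  · have e : dt υ ((1 - t) • g' + t • g) g' = - (t * dt υ g' g) := by
      rw [dt_swap', dt_combo _ _ _ _ _ _ hst, dt_self_right]; ring
    rw [e]
    have := mul_pos t0 hgg
    linarith
  · intro r hr h0
    have e : dt υ ((1 - t) • g' + t • g) r = (1 - t) * dt υ g' r + t * dt υ g r := by
      rw [dt_swap', dt_combo _ _ _ _ _ _ hst, dt_swap' υ g' r, dt_swap' υ g r]; ring
    rw [e] at h0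
    by_cases h1 : dt υ g' r = dt υ g r
    · have h2 : dt υ g' r = 0 := by rw [← h1] at h0; linarith
      by_cases h3 : r = g'
      · rw [h3] at h1
        rw [dt_self_right, dt_swap'] at h1
        linarith
      · exact hG υ (by simp) g' (hRs g' hg') r (hRs r hr) (hυr g' hg').symm (hυr r hr).symm
          (Ne.symm h3) h2
    · apply htb
      rw [Finset.mem_image]
      refine ⟨r, hr, ?_⟩
      have h2 : dt υ g' r - dt υ g r ≠ 0 := sub_ne_zero.2 h1
      rw [div_eq_iff h2]
      linarith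

/-- transfer of the conclusion to the mirror image -/
theorem Out.of_mir {R B : Finset Pt} {d υ : Pt} (h : Out (R.image mir) (B.image mir) (mir d) (mir υ)) :
    Out' R B d υ := by
  classical
  obtain ⟨E, l, w1, l', h1, h2, h3, h4, h5, h6⟩ := h
  refine ⟨E.map mirE, l.map mir, mir w1, l'.map mir, ?_, ?_, ?_, ?_, ?_, ?_⟩
  · have := h1.mir
    rw [image_mir_mir] at this
    exact this
  · have := h2.mir
    rw [Finset.image_insert, Finset.image_insert, image_mir_mir, mir_mir, mir_mir] at this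
    exact this
  · have := h3.mir
    rw [pe_mir]
    exact this
  · rw [h4, List.map_cons, List.map_cons, mir_mir]
  · have := mem_image_mir.2 h5
    rwa [image_mir_mir] at this
  · have : dt (mir (mir d)) (mir (mir υ)) (mir w1) = - dt (mir d) (mir υ) w1 := dt_mir _ _ _
    rw [mir_mir, mir_mir] at this
    rw [this]; linarith

theorem bf : BFStmt := by
  classical
  intro R B d1 d2 υ c g g' K hG hD hB hd1 hd2 hυ h1υ h2υ hdd hf1 hf2 hlow he1 he2 hKn hKR hKh hKl
    hKe hgg hgo hLF hLF'
  have hg : g ∈ R := hKR g (List.mem_of_mem_head? hKh)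
  have hg' : g' ∈ R := hKR g' (List.mem_of_getLast? hKl)
  have hυr : ∀ r ∈ R, r ≠ υ := fun r hr e => hυ (Finset.mem_union_left _ (e ▸ hr))
  have h1g : 0 < dt d1 υ g := by
    have := he1.2.2.2 υ (by simp) (hυr g hg).symm h1υ.symm
    rw [dt_rot]; exact this
  have h2g : dt d2 υ g' < 0 := by
    have := he2.2.2.2 υ (by simp) h2υ.symm (hυr g' hg').symm
    rw [dt_swap']; linarith
  obtain ⟨p, hp1, hp2, hp3, hp4, hp5, hp6⟩ := exists_line hG hd1 hd2 hυ h1υ h2υ hdd hf1 hf2 hlow
    hg hg' hgo h1g h2g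
  have hRs : R ⊆ insert d1 (insert υ (R ∪ B)) := fun z hz => by simp [hz]
  have hRs' : R ⊆ insert d2 (insert υ (R ∪ B)) := fun z hz => by simp [hz]
  have hvg : HV R g := he1.hv_left.mono hRs hg
  have hvg' : HV R g' := he2.hv_right.mono hRs' hg'
  by_cases hb : ∃ b ∈ B, 0 < dt d1 υ b
  · left
    exact bf_half hG hD hd1 hd2 hυ h1υ h2υ hf1 hf2 hlow hp1 hp2 hp3 hp4 hp5 hp6 hLF hLF' hb hvg
      hvg' hKn hKR hKh hKl hKe
  · right
    push Not at hb
    obtain ⟨b0, hb0⟩ := hB
    have hb0' : dt d2 υ b0 < 0 := by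
      have h0 : dt d1 υ b0 ≠ 0 := hG d1 (by simp) υ (by simp) b0 (by simp [hb0]) h1υ
        (fun e => hd1 (Finset.mem_union_right _ (e ▸ hb0)))
        (fun e => hυ (Finset.mem_union_right _ (e ▸ hb0)))
      have h1 : dt d1 υ b0 < 0 := lt_of_le_of_ne (hb b0 hb0) h0
      have hdd0 : 0 ≤ dt υ d1 d2 := by
        rcases hdd with h | h
        · rw [h]; simp
        · exact h.le
      have key : - dt d2 υ b0 * (fn c υ - fn c d1) = - dt d1 υ b0 * (fn c υ - fn c d2) +
          dt υ d1 d2 * (fn c b0 - fn c υ) := by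
        unfold dt fn; ring
      have i1 := mul_pos (neg_pos.2 h1) (sub_pos.2 hf2)
      have i2 := mul_nonneg hdd0 (sub_pos.2 (hlow b0 (Finset.mem_union_right _ hb0))).le
      by_contra hc
      have i3 := mul_nonneg (not_lt.1 hc) (sub_pos.2 hf1).le
      nlinarith
    apply Out.of_mir
    have hset : insert (mir d2) (insert (mir d1) (insert (mir υ) (R.image mir ∪ B.image mir))) =
        (insert d1 (insert d2 (insert υ (R ∪ B)))).image mir := by
      rw [Finset.image_insert, Finset.image_insert, Finset.image_insert, Finset.image_union,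
        Finset.insert_comm]
    have hni : ∀ z, z ∉ R ∪ B → mir z ∉ R.image mir ∪ B.image mir := by
      intro z hz
      rw [union_image_mir, mem_image_mir]
      exact hz
    refine bf_half (R := R.image mir) (B := B.image mir) (d := mir d2) (d' := mir d1)
      (υ := mir υ) (c := mir c) (p := mir p) (g := mir g') (g' := mir g)
      (K := (K.map mir).reverse) ?_ ?_ (hni d2 hd2) (hni d1 hd1) (hni υ hυ)
      (fun e => h2υ (mir_inj e)) (fun e => h1υ (mir_inj e)) ?_ ?_ ?_ ?_ ?_ ?_ ?_ ?_ ?_ ?_ ?_ ?_ ?_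
      ?_ ?_ ?_ ?_ ?_ ?_
    · rw [hset]; exact hG.mir
    · rw [Finset.disjoint_image mir_inj]; exact hD
    · rw [fn_mir, fn_mir]; exact hf2
    · rw [fn_mir, fn_mir]; exact hf1
    · intro z hz
      rw [union_image_mir] at hz
      obtain ⟨y, hy, rfl⟩ := Finset.mem_image.1 hz
      rw [fn_mir, fn_mir]; exact hlow y hy
    · rw [fn_mir, fn_mir]; exact hp1
    · rw [dt_mir]; linarith
    · rw [dt_mir]; linarith
    · rw [dt_mir]; linarith
    · rw [dt_mir]; linarith
    · intro r hr
      obtain ⟨y, hy, rfl⟩ := Finset.mem_image.1 hr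
      rw [dt_mir]
      exact neg_ne_zero.2 (hp6 y hy)
    · intro r hr hrK b hb' i1 i2
      obtain ⟨y, hy, rfl⟩ := Finset.mem_image.1 hr
      obtain ⟨z, hz, rfl⟩ := Finset.mem_image.1 hb'
      rw [dt_mir] at i1 i2 ⊢
      have := hLF' y hy (by
        intro hyK
        have h1 := hrK (by
          rw [List.mem_reverse, List.mem_map]
          exact ⟨y, hyK, rfl⟩)
        rcases h1 with h1 | h1
        · exact Or.inr (mir_inj h1)
        · exact Or.inl (mir_inj h1)) z hz (by linarith) (by linarith)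
      linarith
    · intro r hr hrK b hb' i1 i2
      obtain ⟨y, hy, rfl⟩ := Finset.mem_image.1 hr
      obtain ⟨z, hz, rfl⟩ := Finset.mem_image.1 hb'
      rw [dt_mir] at i1 i2 ⊢
      have := hLF y hy (by
        intro hyK
        have h1 := hrK (by
          rw [List.mem_reverse, List.mem_map]
          exact ⟨y, hyK, rfl⟩)
        rcases h1 with h1 | h1
        · exact Or.inr (mir_inj h1)
        · exact Or.inl (mir_inj h1)) z hz (by linarith) (by linarith)
      linarith
    · refine ⟨mir b0, Finset.mem_image_of_mem _ hb0, ?_⟩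
      rw [dt_mir]; linarith
    · exact hvg'.mir
    · exact hvg.mir
    · rw [List.nodup_reverse]
      exact hKn.map mir_inj
    · intro x hx
      rw [List.mem_reverse, List.mem_map] at hx
      obtain ⟨y, hy, rfl⟩ := hx
      exact Finset.mem_image_of_mem _ (hKR y hy)
    · rw [List.head?_reverse, List.getLast?_map, hKl]; rfl
    · rw [List.getLast?_reverse, List.head?_map, hKh]; rfl
    · intro e he
      rw [pe_reverse, List.mem_reverse] at he
      obtain ⟨f, hf, rfl⟩ := List.mem_map.1 he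
      rw [pe_mir] at hf
      obtain ⟨f', hf', rfl⟩ := List.mem_map.1 hf
      rw [union_image_mir]
      exact (hKe f' hf').mir

end Pool.Agent.TK
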