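import Pool.Agent.TK.Mirror

/-!
# Tokunaga's problem: the double penalty lemma (GDPL)
-/

set_option autoImplicit false

namespace Pool.Agent.TK

/-! ### around a point seen in a half plane -/

/-- the last point of a set around `z` -/
theorem exists_leftmost {a z : Pt} {T : Finset Pt} (hT : T.Nonempty) (hH : Half a z T)
    (hG : ∀ x ∈ T, ∀ y ∈ T, x ≠ y → dt z x y ≠ 0) :
    ∃ m ∈ T, ∀ x ∈ T, x ≠ m → 0 < dt z x m := by
  obtain ⟨l, _, ht, hp⟩ := exists_angular hH hG
  rcases List.eq_nil_or_concat l with rfl | ⟨l', m, rfl⟩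
  · exfalso
    rw [List.toFinset_nil] at ht
    rw [← ht] at hT
    simp at hT
  · refine ⟨m, by rw [← ht]; simp, ?_⟩
    intro x hx hxm
    rw [← ht, List.mem_toFinset, List.concat_eq_append, List.mem_append, List.mem_singleton] at hx
    rcases hx with hx | hx
    · rw [List.concat_eq_append, List.pairwise_append] at hp
      exact hp.2.2 x hx m (by simp)
    · exact absurd hx hxm

/-- the first point of a set around `z` -/
theorem exists_rightmost {a z : Pt} {T : Finset Pt} (hT : T.Nonempty) (hH : Half a z T)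
    (hG : ∀ x ∈ T, ∀ y ∈ T, x ≠ y → dt z x y ≠ 0) :
    ∃ m ∈ T, ∀ x ∈ T, x ≠ m → 0 < dt z m x := by
  obtain ⟨l, _, ht, hp⟩ := exists_angular hH hG
  cases l with
  | nil =>
    exfalso
    rw [List.toFinset_nil] at ht
    rw [← ht] at hT
    simp at hT
  | cons m l =>
    refine ⟨m, by rw [← ht]; simp, ?_⟩
    intro x hx hxm
    rw [← ht, List.mem_toFinset, List.mem_cons] at hx
    rcases hx with hx | hx
    · exact absurd hx hxm
    · exact (List.pairwise_cons.1 hp).1 x hx

/-- points to the left of an L-type point are L-type -/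
theorem ltype_left {c d υ x w : Pt} (hd : fn c d < fn c υ) (hx : fn c υ < fn c x)
    (hw : fn c υ < fn c w) (h1 : 0 < dt υ x w) (h2 : 0 < dt d υ x) : 0 < dt d υ w := by
  have key : dt d υ w * (fn c x - fn c υ) =
      dt d υ x * (fn c w - fn c υ) + dt υ x w * (fn c υ - fn c d) := by
    unfold dt fn; ring
  have h3 : 0 < dt d υ w * (fn c x - fn c υ) := by
    rw [key]
    exact add_pos (mul_pos h2 (by linarith)) (mul_pos h1 (by linarith))
  by_contra hcon
  have := mul_nonneg_of_nonpos_of_nonpos (not_lt.1 hcon) (by linarith : -(fn c x - fn c υ) ≤ 0)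
  linarith

/-! ### adding edges -/

theorem HamPath.cons' {W : Finset Pt} {s c t : Pt} {l : List Pt} (hs : s ∉ W)
    (h : HamPath W c t l) (hc : ∀ r ∈ W, ∀ q ∈ W, ¬ Cross s c r q) :
    HamPath (insert s W) s t (s :: l) := by
  classical
  apply HamPath.cons (Finset.mem_insert_self s W) (c := c)
  · rw [Finset.erase_insert hs]; exact h
  · rw [Finset.erase_insert hs]; exact hc

theorem pe_cons_of_head {s c : Pt} {l : List Pt} (h : l.head? = some c) :
    pe (s :: l) = (s, c) :: pe l := by
  cases l with
  | nil => simp at h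
  | cons b l => have : b = c := by simpa using h
                subst this; rfl

/-- a new red edge at the beginning which crosses nothing -/
theorem TwoPaths.add_red {R B : Finset Pt} {a r r' b b' : Pt} {lR lB : List Pt} (ha : a ∉ R)
    (h : TwoPaths R B r r' b b' lR lB) (h1 : ∀ x ∈ R, ∀ y ∈ R, ¬ Cross a r x y)
    (h2 : ∀ f ∈ pe lB, ¬ CrossE (a, r) f) :
    TwoPaths (insert a R) B a r' b b' (a :: lR) lB ∧
      (FirstOne lB lR → FirstOne lB (a :: lR)) ∧ (LastOne lB lR → LastOne lB (a :: lR)) := by
  have hpe := pe_cons_of_head (s := a) h.hR.hd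
  have hcnt : ∀ f ∈ pe lB, cnt f (pe (a :: lR)) = cnt f (pe lR) := by
    intro f hf
    rw [hpe]
    have := cnt_append f [(a, r)] (pe lR)
    rw [List.singleton_append] at this
    rw [this, cnt_zero, zero_add]
    intro g hg
    rw [List.mem_singleton] at hg
    rw [hg]
    exact fun hc => h2 f hf hc.symm
  refine ⟨⟨h.hR.cons' ha h1, h.hB, ?_, ?_⟩, ?_, ?_⟩
  · intro e he
    rw [hpe, List.mem_cons] at he
    rcases he with rfl | he
    · rw [cnt_zero h2]; omega
    · exact h.cR e he
  · intro f hf
    rw [hcnt f hf]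
    exact h.cB f hf
  · intro hF e he
    rw [hcnt e (List.mem_of_mem_head? (by rw [he]; rfl))]
    exact hF e he
  · intro hF e he
    rw [hcnt e (List.mem_of_getLast? he)]
    exact hF e he

theorem getLast?_cons_of_ne {α : Type*} {x : α} {l : List α} (h : l ≠ []) :
    (x :: l).getLast? = l.getLast? := by
  cases l with
  | nil => exact absurd rfl h
  | cons y l => rw [List.getLast?_cons_cons]

theorem HamPath.pe_ne_nil {W : Finset Pt} {s t : Pt} {l : List Pt} (h : HamPath W s t l)
    (hst : s ≠ t) : pe l ≠ [] := by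
  intro hn
  cases l with
  | nil => have := h.hd; simp at this
  | cons a l =>
    cases l with
    | nil =>
      have h1 := h.hd
      have h2 := h.la
      simp at h1 h2
      exact hst (h1.symm.trans h2)
    | cons b l => simp at hn

/-- the wires `d -> p` and `a -> q`, which may cross each other -/
theorem dbl_wires {R B : Finset Pt} {a a' d υ p q : Pt} {lR lB : List Pt} (ha : a ∉ R)
    (hd : d ∉ B) (hpυ : p ≠ υ) (h : TwoPaths R B q a' p υ lR lB) (hL : LastOne lB lR)
    (hq : ∀ x ∈ R ∪ B, ∀ y ∈ R ∪ B, ¬ Cross a q x y)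
    (hp : ∀ x ∈ R ∪ B, ∀ y ∈ R ∪ B, ¬ Cross d p x y) :
    TwoPaths (insert a R) (insert d B) a a' d υ (a :: lR) (d :: lB) ∧
      FirstOne (d :: lB) (a :: lR) ∧ LastOne (d :: lB) (a :: lR) := by
  have hpR := pe_cons_of_head (s := a) h.hR.hd
  have hpB := pe_cons_of_head (s := d) h.hB.hd
  have mR : ∀ e ∈ pe lR, e.1 ∈ R ∪ B ∧ e.2 ∈ R ∪ B := by
    intro e he
    have := mem_of_mem_pe he
    exact ⟨Finset.mem_union_left _ (h.hR.mem.1 this.1), Finset.mem_union_left _ (h.hR.mem.1 this.2)⟩
  have mB : ∀ e ∈ pe lB, e.1 ∈ R ∪ B ∧ e.2 ∈ R ∪ B := by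
    intro e he
    have := mem_of_mem_pe he
    exact ⟨Finset.mem_union_right _ (h.hB.mem.1 this.1),
      Finset.mem_union_right _ (h.hB.mem.1 this.2)⟩
  have c1 : ∀ f ∈ pe lB, cnt f (pe (a :: lR)) = cnt f (pe lR) := by
    intro f hf
    rw [hpR]
    have := cnt_append f [(a, q)] (pe lR)
    rw [List.singleton_append] at this
    rw [this, cnt_zero, zero_add]
    intro g hg
    rw [List.mem_singleton] at hg
    rw [hg]
    exact fun hc => hq _ (mB f hf).1 _ (mB f hf).2 hc.symm
  have c2 : ∀ f ∈ pe lR, cnt f (pe (d :: lB)) = cnt f (pe lB) := by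
    intro f hf
    rw [hpB]
    have := cnt_append f [(d, p)] (pe lB)
    rw [List.singleton_append] at this
    rw [this, cnt_zero, zero_add]
    intro g hg
    rw [List.mem_singleton] at hg
    rw [hg]
    exact fun hc => hp _ (mR f hf).1 _ (mR f hf).2 hc.symm
  have c3 : cnt (a, q) (pe (d :: lB)) ≤ 1 := by
    rw [hpB]
    have := cnt_append (a, q) [(d, p)] (pe lB)
    rw [List.singleton_append] at this
    rw [this, cnt_zero (e := (a, q)) (l := pe lB) (fun f hf => hq _ (mB f hf).1 _ (mB f hf).2),
      add_zero]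
    exact cnt_single_le _ _
  have c4 : cnt (d, p) (pe (a :: lR)) ≤ 1 := by
    rw [hpR]
    have := cnt_append (d, p) [(a, q)] (pe lR)
    rw [List.singleton_append] at this
    rw [this, cnt_zero (e := (d, p)) (l := pe lR) (fun f hf => hp _ (mR f hf).1 _ (mR f hf).2),
      add_zero]
    exact cnt_single_le _ _
  refine ⟨⟨h.hR.cons' ha ?_, h.hB.cons' hd ?_, ?_, ?_⟩, ?_, ?_⟩
  · intro x hx y hy
    exact hq x (Finset.mem_union_left _ hx) y (Finset.mem_union_left _ hy)
  · intro x hx y hy
    exact hp x (Finset.mem_union_right _ hx) y (Finset.mem_union_right _ hy)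
  · intro e he
    rw [hpR, List.mem_cons] at he
    rcases he with rfl | he
    · omega
    · rw [c2 e he]; exact h.cR e he
  · intro e he
    rw [hpB, List.mem_cons] at he
    rcases he with rfl | he
    · omega
    · rw [c1 e he]; exact h.cB e he
  · intro e he
    rw [hpB] at he
    have : e = (d, p) := by simpa using he.symm
    rw [this]; exact c4
  · intro e he
    rw [hpB, getLast?_cons_of_ne (h.hB.pe_ne_nil hpυ)] at he
    rw [c1 e (List.mem_of_getLast? he)]
    exact hL e he

/-- the wire `d -> p` which crosses nothing -/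
theorem free_wire {R B : Finset Pt} {a a' d υ p : Pt} {lR lB : List Pt}
    (hd : d ∉ B) (hpυ : p ≠ υ) (h : TwoPaths R B a a' p υ lR lB) (hL : LastOne lB lR)
    (hp : ∀ x ∈ R ∪ B, ∀ y ∈ R ∪ B, ¬ Cross d p x y) :
    TwoPaths R (insert d B) a a' d υ lR (d :: lB) ∧
      FirstOne (d :: lB) lR ∧ LastOne (d :: lB) lR := by
  have hpB := pe_cons_of_head (s := d) h.hB.hd
  have mR : ∀ e ∈ pe lR, e.1 ∈ R ∪ B ∧ e.2 ∈ R ∪ B := by
    intro e he
    have := mem_of_mem_pe he
    exact ⟨Finset.mem_union_left _ (h.hR.mem.1 this.1), Finset.mem_union_left _ (h.hR.mem.1 this.2)⟩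
  have c2 : ∀ f ∈ pe lR, cnt f (pe (d :: lB)) = cnt f (pe lB) := by
    intro f hf
    rw [hpB]
    have := cnt_append f [(d, p)] (pe lB)
    rw [List.singleton_append] at this
    rw [this, cnt_zero, zero_add]
    intro g hg
    rw [List.mem_singleton] at hg
    rw [hg]
    exact fun hc => hp _ (mR f hf).1 _ (mR f hf).2 hc.symm
  have c4 : cnt (d, p) (pe lR) = 0 := cnt_zero (fun f hf => hp _ (mR f hf).1 _ (mR f hf).2)
  refine ⟨⟨h.hR, h.hB.cons' hd ?_, ?_, ?_⟩, ?_, ?_⟩
  · intro x hx y hy
    exact hp x (Finset.mem_union_right _ hx) y (Finset.mem_union_right _ hy)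
  · intro e he
    rw [c2 e he]; exact h.cR e he
  · intro e he
    rw [hpB, List.mem_cons] at he
    rcases he with rfl | he
    · omega
    · exact h.cB e he
  · intro e he
    rw [hpB] at he
    have : e = (d, p) := by simpa using he.symm
    rw [this]; omega
  · intro e he
    rw [hpB, getLast?_cons_of_ne (h.hB.pe_ne_nil hpυ)] at he
    exact hL e he

/-! ### visibility -/

/-- `d` sees the hull edge `p q` between its tangent point `e` and `υ` -/
theorem vis_d {Q : Finset Pt} {c d υ e p q : Pt} (hG : GP (insert d Q)) (hdQ : d ∉ Q)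
    (hυ : υ ∈ Q) (he : HE (insert d Q) e d) (up : fn c d < fn c υ)
    (low : ∀ z ∈ Q, z ≠ υ → fn c υ < fn c z) (heυ : e ≠ υ) (hL : 0 < dt d υ e) (hpq : HE Q p q)
    (hpυ : p ≠ υ) (hpe : p = e ∨ 0 < dt υ e p) : dt p q d < 0 := by
  have heQ : e ∈ Q := by
    rcases Finset.mem_insert.1 he.1 with h | h
    · exact absurd h he.ne
    · exact h
  have hdp : p ≠ d := fun h => hdQ (h ▸ hpq.1)
  have hdq : q ≠ d := fun h => hdQ (h ▸ hpq.2.1)
  have h0 : dt p q d ≠ 0 := hG p (Finset.mem_insert_of_mem hpq.1) q
    (Finset.mem_insert_of_mem hpq.2.1) d (Finset.mem_insert_self d Q) hpq.ne hdp hdq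
  by_contra hcon
  have hpos : 0 < dt p q d := lt_of_le_of_ne (not_lt.1 hcon) (Ne.symm h0)
  have hHE : HE (insert d Q) p q := by
    refine ⟨Finset.mem_insert_of_mem hpq.1, Finset.mem_insert_of_mem hpq.2.1, hpq.ne, ?_⟩
    intro z hz h1 h2
    rcases Finset.mem_insert.1 hz with rfl | hz
    · exact hpos
    · exact hpq.2.2.2 z hz h1 h2
  rcases hpe with rfl | hpe
  · exact hdq (HE.next_unique hHE he)
  · have hpe' : p ≠ e := by rintro rfl; simp at hpe
    have h1 : 0 < dt d υ p := ltype_left up (low e heQ heυ) (low p hpq.1 hpυ) hpe hL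
    exact hHE.hv_left.not_in_triangle (Finset.mem_insert_self d Q) (Finset.mem_insert_of_mem hυ)
      he.1 h1 hpe (he.2.2.2 p hHE.1 hpe' hdp)

/-- the segment from a point beyond the hull edge `p q` to `p` or `q` does not meet the hull -/
theorem seen_left {Q : Finset Pt} {a p q : Pt} (hpq : HE Q p q) (ha : dt p q a < 0) :
    ∀ x ∈ Q, ∀ y ∈ Q, ¬ Cross a p x y := by
  intro x hx y hy
  have key : ∀ x ∈ Q, 0 ≤ (1 : ℝ) * dt p q x := by
    intro x hx
    rw [one_mul]
    by_cases h1 : x = p
    · rw [h1]; simp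
    by_cases h2 : x = q
    · rw [h2]; simp
    exact (hpq.2.2.2 x hx h1 h2).le
  exact sep_line (σ := 1) (a := p) (b := q) (by rw [one_mul]; exact ha) (by simp) (key x hx)
    (key y hy)

theorem seen_right {Q : Finset Pt} {a p q : Pt} (hpq : HE Q p q) (ha : dt p q a < 0) :
    ∀ x ∈ Q, ∀ y ∈ Q, ¬ Cross a q x y := by
  intro x hx y hy
  have key : ∀ x ∈ Q, 0 ≤ (1 : ℝ) * dt p q x := by
    intro x hx
    rw [one_mul]
    by_cases h1 : x = p
    · rw [h1]; simp
    by_cases h2 : x = q
    · rw [h2]; simp
    exact (hpq.2.2.2 x hx h1 h2).le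
  exact sep_line (σ := 1) (a := p) (b := q) (by rw [one_mul]; exact ha) (by simp) (key x hx)
    (key y hy)

/-- the hull edge `p g` of the set without `a` is a hull edge of the whole set -/
theorem lift_edge {a υ g1 p g : Pt} (h0 : 0 < dt υ a p) (h2 : 0 < dt υ g1 p)
    (h3 : 0 < dt a g1 p) (h4 : 0 < dt p g υ) (h5 : 0 < dt p g g1) : 0 < dt p g a := by
  have key : dt p g g1 * dt υ a p = dt a p g1 * dt p g υ + dt p υ g1 * dt p g a := by
    unfold dt; ring
  have e1 : dt a p g1 = - dt a g1 p := dt_swap' a g1 p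
  have e2 : dt p υ g1 = dt υ g1 p := by unfold dt; ring
  have h6 := mul_pos h5 h0
  have h7 := mul_pos h3 h4
  rw [key, e1, e2] at h6
  have h8 : 0 < dt υ g1 p * dt p g a := by linarith
  exact (mul_pos_iff_of_pos_left h2).1 h8

/-- `a` sees the hull edge `p q` -/
theorem vis_a {R B : Finset Pt} {a d υ c p q : Pt} (hG : GP (insert d (insert υ (R ∪ B))))
    (ha : a ∈ R) (haB : a ∉ B) (hυ : υ ∉ R ∪ B) (hdn : d ∉ R ∪ B)
    (he : HE (insert d (insert υ (R ∪ B))) a d) (up : fn c d < fn c υ)
    (low : ∀ z ∈ R ∪ B, fn c υ < fn c z)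
    (hX : ∀ g ∈ B, HV (insert υ (R ∪ B)) g → ¬ 0 < dt υ a g)
    (hpq : HE (insert υ (R.erase a ∪ B)) p q) (hpB : p ∈ B) (hpa : p ≠ a) (hqυ : q ≠ υ)
    (hLp : 0 < dt d υ p) (hd : dt p q d < 0) : dt p q a < 0 := by
  classical
  have hsub : insert υ (R.erase a ∪ B) ⊆ insert υ (R ∪ B) :=
    Finset.insert_subset_insert _ (Finset.union_subset_union (Finset.erase_subset _ _)
      (Finset.Subset.refl _))
  have hsub2 : insert υ (R ∪ B) ⊆ insert d (insert υ (R ∪ B)) := Finset.subset_insert _ _
  have haS : a ∈ insert υ (R ∪ B) := Finset.mem_insert_of_mem (Finset.mem_union_left _ ha)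
  have haυ : a ≠ υ := fun h => hυ (h ▸ Finset.mem_union_left _ ha)
  have hpυ : p ≠ υ := fun h => hυ (h ▸ Finset.mem_union_right _ hpB)
  have hpW : p ∈ R ∪ B := Finset.mem_union_right _ hpB
  have hqQ := hpq.2.1
  have hqW : q ∈ R.erase a ∪ B := by
    rcases Finset.mem_insert.1 hqQ with h | h
    · exact absurd h hqυ
    · exact h
  have hqW' : q ∈ R ∪ B := by
    rcases Finset.mem_union.1 hqW with h | h
    · exact Finset.mem_union_left _ (Finset.mem_of_mem_erase h)
    · exact Finset.mem_union_right _ h
  have hqa : q ≠ a := by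
    rintro rfl
    rcases Finset.mem_union.1 hqW with h | h
    · simp at h
    · exact haB h
  have hG' := hG.mono hsub2
  have h0 : dt p q a ≠ 0 := hG' p (hsub hpq.1) q (hsub hqQ) a haS hpq.ne hpa hqa
  by_contra hcon
  have hpos : 0 < dt p q a := lt_of_le_of_ne (not_lt.1 hcon) (Ne.symm h0)
  have hHE : HE (insert υ (R ∪ B)) p q := by
    refine ⟨hsub hpq.1, hsub hqQ, hpq.ne, ?_⟩
    intro z hz h1 h2
    by_cases hza : z = a
    · rw [hza]; exact hpos
    · apply hpq.2.2.2 z _ h1 h2
      rcases Finset.mem_insert.1 hz with h | h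
      · rw [h]; exact Finset.mem_insert_self _ _
      · rcases Finset.mem_union.1 h with h | h
        · exact Finset.mem_insert_of_mem (Finset.mem_union_left _ (Finset.mem_erase.2 ⟨hza, h⟩))
        · exact Finset.mem_insert_of_mem (Finset.mem_union_right _ h)
  have h1 := hX p hpB hHE.hv_left
  have hυS : υ ∈ insert υ (R ∪ B) := Finset.mem_insert_self _ _
  have h2 : 0 < dt υ p a := by
    rw [dt_swap' υ a p]
    rcases lt_or_gt_of_ne (hG' υ hυS a haS p hHE.1 haυ.symm hpυ.symm hpa.symm) with h | h
    · linarith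
    · exact absurd h h1
  have haHV : HV (insert υ (R ∪ B)) a := he.hv_left.mono hsub2 haS
  have h3 : 0 < dt υ q a := by
    rcases lt_or_gt_of_ne (hG' υ hυS a haS q hHE.2.1 haυ.symm hqυ.symm hqa.symm) with h | h
    · rw [dt_swap' υ a q]; linarith
    · exfalso
      refine haHV.not_in_triangle hυS hHE.1 hHE.2.1 h2 hpos ?_
      have : dt q υ a = dt υ a q := by unfold dt; ring
      rw [this]; exact h
  -- Pluecker relation around q
  have hdS : d ∈ insert d (insert υ (R ∪ B)) := Finset.mem_insert_self _ _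
  have hqd : q ≠ d := fun h => hdn (h ▸ hqW')
  have f1 : 0 < dt a d q := he.2.2.2 q (hsub2 hHE.2.1) hqa hqd
  have f2 : 0 < dt p q υ := hHE.2.2.2 υ hυS hpυ.symm hqυ.symm
  have f3 : 0 < dt υ p q := by
    have : dt υ p q = dt p q υ := by unfold dt; ring
    rw [this]; exact f2
  have f4 : 0 < dt d υ q := ltype_left up (low p hpW) (low q hqW') f3 hLp
  have key : dt υ q a * (- dt p q d) + dt p q a * dt d υ q + dt a d q * dt p q υ = 0 := by
    unfold dt; ring
  have g1 := mul_pos h3 (neg_pos.2 hd)
  have g2 := mul_pos hpos f4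
  have g3 := mul_pos f1 f2
  linarith

/-! ### the moves -/

theorem mem_S {R B : Finset Pt} {d υ z : Pt} (hz : z ∈ R ∪ B) : z ∈ insert d (insert υ (R ∪ B)) :=
  Finset.mem_insert_of_mem (Finset.mem_insert_of_mem hz)

theorem erase_sub {R B : Finset Pt} (a : Pt) : R.erase a ∪ B ⊆ R ∪ B :=
  Finset.union_subset_union (Finset.erase_subset _ _) (Finset.Subset.refl _)

theorem S_sub {R B : Finset Pt} (a d υ : Pt) :
    insert d (insert υ (R.erase a ∪ B)) ⊆ insert d (insert υ (R ∪ B)) :=
  Finset.insert_subset_insert _ (Finset.insert_subset_insert _ (erase_sub a))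

/-- left move -/
theorem left_move {R B : Finset Pt} {a a' d υ c r1 : Pt} (hD : DPData R B a a' d υ c)
    (hr : r1 ∈ R) (hra : r1 ≠ a) (hra' : r1 ≠ a')
    (hf : ∀ z ∈ R ∪ B, z ≠ a → z ≠ r1 → 0 < dt d z r1) (hL : 0 < dt d υ r1) :
    DPData (R.erase a) B r1 a' d υ c ∧
      (NL (R.erase a) B r1 a' d υ → NL R B a a' d υ) ∧
      (LF (R.erase a) B d υ → LF R B d υ) := by
  classical
  have haB : a ∉ B := fun h => Finset.disjoint_left.1 hD.dj hD.ha h
  have hr1 : r1 ∈ R.erase a := Finset.mem_erase.2 ⟨hra, hr⟩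
  have haW : a ∈ R ∪ B := Finset.mem_union_left _ hD.ha
  have had : a ≠ d := hD.he.ne
  have haυ : a ≠ υ := fun h => hD.hυ (h ▸ haW)
  have hr1d : r1 ≠ d := fun h => hD.hd (h ▸ Finset.mem_union_left _ hr)
  have hfa : ∀ z ∈ R ∪ B, z ≠ a → 0 < dt d z a := by
    intro z hz hza
    have := hD.he.2.2.2 z (mem_S hz) hza (fun h => hD.hd (h ▸ hz))
    rw [← dt_rot] at this; exact this
  refine ⟨?_, ?_, ?_⟩
  · refine ⟨hD.gp.mono (S_sub a d υ), Finset.disjoint_of_subset_left (Finset.erase_subset _ _) hD.dj,
      hr1, Finset.mem_erase.2 ⟨hD.ne.symm, hD.ha'⟩, hra', fun h => hD.hd (erase_sub a h),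
      fun h => hD.hυ (erase_sub a h), hD.hdυ, ?_, ?_, hD.up, fun z hz => hD.low z (erase_sub a hz)⟩
    · refine ⟨mem_S (Finset.mem_union_left _ hr1), Finset.mem_insert_self _ _, hr1d, ?_⟩
      intro z hz h1 h2
      rcases Finset.mem_insert.1 hz with h | hz
      · exact absurd h h2
      rw [← dt_rot]
      rcases Finset.mem_insert.1 hz with h | hz
      · rw [h]; exact hL
      · refine hf z (erase_sub a hz) ?_ h1
        rintro rfl
        rcases Finset.mem_union.1 hz with h | h
        · simp at h
        · exact haB h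
    · exact hD.he'.mono (Finset.insert_subset_insert _ (erase_sub a)) (Finset.mem_insert_self _ _)
        (Finset.mem_insert_of_mem (Finset.mem_union_left _
          (Finset.mem_erase.2 ⟨hD.ne.symm, hD.ha'⟩)))
  · rintro ⟨lR, lB, w1, l', hT, hF, hLo, hl, hw, hw'⟩
    -- everything else is on or right of the line d r1
    have key : ∀ x ∈ insert d (insert υ (R.erase a ∪ B)), 0 ≤ (-1 : ℝ) * dt d r1 x := by
      intro x hx
      by_cases h1 : x = r1
      · rw [h1]; simp
      rcases Finset.mem_insert.1 hx with h | hx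
      · rw [h]; simp
      rcases Finset.mem_insert.1 hx with h | hx
      · rw [h, dt_swap' d υ r1]; linarith
      · have hxa : x ≠ a := by
          rintro rfl
          rcases Finset.mem_union.1 hx with h | h
          · simp at h
          · exact haB h
        have := hf x (erase_sub a hx) hxa h1
        rw [dt_swap' d x r1]; linarith
    have hpos : 0 < dt d r1 a := hfa r1 (Finset.mem_union_left _ hr) hra
    have hns : ∀ x ∈ insert d (insert υ (R.erase a ∪ B)), ∀ y ∈ insert d (insert υ (R.erase a ∪ B)),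
        ¬ Cross a r1 x y := by
      intro x hx y hy
      exact sep_line (σ := -1) (a := d) (b := r1) (by linarith) (by simp) (key x hx) (key y hy)
    have hTa := hT.add_red (a := a) (Finset.notMem_erase a R)
      (fun x hx y hy => hns x (mem_S (Finset.mem_union_left _ hx)) y
        (mem_S (Finset.mem_union_left _ hy)))
      (by
        intro f hf
        have hm := mem_of_mem_pe hf
        have m : ∀ z ∈ insert d (insert υ B), z ∈ insert d (insert υ (R.erase a ∪ B)) := by
          intro z hz
          exact Finset.insert_subset_insert _ (Finset.insert_subset_insert _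
            Finset.subset_union_right) hz
        exact hns _ (m _ (hT.hB.mem.1 hm.1)) _ (m _ (hT.hB.mem.1 hm.2)))
    rw [Finset.insert_erase hD.ha] at hTa
    exact ⟨a :: lR, lB, w1, l', hTa.1, hTa.2.1 hF, hTa.2.2 hLo, hl, hw, hw'⟩
  · rintro ⟨⟨w, hw, hw'⟩, hall⟩
    refine ⟨⟨w, erase_sub a hw, hw'⟩, ?_⟩
    intro r hr b hb h1 h2
    by_cases hra2 : r = a
    · rw [hra2]
      exact hfa b (Finset.mem_union_right _ hb) (fun h => haB (h ▸ hb))
    · exact hall r (Finset.mem_erase.2 ⟨hra2, hr⟩) b hb h1 h2

/-- right move -/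
theorem right_move {R B : Finset Pt} {a a' d υ c l : Pt} (hD : DPData R B a a' d υ c)
    (hl : l ∈ R) (hla : l ≠ a) (hla' : l ≠ a')
    (hf : ∀ z ∈ R ∪ B, z ≠ a' → z ≠ l → 0 < dt υ l z) :
    DPData (R.erase a') B a l d υ c ∧
      (NL (R.erase a') B a l d υ → NL R B a a' d υ) ∧
      (LF (R.erase a') B d υ → LF R B d υ) := by
  classical
  have haB : a' ∉ B := fun h => Finset.disjoint_left.1 hD.dj hD.ha' h
  have hl1 : l ∈ R.erase a' := Finset.mem_erase.2 ⟨hla', hl⟩
  have haW : a' ∈ R ∪ B := Finset.mem_union_left _ hD.ha'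
  have haυ : a' ≠ υ := fun h => hD.hυ (h ▸ haW)
  have hlυ : l ≠ υ := fun h => hD.hυ (h ▸ Finset.mem_union_left _ hl)
  have hS : ∀ {z x : Pt}, z ∈ R.erase a' ∪ B → z ≠ a' := by
    intro z x hz
    rintro rfl
    rcases Finset.mem_union.1 hz with h | h
    · simp at h
    · exact haB h
  have hfa : ∀ z ∈ R ∪ B, z ≠ a' → 0 < dt υ a' z := fun z hz hza =>
    hD.he'.2.2.2 z (Finset.mem_insert_of_mem hz) (fun h => hD.hυ (h ▸ hz)) hza
  -- an R-type point different from `a'` makes `a'` R-type
  have hRt : ∀ w ∈ R ∪ B, w ≠ a' → dt d υ w < 0 → ¬ 0 < dt d υ a' := by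
    intro w hw hwa h1 h2
    have := ltype_left hD.up (hD.low a' haW) (hD.low w hw) (hfa w hw hwa) h2
    linarith
  refine ⟨?_, ?_, ?_⟩
  · refine ⟨hD.gp.mono (S_sub a' d υ), Finset.disjoint_of_subset_left (Finset.erase_subset _ _) hD.dj,
      Finset.mem_erase.2 ⟨hD.ne, hD.ha⟩, hl1, hla.symm, fun h => hD.hd (erase_sub a' h),
      fun h => hD.hυ (erase_sub a' h), hD.hdυ, ?_, ?_, hD.up, fun z hz => hD.low z (erase_sub a' hz)⟩
    · exact hD.he.mono (S_sub a' d υ) (mem_S (Finset.mem_union_left _
        (Finset.mem_erase.2 ⟨hD.ne, hD.ha⟩))) (Finset.mem_insert_self _ _)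
    · refine ⟨Finset.mem_insert_self _ _, Finset.mem_insert_of_mem (Finset.mem_union_left _ hl1),
        hlυ.symm, ?_⟩
      intro z hz h1 h2
      rcases Finset.mem_insert.1 hz with h | hz
      · exact absurd h h1
      · exact hf z (erase_sub a' hz) (hS (x := z) hz) h2
  · rintro ⟨lR, lB, w1, l', hT, hF, hLo, hll, hw, hw'⟩
    have key : ∀ x ∈ insert υ (R.erase a' ∪ B), 0 ≤ (1 : ℝ) * dt υ l x := by
      intro x hx
      rw [one_mul]
      by_cases h1 : x = l
      · rw [h1]; simp
      rcases Finset.mem_insert.1 hx with h | hx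
      · rw [h]; simp
      · exact (hf x (erase_sub a' hx) (hS (x := x) hx) h1).le
    have hneg : (1 : ℝ) * dt υ l a' < 0 := by
      have := hfa l (Finset.mem_union_left _ hl) hla'
      rw [one_mul, dt_swap' υ a' l]; linarith
    have hns : ∀ x ∈ insert υ (R.erase a' ∪ B), ∀ y ∈ insert υ (R.erase a' ∪ B),
        ¬ Cross a' l x y := by
      intro x hx y hy
      exact sep_line (σ := 1) (a := υ) (b := l) hneg (by simp) (key x hx) (key y hy)
    -- the wire
    have hwire : ¬ Cross a' l d w1 := by
      have hw1W : w1 ∈ insert υ (R.erase a' ∪ B) :=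
        Finset.mem_insert_of_mem (Finset.mem_union_right _ hw)
      by_cases hdl : 0 ≤ (1 : ℝ) * dt υ l d
      · exact sep_line (σ := 1) (a := υ) (b := l) hneg (by simp) hdl (key w1 hw1W)
      · rw [one_mul] at hdl
        have h1 : dt d υ l < 0 := by
          have : dt d υ l = dt υ l d := by unfold dt; ring
          rw [this]; linarith
        have h2 : dt d υ a' < 0 := by
          have h3 := hRt l (Finset.mem_union_left _ hl) hla' h1
          have h4 : dt d υ a' ≠ 0 := hD.gp d (Finset.mem_insert_self _ _) υ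
            (Finset.mem_insert_of_mem (Finset.mem_insert_self _ _)) a' (mem_S haW) hD.hdυ
            (fun h => hD.hd (h ▸ haW)) haυ.symm
          exact lt_of_le_of_ne (not_lt.1 h3) h4
        rw [cross_comm]
        intro hc
        have := hc
        -- separated by the line d υ
        have hsep : ¬ Cross a' l d w1 := by
          apply not_cross_of_sep ((υ.2 - d.2), -(υ.1 - d.1))
            (fn ((υ.2 - d.2), -(υ.1 - d.1)) d)
          all_goals
            have e : ∀ x : Pt, fn ((υ.2 - d.2), -(υ.1 - d.1)) x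
              - fn ((υ.2 - d.2), -(υ.1 - d.1)) d = - dt d υ x := by
                intro x; unfold fn dt; simp; ring
          · linarith [e a']
          · linarith [e l]
          · exact le_rfl
          · linarith [e w1]
          · left; linarith [e a']
        exact hsep hc.symm
    have hrev := hT.reverse.add_red (a := a') (Finset.notMem_erase a' R)
      (fun x hx y hy => hns x (Finset.mem_insert_of_mem (Finset.mem_union_left _ hx)) y
        (Finset.mem_insert_of_mem (Finset.mem_union_left _ hy)))
      (by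
        intro f hf
        rw [pe_reverse, List.mem_reverse] at hf
        obtain ⟨g, hg, rfl⟩ := List.mem_map.1 hf
        have h0 : ¬ CrossE (a', l) g := by
          rw [hll, pe_cons_cons, List.mem_cons] at hg
          rcases hg with rfl | hg
          · exact hwire
          · have hm := mem_of_mem_pe hg
            have hnd := hT.hB.nd
            rw [hll, List.nodup_cons] at hnd
            have m : ∀ z ∈ w1 :: l', z ∈ insert υ (R.erase a' ∪ B) := by
              intro z hz
              have h1 : z ∈ insert d (insert υ B) := hT.hB.mem.1 (by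
                rw [hll]; exact List.mem_cons_of_mem _ hz)
              rcases Finset.mem_insert.1 h1 with h | h
              · exact absurd (h ▸ hz) hnd.1
              · exact Finset.insert_subset_insert _ Finset.subset_union_right h
            exact hns _ (m _ hm.1) _ (m _ hm.2)
        unfold CrossE at h0 ⊢
        simp only [Prod.fst_swap, Prod.snd_swap]
        rw [cross_swap_right]
        exact h0)
    have hfin := hrev.1.reverse
    rw [Finset.insert_erase hD.ha', List.reverse_reverse] at hfin
    refine ⟨_, lB, w1, l', hfin, ?_, ?_, hll, hw, hw'⟩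
    · have := (hrev.2.2 hF.reverse).reverse
      rw [List.reverse_reverse] at this
      exact this
    · have := (hrev.2.1 hLo.reverse).reverse
      rw [List.reverse_reverse] at this
      exact this
  · rintro ⟨⟨w, hw, hw'⟩, hall⟩
    refine ⟨⟨w, erase_sub a' hw, hw'⟩, ?_⟩
    intro r hr b hb h1 h2
    by_cases hra2 : r = a'
    · exfalso
      rw [hra2] at h1
      exact hRt w (erase_sub a' hw) (hS (x := w) hw) hw' h1
    · exact hall r (Finset.mem_erase.2 ⟨hra2, hr⟩) b hb h1 h2

/-! ### sliding along the hull to the first blue vertex -/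

theorem caseY (h1 : SPaStmt) : ∀ n : ℕ, ∀ (R B : Finset Pt) (a a' υ c β : Pt), R.card = n →
    GP (insert υ (R ∪ B)) → Disjoint R B → a ∈ R → a' ∈ R → a ≠ a' → υ ∉ R ∪ B →
    HE (insert υ (R ∪ B)) υ a' → HV (insert υ (R ∪ B)) a → (∀ z ∈ R ∪ B, fn c υ < fn c z) →
    (∃ g ∈ B, HV (insert υ (R ∪ B)) g ∧ 0 < dt υ a g) → β ∈ B → HV (insert υ (R ∪ B)) β →
    0 < dt υ β a →
    ∃ (p g : Pt) (lR lB : List Pt), g ∈ B ∧ TwoPaths R (insert υ B) a a' g υ lR lB ∧
      LastOne lB lR ∧ HE (insert υ (R ∪ B)) p g ∧ p ≠ υ ∧ (p = a ∨ 0 < dt υ a p) := by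
  classical
  intro n
  induction n using Nat.strong_induction_on with
  | _ n ih =>
    intro R B a a' υ c β hn hG hD ha ha' hne hυ he' hav low hY hβ hβv hβa
    obtain ⟨g, hg, hgv, hag⟩ := hY
    have hυS : υ ∈ insert υ (R ∪ B) := Finset.mem_insert_self _ _
    have haW : a ∈ R ∪ B := Finset.mem_union_left _ ha
    have ha'W : a' ∈ R ∪ B := Finset.mem_union_left _ ha'
    have haB : a ∉ B := fun h => Finset.disjoint_left.1 hD ha h
    have haυ : a ≠ υ := fun h => hυ (h ▸ haW)
    have ha'υ : a' ≠ υ := fun h => hυ (h ▸ ha'W)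
    have hgυ : g ≠ υ := fun h => hυ (h ▸ Finset.mem_union_right _ hg)
    have hβυ : β ≠ υ := fun h => hυ (h ▸ Finset.mem_union_right _ hβ)
    have hc2 : 2 ≤ (insert υ (R ∪ B)).card := by
      have : ({a, υ} : Finset Pt) ⊆ insert υ (R ∪ B) := by
        intro x hx
        simp only [Finset.mem_insert, Finset.mem_singleton] at hx
        rcases hx with rfl | rfl
        · exact Finset.mem_insert_of_mem haW
        · exact hυS
      calc 2 = ({a, υ} : Finset Pt).card := (Finset.card_pair haυ).symm
        _ ≤ _ := Finset.card_le_card this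
    obtain ⟨g1, hg1⟩ := hav.next hG hc2
    have hg1υ : g1 ≠ υ := by
      rintro rfl
      have := hg1.2.2.2 g hgv.1 (fun h => haB (h ▸ hg)) hgυ
      have e : dt g1 a g = - dt a g1 g := dt_swap a g1 g
      linarith
    have hag1 : 0 < dt υ a g1 := by
      have := hg1.2.2.2 υ hυS haυ.symm hg1υ.symm
      rw [← dt_rot' a g1 υ] at this
      exact this
    have hg1W : g1 ∈ R ∪ B := by
      rcases Finset.mem_insert.1 hg1.2.1 with h | h
      · exact absurd h hg1υ
      · exact h
    have eU : R ∪ insert υ B = insert υ (R ∪ B) := Finset.union_insert _ _ _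
    rcases Finset.mem_union.1 hg1W with hg1R | hg1B
    · -- slide
      have hg1a' : g1 ≠ a' := by
        rintro rfl
        have := he'.2.2.2 a (Finset.mem_insert_of_mem haW) haυ hne
        rw [dt_swap' υ a g1] at this
        linarith
      have hsub : insert υ (R.erase a ∪ B) ⊆ insert υ (R ∪ B) :=
        Finset.insert_subset_insert _ (erase_sub a)
      have hg1e : g1 ∈ R.erase a := Finset.mem_erase.2 ⟨hg1.ne.symm, hg1R⟩
      have ha'e : a' ∈ R.erase a := Finset.mem_erase.2 ⟨hne.symm, ha'⟩
      have mB : ∀ z ∈ B, z ∈ insert υ (R.erase a ∪ B) := fun z hz =>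
        Finset.mem_insert_of_mem (Finset.mem_union_right _ hz)
      have hgg1 : g ≠ g1 := fun h => Finset.disjoint_left.1 hD hg1R (h ▸ hg)
      have hg1g : 0 < dt υ g1 g := by
        rcases lt_or_gt_of_ne (hG υ hυS g1 hg1.2.1 g hgv.1 hg1υ.symm hgυ.symm hgg1.symm) with h | h
        · exfalso
          refine hgv.not_in_triangle hυS hg1.1 hg1.2.1 hag
            (hg1.2.2.2 g hgv.1 (fun h => haB (h ▸ hg)) hgg1) ?_
          have : dt g1 υ g = - dt υ g1 g := dt_swap υ g1 g
          linarith
        · exact h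
      obtain ⟨p, g', lR, lB, hg', hT, hL, hHE, hpυ, hp⟩ := ih (R.erase a).card
        (hn ▸ Finset.card_erase_lt_of_mem ha) (R.erase a) B g1 a' υ c β rfl
        (hG.mono hsub) (Finset.disjoint_of_subset_left (Finset.erase_subset _ _) hD) hg1e ha'e hg1a'
        (fun h => hυ (erase_sub a h))
        (he'.mono hsub (Finset.mem_insert_self _ _)
          (Finset.mem_insert_of_mem (Finset.mem_union_left _ ha'e)))
        (hg1.hv_right.mono hsub (Finset.mem_insert_of_mem (Finset.mem_union_left _ hg1e)))
        (fun z hz => low z (erase_sub a hz))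
        ⟨g, hg, hgv.mono hsub (mB g hg), hg1g⟩ hβ (hβv.mono hsub (mB β hβ))
        (ang_trans (low β (Finset.mem_union_right _ hβ)) (low a haW) (low g1 hg1W) hβa hag1)
      have hTa := hT.add_red (a := a) (Finset.notMem_erase a R)
        (fun x hx y hy => hg1.not_cross
          (Finset.mem_insert_of_mem (Finset.mem_union_left _ (Finset.mem_of_mem_erase hx)))
          (Finset.mem_insert_of_mem (Finset.mem_union_left _ (Finset.mem_of_mem_erase hy))))
        (by
          intro f hf
          have hm := mem_of_mem_pe hf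
          have m : ∀ z ∈ insert υ B, z ∈ insert υ (R ∪ B) := fun z hz =>
            Finset.insert_subset_insert _ Finset.subset_union_right hz
          exact hg1.not_cross (m _ (hT.hB.mem.1 hm.1)) (m _ (hT.hB.mem.1 hm.2)))
      rw [Finset.insert_erase ha] at hTa
      have hpS := hsub hHE.1
      have hg'υ : g' ≠ υ := fun h => hυ (h ▸ Finset.mem_union_right _ hg')
      have hpa : p ≠ a := by
        rintro rfl
        rcases Finset.mem_insert.1 hHE.1 with h | h
        · exact haυ h
        · rcases Finset.mem_union.1 h with h | h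
          · simp at h
          · exact haB h
      have hg'a : g' ≠ a := fun h => haB (h ▸ hg')
      have hpW : p ∈ R ∪ B := by
        rcases Finset.mem_insert.1 hpS with h | h
        · exact absurd h hpυ
        · exact h
      have hap : 0 < dt υ a p := by
        rcases hp with rfl | hp
        · exact hag1
        · exact ang_trans (low a haW) (low g1 hg1W) (low p hpW) hag1 hp
      have hlift : 0 < dt p g' a := by
        rcases hp with rfl | hp
        · rw [dt_rot a p g']
          exact hg1.2.2.2 g' (hsub hHE.2.1) hg'a hHE.ne.symm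
        · have hpg1 : p ≠ g1 := by rintro rfl; simp at hp
          have hg1g' : g1 ≠ g' := fun h => Finset.disjoint_left.1 hD hg1R (h ▸ hg')
          exact lift_edge hap hp (hg1.2.2.2 p hpS hpa hpg1)
            (hHE.2.2.2 υ (Finset.mem_insert_self _ _) hpυ.symm hg'υ.symm)
            (hHE.2.2.2 g1 (Finset.mem_insert_of_mem (Finset.mem_union_left _ hg1e)) hpg1.symm
              hg1g')
      refine ⟨p, g', a :: lR, lB, hg', hTa.1, hTa.2.2 hL, ?_, hpυ, Or.inr hap⟩
      refine ⟨hpS, hsub hHE.2.1, hHE.ne, ?_⟩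
      intro z hz h1' h2'
      by_cases hza : z = a
      · rw [hza]; exact hlift
      · apply hHE.2.2.2 z _ h1' h2'
        rcases Finset.mem_insert.1 hz with h | h
        · rw [h]; exact Finset.mem_insert_self _ _
        · rcases Finset.mem_union.1 h with h | h
          · exact Finset.mem_insert_of_mem (Finset.mem_union_left _ (Finset.mem_erase.2 ⟨hza, h⟩))
          · exact Finset.mem_insert_of_mem (Finset.mem_union_right _ h)
    · -- the next hull vertex is blue
      have hβa' : β ≠ a' := fun h => Finset.disjoint_left.1 hD ha' (h ▸ hβ)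
      have hβa2 : β ≠ a := fun h => haB (h ▸ hβ)
      have hb : 0 < dt a a' β := by
        rcases lt_or_gt_of_ne (hG a (Finset.mem_insert_of_mem haW) a' he'.2.1 β hβv.1 hne
          hβa2.symm hβa'.symm) with h | h
        · exfalso
          refine hβv.not_in_triangle hυS he'.2.1 (Finset.mem_insert_of_mem haW)
            (he'.2.2.2 β hβv.1 hβυ hβa') ?_ ?_
          · rw [dt_swap a a' β]; linarith
          · rw [← dt_rot a υ β] at *
            have : dt υ β a = dt a υ β := by unfold dt; ring
            exact hβa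
        · exact h
      obtain ⟨lR, lB, hT, hL⟩ := spa_mir h1 (R := R) (B := insert υ B) (a := a') (t := a) (u := υ)
        (s := g1) (β := β) (by rw [eU]; exact hG)
        (by
          rw [Finset.disjoint_insert_right]
          exact ⟨fun h => hυ (Finset.mem_union_left _ h), hD⟩)
        ha' ha (Finset.mem_insert_self _ _) (Finset.mem_insert_of_mem hg1B) hne.symm hg1υ.symm
        (by rw [eU]; exact he') (by rw [eU]; exact hg1) (Finset.mem_insert_of_mem hβ)
        (by rw [eU]; exact hβv) hb
      exact ⟨a, g1, lR, lB, hg1B, hT, hL, hg1, haυ, Or.inl rfl⟩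

/-! ### the double penalty lemma -/

theorem gdpl_aux (h1 : SPaStmt) (h2 : SPbStmt) (h3 : SlantStmt) : ∀ n : ℕ,
    ∀ (R B : Finset Pt) (a a' d υ c β : Pt), R.card = n → DPData R B a a' d υ c → β ∈ B →
      HV (insert d (insert υ (R ∪ B))) β → NL R B a a' d υ ∨ LF R B d υ := by
  classical
  intro n
  induction n using Nat.strong_induction_on with
  | _ n ih =>
    intro R B a a' d υ c β hn hD hβ hβv
    set S0 := insert υ (R ∪ B) with hS0
    have hdj := hD.dj
    have hG := hD.gp
    have hdS : d ∈ insert d S0 := Finset.mem_insert_self _ _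
    have hυS0 : υ ∈ S0 := Finset.mem_insert_self _ _
    have hυS : υ ∈ insert d S0 := Finset.mem_insert_of_mem hυS0
    have hWS : ∀ z ∈ R ∪ B, z ∈ insert d S0 := fun z hz => mem_S hz
    have hWd : ∀ z ∈ R ∪ B, z ≠ d := fun z hz h => hD.hd (h ▸ hz)
    have hWυ : ∀ z ∈ R ∪ B, z ≠ υ := fun z hz h => hD.hυ (h ▸ hz)
    have haW : a ∈ R ∪ B := Finset.mem_union_left _ hD.ha
    have ha'W : a' ∈ R ∪ B := Finset.mem_union_left _ hD.ha'
    have hβW : β ∈ R ∪ B := Finset.mem_union_right _ hβ
    have haB : a ∉ B := fun h => Finset.disjoint_left.1 hdj hD.ha h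
    have ha'B : a' ∉ B := fun h => Finset.disjoint_left.1 hdj hD.ha' h
    have hβa : β ≠ a := fun h => haB (h ▸ hβ)
    have hβa' : β ≠ a' := fun h => ha'B (h ▸ hβ)
    have hlow := hD.low
    have hup := hD.up
    have hlowd : ∀ z ∈ R ∪ B, fn c d < fn c z := fun z hz => hup.trans (hlow z hz)
    have hG0 : GP S0 := hG.mono (Finset.subset_insert _ _)
    -- facts at `d` and `υ`
    have hfa : ∀ z ∈ R ∪ B, z ≠ a → 0 < dt d z a := by
      intro z hz hza
      have := hD.he.2.2.2 z (hWS z hz) hza (hWd z hz)
      rw [← dt_rot] at this; exact this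
    have hfa' : ∀ z ∈ R ∪ B, z ≠ a' → 0 < dt υ a' z := fun z hz hza =>
      hD.he'.2.2.2 z (Finset.mem_insert_of_mem hz) (hWυ z hz) hza
    have hdυz : ∀ z ∈ R ∪ B, dt d υ z ≠ 0 := fun z hz =>
      hG d hdS υ hυS z (hWS z hz) hD.hdυ (hWd z hz).symm (hWυ z hz).symm
    have hυne : ∀ x ∈ R ∪ B, ∀ y ∈ R ∪ B, x ≠ y → dt υ x y ≠ 0 := fun x hx y hy hxy =>
      hG υ hυS x (hWS x hx) y (hWS y hy) (hWυ x hx).symm (hWυ y hy).symm hxy
    have hdne : ∀ x ∈ R ∪ B, ∀ y ∈ R ∪ B, x ≠ y → dt d x y ≠ 0 := fun x hx y hy hxy =>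
      hG d hdS x (hWS x hx) y (hWS y hy) (hWd x hx).symm (hWd y hy).symm hxy
    -- the last point before `a'` around `υ`
    obtain ⟨l, hlm, hl⟩ := exists_rightmost (a := c) (z := υ) (T := (R ∪ B).erase a')
      ⟨a, Finset.mem_erase.2 ⟨hD.ne, haW⟩⟩ (fun x hx => hlow x (Finset.mem_of_mem_erase hx))
      (fun x hx y hy => hυne x (Finset.mem_of_mem_erase hx) y (Finset.mem_of_mem_erase hy))
    have hlW := Finset.mem_of_mem_erase hlm
    have hla' := Finset.ne_of_mem_erase hlm
    by_cases hlR : l ∈ R ∧ l ≠ a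
    · obtain ⟨hD', hNL, hLF⟩ := right_move hD hlR.1 hlR.2 hla'
        (fun z hz hza hzl => hl z (Finset.mem_erase.2 ⟨hza, hz⟩) hzl)
      have hβv' : HV (insert d (insert υ (R.erase a' ∪ B))) β :=
        hβv.mono (S_sub a' d υ) (mem_S (Finset.mem_union_right _ hβ))
      rcases ih (R.erase a').card (hn ▸ Finset.card_erase_lt_of_mem hD.ha') (R.erase a') B a l d υ c β
        rfl hD' hβ hβv' with h | h
      · exact Or.inl (hNL h)
      · exact Or.inr (hLF h)
    -- the first point after `a` around `d`
    obtain ⟨r1, hrm, hr⟩ := exists_leftmost (a := c) (z := d) (T := (R ∪ B).erase a)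
      ⟨a', Finset.mem_erase.2 ⟨hD.ne.symm, ha'W⟩⟩
      (fun x hx => hlowd x (Finset.mem_of_mem_erase hx))
      (fun x hx y hy => hdne x (Finset.mem_of_mem_erase hx) y (Finset.mem_of_mem_erase hy))
    have hrW := Finset.mem_of_mem_erase hrm
    have hra := Finset.ne_of_mem_erase hrm
    have hr' : ∀ z ∈ R ∪ B, z ≠ a → z ≠ r1 → 0 < dt d z r1 := fun z hz hza hzr =>
      hr z (Finset.mem_erase.2 ⟨hza, hz⟩) hzr
    rcases lt_or_gt_of_ne (hdυz r1 hrW) with hrR | hrL
    · -- R-type
      right
      refine ⟨⟨r1, hrW, hrR⟩, ?_⟩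
      intro r _ b hb _ hbL
      exfalso
      have hbW : b ∈ R ∪ B := Finset.mem_union_right _ hb
      have hbr : b ≠ r1 := by rintro rfl; linarith
      have e1 := hr' b hbW (fun h => haB (h ▸ hb)) hbr
      have e2 : 0 < dt d r1 υ := by rw [dt_swap' d υ r1]; linarith
      have := ang_trans (hlowd b hbW) (hlowd r1 hrW) hup e1 e2
      rw [dt_swap' d υ b] at this
      linarith
    -- L-type
    have haL : 0 < dt d υ a := ang_trans hup (hlowd r1 hrW) (hlowd a haW) hrL (hfa r1 hrW hra)
    by_cases hr1R : r1 ∈ R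
    · -- left move
      have hra' : r1 ≠ a' := by
        rintro rfl
        have e1 := hr' β hβW hβa hβa'
        have e2 := hfa' β hβW hβa'
        rcases lt_or_gt_of_ne (hdυz β hβW) with h | h
        · have := ltype_left hup (hlow r1 hrW) (hlow β hβW) e2 hrL
          linarith
        · refine hβv.not_in_triangle hdS hυS (hWS r1 hrW) h e2 ?_
          have : dt r1 d β = dt d β r1 := by unfold dt; ring
          rw [this]; exact e1
      obtain ⟨hD', hNL, hLF⟩ := left_move hD hr1R hra hra' hr' hrL
      have hβv' : HV (insert d (insert υ (R.erase a ∪ B))) β :=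
        hβv.mono (S_sub a d υ) (mem_S (Finset.mem_union_right _ hβ))
      rcases ih (R.erase a).card (hn ▸ Finset.card_erase_lt_of_mem hD.ha) (R.erase a) B r1 a' d υ c β
        rfl hD' hβ hβv' with h | h
      · exact Or.inl (hNL h)
      · exact Or.inr (hLF h)
    have hr1B : r1 ∈ B := by
      rcases Finset.mem_union.1 hrW with h | h
      · exact absurd h hr1R
      · exact h
    have haS0 : a ∈ S0 := Finset.mem_insert_of_mem haW
    have haHV : HV S0 a := hD.he.hv_left.mono (Finset.subset_insert _ _) haS0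
    by_cases hY : ∃ g ∈ B, HV S0 g ∧ 0 < dt υ a g
    · -- case Y
      left
      have hβa3 : 0 < dt υ β a := by
        rcases lt_or_gt_of_ne (hυne a haW β hβW hβa.symm) with h | h
        · rw [dt_swap' υ a β]; linarith
        · exfalso
          refine hβv.not_in_triangle hdS hυS (hWS a haW)
            (ltype_left hup (hlow a haW) (hlow β hβW) h haL) h ?_
          exact hD.he.2.2.2 β (hWS β hβW) hβa (hWd β hβW)
      obtain ⟨p, g, lR, lB, hg, hT, hL, hHE, hpυ, hp⟩ := caseY h1 R.card R B a a' υ c β rfl hG0 hdj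
        hD.ha hD.ha' hD.ne hD.hυ hD.he' haHV hlow hY hβ
        (hβv.mono (Finset.subset_insert _ _) (Finset.mem_insert_of_mem hβW)) hβa3
      have hgW : g ∈ R ∪ B := Finset.mem_union_right _ hg
      have hdS0 : d ∉ S0 := by
        intro h
        rcases Finset.mem_insert.1 h with h | h
        · exact hD.hdυ h
        · exact hD.hd h
      have hvis : dt p g d < 0 := vis_d (c := c) hG hdS0 hυS0 hD.he hup
        (fun z hz hzυ => by
          rcases Finset.mem_insert.1 hz with h | h
          · exact absurd h hzυ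
          · exact hlow z h)
        (hWυ a haW) haL hHE hpυ hp
      have hpW : p ∈ R ∪ B := by
        rcases Finset.mem_insert.1 hHE.1 with h | h
        · exact absurd h hpυ
        · exact h
      have hgL : 0 < dt d υ g := by
        have hpL : 0 < dt d υ p := by
          rcases hp with rfl | hp
          · exact haL
          · exact ltype_left hup (hlow a haW) (hlow p hpW) hp haL
        have hpg : 0 < dt υ p g := by
          have := hHE.2.2.2 υ hυS0 hpυ.symm (hWυ g hgW).symm
          rw [← dt_rot' p g υ] at this; exact this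
        exact ltype_left hup (hlow p hpW) (hlow g hgW) hpg hpL
      have hns := seen_right hHE hvis
      have hdB : d ∉ insert υ B := by
        intro h
        rcases Finset.mem_insert.1 h with h | h
        · exact hD.hdυ h
        · exact hD.hd (Finset.mem_union_right _ h)
      obtain ⟨hT', hF, hLo⟩ := free_wire (d := d) hdB (hWυ g hgW) hT hL (by
        rw [Finset.union_insert]
        exact hns)
      have hlB : ∃ l', lB = g :: l' := by
        have := hT.hB.hd
        cases lB with
        | nil => simp at this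
        | cons x l' => exact ⟨l', by rw [show x = g by simpa using this]⟩
      obtain ⟨l', hl'⟩ := hlB
      exact ⟨lR, d :: lB, g, l', hT', hF, hLo, by rw [hl'], hg, hgL⟩
    push Not at hY
    have hX : ∀ g ∈ B, HV S0 g → ¬ 0 < dt υ a g := fun g hg hgv => not_lt.2 (hY g hg hgv)
    -- the leftmost point around `υ` different from `a`
    obtain ⟨lm, hlmm, hlm'⟩ := exists_leftmost (a := c) (z := υ) (T := (R ∪ B).erase a)
      ⟨a', Finset.mem_erase.2 ⟨hD.ne.symm, ha'W⟩⟩
      (fun x hx => hlow x (Finset.mem_of_mem_erase hx))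
      (fun x hx y hy => hυne x (Finset.mem_of_mem_erase hx) y (Finset.mem_of_mem_erase hy))
    have hlmW := Finset.mem_of_mem_erase hlmm
    have hlma := Finset.ne_of_mem_erase hlmm
    have hmx : ∀ z ∈ R ∪ B, z ≠ a → z ≠ lm → 0 < dt υ z lm := fun z hz hza hzl =>
      hlm' z (Finset.mem_erase.2 ⟨hza, hz⟩) hzl
    by_cases hlmB : lm ∈ B
    · -- `a` is the leftmost point
      have hleft : ∀ z ∈ R ∪ B, z ≠ a → 0 < dt υ z a := by
        intro z hz hza
        rcases lt_or_gt_of_ne (hυne a haW z hz hza.symm) with h | h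
        · rw [dt_swap' υ a z]; linarith
        · exfalso
          have hal : 0 < dt υ a lm := by
            by_cases hzl : z = lm
            · rw [← hzl]; exact h
            · exact ang_trans (hlow a haW) (hlow z hz) (hlow lm hlmW) h (hmx z hz hza hzl)
          have hHE : HE S0 lm υ := by
            refine ⟨Finset.mem_insert_of_mem hlmW, hυS0, hWυ lm hlmW, ?_⟩
            intro x hx h1' h2'
            rcases Finset.mem_insert.1 hx with h | h
            · exact absurd h h2'
            rw [← dt_rot]
            by_cases hxa : x = a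
            · rw [hxa]; exact hal
            · exact hmx x h hxa h1'
          exact hX lm hlmB hHE.hv_left hal
      by_cases h4 : ∀ b ∈ B, (∀ r ∈ R, r ≠ a → 0 < dt υ r b) → 0 < dt d υ b
      · left
        have hlB : l ∈ B := by
          rcases Finset.mem_union.1 hlW with h | h
          · exfalso
            have hla : l = a := by
              by_contra hne
              exact hlR ⟨h, hne⟩
            have e1 := hl β (Finset.mem_erase.2 ⟨hβa', hβW⟩) (by rw [hla]; exact hβa)
            rw [hla] at e1
            have e2 := hleft β hβW hβa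
            rw [dt_swap' υ a β] at e2
            linarith
          · exact h
        exact h3 R B a a' d υ c hD hleft ⟨lm, hlmB, fun z hz hza hzb => hmx z hz hza hzb⟩
          ⟨l, hlB, fun z hz hza hzb => hl z (Finset.mem_erase.2 ⟨hza, hz⟩) hzb⟩ h4
      · right
        push Not at h4
        obtain ⟨b, hb, hbr, hbL⟩ := h4
        have hbW : b ∈ R ∪ B := Finset.mem_union_right _ hb
        have hbR : dt d υ b < 0 := lt_of_le_of_ne hbL (hdυz b hbW)
        refine ⟨⟨b, hbW, hbR⟩, ?_⟩
        intro r hr2 b' hb' hrL' _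
        have hrW2 : r ∈ R ∪ B := Finset.mem_union_left _ hr2
        by_cases hra2 : r = a
        · rw [hra2]
          exact hfa b' (Finset.mem_union_right _ hb') (fun h => haB (h ▸ hb'))
        · exfalso
          have := ltype_left hup (hlow r hrW2) (hlow b hbW) (hbr r hr2 hra2) hrL'
          linarith
    · -- DBL
      left
      have hlmR : lm ∈ R := by
        rcases Finset.mem_union.1 hlmW with h | h
        · exact h
        · exact absurd h hlmB
      set Q := insert υ (R.erase a ∪ B) with hQ
      have hQS0 : Q ⊆ S0 := Finset.insert_subset_insert _ (erase_sub a)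
      have hGQ : GP Q := hG0.mono hQS0
      have hυQ : υ ∈ Q := Finset.mem_insert_self _ _
      have hBQ : ∀ z ∈ B, z ∈ Q := fun z hz => Finset.mem_insert_of_mem (Finset.mem_union_right _ hz)
      have hQW : ∀ z ∈ Q, z ≠ υ → z ∈ R ∪ B := by
        intro z hz hzυ
        rcases Finset.mem_insert.1 hz with h | h
        · exact absurd h hzυ
        · exact erase_sub a h
      have hQa : ∀ z ∈ Q, z ≠ a := by
        rintro z hz rfl
        rcases Finset.mem_insert.1 hz with h | h
        · exact hWυ z haW h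
        · rcases Finset.mem_union.1 h with h | h
          · simp at h
          · exact haB h
      have hdQ : d ∉ Q := by
        intro h
        rcases Finset.mem_insert.1 (hQS0 h) with h | h
        · exact hD.hdυ h
        · exact hD.hd h
      have hlowQ : ∀ z ∈ Q, z ≠ υ → fn c υ < fn c z := fun z hz hzυ => hlow z (hQW z hz hzυ)
      -- `r1` is the tangent point from `d`
      have her1 : HE (insert d Q) r1 d := by
        refine ⟨Finset.mem_insert_of_mem (hBQ r1 hr1B), Finset.mem_insert_self _ _, hWd r1 hrW, ?_⟩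
        intro z hz h1' h2'
        rcases Finset.mem_insert.1 hz with h | hz
        · exact absurd h h2'
        rw [← dt_rot]
        by_cases hzυ : z = υ
        · rw [hzυ]; exact hrL
        · exact hr' z (hQW z hz hzυ) (hQa z hz) h1'
      have hr1v : HV Q r1 := her1.hv_left.mono (Finset.subset_insert _ _) (hBQ r1 hr1B)
      -- the leftmost blue hull vertex
      obtain ⟨p, hpm, hpmax⟩ := exists_leftmost (a := c) (z := υ)
        (T := B.filter (fun x => HV Q x)) ⟨r1, by rw [Finset.mem_filter]; exact ⟨hr1B, hr1v⟩⟩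
        (fun x hx => hlow x (Finset.mem_union_right _ (Finset.mem_filter.1 hx).1))
        (fun x hx y hy => hυne x (Finset.mem_union_right _ (Finset.mem_filter.1 hx).1) y
          (Finset.mem_union_right _ (Finset.mem_filter.1 hy).1))
      obtain ⟨hpB, hpv⟩ := Finset.mem_filter.1 hpm
      have hpW : p ∈ R ∪ B := Finset.mem_union_right _ hpB
      have hpυ : p ≠ υ := hWυ p hpW
      have hpmax' : ∀ v ∈ B, HV Q v → v ≠ p → 0 < dt υ v p := fun v hv hvv hvp =>
        hpmax v (by rw [Finset.mem_filter]; exact ⟨hv, hvv⟩) hvp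
      have hpr : p = r1 ∨ 0 < dt υ r1 p := by
        by_cases h : p = r1
        · exact Or.inl h
        · exact Or.inr (hpmax' r1 hr1B hr1v (Ne.symm h))
      have hpL : 0 < dt d υ p := by
        rcases hpr with h | h
        · rw [h]; exact hrL
        · exact ltype_left hup (hlow r1 hrW) (hlow p hpW) h hrL
      have hc2 : 2 ≤ Q.card := by
        have : ({p, υ} : Finset Pt) ⊆ Q := by
          intro x hx
          simp only [Finset.mem_insert, Finset.mem_singleton] at hx
          rcases hx with rfl | rfl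
          · exact hpv.1
          · exact hυQ
        calc 2 = ({p, υ} : Finset Pt).card := (Finset.card_pair hpυ).symm
          _ ≤ _ := Finset.card_le_card this
      obtain ⟨q, hpq⟩ := hpv.next hGQ hc2
      have hplm : p ≠ lm := fun h => hlmB (h ▸ hpB)
      have hlmQ : lm ∈ Q := Finset.mem_insert_of_mem (Finset.mem_union_left _
        (Finset.mem_erase.2 ⟨hlma, hlmR⟩))
      have hplm' := hmx p hpW (fun h => haB (h ▸ hpB)) hplm
      have hqυ : q ≠ υ := by
        rintro rfl
        have := hpq.2.2.2 lm hlmQ hplm.symm (hWυ lm hlmW)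
        rw [← dt_rot] at this
        rw [dt_swap' q p lm] at this
        linarith
      have hυpq : 0 < dt υ p q := by
        have := hpq.2.2.2 υ hυQ hpυ.symm hqυ.symm
        rw [← dt_rot' p q υ] at this; exact this
      have hqW : q ∈ R ∪ B := hQW q hpq.2.1 hqυ
      have hqB : q ∉ B := by
        intro h
        have := hpmax' q h hpq.hv_right hpq.ne.symm
        rw [dt_swap' υ p q] at this
        linarith
      have hqR : q ∈ R := by
        rcases Finset.mem_union.1 hqW with h | h
        · exact h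
        · exact absurd h hqB
      have hqe : q ∈ R.erase a := Finset.mem_erase.2 ⟨hQa q hpq.2.1, hqR⟩
      have hvd : dt p q d < 0 := vis_d (c := c) (hG.mono (Finset.insert_subset_insert d hQS0)) hdQ
        hυQ her1 hup hlowQ (hWυ r1 hrW) hrL hpq hpυ hpr
      have hva : dt p q a < 0 := vis_a (c := c) hG hD.ha haB hD.hυ hD.hd hD.he hup hlow hX hpq hpB
        (fun h => haB (h ▸ hpB)) hqυ hpL hvd
      have eU : R.erase a ∪ insert υ B = Q := Finset.union_insert _ _ _
      have hυRe : υ ∉ R.erase a := fun h => hD.hυ (Finset.mem_union_left _ (Finset.mem_of_mem_erase h))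
      have ha'e : a' ∈ R.erase a := Finset.mem_erase.2 ⟨hD.ne.symm, hD.ha'⟩
      have ha'q : a' ≠ q := by
        rintro rfl
        have := hfa' p hpW (fun h => ha'B (h ▸ hpB))
        rw [dt_swap' υ p a'] at this
        linarith
      obtain ⟨lR, lB, hT, hL⟩ := spb_mir h2 (R := R.erase a) (B := insert υ B) (a := a') (s := q)
        (u := υ) (t := p) (by rw [eU]; exact hGQ)
        (by
          rw [Finset.disjoint_insert_right]
          exact ⟨hυRe, Finset.disjoint_of_subset_left (Finset.erase_subset _ _) hdj⟩)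
        ha'e hqe (Finset.mem_insert_self _ _) (Finset.mem_insert_of_mem hpB) ha'q hpυ.symm
        (by
          rw [eU]
          exact hD.he'.mono hQS0 hυQ (Finset.mem_insert_of_mem (Finset.mem_union_left _ ha'e)))
        (by rw [eU]; exact hpq)
        (by
          intro v hv hvv hcon
          rw [eU] at hvv
          rcases Finset.mem_insert.1 hv with h | h
          · rw [h] at hcon; simp at hcon
          · have hvW : v ∈ R ∪ B := Finset.mem_union_right _ h
            by_cases hvp : v = p
            · rw [hvp, dt_swap' υ p q] at hcon; linarith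
            · have e1 := hpmax' v h hvv hvp
              have e2 := ang_trans (hlow q hqW) (hlow v hvW) (hlow p hpW) hcon e1
              rw [dt_swap' υ p q] at e2; linarith)
      have hdB : d ∉ insert υ B := by
        intro h
        rcases Finset.mem_insert.1 h with h | h
        · exact hD.hdυ h
        · exact hD.hd (Finset.mem_union_right _ h)
      obtain ⟨hT', hF, hLo⟩ := dbl_wires (a := a) (d := d) (Finset.notMem_erase a R) hdB hpυ hT hL
        (by rw [eU]; exact seen_right hpq hva) (by rw [eU]; exact seen_left hpq hvd)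
      rw [Finset.insert_erase hD.ha] at hT'
      have hlB : ∃ l', lB = p :: l' := by
        have := hT.hB.hd
        cases lB with
        | nil => simp at this
        | cons x l' => exact ⟨l', by rw [show x = p by simpa using this]⟩
      obtain ⟨l', hl'⟩ := hlB
      exact ⟨a :: lR, d :: lB, p, l', hT', hF, hLo, by rw [hl'], hpB, hpL⟩

/-- GDPL -/
theorem gdpl (h1 : SPaStmt) (h2 : SPbStmt) (h3 : SlantStmt) : GDPLStmt :=
  fun R B a a' d υ c β hD hβ hβv => gdpl_aux h1 h2 h3 R.card R B a a' d υ c β rfl hD hβ hβv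

end Pool.Agent.TK
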