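import Pool.Agent.TK.Stmts

/-!
# Tokunaga's problem: a Hamiltonian path between two hull vertices through a given hull edge
-/

set_option autoImplicit false

namespace Pool.Agent.TK

theorem mem_pe_reverse {l : List Pt} {x y : Pt} (h : (x, y) ∈ pe l) : (y, x) ∈ pe l.reverse := by
  rw [pe_reverse, List.mem_reverse, List.mem_map]
  exact ⟨(x, y), h, rfl⟩

/-- a path starting with a given hull edge -/
theorem path_first {W : Finset Pt} (hG : GP W) {s t y : Pt} (hs : HV W s) (ht : HV W t)
    (hst : s ≠ t) (he : HE W s y ∨ HE W y s) (hc : W.card = 2 ∨ t ≠ y) :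
    ∃ l, HamPath W s t l ∧ (s, y) ∈ pe l := by
  have hy : HV W y := by
    rcases he with h | h
    · exact h.hv_right
    · exact h.hv_left
  have hsy : s ≠ y := by
    rcases he with h | h
    · exact h.ne
    · exact h.ne.symm
  by_cases hty : t = y
  · have hc2 : W.card = 2 := by
      rcases hc with h | h
      · exact h
      · exact absurd hty h
    have hW : W = {s, t} := by
      symm
      apply Finset.eq_of_subset_of_card_le
      · intro z hz
        simp at hz
        rcases hz with rfl | rfl
        · exact hs.1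
        · exact ht.1
      · rw [Finset.card_pair hst]; exact hc2.le
    rw [hW, ← hty]
    exact ⟨_, HamPath.pair hst, by simp⟩
  · have hys : y ∈ W.erase s := Finset.mem_erase.2 ⟨hsy.symm, hy.1⟩
    have hts : t ∈ W.erase s := Finset.mem_erase.2 ⟨hst.symm, ht.1⟩
    obtain ⟨l, hl⟩ := (hy.mono (Finset.erase_subset s W) hys).path
      (hG.mono (Finset.erase_subset s W)) (ht.mono (Finset.erase_subset s W) hts) (Ne.symm hty)
    refine ⟨s :: l, hl.cons hs.1 ?_, ?_⟩
    · intro r hr q hq
      rcases he with h | h
      · exact h.not_cross (Finset.mem_of_mem_erase hr) (Finset.mem_of_mem_erase hq)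
      · exact h.not_cross' (Finset.mem_of_mem_erase hr) (Finset.mem_of_mem_erase hq)
    · cases l with
      | nil => have := hl.hd; simp at this
      | cons d l =>
        have hd : d = y := by have := hl.hd; simpa using this
        rw [hd]; simp

theorem hp_aux (n : ℕ) : ∀ W : Finset Pt, W.card = n → GP W → ∀ s t : Pt, HV W s → HV W t →
    s ≠ t → ∀ x y : Pt, HE W x y → (W.card = 2 ∨ ¬ (({s, t} : Finset Pt) = {x, y})) →
    ∃ l, HamPath W s t l ∧ ((x, y) ∈ pe l ∨ (y, x) ∈ pe l) := by
  induction n using Nat.strong_induction_on with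
  | _ n ih =>
    intro W hW hG s t hs ht hst x y he hc
    by_cases hsx : s = x
    · subst hsx
      obtain ⟨l, hl, hm⟩ := path_first hG hs ht hst (Or.inl he) (hc.imp id (fun h e => h (by rw [e])))
      exact ⟨l, hl, Or.inl hm⟩
    by_cases hsy : s = y
    · subst hsy
      obtain ⟨l, hl, hm⟩ := path_first hG hs ht hst (Or.inr he)
        (hc.imp id (fun h e => h (by rw [e]; exact Finset.pair_comm _ _)))
      exact ⟨l, hl, Or.inr hm⟩
    by_cases htx : t = x
    · subst htx
      obtain ⟨l, hl, hm⟩ := path_first hG ht hs hst.symm (Or.inl he)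
        (hc.imp id (fun h e => h (by rw [e]; exact Finset.pair_comm _ _)))
      exact ⟨l.reverse, hl.reverse, Or.inr (mem_pe_reverse hm)⟩
    by_cases hty : t = y
    · subst hty
      obtain ⟨l, hl, hm⟩ := path_first hG ht hs hst.symm (Or.inr he)
        (hc.imp id (fun h e => h (by rw [e])))
      exact ⟨l.reverse, hl.reverse, Or.inl (mem_pe_reverse hm)⟩
    have h3 : 3 ≤ W.card := by
      have hsub : ({s, t, x} : Finset Pt) ⊆ W := by
        intro z hz
        simp at hz
        rcases hz with rfl | rfl | rfl
        · exact hs.1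
        · exact ht.1
        · exact he.1
      have h3c : ({s, t, x} : Finset Pt).card = 3 := by
        rw [Finset.card_eq_three]
        exact ⟨s, t, x, hst, hsx, htx, rfl⟩
      rw [← h3c]
      exact Finset.card_le_card hsub
    have step : ∀ c, HV W c → c ≠ s → c ≠ t →
        (∀ r ∈ W.erase s, ∀ q ∈ W.erase s, ¬ Cross s c r q) →
        ∃ l, HamPath W s t l ∧ ((x, y) ∈ pe l ∨ (y, x) ∈ pe l) := by
      intro c hc' hcs hct hcr
      have m : ∀ z, z ∈ W → z ≠ s → z ∈ W.erase s := fun z h1 h2 => Finset.mem_erase.2 ⟨h2, h1⟩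
      obtain ⟨l, hl, hm⟩ := ih (W.erase s).card (hW ▸ card_erase_lt hs.1) (W.erase s) rfl
        (hG.mono (Finset.erase_subset _ _)) c t
        (hc'.mono (Finset.erase_subset _ _) (m c hc'.1 hcs))
        (ht.mono (Finset.erase_subset _ _) (m t ht.1 hst.symm)) hct x y
        (he.mono (Finset.erase_subset _ _) (m x he.1 (Ne.symm hsx)) (m y he.2.1 (Ne.symm hsy)))
        (Or.inr (by
          intro h
          have : t ∈ ({x, y} : Finset Pt) := by rw [← h]; simp
          simp at this
          rcases this with h' | h'
          · exact htx h'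
          · exact hty h'))
      refine ⟨s :: l, hl.cons hs.1 hcr, ?_⟩
      have hsub : ∀ e, e ∈ pe l → e ∈ pe (s :: l) := by
        intro e he'
        cases l with
        | nil => simp at he'
        | cons d l => rw [pe_cons_cons]; exact List.mem_cons_of_mem _ he'
      exact hm.imp (hsub _) (hsub _)
    obtain ⟨v, hv⟩ := hs.next hG (by omega)
    obtain ⟨w, hw⟩ := hs.prev hG (by omega)
    have hvw : v ≠ w := by
      intro e; subst e
      exact hv.not_symm h3 hw
    by_cases hvt : v = t
    · refine step w hw.hv_left hw.ne (by rw [← hvt]; exact hvw.symm) ?_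
      intro r hr q hq
      exact hw.not_cross' (Finset.mem_of_mem_erase hr) (Finset.mem_of_mem_erase hq)
    · refine step v hv.hv_right hv.ne.symm hvt ?_
      intro r hr q hq
      exact hv.not_cross (Finset.mem_of_mem_erase hr) (Finset.mem_of_mem_erase hq)

theorem hp : HPStmt := fun W s t x y hG hs ht hst he hc =>
  hp_aux W.card W rfl hG s t hs ht hst x y he hc

end Pool.Agent.TK
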