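import Pool.Agent.TK.SPrime

/-!
# Tokunaga's problem: absorption, SP1, SPa, SPb
-/

set_option autoImplicit false

namespace Pool.Agent.TK

/-! ### gluing two paths -/

theorem getLast?_split {l : List Pt} {p : Pt} (h : l.getLast? = some p) :
    l = l.dropLast ++ [p] := by
  have hne : l ≠ [] := by rintro rfl; simp at h
  have h1 := List.dropLast_append_getLast hne
  rw [List.getLast?_eq_some_getLast hne] at h
  simp only [Option.some.injEq] at h
  rw [h] at h1
  exact h1.symm

theorem head?_split {l : List Pt} {p : Pt} (h : l.head? = some p) : l = p :: l.tail := by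
  cases l with
  | nil => simp at h
  | cons a l => simp at h; simp [h]

/-- prepending a red path -/
theorem TwoPaths.prepend {R1 R0 B : Finset Pt} {a p s u t : Pt} {l0 lR lB : List Pt}
    (h : TwoPaths R1 B p s u t lR lB) (h0 : HamPath R0 a p l0) (hint : ∀ x ∈ R0, x ∈ R1 → x = p)
    (h1 : ∀ e ∈ pe l0, ∀ f ∈ pe lR, ¬ CrossE e f) (h2 : ∀ e ∈ pe l0, ∀ f ∈ pe lB, ¬ CrossE e f) :
    TwoPaths (R0 ∪ R1) B a s u t (l0.dropLast ++ lR) lB ∧
      (∀ f, (∀ e ∈ pe l0, ¬ CrossE f e) → cnt f (pe (l0.dropLast ++ lR)) = cnt f (pe lR)) := by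
  classical
  have e0 := getLast?_split h0.la
  have e1 := head?_split h.hR.hd
  have hpe : pe (l0.dropLast ++ lR) = pe l0 ++ pe lR := by
    rw [e1, pe_append, ← e0]
  have hnp : p ∉ l0.dropLast := by
    intro hp
    have := h0.nd
    rw [e0, List.nodup_append] at this
    exact this.2.2 p hp p (by simp) rfl
  have hcnt : ∀ f, (∀ e ∈ pe l0, ¬ CrossE f e) →
      cnt f (pe (l0.dropLast ++ lR)) = cnt f (pe lR) := by
    intro f hf
    rw [hpe, cnt_append, cnt_zero hf, zero_add]
  refine ⟨⟨⟨?_, ?_, ?_, ?_, ?_⟩, h.hB, ?_, ?_⟩, hcnt⟩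
  · rw [List.nodup_append]
    refine ⟨h0.nd.sublist (List.dropLast_sublist _), h.hR.nd, ?_⟩
    rintro x hx y hy rfl
    have hx0 := h0.mem.1 (List.mem_of_mem_dropLast hx)
    have hx1 := h.hR.mem.1 hy
    have := hint x hx0 hx1
    rw [this] at hx
    exact hnp hx
  · ext x
    rw [List.mem_toFinset, List.mem_append, Finset.mem_union]
    constructor
    · rintro (hx | hx)
      · exact Or.inl (h0.mem.1 (List.mem_of_mem_dropLast hx))
      · exact Or.inr (h.hR.mem.1 hx)
    · rintro (hx | hx)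
      · have := h0.mem.2 hx
        rw [e0, List.mem_append] at this
        rcases this with hx | hx
        · exact Or.inl hx
        · right
          simp only [List.mem_singleton] at hx
          rw [hx, e1]; simp
      · exact Or.inr (h.hR.mem.2 hx)
  · have hh := h0.hd
    rcases hc : l0.dropLast with _ | ⟨c, l⟩
    · rw [hc] at e0
      rw [e0] at hh
      simp only [List.nil_append, List.head?_cons, Option.some.injEq] at hh
      rw [← hh]
      simpa using h.hR.hd
    · rw [hc] at e0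
      rw [e0] at hh
      simpa using hh
  · rw [List.getLast?_append, h.hR.la]; rfl
  · rw [hpe, List.pairwise_append]
    exact ⟨h0.nc, h.hR.nc, h1⟩
  · intro e he
    rw [hpe, List.mem_append] at he
    rcases he with he | he
    · rw [cnt_zero (fun f hf => h2 e he f hf)]; omega
    · exact h.cR e he
  · intro f hf
    rw [hcnt f (fun e he hc => h2 e he f hf (crossE_comm.1 hc))]
    exact h.cB f hf

theorem TwoPaths.reverseR {R B : Finset Pt} {a s u t : Pt} {lR lB : List Pt}
    (h : TwoPaths R B a s u t lR lB) : TwoPaths R B s a u t lR.reverse lB ∧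
      (∀ f, cnt f (pe lR.reverse) = cnt f (pe lR)) := by
  have hcnt : ∀ f, cnt f (pe lR.reverse) = cnt f (pe lR) := by
    intro f
    rw [pe_reverse]
    unfold cnt
    rw [List.countP_reverse, List.countP_map]
    apply List.countP_congr
    intro g _
    simp only [Function.comp, decide_eq_true_eq]
    unfold CrossE
    simp only [Prod.fst_swap, Prod.snd_swap]
    exact cross_swap_right
  refine ⟨⟨h.hR.reverse, h.hB, ?_, ?_⟩, hcnt⟩
  · intro e he
    rw [pe_reverse, List.mem_reverse, List.mem_map] at he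
    obtain ⟨e, he, rfl⟩ := he
    rw [cnt_swap]
    exact h.cR e he
  · intro f hf
    rw [hcnt]
    exact h.cB f hf

/-! ### absorption -/

theorem not_cross_sides {σ : ℝ} {u p x y z w : Pt} (hx : 0 ≤ σ * dt u p x) (hy : 0 ≤ σ * dt u p y)
    (hxy : 0 < σ * dt u p x ∨ 0 < σ * dt u p y) (hz : σ * dt u p z ≤ 0)
    (hw : σ * dt u p w ≤ 0) : ¬ Cross x y z w := by
  set c : Pt := (-(p.2 - u.2), p.1 - u.1) with hc
  have e : ∀ v, fn (σ • c) v = σ * dt u p v + σ * fn c u := by
    intro v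
    rw [dt_eq_fn, ← hc]
    unfold fn
    simp
    ring
  apply not_cross_of_sep (σ • c) (σ * fn c u)
  · rw [e]; linarith
  · rw [e]; linarith
  · rw [e]; linarith
  · rw [e]; linarith
  · rw [e, e]
    rcases hxy with h | h
    · left; linarith
    · right; left; linarith

theorem hv_of_side {σ : ℝ} {P : Finset Pt} {u p : Pt} (hp : p ∈ P)
    (h : ∀ x ∈ P, x ≠ p → 0 < σ * dt u p x) : HV P p := by
  refine ⟨hp, σ • (-(p.2 - u.2), p.1 - u.1), ?_⟩
  intro z hz hzp
  have h1 := h z hz hzp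
  rw [dt_eq_fn] at h1
  have h2 : dt u p p = 0 := by simp
  rw [dt_eq_fn] at h2
  have e : ∀ v : Pt, fn (σ • ((-(p.2 - u.2), p.1 - u.1) : Pt)) v =
      σ * fn (-(p.2 - u.2), p.1 - u.1) v := by
    intro v; unfold fn; simp; ring
  rw [e, e]
  have h3 : σ * (fn (-(p.2 - u.2), p.1 - u.1) p - fn (-(p.2 - u.2), p.1 - u.1) u) = 0 := by
    rw [h2, mul_zero]
  nlinarith

/-- ABSORPTION: the red points `R0` before `p` around `u` are attached at `p` -/
theorem absorb {R B R0 : Finset Pt} {a p ρ u β : Pt} {σ : ℝ} (hG : GP (R ∪ B))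
    (hd : Disjoint R B) (hR0 : R0 ⊆ R) (ha : a ∈ R0) (hp : p ∈ R0) (hu : u ∈ B)
    (hva : HV (R ∪ B) a) (hb : ∀ x ∈ R0, x ≠ p → 0 < σ * dt u p x)
    (hf : ∀ x ∈ (R \ R0) ∪ B, x ≠ u → σ * dt u p x < 0) (hap : a = p → R0 = {p})
    {lR lB : List Pt} (h : TwoPaths (insert p (R \ R0)) B p ρ u β lR lB) :
    ∃ lR', TwoPaths R B a ρ u β lR' lB ∧
      ∀ f : Pt × Pt, f.1 ∈ B → f.2 ∈ B → cnt f (pe lR') = cnt f (pe lR) := by
  classical
  have hup : ∀ x, x = u ∨ x = p → σ * dt u p x = 0 := by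
    rintro x (rfl | rfl) <;> simp
  have hl0 : ∃ l0, HamPath R0 a p l0 := by
    by_cases hap' : a = p
    · rw [hap hap', hap']
      exact ⟨_, HamPath.singleton p⟩
    · exact HV.path (hG.mono (hR0.trans Finset.subset_union_left))
        (hva.mono (hR0.trans Finset.subset_union_left) ha) (hv_of_side hp hb) hap'
  obtain ⟨l0, hl0⟩ := hl0
  have hside0 : ∀ x ∈ R0, 0 ≤ σ * dt u p x := by
    intro x hx
    by_cases hxp : x = p
    · rw [hup x (Or.inr hxp)]
    · exact (hb x hx hxp).le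
  have hedge : ∀ e ∈ pe l0, (0 < σ * dt u p e.1 ∨ 0 < σ * dt u p e.2) ∧ e.1 ∈ R0 ∧ e.2 ∈ R0 := by
    intro e he
    have hm := mem_of_mem_pe he
    have m1 := hl0.mem.1 hm.1
    have m2 := hl0.mem.1 hm.2
    refine ⟨?_, m1, m2⟩
    by_cases h1 : e.1 = p
    · right
      apply hb _ m2
      intro h2
      obtain ⟨A, C, hAC⟩ := mem_pe_split he
      have := hl0.nd
      rw [hAC, List.nodup_append] at this
      have h3 := this.2.1
      rw [h1, h2] at h3
      simp at h3
    · left
      exact hb _ m1 h1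
  have hsideR : ∀ x ∈ insert p (R \ R0), σ * dt u p x ≤ 0 := by
    intro x hx
    rcases Finset.mem_insert.1 hx with rfl | hx
    · simp
    · by_cases hxu : x = u
      · rw [hup x (Or.inl hxu)]
      · exact (hf x (Finset.mem_union_left _ hx) hxu).le
  have hsideB : ∀ x ∈ B, σ * dt u p x ≤ 0 := by
    intro x hx
    by_cases hxu : x = u
    · rw [hup x (Or.inl hxu)]
    · exact (hf x (Finset.mem_union_right _ hx) hxu).le
  have c1 : ∀ e ∈ pe l0, ∀ f ∈ pe lR, ¬ CrossE e f := by
    intro e he f hf'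
    have h1 := hedge e he
    have h2 := mem_of_mem_pe hf'
    exact not_cross_sides (hside0 _ h1.2.1) (hside0 _ h1.2.2) h1.1
      (hsideR _ (h.hR.mem.1 h2.1)) (hsideR _ (h.hR.mem.1 h2.2))
  have c2' : ∀ e ∈ pe l0, ∀ f : Pt × Pt, f.1 ∈ B → f.2 ∈ B → ¬ CrossE e f := by
    intro e he f h2 h3
    have h1 := hedge e he
    exact not_cross_sides (hside0 _ h1.2.1) (hside0 _ h1.2.2) h1.1
      (hsideB _ h2) (hsideB _ h3)
  have c2 : ∀ e ∈ pe l0, ∀ f ∈ pe lB, ¬ CrossE e f := by
    intro e he f hf'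
    have h2 := mem_of_mem_pe hf'
    exact c2' e he f (h.hB.mem.1 h2.1) (h.hB.mem.1 h2.2)
  obtain ⟨k1, k2⟩ := h.prepend hl0 (by
    intro x hx hx'
    rcases Finset.mem_insert.1 hx' with h | h
    · exact h
    · exact absurd hx (Finset.mem_sdiff.1 h).2) c1 c2
  have hU : R0 ∪ insert p (R \ R0) = R := by
    ext x
    simp only [Finset.mem_union, Finset.mem_insert, Finset.mem_sdiff]
    constructor
    · rintro (h | h | h)
      · exact hR0 h
      · rw [h]; exact hR0 hp
      · exact h.1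
    · intro h
      by_cases hx : x ∈ R0
      · exact Or.inl hx
      · exact Or.inr (Or.inr ⟨h, hx⟩)
  rw [hU] at k1
  refine ⟨_, k1, ?_⟩
  intro f hf1 hf2
  exact k2 f (fun e he hc => c2' e he f hf1 hf2 (crossE_comm.1 hc))

theorem firstOne_of_cnt {B : Finset Pt} {u t : Pt} {lB k k' : List Pt} (h : HamPath B u t lB)
    (hc : ∀ f : Pt × Pt, f.1 ∈ B → f.2 ∈ B → cnt f (pe k') = cnt f (pe k))
    (h1 : FirstOne lB k) : FirstOne lB k' := by
  intro e he
  have hm := mem_of_mem_pe (List.mem_of_mem_head? he)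
  rw [hc e (h.mem.1 hm.1) (h.mem.1 hm.2)]
  exact h1 e he


/-! ### SP1 -/

theorem sang_trans {σ : ℝ} {c z x y w : Pt} (hx : fn c z < fn c x) (hy : fn c z < fn c y)
    (hw : fn c z < fn c w) (h1 : 0 < σ * dt z x y) (h2 : 0 < σ * dt z y w) :
    0 < σ * dt z x w := by
  have key : dt z x w * (fn c y - fn c z) =
      dt z x y * (fn c w - fn c z) + dt z y w * (fn c x - fn c z) := by
    unfold dt fn; ring
  have h3 : 0 < σ * dt z x w * (fn c y - fn c z) := by
    have : σ * dt z x w * (fn c y - fn c z) =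
        σ * dt z x y * (fn c w - fn c z) + σ * dt z y w * (fn c x - fn c z) := by
      linear_combination σ * key
    rw [this]
    exact add_pos (mul_pos h1 (by linarith)) (mul_pos h2 (by linarith))
  by_contra hcon
  push Not at hcon
  have : σ * dt z x w * (fn c y - fn c z) ≤ 0 :=
    mul_nonpos_of_nonpos_of_nonneg hcon (by linarith)
  linarith

theorem exists_delta (T : Finset (ℝ × ℝ)) (h : ∀ z ∈ T, 0 < z.1) :
    ∃ e : ℝ, 0 < e ∧ ∀ δ : ℝ, 0 < δ → δ ≤ e → ∀ z ∈ T, 0 < z.1 + δ * z.2 := by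
  classical
  induction T using Finset.induction_on with
  | empty => exact ⟨1, one_pos, by simp⟩
  | insert x T _ ih =>
    obtain ⟨e, he, hE⟩ := ih (fun z hz => h z (Finset.mem_insert_of_mem hz))
    have hx := h x (Finset.mem_insert_self _ _)
    have hq : 0 < |x.2| + 1 := by positivity
    refine ⟨min e (x.1 / (|x.2| + 1) / 2), lt_min he (by positivity), ?_⟩
    intro δ h1 h2 z hz
    rcases Finset.mem_insert.1 hz with rfl | hz
    · have h3 : δ ≤ z.1 / (|z.2| + 1) / 2 := le_trans h2 (min_le_right _ _)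
      have h4 : δ * (|z.2| + 1) ≤ z.1 / 2 := by
        have : z.1 / (|z.2| + 1) / 2 * (|z.2| + 1) = z.1 / 2 := by
          field_simp
        rw [← this]
        exact mul_le_mul_of_nonneg_right h3 hq.le
      have h5 : -|z.2| ≤ z.2 := neg_abs_le _
      have h6 := mul_le_mul_of_nonneg_left h5 h1.le
      nlinarith
    · exact hE δ h1 (le_trans h2 (min_le_left _ _)) z hz

/-- the ends of a signed hull edge are hull vertices -/
theorem hv_of_signed {P : Finset Pt} {a u : Pt} {σ : ℝ} (ha : a ∈ P) (hu : u ∈ P) (hau : a ≠ u)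
    (hσ : σ ≠ 0) (h : ∀ z ∈ P, z ≠ a → z ≠ u → 0 < σ * dt a u z) : HV P a ∧ HV P u := by
  rcases lt_or_gt_of_ne hσ with h0 | h0
  · have : HE P u a := ⟨hu, ha, hau.symm, fun z hz h1 h2 => by
      have := h z hz h2 h1
      rw [dt_swap]
      have h3 : σ * dt a u z > 0 := this
      by_contra hcon
      push Not at hcon
      have : 0 ≤ dt a u z := by linarith
      have := mul_nonpos_of_nonpos_of_nonneg h0.le this
      linarith⟩
    exact ⟨this.hv_right, this.hv_left⟩
  · have : HE P a u := ⟨ha, hu, hau, fun z hz h1 h2 => by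
      have := h z hz h1 h2
      by_contra hcon
      push Not at hcon
      have := mul_nonpos_of_nonneg_of_nonpos h0.le hcon
      linarith⟩
    exact ⟨this.hv_left, this.hv_right⟩

/-- the last point of `R0` around `u` -/
theorem exists_last_around {P R0 : Finset Pt} {u : Pt} {σ : ℝ} (hG : GP P) (hu : HV P u)
    (hσ : σ ≠ 0) (hR : R0 ⊆ P) (huR : u ∉ R0) (hne : R0.Nonempty) :
    ∃ p ∈ R0, ∀ x ∈ R0, x ≠ p → 0 < σ * dt u p x := by
  classical
  obtain ⟨huP, c, hc⟩ := hu
  have hcR : ∀ x ∈ R0, fn c u < fn c x := fun x hx => hc x (hR hx) (by rintro rfl; exact huR hx)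
  obtain ⟨l, hn, ht, hp⟩ := exists_sorted (fun x y => 0 < σ * dt u x y) R0
    (fun x hx y hy z hz h1 h2 => sang_trans (hcR x hx) (hcR y hy) (hcR z hz) h1 h2)
    (fun x hx y hy hxy => by
      have h0 := hG u huP x (hR hx) y (hR hy) (by rintro rfl; exact huR hx)
        (by rintro rfl; exact huR hy) hxy
      have h1 : σ * dt u x y ≠ 0 := mul_ne_zero hσ h0
      rcases lt_or_gt_of_ne h1 with h | h
      · right; rw [dt_swap' u x y]; linarith
      · left; exact h)
    (fun x _ => by simp)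
  cases l with
  | nil =>
    simp at ht
    rw [← ht] at hne
    exact absurd hne (by simp)
  | cons p l =>
    rw [List.pairwise_cons] at hp
    have hm : ∀ x, x ∈ p :: l ↔ x ∈ R0 := fun x => by rw [← ht, List.mem_toFinset]
    refine ⟨p, (hm p).1 (by simp), ?_⟩
    intro x hx hxp
    have := (hm x).2 hx
    rcases List.mem_cons.1 this with h | h
    · exact absurd h hxp
    · exact hp.1 x h

theorem sp1 {R B : Finset Pt} {a ρ u β b1 : Pt} {σ : ℝ} (hG : GP (R ∪ B)) (hd : Disjoint R B)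
    (ha : a ∈ R) (hρ : ρ ∈ R) (hu : u ∈ B) (hβ : β ∈ B) (haρ : a ≠ ρ) (huβ : u ≠ β)
    (h1 : ∀ z ∈ R ∪ B, z ≠ a → z ≠ u → 0 < σ * dt a u z) (h2 : Front (R ∪ B) ρ β)
    (hb1 : b1 ∈ B) (hb1u : b1 ≠ u) (hb1β : b1 ≠ β)
    (hfirst : ∀ b ∈ B, b ≠ u → b ≠ b1 → 0 < σ * dt u b b1) (hρ1 : 0 < σ * dt u ρ b1) :
    ∃ lR lB, TwoPaths R B a ρ u β lR lB ∧ FirstOne lB lR := by
  classical
  have neq : ∀ x ∈ R, ∀ y ∈ B, x ≠ y := fun x hx y hy e =>
    (Finset.disjoint_left.1 hd hx) (e ▸ hy)
  have aP := Finset.mem_union_left B ha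
  have ρP := Finset.mem_union_left B hρ
  have uP := Finset.mem_union_right R hu
  have βP := Finset.mem_union_right R hβ
  have b1P := Finset.mem_union_right R hb1
  have hab := h1 b1 b1P (neq a ha b1 hb1).symm hb1u
  have hσ : σ ≠ 0 := by rintro rfl; simp at hab
  obtain ⟨hva, hvu⟩ := hv_of_signed aP uP (neq a ha u hu) hσ h1
  set R0 := R.filter (fun x => 0 < σ * dt u b1 x) with hR0
  have mR0 : ∀ x, x ∈ R0 ↔ x ∈ R ∧ 0 < σ * dt u b1 x := fun x => by rw [hR0, Finset.mem_filter]
  have haR0 : a ∈ R0 := (mR0 a).2 ⟨ha, by rw [dt_rot]; exact hab⟩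
  have hR0R : R0 ⊆ R := Finset.filter_subset _ _
  have huR0 : u ∉ R0 := fun h => neq u (hR0R h) u hu rfl
  obtain ⟨p, hp, hpl⟩ := exists_last_around (σ := σ) hG hvu hσ
    (hR0R.trans Finset.subset_union_left) huR0 ⟨a, haR0⟩
  have hpR := hR0R hp
  have hpP := Finset.mem_union_left B hpR
  obtain ⟨_, c, hc⟩ := hvu
  have hcP : ∀ x ∈ R ∪ B, x ≠ u → fn c u < fn c x := hc
  -- the points after `b1`
  have haft : ∀ x ∈ (R \ R0) ∪ B, x ≠ u → x ≠ b1 → 0 < -(σ * dt u b1 x) := by
    intro x hx hxu hxb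
    rcases Finset.mem_union.1 hx with hx | hx
    · have hx' := Finset.mem_sdiff.1 hx
      have h0 := hG u uP b1 b1P x (Finset.mem_union_left _ hx'.1) hb1u.symm
        (Ne.symm hxu) (Ne.symm hxb)
      have h3 : σ * dt u b1 x ≠ 0 := mul_ne_zero hσ h0
      have h4 : ¬ 0 < σ * dt u b1 x := fun h => hx'.2 ((mR0 x).2 ⟨hx'.1, h⟩)
      have : σ * dt u b1 x < 0 := lt_of_le_of_ne (not_lt.1 h4) h3
      linarith
    · have := hfirst x hx hxu hxb
      rw [dt_swap' u b1 x] at this
      linarith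
  have hpb1 : 0 < σ * dt u b1 p := ((mR0 p).1 hp).2
  have hf : ∀ x ∈ (R \ R0) ∪ B, x ≠ u → σ * dt u p x < 0 := by
    intro x hx hxu
    by_cases hxb : x = b1
    · rw [hxb, dt_swap' u b1 p]; linarith
    · have h3 := haft x hx hxu hxb
      have h4 : 0 < σ * dt u x b1 := by rw [dt_swap' u b1 x]; linarith
      have hxP : x ∈ R ∪ B := by
        rcases Finset.mem_union.1 hx with h | h
        · exact Finset.mem_union_left _ (Finset.mem_sdiff.1 h).1
        · exact Finset.mem_union_right _ h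
      have h5 := sang_trans (hcP x hxP hxu) (hcP b1 b1P hb1u) (hcP p hpP (neq p hpR u hu)) h4 hpb1
      rw [dt_swap' u p x] at h5
      linarith
  have hap : a = p → R0 = {p} := by
    intro h
    ext x
    rw [Finset.mem_singleton]
    constructor
    · intro hx
      by_contra hxp
      have h3 := hpl x hx hxp
      have h4 := h1 x (Finset.mem_union_left _ (hR0R hx)) (by rw [h]; exact hxp)
        (neq x (hR0R hx) u hu)
      rw [← h, dt_swap a u x] at h3
      linarith
    · rintro rfl; exact hp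
  have hρR0 : ρ ∉ R0 := by
    intro h
    have := ((mR0 ρ).1 h).2
    rw [dt_swap' u b1 ρ] at hρ1
    linarith
  have hpρ : p ≠ ρ := by rintro rfl; exact hρR0 hp
  set R1 := insert p (R \ R0) with hR1
  have hR1R : R1 ⊆ R := by
    intro x hx
    rcases Finset.mem_insert.1 hx with rfl | hx
    · exact hpR
    · exact (Finset.mem_sdiff.1 hx).1
  have hsub : R1 ∪ B ⊆ R ∪ B := Finset.union_subset_union_left hR1R
  -- the tail functional
  obtain ⟨C0, hC1, hC2, hC3⟩ : ∃ C0 : ℝ × ℝ × ℝ, ev C0 ρ = 0 ∧ ev C0 β = 0 ∧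
      ∀ x ∈ R ∪ B, x ≠ ρ → x ≠ β → 0 < ev C0 x := by
    rcases h2 with h2 | h2
    · exact ⟨Lf ρ β, by rw [ev_Lf]; simp, by rw [ev_Lf]; simp, fun x hx h3 h4 => by
        rw [ev_Lf]; exact h2.2.2.2 x hx h3 h4⟩
    · exact ⟨Lf β ρ, by rw [ev_Lf]; simp, by rw [ev_Lf]; simp, fun x hx h3 h4 => by
        rw [ev_Lf]; exact h2.2.2.2 x hx h4 h3⟩
  have hC0n : ∀ x ∈ R ∪ B, 0 ≤ ev C0 x := by
    intro x hx
    by_cases e1 : x = ρ
    · rw [e1, hC1]
    by_cases e2 : x = β
    · rw [e2, hC2]
    exact (hC3 x hx e1 e2).le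
  have hCp : 0 < ev C0 p := hC3 p hpP hpρ (neq p hpR β hβ)
  have hCu : 0 < ev C0 u := hC3 u uP (neq ρ hρ u hu).symm huβ
  have hCb : 0 < ev C0 b1 := hC3 b1 b1P (neq ρ hρ b1 hb1).symm hb1β
  -- the head functional
  set D1 : ℝ × ℝ × ℝ := (b1.1 - u.1, b1.2 - u.2,
    -((b1.1 - u.1) * ((u.1 + b1.1) / 2) + (b1.2 - u.2) * ((u.2 + b1.2) / 2))) with hD1
  set q : ℝ := (b1.1 - u.1) ^ 2 + (b1.2 - u.2) ^ 2 with hq
  have hqpos : 0 < q := by
    have : b1.1 - u.1 ≠ 0 ∨ b1.2 - u.2 ≠ 0 := by
      by_contra hcon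
      push Not at hcon
      apply hb1u
      exact Prod.ext (by linarith [hcon.1]) (by linarith [hcon.2])
    rcases this with h | h
    · have := sq_pos_of_ne_zero h; positivity
    · have := sq_pos_of_ne_zero h; positivity
  have hD1u : ev D1 u = -q / 2 := by rw [hD1, hq]; unfold ev; ring
  have hD1b : ev D1 b1 = q / 2 := by rw [hD1, hq]; unfold ev; ring
  set S : Finset Pt := ((R1 ∪ B).erase u).erase b1 |>.erase p with hS
  have mS : ∀ x, x ∈ S ↔ x ∈ R1 ∪ B ∧ x ≠ u ∧ x ≠ b1 ∧ x ≠ p := by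
    intro x
    rw [hS, Finset.mem_erase, Finset.mem_erase, Finset.mem_erase]
    tauto
  have hSpos : ∀ x ∈ S, 0 < -(σ * dt u b1 x) := by
    intro x hx
    obtain ⟨hx1, hx2, hx3, hx4⟩ := (mS x).1 hx
    apply haft x _ hx2 hx3
    rcases Finset.mem_union.1 hx1 with h | h
    · rcases Finset.mem_insert.1 h with h | h
      · exact absurd h hx4
      · exact Finset.mem_union_left _ h
    · exact Finset.mem_union_right _ h
  obtain ⟨e1, he1, hE1⟩ := exists_delta
    (S.image (fun x => (-(σ * dt u b1 x), ev D1 x)) ∪ {(σ * dt u b1 p, -ev D1 p)} ∪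
      S.image (fun x => (-(σ * dt u b1 x) * ev C0 b1, ev D1 x * ev C0 b1 - ev D1 b1 * ev C0 x))) (by
      intro z hz
      rcases Finset.mem_union.1 hz with hz | hz
      · rcases Finset.mem_union.1 hz with hz | hz
        · obtain ⟨x, hx, rfl⟩ := Finset.mem_image.1 hz
          exact hSpos x hx
        · rw [Finset.mem_singleton] at hz
          rw [hz]; exact hpb1
      · obtain ⟨x, hx, rfl⟩ := Finset.mem_image.1 hz
        exact mul_pos (hSpos x hx) hCb)
  have hδ := hE1 e1 he1 le_rfl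
  set A : ℝ × ℝ × ℝ := (-σ) • Lf u b1 + e1 • D1 with hA
  have evA : ∀ x, ev A x = -(σ * dt u b1 x) + e1 * ev D1 x := by
    intro x
    rw [hA, ev_add, ev_smul, ev_smul, ev_Lf]
    ring
  have hAS : ∀ x ∈ S, 0 < ev A x := by
    intro x hx
    rw [evA]
    exact hδ (-(σ * dt u b1 x), ev D1 x) (Finset.mem_union_left _ (Finset.mem_union_left _
      (Finset.mem_image.2 ⟨x, hx, rfl⟩)))
  have hAp : ev A p < 0 := by
    rw [evA]
    have := hδ (σ * dt u b1 p, -ev D1 p) (Finset.mem_union_left _ (Finset.mem_union_right _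
      (Finset.mem_singleton_self _)))
    simp only at this
    linarith
  have hAC : ∀ x ∈ S, ev A b1 * ev C0 x < ev A x * ev C0 b1 := by
    intro x hx
    have := hδ (-(σ * dt u b1 x) * ev C0 b1, ev D1 x * ev C0 b1 - ev D1 b1 * ev C0 x)
      (Finset.mem_union_right _ (Finset.mem_image.2 ⟨x, hx, rfl⟩))
    simp only at this
    rw [evA, evA]
    have e0 : dt u b1 b1 = 0 := by simp
    rw [e0]
    linarith
  have hAu : ev A u < 0 := by
    rw [evA, hD1u]
    have e0 : dt u b1 u = 0 := by simp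
    rw [e0]
    have : 0 < e1 * q := mul_pos he1 hqpos
    linarith
  have hAb : 0 < ev A b1 := by
    rw [evA, hD1b]
    have e0 : dt u b1 b1 = 0 := by simp
    rw [e0]
    have : 0 < e1 * q := mul_pos he1 hqpos
    linarith
  have hApos : ∀ x ∈ R1 ∪ B, x ≠ p → x ≠ u → 0 < ev A x := by
    intro x hx hxp hxu
    by_cases hxb : x = b1
    · rw [hxb]; exact hAb
    · exact hAS x ((mS x).2 ⟨hx, hxu, hxb, hxp⟩)
  set K : ℝ := (-ev A p) / ev C0 p + (-ev A u) / ev C0 u + 1 with hK
  have hK1 : 0 < (-ev A p) / ev C0 p := div_pos (by linarith) hCp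
  have hK2 : 0 < (-ev A u) / ev C0 u := div_pos (by linarith) hCu
  have hKpos : 0 < K := by rw [hK]; linarith
  have hdisj : Disjoint R1 B := Finset.disjoint_of_subset_left hR1R hd
  obtain ⟨lR, lB, hT, hF, -⟩ := s_prime (R := R1) (B := B) (r := p) (r' := ρ) (b := u) (b' := β)
    (hG.mono hsub) hdisj (Finset.mem_insert_self _ _)
    (Finset.mem_insert_of_mem (Finset.mem_sdiff.2 ⟨hρ, hρR0⟩)) hu hβ hpρ huβ A (K • C0) hAp.le
    hAu.le hApos (by rw [ev_smul, hC1, mul_zero]) (by rw [ev_smul, hC2, mul_zero])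
    (fun x hx h3 h4 => by rw [ev_smul]; exact mul_pos hKpos (hC3 x (hsub hx) h3 h4))
    (by
      intro x hx
      rw [ev_smul]
      by_cases hxp : x = p
      · rw [hxp]
        have : (-ev A p) / ev C0 p * ev C0 p = -ev A p := div_mul_cancel₀ _ hCp.ne'
        have h3 : 0 < (-ev A u) / ev C0 u * ev C0 p := mul_pos hK2 hCp
        rw [hK]
        nlinarith
      · by_cases hxu : x = u
        · rw [hxu]
          have : (-ev A u) / ev C0 u * ev C0 u = -ev A u := div_mul_cancel₀ _ hCu.ne'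
          have h3 : 0 < (-ev A p) / ev C0 p * ev C0 u := mul_pos hK1 hCu
          rw [hK]
          nlinarith
        · have h3 := hApos x hx hxp hxu
          have h4 := mul_nonneg hKpos.le (hC0n x (hsub hx))
          linarith)
  have hF1 := (hF b1 (Finset.mem_union_right _ hb1) (neq p hpR b1 hb1).symm hb1u (by
    intro x hx hxp hxu hxb
    rw [ev_smul, ev_smul]
    have := hAC x ((mS x).2 ⟨hx, hxu, hxb, hxp⟩)
    nlinarith)).2 hb1
  obtain ⟨lR', hT', hcnt⟩ := absorb (σ := σ) hG hd hR0R haR0 hp hu hva hpl hf hap hT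
  exact ⟨lR', lB, hT', firstOne_of_cnt hT'.hB hcnt hF1⟩


/-! ### SPa -/

/-- if `β` is a point of `P` beyond the line `t a`, with `a u` a hull edge and `t` a hull vertex,
then `β` is after `t` around `u` -/
theorem after_of_beyond {P : Finset Pt} (hG : GP P) {a u t β : Pt} (hau : HE P a u) (ht : HV P t)
    (hta : t ≠ a) (htu : t ≠ u) (hβP : β ∈ P) (hβt : β ≠ t) (hβ : dt t a β < 0) :
    β ≠ u ∧ β ≠ a ∧ 0 < dt u t β := by
  have h1 := hau.2.2.2 t ht.1 hta htu
  have hβu : β ≠ u := by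
    rintro rfl
    have : dt a β t = dt t a β := dt_rot t a β
    linarith
  have hβa : β ≠ a := by
    rintro rfl
    simp at hβ
  refine ⟨hβu, hβa, ?_⟩
  have h0 := hG u hau.2.1 t ht.1 β hβP htu.symm (Ne.symm hβu) (Ne.symm hβt)
  by_contra hcon
  have h2 : dt u t β < 0 := lt_of_le_of_ne (not_lt.1 hcon) h0
  have h3 := hau.2.2.2 β hβP hβa hβu
  apply ht.not_in_triangle hau.1 hau.2.1 hβP (hau.2.2.2 t ht.1 hta htu)
  · rw [dt_swap' u t β]; linarith
  · have : dt β a t = - dt t a β := by rw [← dt_swap' t a β]; exact (dt_rot t β a)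
    rw [this]; linarith

theorem spa : SPaStmt := by
  classical
  intro R B a t u s β hG hd ha ht hu hs hat hus h1 h2 hβ hvβ hβ1
  have neq : ∀ x ∈ R, ∀ y ∈ B, x ≠ y := fun x hx y hy e =>
    (Finset.disjoint_left.1 hd hx) (e ▸ hy)
  have aP := Finset.mem_union_left B ha
  have tP := Finset.mem_union_left B ht
  have uP := Finset.mem_union_right R hu
  have sP := Finset.mem_union_right R hs
  have βP := Finset.mem_union_right R hβ
  obtain ⟨hβu, hβa, hβ2⟩ := after_of_beyond hG h1 h2.hv_right hat.symm (neq t ht u hu) βP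
    (neq t ht β hβ).symm hβ1
  obtain ⟨_, c, hc⟩ := h1.hv_right
  have hst : 0 < dt u s t := by
    have := h2.2.2.2 u uP hus (neq t ht u hu).symm
    rw [dt_rot'] ; exact this
  have hsβ : 0 < dt u s β := ang_trans (hc s sP hus.symm) (hc t tP (neq t ht u hu))
    (hc β βP hβu) hst hβ2
  have hβs : β ≠ s := by rintro rfl; simp at hsβ
  obtain ⟨b1, hb1, hb1l⟩ := exists_last_around (σ := -1) (R0 := B.erase u) hG h1.hv_right
    (by norm_num) ((Finset.erase_subset _ _).trans Finset.subset_union_right) (by simp)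
    ⟨s, Finset.mem_erase.2 ⟨hus.symm, hs⟩⟩
  have hb1' := Finset.mem_erase.1 hb1
  have hlast : ∀ b ∈ B, b ≠ u → b ≠ b1 → 0 < dt u b b1 := by
    intro b hb hbu hbb
    have := hb1l b (Finset.mem_erase.2 ⟨hbu, hb⟩) hbb
    rw [dt_swap' u b1 b]; linarith
  have hb1s : b1 ≠ s := by
    rintro rfl
    have := hlast β hβ hβu hβs
    rw [dt_swap' u b1 β] at this
    linarith
  have htb1 : 0 < dt u t b1 := by
    by_cases h : β = b1
    · rw [← h]; exact hβ2
    · exact ang_trans (hc t tP (neq t ht u hu)) (hc β βP hβu)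
        (hc b1 (Finset.mem_union_right _ hb1'.2) hb1'.1) hβ2 (hlast β hβ hβu h)
  exact sp1 (σ := 1) hG hd ha ht hu hs hat hus
    (fun z hz h3 h4 => by rw [one_mul]; exact h1.2.2.2 z hz h3 h4) (Or.inr h2) hb1'.2 hb1'.1 hb1s
    (fun b hb h3 h4 => by rw [one_mul]; exact hlast b hb h3 h4) (by rw [one_mul]; exact htb1)

/-! ### SPb -/

theorem spb : SPbStmt := by
  classical
  intro R B a s u t hG hd ha hs hu ht has hut h1 h2 hno
  have neq : ∀ x ∈ R, ∀ y ∈ B, x ≠ y := fun x hx y hy e =>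
    (Finset.disjoint_left.1 hd hx) (e ▸ hy)
  have aP := Finset.mem_union_left B ha
  have sP := Finset.mem_union_left B hs
  have uP := Finset.mem_union_right R hu
  have tP := Finset.mem_union_right R ht
  obtain ⟨_, c, hc⟩ := h1.hv_right
  have hst : 0 < dt u s t := by
    have := h2.2.2.2 u uP (neq s hs u hu).symm hut
    rw [dt_rot'] ; exact this
  obtain ⟨b1, hb1, hb1l⟩ := exists_last_around (σ := -1) (R0 := B.erase u) hG h1.hv_right
    (by norm_num) ((Finset.erase_subset _ _).trans Finset.subset_union_right) (by simp)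
    ⟨t, Finset.mem_erase.2 ⟨hut.symm, ht⟩⟩
  have hb1' := Finset.mem_erase.1 hb1
  have hlast : ∀ b ∈ B, b ≠ u → b ≠ b1 → 0 < dt u b b1 := by
    intro b hb hbu hbb
    have := hb1l b (Finset.mem_erase.2 ⟨hbu, hb⟩) hbb
    rw [dt_swap' u b1 b]; linarith
  by_cases hb1t : b1 = t
  swap
  · exact sp1 (σ := 1) hG hd ha hs hu ht has hut
      (fun z hz h3 h4 => by rw [one_mul]; exact h1.2.2.2 z hz h3 h4) (Or.inl h2) hb1'.2 hb1'.1 hb1t
      (fun b hb h3 h4 => by rw [one_mul]; exact hlast b hb h3 h4) (by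
        rw [one_mul]
        exact ang_trans (hc s sP (neq s hs u hu)) (hc t tP hut.symm)
          (hc b1 (Finset.mem_union_right _ hb1'.2) hb1'.1) hst
          (hlast t ht hut.symm (Ne.symm hb1t)))
  subst hb1t
  by_cases hB : ∃ b ∈ B, b ≠ u ∧ b ≠ b1
  swap
  · -- two blue points
    push Not at hB
    have hB2 : B = {u, b1} := by
      ext x
      simp only [Finset.mem_insert, Finset.mem_singleton]
      constructor
      · intro hx
        by_cases hxu : x = u
        · exact Or.inl hxu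
        · exact Or.inr (hB x hx hxu)
      · rintro (rfl | rfl)
        · exact hu
        · exact ht
    obtain ⟨γ, hγ0, hγ1, hγ2⟩ := exists_level hut
    have hRP : R ⊆ R ∪ B := Finset.subset_union_left
    have k1 : fn γ u < fn γ a := by
      have := h1.2.2.2 b1 tP (neq a ha b1 ht).symm hut.symm
      rw [← dt_rot a u b1, hγ2] at this
      linarith
    have k2 : fn γ s < fn γ u := by
      rw [dt_swap' u b1 s, hγ2] at hst
      linarith
    obtain ⟨l, hl, hlc⟩ := HV.path_line' (hG.mono hRP) (γ := γ) (k := fn γ u) (by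
      intro x hx h0
      have := hG u uP b1 tP x (hRP hx) hut (neq x hx u hu).symm (neq x hx b1 ht).symm
      apply this
      rw [hγ2, h0, sub_self]) (h1.hv_left.mono hRP ha) (h2.hv_left.mono hRP hs) k1 k2
    have hcnt : cnt (u, b1) (pe l) ≤ 1 := le_trans (cnt_le_lc rfl hγ1.symm hγ0) hlc
    refine ⟨l, [u, b1], ⟨hl, ?_, ?_, ?_⟩, ?_⟩
    · rw [hB2]; exact HamPath.pair hut
    · intro e _
      have := cnt_le_length e (pe [u, b1])
      simp at this
      simp only [pe_cons_cons, pe_single]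
      omega
    · intro f hf
      simp at hf
      rw [hf]
      omega
    · intro e he
      simp at he
      rw [← he]
      exact hcnt
  obtain ⟨b3, hb3, hb3u, hb3t⟩ := hB
  -- absorption
  set R0 := R.filter (fun x => 0 < dt u b1 x) with hR0
  have mR0 : ∀ x, x ∈ R0 ↔ x ∈ R ∧ 0 < dt u b1 x := fun x => by rw [hR0, Finset.mem_filter]
  have haR0 : a ∈ R0 := (mR0 a).2 ⟨ha, by
    rw [dt_rot]; exact h1.2.2.2 b1 tP (neq a ha b1 ht).symm hut.symm⟩
  have hR0R : R0 ⊆ R := Finset.filter_subset _ _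
  have huR0 : u ∉ R0 := fun h => neq u (hR0R h) u hu rfl
  obtain ⟨p, hp, hpl⟩ := exists_last_around (σ := 1) hG h1.hv_right one_ne_zero
    (hR0R.trans Finset.subset_union_left) huR0 ⟨a, haR0⟩
  have hpR := hR0R hp
  have hpP := Finset.mem_union_left B hpR
  have haft : ∀ x ∈ (R \ R0) ∪ B, x ≠ u → x ≠ b1 → dt u b1 x < 0 := by
    intro x hx hxu hxb
    rcases Finset.mem_union.1 hx with hx | hx
    · have hx' := Finset.mem_sdiff.1 hx
      have h0 := hG u uP b1 tP x (Finset.mem_union_left _ hx'.1) hut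
        (Ne.symm hxu) (Ne.symm hxb)
      have h4 : ¬ 0 < dt u b1 x := fun h => hx'.2 ((mR0 x).2 ⟨hx'.1, h⟩)
      exact lt_of_le_of_ne (not_lt.1 h4) h0
    · have := hlast x hx hxu hxb
      rw [dt_swap' u b1 x] at this
      linarith
  have hpb1 : 0 < dt u b1 p := ((mR0 p).1 hp).2
  have hf : ∀ x ∈ (R \ R0) ∪ B, x ≠ u → dt u p x < 0 := by
    intro x hx hxu
    by_cases hxb : x = b1
    · rw [hxb, dt_swap' u b1 p]; linarith
    · have h3 := haft x hx hxu hxb
      have h4 : 0 < dt u x b1 := by rw [dt_swap' u b1 x]; linarith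
      have hxP : x ∈ R ∪ B := by
        rcases Finset.mem_union.1 hx with h | h
        · exact Finset.mem_union_left _ (Finset.mem_sdiff.1 h).1
        · exact Finset.mem_union_right _ h
      have h5 := ang_trans (hc x hxP hxu) (hc b1 tP hut.symm) (hc p hpP (neq p hpR u hu)) h4 hpb1
      rw [dt_swap' u p x] at h5
      linarith
  have hap : a = p → R0 = {p} := by
    intro h
    ext x
    rw [Finset.mem_singleton]
    constructor
    · intro hx
      by_contra hxp
      have h3 := hpl x hx hxp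
      have h4 := h1.2.2.2 x (Finset.mem_union_left _ (hR0R hx)) (by rw [h]; exact hxp)
        (neq x (hR0R hx) u hu)
      rw [← h, one_mul, dt_swap a u x] at h3
      linarith
    · rintro rfl; exact hp
  set R1 := insert p (R \ R0) with hR1
  have hR1R : R1 ⊆ R := by
    intro x hx
    rcases Finset.mem_insert.1 hx with rfl | hx
    · exact hpR
    · exact (Finset.mem_sdiff.1 hx).1
  have hsub : R1 ∪ B ⊆ R ∪ B := Finset.union_subset_union_left hR1R
  have hpu : HE (R1 ∪ B) p u := by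
    refine ⟨Finset.mem_union_left _ (Finset.mem_insert_self _ _), Finset.mem_union_right _ hu,
      neq p hpR u hu, ?_⟩
    intro z hz hzp hzu
    rw [dt_swap u p z]
    have : z ∈ (R \ R0) ∪ B := by
      rcases Finset.mem_union.1 hz with h | h
      · rcases Finset.mem_insert.1 h with h | h
        · exact absurd h hzp
        · exact Finset.mem_union_left _ h
      · exact Finset.mem_union_right _ h
    linarith [hf z this hzu]
  have hvt : HV (R1 ∪ B) b1 := h2.hv_right.mono hsub (Finset.mem_union_right _ ht)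
  have htp : HE (R1 ∪ B) b1 p := by
    refine ⟨Finset.mem_union_right _ ht, hpu.1, (neq p hpR b1 ht).symm, ?_⟩
    intro z hz hzb hzp
    by_cases hzu : z = u
    · rw [hzu, dt_rot]; exact hpb1
    · by_contra hcon
      have h0 := hG b1 tP p hpP z (hsub hz) (neq p hpR b1 ht).symm (Ne.symm hzb) (Ne.symm hzp)
      have h3 : dt b1 p z < 0 := lt_of_le_of_ne (not_lt.1 hcon) h0
      have h4 := (after_of_beyond (hG.mono hsub) hpu hvt (neq p hpR b1 ht).symm hut.symm hz hzb
        h3).2.2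
      have : z ∈ (R \ R0) ∪ B := by
        rcases Finset.mem_union.1 hz with h | h
        · rcases Finset.mem_insert.1 h with h | h
          · exact absurd h hzp
          · exact Finset.mem_union_left _ h
        · exact Finset.mem_union_right _ h
      linarith [haft z this hzu hzb]
  -- the hull chain from `u` to `s`
  have hcard : 2 ≤ (R ∪ B).card := by
    rw [← Finset.card_pair h1.ne]
    apply Finset.card_le_card
    intro x hx
    rcases Finset.mem_insert.1 hx with rfl | hx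
    · exact aP
    · rw [Finset.mem_singleton] at hx
      rw [hx]; exact uP
  obtain ⟨l, hln, hlm, hlp, hle⟩ := hull_list hG hcard h1.hv_right
  have hsl : s ∈ l := by
    have := (hlm s).2 h2.hv_left
    rcases List.mem_cons.1 this with h | h
    · exact absurd h (neq s hs u hu)
    · exact h
  obtain ⟨l1, l2, rfl⟩ := List.append_of_mem hsl
  have hl1 : ∀ x ∈ l1, 0 < dt u x s := by
    intro x hx
    rw [List.pairwise_append] at hlp
    exact hlp.2.2 x hx s (by simp)
  have hl1R : ∀ x ∈ l1 ++ [s], x ∈ R ∧ x ∉ R0 ∧ HV (R ∪ B) x := by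
    intro x hx
    have hxv : HV (R ∪ B) x := by
      apply (hlm x).1
      rcases List.mem_append.1 hx with h | h
      · simp [h]
      · rw [List.mem_singleton] at h; simp [h]
    rcases List.mem_append.1 hx with h | h
    · have h3 := hl1 x h
      have hxR : x ∈ R := by
        rcases Finset.mem_union.1 hxv.1 with h4 | h4
        · exact h4
        · exfalso
          apply hno x h4 hxv
          rw [dt_swap' u x s]; linarith
      refine ⟨hxR, ?_, hxv⟩
      intro h5
      have h6 := ((mR0 x).1 h5).2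
      have h7 := ang_trans (hc x hxv.1 (neq x hxR u hu)) (hc s sP (neq s hs u hu))
        (hc b1 tP hut.symm) h3 hst
      rw [dt_swap' u b1 x] at h7
      linarith
    · rw [List.mem_singleton] at h
      subst h
      refine ⟨hs, ?_, h2.hv_left⟩
      intro h5
      have h6 := ((mR0 x).1 h5).2
      rw [dt_swap' u b1 x] at hst
      linarith
  rcases hch : l1 ++ [s] with _ | ⟨r1, rest⟩
  · simp at hch
  have hpe : ∀ e ∈ pe (u :: r1 :: rest), HE (R ∪ B) e.1 e.2 := by
    intro e he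
    apply hle
    rw [ce_cons]
    have e1 : u :: (l1 ++ s :: l2 ++ [u]) = (u :: l1) ++ s :: (l2 ++ [u]) := by simp
    rw [e1, pe_append]
    rw [← hch] at he
    exact List.mem_append_left _ (by simpa using he)
  have hur1 : HE (R ∪ B) u r1 := hpe (u, r1) (by simp)
  rw [hch] at hl1R
  have hr1 := hl1R r1 (by simp)
  have hnd : (r1 :: rest).Nodup := by
    rw [← hch]
    have h3 := (List.nodup_cons.1 hln).2
    have e1 : l1 ++ s :: l2 = (l1 ++ [s]) ++ l2 := by simp
    rw [e1, List.nodup_append] at h3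
    exact h3.1
  have hlast' : (r1 :: rest).getLast? = some s := by rw [← hch]; simp
  -- the smaller set
  set R' := R1 \ rest.toFinset with hR'
  have hR'R1 : R' ⊆ R1 := Finset.sdiff_subset
  have hr1R1 : ∀ x ∈ r1 :: rest, x ∈ R1 := fun x hx =>
    Finset.mem_insert_of_mem (Finset.mem_sdiff.2 ⟨(hl1R x hx).1, (hl1R x hx).2.1⟩)
  have hr1R' : r1 ∈ R' := Finset.mem_sdiff.2 ⟨hr1R1 r1 (by simp), by
    rw [List.mem_toFinset]; exact (List.nodup_cons.1 hnd).1⟩
  have hpR' : p ∈ R' := Finset.mem_sdiff.2 ⟨Finset.mem_insert_self _ _, by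
    rw [List.mem_toFinset]
    intro h
    exact (hl1R p (List.mem_cons_of_mem _ h)).2.1 hp⟩
  have hsub' : R' ∪ B ⊆ R1 ∪ B := Finset.union_subset_union_left hR'R1
  have hr1p : r1 ≠ p := by rintro rfl; exact hr1.2.1 hp
  obtain ⟨b2, hb2, hb2l⟩ := exists_last_around (σ := 1) (R0 := B.erase u) hG h1.hv_right
    one_ne_zero ((Finset.erase_subset _ _).trans Finset.subset_union_right) (by simp)
    ⟨b1, hb1⟩
  have hb2' := Finset.mem_erase.1 hb2
  have hb2t : b2 ≠ b1 := by
    rintro rfl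
    have h3 := hb2l b3 (Finset.mem_erase.2 ⟨hb3u, hb3⟩) hb3t
    have h4 := hlast b3 hb3 hb3u hb3t
    rw [dt_swap' u b2 b3] at h4
    linarith
  have hb2p : 0 < dt u b2 p := by
    have := hpu.2.2.2 b2 (Finset.mem_union_right _ hb2'.2) (neq p hpR b2 hb2'.2).symm hb2'.1
    rw [dt_rot]; exact this
  obtain ⟨lR, lB, hT, hF⟩ := sp1 (σ := -1) (R := R') (B := B) (a := r1) (ρ := p) (u := u)
    (β := b1) (b1 := b2) (hG.mono (hsub'.trans hsub))
    (Finset.disjoint_of_subset_left (hR'R1.trans hR1R) hd) hr1R' hpR' hu ht hr1p hut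
    (fun z hz h3 h4 => by
      have := hur1.2.2.2 z (hsub (hsub' hz)) h4 h3
      rw [dt_swap u r1 z]; linarith)
    (Or.inr ⟨Finset.mem_union_right _ ht, Finset.mem_union_left _ hpR', (neq p hpR b1 ht).symm,
      fun z hz h3 h4 => htp.2.2.2 z (hsub' hz) h3 h4⟩) hb2'.2 hb2'.1 hb2t
    (fun b hb h3 h4 => by
      have := hb2l b (Finset.mem_erase.2 ⟨h3, hb⟩) h4
      rw [dt_swap' u b2 b]; linarith)
    (by rw [dt_swap' u b2 p]; linarith)
  -- walking along the hull
  have hW : HamPath (r1 :: rest).toFinset s r1 (r1 :: rest).reverse := by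
    have hpe' : ∀ e ∈ pe (r1 :: rest), HE (R ∪ B) e.1 e.2 := fun e he => hpe e (by simp [he])
    have hH : HamPath (r1 :: rest).toFinset r1 s (r1 :: rest) := by
      refine ⟨hnd, rfl, rfl, hlast', ?_⟩
      rw [List.pairwise_iff_forall_sublist]
      intro e f hef
      have he : e ∈ pe (r1 :: rest) := hef.subset (by simp)
      have hf' : f ∈ pe (r1 :: rest) := hef.subset (by simp)
      have h3 := hpe' e he
      have h4 := hpe' f hf'
      exact h3.not_cross h4.1 h4.2.1
    exact hH.reverse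
  have hcr : ∀ e ∈ pe (r1 :: rest).reverse, ∀ f : Pt × Pt, f.1 ∈ R ∪ B → f.2 ∈ R ∪ B →
      ¬ CrossE e f := by
    intro e he f hf1 hf2
    rw [pe_reverse, List.mem_reverse, List.mem_map] at he
    obtain ⟨e, he, rfl⟩ := he
    have := hpe e (by simp [he])
    exact this.not_cross' hf1 hf2
  obtain ⟨hT2, hc2⟩ := hT.prepend hW (by
    intro x hx hx'
    rw [List.mem_toFinset] at hx
    rcases List.mem_cons.1 hx with h | h
    · exact h
    · exact absurd (List.mem_toFinset.2 h) (Finset.mem_sdiff.1 hx').2)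
    (fun e he f hf' => hcr e he f
      (Finset.mem_union_left _ (hR1R (hR'R1 (hT.hR.mem.1 (mem_of_mem_pe hf').1))))
      (Finset.mem_union_left _ (hR1R (hR'R1 (hT.hR.mem.1 (mem_of_mem_pe hf').2)))))
    (fun e he f hf' => hcr e he f
      (Finset.mem_union_right _ (hT.hB.mem.1 (mem_of_mem_pe hf').1))
      (Finset.mem_union_right _ (hT.hB.mem.1 (mem_of_mem_pe hf').2)))
  obtain ⟨hT3, hc3⟩ := hT2.reverseR
  have hU : (r1 :: rest).toFinset ∪ R' = R1 := by
    ext x
    rw [Finset.mem_union, List.mem_toFinset]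
    constructor
    · rintro (h | h)
      · exact hr1R1 x h
      · exact hR'R1 h
    · intro h
      by_cases hx : x ∈ rest
      · left; exact List.mem_cons_of_mem _ hx
      · right; exact Finset.mem_sdiff.2 ⟨h, by rw [List.mem_toFinset]; exact hx⟩
  rw [hU] at hT3
  obtain ⟨lR', hT', hcnt⟩ := absorb (σ := 1) hG hd hR0R haR0 hp hu h1.hv_left hpl
    (fun x hx h3 => by rw [one_mul]; exact hf x hx h3) hap hT3
  refine ⟨lR', lB, hT', firstOne_of_cnt hT'.hB ?_ hF⟩
  intro f hf1 hf2
  rw [hcnt f hf1 hf2, hc3, hc2 f]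
  intro e he hce
  exact hcr e he f (Finset.mem_union_right _ hf1) (Finset.mem_union_right _ hf2)
    (crossE_comm.1 hce)

end Pool.Agent.TK
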