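import Pool.Agent.TK.Stmts

/-!
# Tokunaga's problem: the slanted linear run lemma
-/

set_option autoImplicit false

namespace Pool.Agent.TK

/-- point reflection -/
def ng (p : Pt) : Pt := (-p.1, -p.2)

theorem dt_ng (p q r : Pt) : dt (ng p) (ng q) (ng r) = dt p q r := by unfold dt ng; ring

/-- point of the segment -/
def lam (s d : Pt) (t : ℝ) : Pt := ((1 - t) * s.1 + t * d.1, (1 - t) * s.2 + t * d.2)

theorem dt_lam (p q s d : Pt) (t : ℝ) : dt p q (lam s d t) = (1 - t) * dt p q s + t * dt p q d := by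
  unfold dt lam; ring

theorem fn_lam (c s d : Pt) (t : ℝ) : fn c (lam s d t) = (1 - t) * fn c s + t * fn c d := by
  unfold fn lam; ring

/-- a parameter where two affine functions are positive -/
theorem exists_param {Fs Fd Gs Gd : ℝ} (h1 : Fs < 0) (h2 : 0 < Fd) (h3 : 0 < Gs)
    (h4 : 0 < Fd * Gs - Fs * Gd) : ∃ t : ℝ, 0 < t ∧ t < 1 ∧ 0 < (1 - t) * Fs + t * Fd ∧
      0 < (1 - t) * Gs + t * Gd := by
  rcases le_or_gt Gd 0 with h5 | h5
  · have k1 : 0 < Fd - Fs := by linarith
    have k2 : 0 < Gs - Gd := by linarith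
    have e1 : -Fs / (Fd - Fs) < Gs / (Gs - Gd) := by
      rw [div_lt_div_iff₀ k1 k2]; nlinarith
    have e2 : 0 < -Fs / (Fd - Fs) := div_pos (by linarith) k1
    have e3 : Gs / (Gs - Gd) ≤ 1 := by rw [div_le_one k2]; linarith
    obtain ⟨t, ht1, ht2⟩ := exists_between e1
    refine ⟨t, by linarith, by linarith, ?_, ?_⟩
    · rw [div_lt_iff₀ k1] at ht1; nlinarith
    · rw [lt_div_iff₀ k2] at ht2; nlinarith
  · have k1 : 0 < Fd - Fs := by linarith
    have e1 : -Fs / (Fd - Fs) < 1 := by rw [div_lt_one k1]; linarith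
    have e2 : 0 < -Fs / (Fd - Fs) := div_pos (by linarith) k1
    obtain ⟨t, ht1, ht2⟩ := exists_between e1
    refine ⟨t, by linarith, ht2, ?_, ?_⟩
    · rw [div_lt_iff₀ k1] at ht1; nlinarith
    · have := mul_pos (by linarith : 0 < 1 - t) h3
      have := mul_pos (by linarith : 0 < t) h5
      linarith

/-- the part of the wire beyond the line `F = 0` does not meet segments on the other side -/
theorem cross_cut {p q s d u v : Pt} {t : ℝ} (ht0 : 0 < t) (ht1 : t < 1)
    (hFu : dt p q u ≤ 0) (hFv : dt p q v ≤ 0) (hq : 0 < dt p q (lam s d t))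
    (hs : dt p q s < 0) (hd : 0 < dt p q d) (h : Cross d s u v) : Cross (lam s d t) s u v := by
  obtain ⟨α, β, γ, δ, hα, hβ, hαβ, hγ, hδ, hγδ, hE⟩ := h.exists_inter
  have e1 := congrArg (dt p q) hE
  rw [dt_combo _ _ _ _ _ _ hαβ, dt_combo _ _ _ _ _ _ hγδ] at e1
  have e2 : γ * dt p q u + δ * dt p q v ≤ 0 := by
    have := mul_nonneg hγ.le (neg_nonneg.2 hFu)
    have := mul_nonneg hδ.le (neg_nonneg.2 hFv)
    linarith
  rw [dt_lam] at hq
  have e3 := congrArg (dt u v) hE
  rw [dt_combo _ _ _ _ _ _ hαβ, dt_combo _ _ _ _ _ _ hγδ] at e3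
  simp only [dt_self_out, dt_self_right, mul_zero, add_zero] at e3
  have hαt : α < t := by
    by_contra hc
    have hc' : t ≤ α := not_lt.1 hc
    have hβ' : β = 1 - α := by linarith
    rw [hβ'] at e1
    have : 0 ≤ (α - t) * (dt p q d - dt p q s) := mul_nonneg (by linarith) (by linarith)
    nlinarith
  obtain ⟨i1, i2⟩ := h
  constructor
  · have a1 : dt (lam s d t) s u = t * dt d s u := by unfold dt lam; ring
    have a2 : dt (lam s d t) s v = t * dt d s v := by unfold dt lam; ring
    rw [a1, a2]
    have := mul_pos_of_neg_of_neg (neg_lt_zero.2 (mul_pos ht0 ht0)) i1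
    linarith [show t * dt d s u * (t * dt d s v) = t * t * (dt d s u * dt d s v) by ring]
  · rw [dt_lam]
    set D := dt u v d
    set S := dt u v s
    have hβ' : β = 1 - α := by linarith
    rw [hβ'] at e3
    have hS : S ≠ 0 := by
      intro h0; rw [h0] at i2; simp at i2
    have hSS : 0 < S * S := mul_self_pos.2 hS
    have key : α * (((1 - t) * S + t * D) * S) = (α - t) * (S * S) := by
      linear_combination (t * S) * e3
    have h6 : (α - t) * (S * S) < 0 := mul_neg_of_neg_of_pos (by linarith) hSS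
    by_contra hc
    have := mul_nonneg hα.le (not_lt.1 hc)
    linarith

/-- transport back with the lists -/
theorem TwoPaths.pull' {R B : Finset Pt} {r r' b b' : Pt} {f : Pt → Pt} (hf : SignIso f (R ∪ B))
    (hr : r ∈ R) (hr' : r' ∈ R) (hb : b ∈ B) (hb' : b' ∈ B) {kR kB : List Pt}
    (h : TwoPaths (R.image f) (B.image f) (f r) (f r') (f b) (f b') kR kB) :
    ∃ lR lB, TwoPaths R B r r' b b' lR lB ∧ lR.map f = kR ∧ lB.map f = kB := by
  classical
  set g : Pt → Pt := Function.invFunOn f (↑(R ∪ B) : Set Pt) with hg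
  have hgf : ∀ x ∈ R ∪ B, g (f x) = x := by
    intro x hx
    exact hf.inj.leftInvOn_invFunOn hx
  have hfg : ∀ y ∈ (R ∪ B).image f, f (g y) = y := by
    intro y hy
    obtain ⟨x, hx, rfl⟩ := Finset.mem_image.1 hy
    rw [hgf x hx]
  have hsg : SignIso g (R.image f ∪ B.image f) := by
    rw [← Finset.image_union]
    constructor
    · intro x hx' y hy' hxy
      obtain ⟨x, hx, rfl⟩ := Finset.mem_image.1 (Finset.mem_coe.1 hx')
      obtain ⟨y, hy, rfl⟩ := Finset.mem_image.1 (Finset.mem_coe.1 hy')
      rw [hgf x hx, hgf y hy] at hxy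
      rw [hxy]
    · intro p hp' q hq' s hs'
      obtain ⟨p, hp, rfl⟩ := Finset.mem_image.1 hp'
      obtain ⟨q, hq, rfl⟩ := Finset.mem_image.1 hq'
      obtain ⟨s, hs, rfl⟩ := Finset.mem_image.1 hs'
      rw [hgf p hp, hgf q hq, hgf s hs]
      exact (hf.sg p hp q hq s hs).symm
  have h2 := h.map hsg
  have eR : (R.image f).image g = R := by
    rw [Finset.image_image]
    ext x
    simp only [Finset.mem_image, Function.comp]
    constructor
    · rintro ⟨y, hy, rfl⟩
      rw [hgf y (Finset.mem_union_left _ hy)]; exact hy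
    · intro hx
      exact ⟨x, hx, hgf x (Finset.mem_union_left _ hx)⟩
  have eB : (B.image f).image g = B := by
    rw [Finset.image_image]
    ext x
    simp only [Finset.mem_image, Function.comp]
    constructor
    · rintro ⟨y, hy, rfl⟩
      rw [hgf y (Finset.mem_union_right _ hy)]; exact hy
    · intro hx
      exact ⟨x, hx, hgf x (Finset.mem_union_right _ hx)⟩
  rw [eR, eB, hgf r (Finset.mem_union_left _ hr), hgf r' (Finset.mem_union_left _ hr'),
    hgf b (Finset.mem_union_right _ hb), hgf b' (Finset.mem_union_right _ hb')] at h2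
  refine ⟨_, _, h2, ?_, ?_⟩
  · rw [List.map_map]
    conv_rhs => rw [← List.map_id kR]
    apply List.map_congr_left
    intro y hy
    exact hfg y (by rw [Finset.image_union]; exact Finset.mem_union_left _ (h.hR.mem.1 hy))
  · rw [List.map_map]
    conv_rhs => rw [← List.map_id kB]
    apply List.map_congr_left
    intro y hy
    exact hfg y (by rw [Finset.image_union]; exact Finset.mem_union_right _ (h.hB.mem.1 hy))

theorem FirstOne.pull {P : Finset Pt} {f : Pt → Pt} (hf : SignIso f P) {l k : List Pt}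
    (hl : ∀ x ∈ l, x ∈ P) (hk : ∀ x ∈ k, x ∈ P) (h : FirstOne (l.map f) (k.map f)) :
    FirstOne l k := by
  intro e he
  have hm := mem_of_mem_pe (List.mem_of_mem_head? (by rw [he]; rfl))
  have := h (f e.1, f e.2) (by rw [pe_map, List.head?_map, he]; rfl)
  rw [cnt_map hf (hl _ hm.1) (hl _ hm.2) hk] at this
  exact this

theorem LastOne.pull {P : Finset Pt} {f : Pt → Pt} (hf : SignIso f P) {l k : List Pt}
    (hl : ∀ x ∈ l, x ∈ P) (hk : ∀ x ∈ k, x ∈ P) (h : LastOne (l.map f) (k.map f)) :
    LastOne l k := by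
  intro e he
  have hm := mem_of_mem_pe (List.mem_of_getLast? he)
  have := h (f e.1, f e.2) (by rw [pe_map, List.getLast?_map, he]; rfl)
  rw [cnt_map hf (hl _ hm.1) (hl _ hm.2) hk] at this
  exact this

/-- replacing the head of the blue path by a point further up the wire -/
theorem swap_head {R B : Finset Pt} {a a' d q υ s : Pt} {lR l : List Pt} (hq : q ∉ B) (hd : d ∉ B)
    (hT : TwoPaths R (insert q B) a a' q υ lR (q :: s :: l))
    (hcr : ∀ u ∈ R ∪ B, ∀ v ∈ R ∪ B, Cross d s u v → Cross q s u v)
    (hF : FirstOne (q :: s :: l) lR) (hL : LastOne (q :: s :: l) lR) (hl : l ≠ []) :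
    TwoPaths R (insert d B) a a' d υ lR (d :: s :: l) ∧ FirstOne (d :: s :: l) lR ∧
      LastOne (d :: s :: l) lR := by
  classical
  have hmR : ∀ x ∈ lR, x ∈ R ∪ B := fun x hx => Finset.mem_union_left _ (hT.hR.mem.1 hx)
  have hqsl : q ∉ s :: l := (List.nodup_cons.1 hT.hB.nd).1
  have hmB : ∀ x, x ∈ s :: l ↔ x ∈ B := by
    intro x
    have h1 := hT.hB.mem (x := x)
    rw [List.mem_cons, Finset.mem_insert] at h1
    constructor
    · intro hx
      rcases h1.1 (Or.inr hx) with h | h
      · rw [h] at hx; exact absurd hx hqsl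
      · exact h
    · intro hx
      rcases h1.2 (Or.inr hx) with h | h
      · rw [h] at hx; exact absurd hx hq
      · exact h
  have hmono : ∀ e : Pt × Pt, e.1 ∈ R ∪ B → e.2 ∈ R ∪ B → cnt e [(d, s)] ≤ cnt e [(q, s)] := by
    intro e h1 h2
    by_cases hc : Cross d s e.1 e.2
    · have h3 := (hcr e.1 h1 e.2 h2 hc).symm
      have : cnt e [(q, s)] = 1 := by
        unfold cnt
        rw [List.countP_cons_of_pos (by simp only [decide_eq_true_eq]; exact h3)]
        simp
      rw [this]
      exact cnt_single_le _ _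
    · have : cnt e [(d, s)] = 0 := by
        apply lcnt_zero
        intro f hf
        rw [List.mem_singleton] at hf
        rw [hf]
        intro h3
        exact hc h3.symm
      omega
  have hds : cnt (d, s) (pe lR) ≤ cnt (q, s) (pe lR) := by
    unfold cnt
    apply List.countP_mono_left
    intro f hf h
    have hm := mem_of_mem_pe hf
    simp only [decide_eq_true_eq] at h ⊢
    exact hcr _ (hmR _ hm.1) _ (hmR _ hm.2) h
  have hcF : cnt (q, s) (pe lR) ≤ 1 := hF (q, s) rfl
  have hne : (pe (s :: l)) ≠ [] := by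
    cases l with
    | nil => exact absurd rfl hl
    | cons b l => simp
  refine ⟨⟨hT.hR, ?_, ?_, ?_⟩, ?_, ?_⟩
  · refine ⟨?_, ?_, rfl, ?_, ?_⟩
    · rw [List.nodup_cons]
      refine ⟨?_, (List.nodup_cons.1 hT.hB.nd).2⟩
      rw [hmB]; exact hd
    · ext x
      rw [List.mem_toFinset, List.mem_cons, Finset.mem_insert, hmB]
    · have := hT.hB.la
      rw [List.getLast?_cons_cons] at this ⊢
      exact this
    · have := hT.hB.nc
      rw [pe_cons_cons, List.pairwise_cons] at this ⊢
      refine ⟨?_, this.2⟩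
      intro e he hc
      have hm := mem_of_mem_pe he
      exact this.1 e he (hcr _ (Finset.mem_union_right _ ((hmB _).1 hm.1)) _
        (Finset.mem_union_right _ ((hmB _).1 hm.2)) hc)
  · intro e he
    have hm := mem_of_mem_pe he
    have h1 := hT.cR e he
    rw [pe_cons_cons, lcnt_cons] at h1 ⊢
    have := hmono e (hmR _ hm.1) (hmR _ hm.2)
    omega
  · intro f hf
    rw [pe_cons_cons, List.mem_cons] at hf
    rcases hf with rfl | hf
    · omega
    · exact hT.cB f (by rw [pe_cons_cons]; exact List.mem_cons_of_mem _ hf)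
  · intro e he
    have : e = (d, s) := by simpa using he.symm
    rw [this]; omega
  · intro e he
    apply hL e
    rw [pe_cons_cons] at he ⊢
    cases hp : pe (s :: l) with
    | nil => exact absurd hp hne
    | cons x y =>
      rw [hp, List.getLast?_cons_cons] at he
      rw [List.getLast?_cons_cons]
      exact he

/-- a real head exists -/
theorem exists_head {r s : Pt} (h : r.1 < s.1) : ∃ q : Pt, q.1 < r.1 ∧ (1 : ℝ) * dt q r s < 0 := by
  have hD : 0 < s.1 - r.1 := by linarith
  refine ⟨(r.1 - 1, (-1 - (s.2 - r.2 * (s.1 - r.1 + 1))) / (s.1 - r.1)), by simp, ?_⟩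
  have : dt (r.1 - 1, (-1 - (s.2 - r.2 * (s.1 - r.1 + 1))) / (s.1 - r.1)) r s = -1 := by
    unfold dt
    simp only
    field_simp
    ring
  rw [this]; norm_num

theorem slant : SlantStmt := by
  intro R B a a' d υ c hD h1 h2 h3 h4
  classical
  obtain ⟨b0, hb0, hb0'⟩ := h2
  obtain ⟨b1, hb1, hb1'⟩ := h3
  have hne : ∀ x ∈ R, ∀ y ∈ B, x ≠ y := by
    rintro x hxR y hyB rfl
    exact Finset.disjoint_left.1 hD.dj hxR hyB
  have haP : a ∈ R ∪ B := Finset.mem_union_left _ hD.ha
  have ha'P : a' ∈ R ∪ B := Finset.mem_union_left _ hD.ha'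
  have hb0P : b0 ∈ R ∪ B := Finset.mem_union_right _ hb0
  have hb1P : b1 ∈ R ∪ B := Finset.mem_union_right _ hb1
  have hυne : ∀ x ∈ R ∪ B, x ≠ υ := by rintro x hx rfl; exact hD.hυ hx
  have hdne : ∀ x ∈ R ∪ B, x ≠ d := by rintro x hx rfl; exact hD.hd hx
  have F2 : ∀ z ∈ R ∪ B, z ≠ a' → 0 < dt υ a' z := fun z hz hza =>
    hD.he'.2.2.2 z (Finset.mem_insert_of_mem hz) (hυne z hz) hza
  have F3 : ∀ z ∈ insert υ (R ∪ B), z ≠ a → 0 < dt a d z := fun z hz hza =>
    hD.he.2.2.2 z (Finset.mem_insert_of_mem hz) hza (by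
      rcases Finset.mem_insert.1 hz with rfl | hz
      · exact hD.hdυ.symm
      · exact hdne z hz)
  have F2' : ∀ z ∈ R ∪ B, 0 ≤ dt υ a' z := by
    intro z hz
    by_cases h : z = a'
    · rw [h]; simp
    · exact (F2 z hz h).le
  -- the centre
  obtain ⟨e, he, hE⟩ := exists_small (insert d (R ∪ B)) υ (υ.1 - a'.1, υ.2 - a'.2)
  set z : Pt := mv υ (υ.1 - a'.1, υ.2 - a'.2) e with hz
  have hE' : ∀ p ∈ insert d (R ∪ B), ∀ q ∈ insert d (R ∪ B), 0 < dt υ p q → 0 < dt z p q := by
    intro p hp q hq h
    have := hE e he le_rfl p hp q hq (by rw [← dt_rot' p q υ]; exact h)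
    rw [dt_rot' p q]
    exact this
  have hzυ : ∀ x, dt z υ x = e * dt υ a' x := by
    intro x
    rw [hz]; unfold mv dt; ring
  have hfz : fn c z < fn c υ := by
    have h5 : fn c z = fn c υ + e * (fn c υ - fn c a') := by
      rw [hz]; unfold mv fn; ring
    have h6 := hD.low a' ha'P
    have h7 : e * (fn c υ - fn c a') < 0 := mul_neg_of_pos_of_neg he (by linarith)
    linarith
  have hc0 : c ≠ 0 := by
    rintro rfl
    have := hD.up
    unfold fn at this
    simp at this
  have sub : ∀ x ∈ R ∪ B, x ∈ insert d (R ∪ B) := fun x hx => Finset.mem_insert_of_mem hx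
  have dmem : d ∈ insert d (R ∪ B) := Finset.mem_insert_self _ _
  -- the points on the wires
  have hFs : ∀ s ∈ R ∪ B, s ≠ a → dt z a s < 0 := by
    intro s hs hsa
    have := hE' s (sub s hs) a (sub a haP) (h1 s hs hsa)
    rw [dt_swap'] at this
    linarith
  have hFd : 0 < dt z a d := by
    apply hE' a (sub a haP) d dmem
    have := F3 υ (Finset.mem_insert_self _ _) (hυne a haP).symm
    rw [dt_rot' a d υ]
    exact this
  have hqt : ∀ s : Pt, ∃ t : ℝ, s ∈ B → 0 < dt d υ s → (0 < t ∧ t < 1 ∧
      0 < dt z a (lam s d t) ∧ fn c z < fn c (lam s d t)) := by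
    intro s
    by_cases hs : s ∈ B ∧ 0 < dt d υ s
    · obtain ⟨hsB, hsd⟩ := hs
      have hsP : s ∈ R ∪ B := Finset.mem_union_right _ hsB
      have hsa : s ≠ a := (hne a hD.ha s hsB).symm
      have hGs : 0 < fn c s - fn c z := by have := hD.low s hsP; linarith
      have hK : 0 < dt z a d * (fn c s - fn c z) - dt z a s * (fn c d - fn c z) := by
        have h8 : dt z a d * (fn c s - fn c z) - dt z a s * (fn c d - fn c z)
            = dt z s d * (fn c a - fn c z) := by unfold dt fn; ring
        rw [h8]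
        have h9 : 0 < dt z s d := by
          apply hE' s (sub s hsP) d dmem
          rw [dt_rot d υ s]
          exact hsd
        exact mul_pos h9 (by have := hD.low a haP; linarith)
      obtain ⟨t, ht0, ht1, ht2, ht3⟩ := exists_param (hFs s hsP hsa) hFd hGs hK
      refine ⟨t, fun _ _ => ⟨ht0, ht1, ?_, ?_⟩⟩
      · rw [dt_lam]; exact ht2
      · rw [fn_lam]; linarith
    · exact ⟨0, fun h5 h6 => absurd ⟨h5, h6⟩ hs⟩
  choose tt htt using hqt
  set Q : Finset Pt := (B.filter (fun s => 0 < dt d υ s)).image (fun s => lam s d (tt s)) with hQ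
  have hQm : ∀ q ∈ Q, 0 < dt z a q ∧ fn c z < fn c q := by
    intro q hq
    obtain ⟨s, hs, rfl⟩ := Finset.mem_image.1 hq
    rw [Finset.mem_filter] at hs
    have := htt s hs.1 hs.2
    exact ⟨this.2.2.1, this.2.2.2⟩
  set P : Finset Pt := insert υ (R ∪ B) ∪ Q with hP
  have hHalf : Half c z P := by
    intro x hx
    rcases Finset.mem_union.1 hx with h | h
    · rcases Finset.mem_insert.1 h with rfl | h
      · exact hfz
      · have := hD.low x h; linarith
    · exact (hQm x h).2
  have hpr := pr_signIso hHalf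
  set g : Pt → Pt := fun p => ng (pr c z p) with hg
  have hglt : ∀ p ∈ P, ∀ q ∈ P, ((g p).1 < (g q).1 ↔ 0 < dt z q p) := by
    intro p hp q hq
    rw [← pr_lt hc0 (hHalf q hq) (hHalf p hp)]
    rw [hg]
    unfold ng
    simp only
    constructor <;> intro h <;> linarith
  have hginj : Set.InjOn g (P : Set Pt) := by
    intro p hp q hq h
    apply hpr.inj hp hq
    rw [hg] at h
    unfold ng at h
    simp only [Prod.mk.injEq, neg_inj] at h
    exact Prod.ext h.1 h.2
  obtain ⟨δ, hδ, hsh⟩ := exists_shear (P.image g)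
  set f : Pt → Pt := fun p => sh δ (g p) with hf
  have hfne : ∀ p ∈ P, ∀ q ∈ P, p ≠ q → (f p).1 ≠ (f q).1 := by
    intro p hp q hq hpq
    exact sh_ne hδ hsh (Finset.mem_image_of_mem g hp) (Finset.mem_image_of_mem g hq)
      (fun e => hpq (hginj hp hq e))
  have hflt : ∀ p ∈ P, ∀ q ∈ P, 0 < dt z q p → (f p).1 < (f q).1 := by
    intro p hp q hq h
    exact hsh _ (Finset.mem_image_of_mem g hp) _ (Finset.mem_image_of_mem g hq)
      ((hglt p hp q hq).2 h)
  have hfiso : SignIso f P := by
    constructor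
    · intro p hp q hq h
      by_contra hc
      exact hfne p hp q hq hc (by rw [h])
    · intro p hp q hq r hr
      rw [hpr.sg p hp q hq r hr]
      rw [hf]
      simp only
      rw [dt_sh, hg]
      simp only
      rw [dt_ng]
  -- membership
  have mP : ∀ x ∈ R ∪ B, x ∈ P := fun x hx =>
    Finset.mem_union_left _ (Finset.mem_insert_of_mem hx)
  have mυ : υ ∈ P := Finset.mem_union_left _ (Finset.mem_insert_self _ _)
  have mP' : ∀ x ∈ R ∪ insert υ B, x ∈ P := by
    intro x hx
    rcases Finset.mem_union.1 hx with h | h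
    · exact mP x (Finset.mem_union_left _ h)
    · rcases Finset.mem_insert.1 h with rfl | h
      · exact mυ
      · exact mP x (Finset.mem_union_right _ h)
  have hsubP : R ∪ insert υ B ⊆ P := mP'
  have hisoRB : SignIso f (R ∪ insert υ B) := hfiso.mono hsubP
  have hGPo : GP (R ∪ insert υ B) := by
    apply hD.gp.mono
    intro x hx
    rcases Finset.mem_union.1 hx with h | h
    · exact Finset.mem_insert_of_mem (Finset.mem_insert_of_mem (Finset.mem_union_left _ h))
    · rcases Finset.mem_insert.1 h with rfl | h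
      · exact Finset.mem_insert_of_mem (Finset.mem_insert_self _ _)
      · exact Finset.mem_insert_of_mem (Finset.mem_insert_of_mem (Finset.mem_union_right _ h))
  have hυR : υ ∉ R := fun h => hD.hυ (Finset.mem_union_left _ h)
  have hυB : υ ∉ B := fun h => hD.hυ (Finset.mem_union_right _ h)
  have hdj : Disjoint R (insert υ B) := by
    rw [Finset.disjoint_insert_right]; exact ⟨hυR, hD.dj⟩
  -- order facts
  have o1 : ∀ w ∈ R ∪ insert υ B, w ≠ a → (f a).1 < (f w).1 := by
    intro w hw hwa
    apply hflt a (mP a haP) w (mP' w hw)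
    rcases Finset.mem_union.1 hw with h | h
    · have hwP := Finset.mem_union_left B h
      exact hE' w (sub w hwP) a (sub a haP) (h1 w hwP hwa)
    · rcases Finset.mem_insert.1 h with rfl | h
      · rw [hzυ]
        exact mul_pos he (F2 a haP hD.ne)
      · have hwP := Finset.mem_union_right R h
        exact hE' w (sub w hwP) a (sub a haP) (h1 w hwP hwa)
  have o2 : ∀ w ∈ R ∪ B, w ≠ a' → (f w).1 < (f a').1 ∧ (f w).1 < (f υ).1 := by
    intro w hw hwa
    constructor
    · apply hflt w (mP w hw) a' (mP a' ha'P)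
      exact hE' a' (sub a' ha'P) w (sub w hw) (F2 w hw hwa)
    · apply hflt w (mP w hw) υ mυ
      rw [hzυ]
      exact mul_pos he (F2 w hw hwa)
  have o3 : ∀ w ∈ R ∪ insert υ B, w ≠ a → (f b0).1 ≤ (f w).1 := by
    intro w hw hwa
    by_cases hwb : w = b0
    · rw [hwb]
    · apply le_of_lt
      apply hflt b0 (mP b0 hb0P) w (mP' w hw)
      rcases Finset.mem_union.1 hw with h | h
      · have hwP := Finset.mem_union_left B h
        exact hE' w (sub w hwP) b0 (sub b0 hb0P) (hb0' w hwP hwa hwb)
      · rcases Finset.mem_insert.1 h with rfl | h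
        · rw [hzυ]
          exact mul_pos he (F2 b0 hb0P (hne a' hD.ha' b0 hb0).symm)
        · have hwP := Finset.mem_union_right R h
          exact hE' w (sub w hwP) b0 (sub b0 hb0P) (hb0' w hwP hwa hwb)
  obtain ⟨s', hs', hsR, kR, kB, hkB, hall⟩ := lrl_slanted (R := R.image f)
    (B := (insert υ B).image f) (r := f a) (r' := f a') (b' := f υ) (m0 := f b0) (σ := 1)
    (by rw [← Finset.image_union]; exact hisoRB.gp hGPo)
    (by
      rw [Finset.disjoint_left]
      intro x hx hx'
      obtain ⟨y, hy, rfl⟩ := Finset.mem_image.1 hx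
      obtain ⟨w, hw, hwy⟩ := Finset.mem_image.1 hx'
      have := hisoRB.inj (Finset.mem_coe.2 (Finset.mem_union_right R hw))
        (Finset.mem_coe.2 (Finset.mem_union_left (insert υ B) hy)) hwy
      rw [this] at hw
      exact Finset.disjoint_left.1 hdj hy hw)
    (by
      rw [← Finset.image_union]
      intro x hx y hy hxy
      obtain ⟨x, hx', rfl⟩ := Finset.mem_image.1 hx
      obtain ⟨y, hy', rfl⟩ := Finset.mem_image.1 hy
      exact hfne x (mP' x hx') y (mP' y hy') (fun e => hxy (by rw [e])))
    (Finset.mem_image_of_mem f hD.ha) (Finset.mem_image_of_mem f hD.ha')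
    (Finset.mem_image_of_mem f (Finset.mem_insert_self _ _))
    (fun e => hD.ne (hfiso.inj (mP a haP) (mP a' ha'P) e))
    (by
      rw [← Finset.image_union]
      intro x hx hxa
      obtain ⟨x, hx', rfl⟩ := Finset.mem_image.1 hx
      exact o1 x hx' (fun e => hxa (by rw [e])))
    (by
      rw [← Finset.image_union]
      intro x hx hxa hxυ
      obtain ⟨x, hx', rfl⟩ := Finset.mem_image.1 hx
      have hx1 : x ≠ a' := fun e => hxa (by rw [e])
      have hx2 : x ≠ υ := fun e => hxυ (by rw [e])
      apply o2 x _ hx1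
      rcases Finset.mem_union.1 hx' with h | h
      · exact Finset.mem_union_left _ h
      · exact Finset.mem_union_right _ ((Finset.mem_insert.1 h).resolve_left hx2))
    (Finset.mem_image_of_mem f (Finset.mem_insert_of_mem hb0))
    (by
      rw [← Finset.image_union]
      intro x hx hxa
      obtain ⟨x, hx', rfl⟩ := Finset.mem_image.1 hx
      exact o3 x hx' (fun e => hxa (by rw [e])))
    one_ne_zero
  obtain ⟨s0, hs0, rfl⟩ := Finset.mem_image.1 hs'
  have hs0P' : s0 ∈ R ∪ insert υ B := Finset.mem_union_right _ hs0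
  have hs0a : s0 ≠ a := by
    rcases Finset.mem_insert.1 hs0 with rfl | h
    · exact (hυne a haP).symm
    · exact (hne a hD.ha s0 h).symm
  -- the entry is not `υ`
  have hs0υ : s0 ≠ υ := by
    intro h0
    obtain ⟨q, hq1, hq2⟩ := exists_head (o1 s0 hs0P' hs0a)
    obtain ⟨hT, -, -⟩ := hall q hq1 hq2
    have h5 := hT.hB.la
    have h6 := hT.hB.nd
    have h7 : f b0 ∈ q :: kB := by
      rw [hT.hB.mem]
      exact Finset.mem_insert_of_mem (Finset.mem_image_of_mem f (Finset.mem_insert_of_mem hb0))
    have h8 : kB = [f υ] := by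
      cases kB with
      | nil => simp at hkB
      | cons x l =>
        have hx : x = f υ := by rw [h0] at hkB; simpa using hkB
        subst hx
        rw [List.getLast?_cons_cons] at h5
        cases l with
        | nil => rfl
        | cons y l =>
          exfalso
          rw [List.getLast?_cons_cons] at h5
          have := (List.nodup_cons.1 (List.nodup_cons.1 h6).2).1
          exact this (List.mem_of_getLast? h5)
    rw [h8, List.mem_cons, List.mem_singleton] at h7
    rcases h7 with h7 | h7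
    · have := o1 b0 (Finset.mem_union_right _ (Finset.mem_insert_of_mem hb0))
        (hne a hD.ha b0 hb0).symm
      rw [h7] at this
      linarith
    · exact hυne b0 hb0P (hfiso.inj (mP b0 hb0P) mυ h7)
  have hs0B : s0 ∈ B := (Finset.mem_insert.1 hs0).resolve_left hs0υ
  have hs0P : s0 ∈ R ∪ B := Finset.mem_union_right _ hs0B
  have hs0d : 0 < dt d υ s0 := by
    apply h4 s0 hs0B
    intro r hr hra
    have hrP := Finset.mem_union_left B hr
    have h5 := hsR (f r) (Finset.mem_image_of_mem f hr)
      (fun e => hra (hfiso.inj (mP r hrP) (mP a haP) e))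
    have h6 : dt υ r s0 ≠ 0 := by
      apply hD.gp υ (by simp) r (Finset.mem_insert_of_mem (Finset.mem_insert_of_mem hrP)) s0
        (Finset.mem_insert_of_mem (Finset.mem_insert_of_mem hs0P)) (hυne r hrP).symm
        (hυne s0 hs0P).symm (hne r hr s0 hs0B)
    rcases lt_or_gt_of_ne h6 with h7 | h7
    · exfalso
      have h8 : 0 < dt υ s0 r := by rw [dt_swap']; linarith
      have h9 := hflt r (mP r hrP) s0 (mP s0 hs0P) (hE' s0 (sub s0 hs0P) r (sub r hrP) h8)
      linarith
    · exact h7
  obtain ⟨ht0, ht1, ht2, ht3⟩ := htt s0 hs0B hs0d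
  set q : Pt := lam s0 d (tt s0) with hq
  have hqQ : q ∈ Q := by
    rw [hQ]
    exact Finset.mem_image.2 ⟨s0, Finset.mem_filter.2 ⟨hs0B, hs0d⟩, rfl⟩
  have hqP : q ∈ P := Finset.mem_union_right _ hqQ
  have hq1 : (f q).1 < (f a).1 := hflt q hqP a (mP a haP) ht2
  have hqa : dt q a s0 < 0 := by
    have h5 : dt q a s0 = tt s0 * - dt a d s0 := by
      rw [hq]; unfold lam dt; ring
    rw [h5]
    have := F3 s0 (Finset.mem_insert_of_mem hs0P) hs0a
    exact mul_neg_of_pos_of_neg ht0 (by linarith)
  have hq2 : (1 : ℝ) * dt (f q) (f a) (f s0) < 0 := by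
    rw [one_mul]
    exact (hfiso.neg hqP (mP a haP) (mP s0 hs0P)).1 hqa
  obtain ⟨hT, hF1, hL1⟩ := hall (f q) hq1 hq2
  have hqB : q ∉ insert υ B := by
    intro h
    by_cases hqa' : q = a
    · rw [hqa'] at hq1; exact lt_irrefl _ hq1
    · have := o1 q (Finset.mem_union_right _ h) hqa'
      linarith
  have hqR : q ∉ R := by
    intro h
    by_cases hqa' : q = a
    · rw [hqa'] at hq1; exact lt_irrefl _ hq1
    · have := o1 q (Finset.mem_union_left _ h) hqa'
      linarith
  -- last edge
  have hL2 : LastOne (f q :: kB) (f a :: kR) := by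
    refine (hL1 (f b1) ?_ ?_ ?_ ?_).2 ?_
    · rw [← Finset.image_union]
      exact Finset.mem_image_of_mem f (Finset.mem_union_right _ (Finset.mem_insert_of_mem hb1))
    · intro e
      exact (hne a' hD.ha' b1 hb1) (hfiso.inj (mP b1 hb1P) (mP a' ha'P) e).symm
    · intro e
      exact hυne b1 hb1P (hfiso.inj (mP b1 hb1P) mυ e)
    · rw [← Finset.image_union]
      intro x hx hxa hxυ
      obtain ⟨x, hx', rfl⟩ := Finset.mem_image.1 hx
      have hx1 : x ≠ a' := fun e => hxa (by rw [e])
      have hx2 : x ≠ υ := fun e => hxυ (by rw [e])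
      have hxP : x ∈ R ∪ B := by
        rcases Finset.mem_union.1 hx' with h | h
        · exact Finset.mem_union_left _ h
        · exact Finset.mem_union_right _ ((Finset.mem_insert.1 h).resolve_left hx2)
      by_cases hxb : x = b1
      · rw [hxb]
      · apply le_of_lt
        apply hflt x (mP x hxP) b1 (mP b1 hb1P)
        exact hE' b1 (sub b1 hb1P) x (sub x hxP) (hb1' x hxP hx1 hxb)
    · exact Finset.mem_image_of_mem f (Finset.mem_insert_of_mem hb1)
  -- pull back
  have hsub2 : R ∪ insert q (insert υ B) ⊆ P := by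
    intro x hx
    rcases Finset.mem_union.1 hx with h | h
    · exact mP' x (Finset.mem_union_left _ h)
    · rcases Finset.mem_insert.1 h with rfl | h
      · exact hqP
      · exact mP' x (Finset.mem_union_right _ h)
  rw [← Finset.image_insert] at hT
  obtain ⟨lR, lB, hT2, hlR, hlB⟩ := TwoPaths.pull' (hfiso.mono hsub2) hD.ha hD.ha'
    (Finset.mem_insert_self _ _) (Finset.mem_insert_of_mem (Finset.mem_insert_self _ _)) hT
  have hmR : ∀ x ∈ lR, x ∈ P := fun x hx => hsub2 (Finset.mem_union_left _ (hT2.hR.mem.1 hx))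
  have hmB : ∀ x ∈ lB, x ∈ P := fun x hx => hsub2 (Finset.mem_union_right _ (hT2.hB.mem.1 hx))
  have hF3 : FirstOne lB lR := by
    apply FirstOne.pull hfiso hmB hmR
    rw [hlR, hlB]; exact hF1
  have hL3 : LastOne lB lR := by
    apply LastOne.pull hfiso hmB hmR
    rw [hlR, hlB]; exact hL2
  -- shape of the blue path
  cases lB with
  | nil => simp at hlB
  | cons q' l0 =>
    have hq' : q' = q := by simpa using hT2.hB.hd
    subst hq'
    cases l0 with
    | nil =>
      exfalso
      have := (hT2.hB.mem (x := υ)).2 (Finset.mem_insert_of_mem (Finset.mem_insert_self _ _))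
      rw [List.mem_singleton] at this
      rw [this] at hqB
      exact hqB (Finset.mem_insert_self _ _)
    | cons w l1 =>
      simp only [List.map_cons, List.cons.injEq] at hlB
      have hw : w = s0 := by
        have h5 : kB.head? = some (f w) := by rw [← hlB.2]; rfl
        rw [hkB] at h5
        have h6 : f s0 = f w := by simpa using h5
        exact (hfiso.inj (mP s0 hs0P) (hmB w (by simp)) h6).symm
      subst hw
      have hl1 : l1 ≠ [] := by
        rintro rfl
        have := hT2.hB.la
        simp at this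
        exact hs0υ this
      have hcr : ∀ u ∈ R ∪ insert υ B, ∀ v ∈ R ∪ insert υ B, Cross d w u v → Cross q w u v := by
        intro u hu v hv hc
        have key : ∀ u ∈ R ∪ insert υ B, dt z a u ≤ 0 := by
          intro u hu
          by_cases hua : u = a
          · rw [hua]; simp
          · by_contra hcon
            have h5 := hflt u (mP' u hu) a (mP a haP) (not_le.1 hcon)
            have h6 := o1 u hu hua
            linarith
        exact cross_cut (p := z) (q := a) ht0 ht1 (key u hu) (key v hv) ht2 (hFs w hs0P hs0a)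
          hFd hc
      have hdB : d ∉ insert υ B := by
        intro h
        rcases Finset.mem_insert.1 h with h | h
        · exact hD.hdυ h
        · exact hD.hd (Finset.mem_union_right _ h)
      obtain ⟨k1, k2, k3⟩ := swap_head hqB hdB hT2 hcr hF3 hL3 hl1
      exact ⟨lR, d :: w :: l1, w, l1, k1, k2, k3, rfl, hs0B, hs0d⟩

end Pool.Agent.TK
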