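import Pool.Agent.TK.Runs

/-!
# Tokunaga's problem: the linear run lemma

All points have different `x` coordinates. The heads `r`, `b` are left of all other points (in
either order), the tails `r'`, `b'` are right of all other points (in either order). Then there
are non-crossing Hamiltonian paths `r .. r'` of `R` and `b .. b'` of `B`, every edge crossed at most
twice. Moreover the edge leaving the head with the colour of the leftmost other point is crossed
at most once, and the edge arriving at the tail with the colour of the rightmost other point is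
crossed at most once.
-/

set_option autoImplicit false

namespace Pool.Agent.TK

/-- the first edge of the path `l` is crossed at most once by the path `k` -/
def FirstOne (l k : List Pt) : Prop := ∀ e, (pe l).head? = some e → cnt e (pe k) ≤ 1

/-- the last edge of the path `l` is crossed at most once by the path `k` -/
def LastOne (l k : List Pt) : Prop := ∀ e, (pe l).getLast? = some e → cnt e (pe k) ≤ 1

theorem Gl.swap {q p : Pt} {A B : Finset Pt} {lA lB : List Pt} (h : Gl q p A B lA lB) :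
    Gl p q B A lB lA :=
  ⟨h.ndB, h.tsB, h.ndA, h.tsA, h.ncB, h.ncA, h.cB, h.cA, h.laB, h.laA, h.tB, h.tA⟩

theorem first_one {q p s : Pt} {A B : Finset Pt} {lA lB : List Pt} (h : Gl q p A B lA lB)
    (hs : lA.head? = some s) (hsB : ∀ b ∈ B, s.1 < b.1) (hq : ∀ b ∈ B, q.1 < b.1) :
    FirstOne (q :: lA) (p :: lB) := by
  intro e he
  cases lA with
  | nil => simp at hs
  | cons a r =>
    have ha : a = s := by simpa using hs
    subst ha
    have he' : e = (q, a) := by simpa using he.symm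
    subst he'
    cases hl : lB with
    | nil => simp [cnt]
    | cons y r' =>
      rw [pe_cons_cons, lcnt_cons]
      have h0 : cnt (q, a) (pe (y :: r')) = 0 := by
        apply lcnt_zero
        intro f hf
        have := mem_of_mem_pe hf
        rw [← hl] at this
        have a1 := h.memB.1 this.1
        have a2 := h.memB.1 this.2
        exact not_cross_lt (hq _ a1) (hq _ a2) (hsB _ a1) (hsB _ a2)
      have := cnt_single_le (q, a) (p, y)
      omega

theorem last_pe {q u z : Pt} {l : List Pt} (h : (pe (q :: l)).getLast? = some (u, z)) :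
    l.getLast? = some z ∧ u ∈ q :: l := by
  refine ⟨?_, (mem_of_mem_pe (List.mem_of_getLast? h)).1⟩
  induction l generalizing q with
  | nil => simp at h
  | cons a l ih =>
    cases l with
    | nil =>
      simp at h
      simp [h.2]
    | cons b l =>
      rw [List.getLast?_cons_cons]
      apply ih (q := a)
      rw [pe_cons_cons, pe_cons_cons, List.getLast?_cons_cons, ← pe_cons_cons] at h
      exact h

theorem last_one {A B : Finset Pt} {q p : Pt} {lA lB : List Pt} (h : Gl q p A B lA lB)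
    (hqx : ∀ x ∈ A ∪ B, q.1 < x.1) (hpx : ∀ x ∈ A ∪ B, p.1 < x.1)
    (h1 : ¬ ∃ x ∈ lB.dropLast, ∀ x' ∈ lA.dropLast, x'.1 < x.1) :
    LastOne (q :: lA) (p :: lB) := by
  rintro ⟨u, z⟩ he
  obtain ⟨hz, hu⟩ := last_pe he
  rcases h.tA u z he with h2 | h2
  · exact absurd h2 h1
  · have hzA : z ∈ A := h.memA.1 (List.mem_of_getLast? hz)
    rcases List.eq_nil_or_concat lB with hl | ⟨dl, c, hl⟩
    · rw [hl]; simp [cnt]
    · rw [List.concat_eq_append] at hl
      have hdl : lB.dropLast = dl := by rw [hl]; simp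
      rcases List.eq_nil_or_concat dl with hd | ⟨dl', c', hd⟩
      · rw [hl, hd]
        simp only [List.nil_append, pe_cons_cons, pe_single]
        exact cnt_single_le _ _
      · rw [List.concat_eq_append] at hd
        have hc' : c' ∈ lB.dropLast := by rw [hdl, hd]; simp
        have hc'B : c' ∈ B := h.memB.1 (List.mem_of_mem_dropLast hc')
        have hqu : u ≠ q := by
          rintro rfl
          have := h2 c' hc'
          have := hqx c' (Finset.mem_union_right _ hc'B)
          linarith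
        have huA : u ∈ A := by
          rcases List.mem_cons.1 hu with h3 | h3
          · exact absurd h3 hqu
          · exact h.memA.1 h3
        have huz : u.1 ≤ z.1 := h.laA z hz u huA
        have hpe : pe (p :: lB) = pe (p :: dl) ++ pe (c' :: [c]) := by
          rw [hl, ← List.cons_append]
          apply pe_join
          rw [hd, ← List.cons_append, List.getLast?_append]
          rfl
        rw [hpe, lcnt_append]
        have h0 : cnt (u, z) (pe (p :: dl)) = 0 := by
          apply lcnt_zero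
          intro f hf hc
          have hm := mem_of_mem_pe hf
          have key : ∀ x ∈ p :: dl, x.1 < u.1 := by
            intro x hx
            rcases List.mem_cons.1 hx with rfl | hx
            · exact hpx u (Finset.mem_union_left _ huA)
            · exact h2 x (by rw [hdl]; exact hx)
          have k1 := key _ hm.1
          have k2 := key _ hm.2
          exact not_cross_lt k1 (k1.trans_le huz) k2 (k2.trans_le huz) hc.symm
        have h3 : cnt (u, z) (pe (c' :: [c])) ≤ 1 := by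
          simp only [pe_cons_cons, pe_single]
          exact cnt_single_le _ _
        omega

theorem mem_dropLast_ne {l : List Pt} {x t : Pt} (hnd : l.Nodup) (ht : l.getLast? = some t)
    (hx : x ∈ l.dropLast) : x ≠ t := by
  rcases List.eq_nil_or_concat l with hl | ⟨dl, c, hl⟩
  · rw [hl] at ht; simp at ht
  · rw [List.concat_eq_append] at hl
    rw [hl] at hnd ht hx
    simp at ht hx
    rw [List.nodup_append] at hnd
    intro hxt
    exact hnd.2.2 x hx c (by simp) (by rw [hxt, ht])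

theorem mem_dropLast_of_ne {l : List Pt} {x t : Pt} (ht : l.getLast? = some t) (hx : x ∈ l)
    (hne : x ≠ t) : x ∈ l.dropLast := by
  rcases List.eq_nil_or_concat l with hl | ⟨dl, c, hl⟩
  · rw [hl] at ht; simp at ht
  · rw [List.concat_eq_append] at hl
    rw [hl] at ht hx ⊢
    simp at ht hx ⊢
    rcases hx with h | h
    · exact h
    · exact absurd (h.trans ht) hne

theorem lo_of_right {A B : Finset Pt} (hne : ∀ x ∈ A, ∀ y ∈ B, x ≠ y) {r' b' : Pt}
    (hr' : r' ∈ A) (hb' : b' ∈ B)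
    (hright : ∀ x ∈ A ∪ B, x ≠ r' → x ≠ b' → x.1 < r'.1 ∧ x.1 < b'.1) : LO A B := by
  intro f hf hfm
  have hr'f := hfm r' (Finset.mem_union_left _ hr')
  have hf' : f = r' ∨ f = b' := by
    by_contra hc
    push Not at hc
    have := hright f hf hc.1 hc.2
    linarith [this.1]
  constructor
  · intro hfA a ha haf
    have hfr : f = r' := by
      rcases hf' with h | h
      · exact h
      · exact absurd h (hne f hfA b' hb')
    refine ⟨b', hb', ?_⟩
    exact (hright a (Finset.mem_union_left _ ha) (by rw [← hfr]; exact haf) (hne a ha b' hb')).2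
  · intro hfB c hc hcf
    have hfb : f = b' := by
      rcases hf' with h | h
      · exact absurd h.symm (hne r' hr' f hfB)
      · exact h
    refine ⟨r', hr', ?_⟩
    exact (hright c (Finset.mem_union_right _ hc) (hne r' hr' c hc).symm
      (by rw [← hfb]; exact hcf)).1

/-- from chains to paths -/
theorem finish {R B : Finset Pt} (hD : Disjoint R B) {r r' b b' : Pt}
    (hr : r ∈ R) (hr' : r' ∈ R) (hb : b ∈ B) (hb' : b' ∈ B) (hrr : r ≠ r') (hbb : b ≠ b')
    (hrx : ∀ x ∈ R.erase r ∪ B.erase b, r.1 < x.1) (hbx : ∀ x ∈ R.erase r ∪ B.erase b, b.1 < x.1)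
    (hright : ∀ x ∈ R ∪ B, x ≠ r' → x ≠ b' → x.1 < r'.1 ∧ x.1 < b'.1)
    {s : Pt} {lA lB : List Pt} (hs : ∀ x ∈ B.erase b, s.1 < x.1) (hh : lA.head? = some s)
    (hgl : Gl r b (R.erase r) (B.erase b) lA lB) :
    TwoPaths R B r r' b b' (r :: lA) (b :: lB) ∧ FirstOne (r :: lA) (b :: lB) ∧
      (∀ m ∈ R ∪ B, m ≠ r' → m ≠ b' → (∀ x ∈ R ∪ B, x ≠ r' → x ≠ b' → x.1 ≤ m.1) →
        (m ∈ R → LastOne (r :: lA) (b :: lB)) ∧ (m ∈ B → LastOne (b :: lB) (r :: lA))) := by
  classical
  have hne : ∀ x ∈ R, ∀ y ∈ B, x ≠ y := by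
    rintro x hxR y hyB rfl
    exact Finset.disjoint_left.1 hD hxR hyB
  have hA : R.erase r ⊆ R ∪ B := (Finset.erase_subset _ _).trans Finset.subset_union_left
  have hBs : B.erase b ⊆ R ∪ B := (Finset.erase_subset _ _).trans Finset.subset_union_right
  have hr'A : r' ∈ R.erase r := Finset.mem_erase.2 ⟨hrr.symm, hr'⟩
  have hb'B : b' ∈ B.erase b := Finset.mem_erase.2 ⟨hbb.symm, hb'⟩
  -- the tails
  have hlaA : lA.getLast? = some r' := by
    have h2 : ∃ z', lA.getLast? = some z' := by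
      cases lA with
      | nil => simp at hh
      | cons a l => exact ⟨_, List.getLast?_eq_getLast_of_ne_nil (by simp)⟩
    obtain ⟨z, hz⟩ := h2
    have hzA : z ∈ R.erase r := hgl.memA.1 (List.mem_of_getLast? hz)
    have := hgl.laA z hz r' hr'A
    have hzr : z = r' := by
      by_contra hc
      have := (hright z (hA hzA) hc (hne z (Finset.mem_erase.1 hzA).2 b' hb')).1
      linarith
    rw [hz, hzr]
  have hlB0 : lB ≠ [] := by
    rintro h0
    have := hgl.memB.2 hb'B
    rw [h0] at this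
    simp at this
  have hlaB : lB.getLast? = some b' := by
    have h2 : ∃ z', lB.getLast? = some z' := ⟨_, List.getLast?_eq_getLast_of_ne_nil hlB0⟩
    obtain ⟨z, hz⟩ := h2
    have hzA : z ∈ B.erase b := hgl.memB.1 (List.mem_of_getLast? hz)
    have := hgl.laB z hz b' hb'B
    have hzr : z = b' := by
      by_contra hc
      have := (hright z (hBs hzA) (hne r' hr' z (Finset.mem_erase.1 hzA).2).symm hc).2
      linarith
    rw [hz, hzr]
  have hP1 : HamPath R r r' (r :: lA) := by
    refine ⟨?_, ?_, rfl, ?_, hgl.ncA⟩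
    · rw [List.nodup_cons]
      refine ⟨?_, hgl.ndA⟩
      rw [hgl.memA]
      exact Finset.notMem_erase _ _
    · rw [List.toFinset_cons, hgl.tsA, Finset.insert_erase hr]
    · cases lA with
      | nil => simp at hh
      | cons a l => rw [List.getLast?_cons_cons]; exact hlaA
  have hP2 : HamPath B b b' (b :: lB) := by
    refine ⟨?_, ?_, rfl, ?_, hgl.ncB⟩
    · rw [List.nodup_cons]
      refine ⟨?_, hgl.ndB⟩
      rw [hgl.memB]
      exact Finset.notMem_erase _ _
    · rw [List.toFinset_cons, hgl.tsB, Finset.insert_erase hb]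
    · cases lB with
      | nil => exact absurd rfl hlB0
      | cons a l => rw [List.getLast?_cons_cons]; exact hlaB
  refine ⟨⟨hP1, hP2, hgl.cA, hgl.cB⟩, ?_, ?_⟩
  · exact first_one hgl hh hs (fun x hx' => hrx x (Finset.mem_union_right _ hx'))
  · intro m hm hmr hmb hmm
    constructor
    · intro hmR
      refine last_one hgl hrx hbx ?_
      rintro ⟨x, hxd, hxx⟩
      have hxB := Finset.mem_erase.1 (hgl.memB.1 (List.mem_of_mem_dropLast hxd))
      have hxb' := mem_dropLast_ne hgl.ndB hlaB hxd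
      have h1 := hmm x (Finset.mem_union_right _ hxB.2) ((hne r' hr' x hxB.2).symm) hxb'
      by_cases hmr0 : m = r
      · have := hrx x (Finset.mem_union_right _ (Finset.mem_erase.2 hxB))
        rw [hmr0] at h1
        linarith
      · have := hxx m (mem_dropLast_of_ne hlaA
          (hgl.memA.2 (Finset.mem_erase.2 ⟨hmr0, hmR⟩)) hmr)
        linarith
    · intro hmB
      refine last_one hgl.swap (by rw [Finset.union_comm]; exact hbx)
        (by rw [Finset.union_comm]; exact hrx) ?_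
      rintro ⟨x, hxd, hxx⟩
      have hxA := Finset.mem_erase.1 (hgl.memA.1 (List.mem_of_mem_dropLast hxd))
      have hxr' := mem_dropLast_ne hgl.ndA hlaA hxd
      have h1 := hmm x (Finset.mem_union_left _ hxA.2) hxr' (hne x hxA.2 b' hb')
      by_cases hmb0 : m = b
      · have := hbx x (Finset.mem_union_left _ (Finset.mem_erase.2 hxA))
        rw [hmb0] at h1
        linarith
      · have := hxx m (mem_dropLast_of_ne hlaB
          (hgl.memB.2 (Finset.mem_erase.2 ⟨hmb0, hmB⟩)) hmb)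
        linarith

/-- the linear run lemma when the leftmost middle point is red -/
theorem lrl_aux {R B : Finset Pt} (hG : GP (R ∪ B)) (hD : Disjoint R B)
    (hx : ∀ u ∈ R ∪ B, ∀ v ∈ R ∪ B, u ≠ v → u.1 ≠ v.1) {r r' b b' : Pt}
    (hr : r ∈ R) (hr' : r' ∈ R) (hb : b ∈ B) (hb' : b' ∈ B) (hrr : r ≠ r') (hbb : b ≠ b')
    (hleft : ∀ x ∈ R ∪ B, x ≠ r → x ≠ b → r.1 < x.1 ∧ b.1 < x.1)
    (hright : ∀ x ∈ R ∪ B, x ≠ r' → x ≠ b' → x.1 < r'.1 ∧ x.1 < b'.1)
    {m0 : Pt} (hm0 : m0 ∈ R) (hm0r : m0 ≠ r)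
    (hm0m : ∀ x ∈ R ∪ B, x ≠ r → x ≠ b → m0.1 ≤ x.1) :
    ∃ lR lB, TwoPaths R B r r' b b' lR lB ∧
      (∀ m ∈ R ∪ B, m ≠ r → m ≠ b → (∀ x ∈ R ∪ B, x ≠ r → x ≠ b → m.1 ≤ x.1) →
        (m ∈ R → FirstOne lR lB) ∧ (m ∈ B → FirstOne lB lR)) ∧
      (∀ m ∈ R ∪ B, m ≠ r' → m ≠ b' → (∀ x ∈ R ∪ B, x ≠ r' → x ≠ b' → x.1 ≤ m.1) →
        (m ∈ R → LastOne lR lB) ∧ (m ∈ B → LastOne lB lR)) := by
  classical
  have hne : ∀ x ∈ R, ∀ y ∈ B, x ≠ y := by
    rintro x hxR y hyB rfl
    exact Finset.disjoint_left.1 hD hxR hyB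
  have hA : R.erase r ⊆ R ∪ B := (Finset.erase_subset _ _).trans Finset.subset_union_left
  have hBs : B.erase b ⊆ R ∪ B := (Finset.erase_subset _ _).trans Finset.subset_union_right
  have hDD : Disjoint (R.erase r) (B.erase b) :=
    Finset.disjoint_of_subset_left (Finset.erase_subset _ _)
      (Finset.disjoint_of_subset_right (Finset.erase_subset _ _) hD)
  have hmid : ∀ x ∈ R.erase r ∪ B.erase b, x ∈ R ∪ B ∧ x ≠ r ∧ x ≠ b := by
    intro x hx
    rcases Finset.mem_union.1 hx with h | h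
    · have h' := Finset.mem_erase.1 h
      exact ⟨hA h, h'.1, hne x h'.2 b hb⟩
    · have h' := Finset.mem_erase.1 h
      exact ⟨hBs h, (hne r hr x h'.2).symm, h'.1⟩
  have hrx : ∀ x ∈ R.erase r ∪ B.erase b, r.1 < x.1 := fun x hx =>
    (hleft x (hmid x hx).1 (hmid x hx).2.1 (hmid x hx).2.2).1
  have hbx : ∀ x ∈ R.erase r ∪ B.erase b, b.1 < x.1 := fun x hx =>
    (hleft x (hmid x hx).1 (hmid x hx).2.1 (hmid x hx).2.2).2
  have hr'A : r' ∈ R.erase r := Finset.mem_erase.2 ⟨hrr.symm, hr'⟩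
  have hb'B : b' ∈ B.erase b := Finset.mem_erase.2 ⟨hbb.symm, hb'⟩
  have hV : (iv (R.erase r) (B.erase b)).Nonempty := by
    refine ⟨m0, mem_iv.2 ⟨Finset.mem_erase.2 ⟨hm0r, hm0⟩, ?_⟩⟩
    intro x hx'
    have h' := Finset.mem_erase.1 hx'
    refine lt_of_le_of_ne (hm0m x (Finset.mem_union_right _ h'.2) ((hne r hr x h'.2).symm) h'.1) ?_
    exact hx m0 (Finset.mem_union_left _ hm0) x (Finset.mem_union_right _ h'.2)
      (hne m0 hm0 x h'.2)
  have hLO : LO (R.erase r) (B.erase b) := lo_of_right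
    (fun x hx y hy => hne x (Finset.mem_erase.1 hx).2 y (Finset.mem_erase.1 hy).2) hr'A hb'B
    (fun x hx => hright x (hmid x hx).1)
  obtain ⟨s, lA, lB, hs, hh, hgl⟩ := chains hG hx hA hBs hDD ⟨b', hb'B⟩ hV hLO
    (Finset.mem_union_left _ hr) (Finset.mem_union_right _ hb) (hne r hr b hb) hrx hbx
  obtain ⟨h1, h2, h3⟩ := finish hD hr hr' hb hb' hrr hbb hrx hbx hright (mem_iv.1 hs).2 hh hgl
  refine ⟨r :: lA, b :: lB, h1, ?_, h3⟩
  intro m hm hmr hmb hmm
  constructor
  · intro _
    exact h2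
  · intro hmB
    exfalso
    have h1 := hmm m0 (Finset.mem_union_left _ hm0) hm0r (hne m0 hm0 b hb)
    have h2 := hm0m m hm hmr hmb
    exact hx m hm m0 (Finset.mem_union_left _ hm0) (hne m0 hm0 m hmB).symm
      (le_antisymm h1 h2)

/-- THE SLANTED HEAD: the first run after the head `r` is blue. For every sign `σ` there are an
entry `s` in the first run and two chains such that EVERY point `q` left of `r` on the correct side
of the line `r s` may be used as the blue head. -/
theorem lrl_slanted {R B : Finset Pt} (hG : GP (R ∪ B)) (hD : Disjoint R B)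
    (hx : ∀ u ∈ R ∪ B, ∀ v ∈ R ∪ B, u ≠ v → u.1 ≠ v.1) {r r' b' : Pt}
    (hr : r ∈ R) (hr' : r' ∈ R) (hb' : b' ∈ B) (hrr : r ≠ r')
    (hleft : ∀ x ∈ R ∪ B, x ≠ r → r.1 < x.1)
    (hright : ∀ x ∈ R ∪ B, x ≠ r' → x ≠ b' → x.1 < r'.1 ∧ x.1 < b'.1)
    {m0 : Pt} (hm0 : m0 ∈ B) (hm0m : ∀ x ∈ R ∪ B, x ≠ r → m0.1 ≤ x.1) {σ : ℝ} (hσ : σ ≠ 0) :
    ∃ s ∈ B, (∀ x ∈ R, x ≠ r → s.1 < x.1) ∧ ∃ lR lB : List Pt, lB.head? = some s ∧
      ∀ q : Pt, q.1 < r.1 → σ * dt q r s < 0 →
        TwoPaths R (insert q B) r r' q b' (r :: lR) (q :: lB) ∧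
        FirstOne (q :: lB) (r :: lR) ∧
        (∀ m ∈ R ∪ B, m ≠ r' → m ≠ b' → (∀ x ∈ R ∪ B, x ≠ r' → x ≠ b' → x.1 ≤ m.1) →
          (m ∈ R → LastOne (r :: lR) (q :: lB)) ∧ (m ∈ B → LastOne (q :: lB) (r :: lR))) := by
  classical
  have hne : ∀ x ∈ R, ∀ y ∈ B, x ≠ y := by
    rintro x hxR y hyB rfl
    exact Finset.disjoint_left.1 hD hxR hyB
  have hA : R.erase r ⊆ R ∪ B := (Finset.erase_subset _ _).trans Finset.subset_union_left
  have hBs : B ⊆ R ∪ B := Finset.subset_union_right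
  have hDD : Disjoint B (R.erase r) :=
    (Finset.disjoint_of_subset_left (Finset.erase_subset _ _) hD).symm
  have hr'A : r' ∈ R.erase r := Finset.mem_erase.2 ⟨hrr.symm, hr'⟩
  have hmid : ∀ x ∈ B ∪ R.erase r, x ∈ R ∪ B ∧ x ≠ r := by
    intro x hx
    rcases Finset.mem_union.1 hx with h | h
    · exact ⟨hBs h, (hne r hr x h).symm⟩
    · exact ⟨hA h, (Finset.mem_erase.1 h).1⟩
  have hrx : ∀ x ∈ B ∪ R.erase r, r.1 < x.1 := fun x hx => hleft x (hmid x hx).1 (hmid x hx).2
  have hV : (iv B (R.erase r)).Nonempty := by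
    refine ⟨m0, mem_iv.2 ⟨hm0, ?_⟩⟩
    intro x hx'
    have h' := Finset.mem_erase.1 hx'
    refine lt_of_le_of_ne (hm0m x (Finset.mem_union_left _ h'.2) h'.1) ?_
    exact hx m0 (Finset.mem_union_right _ hm0) x (Finset.mem_union_left _ h'.2)
      (hne x h'.2 m0 hm0).symm
  have hLO : LO B (R.erase r) := lo_of_right
    (fun x hx y hy => (hne y (Finset.mem_erase.1 hy).2 x hx).symm) hb' hr'A
    (fun x hx h1 h2 => (hright x (hmid x hx).1 h2 h1).symm)
  obtain ⟨s, lA, lB, hC⟩ := S_all hG hx _ B (R.erase r) hBs hA hDD rfl hV hLO r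
    (Finset.mem_union_left _ hr) hrx σ hσ
  have hs := mem_iv.1 hC.sV
  refine ⟨s, hs.1, fun x hx' hxr => hs.2 x (Finset.mem_erase.2 ⟨hxr, hx'⟩), lB, lA, hC.hd, ?_⟩
  intro q hqr hqs
  have hgl := hC.gd q hqr hqs
  have hqx : ∀ x ∈ B ∪ R.erase r, q.1 < x.1 := fun x hx' => hqr.trans (hrx x hx')
  have hqB : q ∉ B := fun h => lt_irrefl _ (hqx q (Finset.mem_union_left _ h))
  have hqR : q ∉ R := by
    intro h
    by_cases hqr' : q = r
    · rw [hqr'] at hqr; exact lt_irrefl _ hqr
    · exact lt_irrefl _ (hqx q (Finset.mem_union_right _ (Finset.mem_erase.2 ⟨hqr', h⟩)))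
  have hD' : Disjoint (insert q B) R := by
    rw [Finset.disjoint_insert_left]
    exact ⟨hqR, hD.symm⟩
  have hers : (insert q B).erase q = B := Finset.erase_insert hqB
  have hqb' : q ≠ b' := by rintro rfl; exact hqB hb'
  have hqr'' : q ≠ r' := by rintro rfl; exact hqR hr'
  have hq1 : q.1 < r'.1 := hqx r' (Finset.mem_union_right _ hr'A)
  have hq2 : q.1 < b'.1 := hqx b' (Finset.mem_union_left _ hb')
  obtain ⟨h1, h2, h3⟩ := finish (R := insert q B) (B := R) (r := q) (r' := b') (b := r) (b' := r')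
    hD' (Finset.mem_insert_self _ _) (Finset.mem_insert_of_mem hb') hr hr' hqb' hrr
    (by rw [hers]; exact hqx) (by rw [hers]; exact hrx)
    (by
      intro x hx' h1 h2
      rcases Finset.mem_union.1 hx' with h | h
      · rcases Finset.mem_insert.1 h with rfl | h
        · exact ⟨hq2, hq1⟩
        · exact (hright x (Finset.mem_union_right _ h) h2 h1).symm
      · exact (hright x (Finset.mem_union_left _ h) h2 h1).symm)
    hs.2 hC.hd (by rw [hers]; exact hgl)
  refine ⟨h1.swap, h2, ?_⟩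
  intro m hm hmr hmb hmm
  have hm' : m ∈ insert q B ∪ R := by
    rcases Finset.mem_union.1 hm with h | h
    · exact Finset.mem_union_right _ h
    · exact Finset.mem_union_left _ (Finset.mem_insert_of_mem h)
  have hrm : r.1 ≤ m.1 := hmm r (Finset.mem_union_left _ hr) hrr (hne r hr b' hb')
  have := h3 m hm' hmb hmr (by
    intro x hx' h1 h2
    rcases Finset.mem_union.1 hx' with h | h
    · rcases Finset.mem_insert.1 h with rfl | h
      · linarith
      · exact hmm x (Finset.mem_union_right _ h) h2 h1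
    · exact hmm x (Finset.mem_union_left _ h) h2 h1)
  refine ⟨this.2, ?_⟩
  intro hmB
  exact this.1 (Finset.mem_insert_of_mem hmB)

/-- THE LINEAR RUN LEMMA -/
theorem linear_run_lemma {R B : Finset Pt} (hG : GP (R ∪ B)) (hD : Disjoint R B)
    (hx : ∀ u ∈ R ∪ B, ∀ v ∈ R ∪ B, u ≠ v → u.1 ≠ v.1) {r r' b b' : Pt}
    (hr : r ∈ R) (hr' : r' ∈ R) (hb : b ∈ B) (hb' : b' ∈ B) (hrr : r ≠ r') (hbb : b ≠ b')
    (hleft : ∀ x ∈ R ∪ B, x ≠ r → x ≠ b → r.1 < x.1 ∧ b.1 < x.1)
    (hright : ∀ x ∈ R ∪ B, x ≠ r' → x ≠ b' → x.1 < r'.1 ∧ x.1 < b'.1) :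
    ∃ lR lB, TwoPaths R B r r' b b' lR lB ∧
      (∀ m ∈ R ∪ B, m ≠ r → m ≠ b → (∀ x ∈ R ∪ B, x ≠ r → x ≠ b → m.1 ≤ x.1) →
        (m ∈ R → FirstOne lR lB) ∧ (m ∈ B → FirstOne lB lR)) ∧
      (∀ m ∈ R ∪ B, m ≠ r' → m ≠ b' → (∀ x ∈ R ∪ B, x ≠ r' → x ≠ b' → x.1 ≤ m.1) →
        (m ∈ R → LastOne lR lB) ∧ (m ∈ B → LastOne lB lR)) := by
  classical
  have hne : ∀ x ∈ R, ∀ y ∈ B, x ≠ y := by
    rintro x hxR y hyB rfl
    exact Finset.disjoint_left.1 hD hxR hyB
  -- the leftmost middle point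
  have hMne : ((R ∪ B).filter (fun x => x ≠ r ∧ x ≠ b)).Nonempty :=
    ⟨r', Finset.mem_filter.2 ⟨Finset.mem_union_left _ hr', hrr.symm, hne r' hr' b hb⟩⟩
  obtain ⟨m0, hm0, hm0m⟩ := Finset.exists_min_image _ (fun x : Pt => x.1) hMne
  obtain ⟨hm0P, hm0r, hm0b⟩ := Finset.mem_filter.1 hm0
  have hmin : ∀ x ∈ R ∪ B, x ≠ r → x ≠ b → m0.1 ≤ x.1 := fun x hx' h1 h2 =>
    hm0m x (Finset.mem_filter.2 ⟨hx', h1, h2⟩)
  rcases Finset.mem_union.1 hm0P with h | h
  · exact lrl_aux hG hD hx hr hr' hb hb' hrr hbb hleft hright h hm0r hmin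
  · have hc : B ∪ R = R ∪ B := Finset.union_comm _ _
    obtain ⟨lB, lR, hT, hF, hL⟩ := lrl_aux (R := B) (B := R) (r := b) (r' := b') (b := r)
      (b' := r') (by rw [hc]; exact hG) hD.symm (by rw [hc]; exact hx) hb hb' hr hr' hbb hrr
      (by rw [hc]; exact fun x hx' h1 h2 => (hleft x hx' h2 h1).symm)
      (by rw [hc]; exact fun x hx' h1 h2 => (hright x hx' h2 h1).symm) h hm0b
      (by rw [hc]; exact fun x hx' h1 h2 => hmin x hx' h2 h1)
    rw [hc] at hF hL
    refine ⟨lR, lB, hT.swap, ?_, ?_⟩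
    · intro m hm hmr hmb hmm
      exact (hF m hm hmb hmr (fun x hx' h1 h2 => hmm x hx' h2 h1)).symm
    · intro m hm hmr hmb hmm
      exact (hL m hm hmb hmr (fun x hx' h1 h2 => hmm x hx' h2 h1)).symm

end Pool.Agent.TK
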