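import Pool.Agent.TK.TwoOpt

/-!
# Tokunaga's problem: the double pencil map

A set with two disjoint hull edges is mapped, preserving orientation, to a set sorted by `x`
coordinate with the end points of the first edge on the left and those of the second edge on the right.
-/

set_option autoImplicit false

namespace Pool.Agent.TK

/-- affine functional -/
def ev (A : ℝ × ℝ × ℝ) (p : Pt) : ℝ := A.1 * p.1 + A.2.1 * p.2 + A.2.2

/-- determinant of three affine functionals -/
def det3 (A B C : ℝ × ℝ × ℝ) : ℝ :=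
  A.1 * (B.2.1 * C.2.2 - B.2.2 * C.2.1) - A.2.1 * (B.1 * C.2.2 - B.2.2 * C.1)
    + A.2.2 * (B.1 * C.2.1 - B.2.1 * C.1)

/-- projective map -/
noncomputable def pm (A B C : ℝ × ℝ × ℝ) (p : Pt) : Pt := (ev A p / ev C p, ev B p / ev C p)

theorem dt_pm (A B C : ℝ × ℝ × ℝ) {p q r : Pt} (hp : ev C p ≠ 0) (hq : ev C q ≠ 0)
    (hr : ev C r ≠ 0) :
    dt (pm A B C p) (pm A B C q) (pm A B C r) =
      det3 A B C * dt p q r / (ev C p * ev C q * ev C r) := by
  have key : (ev A q * ev C p - ev A p * ev C q) * (ev B r * ev C p - ev B p * ev C r)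
      - (ev B q * ev C p - ev B p * ev C q) * (ev A r * ev C p - ev A p * ev C r)
      = det3 A B C * dt p q r * ev C p := by
    unfold ev det3 dt
    ring
  unfold dt pm
  simp only
  rw [div_sub_div _ _ hq hp, div_sub_div _ _ hr hp, div_sub_div _ _ hq hp, div_sub_div _ _ hr hp]
  rw [div_mul_div_comm, div_mul_div_comm, ← sub_div]
  rw [div_eq_div_iff (by positivity) (by positivity)]
  unfold dt at key
  have e1 : (ev A q * ev C p - ev C q * ev A p) * (ev B r * ev C p - ev C r * ev B p) -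
      (ev B q * ev C p - ev C q * ev B p) * (ev A r * ev C p - ev C r * ev A p)
      = det3 A B C * ((q.1 - p.1) * (r.2 - p.2) - (q.2 - p.2) * (r.1 - p.1)) * ev C p := by
    rw [← key]; ring
  rw [e1]
  ring

/-- the functional `dt u v` -/
def Lf (u v : Pt) : ℝ × ℝ × ℝ := (-(v.2 - u.2), v.1 - u.1, (v.2 - u.2) * u.1 - (v.1 - u.1) * u.2)

theorem ev_Lf (u v x : Pt) : ev (Lf u v) x = dt u v x := by unfold ev Lf dt; simp; ring

theorem ev_add (A B : ℝ × ℝ × ℝ) (x : Pt) : ev (A + B) x = ev A x + ev B x := by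
  unfold ev; simp; ring

theorem det3_Lf (a b c d : Pt) :
    det3 (Lf a b) (Lf b c) (Lf a b + Lf c d) = dt a b c * dt c d b := by
  unfold det3 Lf dt; simp; ring

/-- shear -/
def sh (ε : ℝ) (p : Pt) : Pt := (p.1 + ε * p.2, p.2)

theorem dt_sh (ε : ℝ) (p q r : Pt) : dt (sh ε p) (sh ε q) (sh ε r) = dt p q r := by
  unfold dt sh; ring

theorem exists_shear (P : Finset Pt) : ∃ ε : ℝ, 0 < ε ∧ ∀ p ∈ P, ∀ q ∈ P, p.1 < q.1 →
    (sh ε p).1 < (sh ε q).1 := by
  classical
  have key : ∀ T : Finset (Pt × Pt), ∃ e : ℝ, 0 < e ∧ ∀ e' : ℝ, 0 < e' → e' ≤ e →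
      ∀ z ∈ T, z.1.1 < z.2.1 → (sh e' z.1).1 < (sh e' z.2).1 := by
    intro T
    induction T using Finset.induction_on with
    | empty => exact ⟨1, one_pos, by simp⟩
    | insert x T _ ih =>
      obtain ⟨e, he, hE⟩ := ih
      by_cases hx : x.1.1 < x.2.1
      · set q : ℝ := |x.1.2 - x.2.2| with hq
        have hq0 : 0 ≤ q := abs_nonneg _
        refine ⟨min e ((x.2.1 - x.1.1) / (q + 1)), lt_min he (div_pos (by linarith) (by linarith)), ?_⟩
        intro e' h1 h2 z hz hz1
        rcases Finset.mem_insert.1 hz with rfl | hz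
        · have h3 : e' ≤ (z.2.1 - z.1.1) / (q + 1) := le_trans h2 (min_le_right _ _)
          have h4 : e' * (q + 1) ≤ z.2.1 - z.1.1 := by rwa [le_div_iff₀ (by linarith)] at h3
          have h5 : z.1.2 - z.2.2 ≤ q := le_abs_self _
          have h6 := mul_le_mul_of_nonneg_left h5 h1.le
          unfold sh
          simp only
          nlinarith
        · exact hE e' h1 (le_trans h2 (min_le_left _ _)) z hz hz1
      · refine ⟨e, he, ?_⟩
        intro e' h1 h2 z hz hz1
        rcases Finset.mem_insert.1 hz with rfl | hz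
        · exact absurd hz1 hx
        · exact hE e' h1 h2 z hz hz1
  obtain ⟨e, he, hE⟩ := key (P ×ˢ P)
  refine ⟨e, he, ?_⟩
  intro p hp q hq hpq
  exact hE e he le_rfl (p, q) (Finset.mk_mem_product hp hq) hpq

theorem sh_ne {ε : ℝ} (hε : 0 < ε) {P : Finset Pt}
    (h : ∀ p ∈ P, ∀ q ∈ P, p.1 < q.1 → (sh ε p).1 < (sh ε q).1) {p q : Pt} (hp : p ∈ P)
    (hq : q ∈ P) (hpq : p ≠ q) : (sh ε p).1 ≠ (sh ε q).1 := by
  rcases lt_trichotomy p.1 q.1 with h1 | h1 | h1
  · exact (h p hp q hq h1).ne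
  · intro e
    apply hpq
    unfold sh at e
    simp only at e
    have : ε * (p.2 - q.2) = 0 := by linarith
    rcases mul_eq_zero.1 this with h2 | h2
    · exact absurd h2 hε.ne'
    · exact Prod.ext h1 (by linarith)
  · exact (h q hq p hp h1).ne'

/-- injectivity is automatic for sets in general position with three points -/
theorem signIso_of_sg {f : Pt → Pt} {P : Finset Pt} (hG : GP P) (hc : 3 ≤ P.card)
    (h : ∀ p ∈ P, ∀ q ∈ P, ∀ r ∈ P, 0 < dt p q r ↔ 0 < dt (f p) (f q) (f r)) : SignIso f P := by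
  refine ⟨?_, h⟩
  intro p hp q hq hpq
  by_contra hne
  have hp' : p ∈ P := hp
  have hq' : q ∈ P := hq
  have : ∃ z ∈ P, z ≠ p ∧ z ≠ q := by
    by_contra hcon
    push Not at hcon
    have hsub : P ⊆ {p, q} := by
      intro z hz
      by_cases hzu : z = p
      · simp [hzu]
      · simp [hcon z hz hzu]
    have := Finset.card_le_card hsub
    have h2 : ({p, q} : Finset Pt).card ≤ 2 := Finset.card_le_two
    omega
  obtain ⟨z, hz, h1, h2⟩ := this
  have h0 := hG p hp' q hq' z hz hne h1.symm h2.symm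
  have e0 : dt (f p) (f q) (f z) = 0 := by rw [hpq]; simp
  rcases lt_or_gt_of_ne h0 with h3 | h3
  · have h4 := (h q hq' p hp' z hz).1 (by rw [dt_swap]; linarith)
    rw [dt_swap] at h4
    linarith
  · have h4 := (h p hp' q hq' z hz).1 h3
    linarith

/-- the DOUBLE PENCIL MAP -/
theorem double_pencil {P : Finset Pt} (hG : GP P) {u v c d : Pt} (h1 : HE P u v) (h2 : HE P c d)
    (huc : u ≠ c) (hud : u ≠ d) (hvc : v ≠ c) (hvd : v ≠ d) :
    ∃ f : Pt → Pt, SignIso f P ∧ (∀ x ∈ P, ∀ y ∈ P, x ≠ y → (f x).1 ≠ (f y).1) ∧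
      (∀ x ∈ P, x ≠ u → x ≠ v → (f u).1 < (f x).1 ∧ (f v).1 < (f x).1) ∧
      (∀ x ∈ P, x ≠ c → x ≠ d → (f x).1 < (f c).1 ∧ (f x).1 < (f d).1) := by
  classical
  have w1 : ∀ x ∈ P, 0 ≤ dt u v x := by
    intro x hx
    by_cases e1 : x = u
    · rw [e1]; simp
    by_cases e2 : x = v
    · rw [e2]; simp
    exact (h1.2.2.2 x hx e1 e2).le
  have w2 : ∀ x ∈ P, 0 ≤ dt c d x := by
    intro x hx
    by_cases e1 : x = c
    · rw [e1]; simp
    by_cases e2 : x = d
    · rw [e2]; simp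
    exact (h2.2.2.2 x hx e1 e2).le
  have uc : 0 < dt u v c := h1.2.2.2 c h2.1 huc.symm hvc.symm
  have ud : 0 < dt u v d := h1.2.2.2 d h2.2.1 hud.symm hvd.symm
  have cu : 0 < dt c d u := h2.2.2.2 u h1.1 huc hud
  have cv : 0 < dt c d v := h2.2.2.2 v h1.2.1 hvc hvd
  set A := Lf u v with hA
  set C := Lf u v + Lf c d with hC
  set Bf := Lf v c with hB
  have evC : ∀ x, ev C x = dt u v x + dt c d x := by
    intro x; rw [hC, ev_add, ev_Lf, ev_Lf]
  have posC : ∀ x ∈ P, 0 < ev C x := by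
    intro x hx
    rw [evC]
    by_cases e1 : x = u
    · rw [e1]; simp [cu]
    by_cases e2 : x = v
    · rw [e2]; simp [cv]
    have := h1.2.2.2 x hx e1 e2
    have := w2 x hx
    linarith
  have hdet : 0 < det3 A Bf C := by
    rw [hA, hB, hC, det3_Lf]
    exact mul_pos uc cv
  set g := pm A Bf C with hg
  have gx : ∀ x, (g x).1 = dt u v x / (dt u v x + dt c d x) := by
    intro x
    rw [hg]
    unfold pm
    simp only
    rw [evC, hA, ev_Lf]
  obtain ⟨ε, hε, hsh⟩ := exists_shear (P.image g)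
  have hcard : 3 ≤ P.card := by
    have hsub : ({u, v, c} : Finset Pt) ⊆ P := by
      intro x hx
      simp at hx
      rcases hx with rfl | rfl | rfl
      · exact h1.1
      · exact h1.2.1
      · exact h2.1
    have : ({u, v, c} : Finset Pt).card = 3 := by
      rw [Finset.card_insert_of_notMem, Finset.card_pair hvc]
      simp [h1.2.2.1, huc]
    rw [← this]
    exact Finset.card_le_card hsub
  have sgg : ∀ p ∈ P, ∀ q ∈ P, ∀ r ∈ P, 0 < dt p q r ↔ 0 < dt (g p) (g q) (g r) := by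
    intro p hp q hq r hr
    have hp' := posC p hp
    have hq' := posC q hq
    have hr' := posC r hr
    rw [hg, dt_pm A Bf C hp'.ne' hq'.ne' hr'.ne', div_pos_iff_of_pos_right (by positivity),
      mul_pos_iff_of_pos_left hdet]
  have hgiso := signIso_of_sg hG hcard sgg
  refine ⟨fun x => sh ε (g x), signIso_of_sg hG hcard ?_, ?_, ?_, ?_⟩
  · intro p hp q hq r hr
    rw [dt_sh]
    exact sgg p hp q hq r hr
  · intro x hx y hy hxy
    exact sh_ne hε hsh (Finset.mem_image_of_mem g hx) (Finset.mem_image_of_mem g hy)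
      (fun e => hxy (hgiso.inj hx hy e))
  · intro x hx hxu hxv
    have hpos : 0 < (g x).1 := by
      rw [gx]
      have := h1.2.2.2 x hx hxu hxv
      have := w2 x hx
      positivity
    constructor
    · apply hsh _ (Finset.mem_image_of_mem g h1.1) _ (Finset.mem_image_of_mem g hx)
      have : (g u).1 = 0 := by rw [gx]; simp
      rw [this]; exact hpos
    · apply hsh _ (Finset.mem_image_of_mem g h1.2.1) _ (Finset.mem_image_of_mem g hx)
      have : (g v).1 = 0 := by rw [gx]; simp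
      rw [this]; exact hpos
  · intro x hx hxc hxd
    have hlt : (g x).1 < 1 := by
      rw [gx]
      have := h2.2.2.2 x hx hxc hxd
      have := w1 x hx
      rw [div_lt_one (by linarith)]
      linarith
    constructor
    · apply hsh _ (Finset.mem_image_of_mem g hx) _ (Finset.mem_image_of_mem g h2.1)
      have : (g c).1 = 1 := by
        rw [gx]; simp only [dt_self_out, add_zero]; exact div_self uc.ne'
      rw [this]; exact hlt
    · apply hsh _ (Finset.mem_image_of_mem g hx) _ (Finset.mem_image_of_mem g h2.2.1)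
      have : (g d).1 = 1 := by
        rw [gx]; simp only [dt_self_right, add_zero]; exact div_self ud.ne'
      rw [this]; exact hlt

/-- statement of the LINEAR RUN LEMMA (without the penalty information) -/
def LRLStmt : Prop := ∀ (R B : Finset Pt) (r r' b b' : Pt), GP (R ∪ B) → Disjoint R B →
  r ∈ R → r' ∈ R → b ∈ B → b' ∈ B → r ≠ r' → b ≠ b' →
  (∀ x ∈ R ∪ B, ∀ y ∈ R ∪ B, x ≠ y → x.1 ≠ y.1) →
  (∀ x ∈ R ∪ B, x ≠ r → x ≠ b → r.1 < x.1 ∧ b.1 < x.1) →
  (∀ x ∈ R ∪ B, x ≠ r' → x ≠ b' → x.1 < r'.1 ∧ x.1 < b'.1) →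
  ∃ lR lB, TwoPaths R B r r' b b' lR lB

/-- bichromatic hull edge -/
def Front (P : Finset Pt) (r b : Pt) : Prop := HE P r b ∨ HE P b r

/-- S-THEOREM from the linear run lemma -/
theorem S_of_LRL (hL : LRLStmt) {R B : Finset Pt} {r r' b b' : Pt} (hG : GP (R ∪ B))
    (hd : Disjoint R B) (hr : r ∈ R) (hr' : r' ∈ R) (hb : b ∈ B) (hb' : b' ∈ B) (hrr : r ≠ r')
    (hbb : b ≠ b') (h1 : Front (R ∪ B) r b) (h2 : Front (R ∪ B) r' b') :
    ∃ lR lB, TwoPaths R B r r' b b' lR lB := by
  classical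
  have neq : ∀ x ∈ R, ∀ y ∈ B, x ≠ y := fun x hx y hy e =>
    (Finset.disjoint_left.1 hd hx) (e ▸ hy)
  have main : ∃ f : Pt → Pt, SignIso f (R ∪ B) ∧
      (∀ x ∈ R ∪ B, ∀ y ∈ R ∪ B, x ≠ y → (f x).1 ≠ (f y).1) ∧
      (∀ x ∈ R ∪ B, x ≠ r → x ≠ b → (f r).1 < (f x).1 ∧ (f b).1 < (f x).1) ∧
      (∀ x ∈ R ∪ B, x ≠ r' → x ≠ b' → (f x).1 < (f r').1 ∧ (f x).1 < (f b').1) := by
    rcases h1 with h1 | h1 <;> rcases h2 with h2 | h2
    · obtain ⟨f, e1, e2, e3, e4⟩ := double_pencil hG h1 h2 hrr (neq r hr b' hb')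
        (neq r' hr' b hb).symm hbb
      exact ⟨f, e1, e2, e3, e4⟩
    · obtain ⟨f, e1, e2, e3, e4⟩ := double_pencil hG h1 h2 (neq r hr b' hb') hrr hbb
        (neq r' hr' b hb).symm
      exact ⟨f, e1, e2, e3, fun x hx h h' => (e4 x hx h' h).symm⟩
    · obtain ⟨f, e1, e2, e3, e4⟩ := double_pencil hG h1 h2 (neq r' hr' b hb).symm hbb hrr
        (neq r hr b' hb')
      exact ⟨f, e1, e2, fun x hx h h' => (e3 x hx h' h).symm, e4⟩
    · obtain ⟨f, e1, e2, e3, e4⟩ := double_pencil hG h1 h2 hbb (neq r' hr' b hb).symm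
        (neq r hr b' hb') hrr
      exact ⟨f, e1, e2, fun x hx h h' => (e3 x hx h' h).symm, fun x hx h h' => (e4 x hx h' h).symm⟩
  obtain ⟨f, hf, fx, fl, fr⟩ := main
  have rP := Finset.mem_union_left B hr
  have rP' := Finset.mem_union_left B hr'
  have bP := Finset.mem_union_right R hb
  have bP' := Finset.mem_union_right R hb'
  apply TwoPaths.pull hf hr hr' hb hb'
  apply hL
  · rw [← Finset.image_union]; exact hf.gp hG
  · rw [Finset.disjoint_left]
    intro x hx hx'
    obtain ⟨y, hy, rfl⟩ := Finset.mem_image.1 hx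
    obtain ⟨z, hz, hzy⟩ := Finset.mem_image.1 hx'
    have := hf.inj (Finset.mem_coe.2 (Finset.mem_union_right R hz))
      (Finset.mem_coe.2 (Finset.mem_union_left B hy)) hzy
    exact neq y hy z hz this.symm
  · exact Finset.mem_image_of_mem f hr
  · exact Finset.mem_image_of_mem f hr'
  · exact Finset.mem_image_of_mem f hb
  · exact Finset.mem_image_of_mem f hb'
  · intro e; exact hrr (hf.inj rP rP' e)
  · intro e; exact hbb (hf.inj bP bP' e)
  · rw [← Finset.image_union]
    intro x hx y hy hxy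
    obtain ⟨x, hx', rfl⟩ := Finset.mem_image.1 hx
    obtain ⟨y, hy', rfl⟩ := Finset.mem_image.1 hy
    exact fx x hx' y hy' (fun e => hxy (by rw [e]))
  · rw [← Finset.image_union]
    intro x hx h1 h2
    obtain ⟨x, hx', rfl⟩ := Finset.mem_image.1 hx
    exact fl x hx' (fun e => h1 (by rw [e])) (fun e => h2 (by rw [e]))
  · rw [← Finset.image_union]
    intro x hx h1 h2
    obtain ⟨x, hx', rfl⟩ := Finset.mem_image.1 hx
    exact fr x hx' (fun e => h1 (by rw [e])) (fun e => h2 (by rw [e]))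

end Pool.Agent.TK
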