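import Pool.Agent.TK.Base

/-!
# Tokunaga's problem: reduction of S10357 to lists
-/

set_option autoImplicit false

namespace Pool.Agent.TK

open Classical in
/-- number of edges of the list `E` crossed by `e` -/
noncomputable def cnt (e : Pt × Pt) (E : List (Pt × Pt)) : ℕ := E.countP (fun f => decide (CrossE e f))

/-- edges of the path through the points of the list -/
def pe (l : List Pt) : List (Pt × Pt) := l.zip l.tail

/-- edges of the closed polygon through the points of the list -/
def ce (l : List Pt) : List (Pt × Pt) := l.zip (l.rotate 1)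

/-- the pair of polygons asked for -/
structure GoodCycles (R B : Finset Pt) (lR lB : List Pt) : Prop where
  nodR : lR.Nodup
  nodB : lB.Nodup
  toR : lR.toFinset = R
  toB : lB.toFinset = B
  ncR : (ce lR).Pairwise (fun e f => ¬ CrossE e f)
  ncB : (ce lB).Pairwise (fun e f => ¬ CrossE e f)
  cR : ∀ e ∈ ce lR, cnt e (ce lB) ≤ 2
  cB : ∀ f ∈ ce lB, cnt f (ce lR) ≤ 2

theorem ce_length (l : List Pt) : (ce l).length = l.length := by
  unfold ce; simp

theorem ce_getElem (l : List Pt) (i : ℕ) (h : i < (ce l).length) :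
    (ce l)[i] = (l[i]'(by rw [ce_length] at h; exact h),
      l[(i + 1) % l.length]'(Nat.mod_lt _ (by rw [ce_length] at h; omega))) := by
  have h1 : i < (l.zip (l.rotate 1)).length := h
  have h2 : (ce l)[i]'h = (l.zip (l.rotate 1))[i]'h1 := rfl
  refine h2.trans ?_
  rw [List.getElem_zip, List.getElem_rotate]

theorem finRotate_val (n : ℕ) (i : Fin n) : ((finRotate n i : Fin n) : ℕ) = (i + 1) % n := by
  cases n with
  | zero => exact i.elim0
  | succ m =>
    rw [finRotate_apply]
    rw [Fin.val_add_one]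
    split_ifs with h
    · rw [h]; simp
    · have : (i : ℕ) < m := by
        rcases lt_or_eq_of_le (Nat.lt_succ_iff.1 i.2) with h' | h'
        · exact h'
        · exact absurd (Fin.ext (by simpa using h')) h
      rw [Nat.mod_eq_of_lt (by omega)]

/-- the function attached to a list -/
noncomputable def fnOf (l : List Pt) (n : ℕ) (h : l.length = n) : Fin n → ℝ × ℝ :=
  fun i => l[(i : ℕ)]'(by rw [h]; exact i.2)

theorem edge_eq (l : List Pt) (n : ℕ) (h : l.length = n) (i : Fin n) :
    (fnOf l n h i, fnOf l n h (finRotate n i)) =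
      (ce l)[(i : ℕ)]'(by rw [ce_length, h]; exact i.2) := by
  rw [ce_getElem]
  unfold fnOf
  simp only [finRotate_val, h]

theorem fnOf_inj (l : List Pt) (n : ℕ) (h : l.length = n) (hn : l.Nodup) :
    Function.Injective (fnOf l n h) := by
  intro i j hij
  unfold fnOf at hij
  have := (List.Nodup.getElem_inj_iff hn).1 hij
  exact Fin.ext this

theorem fnOf_range (l : List Pt) (n : ℕ) (h : l.length = n) :
    Set.range (fnOf l n h) = {x | x ∈ l} := by
  ext x
  simp only [Set.mem_range, Set.mem_ofPred_eq, List.mem_iff_getElem]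
  constructor
  · rintro ⟨i, rfl⟩
    exact ⟨i, by rw [h]; exact i.2, rfl⟩
  · rintro ⟨i, hi, rfl⟩
    exact ⟨⟨i, by rw [← h]; exact hi⟩, rfl⟩

theorem rot_ne {n : ℕ} (hn : 2 ≤ n) (i : Fin n) : finRotate n i ≠ i := by
  intro h
  have := congrArg Fin.val h
  rw [finRotate_val] at this
  have hi := i.2
  rcases Nat.lt_or_ge ((i : ℕ) + 1) n with h' | h'
  · rw [Nat.mod_eq_of_lt h'] at this; omega
  · have h'' : (i : ℕ) + 1 = n := by omega
    rw [h'', Nat.mod_self] at this; omega

theorem rot_rot_ne {n : ℕ} (hn : 3 ≤ n) (i : Fin n) : finRotate n (finRotate n i) ≠ i := by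
  intro h
  have := congrArg Fin.val h
  rw [finRotate_val, finRotate_val] at this
  have hi := i.2
  rcases Nat.lt_or_ge ((i : ℕ) + 1) n with h' | h'
  · rw [Nat.mod_eq_of_lt h'] at this
    rcases Nat.lt_or_ge ((i : ℕ) + 1 + 1) n with h2 | h2
    · rw [Nat.mod_eq_of_lt h2] at this; omega
    · have h3 : (i : ℕ) + 1 + 1 = n := by omega
      rw [h3, Nat.mod_self] at this; omega
  · have h'' : (i : ℕ) + 1 = n := by omega
    rw [h'', Nat.mod_self, Nat.mod_eq_of_lt (by omega)] at this; omega

/-- same colour condition -/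
theorem same_colour {P : Finset Pt} (hP : GP P) (l : List Pt) (n : ℕ) (h : l.length = n)
    (hn : 3 ≤ n) (hnod : l.Nodup) (hl : ∀ x ∈ l, x ∈ P)
    (hc : (ce l).Pairwise (fun e f => ¬ CrossE e f)) (i j : Fin n) (hij : i ≠ j) :
    segment ℝ (fnOf l n h i) (fnOf l n h (finRotate n i)) ∩
      segment ℝ (fnOf l n h j) (fnOf l n h (finRotate n j))
      ⊆ ({fnOf l n h i, fnOf l n h (finRotate n i)} : Set (ℝ × ℝ)) ∩
        {fnOf l n h j, fnOf l n h (finRotate n j)} := by
  have hinj := fnOf_inj l n h hnod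
  have hm : ∀ i, fnOf l n h i ∈ P := fun i => hl _ (List.getElem_mem _)
  set f := fnOf l n h with hf
  set i' := finRotate n i with hi'
  set j' := finRotate n j with hj'
  have hij' : i' ≠ j' := fun e => hij ((finRotate n).injective e)
  have hii : i' ≠ i := rot_ne (by omega) i
  have hjj : j' ≠ j := rot_ne (by omega) j
  have hne : ∀ a b, a ≠ b → f a ≠ f b := fun a b hab e => hab (hinj e)
  by_cases h1 : i' = j
  · -- share the point f j
    have h2 : j' ≠ i := by
      intro h2
      apply rot_rot_ne hn i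
      rw [← hi', h1, ← hj', h2]
    rw [h1]
    intro x hx
    have hx' : x ∈ segment ℝ (f j) (f i) ∩ segment ℝ (f j) (f j') := by
      rw [segment_symm]; exact hx
    have := inter_share (hP _ (hm j) _ (hm i) _ (hm j') (hne _ _ hij.symm) (hne _ _ hjj.symm)
      (hne _ _ h2.symm)) hx'
    simp only [Set.mem_singleton_iff] at this
    subst this
    simp
  · by_cases h2 : j' = i
    · rw [h2]
      intro x hx
      have hx' : x ∈ segment ℝ (f i) (f i') ∩ segment ℝ (f i) (f j) := by
        rw [segment_symm ℝ (f i) (f j)]; exact hx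
      have := inter_share (hP _ (hm i) _ (hm i') _ (hm j) (hne _ _ hii.symm) (hne _ _ hij)
        (hne _ _ h1)) hx'
      simp only [Set.mem_singleton_iff] at this
      subst this
      simp
    · intro x hx
      exfalso
      have hcr : Cross (f i) (f i') (f j) (f j') := by
        apply cross_of_inter _ _ _ _ hx.1 hx.2
        · exact hP _ (hm _) _ (hm _) _ (hm _) (hne _ _ hii.symm) (hne _ _ hij) (hne _ _ h1)
        · exact hP _ (hm _) _ (hm _) _ (hm _) (hne _ _ hii.symm) (hne _ _ (Ne.symm h2)) (hne _ _ hij')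
        · exact hP _ (hm _) _ (hm _) _ (hm _) (hne _ _ hjj.symm) (hne _ _ hij.symm) (hne _ _ h2)
        · exact hP _ (hm _) _ (hm _) _ (hm _) (hne _ _ hjj.symm) (hne _ _ (Ne.symm h1)) (hne _ _ hij'.symm)
      have he1 := edge_eq l n h i
      have he2 := edge_eq l n h j
      have hcr' : CrossE ((ce l)[(i : ℕ)]'(by rw [ce_length, h]; exact i.2))
          ((ce l)[(j : ℕ)]'(by rw [ce_length, h]; exact j.2)) := by
        rw [← he1, ← he2]; exact hcr
      rw [List.pairwise_iff_getElem] at hc
      have hvij : (i : ℕ) ≠ j := fun e => hij (Fin.ext e)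
      rcases lt_or_gt_of_ne hvij with hlt | hgt
      · exact hc _ _ _ _ hlt hcr'
      · exact hc _ _ _ _ hgt (crossE_comm.1 hcr')

open Classical in
theorem card_filter_eq_countP {α : Type*} (l : List α) (n : ℕ) (h : l.length = n) (p : α → Prop) :
    (Finset.univ.filter (fun j : Fin n => p (l[(j : ℕ)]'(by rw [h]; exact j.2)))).card =
      l.countP (fun a => decide (p a)) := by
  subst h
  induction l with
  | nil => simp
  | cons a t ih =>
    rw [List.countP_cons, ← ih]
    have := Fin.card_filter_univ_succ (n := t.length)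
      (fun j : Fin (t.length + 1) => p ((a :: t)[(j : ℕ)]'(by
        have := j.2; simp only [List.length_cons]; exact this)))
    simp only [Fin.val_zero, List.getElem_cons_zero, Fin.val_succ,
      List.getElem_cons_succ] at this
    simp only [List.length_cons]
    rw [this]
    by_cases hp : p a
    · simp [hp, add_comm]
    · simp [hp]

/-- two colour condition -/
theorem two_colour {P : Finset Pt} (hP : GP P) (l k : List Pt) (n m : ℕ) (h : l.length = n)
    (h' : k.length = m) (hn : 3 ≤ n) (hm : 3 ≤ m) (hnod : l.Nodup) (hnod' : k.Nodup)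
    (hl : ∀ x ∈ l, x ∈ P) (hk : ∀ x ∈ k, x ∈ P) (hd : ∀ x ∈ l, x ∉ k)
    (hc : ∀ e ∈ ce l, cnt e (ce k) ≤ 2) (i : Fin n) :
    (segment ℝ (fnOf l n h i) (fnOf l n h (finRotate n i)) ∩
      ⋃ j : Fin m, segment ℝ (fnOf k m h' j) (fnOf k m h' (finRotate m j))).encard ≤ 2 := by
  classical
  have hinj := fnOf_inj l n h hnod
  have hinj' := fnOf_inj k m h' hnod'
  have hml : ∀ i, fnOf l n h i ∈ l := fun i => List.getElem_mem _
  have hmk : ∀ i, fnOf k m h' i ∈ k := fun i => List.getElem_mem _
  set f := fnOf l n h with hf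
  set g := fnOf k m h' with hg
  have hii : finRotate n i ≠ i := rot_ne (by omega) i
  have hjj : ∀ j, finRotate m j ≠ j := fun j => rot_ne (by omega) j
  have hfg : ∀ a b, f a ≠ g b := fun a b e => hd _ (hml a) (e ▸ hmk b)
  set J : Finset (Fin m) := Finset.univ.filter
    (fun j => Cross (f i) (f (finRotate n i)) (g j) (g (finRotate m j))) with hJ
  have hcov : segment ℝ (f i) (f (finRotate n i)) ∩
      (⋃ j : Fin m, segment ℝ (g j) (g (finRotate m j))) ⊆
      ⋃ j ∈ J, (segment ℝ (f i) (f (finRotate n i)) ∩ segment ℝ (g j) (g (finRotate m j))) := by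
    rintro x ⟨hx1, hx2⟩
    rw [Set.mem_iUnion] at hx2
    obtain ⟨j, hj⟩ := hx2
    rw [Set.mem_iUnion₂]
    refine ⟨j, ?_, hx1, hj⟩
    rw [hJ, Finset.mem_filter]
    refine ⟨Finset.mem_univ _, cross_of_inter ?_ ?_ ?_ ?_ hx1 hj⟩
    · exact hP _ (hl _ (hml _)) _ (hl _ (hml _)) _ (hk _ (hmk _)) (fun e => hii (hinj e).symm)
        (hfg _ _) (hfg _ _)
    · exact hP _ (hl _ (hml _)) _ (hl _ (hml _)) _ (hk _ (hmk _)) (fun e => hii (hinj e).symm)
        (hfg _ _) (hfg _ _)
    · exact hP _ (hk _ (hmk _)) _ (hk _ (hmk _)) _ (hl _ (hml _)) (fun e => hjj j (hinj' e).symm)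
        (hfg _ _).symm (hfg _ _).symm
    · exact hP _ (hk _ (hmk _)) _ (hk _ (hmk _)) _ (hl _ (hml _)) (fun e => hjj j (hinj' e).symm)
        (hfg _ _).symm (hfg _ _).symm
  have hJc : J.card ≤ 2 := by
    have hlt : (i : ℕ) < (ce l).length := by rw [ce_length, h]; exact i.2
    have h1 := hc ((ce l)[(i : ℕ)]'hlt) (List.getElem_mem _)
    rw [← edge_eq l n h i] at h1
    unfold cnt at h1
    rw [← card_filter_eq_countP (ce k) m (by rw [ce_length, h'])] at h1
    refine le_trans (le_of_eq ?_) h1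
    congr 1
    rw [hJ]
    apply Finset.filter_congr
    intro j _
    rw [← edge_eq k m h' j]
    exact Iff.rfl
  refine le_trans (Set.encard_le_encard hcov) ?_
  have key : ∀ K : Finset (Fin m), (∀ j ∈ K, Cross (f i) (f (finRotate n i)) (g j) (g (finRotate m j))) →
      (⋃ j ∈ K, (segment ℝ (f i) (f (finRotate n i)) ∩
        segment ℝ (g j) (g (finRotate m j)))).encard ≤ K.card := by
    intro K
    induction K using Finset.induction_on with
    | empty => simp
    | insert a K ha ih =>
      intro hK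
      rw [Finset.set_biUnion_insert, Finset.card_insert_of_notMem ha, Nat.cast_add, add_comm]
      refine le_trans (Set.encard_union_le _ _) ?_
      refine add_le_add ?_ (ih (fun j hj => hK j (Finset.mem_insert_of_mem hj)))
      have hcr := hK a (Finset.mem_insert_self _ _)
      rw [Nat.cast_one, Set.encard_le_one_iff_subsingleton]
      apply inter_subsingleton
      intro he
      have := hcr.2
      rw [he] at this
      nlinarith [mul_self_nonneg (dt (g a) (g (finRotate m a)) (f (finRotate n i)))]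
  refine le_trans (key J (fun j hj => (Finset.mem_filter.1 hj).2)) ?_
  exact_mod_cast hJc

/-- THE REDUCTION. -/
theorem reduction
    (H : ∀ R B : Finset Pt, Disjoint R B → 3 ≤ R.card → 3 ≤ B.card → GP (R ∪ B) →
      ∃ lR lB : List Pt, GoodCycles R B lR lB) :
    ∀ (R B : Finset (ℝ × ℝ)), Disjoint R B → 3 ≤ R.card → 3 ≤ B.card →
      (∀ p ∈ R ∪ B, ∀ q ∈ R ∪ B, ∀ r ∈ R ∪ B, p ≠ q → p ≠ r → q ≠ r →
        ¬ Collinear ℝ ({p, q, r} : Set (ℝ × ℝ))) →
      ∃ (f : Fin R.card → ℝ × ℝ) (g : Fin B.card → ℝ × ℝ),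
        Function.Injective f ∧ Set.range f = (R : Set (ℝ × ℝ)) ∧
        Function.Injective g ∧ Set.range g = (B : Set (ℝ × ℝ)) ∧
        (∀ i j : Fin R.card, i ≠ j →
          segment ℝ (f i) (f (finRotate R.card i)) ∩ segment ℝ (f j) (f (finRotate R.card j))
            ⊆ ({f i, f (finRotate R.card i)} : Set (ℝ × ℝ)) ∩ {f j, f (finRotate R.card j)}) ∧
        (∀ i j : Fin B.card, i ≠ j →
          segment ℝ (g i) (g (finRotate B.card i)) ∩ segment ℝ (g j) (g (finRotate B.card j))
            ⊆ ({g i, g (finRotate B.card i)} : Set (ℝ × ℝ)) ∩ {g j, g (finRotate B.card j)}) ∧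
        (∀ i : Fin R.card,
          (segment ℝ (f i) (f (finRotate R.card i)) ∩
            ⋃ j : Fin B.card, segment ℝ (g j) (g (finRotate B.card j))).encard ≤ 2) ∧
        (∀ j : Fin B.card,
          (segment ℝ (g j) (g (finRotate B.card j)) ∩
            ⋃ i : Fin R.card, segment ℝ (f i) (f (finRotate R.card i))).encard ≤ 2) := by
  intro R B hRB hR hB hcol
  have hP : GP (R ∪ B) := gp_of_frozen hcol
  obtain ⟨lR, lB, hG⟩ := H R B hRB hR hB hP
  have hlR : lR.length = R.card := by rw [← hG.toR, List.toFinset_card_of_nodup hG.nodR]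
  have hlB : lB.length = B.card := by rw [← hG.toB, List.toFinset_card_of_nodup hG.nodB]
  have hmR : ∀ x, x ∈ lR ↔ x ∈ R := fun x => by rw [← hG.toR, List.mem_toFinset]
  have hmB : ∀ x, x ∈ lB ↔ x ∈ B := fun x => by rw [← hG.toB, List.mem_toFinset]
  have hPR : ∀ x ∈ lR, x ∈ R ∪ B := fun x hx => Finset.mem_union_left _ ((hmR x).1 hx)
  have hPB : ∀ x ∈ lB, x ∈ R ∪ B := fun x hx => Finset.mem_union_right _ ((hmB x).1 hx)
  refine ⟨fnOf lR R.card hlR, fnOf lB B.card hlB, fnOf_inj _ _ _ hG.nodR, ?_,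
    fnOf_inj _ _ _ hG.nodB, ?_, ?_, ?_, ?_, ?_⟩
  · rw [fnOf_range]; ext x; simp [hmR]
  · rw [fnOf_range]; ext x; simp [hmB]
  · exact same_colour hP lR _ hlR hR hG.nodR hPR hG.ncR
  · exact same_colour hP lB _ hlB hB hG.nodB hPB hG.ncB
  · exact two_colour hP lR lB _ _ hlR hlB hR hB hG.nodR hG.nodB hPR hPB
      (fun x hx hx' => Finset.disjoint_left.1 hRB ((hmR x).1 hx) ((hmB x).1 hx')) hG.cR
  · exact two_colour hP lB lR _ _ hlB hlR hB hR hG.nodB hG.nodR hPB hPR
      (fun x hx hx' => Finset.disjoint_left.1 hRB ((hmR x).1 hx') ((hmB x).1 hx)) hG.cB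

end Pool.Agent.TK
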