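import Pool.Agent.TK.C1
import Pool.Agent.TK.Reduce
import Pool.Agent.TK.LRL
import Pool.Agent.TK.Pencil

/-!
# Tokunaga's problem: the main theorem from the interface statements
-/

set_option autoImplicit false

namespace Pool.Agent.TK

theorem sStmt : SStmt := by
  intro R B r r' b b' hG hd hr hr' hb hb' hrr hbb h1 h2
  refine S_of_LRL ?_ hG hd hr hr' hb hb' hrr hbb h1 h2
  intro R B r r' b b' hG hd hr hr' hb hb' hrr hbb hx hl hr
  obtain ⟨lR, lB, h, _⟩ := linear_run_lemma hG hd hx ‹_› ‹_› hb hb' hrr hbb hl hr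
  exact ⟨lR, lB, h⟩

/-- window of a single blue hull vertex between two red ones -/
theorem one_win {R B : Finset Pt} {x p q : Pt} (hG : GP (R ∪ B)) (hdj : Disjoint R B)
    (hx : x ∈ B) (hp : p ∈ R) (hq : q ∈ R) (hpq : p ≠ q)
    (h1 : HE (R ∪ B) p x) (h2 : HE (R ∪ B) x q) : Win R B {x} p q := by
  classical
  have hxR : x ∉ R := fun h => Finset.disjoint_left.1 hdj h hx
  have red : ∀ z ∈ R, ∀ w ∈ B, z ≠ w := fun z hz w hw e => Finset.disjoint_left.1 hdj hz (e ▸ hw)
  have px := red p hp x hx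
  have qx := red q hq x hx
  have hS : R ∪ (B \ {x}) = (R ∪ B).erase x := by
    rw [← Finset.erase_eq, mem_erase_union hxR]
  have dx : dt p q x < 0 := by
    have := h1.2.2.2 q h2.2.1 hpq.symm qx
    rw [dt_swap'] at this; linarith
  have key : ∀ z ∈ B, z ≠ x → HV (R ∪ B) z → ¬ dt p q z < 0 := by
    intro z hz hzx hv hs
    have hzP := hv.1
    have zp := (red p hp z hz).symm
    have zq := (red q hq z hz).symm
    refine hv.not_in_triangle h1.1 h1.2.1 h2.2.1 (h1.2.2.2 z hzP zp hzx)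
      (h2.2.2.2 z hzP hzx zq) ?_
    rw [dt_swap]; linarith
  refine ⟨hG, hdj, by simpa using hx, ⟨x, by simp⟩, h1.hv_left, h2.hv_right, hp, hq, hpq, ?_, ?_⟩
  · intro d hd
    rw [Finset.mem_singleton.1 hd]; exact dx
  · intro g g' hg hbl d hd
    rw [Finset.mem_singleton.1 hd]
    rw [hS] at hg
    have hg1 := Finset.mem_erase.1 hg.1
    have hg2 := Finset.mem_erase.1 hg.2.1
    rcases lt_or_gt_of_ne (hG g hg1.2 g' hg2.2 x h1.2.1 hg.ne hg1.1 hg2.1) with h | h
    · exact h
    exfalso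
    have hh : HE (R ∪ B) g g' := by
      refine ⟨hg1.2, hg2.2, hg.ne, ?_⟩
      intro z hz c1 c2
      by_cases a1 : z = x
      · rw [a1]; exact h
      · exact hg.2.2.2 z (Finset.mem_erase.2 ⟨a1, hz⟩) c1 c2
    rcases hbl with ⟨hgB, hgs⟩ | ⟨hgB, hgs⟩
    · exact key g hgB hg1.1 hh.hv_left hgs
    · exact key g' hgB hg2.1 hh.hv_right hgs

/-- a blue hull edge -/
theorem main_blue_edge (hS : SStmt) (hL : GDPLStmt) (hBF : BFStmt) (hHP : HPStmt)
    {R B : Finset Pt} {x y : Pt} (hG : GP (R ∪ B)) (hdj : Disjoint R B) (hR : R.Nonempty)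
    (hx : x ∈ B) (hy : y ∈ B) (hxy : HE (R ∪ B) x y) : ∃ lR lB, GoodCycles R B lR lB := by
  classical
  obtain ⟨E, l, hE, hl, hEl⟩ := c1 hS hL hBF hHP B.card R B x y rfl hG hdj hR hx hy hxy
  have hk : HamPath ({y, x} : Finset Pt) y x [y, x] := HamPath.pair hxy.ne.symm
  have hcyc := cyc_two hl hk hxy.ne (by
    intro z hz
    have := (Finset.mem_inter.1 hz).2
    simp only [Finset.mem_insert, Finset.mem_singleton] at this ⊢
    tauto)
  have hu : B ∪ {y, x} = B := by
    apply Finset.union_eq_left.2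
    intro z hz
    simp only [Finset.mem_insert, Finset.mem_singleton] at hz
    rcases hz with rfl | rfl
    · exact hy
    · exact hx
  rw [hu] at hcyc
  refine good_of_conf hE hcyc ?_
  apply hEl.add hk.nc
  · intro e he f hf hcr
    simp only [pe_cons_cons, pe_single, List.mem_singleton] at hf
    subst hf
    have := hl.inside e he
    exact hxy.not_cross' (Finset.mem_union_right _ this.1) (Finset.mem_union_right _ this.2)
      (crossE_comm.1 hcr)
  · intro e he f hf hcr
    simp only [pe_cons_cons, pe_single, List.mem_singleton] at hf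
    subst hf
    have := hE.inside e he
    exact hxy.not_cross' (Finset.mem_union_left _ this.1) (Finset.mem_union_left _ this.2)
      (crossE_comm.1 hcr)

theorem GoodCycles.swap {R B : Finset Pt} {lR lB : List Pt} (h : GoodCycles R B lR lB) :
    GoodCycles B R lB lR :=
  ⟨h.nodB, h.nodR, h.toB, h.toR, h.ncB, h.ncR, h.cB, h.cR⟩

/-- THE MAIN THEOREM -/
theorem main_of (hS : SStmt) (hL : GDPLStmt) (hBF : BFStmt) (hHP : HPStmt) :
    ∀ R B : Finset Pt, Disjoint R B → 3 ≤ R.card → 3 ≤ B.card → GP (R ∪ B) →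
      ∃ lR lB : List Pt, GoodCycles R B lR lB := by
  classical
  intro R B hdj hR3 hB3 hG
  have hRne : R.Nonempty := Finset.card_pos.1 (by omega)
  have hBne : B.Nonempty := Finset.card_pos.1 (by omega)
  have hcard : 3 ≤ (R ∪ B).card := le_trans hR3 (Finset.card_le_card Finset.subset_union_left)
  have red : ∀ z ∈ R, ∀ w ∈ B, z ≠ w := fun z hz w hw e => Finset.disjoint_left.1 hdj hz (e ▸ hw)
  by_cases hbb : ∃ x ∈ B, ∃ y ∈ B, HE (R ∪ B) x y
  · obtain ⟨x, hx, y, hy, hxy⟩ := hbb
    exact main_blue_edge hS hL hBF hHP hG hdj hRne hx hy hxy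
  by_cases hrr : ∃ x ∈ R, ∃ y ∈ R, HE (R ∪ B) x y
  · obtain ⟨x, hx, y, hy, hxy⟩ := hrr
    have hc : B ∪ R = R ∪ B := Finset.union_comm _ _
    obtain ⟨lB, lR, h⟩ := main_blue_edge hS hL hBF hHP (R := B) (B := R) (by rw [hc]; exact hG)
      hdj.symm hBne hx hy (by rw [hc]; exact hxy)
    exact ⟨lR, lB, h.swap⟩
  push Not at hbb hrr
  -- alternating hull
  have hx : ∃ x ∈ B, HV (R ∪ B) x := by
    obtain ⟨u, hu⟩ := exists_hv (P := R ∪ B) (hRne.mono Finset.subset_union_left)
    rcases Finset.mem_union.1 hu.1 with h | h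
    · obtain ⟨v, hv⟩ := hu.next hG (by omega)
      rcases Finset.mem_union.1 hv.2.1 with h' | h'
      · exact absurd hv (hrr u h v h')
      · exact ⟨v, h', hv.hv_right⟩
    · exact ⟨u, h, hu⟩
  obtain ⟨x, hxB, hxv⟩ := hx
  obtain ⟨p, hp⟩ := hxv.prev hG (by omega)
  obtain ⟨q, hq⟩ := hxv.next hG (by omega)
  have hpR : p ∈ R := by
    rcases Finset.mem_union.1 hp.1 with h | h
    · exact h
    · exact absurd hp (hbb p h x hxB)
  have hqR : q ∈ R := by
    rcases Finset.mem_union.1 hq.2.1 with h | h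
    · exact h
    · exact absurd hq (hbb x hxB q h)
  have hpq : p ≠ q := by
    intro e; rw [e] at hp; exact hp.not_symm hcard hq
  obtain ⟨β, hβ⟩ := hq.hv_right.next hG (by omega)
  have hβB : β ∈ B := by
    rcases Finset.mem_union.1 hβ.2.1 with h | h
    · exact absurd hβ (hrr q hqR β h)
    · exact h
  have hβx : β ≠ x := by
    intro e; rw [e] at hβ; exact hβ.not_symm hcard hq
  have hβv := hβ.hv_right
  have hβs : ¬ dt p q β < 0 := by
    intro hs
    refine hβv.not_in_triangle hp.1 hp.2.1 hq.2.1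
      (hp.2.2.2 β hβv.1 (red p hpR β hβB).symm hβx)
      (hq.2.2.2 β hβv.1 hβx (red q hqR β hβB).symm) ?_
    rw [dt_swap]; linarith
  have hW := one_win hG hdj hxB hpR hqR hpq hp hq
  have hres := win_all hS hL hBF hW hβB hβv hβs (by
      intro B' hB' x' y' hx' hy' hxy'
      exact c1 hS hL hBF hHP B'.card R B' x' y' rfl
        (hG.mono (Finset.union_subset_union (Finset.Subset.refl _) hB'.1))
        (Finset.disjoint_of_subset_right hB'.1 hdj) hRne hx' hy' hxy')
    (Q := fun _ => True) (fun _ _ _ => trivial)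
    (by
      intro W s t _ hWB hs ht hst _
      obtain ⟨k, hk⟩ := HV.path (hG.mono (hWB.trans Finset.subset_union_right)) hs ht hst
      exact ⟨k, hk, trivial⟩)
    (by
      intro fin
      obtain ⟨E, F, h1, h2, h3⟩ := copy_final hL hG hdj hp hq hxB hpR hqR hpq fin hβB hβx hβv
      exact ⟨E, F, h1, h2, h3, trivial⟩)
  obtain ⟨E, F, hE, hF, hEF, _⟩ := hres
  exact good_of_conf hE hF hEF

end Pool.Agent.TK
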