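import Mathlib

/-!
# Tokunaga's problem (MP_9af0e8_co, S10357): base layer

Orientation determinant, proper crossings, general position, and the reduction of the frozen
statement to a statement about lists of points.
-/

set_option autoImplicit false

namespace Pool.Agent.TK

/-- points of the plane -/
abbrev Pt := ℝ × ℝ

/-- twice the signed area of the triangle `p q r` -/
def dt (p q r : Pt) : ℝ := (q.1 - p.1) * (r.2 - p.2) - (q.2 - p.2) * (r.1 - p.1)

theorem dt_rot (p q r : Pt) : dt q r p = dt p q r := by unfold dt; ring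
theorem dt_rot' (p q r : Pt) : dt r p q = dt p q r := by unfold dt; ring
theorem dt_swap (p q r : Pt) : dt q p r = - dt p q r := by unfold dt; ring
theorem dt_swap' (p q r : Pt) : dt p r q = - dt p q r := by unfold dt; ring
theorem dt_swap'' (p q r : Pt) : dt r q p = - dt p q r := by unfold dt; ring
@[simp] theorem dt_self_left (p r : Pt) : dt p p r = 0 := by unfold dt; ring
@[simp] theorem dt_self_right (p q : Pt) : dt p q q = 0 := by unfold dt; ring
@[simp] theorem dt_self_out (p q : Pt) : dt p q p = 0 := by unfold dt; ring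

/-- the four point identity -/
theorem dt_four (p q r s : Pt) : dt p q r - dt p q s + dt p r s - dt q r s = 0 := by
  unfold dt; ring

/-- proper crossing of the segments `p q` and `r s` -/
def Cross (p q r s : Pt) : Prop := dt p q r * dt p q s < 0 ∧ dt r s p * dt r s q < 0

theorem Cross.symm {p q r s : Pt} (h : Cross p q r s) : Cross r s p q := ⟨h.2, h.1⟩
theorem cross_comm {p q r s : Pt} : Cross p q r s ↔ Cross r s p q := ⟨Cross.symm, Cross.symm⟩
theorem cross_swap_left {p q r s : Pt} : Cross p q r s ↔ Cross q p r s := by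
  unfold Cross
  rw [dt_swap p q r, dt_swap p q s, mul_comm (dt r s q)]
  simp
theorem cross_swap_right {p q r s : Pt} : Cross p q r s ↔ Cross p q s r := by
  rw [cross_comm, cross_swap_left, cross_comm]

theorem Cross.ne {p q r s : Pt} (h : Cross p q r s) :
    p ≠ q ∧ p ≠ r ∧ p ≠ s ∧ q ≠ r ∧ q ≠ s ∧ r ≠ s := by
  obtain ⟨h1, h2⟩ := h
  refine ⟨?_, ?_, ?_, ?_, ?_, ?_⟩ <;> rintro rfl <;> simp at h1 h2

/-- crossing of two edges -/
def CrossE (e f : Pt × Pt) : Prop := Cross e.1 e.2 f.1 f.2

theorem crossE_comm {e f : Pt × Pt} : CrossE e f ↔ CrossE f e := cross_comm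

/-- general position -/
def GP (P : Finset Pt) : Prop :=
  ∀ p ∈ P, ∀ q ∈ P, ∀ r ∈ P, p ≠ q → p ≠ r → q ≠ r → dt p q r ≠ 0

theorem GP.mono {P Q : Finset Pt} (h : GP P) (hQ : Q ⊆ P) : GP Q :=
  fun p hp q hq r hr => h p (hQ hp) q (hQ hq) r (hQ hr)

theorem collinear_of_dt {p q r : Pt} (hpq : p ≠ q) (h : dt p q r = 0) :
    Collinear ℝ ({p, q, r} : Set Pt) := by
  rw [collinear_iff_of_mem (p₀ := p) (by simp)]
  refine ⟨q - p, ?_⟩
  unfold dt at h
  intro x hx
  simp only [Set.mem_insert_iff, Set.mem_singleton_iff] at hx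
  rcases hx with rfl | rfl | rfl
  · exact ⟨0, by simp⟩
  · exact ⟨1, by simp⟩
  · by_cases h1 : q.1 - p.1 = 0
    · have h2 : q.2 - p.2 ≠ 0 := by
        intro h2
        apply hpq
        ext <;> linarith
      refine ⟨(x.2 - p.2) / (q.2 - p.2), ?_⟩
      have h3 : x.1 - p.1 = 0 := by
        rw [h1] at h
        have : (q.2 - p.2) * (x.1 - p.1) = 0 := by linarith
        rcases mul_eq_zero.1 this with h' | h'
        · exact absurd h' h2
        · exact h'
      ext
      · simp [vadd_eq_add, h1]; linarith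
      · simp [vadd_eq_add]; field_simp; ring
    · refine ⟨(x.1 - p.1) / (q.1 - p.1), ?_⟩
      ext
      · simp [vadd_eq_add]; field_simp; ring
      · simp only [vadd_eq_add, Prod.snd_add, Prod.smul_snd, Prod.snd_sub, smul_eq_mul]
        have h5 : (x.1 - p.1) / (q.1 - p.1) * (q.2 - p.2) = x.2 - p.2 := by
          rw [div_mul_eq_mul_div, div_eq_iff h1]; linarith
        rw [h5]; ring

/-- the hypothesis of the frozen statement gives general position -/
theorem gp_of_frozen {P : Finset Pt}
    (h : ∀ p ∈ P, ∀ q ∈ P, ∀ r ∈ P, p ≠ q → p ≠ r → q ≠ r →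
      ¬ Collinear ℝ ({p, q, r} : Set Pt)) : GP P := by
  intro p hp q hq r hr h1 h2 h3 h0
  exact h p hp q hq r hr h1 h2 h3 (collinear_of_dt h1 h0)

theorem dt_combo (p q r s : Pt) (a b : ℝ) (hab : a + b = 1) :
    dt p q (a • r + b • s) = a * dt p q r + b * dt p q s := by
  have : b = 1 - a := by linarith
  subst this
  unfold dt
  simp
  ring

theorem mem_seg {p q x : Pt} (h : x ∈ segment ℝ p q) :
    ∃ a b : ℝ, 0 ≤ a ∧ 0 ≤ b ∧ a + b = 1 ∧ x = a • p + b • q := by
  obtain ⟨a, b, ha, hb, hab, rfl⟩ := h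
  exact ⟨a, b, ha, hb, hab, rfl⟩

/-- a common point of the segments of four points in general position: they cross properly -/
theorem cross_of_inter {p q r s x : Pt} (h1 : dt p q r ≠ 0) (h2 : dt p q s ≠ 0)
    (h3 : dt r s p ≠ 0) (h4 : dt r s q ≠ 0) (hx : x ∈ segment ℝ p q) (hy : x ∈ segment ℝ r s) :
    Cross p q r s := by
  obtain ⟨a, b, ha, hb, hab, rfl⟩ := mem_seg hx
  obtain ⟨c, d, hc, hd, hcd, hE⟩ := mem_seg hy
  have e1 : c * dt p q r + d * dt p q s = 0 := by
    rw [← dt_combo p q r s c d hcd, ← hE, dt_combo p q p q a b hab]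
    simp
  have e2 : a * dt r s p + b * dt r s q = 0 := by
    rw [← dt_combo r s p q a b hab, hE, dt_combo r s r s c d hcd]
    simp
  constructor
  · rcases lt_trichotomy (dt p q r * dt p q s) 0 with h | h | h
    · exact h
    · rcases mul_eq_zero.1 h with h | h
      · exact absurd h h1
      · exact absurd h h2
    · exfalso
      rcases pos_and_pos_or_neg_and_neg_of_mul_pos h with ⟨u, v⟩ | ⟨u, v⟩
      · nlinarith [mul_nonneg hc u.le, mul_nonneg hd v.le]
      · nlinarith [mul_nonneg hc (neg_nonneg.2 u.le), mul_nonneg hd (neg_nonneg.2 v.le)]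
  · rcases lt_trichotomy (dt r s p * dt r s q) 0 with h | h | h
    · exact h
    · rcases mul_eq_zero.1 h with h | h
      · exact absurd h h3
      · exact absurd h h4
    · exfalso
      rcases pos_and_pos_or_neg_and_neg_of_mul_pos h with ⟨u, v⟩ | ⟨u, v⟩
      · nlinarith [mul_nonneg ha u.le, mul_nonneg hb v.le]
      · nlinarith [mul_nonneg ha (neg_nonneg.2 u.le), mul_nonneg hb (neg_nonneg.2 v.le)]

/-- crossing segments have at most one common point (only `dt r s p ≠ dt r s q` is used) -/
theorem inter_subsingleton {p q r s : Pt} (h : dt r s p ≠ dt r s q) :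
    (segment ℝ p q ∩ segment ℝ r s).Subsingleton := by
  rintro x ⟨hx1, hx2⟩ y ⟨hy1, hy2⟩
  obtain ⟨a, b, ha, hb, hab, rfl⟩ := mem_seg hx1
  obtain ⟨a', b', ha', hb', hab', rfl⟩ := mem_seg hy1
  obtain ⟨c, d, hc, hd, hcd, hE⟩ := mem_seg hx2
  obtain ⟨c', d', hc', hd', hcd', hE'⟩ := mem_seg hy2
  have e1 : a * dt r s p + b * dt r s q = 0 := by
    rw [← dt_combo r s p q a b hab, hE, dt_combo r s r s c d hcd]; simp
  have e2 : a' * dt r s p + b' * dt r s q = 0 := by
    rw [← dt_combo r s p q a' b' hab', hE', dt_combo r s r s c' d' hcd']; simp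
  have hb1 : b = 1 - a := by linarith
  have hb2 : b' = 1 - a' := by linarith
  subst hb1 hb2
  have e3 : (a - a') * (dt r s p - dt r s q) = 0 := by linarith
  rcases mul_eq_zero.1 e3 with h' | h'
  · have : a = a' := by linarith
    subst this; rfl
  · exact absurd (by linarith) h

/-- two segments with a common end point and the other end points not collinear with it -/
theorem inter_share {p q s : Pt} (h : dt p q s ≠ 0) :
    segment ℝ p q ∩ segment ℝ p s ⊆ {p} := by
  have hs : (segment ℝ p q ∩ segment ℝ p s).Subsingleton := by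
    apply inter_subsingleton
    rw [dt_self_out]
    intro h0
    apply h
    rw [dt_swap', ← h0]; simp
  intro x hx
  exact hs hx ⟨left_mem_segment ℝ p q, left_mem_segment ℝ p s⟩

end Pool.Agent.TK
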