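import Pool.Agent.TK.WinInd

/-!
# Tokunaga's problem: every monochromatic hull edge can be prescribed
-/

set_option autoImplicit false

namespace Pool.Agent.TK

/-- the edges of the hull list starting at `y` -/
theorem hull_from {S : Finset Pt} (hG : GP S) {y : Pt} (hy : HV S y) (hc : 2 ≤ S.card) :
    ∃ l : List Pt, (y :: l).Nodup ∧ (∀ x, x ∈ y :: l ↔ HV S x) ∧ l.Pairwise (Bef y) ∧
      (∀ e ∈ pe (y :: (l ++ [y])), HE S e.1 e.2) := by
  obtain ⟨l, h1, h2, h3, h4⟩ := hull_list hG hc hy
  refine ⟨l, h1, h2, h3, ?_⟩
  rw [ce_cons] at h4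
  exact h4

/-- reduction at `x` -/
theorem redX (hS : SStmt) {R B : Finset Pt} {x y g g' : Pt} (hG : GP (R ∪ B)) (hdj : Disjoint R B)
    (hc : 3 ≤ (R ∪ B).card) (hx : x ∈ B) (hy : y ∈ B) (hxy : HE (R ∪ B) x y) (hg : g ∈ B)
    (hgg : HE (R ∪ (B.erase x)) g g') (hsee : dt g g' x < 0)
    (IH : ∀ x' y', x' ∈ B.erase x → y' ∈ B.erase x → HE (R ∪ (B.erase x)) x' y' →
      Mix R (B.erase x) x' y') : Mix R B x y := by
  classical
  have hxR : x ∉ R := fun h => Finset.disjoint_left.1 hdj h hx
  have hSe : R ∪ (B.erase x) = (R ∪ B).erase x := by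
    rw [Finset.erase_union_distrib, Finset.erase_eq_of_notMem hxR]
  have hSsub : R ∪ (B.erase x) ⊆ R ∪ B := by rw [hSe]; exact Finset.erase_subset _ _
  have hGS : GP (R ∪ (B.erase x)) := hG.mono hSsub
  have hyS : y ∈ R ∪ (B.erase x) := by
    rw [hSe]; exact Finset.mem_erase.2 ⟨hxy.ne.symm, hxy.2.1⟩
  have hyv : HV (R ∪ (B.erase x)) y := hxy.hv_right.mono hSsub hyS
  have hxS : x ∉ R ∪ (B.erase x) := by rw [hSe]; simp
  have nS : ∀ z ∈ R ∪ (B.erase x), z ≠ x := fun z hz e => hxS (e ▸ hz)
  have hc2 : 2 ≤ (R ∪ (B.erase x)).card := by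
    rw [hSe, Finset.card_erase_of_mem hxy.1]; omega
  -- g ≠ y
  have hgy : g ≠ y := by
    intro e
    obtain ⟨q, hq⟩ := hxy.hv_right.next hG (by omega)
    have hqx : q ≠ x := by
      intro e'
      rw [e'] at hq
      exact hxy.not_symm hc hq
    have hq' : HE (R ∪ (B.erase x)) y q :=
      hq.mono hSsub hyS (by rw [hSe]; exact Finset.mem_erase.2 ⟨hqx, hq.2.1⟩)
    rw [e] at hgg hsee
    have := hgg.next_unique hq'
    rw [this] at hsee
    have := hq.2.2.2 x hxy.1 hxy.ne hqx.symm
    linarith
  obtain ⟨l, hn, hm, hb, he⟩ := hull_from hGS hyv hc2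
  have hgl : g ∈ l := by
    rcases List.mem_cons.1 ((hm g).2 hgg.hv_left) with h | h
    · exact absurd h hgy
    · exact h
  obtain ⟨A, b, Rs, hl, hbB, hRs⟩ := last_split (fun z => z ∈ B) l ⟨g, hgl, hg⟩
  have hbl : b ∈ l := by rw [hl]; simp
  have vtx : ∀ z ∈ l, HV (R ∪ (B.erase x)) z := fun z hz =>
    (hm z).1 (List.mem_cons_of_mem _ hz)
  have hbv := vtx b hbl
  have hbS : b ∈ B.erase x := Finset.mem_erase.2 ⟨nS b hbv.1, hbB⟩
  have hyBS : y ∈ B.erase x := Finset.mem_erase.2 ⟨hxy.ne.symm, hy⟩
  have hby : b ≠ y := fun e => (List.nodup_cons.1 hn).1 (e ▸ hbl)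
  have hRsR : ∀ z ∈ Rs, z ∈ R := by
    intro z hz
    rcases Finset.mem_union.1 (vtx z (by rw [hl]; simp [hz])).1 with h | h
    · exact h
    · exact absurd (Finset.mem_of_mem_erase h) (hRs z hz)
  have hedge : ∀ e ∈ pe (b :: (Rs ++ [y])), HE (R ∪ (B.erase x)) e.1 e.2 := by
    intro e hee
    apply he
    have : y :: (l ++ [y]) = (y :: A) ++ (b :: (Rs ++ [y])) ++ [] := by rw [hl]; simp
    rw [this]
    exact pe_infix hee
  obtain ⟨c, c', ec, ec', hnil, hcons⟩ := path_succ b y Rs
  have e1 := hedge _ ec
  simp only at e1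
  have hbc : dt b c x < 0 := by
    by_cases hbg : b = g
    · have h1 : c = g' := by rw [hbg] at e1; exact e1.next_unique hgg
      rw [hbg, h1]; exact hsee
    have hgA : g ∈ A := by
      rw [hl] at hgl
      rcases List.mem_append.1 hgl with h | h
      · exact h
      rcases List.mem_cons.1 h with h | h
      · exact absurd h.symm hbg
      · exact absurd hg (hRs g h)
    have hord : 0 < dt y g b := by
      rw [hl, List.pairwise_append] at hb
      exact hb.2.2 g hgA b (by simp)
    have hcx := nS c e1.2.1
    rcases lt_or_gt_of_ne (hG b (hSsub hbv.1) c (hSsub e1.2.1) x hxy.1 e1.ne (nS b hbv.1) hcx)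
      with h | h
    · exact h
    exfalso
    have hfull : HE (R ∪ B) b c := by
      refine ⟨hSsub hbv.1, hSsub e1.2.1, e1.ne, ?_⟩
      intro z hz a1 a2
      by_cases a3 : z = x
      · rw [a3]; exact h
      · exact e1.2.2.2 z (by rw [hSe]; exact Finset.mem_erase.2 ⟨a3, hz⟩) a1 a2
    have hgx := nS g hgg.1
    have k1 : 0 < dt x y g := hxy.2.2.2 g (hSsub hgg.1) hgx hgy
    have k2 : 0 < dt g x b := red_pos hsee (hgg.weak hbv.1) (hgg.weak hyS) hord k1
    exact hfull.hv_left.not_in_triangle (hSsub hgg.1) hxy.1 hxy.2.1 k2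
      (hxy.2.2.2 b (hSsub hbv.1) (nS b hbv.1) hby) hord
  have hMix : Mix R (B.erase x) b y := by
    by_cases hRn : Rs = []
    · obtain ⟨h1, _⟩ := hnil hRn
      rw [h1] at e1
      exact IH b y hbS hyBS e1
    · refine sclose hS hGS ?_ hRn hRsR ?_ hbS hyBS hby hedge
      · exact Finset.disjoint_of_subset_right (Finset.erase_subset _ _) hdj
      · have hn' := (List.nodup_cons.1 hn).2
        rw [hl, List.nodup_append, List.nodup_cons] at hn'
        exact hn'.2.1.2
  obtain ⟨E, lB, hE, hlB, hEc⟩ := hMix
  -- the edge x b crosses nothing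
  have hfree : ∀ r ∈ R ∪ (B.erase x), ∀ s ∈ R ∪ (B.erase x), ¬ Cross x b r s := by
    intro r hr s hs hcr
    have e0 := dt_eq_fn b c
    have w1 := e1.weak hr
    have w2 := e1.weak hs
    refine not_cross_of_sep (-(c.2 - b.2), c.1 - b.1) (fn (-(c.2 - b.2), c.1 - b.1) b)
      (p := r) (q := s) (r := x) (s := b) ?_ ?_ ?_ le_rfl ?_ hcr.symm
    · rw [e0] at w1; linarith
    · rw [e0] at w2; linarith
    · rw [e0] at hbc; linarith
    · right; right; left; rw [e0] at hbc; linarith
  have hlB' : HamPath B x y (x :: lB) := by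
    apply hlB.cons hx
    intro r hr s hs
    exact hfree r (Finset.mem_union_right _ hr) s (Finset.mem_union_right _ hs)
  refine ⟨E, x :: lB, hE, hlB', ?_⟩
  obtain ⟨m, hm'⟩ : ∃ m, lB = b :: m := by
    cases hk : lB with
    | nil => have := hlB.hd; rw [hk] at this; simp at this
    | cons a m => exact ⟨m, by have := hlB.hd; rw [hk] at this; simp at this; rw [this]⟩
  have hadd : Conf E (pe lB ++ [(x, b)]) := by
    apply hEc.add (by simp)
    · intro e hee f hf hcr
      rw [List.mem_singleton] at hf
      subst hf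
      have := hlB.inside e hee
      exact hfree e.1 (Finset.mem_union_right _ this.1) e.2 (Finset.mem_union_right _ this.2)
        (crossE_comm.1 hcr)
    · intro e hee f hf hcr
      rw [List.mem_singleton] at hf
      subst hf
      have := hE.inside e hee
      exact hfree e.1 (Finset.mem_union_left _ this.1) e.2 (Finset.mem_union_left _ this.2)
        (crossE_comm.1 hcr)
  apply hadd.perm (List.Perm.refl _)
  rw [hm', pe_cons_cons, ← hm']
  exact List.perm_append_singleton _ _

/-- only `x, y` are blue hull vertices -/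
theorem c1_base (hS : SStmt) {R B : Finset Pt} {x y : Pt} (hG : GP (R ∪ B)) (hdj : Disjoint R B)
    (hc : 3 ≤ (R ∪ B).card) (hx : x ∈ B) (hy : y ∈ B) (hxy : HE (R ∪ B) x y)
    (hall : ∀ z ∈ B, HV (R ∪ B) z → z = x ∨ z = y) : Mix R B x y := by
  obtain ⟨l, hn, hm, hb, he⟩ := hull_from hG hxy.hv_right (by omega)
  have hxl : x ∈ l := by
    rcases List.mem_cons.1 ((hm x).2 hxy.hv_left) with h | h
    · exact absurd h hxy.ne
    · exact h
  -- the last element of l is x
  obtain ⟨l1, rfl⟩ : ∃ l1, l = l1 ++ [x] := by
    rcases List.eq_nil_or_concat l with h | ⟨l1, z, h⟩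
    · rw [h] at hxl; simp at hxl
    · rw [List.concat_eq_append] at h
      refine ⟨l1, ?_⟩
      have h1 : HE (R ∪ B) z y := by
        apply he (z, y)
        apply mem_pe_of_split (A := y :: l1) (Bl := [])
        rw [h]; simp
      rw [h, h1.prev_unique hxy]
  have hn' := (List.nodup_cons.1 hn).2
  rw [List.nodup_append] at hn'
  have hl1 : ∀ z ∈ l1, z ∈ R := by
    intro z hz
    have hzv : HV (R ∪ B) z := (hm z).1 (by simp [hz])
    rcases Finset.mem_union.1 hzv.1 with h | h
    · exact h
    · exfalso
      rcases hall z h hzv with h1 | h1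
      · exact hn'.2.2 z hz x (by simp) h1
      · exact (List.nodup_cons.1 hn).1 (by rw [← h1]; simp [hz])
  have hne : l1 ≠ [] := by
    rintro rfl
    have : HE (R ∪ B) y x := by
      apply he (y, x)
      simp
    exact hxy.not_symm hc this
  apply Mix.symm
  apply sclose hS hG hdj hne hl1 hn'.1 hy hx hxy.ne.symm
  intro e hee
  apply he
  have : y :: (l1 ++ [x] ++ [y]) = [] ++ (y :: (l1 ++ [x])) ++ [y] := by simp
  rw [this]
  exact pe_infix hee

theorem mem_erase_union {R B : Finset Pt} {x : Pt} (hx : x ∉ R) :
    R ∪ (B.erase x) = (R ∪ B).erase x := by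
  classical
  rw [Finset.erase_union_distrib, Finset.erase_eq_of_notMem hx]

/-- the window of a hull edge -/
theorem init_win {R B : Finset Pt} {x y p q : Pt} (hG : GP (R ∪ B)) (hdj : Disjoint R B)
    (hx : x ∈ B) (hy : y ∈ B) (hp : p ∈ R) (hq : q ∈ R) (hpq : p ≠ q)
    (h1 : HE (R ∪ B) p x) (h2 : HE (R ∪ B) x y) (h3 : HE (R ∪ B) y q)
    (H1 : ∀ g ∈ B, ∀ g', HE (R ∪ (B.erase x)) g g' → ¬ dt g g' x < 0)
    (H2 : ∀ g' ∈ B, ∀ g, HE (R ∪ (B.erase y)) g g' → ¬ dt g g' y < 0) :
    Win R B {x, y} p q := by
  classical
  have hxR : x ∉ R := fun h => Finset.disjoint_left.1 hdj h hx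
  have hyR : y ∉ R := fun h => Finset.disjoint_left.1 hdj h hy
  have red : ∀ z ∈ R, ∀ w ∈ B, z ≠ w := fun z hz w hw e => Finset.disjoint_left.1 hdj hz (e ▸ hw)
  have ex := mem_erase_union (B := B) hxR
  have ey := mem_erase_union (B := B) hyR
  have hS : R ∪ (B \ {x, y}) = ((R ∪ B).erase x).erase y := by
    ext z
    simp only [Finset.mem_union, Finset.mem_sdiff, Finset.mem_insert, Finset.mem_singleton,
      Finset.mem_erase]
    constructor
    · rintro (h | h)
      · exact ⟨fun e => hyR (e ▸ h), fun e => hxR (e ▸ h), Or.inl h⟩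
      · exact ⟨fun e => h.2 (Or.inr e), fun e => h.2 (Or.inl e), Or.inr h.1⟩
    · rintro ⟨a, b, h | h⟩
      · exact Or.inl h
      · exact Or.inr ⟨h, fun h' => h'.elim b a⟩
  have hxy := h2.ne
  have px := red p hp x hx
  have py := red p hp y hy
  have qx := red q hq x hx
  have qy := red q hq y hy
  have dx : dt p q x < 0 := by
    have := h1.2.2.2 q h3.2.1 hpq.symm qx
    rw [dt_swap'] at this; linarith
  have dy : dt p q y < 0 := by
    have := h3.2.2.2 p h1.1 py hpq
    have e : dt p q y = - dt y q p := by unfold dt; ring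
    rw [e]; linarith
  -- no hull vertex beyond except x, y
  have nohv : ∀ z ∈ R ∪ B, z ≠ x → z ≠ y → z ≠ p → z ≠ q → HV (R ∪ B) z → ¬ dt p q z < 0 := by
    intro z hz a1 a2 a3 a4 hv hs
    refine HV.not_in_quad hG hv h1.1 h2.1 h2.2.1 h3.2.1 py a2 (h1.2.2.2 z hz a3 a1)
      (h2.2.2.2 z hz a1 a2) (h3.2.2.2 z hz a2 a4) ?_
    rw [dt_swap]; linarith
  refine ⟨hG, hdj, ?_, ⟨x, by simp⟩, h1.hv_left, h3.hv_right, hp, hq, hpq, ?_, ?_⟩
  · intro z hz
    simp only [Finset.mem_insert, Finset.mem_singleton] at hz
    rcases hz with rfl | rfl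
    · exact hx
    · exact hy
  · intro d hd
    simp only [Finset.mem_insert, Finset.mem_singleton] at hd
    rcases hd with rfl | rfl
    · exact dx
    · exact dy
  · intro g g' hg hbl
    rw [hS] at hg
    have hg1 := hg.1
    have hg2 := hg.2.1
    simp only [Finset.mem_erase] at hg1 hg2
    obtain ⟨gy, gx, gP⟩ := hg1
    obtain ⟨gy', gx', gP'⟩ := hg2
    have w : ∀ z ∈ R ∪ B, z ≠ x → z ≠ y → z ≠ g → z ≠ g' → 0 < dt g g' z := by
      intro z hz a1 a2 a3 a4
      exact hg.2.2.2 z (by simp only [Finset.mem_erase]; exact ⟨a2, a1, hz⟩) a3 a4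
    have s1 := hG g gP g' gP' x h2.1 hg.ne gx gx'
    have s2 := hG g gP g' gP' y h2.2.1 hg.ne gy gy'
    -- edges of the hulls without x, y
    have mkP : 0 < dt g g' x → 0 < dt g g' y → HE (R ∪ B) g g' := by
      intro a b
      refine ⟨gP, gP', hg.ne, ?_⟩
      intro z hz c1 c2
      by_cases a1 : z = x
      · rw [a1]; exact a
      by_cases a2 : z = y
      · rw [a2]; exact b
      exact w z hz a1 a2 c1 c2
    have mkx : 0 < dt g g' y → HE (R ∪ (B.erase x)) g g' := by
      intro b
      rw [ex]
      refine ⟨Finset.mem_erase.2 ⟨gx, gP⟩, Finset.mem_erase.2 ⟨gx', gP'⟩, hg.ne, ?_⟩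
      intro z hz c1 c2
      have hz' := Finset.mem_erase.1 hz
      by_cases a2 : z = y
      · rw [a2]; exact b
      exact w z hz'.2 hz'.1 a2 c1 c2
    have mky : 0 < dt g g' x → HE (R ∪ (B.erase y)) g g' := by
      intro b
      rw [ey]
      refine ⟨Finset.mem_erase.2 ⟨gy, gP⟩, Finset.mem_erase.2 ⟨gy', gP'⟩, hg.ne, ?_⟩
      intro z hz c1 c2
      have hz' := Finset.mem_erase.1 hz
      by_cases a2 : z = x
      · rw [a2]; exact b
      exact w z hz'.2 a2 hz'.1 c1 c2
    have key : dt g g' x < 0 ∧ dt g g' y < 0 := by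
      rcases hbl with ⟨hgB, hgs⟩ | ⟨hgB, hgs⟩
      · -- g blue
        have gp : g ≠ p := (red p hp g hgB).symm
        have gq : g ≠ q := (red q hq g hgB).symm
        have nv : ¬ HV (R ∪ B) g := fun hv => nohv g gP gx gy gp gq hv hgs
        constructor
        · rcases lt_or_gt_of_ne s1 with h | h
          · exact h
          exfalso
          rcases lt_or_gt_of_ne s2 with h' | h'
          · -- HE without y; look at the predecessor of g
            have hh := mky h
            obtain ⟨g0, hg0⟩ := hh.hv_left.prev (hG.mono (by rw [ey]; exact Finset.erase_subset _ _))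
              (card_ge_two hh.1 hh.2.1 hh.ne)
            have hg0' := hg0.1
            rw [ey, Finset.mem_erase] at hg0'
            apply H2 g hgB g0 hg0
            rcases lt_or_gt_of_ne (hG g0 hg0'.2 g gP y h2.2.1 hg0.ne hg0'.1 gy) with h4 | h4
            · exact h4
            exfalso
            apply nv
            have : HE (R ∪ B) g0 g := by
              refine ⟨hg0'.2, gP, hg0.ne, ?_⟩
              intro z hz c1 c2
              by_cases a1 : z = y
              · rw [a1]; exact h4
              · exact hg0.2.2.2 z (by rw [ey]; exact Finset.mem_erase.2 ⟨a1, hz⟩) c1 c2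
            exact this.hv_right
          · exact nv (mkP h h').hv_left
        · rcases lt_or_gt_of_ne s2 with h | h
          · exact h
          exfalso
          rcases lt_or_gt_of_ne s1 with h' | h'
          · exact H1 g hgB g' (mkx h) h'
          · exact nv (mkP h' h).hv_left
      · -- g' blue
        have gp : g' ≠ p := (red p hp g' hgB).symm
        have gq : g' ≠ q := (red q hq g' hgB).symm
        have nv : ¬ HV (R ∪ B) g' := fun hv => nohv g' gP' gx' gy' gp gq hv hgs
        constructor
        · rcases lt_or_gt_of_ne s1 with h | h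
          · exact h
          exfalso
          rcases lt_or_gt_of_ne s2 with h' | h'
          · exact H2 g' hgB g (mky h) h'
          · exact nv (mkP h h').hv_right
        · rcases lt_or_gt_of_ne s2 with h | h
          · exact h
          exfalso
          rcases lt_or_gt_of_ne s1 with h' | h'
          · have hh := mkx h
            obtain ⟨g0, hg0⟩ := hh.hv_right.next (hG.mono (by rw [ex]; exact Finset.erase_subset _ _))
              (card_ge_two hh.1 hh.2.1 hh.ne)
            have hg0' := hg0.2.1
            rw [ex, Finset.mem_erase] at hg0'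
            apply H1 g' hgB g0 hg0
            rcases lt_or_gt_of_ne (hG g' gP' g0 hg0'.2 x h2.1 hg0.ne gx' hg0'.1) with h4 | h4
            · exact h4
            exfalso
            apply nv
            have : HE (R ∪ B) g' g0 := by
              refine ⟨gP', hg0'.2, hg0.ne, ?_⟩
              intro z hz c1 c2
              by_cases a1 : z = x
              · rw [a1]; exact h4
              · exact hg0.2.2.2 z (by rw [ex]; exact Finset.mem_erase.2 ⟨a1, hz⟩) c1 c2
            exact this.hv_left
          · exact nv (mkP h' h).hv_right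
    intro d hd
    simp only [Finset.mem_insert, Finset.mem_singleton] at hd
    rcases hd with rfl | rfl
    · exact key.1
    · exact key.2

/-- (C1): every monochromatic hull edge can be prescribed -/
theorem c1 (hS : SStmt) (hL : GDPLStmt) (hBF : BFStmt) (hHP : HPStmt) : ∀ n : ℕ,
    ∀ (R B : Finset Pt) (x y : Pt), B.card = n → GP (R ∪ B) → Disjoint R B → R.Nonempty →
      x ∈ B → y ∈ B → HE (R ∪ B) x y → Mix R B x y := by
  classical
  intro n
  induction n using Nat.strong_induction_on with
  | _ n ih =>
    intro R B x y hn hG hdj hR hx hy hxy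
    obtain ⟨r0, hr0⟩ := hR
    have red : ∀ z ∈ R, ∀ w ∈ B, z ≠ w := fun z hz w hw e => Finset.disjoint_left.1 hdj hz (e ▸ hw)
    have hc : 3 ≤ (R ∪ B).card := card_ge_three (Finset.mem_union_left _ hr0) hxy.1 hxy.2.1
      (red r0 hr0 x hx) (red r0 hr0 y hy) hxy.ne
    have hxR : x ∉ R := fun h => Finset.disjoint_left.1 hdj h hx
    have hyR : y ∉ R := fun h => Finset.disjoint_left.1 hdj h hy
    have ex := mem_erase_union (B := B) hxR
    have ey := mem_erase_union (B := B) hyR
    by_cases hall : ∀ z ∈ B, HV (R ∪ B) z → z = x ∨ z = y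
    · exact c1_base hS hG hdj hc hx hy hxy hall
    push Not at hall
    obtain ⟨β, hβ, hβv, hβx, hβy⟩ := hall
    by_cases H1 : ∀ g ∈ B, ∀ g', HE (R ∪ (B.erase x)) g g' → ¬ dt g g' x < 0
    swap
    · push Not at H1
      obtain ⟨g, hg, g', hgg, hsee⟩ := H1
      apply redX hS hG hdj hc hx hy hxy hg hgg hsee
      intro x' y' hx' hy' hxy'
      exact ih (B.erase x).card (by rw [← hn]; exact card_erase_lt hx) R (B.erase x) x' y' rfl
        (hG.mono (by rw [ex]; exact Finset.erase_subset _ _))
        (Finset.disjoint_of_subset_right (Finset.erase_subset _ _) hdj) ⟨r0, hr0⟩ hx' hy' hxy'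
    by_cases H2 : ∀ g' ∈ B, ∀ g, HE (R ∪ (B.erase y)) g g' → ¬ dt g g' y < 0
    swap
    · push Not at H2
      obtain ⟨g', hg', g, hgg, hsee⟩ := H2
      -- mirror image
      apply Mix.symm
      apply Mix.of_mir
      have hUn := union_image_mir R B
      have her : (B.image mir).erase (mir y) = (B.erase y).image mir := by
        rw [Finset.image_erase mir_inj]
      have hUe : R.image mir ∪ (B.image mir).erase (mir y) = (R ∪ B.erase y).image mir := by
        rw [her, union_image_mir]
      refine redX (g := mir g') (g' := mir g) hS (by rw [hUn]; exact hG.mir) ?_ ?_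
        (mem_image_mir.2 hy) (mem_image_mir.2 hx) (by rw [hUn]; exact hxy.mir)
        (mem_image_mir.2 hg') (by rw [hUe]; exact hgg.mir) ?_ ?_
      · rw [Finset.disjoint_left]
        intro z hz hz'
        obtain ⟨w, hw, rfl⟩ := Finset.mem_image.1 hz
        exact Finset.disjoint_left.1 hdj hw (mem_image_mir.1 hz')
      · rw [hUn, Finset.card_image_of_injective _ mir_inj]; exact hc
      · rw [dt_mir, dt_swap]; linarith
      · intro x' y' hx' hy' hxy'
        refine ih (B.erase y).card (by rw [← hn]; exact card_erase_lt hy) (R.image mir)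
          ((B.image mir).erase (mir y)) x' y' ?_ ?_ ?_ ?_ hx' hy' hxy'
        · rw [her, Finset.card_image_of_injective _ mir_inj]
        · rw [hUe]
          exact (hG.mono (by rw [ey]; exact Finset.erase_subset _ _)).mir
        · rw [Finset.disjoint_left]
          intro z hz hz'
          obtain ⟨w, hw, rfl⟩ := Finset.mem_image.1 hz
          exact Finset.disjoint_left.1 hdj hw (mem_image_mir.1 (Finset.mem_of_mem_erase hz'))
        · exact ⟨mir r0, mem_image_mir.2 hr0⟩
    -- the window
    obtain ⟨p, hp⟩ := hxy.hv_left.prev hG (by omega)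
    obtain ⟨q, hq⟩ := hxy.hv_right.next hG (by omega)
    have py : p ≠ y := by
      intro e; rw [e] at hp; exact hxy.not_symm hc hp
    have qx : q ≠ x := by
      intro e; rw [e] at hq; exact hxy.not_symm hc hq
    have hpR : p ∈ R := by
      rcases Finset.mem_union.1 hp.1 with h | h
      · exact h
      exfalso
      have hpS : p ∈ R ∪ (B.erase x) := by rw [ex]; exact Finset.mem_erase.2 ⟨hp.ne, hp.1⟩
      have hsub : R ∪ (B.erase x) ⊆ R ∪ B := by rw [ex]; exact Finset.erase_subset _ _
      have hv := hp.hv_left.mono hsub hpS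
      have hyS : y ∈ R ∪ (B.erase x) := by rw [ex]; exact Finset.mem_erase.2 ⟨hxy.ne.symm, hxy.2.1⟩
      obtain ⟨c, hcc⟩ := hv.next (hG.mono hsub) (card_ge_two hpS hyS py)
      have hcc' := hcc.2.1
      rw [ex, Finset.mem_erase] at hcc'
      have := hp.2.2.2 c hcc'.2 hcc.ne.symm hcc'.1
      apply H1 p h c hcc
      rw [dt_swap']; linarith
    have hqR : q ∈ R := by
      rcases Finset.mem_union.1 hq.2.1 with h | h
      · exact h
      exfalso
      have hqS : q ∈ R ∪ (B.erase y) := by rw [ey]; exact Finset.mem_erase.2 ⟨hq.ne.symm, hq.2.1⟩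
      have hsub : R ∪ (B.erase y) ⊆ R ∪ B := by rw [ey]; exact Finset.erase_subset _ _
      have hv := hq.hv_right.mono hsub hqS
      have hxS : x ∈ R ∪ (B.erase y) := by rw [ey]; exact Finset.mem_erase.2 ⟨hxy.ne, hxy.1⟩
      obtain ⟨c, hcc⟩ := hv.prev (hG.mono hsub) (card_ge_two hqS hxS qx)
      have hcc' := hcc.1
      rw [ey, Finset.mem_erase] at hcc'
      have := hq.2.2.2 c hcc'.2 hcc'.1 hcc.ne
      apply H2 q h c hcc
      have e : dt c q y = - dt y q c := by unfold dt; ring
      rw [e]; linarith
    have px := red p hpR x hx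
    have qy := red q hqR y hy
    have βp := (red p hpR β hβ).symm
    have βq := (red q hqR β hβ).symm
    have hβP := hβv.1
    have hpq : p ≠ q := by
      intro e
      rw [← e] at hq
      exact hβv.not_in_triangle hp.1 hxy.1 hxy.2.1 (hp.2.2.2 β hβP βp hβx)
        (hxy.2.2.2 β hβP hβx hβy) (hq.2.2.2 β hβP hβy βp)
    have hβs : ¬ dt p q β < 0 := by
      intro hs
      refine HV.not_in_quad hG hβv hp.1 hxy.1 hxy.2.1 hq.2.1 py hβy (hp.2.2.2 β hβP βp hβx)
        (hxy.2.2.2 β hβP hβx hβy) (hq.2.2.2 β hβP hβy βq) ?_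
      rw [dt_swap]; linarith
    have hW := init_win hG hdj hx hy hpR hqR hpq hp hxy hq H1 H2
    have hres := win_all hS hL hBF hW hβ hβv hβs (by
        intro B' hB' x' y' hx' hy' hxy'
        exact ih B'.card (by rw [← hn]; exact Finset.card_lt_card hB') R B' x' y' rfl
          (hG.mono (Finset.union_subset_union (Finset.Subset.refl _) hB'.1))
          (Finset.disjoint_of_subset_right hB'.1 hdj) ⟨r0, hr0⟩ hx' hy' hxy')
      (Q := fun F => (x, y) ∈ F ∨ (y, x) ∈ F)
      (by
        intro F G h
        rcases h with h | h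
        · exact Or.inl (List.mem_append_right _ h)
        · exact Or.inr (List.mem_append_right _ h))
      (by
        intro W s t hUW hWB hs ht hst hsU
        have hGW : GP W := hG.mono (hWB.trans Finset.subset_union_right)
        have hxW : x ∈ W := hUW (by simp)
        have hyW : y ∈ W := hUW (by simp)
        apply hHP W s t x y hGW hs ht hst (hxy.mono (hWB.trans Finset.subset_union_right) hxW hyW)
        right
        intro e
        apply hsU
        rw [← e]; simp)
      (by
        intro fin
        have hset : insert x (insert y (R ∪ (B \ {x, y}))) = R ∪ B := by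
          ext z
          simp only [Finset.mem_insert, Finset.mem_union, Finset.mem_sdiff, Finset.mem_singleton]
          constructor
          · rintro (h | h | h | h)
            · rw [h]; exact Or.inr hx
            · rw [h]; exact Or.inr hy
            · exact Or.inl h
            · exact Or.inr h.1
          · rintro (h | h)
            · exact Or.inr (Or.inr (Or.inl h))
            · by_cases a1 : z = x
              · exact Or.inl a1
              by_cases a2 : z = y
              · exact Or.inr (Or.inl a2)
              · exact Or.inr (Or.inr (Or.inr ⟨h, fun h' => h'.elim a1 a2⟩))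
        have hBset : insert x (insert y (B \ {x, y})) = B := by
          ext z
          simp only [Finset.mem_insert, Finset.mem_sdiff, Finset.mem_singleton]
          constructor
          · rintro (h | h | h)
            · rw [h]; exact hx
            · rw [h]; exact hy
            · exact h.1
          · intro h
            by_cases a1 : z = x
            · exact Or.inl a1
            by_cases a2 : z = y
            · exact Or.inr (Or.inl a2)
            · exact Or.inr (Or.inr ⟨h, fun h' => h'.elim a1 a2⟩)
        obtain ⟨E, lB, hE, hlB, hEc⟩ := thin_final hL (R := R) (B := B \ {x, y}) (d := x) (υ := y)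
          (p := p) (q := q) (β := β) (by rw [hset]; exact hG)
          (Finset.disjoint_of_subset_right Finset.sdiff_subset hdj) (by rw [hset]; exact hp)
          (by rw [hset]; exact hxy) (by rw [hset]; exact hq) hpR hqR hpq
          (by simp [hxR]) (by simp [hyR])
          (by
            intro z hz hzs hzB
            apply fin z (Finset.mem_sdiff.1 hzB).1 hz
            rw [dt_swap']; linarith)
          (by simp [hβ, hβx, hβy]) (by rw [hset]; exact hβv)
        rw [hBset] at hlB
        have hk : HamPath ({y, x} : Finset Pt) y x [y, x] := HamPath.pair hxy.ne.symm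
        have hcyc := cyc_two hlB hk hxy.ne (by
          intro z hz
          have := (Finset.mem_inter.1 hz).2
          simp only [Finset.mem_insert, Finset.mem_singleton] at this ⊢
          tauto)
        have hu : B ∪ {y, x} = B := by
          apply Finset.union_eq_left.2
          intro z hz
          simp only [Finset.mem_insert, Finset.mem_singleton] at hz
          rcases hz with rfl | rfl
          · exact hy
          · exact hx
        rw [hu] at hcyc
        refine ⟨E, _, hE, hcyc, ?_, ?_⟩
        · apply hEc.add hk.nc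
          · intro e he f hf hcr
            simp only [pe_cons_cons, pe_single, List.mem_singleton] at hf
            subst hf
            have := hlB.inside e he
            exact hxy.not_cross' (Finset.mem_union_right _ this.1) (Finset.mem_union_right _ this.2)
              (crossE_comm.1 hcr)
          · intro e he f hf hcr
            simp only [pe_cons_cons, pe_single, List.mem_singleton] at hf
            subst hf
            have := hE.inside e he
            exact hxy.not_cross' (Finset.mem_union_left _ this.1) (Finset.mem_union_left _ this.2)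
              (crossE_comm.1 hcr)
        · right; simp)
    obtain ⟨E, F, hE, hF, hEF, hQ⟩ := hres
    exact mix_of_cycle hE hF hEF hQ

end Pool.Agent.TK
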