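import Pool.Agent.TK.HullList

/-!
# Tokunaga's problem: colour changes along a part of the hull, visibility of hull edges
-/

set_option autoImplicit false

namespace Pool.Agent.TK

/-- transitivity around a hull vertex -/
theorem HV.trans {P : Finset Pt} {z x y w : Pt} (h : HV P z) (hx : x ∈ P) (hy : y ∈ P)
    (hw : w ∈ P) (h1 : 0 < dt z x y) (h2 : 0 < dt z y w) : 0 < dt z x w := by
  obtain ⟨_, c, hc⟩ := h
  have nx : x ≠ z := by rintro rfl; simp at h1
  have ny : y ≠ z := by rintro rfl; simp at h1
  have nw : w ≠ z := by rintro rfl; simp at h2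
  exact ang_trans (hc x hx nx) (hc y hy ny) (hc w hw nw) h1 h2

/-- the hull edges with respect to points of the set, weak form -/
theorem HE.nonneg {P : Finset Pt} {u v z : Pt} (h : HE P u v) (hz : z ∈ P) : 0 ≤ dt u v z := by
  by_cases h1 : z = u
  · rw [h1]; simp
  by_cases h2 : z = v
  · rw [h2]; simp
  exact (h.2.2.2 z hz h1 h2).le

/-- COLOUR CHANGE: between a hull vertex `p0` outside `R` and a hull vertex `q0` in `R` (counter
clockwise) there is a hull edge `p q` with `p` outside `R`, `q` in `R` -/
theorem arc_change {Q R : Finset Pt} (hG : GP Q) {p0 q0 : Pt} (h0 : HV Q p0) (hp0 : p0 ∉ R)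
    (h1 : HV Q q0) (hq0 : q0 ∈ R) :
    ∃ p q, HE Q p q ∧ p ∉ R ∧ q ∈ R ∧ (p = p0 ∨ 0 < dt p0 p q0) ∧ (q = q0 ∨ 0 < dt p0 q q0) := by
  classical
  have hne : q0 ≠ p0 := by rintro rfl; exact hp0 hq0
  have hcard : 2 ≤ Q.card := by
    have : ({p0, q0} : Finset Pt) ⊆ Q := by
      intro x hx
      simp at hx
      rcases hx with rfl | rfl
      · exact h0.1
      · exact h1.1
    have h2 := Finset.card_le_card this
    rwa [Finset.card_pair hne.symm] at h2
  -- sorted list of the points around `p0`
  obtain ⟨l, hn, ht, hp⟩ := h0.sorted hG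
  have hT : ((Q.erase p0).filter (fun x => HV Q x ∧ x ∈ R)).Nonempty :=
    ⟨q0, Finset.mem_filter.2 ⟨Finset.mem_erase.2 ⟨hne, h1.1⟩, h1, hq0⟩⟩
  -- the first one
  obtain ⟨q, hq, hqm⟩ : ∃ q ∈ (Q.erase p0).filter (fun x => HV Q x ∧ x ∈ R),
      ∀ x ∈ (Q.erase p0).filter (fun x => HV Q x ∧ x ∈ R), x ≠ q → 0 < dt p0 q x := by
    have key : ∀ (T : Finset Pt), T ⊆ Q.erase p0 → T.Nonempty →
        ∃ q ∈ T, ∀ x ∈ T, x ≠ q → 0 < dt p0 q x := by
      intro T
      induction T using Finset.induction_on with
      | empty => intro _ h; exact absurd h (by simp)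
      | insert y T hyT ih =>
        intro hT' _
        have hyQ := hT' (Finset.mem_insert_self y T)
        rcases T.eq_empty_or_nonempty with rfl | hne'
        · refine ⟨y, by simp, ?_⟩
          intro x hx hxy
          simp at hx
          exact absurd hx hxy
        · obtain ⟨q, hq, hqm⟩ := ih (fun x hx => hT' (Finset.mem_insert_of_mem hx)) hne'
          have hqQ := hT' (Finset.mem_insert_of_mem hq)
          have hyq : y ≠ q := by rintro rfl; exact hyT hq
          have hz := hG p0 h0.1 y (Finset.mem_of_mem_erase hyQ) q (Finset.mem_of_mem_erase hqQ)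
            (Finset.ne_of_mem_erase hyQ).symm (Finset.ne_of_mem_erase hqQ).symm hyq
          rcases lt_or_gt_of_ne hz with h | h
          · refine ⟨q, Finset.mem_insert_of_mem hq, ?_⟩
            intro x hx hxq
            rcases Finset.mem_insert.1 hx with rfl | hx
            · rw [dt_swap']; linarith
            · exact hqm x hx hxq
          · refine ⟨y, Finset.mem_insert_self _ _, ?_⟩
            intro x hx hxy
            rcases Finset.mem_insert.1 hx with rfl | hx
            · exact absurd rfl hxy
            · by_cases hxq : x = q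
              · rw [hxq]; exact h
              · exact h0.trans (Finset.mem_of_mem_erase hyQ) (Finset.mem_of_mem_erase hqQ)
                  (Finset.mem_of_mem_erase (hT' (Finset.mem_insert_of_mem hx))) h (hqm x hx hxq)
    exact key _ (Finset.filter_subset _ _) hT
  obtain ⟨hqQ', hqV, hqR⟩ := Finset.mem_filter.1 hq
  obtain ⟨hqp0, hqQ⟩ := Finset.mem_erase.1 hqQ'
  obtain ⟨p, hpq⟩ := hqV.prev hG hcard
  have hqq0 : q = q0 ∨ 0 < dt p0 q q0 := by
    by_cases h : q0 = q
    · exact Or.inl h.symm
    · exact Or.inr (hqm q0 (Finset.mem_filter.2 ⟨Finset.mem_erase.2 ⟨hne, h1.1⟩, h1, hq0⟩) h)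
  by_cases hpp : p = p0
  · exact ⟨p, q, hpq, by rw [hpp]; exact hp0, hqR, Or.inl hpp, hqq0⟩
  · have h5 : 0 < dt p0 p q := by
      have := hpq.2.2.2 p0 h0.1 (fun e => hpp e.symm) hqp0.symm
      rw [dt_rot' p q p0]
      exact this
    refine ⟨p, q, hpq, ?_, hqR, Or.inr ?_, hqq0⟩
    · intro hpR
      have := hqm p (Finset.mem_filter.2 ⟨Finset.mem_erase.2 ⟨hpp, hpq.1⟩, hpq.hv_left, hpR⟩)
        hpq.ne
      rw [dt_swap'] at this
      linarith
    · rcases hqq0 with rfl | h6
      · exact h5
      · exact h0.trans hpq.1 hqQ h1.1 h5 h6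

/-- Pluecker relation -/
theorem plu (o a b c d : Pt) :
    dt o a b * dt o c d + dt o a d * dt o b c = dt o a c * dt o b d := by
  unfold dt; ring

/-- both new points see the hull edges between the two tangent points `w`, `v` -/
theorem both_see {Q : Finset Pt} {a u w v p q : Pt}
    (hau : ∀ z ∈ Q, 0 < dt a u z) (hw : w ∈ Q) (hv : v ∈ Q)
    (hwu : ∀ z ∈ Q, z ≠ w → 0 < dt w u z) (hav : ∀ z ∈ Q, z ≠ v → 0 < dt a v z)
    (hpq : HE Q p q) (hp : p = w ∨ 0 < dt w p v) (hq : q = v ∨ 0 < dt w q v) (hqw : q ≠ w)
    (hpv : p ≠ v) (hza : dt p q a ≠ 0) (hzu : dt p q u ≠ 0) : dt p q a < 0 ∧ dt p q u < 0 := by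
  have hpQ := hpq.1
  have hqQ := hpq.2.1
  have hwv : w ≠ v := by
    rintro rfl
    rcases hq with h | h
    · exact hqw h
    · simp at h
  constructor
  · by_contra hcon
    have h1 : 0 < dt p q a := lt_of_le_of_ne (not_lt.1 hcon) hza.symm
    by_cases hqv : q = v
    · subst hqv
      have h2 := hav p hpQ hpv
      have h3 : dt p q a = - dt a q p := by unfold dt; ring
      linarith
    · have hwqv : 0 < dt w q v := hq.resolve_left hqv
      -- around w
      have k1 : 0 < dt w u q := hwu q hqQ hqw
      have k2 : 0 < dt w u v := hwu v hv hwv.symm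
      have k3 : 0 < dt w a v := by
        have := hav w hw hwv
        rw [← dt_rot w a v]; exact this
      have k4 : 0 < dt w a u := by
        have := hau w hw
        rw [← dt_rot w a u]; exact this
      have k5 : 0 < dt w q a := by
        by_cases hpw : p = w
        · rw [← hpw]; exact h1
        · have hwpv : 0 < dt w p v := hp.resolve_left hpw
          -- around q: a < v < w < p
          have m1 : 0 < dt q w p := by
            have := hpq.2.2.2 w hw (fun e => hpw e.symm) hqw.symm
            rw [dt_rot]; exact this
          have m2 : 0 < dt q v p := by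
            have := hpq.2.2.2 v hv hpv.symm (fun e => hqv e.symm)
            rw [dt_rot]; exact this
          have m3 : 0 < dt q a p := by rw [dt_rot]; exact h1
          have m4 : 0 < dt q v w := by
            have : dt q v w = dt w q v := by unfold dt; ring
            rw [this]; exact hwqv
          have m5 : 0 < dt q a v := by
            have := hav q hqQ hqv
            have e : dt q a v = dt a v q := by unfold dt; ring
            rw [e]; exact this
          have m6 := plu q a v w p
          have m7 : 0 < dt q a w * dt q v p := by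
            rw [← m6]
            exact add_pos (mul_pos m5 m1) (mul_pos m3 m4)
          have m8 : 0 < dt q a w := by
            by_contra h
            nlinarith [mul_nonneg (neg_nonneg.2 (not_lt.1 h)) m2.le]
          have e : dt w q a = dt q a w := by unfold dt; ring
          rw [e]; exact m8
      have m6 := plu w a u q v
      have m7 : 0 < dt w a q * dt w u v := by
        rw [← m6]
        exact add_pos (mul_pos k4 hwqv) (mul_pos k3 k1)
      have m8 : dt w a q < 0 := by rw [dt_swap']; linarith
      nlinarith [mul_pos (neg_pos.2 m8) k2]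
  · by_contra hcon
    have h1 : 0 < dt p q u := lt_of_le_of_ne (not_lt.1 hcon) hzu.symm
    by_cases hpw : p = w
    · subst hpw
      have h2 := hwu q hqQ hqw
      rw [dt_swap'] at h2
      linarith
    · have hwpv : 0 < dt w p v := hp.resolve_left hpw
      -- around v
      have k1 : 0 < dt v w u := by
        have := hwu v hv hwv.symm
        rw [dt_rot' w u v]; exact this
      have k2 : 0 < dt v w p := by
        rw [dt_rot' w p v]; exact hwpv
      have k3 : 0 < dt v w a := by
        have := hav w hw hwv
        rw [dt_rot a v w] ; exact this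
      have k4 : 0 < dt v p a := by
        have := hav p hpQ hpv
        rw [dt_rot a v p]; exact this
      have k5 : dt v u a < 0 := by
        have := hau v hv
        have e : dt v u a = - dt a u v := by unfold dt; ring
        rw [e]; linarith
      have k6 : 0 < dt v u p := by
        by_cases hqv : q = v
        · subst hqv
          have e : dt q u p = dt p q u := by unfold dt; ring
          rw [e]; exact h1
        · have hwqv : 0 < dt w q v := hq.resolve_left hqv
          -- around p: q < v < w < u
          have m1 : 0 < dt p q v := hpq.2.2.2 v hv hpv.symm (fun e => hqv e.symm)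
          have m3 : 0 < dt p q w := hpq.2.2.2 w hw (fun e => hpw e.symm) hqw.symm
          have m4 : 0 < dt p v w := by
            have e : dt p v w = dt w p v := by unfold dt; ring
            rw [e]; exact hwpv
          have m5 : 0 < dt p w u := by
            have := hwu p hpQ hpw
            have e : dt p w u = dt w u p := by unfold dt; ring
            rw [e]; exact this
          have m6 := plu p q v w u
          have m7 : 0 < dt p q w * dt p v u := by
            rw [← m6]
            exact add_pos (mul_pos m1 m5) (mul_pos h1 m4)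
          have m8 : 0 < dt p v u := by
            by_contra h
            nlinarith [mul_nonneg (neg_nonneg.2 (not_lt.1 h)) m3.le]
          have e : dt v u p = dt p v u := by unfold dt; ring
          rw [e]; exact m8
      have m6 := plu v w u p a
      have m7 : 0 < dt v w p * dt v u a := by
        rw [← m6]
        exact add_pos (mul_pos k1 k4) (mul_pos k3 k6)
      nlinarith [mul_pos (neg_pos.2 k5) k2]

/-- a wire from a point beyond a hull edge to the first end point of the edge crosses nothing -/
theorem wire_left {Q : Finset Pt} {p q a x y : Pt} (h : HE Q p q) (ha : dt p q a < 0) (hx : x ∈ Q)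
    (hy : y ∈ Q) : ¬ Cross a p x y := by
  intro hc
  have e := dt_eq_fn p q
  have h1 := h.nonneg hx
  have h2 := h.nonneg hy
  rw [e] at h1 h2 ha
  exact not_cross_of_sep (-(q.2 - p.2), q.1 - p.1) (fn (-(q.2 - p.2), q.1 - p.1) p)
    (by linarith) (by linarith) (by linarith) le_rfl (Or.inr (Or.inr (Or.inl (by linarith))))
    hc.symm

/-- a wire from a point beyond a hull edge to the second end point of the edge crosses nothing -/
theorem wire_right {Q : Finset Pt} {p q a x y : Pt} (h : HE Q p q) (ha : dt p q a < 0) (hx : x ∈ Q)
    (hy : y ∈ Q) : ¬ Cross a q x y := by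
  intro hc
  have e := dt_eq_fn p q
  have h1 := h.nonneg hx
  have h2 := h.nonneg hy
  have h3 : dt p q q = 0 := by simp
  rw [e] at h1 h2 ha h3
  exact not_cross_of_sep (-(q.2 - p.2), q.1 - p.1) (fn (-(q.2 - p.2), q.1 - p.1) p)
    (by linarith) (by linarith) (by linarith) (by linarith)
    (Or.inr (Or.inr (Or.inl (by linarith)))) hc.symm

end Pool.Agent.TK
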