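import Pool.Agent.TK.Close2

/-!
# Tokunaga's problem: monochromatic hull
-/

set_option autoImplicit false

namespace Pool.Agent.TK

theorem takeWhile_split {α : Type*} (p : α → Bool) (l : List α) :
    l = l.takeWhile p ++ l.dropWhile p := (List.takeWhile_append_dropWhile).symm

theorem mem_takeWhile_imp {α : Type*} {p : α → Bool} {l : List α} {x : α}
    (h : x ∈ l.takeWhile p) : p x = true := List.mem_takeWhile_imp h

/-- CLOSING, all hull vertices red -/
theorem closing_zero (hS : SStmt) {R B : Finset Pt} (hG : GP (R ∪ B)) (hd : Disjoint R B)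
    (hc : 3 ≤ (R ∪ B).card) (hB : B.Nonempty) (hall : ∀ x, HV (R ∪ B) x → x ∈ R) :
    ∃ lR lB, GoodCycles R B lR lB := by
  classical
  set P := R ∪ B with hP
  have neq : ∀ x ∈ R, ∀ y ∈ B, x ≠ y := fun x hx y hy e =>
    (Finset.disjoint_left.1 hd hx) (e ▸ hy)
  have memP : ∀ x ∈ P, x ∈ R ∨ x ∈ B := fun x hx => Finset.mem_union.1 hx
  have RP : R ⊆ P := Finset.subset_union_left
  have BP : B ⊆ P := Finset.subset_union_right
  have hne : P.Nonempty := hB.mono BP
  -- the start
  obtain ⟨r1, hr1v⟩ := exists_hv hne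
  have hr1 : r1 ∈ R := hall r1 hr1v
  have hr1P := RP hr1
  -- first blue point around r1
  obtain ⟨lb, nlb, tlb, plb⟩ : ∃ l : List Pt, l.Nodup ∧ l.toFinset = B ∧ l.Pairwise (Bef r1) := by
    obtain ⟨_, a, ha⟩ := hr1v
    apply exists_angular (a := a)
    · intro x hx; exact ha x (BP hx) (neq r1 hr1 x hx).symm
    · intro x hx y hy hxy
      exact hG r1 hr1P x (BP hx) y (BP hy) (neq r1 hr1 x hx) (neq r1 hr1 y hy) hxy
  obtain ⟨b1, lb', hlb⟩ : ∃ b1 lb', lb = b1 :: lb' := by
    cases lb with
    | nil => simp at tlb; rw [← tlb] at hB; simp at hB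
    | cons b1 lb' => exact ⟨b1, lb', rfl⟩
  have hb1 : b1 ∈ B := by rw [← tlb, hlb]; simp
  have hb1first : ∀ b ∈ B, b ≠ b1 → 0 < dt r1 b1 b := by
    intro b hb hbb
    have : b ∈ lb := by rw [← List.mem_toFinset, tlb]; exact hb
    rw [hlb] at this plb
    rcases List.mem_cons.1 this with h | h
    · exact absurd h hbb
    · exact (List.pairwise_cons.1 plb).1 b h
  have hrb : r1 ≠ b1 := neq r1 hr1 b1 hb1
  -- the points cut off
  set D : Finset Pt := R.filter (fun x => x ≠ r1 ∧ dt r1 b1 x < 0) with hD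
  have mD : ∀ x, x ∈ D ↔ x ∈ R ∧ x ≠ r1 ∧ dt r1 b1 x < 0 := by
    intro x; rw [hD, Finset.mem_filter]
  set R1 : Finset Pt := R \ D with hR1
  have mR1 : ∀ x, x ∈ R1 ↔ x ∈ R ∧ (x = r1 ∨ 0 < dt r1 b1 x) := by
    intro x
    rw [hR1, Finset.mem_sdiff, mD]
    constructor
    · rintro ⟨h1, h2⟩
      refine ⟨h1, ?_⟩
      by_cases hx : x = r1
      · exact Or.inl hx
      · right
        have h3 : dt r1 b1 x ≠ 0 := hG r1 hr1P b1 (BP hb1) x (RP h1) hrb (Ne.symm hx)
          (neq x h1 b1 hb1).symm
        rcases lt_or_gt_of_ne h3 with h4 | h4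
        · exact absurd ⟨h1, hx, h4⟩ h2
        · exact h4
    · rintro ⟨h1, h2⟩
      refine ⟨h1, ?_⟩
      rintro ⟨_, h3, h4⟩
      rcases h2 with h2 | h2
      · exact h3 h2
      · linarith
  set P1 := R1 ∪ B with hP1
  have P1P : P1 ⊆ P := Finset.union_subset_union Finset.sdiff_subset (Finset.Subset.refl _)
  have hr1R1 : r1 ∈ R1 := (mR1 r1).2 ⟨hr1, Or.inl rfl⟩
  have fP1 : ∀ x ∈ P1, 0 ≤ dt r1 b1 x := by
    intro x hx
    rcases Finset.mem_union.1 hx with h | h
    · rcases ((mR1 x).1 h).2 with h2 | h2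
      · rw [h2]; simp
      · exact h2.le
    · by_cases e : x = b1
      · rw [e]; simp
      · exact (hb1first x h e).le
  have hE1 : HE P1 r1 b1 := by
    refine ⟨Finset.mem_union_left _ hr1R1, Finset.mem_union_right _ hb1, hrb, ?_⟩
    intro z hz hz1 hz2
    rcases Finset.mem_union.1 hz with h | h
    · rcases ((mR1 z).1 h).2 with h2 | h2
      · exact absurd h2 hz1
      · exact h2
    · exact hb1first z h hz2
  have hG1 : GP P1 := hG.mono P1P
  have hr1v1 : HV P1 r1 := hE1.hv_left
  have hc1 : 2 ≤ P1.card := by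
    have : ({r1, b1} : Finset Pt) ⊆ P1 := by
      intro x hx; simp at hx; rcases hx with rfl | rfl
      · exact hE1.1
      · exact hE1.2.1
    calc 2 = ({r1, b1} : Finset Pt).card := (Finset.card_pair hrb).symm
      _ ≤ P1.card := Finset.card_le_card this
  obtain ⟨l, hln, hlm, hlp, hle⟩ := hull_list hG1 hc1 hr1v1
  rw [ce_cons] at hle
  -- last element of l is red
  have hlast : ∃ w ∈ l, w ∈ R := by
    obtain ⟨w, hw⟩ := hr1v.prev hG (by omega)
    have hwR : w ∈ R := hall w hw.hv_left
    have hwb : w ≠ b1 := neq w hwR b1 hb1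
    have h1 := hw.2.2.2 b1 (BP hb1) hwb.symm hrb.symm
    have h2 : dt r1 b1 w = dt w r1 b1 := by unfold dt; ring
    have hwR1 : w ∈ R1 := (mR1 w).2 ⟨hwR, Or.inr (by rw [h2]; exact h1)⟩
    have hw1 : HE P1 w r1 := hw.mono P1P (Finset.mem_union_left _ hwR1) hE1.1
    have h3 := (hlm w).2 hw1.hv_left
    rcases List.mem_cons.1 h3 with h | h
    · exact absurd h hw.ne
    · exact ⟨w, h, hwR⟩
  -- split l
  set bs := l.takeWhile (fun x => decide (x ∈ B)) with hbs
  set rest := l.dropWhile (fun x => decide (x ∈ B)) with hrest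
  have hsplit : l = bs ++ rest := takeWhile_split _ l
  have hbsB : ∀ x ∈ bs, x ∈ B := by
    intro x hx
    have := mem_takeWhile_imp hx
    simpa using this
  obtain ⟨r2, rest', hr2⟩ : ∃ r2 rest', rest = r2 :: rest' := by
    cases hrr : rest with
    | nil =>
      exfalso
      obtain ⟨w, hw, hwR⟩ := hlast
      rw [hsplit, hrr, List.append_nil] at hw
      exact neq w hwR w (hbsB w hw) rfl
    | cons a b => exact ⟨a, b, rfl⟩
  have hr2B : r2 ∉ B := by
    intro h
    have h1 : rest ≠ [] := by rw [hr2]; simp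
    have h2 := List.head_dropWhile_not (fun x => decide (x ∈ B)) (l := l) (by
      rw [← hrest]; exact h1)
    have h3 : (l.dropWhile (fun x => decide (x ∈ B))).head (by rw [← hrest]; exact h1) = r2 := by
      have : (r2 :: rest').head (by simp) = r2 := rfl
      rw [← this]
      congr 1
    rw [h3] at h2
    simp [h] at h2
  have hr2l : r2 ∈ l := by rw [hsplit, hr2]; simp
  have hr2v : HV P1 r2 := (hlm r2).1 (List.mem_cons_of_mem _ hr2l)
  have hr2R : r2 ∈ R1 := by
    rcases Finset.mem_union.1 hr2v.1 with h | h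
    · exact h
    · exact absurd h hr2B
  have hr12 : r1 ≠ r2 := by
    intro e
    have := (List.nodup_cons.1 hln).1
    rw [e] at this
    exact this hr2l
  -- bs is not empty, starts with b1
  obtain ⟨bs', hbs'⟩ : ∃ bs', bs = b1 :: bs' := by
    have h1 : ∀ x l', l = x :: l' → x = b1 := by
      intro x l' h
      have h2 : (r1, x) ∈ pe (r1 :: (l ++ [r1])) := by rw [h]; simp
      have h3 := hle _ h2
      exact h3.next_unique hE1
    cases hll : l with
    | nil => rw [hll] at hr2l; simp at hr2l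
    | cons x l' =>
      have hx := h1 x l' hll
      rw [hx] at hll
      rw [hbs, hll, List.takeWhile_cons]
      simp only [hb1, decide_true, if_true]
      exact ⟨_, rfl⟩
  obtain ⟨bs'', bq, hbq⟩ : ∃ bs'' bq, bs = bs'' ++ [bq] := by
    rcases List.eq_nil_or_concat bs with h | ⟨m, y, h⟩
    · rw [h] at hbs'; simp at hbs'
    · exact ⟨m, y, by rw [h, List.concat_eq_append]⟩
  have hbqB : bq ∈ B := hbsB bq (by rw [hbq]; simp)
  -- the hull edges
  have hbse : ∀ e ∈ pe bs, HE P1 e.1 e.2 := by
    intro e he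
    apply hle
    rw [hsplit, hr2]
    have h1 : r1 :: (bs ++ r2 :: rest' ++ [r1]) = [r1] ++ bs ++ r2 :: (rest' ++ [r1]) := by simp
    rw [h1]
    rw [hbs'] at he ⊢
    have h2 : [r1] ++ b1 :: bs' ++ r2 :: (rest' ++ [r1]) = [r1] ++ b1 :: (bs' ++ r2 :: (rest' ++ [r1])) := by
      simp
    rw [h2, pe_append]
    apply List.mem_append_right
    rw [← hbs', hbq] at he
    have h3 : b1 :: (bs' ++ r2 :: (rest' ++ [r1])) = bs'' ++ bq :: (r2 :: (rest' ++ [r1])) := by
      have : b1 :: (bs' ++ r2 :: (rest' ++ [r1])) = (b1 :: bs') ++ r2 :: (rest' ++ [r1]) := by simp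
      rw [this, ← hbs', hbq]; simp
    rw [h3, pe_append]
    exact List.mem_append_left _ he
  have hE2 : HE P1 bq r2 := by
    apply hle (bq, r2)
    rw [hsplit, hr2, hbq]
    have h1 : r1 :: (bs'' ++ [bq] ++ r2 :: rest' ++ [r1]) =
        (r1 :: bs'') ++ bq :: (r2 :: (rest' ++ [r1])) := by simp
    rw [h1, pe_append]
    apply List.mem_append_right
    simp
  have hbqr2 : bq ≠ r2 := hE2.ne
  have hr1bq : r1 ≠ bq := neq r1 hr1 bq hbqB
  -- order around r1
  have hord : Bef r1 bq r2 := by
    rw [hsplit, hr2, hbq] at hlp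
    have := (List.pairwise_append.1 hlp).2.2 bq (by simp) r2 (by simp)
    exact this
  have fr2 : 0 < dt r1 b1 r2 := by
    rcases ((mR1 r2).1 hr2R).2 with h | h
    · exact absurd h.symm hr12
    · exact h
  -- a red hull vertex of P farthest from the line r1 b1
  set a' : Pt := (-(b1.2 - r1.2), b1.1 - r1.1) with ha'
  have hf : ∀ x, dt r1 b1 x = fn a' x - fn a' r1 := fun x => dt_eq_fn r1 b1 x
  have ha0 : a' ≠ 0 := by
    intro e
    have e1 := congrArg Prod.fst e
    have e2 := congrArg Prod.snd e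
    rw [ha'] at e1 e2
    simp at e1 e2
    apply hrb
    ext <;> linarith
  obtain ⟨v, hv, hvmax⟩ := exists_hv_min hne (a := -a') (by simpa using ha0)
  have hvmax' : ∀ x ∈ P, dt r1 b1 x ≤ dt r1 b1 v := by
    intro x hx
    have := hvmax x hx
    rw [fn_neg, fn_neg] at this
    rw [hf, hf]; linarith
  have hvR : v ∈ R := hall v hv
  have fv : 0 < dt r1 b1 v := lt_of_lt_of_le fr2 (hvmax' r2 (P1P hr2v.1))
  have hvR1 : v ∈ R1 := (mR1 v).2 ⟨hvR, Or.inr fv⟩
  have hvP1 : v ∈ P1 := Finset.mem_union_left _ hvR1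
  have hv1 : HV P1 v := hv.mono P1P hvP1
  have hvl : v ∈ l := by
    rcases List.mem_cons.1 ((hlm v).2 hv1) with h | h
    · rw [h] at fv; simp at fv
    · exact h
  have hvrest : v = r2 ∨ Bef r1 r2 v := by
    rw [hsplit, hr2] at hvl hlp
    rcases List.mem_append.1 hvl with h | h
    · exact absurd rfl (neq v hvR v (hbsB v h))
    · rcases List.mem_cons.1 h with h | h
      · exact Or.inl h
      · right
        exact (List.pairwise_cons.1 (List.pairwise_append.1 hlp).2.1).1 v h
  -- claim (1)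
  have claim1 : dt r1 b1 bq ≤ dt r1 b1 r2 := by
    by_contra hcon
    push Not at hcon
    have hvbq := hvmax' bq (BP hbqB)
    rcases hvrest with h | h
    · rw [h] at hvbq; linarith
    · have hvr2 : v ≠ r2 := by intro e; rw [e] at h; exact Bef.irrefl _ _ h
      have hvbq' : v ≠ bq := neq v hvR bq hbqB
      have e1 := hE2.2.2.2 v hvP1 hvbq' hvr2
      have key : dt r1 b1 r2 * dt bq r2 v =
          (dt r1 b1 r2 - dt r1 b1 v) * dt r1 bq r2 - (dt r1 b1 bq - dt r1 b1 r2) * dt r1 r2 v := by
        unfold dt; ring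
      have k1 := mul_pos fr2 e1
      have k2 : (dt r1 b1 r2 - dt r1 b1 v) * dt r1 bq r2 < 0 :=
        mul_neg_of_neg_of_pos (by linarith) hord
      have k3 : 0 < (dt r1 b1 bq - dt r1 b1 r2) * dt r1 r2 v := mul_pos (by linarith) h
      linarith
  -- claim (2)
  have claim2 : ∃ d ∈ D, dt bq r2 d < 0 := by
    by_contra hcon
    push Not at hcon
    have hE : HE P bq r2 := by
      refine ⟨BP hbqB, P1P hr2v.1, hbqr2, ?_⟩
      intro z hz hz1 hz2
      by_cases hzD : z ∈ D
      · have h1 := hcon z hzD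
        have h2 : dt bq r2 z ≠ 0 := hG bq (BP hbqB) r2 (P1P hr2v.1) z hz hbqr2 hz1.symm hz2.symm
        exact lt_of_le_of_ne h1 h2.symm
      · apply hE2.2.2.2 z _ hz1 hz2
        rcases memP z hz with h | h
        · exact Finset.mem_union_left _ (Finset.mem_sdiff.2 ⟨h, hzD⟩)
        · exact Finset.mem_union_right _ h
    exact neq bq (hall bq hE.hv_left) bq hbqB rfl
  obtain ⟨d, hdD, hdneg⟩ := claim2
  -- the set D ∪ {r1}
  set K0 : Finset Pt := insert r1 D with hK0
  have K0R : K0 ⊆ R := by
    intro x hx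
    rcases Finset.mem_insert.1 hx with h | h
    · rw [h]; exact hr1
    · exact ((mD x).1 h).1
  have K0P : K0 ⊆ P := K0R.trans RP
  have fK0 : ∀ x ∈ K0, dt r1 b1 x ≤ 0 := by
    intro x hx
    rcases Finset.mem_insert.1 hx with h | h
    · rw [h]; simp
    · exact ((mD x).1 h).2.2.le
  have hr2K0 : r2 ∉ K0 := fun h => by have := fK0 r2 h; linarith
  obtain ⟨lk, nlk, tlk, plk⟩ : ∃ l : List Pt, l.Nodup ∧ l.toFinset = K0 ∧ l.Pairwise (Bef r2) := by
    apply exists_angular (a := -a')
    · intro x hx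
      have := fK0 x hx
      rw [fn_neg, fn_neg]
      have e1 := hf x
      have e2 := hf r2
      linarith
    · intro x hx y hy hxy
      exact hG r2 (P1P hr2v.1) x (K0P hx) y (K0P hy) (fun e => hr2K0 (e ▸ hx))
        (fun e => hr2K0 (e ▸ hy)) hxy
  obtain ⟨lk', ds, hlk⟩ : ∃ lk' ds, lk = lk' ++ [ds] := by
    rcases List.eq_nil_or_concat lk with h | ⟨m, y, h⟩
    · rw [h] at tlk
      have : r1 ∈ K0 := Finset.mem_insert_self _ _
      rw [← tlk] at this; simp at this
    · exact ⟨m, y, by rw [h, List.concat_eq_append]⟩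
  have hds : ds ∈ K0 := by rw [← tlk, hlk]; simp
  have hdsl : ∀ x ∈ K0, x ≠ ds → 0 < dt r2 x ds := by
    intro x hx hxd
    have h1 : x ∈ lk := by rw [← List.mem_toFinset, tlk]; exact hx
    rw [hlk] at h1 plk
    rcases List.mem_append.1 h1 with h | h
    · exact (List.pairwise_append.1 plk).2.2 x h ds (by simp)
    · exact absurd (by simpa using h) hxd
  have r2ds : r2 ≠ ds := fun e => hr2K0 (e ▸ hds)
  -- claim (4)
  have claim4 : dt bq r2 ds < 0 := by
    by_contra hcon
    have hbqds : bq ≠ ds := (neq ds (K0R hds) bq hbqB).symm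
    have h0 : dt bq r2 ds ≠ 0 := hG bq (BP hbqB) r2 (P1P hr2v.1) ds (K0P hds) hbqr2 hbqds r2ds
    have hpos : 0 < dt bq r2 ds := lt_of_le_of_ne (not_lt.1 hcon) h0.symm
    by_cases hdd : d = ds
    · rw [hdd] at hdneg; linarith
    have h1 := hdsl d (Finset.mem_insert_of_mem hdD) hdd
    have key : dt r2 d bq * (dt r1 b1 r2 - dt r1 b1 ds) =
        dt r2 d ds * (dt r1 b1 r2 - dt r1 b1 bq) + dt r2 ds bq * (dt r1 b1 r2 - dt r1 b1 d) := by
      unfold dt; ring
    have e1 : dt r2 ds bq = dt bq r2 ds := by unfold dt; ring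
    have e2 : dt r2 d bq = dt bq r2 d := by unfold dt; ring
    rw [e1, e2] at key
    have f1 := ((mD d).1 hdD).2.2
    have f2 := fK0 ds hds
    have k1 : dt bq r2 d * (dt r1 b1 r2 - dt r1 b1 ds) < 0 :=
      mul_neg_of_neg_of_pos hdneg (by linarith)
    have k2 : 0 ≤ dt r2 d ds * (dt r1 b1 r2 - dt r1 b1 bq) := mul_nonneg h1.le (by linarith)
    have k3 : 0 < dt bq r2 ds * (dt r1 b1 r2 - dt r1 b1 d) := mul_pos hpos (by linarith)
    linarith
  have hdsr1 : ds ≠ r1 := by
    intro e
    rw [e] at claim4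
    have := hE2.2.2.2 r1 hE1.1 hr1bq hr12
    linarith
  -- the closing path
  have vr1 : HV K0 r1 := by
    refine ⟨Finset.mem_insert_self _ _, -a', ?_⟩
    intro z hz hzr
    rcases Finset.mem_insert.1 hz with h | h
    · exact absurd h hzr
    · have := ((mD z).1 h).2.2
      rw [fn_neg, fn_neg]
      have e1 := hf z
      linarith
  have vds : HV K0 ds := by
    refine ⟨hds, (-(ds.2 - r2.2), ds.1 - r2.1) |> fun n => -n, ?_⟩
    intro z hz hzd
    have h1 := hdsl z hz hzd
    have e1 := dt_eq_fn r2 ds z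
    have e2 := dt_eq_fn r2 ds ds
    rw [dt_self_right] at e2
    have e3 : dt r2 ds z = - dt r2 z ds := by unfold dt; ring
    simp only [fn_neg]
    linarith
  obtain ⟨k', hk'⟩ := vds.path (hG.mono K0P) vr1 hdsr1
  set K : Finset Pt := insert r2 K0 with hK
  have hKer : K.erase r2 = K0 := by rw [hK]; exact Finset.erase_insert hr2K0
  have hk : HamPath K r2 r1 (r2 :: k') := by
    apply HamPath.cons (Finset.mem_insert_self _ _)
    · rw [hKer]; exact hk'
    · rw [hKer]
      intro p hp q hq
      apply not_cross_of_right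
      · by_cases e : p = ds
        · rw [e]; simp
        · have := hdsl p hp e
          have e3 : dt r2 ds p = - dt r2 p ds := by unfold dt; ring
          rw [e3]; linarith
      · by_cases e : q = ds
        · rw [e]; simp
        · have := hdsl q hq e
          have e3 : dt r2 ds q = - dt r2 q ds := by unfold dt; ring
          rw [e3]; linarith
  -- no crossing between segments of P1 and the closing path
  have hncr : ∀ e : Pt × Pt, e.1 ∈ P1 → e.2 ∈ P1 → ∀ f ∈ pe (r2 :: k'), ¬ CrossE e f := by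
    intro e h1 h2 f hf' hcr
    have hkk : k' = ds :: k'.tail := by
      have := hk'.hd
      cases k' with
      | nil => simp at this
      | cons x k'' => simp at this; rw [this]; rfl
    rw [hkk, pe_cons_cons, ← hkk, List.mem_cons] at hf'
    rcases hf' with hf' | hf'
    · -- the edge r2 ds
      rw [hf'] at hcr
      have hg : ∀ x, dt bq r2 x = fn (-(r2.2 - bq.2), r2.1 - bq.1) x -
        fn (-(r2.2 - bq.2), r2.1 - bq.1) bq := fun x => dt_eq_fn bq r2 x
      have gP1 : ∀ x ∈ P1, 0 ≤ dt bq r2 x := by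
        intro x hx
        by_cases e1 : x = bq
        · rw [e1]; simp
        by_cases e2 : x = r2
        · rw [e2]; simp
        exact (hE2.2.2.2 x hx e1 e2).le
      refine not_cross_of_sep (-(r2.2 - bq.2), r2.1 - bq.1) (fn (-(r2.2 - bq.2), r2.1 - bq.1) bq)
        (p := e.1) (q := e.2) (r := r2) (s := ds) ?_ ?_ ?_ ?_ ?_ hcr
      · have := gP1 e.1 h1; rw [hg] at this; linarith
      · have := gP1 e.2 h2; rw [hg] at this; linarith
      · have := hg r2; rw [dt_self_right] at this; linarith
      · have := claim4; rw [hg] at this; linarith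
      · have := claim4; rw [hg] at this
        right; right; right; linarith
    · -- an edge inside K0
      have hin := hk'.inside f hf'
      have hne12 := (Cross.symm hcr).ne.1
      refine not_cross_of_sep a' (fn a' r1) (p := e.1) (q := e.2) (r := f.1) (s := f.2)
        ?_ ?_ ?_ ?_ ?_ hcr
      · have := fP1 e.1 h1; rw [hf] at this; linarith
      · have := fP1 e.2 h2; rw [hf] at this; linarith
      · have := fK0 f.1 hin.1; rw [hf] at this; linarith
      · have := fK0 f.2 hin.2; rw [hf] at this; linarith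
      · right; right
        have strict : ∀ x ∈ K0, x ≠ r1 → fn a' x < fn a' r1 := by
          intro x hx hxr
          rcases Finset.mem_insert.1 hx with h | h
          · exact absurd h hxr
          · have := ((mD x).1 h).2.2; rw [hf] at this; linarith
        by_cases e1 : f.1 = r1
        · right; exact strict _ hin.2 (fun h => hne12 (e1.trans h.symm))
        · left; exact strict _ hin.1 e1
  -- open the blue arc and apply the S-theorem
  have hd1 : Disjoint R1 B := Finset.disjoint_of_subset_left Finset.sdiff_subset hd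
  have comm1 : P1 = B ∪ R1 := Finset.union_comm _ _
  have hbsn : bs.Nodup := by
    have := (List.nodup_cons.1 hln).2
    rw [hsplit] at this
    exact (List.nodup_append.1 this).1
  obtain ⟨B1, b, b', hbb, hb, hb', hd2, hG2, g3, g4, _, hclose⟩ :=
    open_colour (X := B) (Y := R1) (y := r1) (y' := r2) (x1 := b1) (xp := bq)
      (by rw [← comm1]; exact hG1) hd1.symm hbsn hbsB (by rw [hbs']; rfl)
      (by rw [hbq]; simp) (by rw [← comm1]; exact hbse) hr1R1 hr2R
      (by rw [← comm1]; exact hE1) (by rw [← comm1]; exact hE2) (fun _ => hr12)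
  have comm2 : B1 ∪ R1 = R1 ∪ B1 := Finset.union_comm _ _
  rw [comm2] at hG2 g3 g4
  obtain ⟨lR, lB, hT⟩ := hS R1 B1 r1 r2 b b' hG2 hd2.symm hr1R1 hr2R hb hb' hr12 hbb
    (Or.inl g3) (Or.inr g4)
  obtain ⟨F, hF, hFc⟩ := hclose (pe lR) lB hT.hR.inside hT.hB hT.conf
  have hR1K : R1 ∩ K ⊆ {r1, r2} := by
    intro x hx
    rw [Finset.mem_inter] at hx
    rcases Finset.mem_insert.1 hx.2 with h | h
    · rw [h]; simp
    · rcases Finset.mem_insert.1 h with h | h
      · rw [h]; simp
      · exfalso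
        exact (Finset.mem_sdiff.1 hx.1).2 h
  obtain ⟨E, hE, hEc⟩ := close_gen hT.hR hk hr12 hR1K hFc.symm
    (fun e he f hf' => by
      have := hT.hR.inside e he
      exact hncr e (Finset.mem_union_left _ this.1) (Finset.mem_union_left _ this.2) f hf')
    (fun e he f hf' => by
      have := hF.inside e he
      exact hncr e (Finset.mem_union_right _ this.1) (Finset.mem_union_right _ this.2) f hf')
  have hRK : R1 ∪ K = R := by
    ext x
    rw [Finset.mem_union, hK, Finset.mem_insert, hK0, Finset.mem_insert, hR1, Finset.mem_sdiff]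
    constructor
    · rintro (h | h | h | h)
      · exact h.1
      · rw [h]; exact ((mR1 r2).1 hr2R).1
      · rw [h]; exact hr1
      · exact ((mD x).1 h).1
    · intro h
      by_cases hx : x ∈ D
      · right; right; right; exact hx
      · left; exact ⟨h, hx⟩
  rw [hRK] at hE
  exact good_of_conf hE hF hEc.symm

end Pool.Agent.TK
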