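import Pool.Agent.TK.HullList

/-!
# Tokunaga's problem: exactly two bichromatic hull edges
-/

set_option autoImplicit false

namespace Pool.Agent.TK

theorem HE.mono {W V : Finset Pt} {u v : Pt} (h : HE W u v) (hV : V ⊆ W) (hu : u ∈ V) (hv : v ∈ V) :
    HE V u v := ⟨hu, hv, h.2.2.1, fun z hz => h.2.2.2 z (hV hz)⟩

theorem conf_reverse {E : List (Pt × Pt)} {l : List Pt} (h : Conf E (pe l)) :
    Conf E (pe l.reverse) := by
  have hsw : ∀ e f : Pt × Pt, CrossE e f.swap ↔ CrossE e f := by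
    intro e f
    unfold CrossE
    simp only [Prod.fst_swap, Prod.snd_swap]
    exact cross_swap_right.symm
  have hsw' : ∀ e f : Pt × Pt, CrossE e.swap f ↔ CrossE e f := by
    intro e f
    unfold CrossE
    simp only [Prod.fst_swap, Prod.snd_swap]
    exact cross_swap_left.symm
  have hcnt : ∀ e, cnt e (pe l.reverse) = cnt e (pe l) := by
    intro e
    rw [pe_reverse]
    unfold cnt
    rw [List.countP_reverse, List.countP_map]
    apply List.countP_congr
    intro f _
    simp only [Function.comp, decide_eq_true_eq]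
    exact hsw e f
  refine ⟨h.ncE, ?_, ?_, ?_⟩
  · rw [pe_reverse, List.pairwise_reverse, List.pairwise_map]
    apply h.ncF.imp
    intro e f hef hc
    apply hef
    rw [hsw, hsw'] at hc
    exact crossE_comm.1 hc
  · intro e he
    rw [hcnt]; exact h.cE e he
  · intro f hf
    rw [pe_reverse, List.mem_reverse] at hf
    obtain ⟨g, hg, rfl⟩ := List.mem_map.1 hf
    rw [cnt_swap]
    exact h.cF g hg

/-- opening the arc of one colour (doubling the vertex if the arc is a single vertex) -/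
theorem open_colour {X Y : Finset Pt} (hG : GP (X ∪ Y)) (hd : Disjoint X Y) {xs : List Pt}
    {x1 xp y y' : Pt} (hn : xs.Nodup) (hX : ∀ x ∈ xs, x ∈ X) (h1 : xs.head? = some x1)
    (hp : xs.getLast? = some xp) (hxs : ∀ e ∈ pe xs, HE (X ∪ Y) e.1 e.2) (hy : y ∈ Y) (hy' : y' ∈ Y)
    (hyx : HE (X ∪ Y) y x1) (hxy : HE (X ∪ Y) xp y') (hne : x1 = xp → y ≠ y') :
    ∃ (X1 : Finset Pt) (x x' : Pt), x ≠ x' ∧ x ∈ X1 ∧ x' ∈ X1 ∧ Disjoint X1 Y ∧ GP (X1 ∪ Y) ∧
      HE (X1 ∪ Y) y x ∧ HE (X1 ∪ Y) x' y' ∧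
      (∀ p ∈ Y, ∀ q ∈ Y, HE (X ∪ Y) p q → HE (X1 ∪ Y) p q) ∧
      (∀ (F : List (Pt × Pt)) (l : List Pt), Inside Y F → HamPath X1 x x' l → Conf F (pe l) →
        ∃ F', Cyc X F' ∧ Conf F F') := by
  classical
  have m1 : x1 ∈ xs := List.mem_of_mem_head? h1
  have mp : xp ∈ xs := List.mem_of_getLast? hp
  by_cases he : x1 = xp
  · -- doubling
    subst he
    obtain ⟨c, hc, hGc, e1, e2, e3, hcopy⟩ := exists_double hG hyx hxy (hne rfl)
    have hins : insert c X ∪ Y = insert c (X ∪ Y) := Finset.insert_union c X Y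
    have hcX : c ∉ X := fun h => hc (Finset.mem_union_left Y h)
    have hcY : c ∉ Y := fun h => hc (Finset.mem_union_right X h)
    refine ⟨insert c X, x1, c, ?_, ?_, ?_, ?_, ?_, ?_, ?_, ?_, ?_⟩
    · intro h; exact hcX (h ▸ hX x1 m1)
    · exact Finset.mem_insert_of_mem (hX x1 m1)
    · exact Finset.mem_insert_self c X
    · rw [Finset.disjoint_insert_left]; exact ⟨hcY, hd⟩
    · rw [hins]; exact hGc
    · rw [hins]; exact e1
    · rw [hins]; exact e3
    · intro p hpY q hqY hpq
      rw [hins]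
      refine ⟨Finset.mem_insert_of_mem hpq.1, Finset.mem_insert_of_mem hpq.2.1, hpq.2.2.1, ?_⟩
      intro z hz hzp hzq
      rcases Finset.mem_insert.1 hz with rfl | hz
      · have hx1p : x1 ≠ p := fun h => (Finset.disjoint_left.1 hd (hX x1 m1)) (h ▸ hpY)
        have hx1q : x1 ≠ q := fun h => (Finset.disjoint_left.1 hd (hX x1 m1)) (h ▸ hqY)
        have h2 := hpq.2.2.2 x1 (Finset.mem_union_left Y (hX x1 m1)) hx1p hx1q
        exact (hcopy p hpq.1 q hpq.2.1 hx1p.symm hx1q.symm).1 h2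
      · exact hpq.2.2.2 z hz hzp hzq
    · intro F l hF hl hconf
      exact close_copy (P := X ∪ Y) (hX x1 m1) Finset.subset_union_left hc hcopy
        (hF.mono Finset.subset_union_right) hl hconf
  · -- removal of the interior
    set I : Finset Pt := xs.toFinset \ {x1, xp} with hI
    set X1 : Finset Pt := X \ I with hX1
    have hx1 : x1 ∈ X1 := by
      rw [hX1, Finset.mem_sdiff, hI, Finset.mem_sdiff]
      exact ⟨hX x1 m1, fun h => h.2 (by simp)⟩
    have hxp : xp ∈ X1 := by
      rw [hX1, Finset.mem_sdiff, hI, Finset.mem_sdiff]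
      exact ⟨hX xp mp, fun h => h.2 (by simp)⟩
    have hsub : X1 ∪ Y ⊆ X ∪ Y := Finset.union_subset_union Finset.sdiff_subset (Finset.Subset.refl _)
    refine ⟨X1, x1, xp, he, hx1, hxp, ?_, hG.mono hsub, ?_, ?_, ?_, ?_⟩
    · exact Finset.disjoint_of_subset_left Finset.sdiff_subset hd
    · exact hyx.mono hsub (Finset.mem_union_right _ hy) (Finset.mem_union_left _ hx1)
    · exact hxy.mono hsub (Finset.mem_union_left _ hxp) (Finset.mem_union_right _ hy')
    · intro p hpY q hqY hpq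
      exact hpq.mono hsub (Finset.mem_union_right _ hpY) (Finset.mem_union_right _ hqY)
    · intro F l hF hl hconf
      have hU : X1 ∪ xs.toFinset = X := by
        ext z
        rw [Finset.mem_union, hX1, Finset.mem_sdiff, hI, Finset.mem_sdiff, List.mem_toFinset]
        constructor
        · rintro (h | h)
          · exact h.1
          · exact hX z h
        · intro h
          by_cases hz : z ∈ xs
          · exact Or.inr hz
          · exact Or.inl ⟨h, fun h' => hz h'.1⟩
      have hres := close_arc (P := X ∪ Y) (B := X1) (K := xs.toFinset) (k := xs.reverse) hl he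
        (Finset.sdiff_subset.trans Finset.subset_union_left)
        (fun z hz => Finset.mem_union_left Y (hX z (List.mem_toFinset.1 hz)))
        ?_ (List.nodup_reverse.2 hn) (by rw [List.toFinset_reverse]) (by rw [List.head?_reverse]; exact hp)
        (by rw [List.getLast?_reverse]; exact h1) ?_ (hF.mono Finset.subset_union_right) hconf
      · rw [hU] at hres; exact hres
      · intro z hz
        rw [Finset.mem_inter, hX1, Finset.mem_sdiff, hI, Finset.mem_sdiff] at hz
        by_contra hcon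
        exact hz.1.2 ⟨hz.2, hcon⟩
      · intro e he'
        rw [pe_reverse, List.mem_reverse] at he'
        obtain ⟨g, hg, rfl⟩ := List.mem_map.1 he'
        exact Or.inr (hxs g hg)

/-- statement of the S-theorem -/
def SStmt : Prop := ∀ (R B : Finset Pt) (r r' b b' : Pt), GP (R ∪ B) → Disjoint R B → r ∈ R →
  r' ∈ R → b ∈ B → b' ∈ B → r ≠ r' → b ≠ b' → Front (R ∪ B) r b → Front (R ∪ B) r' b' →
  ∃ lR lB, TwoPaths R B r r' b b' lR lB

/-- CLOSING, exactly two bichromatic hull edges -/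
theorem closing_two (hS : SStmt) {R B : Finset Pt} (hG : GP (R ∪ B)) (hd : Disjoint R B)
    (hc : 3 ≤ (R ∪ B).card) {rs bs : List Pt} {r1 rp b1 bq : Pt} (hn : (rs ++ bs).Nodup)
    (hrs : ∀ x ∈ rs, x ∈ R) (hbs : ∀ x ∈ bs, x ∈ B) (h1 : rs.head? = some r1)
    (h2 : rs.getLast? = some rp) (h3 : bs.head? = some b1) (h4 : bs.getLast? = some bq)
    (hre : ∀ e ∈ pe rs, HE (R ∪ B) e.1 e.2) (hbe : ∀ e ∈ pe bs, HE (R ∪ B) e.1 e.2)
    (f1 : HE (R ∪ B) rp b1) (f2 : HE (R ∪ B) bq r1) :
    ∃ lR lB, GoodCycles R B lR lB := by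
  classical
  have nr := (List.nodup_append.1 hn).1
  have nb := (List.nodup_append.1 hn).2.1
  have m3 : b1 ∈ bs := List.mem_of_mem_head? h3
  have m4 : bq ∈ bs := List.mem_of_getLast? h4
  obtain ⟨R1, r, r', hrr, hr, hr', hd1, hG1, g1, g2, hpers, hclose⟩ :=
    open_colour hG hd nr hrs h1 h2 hre (hbs bq m4) (hbs b1 m3) f2 f1 (by
      intro e e'
      subst e; subst e'
      exact f1.not_symm hc f2)
  have comm1 : R1 ∪ B = B ∪ R1 := Finset.union_comm _ _
  have hG1' : GP (B ∪ R1) := by rw [← comm1]; exact hG1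
  obtain ⟨B1, b, b', hbb, hb, hb', hd2, hG2, g3, g4, _, hclose2⟩ :=
    open_colour (X := B) (Y := R1) (y := r') (y' := r) hG1' hd1.symm nb hbs h3 h4
      (by
        intro e he
        have := mem_of_mem_pe he
        rw [← comm1]
        exact hpers e.1 (hbs _ this.1) e.2 (hbs _ this.2) (hbe e he))
      hr' hr (by rw [← comm1]; exact g2) (by rw [← comm1]; exact g1) (fun _ => hrr.symm)
  have comm2 : B1 ∪ R1 = R1 ∪ B1 := Finset.union_comm _ _
  rw [comm2] at hG2 g3 g4
  -- g3 : HE (R1 ∪ B1) r' b,  g4 : HE (R1 ∪ B1) b' r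
  obtain ⟨lR, lB, hT⟩ := hS R1 B1 r r' b' b hG2 hd2.symm hr hr' hb' hb hrr hbb.symm
    (Or.inr g4) (Or.inl g3)
  have hconf := hT.conf
  obtain ⟨F, hF, hFc⟩ := hclose2 (pe lR) lB.reverse hT.hR.inside hT.hB.reverse (conf_reverse hconf)
  obtain ⟨E, hE, hEc⟩ := hclose F lR hF.inside hT.hR hFc.symm
  exact good_of_conf hE hF hEc.symm

end Pool.Agent.TK
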