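import Pool.Agent.TK.Double

/-!
# Tokunaga's problem: closing paths to cycles
-/

set_option autoImplicit false

namespace Pool.Agent.TK

/-- two families of edges, each family non-crossing, every edge crossed at most twice -/
structure Conf (E F : List (Pt × Pt)) : Prop where
  ncE : E.Pairwise (fun e f => ¬ CrossE e f)
  ncF : F.Pairwise (fun e f => ¬ CrossE e f)
  cE : ∀ e ∈ E, cnt e F ≤ 2
  cF : ∀ f ∈ F, cnt f E ≤ 2

theorem Conf.symm {E F : List (Pt × Pt)} (h : Conf E F) : Conf F E := ⟨h.ncF, h.ncE, h.cF, h.cE⟩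

theorem TwoPaths.conf {R B : Finset Pt} {r r' b b' : Pt} {lR lB : List Pt}
    (h : TwoPaths R B r r' b b' lR lB) : Conf (pe lR) (pe lB) := ⟨h.hR.nc, h.hB.nc, h.cR, h.cB⟩

theorem cnt_perm {e : Pt × Pt} {E F : List (Pt × Pt)} (h : E.Perm F) : cnt e E = cnt e F := by
  unfold cnt; exact h.countP_eq _

theorem nc_perm {E F : List (Pt × Pt)} (h : E.Perm F)
    (hE : E.Pairwise (fun e f => ¬ CrossE e f)) : F.Pairwise (fun e f => ¬ CrossE e f) := by
  refine (h.pairwise_iff ?_).1 hE
  intro a b hab hba
  exact hab (crossE_comm.1 hba)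

theorem Conf.perm {E F E' F' : List (Pt × Pt)} (h : Conf E F) (h1 : E.Perm E') (h2 : F.Perm F') :
    Conf E' F' := by
  refine ⟨nc_perm h1 h.ncE, nc_perm h2 h.ncF, ?_, ?_⟩
  · intro e he
    rw [← cnt_perm h2]
    exact h.cE e (h1.mem_iff.2 he)
  · intro e he
    rw [← cnt_perm h1]
    exact h.cF e (h2.mem_iff.2 he)

/-- adding edges that cross nothing -/
theorem Conf.add {E F A : List (Pt × Pt)} (h : Conf E F)
    (hA : A.Pairwise (fun e f => ¬ CrossE e f)) (h1 : ∀ e ∈ F, ∀ f ∈ A, ¬ CrossE e f)
    (h2 : ∀ e ∈ E, ∀ f ∈ A, ¬ CrossE e f) : Conf E (F ++ A) := by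
  refine ⟨h.ncE, ?_, ?_, ?_⟩
  · rw [List.pairwise_append]
    exact ⟨h.ncF, hA, h1⟩
  · intro e he
    rw [cnt_append, cnt_zero (h2 e he), add_zero]
    exact h.cE e he
  · intro f hf
    rcases List.mem_append.1 hf with hf | hf
    · exact h.cF f hf
    · rw [cnt_zero]
      · omega
      · intro e he hc
        exact h2 e he f hf (crossE_comm.1 hc)

/-- `F` is the edge set of a closed polygon through `B` -/
def Cyc (B : Finset Pt) (F : List (Pt × Pt)) : Prop :=
  ∃ l : List Pt, l.Nodup ∧ l.toFinset = B ∧ (ce l).Perm F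

theorem good_of_conf {R B : Finset Pt} {E F : List (Pt × Pt)} (hE : Cyc R E) (hF : Cyc B F)
    (h : Conf E F) : ∃ lR lB, GoodCycles R B lR lB := by
  obtain ⟨lR, nR, tR, pR⟩ := hE
  obtain ⟨lB, nB, tB, pB⟩ := hF
  have h' := h.perm pR.symm pB.symm
  exact ⟨lR, lB, nR, nB, tR, tB, h'.ncE, h'.ncF, h'.cE, h'.cF⟩

/-- all edges inside a set -/
def Inside (P : Finset Pt) (E : List (Pt × Pt)) : Prop := ∀ e ∈ E, e.1 ∈ P ∧ e.2 ∈ P

theorem HamPath.inside {W : Finset Pt} {s t : Pt} {l : List Pt} (h : HamPath W s t l) :
    Inside W (pe l) := by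
  intro e he
  have := mem_of_mem_pe he
  exact ⟨h.mem.1 this.1, h.mem.1 this.2⟩

theorem Inside.mono {P Q : Finset Pt} {E : List (Pt × Pt)} (h : Inside P E) (hQ : P ⊆ Q) :
    Inside Q E := fun e he => ⟨hQ (h e he).1, hQ (h e he).2⟩

theorem Cyc.inside {B : Finset Pt} {F : List (Pt × Pt)} (h : Cyc B F) : Inside B F := by
  obtain ⟨l, _, t, p⟩ := h
  intro e he
  have he' := p.mem_iff.2 he
  cases l with
  | nil => simp [ce] at he'
  | cons a l =>
    rw [ce_cons] at he'
    have := mem_of_mem_pe he'
    rw [← t]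
    simp only [List.mem_toFinset]
    constructor
    · have := this.1; simp only [List.mem_cons, List.mem_append, List.not_mem_nil, or_false] at this ⊢
      tauto
    · have := this.2; simp only [List.mem_cons, List.mem_append, List.not_mem_nil, or_false] at this ⊢
      tauto

/-- closing a path by another path -/
theorem close_gen {B K : Finset Pt} {b b' : Pt} {l k : List Pt} {E : List (Pt × Pt)}
    (hl : HamPath B b b' l) (hk : HamPath K b' b k) (hbb : b ≠ b') (hBK : B ∩ K ⊆ {b, b'})
    (hc : Conf E (pe l))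
    (h1 : ∀ e ∈ pe l, ∀ f ∈ pe k, ¬ CrossE e f) (h2 : ∀ e ∈ E, ∀ f ∈ pe k, ¬ CrossE e f) :
    ∃ F, Cyc (B ∪ K) F ∧ Conf E F := by
  refine ⟨pe l ++ pe k, ?_, hc.add hk.nc h1 h2⟩
  -- shape of k
  obtain ⟨m, hm⟩ : ∃ m, k = b' :: (m ++ [b]) := by
    cases hk' : k with
    | nil => have := hk.hd; rw [hk'] at this; simp at this
    | cons x k1 =>
      have hx : x = b' := by have := hk.hd; rw [hk'] at this; simpa using this
      rcases List.eq_nil_or_concat k1 with h | ⟨m, y, h⟩
      · exfalso
        have := hk.la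
        rw [hk', h] at this
        simp at this
        exact hbb (this.symm.trans hx)
      · have hy : y = b := by
          have := hk.la
          rw [hk', h] at this
          simpa [List.getLast?_cons] using this
        exact ⟨m, by rw [hx, h, hy, List.concat_eq_append]⟩
  have hmk : ∀ x ∈ m, x ∈ K ∧ x ≠ b ∧ x ≠ b' := by
    intro x hx
    have nd := hk.nd
    rw [hm] at nd
    rw [List.nodup_cons, List.nodup_append] at nd
    refine ⟨hk.mem.1 (by rw [hm]; simp [hx]), ?_, ?_⟩
    · intro e
      exact nd.2.2.2 x hx b (by simp) e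
    · intro e
      exact nd.1 (by rw [← e]; simp [hx])
  refine ⟨l ++ m, ?_, ?_, ?_⟩
  · rw [List.nodup_append]
    refine ⟨hl.nd, ?_, ?_⟩
    · have nd := hk.nd
      rw [hm, List.nodup_cons, List.nodup_append] at nd
      exact nd.2.1
    · intro x hx y hy e
      subst e
      have h3 := hmk x hy
      have := hBK (Finset.mem_inter.2 ⟨hl.mem.1 hx, h3.1⟩)
      simp only [Finset.mem_insert, Finset.mem_singleton] at this
      rcases this with h | h
      · exact h3.2.1 h
      · exact h3.2.2 h
  · ext x
    rw [List.mem_toFinset, List.mem_append, Finset.mem_union, hl.mem]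
    constructor
    · rintro (h | h)
      · exact Or.inl h
      · exact Or.inr (hmk x h).1
    · rintro (h | h)
      · exact Or.inl h
      · have := hk.mem.2 h
        rw [hm] at this
        simp only [List.mem_cons, List.mem_append, List.not_mem_nil, or_false] at this
        rcases this with h | h | h
        · left; rw [h]; rw [← hl.mem]; exact List.mem_of_getLast? hl.la
        · exact Or.inr h
        · left; rw [h]; rw [← hl.mem]; exact List.mem_of_mem_head? hl.hd
  · rw [ce_two hl.hd hl.la, hm]

/-- hull edge in one of the two directions -/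
def HEs (P : Finset Pt) (e : Pt × Pt) : Prop := HE P e.1 e.2 ∨ HE P e.2 e.1

theorem HEs.not_cross {P : Finset Pt} {e f : Pt × Pt} (h : HEs P f) (h1 : e.1 ∈ P) (h2 : e.2 ∈ P) :
    ¬ CrossE e f := by
  intro hc
  have hc' := crossE_comm.1 hc
  rcases h with h | h
  · exact h.not_cross h1 h2 hc'
  · exact h.not_cross' h1 h2 hc'

/-- closing a path along hull edges -/
theorem close_arc {P B K : Finset Pt} {b b' : Pt} {l k : List Pt} {E : List (Pt × Pt)}
    (hl : HamPath B b b' l) (hbb : b ≠ b') (hBP : B ⊆ P) (hKP : K ⊆ P) (hBK : B ∩ K ⊆ {b, b'})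
    (kn : k.Nodup) (kt : k.toFinset = K) (kh : k.head? = some b') (kl : k.getLast? = some b)
    (hk : ∀ e ∈ pe k, HEs P e) (hE : Inside P E) (hc : Conf E (pe l)) :
    ∃ F, Cyc (B ∪ K) F ∧ Conf E F := by
  have hin : Inside P (pe k) := by
    intro e he
    have := mem_of_mem_pe he
    rw [← List.mem_toFinset, ← List.mem_toFinset, kt] at this
    exact ⟨hKP this.1, hKP this.2⟩
  have hK : HamPath K b' b k := by
    refine ⟨kn, kt, kh, kl, ?_⟩
    rw [List.pairwise_iff_forall_sublist]
    intro e f hs
    have he : e ∈ pe k := hs.subset (by simp)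
    have hf : f ∈ pe k := hs.subset (by simp)
    exact (hk f hf).not_cross (hin e he).1 (hin e he).2
  apply close_gen hl hK hbb hBK hc
  · intro e he f hf
    have := hl.inside e he
    exact (hk f hf).not_cross (hBP this.1) (hBP this.2)
  · intro e he f hf
    exact (hk f hf).not_cross (hE e he).1 (hE e he).2

open Classical in
/-- identification of the copy -/
noncomputable def ident (b c : Pt) (x : Pt) : Pt := if x = c then b else x

theorem ident_of_ne {b c x : Pt} (h : x ≠ c) : ident b c x = x := by unfold ident; rw [if_neg h]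
theorem ident_self {b c : Pt} : ident b c c = b := by unfold ident; rw [if_pos rfl]

theorem cross_ident {P : Finset Pt} {b c : Pt} (hb : b ∈ P) (hc : c ∉ P) (h : Copy P b c)
    {p q x y : Pt} (hp : p ∈ insert c P) (hq : q ∈ insert c P) (hx : x ∈ insert c P)
    (hy : y ∈ insert c P) (hcr : Cross (ident b c p) (ident b c q) (ident b c x) (ident b c y)) :
    Cross p q x y := by
  have hcb : b ≠ c := fun e => hc (e ▸ hb)
  have memP : ∀ z ∈ insert c P, z ≠ c → z ∈ P := by
    intro z hz hzc
    rcases Finset.mem_insert.1 hz with h | h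
    · exact absurd h hzc
    · exact h
  -- one edge at the copy, the other edge ordinary
  have one : ∀ w x y : Pt, w ∈ insert c P → x ∈ insert c P → y ∈ insert c P → w ≠ c → x ≠ c →
      y ≠ c → Cross w b x y → Cross w c x y := by
    intro w x y hw hx hy hwc hxc hyc hcross
    have hne := hcross.ne
    exact (h.cross (memP w hw hwc) (memP x hx hxc) (memP y hy hyc) hne.1
      hne.2.2.2.1.symm hne.2.2.2.2.1.symm).1 hcross
  by_cases e1 : p = c <;> by_cases e2 : q = c <;> by_cases e3 : x = c <;> by_cases e4 : y = c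
  all_goals
    first
      | rw [e1, ident_self] at hcr
      | rw [ident_of_ne e1] at hcr
    first
      | rw [e2, ident_self] at hcr
      | rw [ident_of_ne e2] at hcr
    first
      | rw [e3, ident_self] at hcr
      | rw [ident_of_ne e3] at hcr
    first
      | rw [e4, ident_self] at hcr
      | rw [ident_of_ne e4] at hcr
    first
      | exact hcr
      | exact absurd rfl hcr.ne.1
      | exact absurd rfl hcr.ne.2.1
      | exact absurd rfl hcr.ne.2.2.1
      | exact absurd rfl hcr.ne.2.2.2.1
      | exact absurd rfl hcr.ne.2.2.2.2.1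
      | exact absurd rfl hcr.ne.2.2.2.2.2
      | (rw [e2]; exact one p x y hp hx hy e1 e3 e4 hcr)
      | (rw [e1]; exact cross_swap_left.1 (one q x y hq hx hy e2 e3 e4 (cross_swap_left.1 hcr)))
      | (rw [e4]; exact (one x p q hx hp hq e3 e1 e2 hcr.symm).symm)
      | (rw [e3]; exact (cross_swap_left.1
          (one y p q hy hp hq e4 e1 e2 (cross_swap_left.1 hcr.symm))).symm)

/-- closing a path between a vertex and its copy -/
theorem close_copy {P B : Finset Pt} {b c : Pt} (hb : b ∈ B) (hBP : B ⊆ P) (hc : c ∉ P)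
    (hcopy : Copy P b c) {l : List Pt} {E : List (Pt × Pt)} (hE : Inside P E)
    (hl : HamPath (insert c B) b c l) (hconf : Conf E (pe l)) : ∃ F, Cyc B F ∧ Conf E F := by
  have hbc : b ≠ c := fun e => hc (e ▸ hBP hb)
  obtain ⟨m, hm⟩ : ∃ m, l = b :: (m ++ [c]) := by
    cases hk' : l with
    | nil => have := hl.hd; rw [hk'] at this; simp at this
    | cons x k1 =>
      have hx : x = b := by have := hl.hd; rw [hk'] at this; simpa using this
      rcases List.eq_nil_or_concat k1 with h | ⟨m, y, h⟩
      · exfalso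
        have := hl.la
        rw [hk', h] at this
        simp at this
        exact hbc (hx.symm.trans this)
      · have hy : y = c := by
          have := hl.la
          rw [hk', h] at this
          simpa [List.getLast?_cons] using this
        exact ⟨m, by rw [hx, h, hy, List.concat_eq_append]⟩
  have nd := hl.nd
  rw [hm, List.nodup_cons, List.nodup_append] at nd
  have hcm : c ∉ m := fun h => nd.2.2.2 c h c (by simp) rfl
  have hbm : b ∉ m := fun h => nd.1 (by simp [h])
  have hmap : ∀ L : List Pt, c ∉ L → L.map (ident b c) = L := by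
    intro L hL
    conv_rhs => rw [← List.map_id L]
    apply List.map_congr_left
    intro x hx
    exact ident_of_ne (fun e => hL (e ▸ hx))
  set g : Pt × Pt → Pt × Pt := fun e => (ident b c e.1, ident b c e.2) with hg
  have hEg : E.map g = E := by
    conv_rhs => rw [← List.map_id E]
    apply List.map_congr_left
    intro e he
    have := hE e he
    rw [hg]
    simp only
    rw [ident_of_ne (fun h : e.1 = c => hc (h ▸ this.1)),
      ident_of_ne (fun h : e.2 = c => hc (h ▸ this.2))]
    rfl
  have hFl : (pe l).map g = ce (b :: m) := by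
    rw [ce_cons, hg, ← pe_map, hm]
    congr 1
    rw [List.map_cons, List.map_append, hmap m hcm, ident_of_ne hbc]
    simp [ident_self]
  have hlin : Inside (insert c P) (pe l) :=
    hl.inside.mono (Finset.insert_subset_insert c hBP)
  have hEin : Inside (insert c P) E := hE.mono (Finset.subset_insert c P)
  have himp : ∀ e f : Pt × Pt, e.1 ∈ insert c P → e.2 ∈ insert c P → f.1 ∈ insert c P →
      f.2 ∈ insert c P → CrossE (g e) (g f) → CrossE e f := by
    intro e f h1 h2 h3 h4 hcr
    exact cross_ident (hBP hb) hc hcopy h1 h2 h3 h4 hcr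
  have hnc : ∀ A : List (Pt × Pt), Inside (insert c P) A →
      A.Pairwise (fun e f => ¬ CrossE e f) → (A.map g).Pairwise (fun e f => ¬ CrossE e f) := by
    intro A hA hp
    rw [List.pairwise_map]
    rw [List.pairwise_iff_forall_sublist] at hp ⊢
    intro e f hs hcr
    have he : e ∈ A := hs.subset (by simp)
    have hf : f ∈ A := hs.subset (by simp)
    exact hp hs (himp e f (hA e he).1 (hA e he).2 (hA f hf).1 (hA f hf).2 hcr)
  have hcn : ∀ (A : List (Pt × Pt)) (e : Pt × Pt), Inside (insert c P) A → e.1 ∈ insert c P →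
      e.2 ∈ insert c P → cnt (g e) (A.map g) ≤ cnt e A := by
    intro A e hA h1 h2
    unfold cnt
    rw [List.countP_map]
    apply List.countP_mono_left
    intro f hf hcr
    simp only [Function.comp, decide_eq_true_eq] at *
    exact himp e f h1 h2 (hA f hf).1 (hA f hf).2 hcr
  refine ⟨(pe l).map g, ⟨b :: m, ?_, ?_, ?_⟩, ?_⟩
  · rw [List.nodup_cons]; exact ⟨hbm, nd.2.1⟩
  · ext x
    rw [List.mem_toFinset]
    constructor
    · intro hx
      have h1 : x ∈ l := by
        rw [hm]
        simp only [List.mem_cons, List.mem_append] at hx ⊢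
        tauto
      have h2 := hl.mem.1 h1
      rcases Finset.mem_insert.1 h2 with h3 | h3
      · exfalso
        rcases List.mem_cons.1 hx with h4 | h4
        · exact hbc (h4.symm.trans h3)
        · exact hcm (h3 ▸ h4)
      · exact h3
    · intro hx
      have h1 : x ∈ l := hl.mem.2 (Finset.mem_insert_of_mem hx)
      rw [hm] at h1
      simp only [List.mem_cons, List.mem_append, List.not_mem_nil, or_false] at h1 ⊢
      rcases h1 with h | h | h
      · exact Or.inl h
      · exact Or.inr h
      · exact absurd (hBP (h ▸ hx)) hc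
  · rw [hFl]
  · refine ⟨hconf.ncE, hnc _ hlin hconf.ncF, ?_, ?_⟩
    · intro e he
      have h1 := hcn (pe l) e hlin (hEin e he).1 (hEin e he).2
      have h2 : g e = e := by
        have := hE e he
        rw [hg]
        simp only
        rw [ident_of_ne (fun h : e.1 = c => hc (h ▸ this.1)),
          ident_of_ne (fun h : e.2 = c => hc (h ▸ this.2))]
      rw [h2] at h1
      exact le_trans h1 (hconf.cE e he)
    · intro f hf
      obtain ⟨f, hf', rfl⟩ := List.mem_map.1 hf
      have h1 := hcn E f hEin (hlin f hf').1 (hlin f hf').2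
      rw [hEg] at h1
      exact le_trans h1 (hconf.cF f hf')

end Pool.Agent.TK
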