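import Pool.Agent.TK.Pencil

/-!
# Tokunaga's problem: closing two paths to a cycle; doubling a hull vertex
-/

set_option autoImplicit false

namespace Pool.Agent.TK

theorem ce_cons (a : Pt) (m : List Pt) : ce (a :: m) = pe (a :: (m ++ [a])) := by
  unfold ce pe
  rw [List.rotate_cons_succ, List.rotate_zero, List.tail_cons]
  have h : a :: (m ++ [a]) = (a :: m) ++ [a] := rfl
  rw [h]
  apply List.ext_getElem
  · simp
  · intro i h1 h2
    have h3 : i < (a :: m).length := by
      simp only [List.length_zip, List.length_append, List.length_cons, List.length_nil] at h1 h2 ⊢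
      omega
    rw [List.getElem_zip, List.getElem_zip, List.getElem_append_left h3]

/-- the edges of a closed polygon made of two paths -/
theorem ce_two {l : List Pt} {a b : Pt} (ha : l.head? = some a) (hb : l.getLast? = some b)
    (m : List Pt) : ce (l ++ m) = pe l ++ pe (b :: (m ++ [a])) := by
  cases l with
  | nil => simp at ha
  | cons a' l =>
    have : a' = a := by simpa using ha
    subst this
    rw [List.cons_append, ce_cons]
    rcases List.eq_nil_or_concat (a' :: l) with h | ⟨l', b', h⟩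
    · simp at h
    · have hb' : b' = b := by rw [h] at hb; simpa using hb
      subst hb'
      have e : a' :: (l ++ m ++ [a']) = l' ++ b' :: (m ++ [a']) := by
        have : a' :: (l ++ m ++ [a']) = (a' :: l) ++ (m ++ [a']) := by simp
        rw [this, h]; simp
      rw [e, pe_append, h, List.concat_eq_append]

/-- GoodCycles from two pairs of paths -/
theorem good_of_paths {R B : Finset Pt} {lR kR lB kB : List Pt} {a b c d : Pt}
    (nR : (lR ++ kR).Nodup) (nB : (lB ++ kB).Nodup) (tR : (lR ++ kR).toFinset = R)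
    (tB : (lB ++ kB).toFinset = B) (ha : lR.head? = some a) (hb : lR.getLast? = some b)
    (hc : lB.head? = some c) (hd : lB.getLast? = some d)
    (xR : (pe lR ++ pe (b :: (kR ++ [a]))).Pairwise (fun e f => ¬ CrossE e f))
    (xB : (pe lB ++ pe (d :: (kB ++ [c]))).Pairwise (fun e f => ¬ CrossE e f))
    (cR : ∀ e ∈ pe lR ++ pe (b :: (kR ++ [a])), cnt e (pe lB ++ pe (d :: (kB ++ [c]))) ≤ 2)
    (cB : ∀ e ∈ pe lB ++ pe (d :: (kB ++ [c])), cnt e (pe lR ++ pe (b :: (kR ++ [a]))) ≤ 2) :
    GoodCycles R B (lR ++ kR) (lB ++ kB) := by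
  have eR := ce_two ha hb kR
  have eB := ce_two hc hd kB
  refine ⟨nR, nB, tR, tB, by rw [eR]; exact xR, by rw [eB]; exact xB, ?_, ?_⟩
  · rw [eR, eB]; exact cR
  · rw [eR, eB]; exact cB

theorem cnt_append (e : Pt × Pt) (l m : List (Pt × Pt)) : cnt e (l ++ m) = cnt e l + cnt e m := by
  unfold cnt; rw [List.countP_append]

theorem cnt_zero {e : Pt × Pt} {l : List (Pt × Pt)} (h : ∀ f ∈ l, ¬ CrossE e f) : cnt e l = 0 := by
  unfold cnt
  rw [List.countP_eq_zero]
  intro f hf
  simpa using h f hf

theorem cnt_nil (e : Pt × Pt) : cnt e [] = 0 := rfl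

open Classical in
theorem cnt_cons (e f : Pt × Pt) (l : List (Pt × Pt)) :
    cnt e (f :: l) = cnt e l + (if CrossE e f then 1 else 0) := by
  unfold cnt; rw [List.countP_cons]; simp

theorem cnt_swap (e : Pt × Pt) (l : List (Pt × Pt)) : cnt e.swap l = cnt e l := by
  unfold cnt
  apply List.countP_congr
  intro f _
  simp only [decide_eq_true_eq]
  unfold CrossE
  exact cross_swap_left.symm

/-- relation between a functional constant on `p q` and `dt p q` -/
theorem dt_of_level {p q γ : Pt} {k : ℝ} (hp : fn γ p = k) (hq : fn γ q = k) (x : Pt) :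
    (γ.1 ^ 2 + γ.2 ^ 2) * dt p q x =
      -(γ.1 * (q.2 - p.2) - γ.2 * (q.1 - p.1)) * (fn γ x - k) := by
  have a1 : γ.1 * (q.1 - p.1) + γ.2 * (q.2 - p.2) = 0 := by
    unfold fn at hp hq; linarith
  have a2 : fn γ x - k = γ.1 * (x.1 - p.1) + γ.2 * (x.2 - p.2) := by
    unfold fn at hp ⊢; linarith
  rw [a2]
  unfold dt
  linear_combination (γ.1 * (x.2 - p.2) - γ.2 * (x.1 - p.1)) * a1

theorem cross_level {p q r s γ : Pt} {k : ℝ} (hp : fn γ p = k) (hq : fn γ q = k)
    (h : Cross p q r s) (hγ : γ ≠ 0) : (fn γ r - k) * (fn γ s - k) < 0 := by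
  have hn : 0 < γ.1 ^ 2 + γ.2 ^ 2 := by
    have : γ.1 ≠ 0 ∨ γ.2 ≠ 0 := by
      by_contra hcon
      push Not at hcon
      exact hγ (Prod.ext hcon.1 hcon.2)
    rcases this with h | h
    · have := sq_pos_of_ne_zero h; positivity
    · have := sq_pos_of_ne_zero h; positivity
  have e1 := dt_of_level hp hq r
  have e2 := dt_of_level hp hq s
  set ν := γ.1 * (q.2 - p.2) - γ.2 * (q.1 - p.1) with hν
  have h1 : ((γ.1 ^ 2 + γ.2 ^ 2) * dt p q r) * ((γ.1 ^ 2 + γ.2 ^ 2) * dt p q s) < 0 := by
    have := mul_neg_of_pos_of_neg (mul_pos hn hn) h.1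
    nlinarith
  rw [e1, e2] at h1
  by_contra hcon
  push Not at hcon
  have h2 := mul_nonneg (mul_self_nonneg ν) hcon
  nlinarith

/-- the path crosses a segment at most as often as the line containing it -/
theorem cnt_le_lc {p q : Pt} {l : List Pt} {γ : Pt} {k : ℝ} (hp : fn γ p = k) (hq : fn γ q = k)
    (hγ : γ ≠ 0) : cnt (p, q) (pe l) ≤ lc γ k l := by
  unfold cnt lc
  apply List.countP_mono_left
  intro e _ he
  simp only [decide_eq_true_eq] at *
  exact cross_level hp hq he hγ

/-- every line through two points as a level set -/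
theorem exists_level {p q : Pt} (h : p ≠ q) : ∃ γ : Pt, γ ≠ 0 ∧ fn γ p = fn γ q ∧
    ∀ x, dt p q x = fn γ x - fn γ p := by
  refine ⟨(-(q.2 - p.2), q.1 - p.1), ?_, ?_, ?_⟩
  · intro e
    have e1 := congrArg Prod.fst e
    have e2 := congrArg Prod.snd e
    simp at e1 e2
    apply h
    ext <;> linarith
  · unfold fn; simp; ring
  · intro x; exact dt_eq_fn p q x

end Pool.Agent.TK
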