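import Pool.Agent.TK.Cycle

/-!
# Tokunaga's problem: doubling a hull vertex
-/

set_option autoImplicit false

namespace Pool.Agent.TK

/-- the moved point -/
def mv (b d : Pt) (ε : ℝ) : Pt := (b.1 + ε * d.1, b.2 + ε * d.2)

theorem dt_mv (p q b d : Pt) (ε : ℝ) :
    dt p q (mv b d ε) = dt p q b + ε * ((q.1 - p.1) * d.2 - (q.2 - p.2) * d.1) := by
  unfold dt mv; ring

theorem dt_mv' (b d p : Pt) (ε : ℝ) :
    dt b (mv b d ε) p = ε * (d.1 * (p.2 - b.2) - d.2 * (p.1 - b.1)) := by
  unfold dt mv; ring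

/-- a small motion preserves the orientations with two other points -/
theorem exists_small (P : Finset Pt) (b d : Pt) : ∃ e : ℝ, 0 < e ∧ ∀ ε : ℝ, 0 < ε → ε ≤ e →
    ∀ p ∈ P, ∀ q ∈ P, (0 < dt p q b → 0 < dt p q (mv b d ε)) := by
  classical
  have key : ∀ T : Finset (Pt × Pt), ∃ e : ℝ, 0 < e ∧ ∀ e' : ℝ, 0 < e' → e' ≤ e →
      ∀ z ∈ T, 0 < dt z.1 z.2 b → 0 < dt z.1 z.2 (mv b d e') := by
    intro T
    induction T using Finset.induction_on with
    | empty => exact ⟨1, one_pos, by simp⟩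
    | insert x T _ ih =>
      obtain ⟨e, he, hE⟩ := ih
      by_cases hx : 0 < dt x.1 x.2 b
      · set q : ℝ := |(x.2.1 - x.1.1) * d.2 - (x.2.2 - x.1.2) * d.1| with hq
        have hq0 : 0 ≤ q := abs_nonneg _
        refine ⟨min e (dt x.1 x.2 b / (q + 1)), lt_min he (div_pos hx (by linarith)), ?_⟩
        intro e' h1 h2 z hz hz1
        rcases Finset.mem_insert.1 hz with rfl | hz
        · have h3 : e' ≤ dt z.1 z.2 b / (q + 1) := le_trans h2 (min_le_right _ _)
          have h4 : e' * (q + 1) ≤ dt z.1 z.2 b := by rwa [le_div_iff₀ (by linarith)] at h3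
          have h5 : -q ≤ (z.2.1 - z.1.1) * d.2 - (z.2.2 - z.1.2) * d.1 := neg_abs_le _
          have h6 := mul_le_mul_of_nonneg_left h5 h1.le
          rw [dt_mv]
          nlinarith
        · exact hE e' h1 (le_trans h2 (min_le_left _ _)) z hz hz1
      · refine ⟨e, he, ?_⟩
        intro e' h1 h2 z hz hz1
        rcases Finset.mem_insert.1 hz with rfl | hz
        · exact absurd hz1 hx
        · exact hE e' h1 h2 z hz hz1
  obtain ⟨e, he, hE⟩ := key (P ×ˢ P)
  refine ⟨e, he, ?_⟩
  intro ε h1 h2 p hp q hq hpq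
  exact hE ε h1 h2 (p, q) (Finset.mk_mem_product hp hq) hpq

/-- `c` is a copy of `b` in `P`: same orientations with all pairs of other points -/
def Copy (P : Finset Pt) (b c : Pt) : Prop :=
  ∀ p ∈ P, ∀ q ∈ P, p ≠ b → q ≠ b → (0 < dt p q b ↔ 0 < dt p q c)

theorem Copy.neg {P : Finset Pt} {b c : Pt} (h : Copy P b c) {p q : Pt} (hp : p ∈ P) (hq : q ∈ P)
    (hpb : p ≠ b) (hqb : q ≠ b) : dt p q b < 0 ↔ dt p q c < 0 := by
  have := h q hq p hp hqb hpb
  rw [dt_swap, dt_swap p q c] at this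
  constructor
  · intro h1; have := this.1 (by linarith); linarith
  · intro h1; have := this.2 (by linarith); linarith

/-- crossings of an edge at `b` with an edge not at `b` are the same as at the copy -/
theorem Copy.cross {P : Finset Pt} {b c : Pt} (h : Copy P b c) {w x y : Pt} (hw : w ∈ P)
    (hx : x ∈ P) (hy : y ∈ P) (hwb : w ≠ b) (hxb : x ≠ b) (hyb : y ≠ b) :
    Cross w b x y ↔ Cross w c x y := by
  unfold Cross
  rw [← dt_rot w b x, ← dt_rot w b y, ← dt_rot w c x, ← dt_rot w c y,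
    ← dt_rot b x w, ← dt_rot b y w, ← dt_rot c x w, ← dt_rot c y w]
  rw [mul_neg_iff, mul_neg_iff, mul_neg_iff, mul_neg_iff]
  rw [h x hx w hw hxb hwb, h y hy w hw hyb hwb, h.neg hx hw hxb hwb, h.neg hy hw hyb hwb,
    h x hx y hy hxb hyb, h.neg hx hy hxb hyb]

/-- DOUBLING LEMMA -/
theorem exists_double {P : Finset Pt} (hG : GP P) {r1 b r2 : Pt} (h1 : HE P r1 b) (h2 : HE P b r2)
    (h12 : r1 ≠ r2) : ∃ c : Pt, c ∉ P ∧ GP (insert c P) ∧ HE (insert c P) r1 b ∧
      HE (insert c P) b c ∧ HE (insert c P) c r2 ∧ Copy P b c := by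
  classical
  obtain ⟨hr1, hb, hr1b, z1⟩ := h1
  obtain ⟨_, hr2, hbr2, z2⟩ := h2
  set d : Pt := (r2.1 - r1.1, r2.2 - r1.2) with hd
  have hpos : 0 < dt r1 b r2 := z1 r2 hr2 h12.symm hbr2.symm
  have cr : ∀ p ∈ P, p ≠ b → 0 < d.1 * (p.2 - b.2) - d.2 * (p.1 - b.1) := by
    intro p hp hpb
    have e : d.1 * (p.2 - b.2) - d.2 * (p.1 - b.1) = dt r1 b p + dt b r2 p := by
      rw [hd]; unfold dt; ring
    rw [e]
    by_cases e1 : p = r1
    · have e3 : dt b r2 r1 = dt r1 b r2 := by unfold dt; ring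
      rw [e1, dt_self_out, zero_add, e3]
      exact hpos
    by_cases e2 : p = r2
    · rw [e2, dt_self_right, add_zero]; exact hpos
    have := z1 p hp e1 hpb
    have := z2 p hp hpb e2
    linarith
  obtain ⟨e, he, hE⟩ := exists_small P b d
  obtain ⟨e2, he2, hE2⟩ : ∃ e2 : ℝ, 0 < e2 ∧ e2 ≤ e ∧ mv b d e2 ∉ P := by
    -- infinitely many candidates
    by_contra hcon
    push Not at hcon
    have hinj : Set.InjOn (fun ε : ℝ => mv b d ε) (Set.Ioc 0 e) := by
      intro x _ y _ hxy
      have hd0 : d.1 ≠ 0 ∨ d.2 ≠ 0 := by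
        by_contra h
        push Not at h
        apply h12
        have a1 : r2.1 - r1.1 = 0 := h.1
        have a2 : r2.2 - r1.2 = 0 := h.2
        ext <;> linarith
      have x1 := congrArg Prod.fst hxy
      have x2 := congrArg Prod.snd hxy
      unfold mv at x1 x2
      simp only at x1 x2
      rcases hd0 with h | h
      · exact mul_right_cancel₀ h (by linarith)
      · exact mul_right_cancel₀ h (by linarith)
    have hsub : (fun ε : ℝ => mv b d ε) '' Set.Ioc 0 e ⊆ (P : Set Pt) := by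
      rintro _ ⟨ε, hε, rfl⟩
      exact hcon ε hε.1 hε.2
    have hfin := (P.finite_toSet.subset hsub).of_finite_image hinj
    exact (Set.Ioc_infinite he) hfin
  obtain ⟨hle, hnot⟩ := hE2
  set c := mv b d e2 with hc
  have pos1 : ∀ p ∈ P, ∀ q ∈ P, 0 < dt p q b → 0 < dt p q c := hE e2 he2 hle
  have pos2 : ∀ p ∈ P, p ≠ b → 0 < dt b c p := by
    intro p hp hpb
    rw [hc, dt_mv']
    exact mul_pos he2 (cr p hp hpb)
  have hcopy : Copy P b c := by
    intro p hp q hq hpb hqb
    refine ⟨pos1 p hp q hq, ?_⟩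
    intro h
    by_cases hpq : p = q
    · rw [hpq] at h; simp at h
    by_contra hcon
    rcases lt_or_eq_of_le (not_lt.1 hcon) with h' | h'
    · have h3 := pos1 q hq p hp (by rw [dt_swap]; linarith)
      rw [dt_swap] at h3
      linarith
    · exact hG p hp q hq b hb hpq hpb hqb h'
  have cb : c ≠ b := fun h => hnot (h ▸ hb)
  refine ⟨c, hnot, ?_, ?_, ?_, ?_, hcopy⟩
  · -- general position
    have g2 : ∀ p ∈ P, ∀ q ∈ P, p ≠ q → dt p q c ≠ 0 := by
      intro p hp q hq hpq
      by_cases hpb : p = b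
      · subst hpb
        have := pos2 q hq hpq.symm
        have e1 : dt p q c = - dt p c q := by unfold dt; ring
        rw [e1]; linarith
      by_cases hqb : q = b
      · subst hqb
        have := pos2 p hp hpb
        have e1 : dt p q c = dt q c p := by unfold dt; ring
        rw [e1]; linarith
      rcases lt_or_gt_of_ne (hG p hp q hq b hb hpq hpb hqb) with h | h
      · exact ((hcopy.neg hp hq hpb hqb).1 h).ne
      · exact ((hcopy p hp q hq hpb hqb).1 h).ne'
    intro p hp q hq r hr hpq hpr hqr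
    rcases Finset.mem_insert.1 hp with rfl | hp <;> rcases Finset.mem_insert.1 hq with rfl | hq <;>
      rcases Finset.mem_insert.1 hr with rfl | hr
    · exact absurd rfl hpq
    · exact absurd rfl hpq
    · exact absurd rfl hpr
    · rw [← dt_rot]; exact g2 q hq r hr hqr
    · exact absurd rfl hqr
    · have := g2 r hr p hp hpr.symm
      rwa [← dt_rot'] 
    · exact g2 p hp q hq hpq
    · exact hG p hp q hq r hr hpq hpr hqr
  · refine ⟨Finset.mem_insert_of_mem hr1, Finset.mem_insert_of_mem hb, hr1b, ?_⟩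
    intro z hz hz1 hz2
    rcases Finset.mem_insert.1 hz with rfl | hz
    · have := pos2 r1 hr1 hr1b
      have e1 : dt r1 b c = dt b c r1 := by unfold dt; ring
      rw [e1]; exact this
    · exact z1 z hz hz1 hz2
  · refine ⟨Finset.mem_insert_of_mem hb, Finset.mem_insert_self _ _, cb.symm, ?_⟩
    intro z hz hz1 hz2
    rcases Finset.mem_insert.1 hz with rfl | hz
    · exact absurd rfl hz2
    · exact pos2 z hz hz1
  · refine ⟨Finset.mem_insert_self _ _, Finset.mem_insert_of_mem hr2, fun h => hnot (h ▸ hr2), ?_⟩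
    intro z hz hz1 hz2
    rcases Finset.mem_insert.1 hz with rfl | hz
    · exact absurd rfl hz1
    · by_cases hzb : z = b
      · subst hzb
        have := pos2 r2 hr2 hz2.symm
        have e1 : dt c r2 z = dt z c r2 := by unfold dt; ring
        rw [e1]; exact this
      · have h3 := z2 z hz hzb hz2
        have e1 : dt c r2 z = dt r2 z c := by unfold dt; ring
        have e2 : dt b r2 z = dt r2 z b := by unfold dt; ring
        rw [e1]
        rw [e2] at h3
        exact pos1 r2 hr2 z hz h3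

end Pool.Agent.TK
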