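import Pool.Agent.TK.Glue

/-!
# Tokunaga's problem: the exchange property and the exit change (for the linear run lemma)
-/

set_option autoImplicit false

namespace Pool.Agent.TK

/-- different points have different `x` coordinates -/
def DX (P : Finset Pt) : Prop := ∀ u ∈ P, ∀ v ∈ P, u ≠ v → u.1 ≠ v.1

/-- the edge `t w` leaves the run `Z` without meeting any segment of `Z` -/
def Free (τ : ℝ) (Z : Finset Pt) (t w : Pt) : Prop :=
  (∀ u ∈ Z, ∀ v ∈ Z, u.1 < t.1 → t.1 < v.1 → 0 < τ * dt u t v) ∧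
  (∀ v ∈ Z, t.1 < v.1 → τ * dt t v w < 0)

theorem Free.not_cross {P Z : Finset Pt} (hx : DX P) (hZ : Z ⊆ P) {τ : ℝ} {t w : Pt}
    (h : Free τ Z t w) (ht : t ∈ Z) (hw : ∀ z ∈ Z, z.1 < w.1) :
    ∀ u ∈ Z, ∀ v ∈ Z, ¬ Cross u v t w := by
  have key : ∀ u ∈ Z, ∀ v ∈ Z, u.1 ≤ v.1 → ¬ Cross u v t w := by
    intro u hu v hv huv
    have htw := hw t ht
    rcases le_or_gt v.1 t.1 with h1 | h1
    · exact not_cross_x t.1 (huv.trans h1) h1 le_rfl htw.le (by right; right; right; exact htw)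
    · rcases lt_trichotomy u.1 t.1 with h2 | h2 | h2
      · exact x4pn h2 h1 (hw v hv) (h.1 u hu v hv h2 h1) (h.2 v hv h1)
      · have : u = t := by
          by_contra hne
          exact hx u (hZ hu) t (hZ ht) hne h2
        rw [this]
        exact not_cross_share1
      · intro hc
        have a1 := h.2 v hv h1
        have a2 := h.2 u hu h2
        have h4 : 0 < τ * τ := by
          apply mul_self_pos.2
          rintro rfl
          linarith
        have h5 := hc.2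
        rw [dt_swap' t u w, dt_swap' t v w] at h5
        have h6 := mul_pos_of_neg_of_neg a2 a1
        have h7 := mul_pos_of_neg_of_neg (neg_lt_zero.2 h4) h5
        linarith [show τ * dt t u w * (τ * dt t v w) = τ * τ * (-dt t u w * -dt t v w) by ring]
  intro u hu v hv
  rcases le_total u.1 v.1 with h1 | h1
  · exact key u hu v hv h1
  · rw [cross_swap_left]
    exact key v hv u hu h1

/-- the tangent point from `w` -/
theorem exists_tangent {Z : Finset Pt} (hZ : Z.Nonempty) (τ : ℝ) (w : Pt) :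
    ∃ t ∈ Z, ∀ v ∈ Z, τ * sl v w ≤ τ * sl t w :=
  Finset.exists_max_image Z (fun v => τ * sl v w) hZ

theorem tangent_free {P Z : Finset Pt} (hG : GP P) (hZ : Z ⊆ P) {τ : ℝ} (hτ : τ ≠ 0) {t w : Pt}
    (ht : t ∈ Z) (hwP : w ∈ P) (hw : ∀ z ∈ Z, z.1 < w.1) (h : ∀ v ∈ Z, τ * sl v w ≤ τ * sl t w) :
    Free τ Z t w := by
  have h2 : ∀ v ∈ Z, t.1 < v.1 → τ * dt t v w < 0 := by
    intro v hv htv
    have := h v hv
    rcases tri hG hτ (hZ ht) (hZ hv) hwP htv (hw v hv) with ⟨g, -, -⟩ | ⟨-, g1, g2⟩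
    · exact g
    · linarith
  refine ⟨?_, h2⟩
  intro u hu v hv hut htv
  have a1 := neg_tri htv (hw v hv) (h2 v hv htv)
  have a2 := h u hu
  rcases tri hG hτ (hZ hu) (hZ ht) hwP hut (hw t ht) with ⟨-, g1, g2⟩ | ⟨-, g1, g2⟩
  · linarith
  · rcases tri hG hτ (hZ hu) (hZ ht) (hZ hv) hut htv with ⟨-, g3, g4⟩ | ⟨g, -, -⟩
    · linarith
    · exact g

/-- choice of an exit on the other side of `p y` -/
theorem sel1 {P Z : Finset Pt} (hG : GP P) (hZ : Z ⊆ P) {τ : ℝ} (hτ : τ ≠ 0) {p y w : Pt}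
    (hp : p ∈ P) (hy : y ∈ P) (hw : w ∈ P) (hpZ : ∀ z ∈ Z, p.1 < z.1) (hZy : ∀ z ∈ Z, z.1 < y.1)
    (hyw : y.1 < w.1) (h : τ * dt p y w < 0) (hT : ∃ t ∈ Z, 0 < τ * dt p t y) :
    ∃ t ∈ Z, 0 < τ * dt p t y ∧ Free τ Z t w := by
  classical
  have hZw : ∀ z ∈ Z, z.1 < w.1 := fun z hz => (hZy z hz).trans hyw
  obtain ⟨t0, ht0, ht0'⟩ := hT
  obtain ⟨t1, ht1, hm1⟩ := exists_tangent ⟨t0, ht0⟩ τ w
  by_cases hc : 0 < τ * dt p t1 y
  · exact ⟨t1, ht1, hc, tangent_free hG hZ hτ ht1 hw hZw hm1⟩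
  · set T := Z.filter (fun v => 0 < τ * dt p v y) with hTdef
    have hTne : T.Nonempty := ⟨t0, by rw [hTdef, Finset.mem_filter]; exact ⟨ht0, ht0'⟩⟩
    obtain ⟨t, ht, hmax⟩ := Finset.exists_max_image T
      (fun v => toLex ((τ * dt p v y, v.1) : ℝ × ℝ)) hTne
    rw [hTdef, Finset.mem_filter] at ht
    have hall : ∀ v ∈ Z, τ * dt p v y < τ * dt p t y ∨
        (τ * dt p v y = τ * dt p t y ∧ v.1 ≤ t.1) := by
      intro v hv
      by_cases hv0 : 0 < τ * dt p v y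
      · have := hmax v (by rw [hTdef, Finset.mem_filter]; exact ⟨hv, hv0⟩)
        rw [Prod.Lex.le_iff] at this
        simpa using this
      · left; linarith [ht.2]
    have hpy : p.1 < y.1 := (hpZ t ht.1).trans (hZy t ht.1)
    have ef : ∀ a b : Pt, a.1 < b.1 → dt p b y - dt p a y
        = (b.1 - a.1) * (y.1 - p.1) * (sl p y - sl a b) := by
      intro a b hab
      have h1 : b.1 - a.1 ≠ 0 := by linarith
      have h2 : y.1 - p.1 ≠ 0 := by linarith
      unfold dt sl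
      field_simp
      ring
    -- slope facts
    have hr : ∀ v ∈ Z, t.1 < v.1 → τ * sl p y < τ * sl t v := by
      intro v hv htv
      have h1 : τ * dt p v y < τ * dt p t y := by
        rcases hall v hv with h1 | h1
        · exact h1
        · linarith [h1.2]
      by_contra hcon
      have h2 : 0 ≤ τ * sl p y - τ * sl t v := by linarith
      have h3 : 0 ≤ (v.1 - t.1) * (y.1 - p.1) := mul_nonneg (by linarith) (by linarith)
      have h4 := mul_nonneg h3 h2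
      have h5 := ef t v htv
      have h6 : τ * dt p v y - τ * dt p t y
          = (v.1 - t.1) * (y.1 - p.1) * (τ * sl p y - τ * sl t v) := by
        rw [← mul_sub, h5]; ring
      linarith
    have hle : ∀ u ∈ Z, u.1 < t.1 → τ * sl u t ≤ τ * sl p y := by
      intro u hu hut
      have h1 : τ * dt p u y ≤ τ * dt p t y := by
        rcases hall u hu with h1 | h1
        · exact h1.le
        · exact h1.1.le
      by_contra hcon
      have h2 : 0 < τ * sl u t - τ * sl p y := by linarith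
      have h3 : 0 < (t.1 - u.1) * (y.1 - p.1) := mul_pos (by linarith) (by linarith)
      have h4 := mul_pos h3 h2
      have h5 := ef u t hut
      have h6 : τ * dt p t y - τ * dt p u y
          = (t.1 - u.1) * (y.1 - p.1) * (τ * sl p y - τ * sl u t) := by
        rw [← mul_sub, h5]; ring
      linarith
    -- the slope of `t1 w`
    have ht1w : τ * sl t1 w < τ * sl p y := by
      have a1 := neg_tri hpy hyw h
      rcases tri hG hτ hp (hZ ht1) hy (hpZ t1 ht1) (hZy t1 ht1) with ⟨-, g1, g2⟩ | ⟨g, -, -⟩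
      · rcases tri hG hτ (hZ ht1) hy hw (hZy t1 ht1) hyw with ⟨-, g3, g4⟩ | ⟨-, g3, g4⟩
        · linarith
        · linarith [a1.1, a1.2]
      · exact absurd g hc
    refine ⟨t, ht.1, ht.2, ?_, ?_⟩
    · intro u hu v hv hut htv
      have b1 := hr v hv htv
      have b2 := hle u hu hut
      rcases tri hG hτ (hZ hu) (hZ ht.1) (hZ hv) hut htv with ⟨-, g3, g4⟩ | ⟨g, -, -⟩
      · linarith
      · exact g
    · intro v hv htv
      have b1 := hr v hv htv
      have b2 := hm1 v hv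
      rcases tri hG hτ (hZ ht.1) (hZ hv) hw htv (hZw v hv) with ⟨g, -, -⟩ | ⟨-, g3, g4⟩
      · exact g
      · linarith

/-- a completion stays good when the exit before it is moved from `p` to `p''` -/
def Good (A B : Finset Pt) (p'' p : Pt) (σ : ℝ) (s y : Pt) (lB : List Pt) : Prop :=
  σ * dt p'' s y < 0 ∧ ∃ lA : List Pt, lA.head? = some s ∧
    ∀ q : Pt, q.1 < p''.1 → σ * dt q p s < 0 → 0 < σ * dt q p'' s → Gl q p'' A B lA lB

/-- the exchange property -/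
def XP (P A B : Finset Pt) (p : Pt) (σ : ℝ) (s : Pt) (lB : List Pt) : Prop :=
  ∀ y, lB.head? = some y → σ * dt p s y < 0 →
    (∀ p'' ∈ P, p''.1 < p.1 → σ * dt p'' p s < 0 → Good A B p'' p σ s y lB) ∨
    (∃ m ∈ P, ∃ y2 ∈ B, ∃ lB2 : List Pt, lB2.head? = some y2 ∧ s.1 < m.1 ∧ m.1 < y.1 ∧
      m.1 < y2.1 ∧ 0 < σ * dt p m y ∧ σ * sl m y2 ≤ σ * sl m y ∧
      ∀ p'' ∈ P, p''.1 < p.1 → σ * dt p'' p s < 0 →
        (0 < σ * dt p'' m y → Good A B p'' p σ s y lB) ∧
        (σ * dt p'' m y2 < 0 → Good A B p'' p σ s y2 lB2))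

/-- EXIT CHANGE -/
theorem exit_change {P : Finset Pt} (hG : GP P) (hx : DX P) {τ : ℝ} (hτ : τ ≠ 0)
    {Z A' B : Finset Pt} (hZ : Z ⊆ P) (hA' : A' ⊆ P) {p l y w : Pt} {lA' : List Pt} (hp : p ∈ P)
    (hpZ : ∀ z ∈ Z, p.1 < z.1) (hl : l ∈ Z) (hlm : ∀ z ∈ Z, z.1 ≤ l.1) (hy : y ∈ P)
    (hZy : ∀ z ∈ Z, z.1 < y.1) (hX : XP P B A' l τ y lA') (hw : lA'.head? = some w)
    (hwP : w ∈ P) (hyw : y.1 < w.1) (h1 : τ * dt p l y < 0) (h2 : τ * dt l y w < 0)
    (hT : ∃ t ∈ Z, 0 < τ * dt p t y) :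
    ∃ t ∈ Z, ∃ w' : Pt, ∃ lB'' lA'' : List Pt, 0 < τ * dt p t y ∧ lB''.head? = some y ∧
      lA''.head? = some w' ∧ Free τ Z t w' ∧ Gl p t B A' lB'' lA'' := by
  have hZw : ∀ z ∈ Z, z.1 < w.1 := fun z hz => (hZy z hz).trans hyw
  have hpy : p.1 < y.1 := (hpZ l hl).trans (hZy l hl)
  have a1 := neg_tri (hpZ l hl) (hZy l hl) h1
  have a2 := neg_tri (hZy l hl) hyw h2
  have h3 : τ * dt p y w < 0 := by
    rcases tri hG hτ hp hy hwP hpy hyw with ⟨g, -, -⟩ | ⟨-, g1, g2⟩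
    · exact g
    · linarith [a1.1, a1.2, a2.1, a2.2]
  -- every point on the other side may be used as an exit
  have hTt : ∀ t ∈ Z, 0 < τ * dt p t y → t.1 < l.1 ∧ τ * dt t l y < 0 := by
    intro t ht hpt
    have htl : t ≠ l := by rintro rfl; linarith
    have h4 : t.1 < l.1 := lt_of_le_of_ne (hlm t ht) (hx t (hZ ht) l (hZ hl) htl)
    refine ⟨h4, ?_⟩
    have b1 := pos_tri (hpZ t ht) (hZy t ht) hpt
    rcases tri hG hτ (hZ ht) (hZ hl) hy h4 (hZy l hl) with ⟨g, -, -⟩ | ⟨-, g1, g2⟩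
    · exact g
    · linarith [a1.1, a1.2, b1.1, b1.2]
  obtain ⟨t0, ht0, hpt0, hF0⟩ := sel1 hG hZ hτ hp hy hwP hpZ hZy hyw h3 hT
  have hfin : ∀ t ∈ Z, 0 < τ * dt p t y → ∀ (w' : Pt) (lA'' : List Pt), lA''.head? = some w' →
      Free τ Z t w' → Good B A' t l τ y w' lA'' →
      ∃ t ∈ Z, ∃ w' : Pt, ∃ lB'' lA'' : List Pt, 0 < τ * dt p t y ∧ lB''.head? = some y ∧
      lA''.head? = some w' ∧ Free τ Z t w' ∧ Gl p t B A' lB'' lA'' := by
    intro t ht hpt w' lA'' hw' hF hg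
    obtain ⟨-, lB'', hh, hq⟩ := hg
    exact ⟨t, ht, w', lB'', lA'', hpt, hh, hw', hF, hq p (hpZ t ht) h1 hpt⟩
  rcases hX w hw h2 with hP1 | ⟨m, hm, w2, hw2, lA2, hlA2, hym, hmw, hmw2, hlm', hK, hP2⟩
  · have := hTt t0 ht0 hpt0
    exact hfin t0 ht0 hpt0 w lA' hw hF0 (hP1 t0 (hZ ht0) this.1 this.2)
  · have hw2P : w2 ∈ P := hA' hw2
    have hyw2 : y.1 < w2.1 := hym.trans hmw2
    have hZw2 : ∀ z ∈ Z, z.1 < w2.1 := fun z hz => (hZy z hz).trans hyw2
    have hZm : ∀ z ∈ Z, z.1 < m.1 := fun z hz => (hZy z hz).trans hym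
    have ht0' := hTt t0 ht0 hpt0
    have hP20 := hP2 t0 (hZ ht0) ht0'.1 ht0'.2
    rcases tri hG hτ (hZ ht0) hm hwP (hZm t0 ht0) hmw with ⟨g, g1, g2⟩ | ⟨g, -, -⟩
    · -- switch
      have hsw : τ * dt t0 m w2 < 0 := by
        rcases tri hG hτ (hZ ht0) hm hw2P (hZm t0 ht0) hmw2 with ⟨g', -, -⟩ | ⟨-, g3, g4⟩
        · exact g'
        · linarith
      have hgood := hP20.2 hsw
      by_cases hF2 : Free τ Z t0 w2
      · exact hfin t0 ht0 hpt0 w2 lA2 hlA2 hF2 hgood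
      · -- a point of `Z` right of `t0` below `t0 w2`
        have hex : ∃ v ∈ Z, t0.1 < v.1 ∧ 0 < τ * dt t0 v w2 := by
          by_contra hcon
          push Not at hcon
          apply hF2
          refine ⟨hF0.1, ?_⟩
          intro v hv htv
          rcases tri hG hτ (hZ ht0) (hZ hv) hw2P htv (hZw2 v hv) with ⟨g', -, -⟩ | ⟨g', -, -⟩
          · exact g'
          · exact absurd (hcon v hv htv) (not_le.2 g')
        obtain ⟨v, hv, htv, hvw⟩ := hex
        obtain ⟨t2, ht2, hm2⟩ := exists_tangent ⟨t0, ht0⟩ τ w2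
        have hF2' := tangent_free hG hZ hτ ht2 hw2P hZw2 hm2
        have c1 := pos_tri htv (hZw2 v hv) hvw
        have c2 := hm2 v hv
        have c3 := neg_tri (hZy t0 ht0) hyw2 hgood.1
        have c4 := pos_tri (hpZ t0 ht0) (hZy t0 ht0) hpt0
        have c5 := neg_tri (hZm t0 ht0) hmw2 hsw
        have hne : t2 ≠ t0 := by
          rintro rfl
          linarith [c1.1, c1.2]
        have ht02 : t0.1 < t2.1 := by
          by_contra hcon
          have h20 : t2.1 < t0.1 :=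
            lt_of_le_of_ne (not_lt.1 hcon) (hx t2 (hZ ht2) t0 (hZ ht0) hne)
          have d1 := hF0.1 t2 ht2 v hv h20 htv
          have d2 := pos_tri h20 htv d1
          rcases tri hG hτ (hZ ht2) (hZ ht0) hw2P h20 (hZw2 t0 ht0) with
            ⟨-, g3, g4⟩ | ⟨-, g3, g4⟩
          · linarith [c1.1, c1.2, d2.1, d2.2]
          · linarith [c1.1, c1.2, d2.1, d2.2]
        have e1 : τ * sl t0 t2 < τ * sl t0 w2 ∧ τ * sl t0 w2 < τ * sl t2 w2 := by
          rcases tri hG hτ (hZ ht0) (hZ ht2) hw2P ht02 (hZw2 t2 ht2) with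
            ⟨-, g3, g4⟩ | ⟨-, g3, g4⟩
          · linarith [c1.1, c1.2]
          · exact ⟨g3, g4⟩
        have hpt2 : 0 < τ * dt p t2 y := by
          rcases tri hG hτ hp (hZ ht2) hy (hpZ t2 ht2) (hZy t2 ht2) with
            ⟨-, g3, g4⟩ | ⟨g', -, -⟩
          · rcases tri hG hτ (hZ ht0) (hZ ht2) hy ht02 (hZy t2 ht2) with
              ⟨-, g5, g6⟩ | ⟨-, g5, g6⟩
            · linarith [e1.1, e1.2, c3.1, c3.2]
            · linarith [c4.1, c4.2]
          · exact g'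
        have ht2m : τ * dt t2 m w2 < 0 := by
          rcases tri hG hτ (hZ ht2) hm hw2P (hZm t2 ht2) hmw2 with ⟨g', -, -⟩ | ⟨-, g3, g4⟩
          · exact g'
          · linarith [c5.1, c5.2, e1.1, e1.2]
        have ht2' := hTt t2 ht2 hpt2
        have hP22 := hP2 t2 (hZ ht2) ht2'.1 ht2'.2
        exact hfin t2 ht2 hpt2 w2 lA2 hlA2 hF2' (hP22.2 ht2m)
    · -- keep
      exact hfin t0 ht0 hpt0 w lA' hw hF0 (hP20.1 g)

end Pool.Agent.TK
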