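import Pool.Agent.TK.Top
import Pool.Agent.TK.C1
import Pool.Agent.TK.SPab
import Pool.Agent.TK.GDPL
import Pool.Agent.TK.BothFail
import Pool.Agent.TK.HPLemma
import Pool.Agent.TK.Slant

/-!
# Tokunaga's problem: the statement (C1)
-/

set_option autoImplicit false

namespace Pool.Agent.TK

theorem gdplStmt : GDPLStmt := gdpl spa spb slant

/-- every monochromatic hull edge can be prescribed -/
theorem c1Stmt : C1Stmt := fun R B x y hG hd hR hx hy he =>
  c1 sstmt gdplStmt bf hp B.card R B x y rfl hG hd (Finset.card_pos.1 (by omega)) hx hy he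

end Pool.Agent.TK
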