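import Pool.Agent.TK.Reduce

/-!
# Tokunaga's problem: primitive geometry (separation, hull edges, angular order)
-/

set_option autoImplicit false

namespace Pool.Agent.TK

/-- linear functional -/
def fn (a : Pt) (x : Pt) : ℝ := a.1 * x.1 + a.2 * x.2

theorem fn_combo (a x y : Pt) (s t : ℝ) : fn a (s • x + t • y) = s * fn a x + t * fn a y := by
  unfold fn; simp; ring

/-- `dt u v` is an affine functional -/
theorem dt_eq_fn (u v x : Pt) :
    dt u v x = fn (-(v.2 - u.2), v.1 - u.1) x - fn (-(v.2 - u.2), v.1 - u.1) u := by
  unfold dt fn; simp; ring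

/-- crossing segments have a common interior point -/
theorem Cross.exists_inter {p q r s : Pt} (h : Cross p q r s) :
    ∃ a b c d : ℝ, 0 < a ∧ 0 < b ∧ a + b = 1 ∧ 0 < c ∧ 0 < d ∧ c + d = 1 ∧
      a • p + b • q = c • r + d • s := by
  obtain ⟨h1, h2⟩ := h
  have e1 : dt p q r - dt p q s = dt r s q - dt r s p := by unfold dt; ring
  have hneA : dt p q r - dt p q s ≠ 0 := by
    intro h0
    have : dt p q r = dt p q s := by linarith
    rw [this] at h1; nlinarith [mul_self_nonneg (dt p q s)]
  have hneB : dt r s q - dt r s p ≠ 0 := by rw [← e1]; exact hneA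
  have hP1 : dt p q r / (dt p q r - dt p q s) > 0 := by
    rcases mul_neg_iff.1 h1 with ⟨u, v⟩ | ⟨u, v⟩
    · exact div_pos u (by linarith)
    · exact div_pos_of_neg_of_neg u (by linarith)
  have hP2 : -dt p q s / (dt p q r - dt p q s) > 0 := by
    rcases mul_neg_iff.1 h1 with ⟨u, v⟩ | ⟨u, v⟩
    · exact div_pos (by linarith) (by linarith)
    · exact div_pos_of_neg_of_neg (by linarith) (by linarith)
  have hP3 : dt r s q / (dt r s q - dt r s p) > 0 := by
    rcases mul_neg_iff.1 h2 with ⟨u, v⟩ | ⟨u, v⟩
    · exact div_pos_of_neg_of_neg v (by linarith)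
    · exact div_pos v (by linarith)
  have hP4 : -dt r s p / (dt r s q - dt r s p) > 0 := by
    rcases mul_neg_iff.1 h2 with ⟨u, v⟩ | ⟨u, v⟩
    · exact div_pos_of_neg_of_neg (by linarith) (by linarith)
    · exact div_pos (by linarith) (by linarith)
  refine ⟨dt r s q / (dt r s q - dt r s p), -dt r s p / (dt r s q - dt r s p),
    -dt p q s / (dt p q r - dt p q s), dt p q r / (dt p q r - dt p q s), hP3, hP4, ?_, hP2, hP1, ?_, ?_⟩
  · rw [← add_div, div_eq_one_iff_eq hneB]; ring
  · rw [← add_div, div_eq_one_iff_eq hneA]; ring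
  · have hD : dt r s q - dt r s p = dt p q r - dt p q s := e1.symm
    rw [hD]
    have key1 : dt r s q * p.1 + -dt r s p * q.1 = -dt p q s * r.1 + dt p q r * s.1 := by
      unfold dt; ring
    have key2 : dt r s q * p.2 + -dt r s p * q.2 = -dt p q s * r.2 + dt p q r * s.2 := by
      unfold dt; ring
    ext
    · simp only [Prod.fst_add, Prod.smul_fst, smul_eq_mul]
      field_simp
      linarith [key1]
    · simp only [Prod.snd_add, Prod.smul_snd, smul_eq_mul]
      field_simp
      linarith [key2]

/-- SEPARATION: a line strictly separates the open segments -/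
theorem not_cross_of_sep (a : Pt) (c : ℝ) {p q r s : Pt} (h1 : c ≤ fn a p) (h2 : c ≤ fn a q)
    (h3 : fn a r ≤ c) (h4 : fn a s ≤ c) (h5 : c < fn a p ∨ c < fn a q ∨ fn a r < c ∨ fn a s < c) :
    ¬ Cross p q r s := by
  intro h
  obtain ⟨x, y, z, w, hx, hy, hxy, hz, hw, hzw, hE⟩ := h.exists_inter
  have e := congrArg (fn a) hE
  rw [fn_combo, fn_combo] at e
  have i1 : x * c ≤ x * fn a p := mul_le_mul_of_nonneg_left h1 hx.le
  have i2 : y * c ≤ y * fn a q := mul_le_mul_of_nonneg_left h2 hy.le
  have i3 : z * fn a r ≤ z * c := mul_le_mul_of_nonneg_left h3 hz.le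
  have i4 : w * fn a s ≤ w * c := mul_le_mul_of_nonneg_left h4 hw.le
  have i5 : x * c + y * c = c := by rw [← add_mul, hxy, one_mul]
  have i6 : z * c + w * c = c := by rw [← add_mul, hzw, one_mul]
  rcases h5 with h5 | h5 | h5 | h5
  · have := mul_lt_mul_of_pos_left h5 hx; linarith
  · have := mul_lt_mul_of_pos_left h5 hy; linarith
  · have := mul_lt_mul_of_pos_left h5 hz; linarith
  · have := mul_lt_mul_of_pos_left h5 hw; linarith

/-- both end points of an edge on the same side of a line `p q`: no crossing -/
theorem not_cross_of_same_side {p q r s : Pt} (h : 0 ≤ dt p q r * dt p q s) : ¬ Cross p q r s :=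
  fun hc => absurd hc.1 (not_lt.2 h)

theorem not_cross_of_left {p q r s : Pt} (h1 : 0 ≤ dt p q r) (h2 : 0 ≤ dt p q s) :
    ¬ Cross p q r s := not_cross_of_same_side (mul_nonneg h1 h2)

theorem not_cross_of_right {p q r s : Pt} (h1 : dt p q r ≤ 0) (h2 : dt p q s ≤ 0) :
    ¬ Cross p q r s := not_cross_of_same_side (mul_nonneg_of_nonpos_of_nonpos h1 h2)

theorem not_cross_share1 {p q s : Pt} : ¬ Cross p q p s := fun h => h.ne.2.1 rfl
theorem not_cross_share2 {p q s : Pt} : ¬ Cross p q s p := fun h => h.ne.2.2.1 rfl
theorem not_cross_share3 {p q s : Pt} : ¬ Cross p q q s := fun h => h.ne.2.2.2.1 rfl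
theorem not_cross_share4 {p q s : Pt} : ¬ Cross p q s q := fun h => h.ne.2.2.2.2.1 rfl

/-! ### angular order around a point -/

/-- all points of `P` lie in the open half plane `fn a > fn a z` -/
def Half (a z : Pt) (P : Finset Pt) : Prop := ∀ x ∈ P, fn a z < fn a x

/-- around `z`, seen in a half plane, the relation `dt z x y > 0` is transitive -/
theorem ang_trans {a z x y w : Pt} (hx : fn a z < fn a x) (hy : fn a z < fn a y)
    (hw : fn a z < fn a w) (h1 : 0 < dt z x y) (h2 : 0 < dt z y w) : 0 < dt z x w := by
  have key : dt z x w * (fn a y - fn a z) =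
      dt z x y * (fn a w - fn a z) + dt z y w * (fn a x - fn a z) := by
    unfold dt fn; ring
  have : 0 < dt z x w * (fn a y - fn a z) := by
    rw [key]
    exact add_pos (mul_pos h1 (by linarith)) (mul_pos h2 (by linarith))
  exact pos_of_mul_pos_of_pos_right this (by linarith)
where
  pos_of_mul_pos_of_pos_right {u v : ℝ} (h : 0 < u * v) (hv : 0 < v) : 0 < u := by
    by_contra hu
    push Not at hu
    nlinarith [mul_nonneg_of_nonpos_of_nonpos hu (le_refl (0:ℝ)), mul_le_mul_of_nonneg_right hu hv.le]

/-- the point `x` is before `y` around `z` -/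
def Bef (z x y : Pt) : Prop := 0 < dt z x y

theorem Bef.irrefl (z x : Pt) : ¬ Bef z x x := by unfold Bef; simp
theorem Bef.asymm {z x y : Pt} (h : Bef z x y) : ¬ Bef z y x := by
  unfold Bef at *; rw [dt_swap' z x y]; linarith

/-- existence of sorted lists for strict total orders on finite sets -/
theorem exists_sorted {α : Type*} [DecidableEq α] (r : α → α → Prop) (S : Finset α)
    (tr : ∀ x ∈ S, ∀ y ∈ S, ∀ z ∈ S, r x y → r y z → r x z)
    (tot : ∀ x ∈ S, ∀ y ∈ S, x ≠ y → r x y ∨ r y x) (irr : ∀ x ∈ S, ¬ r x x) :
    ∃ l : List α, l.Nodup ∧ l.toFinset = S ∧ l.Pairwise r := by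
  classical
  induction S using Finset.strongInduction with
  | H S ih =>
    rcases S.eq_empty_or_nonempty with rfl | hne
    · exact ⟨[], by simp, by simp, List.Pairwise.nil⟩
    · -- a minimal element
      have hmin : ∃ m ∈ S, ∀ x ∈ S, x ≠ m → r m x := by
        have : ∀ T : Finset α, T ⊆ S → T.Nonempty → ∃ m ∈ T, ∀ x ∈ T, x ≠ m → r m x := by
          intro T
          induction T using Finset.induction_on with
          | empty => intro _ h; exact absurd h (by simp)
          | insert a T ha ihT =>
            intro hTS _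
            rcases T.eq_empty_or_nonempty with rfl | hT
            · refine ⟨a, by simp, ?_⟩
              intro x hx hxa
              simp at hx; exact absurd hx hxa
            · obtain ⟨m, hm, hmin⟩ := ihT (fun x hx => hTS (Finset.mem_insert_of_mem hx)) hT
              have haS := hTS (Finset.mem_insert_self _ _)
              have hmS := hTS (Finset.mem_insert_of_mem hm)
              have ham : a ≠ m := fun h => ha (h ▸ hm)
              rcases tot a haS m hmS ham with h | h
              · refine ⟨a, Finset.mem_insert_self _ _, ?_⟩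
                intro x hx hxa
                rcases Finset.mem_insert.1 hx with rfl | hx
                · exact absurd rfl hxa
                · by_cases hxm : x = m
                  · subst hxm; exact h
                  · exact tr a haS m hmS x (hTS (Finset.mem_insert_of_mem hx)) h (hmin x hx hxm)
              · refine ⟨m, Finset.mem_insert_of_mem hm, ?_⟩
                intro x hx hxm
                rcases Finset.mem_insert.1 hx with rfl | hx
                · exact h
                · exact hmin x hx hxm
        exact this S (Finset.Subset.refl _) hne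
      obtain ⟨m, hm, hmin⟩ := hmin
      obtain ⟨l, hl1, hl2, hl3⟩ := ih (S.erase m) (Finset.erase_ssubset hm)
        (fun x hx y hy z hz => tr x (Finset.mem_of_mem_erase hx) y (Finset.mem_of_mem_erase hy) z
          (Finset.mem_of_mem_erase hz))
        (fun x hx y hy => tot x (Finset.mem_of_mem_erase hx) y (Finset.mem_of_mem_erase hy))
        (fun x hx => irr x (Finset.mem_of_mem_erase hx))
      have hml : m ∉ l := by
        intro h
        have : m ∈ l.toFinset := List.mem_toFinset.2 h
        rw [hl2] at this
        simp at this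
      refine ⟨m :: l, List.nodup_cons.2 ⟨hml, hl1⟩, ?_, List.pairwise_cons.2 ⟨?_, hl3⟩⟩
      · rw [List.toFinset_cons, hl2, Finset.insert_erase hm]
      · intro x hx
        have : x ∈ l.toFinset := List.mem_toFinset.2 hx
        rw [hl2] at this
        exact hmin x (Finset.mem_of_mem_erase this) (Finset.ne_of_mem_erase this)

/-- angular sorting around `z` of a set seen in a half plane -/
theorem exists_angular {a z : Pt} {P : Finset Pt} (hH : Half a z P)
    (hG : ∀ x ∈ P, ∀ y ∈ P, x ≠ y → dt z x y ≠ 0) :
    ∃ l : List Pt, l.Nodup ∧ l.toFinset = P ∧ l.Pairwise (Bef z) := by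
  apply exists_sorted
  · intro x hx y hy w hw h1 h2
    exact ang_trans (hH x hx) (hH y hy) (hH w hw) h1 h2
  · intro x hx y hy hxy
    rcases lt_or_gt_of_ne (hG x hx y hy hxy) with h | h
    · right; unfold Bef; rw [dt_swap' z x y]; linarith
    · left; exact h
  · intro x _; exact Bef.irrefl z x

/-- the path through angularly sorted points (all angles less than pi) is not self crossing,
and does not cross a segment from `z` to any point ... : chain version -/
theorem not_cross_angular {a z p q r s : Pt} (hp : fn a z < fn a p) (hq : fn a z < fn a q)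
    (hr : fn a z < fn a r) (hs : fn a z < fn a s) (h1 : 0 < dt z p q) (h2 : 0 < dt z q r ∨ q = r)
    (h3 : 0 < dt z r s) : ¬ Cross p q r s := by
  -- separated by the line z q (or z r)
  have e1 : 0 ≤ dt z q r := by
    rcases h2 with h2 | h2
    · exact h2.le
    · rw [h2]; simp
  have e2 : 0 < dt z q s := by
    rcases h2 with h2 | h2
    · exact ang_trans hq hr hs h2 h3
    · rw [h2]; exact h3
  have e3 : dt z q p < 0 := by rw [dt_swap' z p q]; linarith
  have H := not_cross_of_sep (-(q.2 - z.2), q.1 - z.1) (fn (-(q.2 - z.2), q.1 - z.1) z)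
    (p := r) (q := s) (r := p) (s := q) ?_ ?_ ?_ ?_ ?_
  · exact fun h => H h.symm
  · have := dt_eq_fn z q r; linarith
  · have := dt_eq_fn z q s; linarith
  · have := dt_eq_fn z q p; linarith
  · have := dt_eq_fn z q q; rw [dt_self_right] at this; linarith
  · right; left
    have := dt_eq_fn z q s; linarith

end Pool.Agent.TK
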