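import Pool.Agent.TK.Slope

/-!
# Tokunaga's problem: pairs of chains and the gluing step (for the linear run lemma)
-/

set_option autoImplicit false

namespace Pool.Agent.TK

theorem not_cross_lt {p q r s : Pt} (h1 : p.1 < r.1) (h2 : p.1 < s.1) (h3 : q.1 < r.1)
    (h4 : q.1 < s.1) : ¬ Cross p q r s := by
  apply not_cross_x (max p.1 q.1)
  · exact le_max_left _ _
  · exact le_max_right _ _
  · exact (max_lt h1 h3).le
  · exact (max_lt h2 h4).le
  · right; right; left; exact max_lt h1 h3

theorem pe_join {l m : List Pt} {t : Pt} (h : l.getLast? = some t) :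
    pe (l ++ m) = pe l ++ pe (t :: m) := by
  rcases List.eq_nil_or_concat l with rfl | ⟨l', c, rfl⟩
  · simp at h
  · have : c = t := by simpa using h
    subst this
    rw [List.concat_eq_append, List.append_assoc, List.singleton_append, pe_append]

/-- condition on the last edge of the chain `q :: lA` -/
def Tail (q : Pt) (lA lB : List Pt) : Prop := ∀ u z, (pe (q :: lA)).getLast? = some (u, z) →
  (∃ x ∈ lB.dropLast, ∀ x' ∈ lA.dropLast, x'.1 < x.1) ∨ (∀ x ∈ lB.dropLast, x.1 < u.1)

/-- two chains `q :: lA`, `p :: lB` -/
structure Gl (q p : Pt) (A B : Finset Pt) (lA lB : List Pt) : Prop where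
  ndA : lA.Nodup
  tsA : lA.toFinset = A
  ndB : lB.Nodup
  tsB : lB.toFinset = B
  ncA : (pe (q :: lA)).Pairwise (fun e f => ¬ CrossE e f)
  ncB : (pe (p :: lB)).Pairwise (fun e f => ¬ CrossE e f)
  cA : ∀ e ∈ pe (q :: lA), cnt e (pe (p :: lB)) ≤ 2
  cB : ∀ f ∈ pe (p :: lB), cnt f (pe (q :: lA)) ≤ 2
  laA : ∀ z, lA.getLast? = some z → ∀ x ∈ A, x.1 ≤ z.1
  laB : ∀ z, lB.getLast? = some z → ∀ x ∈ B, x.1 ≤ z.1
  tA : Tail q lA lB
  tB : Tail p lB lA

theorem Gl.memA {q p : Pt} {A B : Finset Pt} {lA lB : List Pt} (h : Gl q p A B lA lB) {x : Pt} :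
    x ∈ lA ↔ x ∈ A := by rw [← h.tsA, List.mem_toFinset]

theorem Gl.memB {q p : Pt} {A B : Finset Pt} {lA lB : List Pt} (h : Gl q p A B lA lB) {x : Pt} :
    x ∈ lB ↔ x ∈ B := by rw [← h.tsB, List.mem_toFinset]

/-- the base case: one point left -/
theorem Gl.base (q p f : Pt) : Gl q p {f} ∅ [f] [] := by
  refine ⟨by simp, by simp, by simp, by simp, by simp, by simp, ?_, ?_, ?_, ?_, ?_, ?_⟩
  · intro e he; simp [cnt]
  · intro e he; simp at he
  · intro z hz x hx
    simp at hz hx
    rw [← hz, hx]
  · intro z hz; simp at hz
  · intro u z h; right; intro x hx; simp at hx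
  · intro u z h; simp at h

/-- THE GLUING STEP -/
theorem glue {q p t : Pt} {V A' B : Finset Pt} {l lA' lB : List Pt}
    (hG : Gl p t B A' lB lA') (hP : HamPath (insert q V) q t (q :: l)) (hqV : q ∉ V)
    (hVB : ∀ v ∈ insert q V, ∀ b ∈ B, v.1 < b.1) (hVA : ∀ v ∈ insert q V, ∀ a ∈ A', v.1 < a.1)
    (hpA : ∀ a ∈ A', p.1 < a.1)
    (hy : ∀ y, lB.head? = some y → ∀ a ∈ A', y.1 < a.1)
    (hw : ∀ w, lA'.head? = some w → ∀ e ∈ pe (q :: l), ¬ CrossE e (t, w))
    (hc : ∀ y, lB.head? = some y →
      cnt (p, y) (pe (q :: l)) + cnt (p, y) (pe (t :: lA'.take 1)) ≤ 2)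
    (ht : lA' = [] → ∀ v ∈ V, v.1 ≤ t.1)
    (hLO : lA' = [] → ∃ f, lB = [f]) :
    Gl q p (V ∪ A') B (l ++ lA') lB := by
  classical
  have hVl : ∀ x, x ∈ l ↔ x ∈ V := by
    intro x
    have h1 := hP.mem (x := x)
    have h2 := (List.nodup_cons.1 hP.nd).1
    rw [List.mem_cons, Finset.mem_insert] at h1
    constructor
    · intro hx
      rcases h1.1 (Or.inr hx) with h | h
      · rw [h] at hx; exact absurd hx h2
      · exact h
    · intro hx
      rcases h1.2 (Or.inr hx) with h | h
      · rw [h] at hx; exact absurd hx hqV
      · exact h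
  have hpe : pe (q :: (l ++ lA')) = pe (q :: l) ++ pe (t :: lA') := by
    rw [← List.cons_append]; exact pe_join hP.la
  have e1 : ∀ e ∈ pe (q :: l), (∀ b ∈ B, e.1.1 < b.1 ∧ e.2.1 < b.1) ∧
      (∀ a ∈ A', e.1.1 < a.1 ∧ e.2.1 < a.1) := by
    intro e he
    have := mem_of_mem_pe he
    have m1 := hP.mem.1 this.1
    have m2 := hP.mem.1 this.2
    exact ⟨fun b hb => ⟨hVB _ m1 b hb, hVB _ m2 b hb⟩, fun a ha => ⟨hVA _ m1 a ha, hVA _ m2 a ha⟩⟩
  refine ⟨?_, ?_, hG.ndA, hG.tsA, ?_, hG.ncA, ?_, ?_, ?_, hG.laA, ?_, ?_⟩
  · rw [List.nodup_append]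
    refine ⟨(List.nodup_cons.1 hP.nd).2, hG.ndB, ?_⟩
    intro a ha b hb hab
    have := hVA a (Finset.mem_insert_of_mem ((hVl a).1 ha)) b (hG.memB.1 hb)
    rw [hab] at this
    exact lt_irrefl _ this
  · ext x
    rw [List.mem_toFinset, List.mem_append, Finset.mem_union, hVl, hG.memB]
  · rw [hpe, List.pairwise_append]
    refine ⟨hP.nc, hG.ncB, ?_⟩
    intro e he f hf
    cases hl : lA' with
    | nil => rw [hl] at hf; simp at hf
    | cons w r =>
      rw [hl, pe_cons_cons, List.mem_cons] at hf
      rcases hf with rfl | hf
      · exact hw w (by rw [hl]; rfl) e he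
      · have := mem_of_mem_pe hf
        rw [← hl] at this
        have a1 := hG.memB.1 this.1
        have a2 := hG.memB.1 this.2
        have := (e1 e he).2
        exact not_cross_lt (this _ a1).1 (this _ a2).1 (this _ a1).2 (this _ a2).2
  · intro e he
    rw [hpe, List.mem_append] at he
    rcases he with he | he
    · cases hl : lB with
      | nil => simp [cnt]
      | cons y r =>
        rw [pe_cons_cons, lcnt_cons]
        have h0 : cnt e (pe (y :: r)) = 0 := by
          apply lcnt_zero
          intro f hf
          have := mem_of_mem_pe hf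
          rw [← hl] at this
          have a1 := hG.memA.1 this.1
          have a2 := hG.memA.1 this.2
          have := (e1 e he).1
          exact not_cross_lt (this _ a1).1 (this _ a2).1 (this _ a1).2 (this _ a2).2
        have := cnt_single_le e (p, y)
        omega
    · exact hG.cB e he
  · intro f hf
    rw [hpe, lcnt_append]
    cases hl : lB with
    | nil => rw [hl] at hf; simp at hf
    | cons y r =>
      have hyB : y ∈ B := hG.memA.1 (by rw [hl]; simp)
      rw [hl, pe_cons_cons, List.mem_cons] at hf
      rcases hf with rfl | hf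
      · have h1 := hc y (by rw [hl]; rfl)
        cases hk : lA' with
        | nil => rw [hk] at h1; simpa using h1
        | cons w r' =>
          rw [hk] at h1
          simp only [List.take_succ_cons, List.take_zero, pe_cons_cons, pe_single] at h1
          rw [pe_cons_cons, lcnt_cons]
          have h0 : cnt (p, y) (pe (w :: r')) = 0 := by
            apply lcnt_zero
            intro g hg
            have := mem_of_mem_pe hg
            rw [← hk] at this
            have a1 := hG.memB.1 this.1
            have a2 := hG.memB.1 this.2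
            have hy' := hy y (by rw [hl]; rfl)
            exact not_cross_lt (hpA _ a1) (hpA _ a2) (hy' _ a1) (hy' _ a2)
          omega
      · have h0 : cnt f (pe (q :: l)) = 0 := by
          apply lcnt_zero
          intro e he hce
          have := mem_of_mem_pe hf
          rw [← hl] at this
          have a1 := hG.memA.1 this.1
          have a2 := hG.memA.1 this.2
          have := (e1 e he).1
          exact not_cross_lt (this _ a1).1 (this _ a2).1 (this _ a1).2 (this _ a2).2 hce.symm
        have h1 := hG.cA f (by rw [hl, pe_cons_cons]; exact List.mem_cons_of_mem _ hf)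
        omega
  · intro z hz x hx
    rw [Finset.mem_union] at hx
    rw [List.getLast?_append] at hz
    cases hk : lA' with
    | nil =>
      rw [hk] at hz
      simp only [List.getLast?_nil, Option.none_or] at hz
      have hA' : A' = ∅ := by rw [← hG.tsB, hk]; simp
      have hzt : z = t := by
        have h1 := hP.la
        cases l with
        | nil => simp at hz
        | cons c l => rw [List.getLast?_cons_cons] at h1; rw [hz] at h1; simpa using h1
      rw [hA'] at hx
      simp at hx
      rw [hzt]
      exact ht hk x hx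
    | cons w r' =>
      have h2 : ∃ z', lA'.getLast? = some z' := by
        rw [hk]; exact ⟨_, List.getLast?_eq_getLast_of_ne_nil (by simp)⟩
      obtain ⟨z', hz'⟩ := h2
      rw [hz'] at hz
      simp only [Option.some_or, Option.some.injEq] at hz
      subst hz
      have hzA : z' ∈ A' := hG.memB.1 (List.mem_of_getLast? hz')
      rcases hx with hx | hx
      · exact (hVA x (Finset.mem_insert_of_mem hx) z' hzA).le
      · exact hG.laB z' hz' x hx
  · intro u z huz
    cases hk : lA' with
    | nil =>
      obtain ⟨f, hf⟩ := hLO hk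
      right; intro x hx; rw [hf] at hx; simp at hx
    | cons w r' =>
      rw [hpe, List.getLast?_append] at huz
      have h2 : ∃ z', (pe (t :: lA')).getLast? = some z' := by
        rw [hk, pe_cons_cons]; exact ⟨_, List.getLast?_eq_getLast_of_ne_nil (by simp)⟩
      obtain ⟨z', hz'⟩ := h2
      have h3 := hz'
      rw [hz'] at huz
      simp only [Option.some_or, Option.some.injEq] at huz
      rw [huz] at hz'
      rcases hG.tB u z hz' with ⟨x, hx, h⟩ | h
      · left
        refine ⟨x, hx, ?_⟩
        intro x' hx'
        rw [List.dropLast_append_of_ne_nil (by simp), List.mem_append] at hx'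
        rcases hx' with hx' | hx'
        · exact hVB x' (Finset.mem_insert_of_mem ((hVl x').1 hx')) x
            (hG.memA.1 (List.mem_of_mem_dropLast hx))
        · exact h x' (by rw [hk]; exact hx')
      · right; exact h
  · intro u z huz
    by_cases hd : (l ++ lA').dropLast = []
    · right; rw [hd]; simp
    · obtain ⟨x0, hx0⟩ := List.exists_mem_of_ne_nil _ hd
      by_cases hd2 : lB.dropLast = []
      · left; refine ⟨x0, hx0, ?_⟩; rw [hd2]; simp
      · have hk : lA' ≠ [] := by
          intro hk
          obtain ⟨f, hf⟩ := hLO hk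
          rw [hf] at hd2; simp at hd2
        rcases hG.tA u z huz with ⟨x, hx, h⟩ | h
        · left
          refine ⟨x, ?_, h⟩
          rw [List.dropLast_append_of_ne_nil hk, List.mem_append]
          exact Or.inr hx
        · right
          intro x hx
          rw [List.dropLast_append_of_ne_nil hk, List.mem_append] at hx
          rcases hx with hx | hx
          · -- u is a point of `lB`
            have hu : u ∈ lB := by
              cases hl : lB with
              | nil => rw [hl] at huz; simp at huz
              | cons y r =>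
                cases hr : r with
                | nil => rw [hl, hr] at hd2; simp at hd2
                | cons y2 r2 =>
                  rw [hl, hr, pe_cons_cons, pe_cons_cons, List.getLast?_cons_cons,
                    ← pe_cons_cons] at huz
                  have := mem_of_mem_pe (List.mem_of_getLast? huz)
                  exact this.1
            exact hVB x (Finset.mem_insert_of_mem ((hVl x).1 hx)) u (hG.memA.1 hu)
          · exact h x hx

end Pool.Agent.TK
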