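import Pool.Agent.TK.Geom

/-!
# Tokunaga's problem: hull vertices, hull edges, the path lemma and the line lemmas
-/

set_option autoImplicit false

namespace Pool.Agent.TK

/-- `u v` is a counterclockwise hull edge of `W` -/
def HE (W : Finset Pt) (u v : Pt) : Prop :=
  u ∈ W ∧ v ∈ W ∧ u ≠ v ∧ ∀ z ∈ W, z ≠ u → z ≠ v → 0 < dt u v z

/-- `u` is a strict hull vertex of `W` -/
def HV (W : Finset Pt) (u : Pt) : Prop :=
  u ∈ W ∧ ∃ a : Pt, ∀ z ∈ W, z ≠ u → fn a u < fn a z

theorem HV.mono {W V : Finset Pt} {u : Pt} (h : HV W u) (hV : V ⊆ W) (hu : u ∈ V) : HV V u :=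
  ⟨hu, h.2.imp fun _ ha z hz => ha z (hV hz)⟩

/-- around a hull vertex the other points can be sorted -/
theorem HV.sorted {W : Finset Pt} {u : Pt} (hG : GP W) (h : HV W u) :
    ∃ l : List Pt, l.Nodup ∧ l.toFinset = W.erase u ∧ l.Pairwise (Bef u) := by
  obtain ⟨hu, a, ha⟩ := h
  apply exists_angular (a := a)
  · intro x hx
    exact ha x (Finset.mem_of_mem_erase hx) (Finset.ne_of_mem_erase hx)
  · intro x hx y hy hxy
    exact hG u hu x (Finset.mem_of_mem_erase hx) y (Finset.mem_of_mem_erase hy)
      (Finset.ne_of_mem_erase hx).symm (Finset.ne_of_mem_erase hy).symm hxy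

theorem HV.next {W : Finset Pt} {u : Pt} (hG : GP W) (h : HV W u) (hc : 2 ≤ W.card) :
    ∃ v, HE W u v := by
  obtain ⟨l, hn, ht, hp⟩ := h.sorted hG
  have hu := h.1
  cases l with
  | nil =>
    exfalso
    have h1 : (W.erase u).card = 0 := by rw [← ht]; simp
    rw [Finset.card_erase_of_mem hu] at h1
    omega
  | cons v l =>
    have hv : v ∈ W.erase u := by rw [← ht]; simp
    refine ⟨v, hu, Finset.mem_of_mem_erase hv, (Finset.ne_of_mem_erase hv).symm, ?_⟩
    intro z hz hzu hzv
    have hz' : z ∈ (v :: l).toFinset := by rw [ht]; exact Finset.mem_erase.2 ⟨hzu, hz⟩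
    rw [List.mem_toFinset, List.mem_cons] at hz'
    rcases hz' with rfl | hz'
    · exact absurd rfl hzv
    · exact (List.pairwise_cons.1 hp).1 z hz'

theorem HV.prev {W : Finset Pt} {u : Pt} (hG : GP W) (h : HV W u) (hc : 2 ≤ W.card) :
    ∃ v, HE W v u := by
  obtain ⟨l, hn, ht, hp⟩ := h.sorted hG
  have hu := h.1
  rcases List.eq_nil_or_concat l with rfl | ⟨l', v, rfl⟩
  · exfalso
    have h1 : (W.erase u).card = 0 := by rw [← ht]; simp
    rw [Finset.card_erase_of_mem hu] at h1
    omega
  · have hv : v ∈ W.erase u := by rw [← ht]; simp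
    refine ⟨v, Finset.mem_of_mem_erase hv, hu, (Finset.ne_of_mem_erase hv), ?_⟩
    intro z hz hzv hzu
    have hz' : z ∈ (l'.concat v).toFinset := by rw [ht]; exact Finset.mem_erase.2 ⟨hzu, hz⟩
    rw [List.mem_toFinset, List.concat_eq_append, List.mem_append, List.mem_singleton] at hz'
    rcases hz' with hz' | rfl
    · rw [List.concat_eq_append, List.pairwise_append] at hp
      have := hp.2.2 z hz' v (by simp)
      unfold Bef at this
      rw [dt_rot']
      exact this
    · exact absurd rfl hzv

/-- the two ends of a hull edge are hull vertices -/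
theorem HE.hv_left {W : Finset Pt} {u v : Pt} (h : HE W u v) : HV W u := by
  obtain ⟨hu, hv, huv, hz⟩ := h
  refine ⟨hu, ?_⟩
  -- functional: normal + small multiple of the direction
  set n : Pt := (-(v.2 - u.2), v.1 - u.1) with hn
  set d : Pt := (v.1 - u.1, v.2 - u.2) with hd
  have hdd : 0 < d.1 * d.1 + d.2 * d.2 := by
    have : d.1 ≠ 0 ∨ d.2 ≠ 0 := by
      by_contra hcon
      push Not at hcon
      apply huv
      have h1 : v.1 - u.1 = 0 := hcon.1
      have h2 : v.2 - u.2 = 0 := hcon.2
      ext <;> linarith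
    rcases this with h | h
    · have := mul_self_pos.2 h; nlinarith [mul_self_nonneg d.2]
    · have := mul_self_pos.2 h; nlinarith [mul_self_nonneg d.1]
  -- a uniform epsilon
  have key : ∀ T : Finset Pt, T ⊆ W → ∃ e : ℝ, 0 < e ∧ ∀ e' : ℝ, 0 < e' → e' ≤ e →
      ∀ z ∈ T, z ≠ u → fn (n.1 + e' * d.1, n.2 + e' * d.2) u <
        fn (n.1 + e' * d.1, n.2 + e' * d.2) z := by
    intro T
    induction T using Finset.induction_on with
    | empty => intro _; exact ⟨1, one_pos, by simp⟩
    | insert x T _ ih =>
      intro hT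
      obtain ⟨e, he, hE⟩ := ih (fun y hy => hT (Finset.mem_insert_of_mem hy))
      have hx := hT (Finset.mem_insert_self x T)
      have hform : ∀ e' : ℝ, fn (n.1 + e' * d.1, n.2 + e' * d.2) x
          - fn (n.1 + e' * d.1, n.2 + e' * d.2) u =
          dt u v x + e' * (d.1 * (x.1 - u.1) + d.2 * (x.2 - u.2)) := by
        intro e'
        unfold fn dt
        rw [hn, hd]
        ring
      by_cases hxu : x = u
      · refine ⟨e, he, ?_⟩
        intro e' h1 h2 z hz hzu
        rcases Finset.mem_insert.1 hz with rfl | hz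
        · exact absurd hxu hzu
        · exact hE e' h1 h2 z hz hzu
      by_cases hxv : x = v
      · refine ⟨e, he, ?_⟩
        intro e' h1 h2 z hz hzu
        rcases Finset.mem_insert.1 hz with rfl | hz
        · have := hform e'
          rw [hxv] at this
          rw [hxv]
          rw [dt_self_right] at this
          have h3 : d.1 * (v.1 - u.1) + d.2 * (v.2 - u.2) = d.1 * d.1 + d.2 * d.2 := by
            rw [hd]
          rw [h3] at this
          have h4 := mul_pos h1 hdd
          linarith
        · exact hE e' h1 h2 z hz hzu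
      · have hpos := hz x hx hxu hxv
        set q : ℝ := |d.1 * (x.1 - u.1) + d.2 * (x.2 - u.2)| with hq
        have hq0 : 0 ≤ q := abs_nonneg _
        refine ⟨min e (dt u v x / (q + 1)), lt_min he (div_pos hpos (by linarith)), ?_⟩
        intro e' h1 h2 z hz' hzu
        rcases Finset.mem_insert.1 hz' with rfl | hz'
        · have h3 := hform e'
          have h4 : e' ≤ dt u v z / (q + 1) := le_trans h2 (min_le_right _ _)
          have h5 : e' * (q + 1) ≤ dt u v z := by
            rwa [le_div_iff₀ (by linarith)] at h4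
          have h6 : -(q) ≤ d.1 * (z.1 - u.1) + d.2 * (z.2 - u.2) := neg_abs_le _
          have h7 := mul_le_mul_of_nonneg_left h6 h1.le
          nlinarith
        · exact hE e' h1 (le_trans h2 (min_le_left _ _)) z hz' hzu
  obtain ⟨e, he, hE⟩ := key W (Finset.Subset.refl _)
  exact ⟨(n.1 + e * d.1, n.2 + e * d.2), fun z hz hzu => hE e he le_rfl z hz hzu⟩

/-- mirror image -/
def mir (p : Pt) : Pt := (-p.1, p.2)

theorem mir_mir (p : Pt) : mir (mir p) = p := by unfold mir; simp
theorem dt_mir (p q r : Pt) : dt (mir p) (mir q) (mir r) = - dt p q r := by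
  unfold dt mir; ring
theorem fn_mir (a p : Pt) : fn (mir a) (mir p) = fn a p := by unfold fn mir; ring

theorem HE.hv_right {W : Finset Pt} {u v : Pt} (h : HE W u v) : HV W v := by
  classical
  have h' : HE (W.image mir) (mir v) (mir u) := by
    obtain ⟨hu, hv, huv, hz⟩ := h
    refine ⟨Finset.mem_image_of_mem _ hv, Finset.mem_image_of_mem _ hu, ?_, ?_⟩
    · intro he
      apply huv
      have := congrArg mir he
      rw [mir_mir, mir_mir] at this
      exact this.symm
    · intro z hz' h1 h2
      obtain ⟨y, hy, rfl⟩ := Finset.mem_image.1 hz'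
      rw [dt_mir, dt_swap, neg_neg]
      exact hz y hy (fun e => h2 (by rw [e])) (fun e => h1 (by rw [e]))
  obtain ⟨_, a, ha⟩ := h'.hv_left
  refine ⟨h.2.1, mir a, ?_⟩
  intro z hz hzv
  have := ha (mir z) (Finset.mem_image_of_mem _ hz) (fun e => hzv (by
    have := congrArg mir e; rwa [mir_mir, mir_mir] at this))
  rw [← fn_mir, ← fn_mir (mir a) z, mir_mir]
  exact this

theorem HE.ne {W : Finset Pt} {u v : Pt} (h : HE W u v) : u ≠ v := h.2.2.1

theorem HE.not_symm {W : Finset Pt} {u v : Pt} (h : HE W u v) (hc : 3 ≤ W.card) : ¬ HE W v u := by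
  intro h'
  have : ∃ z ∈ W, z ≠ u ∧ z ≠ v := by
    by_contra hcon
    push Not at hcon
    have hsub : W ⊆ {u, v} := by
      intro z hz
      by_cases hzu : z = u
      · simp [hzu]
      · simp [hcon z hz hzu]
    have := Finset.card_le_card hsub
    have h2 : ({u, v} : Finset Pt).card ≤ 2 := Finset.card_le_two
    omega
  obtain ⟨z, hz, h1, h2⟩ := this
  have e1 := h.2.2.2 z hz h1 h2
  have e2 := h'.2.2.2 z hz h2 h1
  rw [dt_swap] at e2
  linarith

/-- a hull edge is not crossed by a segment inside the set -/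
theorem HE.not_cross {W : Finset Pt} {u v r s : Pt} (h : HE W u v) (hr : r ∈ W) (hs : s ∈ W) :
    ¬ Cross u v r s := by
  intro hc
  have hne := hc.ne
  have e1 := h.2.2.2 r hr hne.2.1.symm hne.2.2.2.1.symm
  have e2 := h.2.2.2 s hs hne.2.2.1.symm hne.2.2.2.2.1.symm
  exact absurd hc.1 (not_lt.2 (mul_pos e1 e2).le)

theorem HE.not_cross' {W : Finset Pt} {u v r s : Pt} (h : HE W u v) (hr : r ∈ W) (hs : s ∈ W) :
    ¬ Cross v u r s := fun hc => h.not_cross hr hs (cross_swap_left.2 hc)

/-- BRIDGE UNIQUENESS: at most one ccw hull edge crosses a line in a given direction -/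
theorem bridge_unique {W : Finset Pt} (hG : GP W) {c : Pt} {k : ℝ} {a b p q : Pt}
    (h1 : HE W a b) (h2 : HE W p q) (ha : fn c a < k) (hb : k < fn c b) (hp : fn c p < k)
    (hq : k < fn c q) : a = p ∧ b = q := by
  obtain ⟨haW, hbW, hab, hz1⟩ := h1
  obtain ⟨hpW, hqW, hpq, hz2⟩ := h2
  have w1 : ∀ z ∈ W, 0 ≤ dt a b z := by
    intro z hz
    by_cases e1 : z = a
    · rw [e1]; simp
    by_cases e2 : z = b
    · rw [e2]; simp
    exact (hz1 z hz e1 e2).le
  have w2 : ∀ z ∈ W, 0 ≤ dt p q z := by
    intro z hz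
    by_cases e1 : z = p
    · rw [e1]; simp
    by_cases e2 : z = q
    · rw [e2]; simp
    exact (hz2 z hz e1 e2).le
  -- weights
  set A := k - fn c a with hA
  set B := fn c b - k with hB
  set P := k - fn c p with hP
  set Q := fn c q - k with hQ
  have hA0 : 0 < A := by linarith
  have hB0 : 0 < B := by linarith
  have hP0 : 0 < P := by linarith
  have hQ0 : 0 < Q := by linarith
  -- the crossing points are (B a + A b)/(A+B) and (Q p + P q)/(P+Q)
  have n1 : 0 ≤ Q * dt a b p + P * dt a b q := by
    have := w1 p hpW; have := w1 q hqW; positivity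
  have n2 : 0 ≤ B * dt p q a + A * dt p q b := by
    have := w2 a haW; have := w2 b hbW; positivity
  -- identity
  have key : (B * dt p q a + A * dt p q b) + (Q * dt a b p + P * dt a b q) = 0 := by
    rw [hA, hB, hP, hQ]
    unfold dt fn
    ring
  have e1 : Q * dt a b p + P * dt a b q = 0 := by linarith
  have e2 : dt a b p = 0 ∧ dt a b q = 0 := by
    have u1 := mul_nonneg hQ0.le (w1 p hpW)
    have u2 := mul_nonneg hP0.le (w1 q hqW)
    constructor
    · have : Q * dt a b p = 0 := by linarith
      rcases mul_eq_zero.1 this with h | h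
      · linarith
      · exact h
    · have : P * dt a b q = 0 := by linarith
      rcases mul_eq_zero.1 this with h | h
      · linarith
      · exact h
  have f1 : p = a ∨ p = b := by
    by_contra hcon
    push Not at hcon
    exact hG a haW b hbW p hpW hab hcon.1.symm hcon.2.symm e2.1
  have f2 : q = a ∨ q = b := by
    by_contra hcon
    push Not at hcon
    exact hG a haW b hbW q hqW hab hcon.1.symm hcon.2.symm e2.2
  constructor
  · rcases f1 with h | h
    · exact h.symm
    · rw [h] at hp; linarith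
  · rcases f2 with h | h
    · rw [h] at hq; linarith
    · exact h.symm

end Pool.Agent.TK
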