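import Pool.Agent.TK.Closing

/-!
# Tokunaga's problem: the cyclic list of hull vertices
-/

set_option autoImplicit false

namespace Pool.Agent.TK

/-- a finite nonempty set has a hull vertex -/
theorem exists_hv {P : Finset Pt} (hP : P.Nonempty) : ∃ u, HV P u := by
  obtain ⟨ε, hε, h⟩ := exists_shear P
  obtain ⟨u, hu, hmin⟩ := P.exists_min_image (fun p => (sh ε p).1) hP
  refine ⟨u, hu, (1, ε), ?_⟩
  intro z hz hzu
  have h1 := hmin z hz
  have h2 := sh_ne hε h hz hu hzu
  have h3 : ∀ x : Pt, fn (1, ε) x = (sh ε x).1 := by intro x; unfold fn sh; simp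
  rw [h3, h3]
  exact lt_of_le_of_ne h1 h2.symm

/-- a hull vertex is not inside a triangle -/
theorem HV.not_in_triangle {P : Finset Pt} {y u x v : Pt} (h : HV P y) (hu : u ∈ P) (hx : x ∈ P)
    (hv : v ∈ P) (h1 : 0 < dt u x y) (h2 : 0 < dt x v y) (h3 : 0 < dt v u y) : False := by
  obtain ⟨_, a, ha⟩ := h
  have nu : u ≠ y := by rintro rfl; simp at h1
  have nx : x ≠ y := by rintro rfl; simp at h1
  have nv : v ≠ y := by rintro rfl; simp at h2
  have e1 := ha u hu nu
  have e2 := ha x hx nx
  have e3 := ha v hv nv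
  have key : dt x v y * (fn a u - fn a y) + dt v u y * (fn a x - fn a y)
      + dt u x y * (fn a v - fn a y) = 0 := by
    unfold dt fn; ring
  have := mul_pos h2 (sub_pos.2 e1)
  have := mul_pos h3 (sub_pos.2 e2)
  have := mul_pos h1 (sub_pos.2 e3)
  linarith

theorem hull_list {P : Finset Pt} (hG : GP P) (hc : 2 ≤ P.card) {u : Pt} (hu : HV P u) :
    ∃ l : List Pt, (u :: l).Nodup ∧ (∀ x, x ∈ u :: l ↔ HV P x) ∧ l.Pairwise (Bef u) ∧
      (∀ e ∈ ce (u :: l), HE P e.1 e.2) := by
  classical
  obtain ⟨l0, hn0, ht0, hp0⟩ := hu.sorted hG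
  set l := l0.filter (fun x => decide (HV P x)) with hl
  have hsub : l.Sublist l0 := List.filter_sublist
  have hn : l.Nodup := hn0.sublist hsub
  have hp : l.Pairwise (Bef u) := hp0.sublist hsub
  have hmem : ∀ x, x ∈ l ↔ x ≠ u ∧ HV P x := by
    intro x
    rw [hl, List.mem_filter, ← List.mem_toFinset, ht0, Finset.mem_erase]
    simp only [decide_eq_true_eq]
    constructor
    · rintro ⟨⟨h1, _⟩, h2⟩; exact ⟨h1, h2⟩
    · rintro ⟨h1, h2⟩; exact ⟨⟨h1, h2.1⟩, h2⟩
  have hul : u ∉ l := fun h => ((hmem u).1 h).1 rfl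
  refine ⟨l, List.nodup_cons.2 ⟨hul, hn⟩, ?_, hp, ?_⟩
  · intro x
    rw [List.mem_cons, hmem]
    constructor
    · rintro (h | h)
      · rw [h]; exact hu
      · exact h.2
    · intro h
      by_cases e : x = u
      · exact Or.inl e
      · exact Or.inr ⟨e, h⟩
  · -- consecutive edges
    have hne : l ≠ [] := by
      obtain ⟨v, hv⟩ := hu.next hG hc
      intro h
      have : v ∈ l := (hmem v).2 ⟨hv.ne.symm, hv.hv_right⟩
      rw [h] at this
      simp at this
    intro e he
    rw [ce_cons] at he
    -- decompose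
    obtain ⟨A, Bl, hAB⟩ := mem_pe_split he
    cases A with
    | nil =>
      -- first edge
      simp only [List.nil_append] at hAB
      cases hl' : l with
      | nil => exact absurd hl' hne
      | cons h l' =>
        rw [hl'] at hAB
        simp only [List.cons_append, List.cons.injEq] at hAB
        obtain ⟨e1, e2, _⟩ := hAB
        rw [← e1, ← e2]
        obtain ⟨v, hv⟩ := hu.next hG hc
        have hvl : v ∈ h :: l' := by rw [← hl']; exact (hmem v).2 ⟨hv.ne.symm, hv.hv_right⟩
        rcases List.mem_cons.1 hvl with h1 | h1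
        · rw [← h1]; exact hv
        · exfalso
          rw [hl'] at hp
          have b1 := (List.pairwise_cons.1 hp).1 v h1
          have hh : h ∈ l := by rw [hl']; simp
          have hh' := (hmem h).1 hh
          have hvh : h ≠ v := by
            intro e
            rw [hl'] at hn
            exact (List.nodup_cons.1 hn).1 (e ▸ h1)
          have b2 := hv.2.2.2 h hh'.2.1 hh'.1 hvh
          exact Bef.asymm b1 b2
    | cons a A =>
      simp only [List.cons_append, List.cons.injEq] at hAB
      obtain ⟨rfl, hAB⟩ := hAB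
      -- l ++ [u] = A ++ e.1 :: e.2 :: Bl
      rcases List.eq_nil_or_concat Bl with hB | ⟨B', y, hB⟩
      · -- last edge
        rw [hB] at hAB
        have h1 : l ++ [u] = (A ++ [e.1]) ++ [e.2] := by rw [hAB]; simp
        obtain ⟨h2, h3⟩ := List.append_inj' h1 rfl
        have h3' : u = e.2 := by simpa using h3
        rw [← h3']
        have hw : e.1 ∈ l := by rw [h2]; simp
        have hw' := (hmem e.1).1 hw
        obtain ⟨v, hv⟩ := hw'.2.next hG hc
        by_cases hvu : v = u
        · rw [← hvu]; exact hv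
        · exfalso
          have hvl : v ∈ l := (hmem v).2 ⟨hvu, hv.hv_right⟩
          have b1 := hv.2.2.2 u hu.1 hw'.1.symm (Ne.symm hvu)
          have b2 : Bef u e.1 v := by
            unfold Bef
            have : dt u e.1 v = dt e.1 v u := by unfold dt; ring
            rw [this]; exact b1
          rw [h2] at hvl hp
          rcases List.mem_append.1 hvl with h4 | h4
          · have b3 := (List.pairwise_append.1 hp).2.2 v h4 e.1 (by simp)
            exact Bef.asymm b2 b3
          · have : v = e.1 := by simpa using h4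
            exact hv.ne this.symm
      · -- inner edge
        rw [hB, List.concat_eq_append] at hAB
        have h1 : l ++ [u] = (A ++ e.1 :: e.2 :: B') ++ [y] := by rw [hAB]; simp
        obtain ⟨h2, h3⟩ := List.append_inj' h1 rfl
        have hx : e.1 ∈ l := by rw [h2]; simp
        have hy : e.2 ∈ l := by rw [h2]; simp
        have hx' := (hmem e.1).1 hx
        have hy' := (hmem e.2).1 hy
        obtain ⟨v, hv⟩ := hx'.2.next hG hc
        have hp' := hp
        rw [h2, List.pairwise_append, List.pairwise_cons, List.pairwise_cons] at hp'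
        obtain ⟨pA, ⟨px, py, pB⟩, pc⟩ := hp'
        have bxy : Bef u e.1 e.2 := px e.2 (by simp)
        have exy : e.1 ≠ e.2 := fun h => by rw [h] at bxy; exact Bef.irrefl u _ bxy
        by_cases hve : v = e.2
        · rw [← hve]; exact hv
        exfalso
        have hvu : v ≠ u := by
          intro h
          subst h
          have b1 := hv.2.2.2 e.2 hy'.2.1 exy.symm hy'.1
          have b2 : Bef v e.2 e.1 := by
            unfold Bef
            have : dt v e.2 e.1 = dt e.1 v e.2 := by unfold dt; ring
            rw [this]; exact b1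
          exact Bef.asymm bxy b2
        have hvl : v ∈ l := (hmem v).2 ⟨hvu, hv.hv_right⟩
        have b1 := hv.2.2.2 u hu.1 hx'.1.symm hvu.symm
        have b2 : Bef u e.1 v := by
          unfold Bef
          have : dt u e.1 v = dt e.1 v u := by unfold dt; ring
          rw [this]; exact b1
        -- v is after e.2
        have b3 : Bef u e.2 v := by
          rw [h2] at hvl
          rcases List.mem_append.1 hvl with h4 | h4
          · exact absurd (pc v h4 e.1 (by simp)) (Bef.asymm b2)
          · rcases List.mem_cons.1 h4 with h5 | h5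
            · exact absurd h5.symm hv.ne
            · rcases List.mem_cons.1 h5 with h6 | h6
              · exact absurd h6 hve
              · exact py v h6
        have b4 := hv.2.2.2 e.2 hy'.2.1 exy.symm (Ne.symm hve)
        refine hy'.2.not_in_triangle hu.1 hx'.2.1 hv.2.1 bxy b4 ?_
        have : dt v u e.2 = dt u e.2 v := by unfold dt; ring
        rw [this]; exact b3

theorem HE.next_unique {P : Finset Pt} {u v v' : Pt} (h : HE P u v) (h' : HE P u v') : v = v' := by
  by_contra hne
  have e1 := h.2.2.2 v' h'.2.1 h'.ne.symm (Ne.symm hne)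
  have e2 := h'.2.2.2 v h.2.1 h.ne.symm hne
  rw [dt_swap'] at e2
  linarith

theorem HE.prev_unique {P : Finset Pt} {u v v' : Pt} (h : HE P v u) (h' : HE P v' u) : v = v' := by
  by_contra hne
  have e1 := h.2.2.2 v' h'.1 (Ne.symm hne) h'.ne
  have e2 := h'.2.2.2 v h.1 hne h.ne
  rw [dt_swap''] at e2
  have e3 : dt v' u v = - dt v u v' := by unfold dt; ring
  linarith

/-- a hull vertex minimising a given functional -/
theorem exists_hv_min {P : Finset Pt} (hP : P.Nonempty) {a : Pt} (ha : a ≠ 0) :
    ∃ v, HV P v ∧ ∀ x ∈ P, fn a v ≤ fn a x := by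
  classical
  set a' : Pt := (-a.2, a.1) with ha'
  set T : Pt → Pt := fun p => (fn a p, fn a' p) with hT
  have hn : 0 < a.1 ^ 2 + a.2 ^ 2 := by
    have : a.1 ≠ 0 ∨ a.2 ≠ 0 := by
      by_contra hcon
      push Not at hcon
      exact ha (Prod.ext hcon.1 hcon.2)
    rcases this with h | h
    · have := sq_pos_of_ne_zero h; positivity
    · have := sq_pos_of_ne_zero h; positivity
  have hinj : Function.Injective T := by
    intro p q hpq
    have e1 : fn a p = fn a q := congrArg Prod.fst hpq
    have e2 : fn a' p = fn a' q := congrArg Prod.snd hpq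
    unfold fn at e1 e2
    rw [ha'] at e2
    simp only at e2
    have f1 : (a.1 ^ 2 + a.2 ^ 2) * (p.1 - q.1) = 0 := by linear_combination a.1 * e1 - a.2 * e2
    have f2 : (a.1 ^ 2 + a.2 ^ 2) * (p.2 - q.2) = 0 := by linear_combination a.2 * e1 + a.1 * e2
    rcases mul_eq_zero.1 f1 with h | h
    · exact absurd h hn.ne'
    rcases mul_eq_zero.1 f2 with h' | h'
    · exact absurd h' hn.ne'
    ext <;> linarith
  obtain ⟨ε, hε, hsh⟩ := exists_shear (P.image T)
  obtain ⟨v, hv, hmin⟩ := P.exists_min_image (fun p => (sh ε (T p)).1) hP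
  refine ⟨v, ⟨hv, (a.1 + ε * a'.1, a.2 + ε * a'.2), ?_⟩, ?_⟩
  · intro z hz hzv
    have h1 := hmin z hz
    have h2 := sh_ne hε hsh (Finset.mem_image_of_mem T hz) (Finset.mem_image_of_mem T hv)
      (fun e => hzv (hinj e))
    have h3 : ∀ x : Pt, fn (a.1 + ε * a'.1, a.2 + ε * a'.2) x = (sh ε (T x)).1 := by
      intro x; unfold fn sh; rw [hT]; simp only [fn]; ring
    rw [h3, h3]
    exact lt_of_le_of_ne h1 h2.symm
  · intro x hx
    by_contra hcon
    push Not at hcon
    have h1 := hsh (T x) (Finset.mem_image_of_mem T hx) (T v) (Finset.mem_image_of_mem T hv) hcon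
    exact absurd (hmin x hx) (not_le.2 h1)

end Pool.Agent.TK
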