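import Pool.Agent.TK.Stmts2

/-!
# Tokunaga's problem: mirror images
-/

set_option autoImplicit false

namespace Pool.Agent.TK

theorem mir_inj : Function.Injective mir := by
  intro x y h
  have := congrArg mir h
  rwa [mir_mir, mir_mir] at this

theorem image_mir_mir (P : Finset Pt) : (P.image mir).image mir = P := by
  classical
  rw [Finset.image_image]
  ext x
  simp only [Finset.mem_image, Function.comp]
  constructor
  · rintro ⟨y, hy, rfl⟩; rw [mir_mir]; exact hy
  · intro hx; exact ⟨x, hx, mir_mir x⟩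

theorem mem_image_mir {P : Finset Pt} {x : Pt} : mir x ∈ P.image mir ↔ x ∈ P := by
  constructor
  · intro h
    obtain ⟨y, hy, he⟩ := Finset.mem_image.1 h
    rw [← mir_inj he]; exact hy
  · intro h; exact Finset.mem_image_of_mem _ h

theorem union_image_mir (R B : Finset Pt) : R.image mir ∪ B.image mir = (R ∪ B).image mir := by
  rw [Finset.image_union]

theorem cross_mir {p q r s : Pt} : Cross (mir p) (mir q) (mir r) (mir s) ↔ Cross p q r s := by
  unfold Cross
  rw [dt_mir, dt_mir, dt_mir, dt_mir, neg_mul_neg, neg_mul_neg]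

def mirE (e : Pt × Pt) : Pt × Pt := (mir e.1, mir e.2)

theorem mirE_mirE (e : Pt × Pt) : mirE (mirE e) = e := by
  unfold mirE; simp [mir_mir]

theorem crossE_mir {e f : Pt × Pt} : CrossE (mirE e) (mirE f) ↔ CrossE e f := cross_mir

theorem pe_mir (l : List Pt) : pe (l.map mir) = (pe l).map mirE := pe_map mir l

theorem cnt_mir (e : Pt × Pt) (E : List (Pt × Pt)) : cnt (mirE e) (E.map mirE) = cnt e E := by
  unfold cnt
  rw [List.countP_map]
  apply List.countP_congr
  intro f _
  simp only [Function.comp, decide_eq_true_eq]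
  exact crossE_mir

theorem GP.mir {P : Finset Pt} (h : GP P) : GP (P.image mir) := by
  intro p hp' q hq' r hr' h1 h2 h3
  obtain ⟨p, hp, rfl⟩ := Finset.mem_image.1 hp'
  obtain ⟨q, hq, rfl⟩ := Finset.mem_image.1 hq'
  obtain ⟨r, hr, rfl⟩ := Finset.mem_image.1 hr'
  rw [dt_mir, neg_ne_zero]
  exact h p hp q hq r hr (fun e => h1 (by rw [e])) (fun e => h2 (by rw [e]))
    (fun e => h3 (by rw [e]))

theorem HE.mir {P : Finset Pt} {u v : Pt} (h : HE P u v) : HE (P.image mir) (mir v) (mir u) := by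
  obtain ⟨hu, hv, huv, hz⟩ := h
  refine ⟨Finset.mem_image_of_mem _ hv, Finset.mem_image_of_mem _ hu, ?_, ?_⟩
  · intro he; exact huv (mir_inj he).symm
  · intro z hz' h1 h2
    obtain ⟨y, hy, rfl⟩ := Finset.mem_image.1 hz'
    rw [dt_mir, dt_swap, neg_neg]
    exact hz y hy (fun e => h2 (by rw [e])) (fun e => h1 (by rw [e]))

theorem HE.of_mir {P : Finset Pt} {u v : Pt} (h : HE (P.image TK.mir) (TK.mir v) (TK.mir u)) :
    HE P u v := by
  have := h.mir
  rw [image_mir_mir, mir_mir, mir_mir] at this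
  exact this

theorem HV.mir {P : Finset Pt} {u : Pt} (h : HV P u) : HV (P.image mir) (mir u) := by
  obtain ⟨hu, a, ha⟩ := h
  refine ⟨Finset.mem_image_of_mem _ hu, TK.mir a, ?_⟩
  intro z hz' h1
  obtain ⟨y, hy, rfl⟩ := Finset.mem_image.1 hz'
  rw [fn_mir, fn_mir]
  exact ha y hy (fun e => h1 (by rw [e]))

theorem HamPath.mir {W : Finset Pt} {s t : Pt} {l : List Pt} (h : HamPath W s t l) :
    HamPath (W.image mir) (mir s) (mir t) (l.map mir) := by
  refine ⟨h.nd.map mir_inj, ?_, ?_, ?_, ?_⟩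
  · rw [← h.ts]; ext x; simp
  · rw [List.head?_map, h.hd]; rfl
  · rw [List.getLast?_map, h.la]; rfl
  · rw [pe_mir, List.pairwise_map]
    apply h.nc.imp
    intro e f hef hc
    exact hef (crossE_mir.1 hc)

theorem Conf.mir {E F : List (Pt × Pt)} (h : Conf E F) : Conf (E.map mirE) (F.map mirE) := by
  refine ⟨?_, ?_, ?_, ?_⟩
  · rw [List.pairwise_map]
    exact h.ncE.imp (fun hef hc => hef (crossE_mir.1 hc))
  · rw [List.pairwise_map]
    exact h.ncF.imp (fun hef hc => hef (crossE_mir.1 hc))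
  · intro e he
    obtain ⟨e, he', rfl⟩ := List.mem_map.1 he
    rw [cnt_mir]; exact h.cE e he'
  · intro e he
    obtain ⟨e, he', rfl⟩ := List.mem_map.1 he
    rw [cnt_mir]; exact h.cF e he'

theorem ce_map_mir (l : List Pt) : ce (l.map mir) = (ce l).map mirE := by
  cases l with
  | nil => simp [ce]
  | cons a l =>
    rw [List.map_cons, ce_cons, ce_cons]
    have : mir a :: (l.map mir ++ [mir a]) = (a :: (l ++ [a])).map mir := by simp
    rw [this, pe_mir]

theorem Cyc.mir {B : Finset Pt} {F : List (Pt × Pt)} (h : Cyc B F) :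
    Cyc (B.image mir) (F.map mirE) := by
  obtain ⟨l, n, t, p⟩ := h
  refine ⟨l.map TK.mir, n.map mir_inj, ?_, ?_⟩
  · rw [← t]; ext x; simp
  · rw [ce_map_mir]; exact p.map _

theorem TwoPaths.mir {R B : Finset Pt} {r r' b b' : Pt} {lR lB : List Pt}
    (h : TwoPaths R B r r' b b' lR lB) :
    TwoPaths (R.image mir) (B.image mir) (mir r) (mir r') (mir b) (mir b') (lR.map mir)
      (lB.map mir) := by
  refine ⟨h.hR.mir, h.hB.mir, ?_, ?_⟩
  · intro e he
    rw [pe_mir] at he ⊢
    obtain ⟨e, he', rfl⟩ := List.mem_map.1 he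
    rw [cnt_mir]; exact h.cR e he'
  · intro e he
    rw [pe_mir] at he ⊢
    obtain ⟨e, he', rfl⟩ := List.mem_map.1 he
    rw [cnt_mir]; exact h.cB e he'

theorem FirstOne.mir {l k : List Pt} (h : FirstOne l k) : FirstOne (l.map mir) (k.map mir) := by
  intro e he
  rw [pe_mir, List.head?_map] at he
  cases hl : (pe l).head? with
  | none => rw [hl] at he; simp at he
  | some f =>
    rw [hl] at he
    simp only [Option.map_some, Option.some.injEq] at he
    rw [← he, pe_mir, cnt_mir]
    exact h f hl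

theorem LastOne.mir {l k : List Pt} (h : LastOne l k) : LastOne (l.map mir) (k.map mir) := by
  intro e he
  rw [pe_mir, List.getLast?_map] at he
  cases hl : (pe l).getLast? with
  | none => rw [hl] at he; simp at he
  | some f =>
    rw [hl] at he
    simp only [Option.map_some, Option.some.injEq] at he
    rw [← he, pe_mir, cnt_mir]
    exact h f hl

theorem Mix.mir {R B : Finset Pt} {x y : Pt} (h : Mix R B x y) :
    Mix (R.image mir) (B.image mir) (mir x) (mir y) := by
  obtain ⟨E, l, h1, h2, h3⟩ := h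
  refine ⟨E.map mirE, l.map TK.mir, h1.mir, h2.mir, ?_⟩
  rw [pe_mir]; exact h3.mir

theorem Mix.of_mir {R B : Finset Pt} {x y : Pt}
    (h : Mix (R.image TK.mir) (B.image TK.mir) (TK.mir x) (TK.mir y)) : Mix R B x y := by
  have := h.mir
  rw [image_mir_mir, image_mir_mir, mir_mir, mir_mir] at this
  exact this

theorem Mix.symm {R B : Finset Pt} {x y : Pt} (h : Mix R B x y) : Mix R B y x := by
  obtain ⟨E, l, h1, h2, h3⟩ := h
  exact ⟨E, l.reverse, h1, h2.reverse, conf_reverse h3⟩

/-- the mirror images of the notions for the double penalty lemma -/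
def NL' (R B : Finset Pt) (a a' d υ : Pt) : Prop :=
  ∃ (lR lB : List Pt) (w1 : Pt) (l' : List Pt),
    TwoPaths R (insert d (insert υ B)) a a' d υ lR lB ∧ FirstOne lB lR ∧ LastOne lB lR ∧
      lB = d :: w1 :: l' ∧ w1 ∈ B ∧ dt d υ w1 < 0

def LF' (R B : Finset Pt) (d υ : Pt) : Prop :=
  (∃ w ∈ R ∪ B, 0 < dt d υ w) ∧
    ∀ r ∈ R, ∀ b ∈ B, dt d υ r < 0 → dt d υ b < 0 → dt d b r < 0

/-- mirrored data: ccw order `a', υ, d, a` -/
structure DPData' (R B : Finset Pt) (a a' d υ c : Pt) : Prop where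
  gp : GP (insert d (insert υ (R ∪ B)))
  dj : Disjoint R B
  ha : a ∈ R
  ha' : a' ∈ R
  ne : a ≠ a'
  hd : d ∉ R ∪ B
  hυ : υ ∉ R ∪ B
  hdυ : d ≠ υ
  he : HE (insert d (insert υ (R ∪ B))) d a
  he' : HE (insert υ (R ∪ B)) a' υ
  up : fn c d < fn c υ
  low : ∀ z ∈ R ∪ B, fn c υ < fn c z

theorem DPData'.mir {R B : Finset Pt} {a a' d υ c : Pt} (h : DPData' R B a a' d υ c) :
    DPData (R.image mir) (B.image mir) (mir a) (mir a') (mir d) (mir υ) (mir c) := by
  have hU := union_image_mir R B
  refine ⟨?_, ?_, ?_, ?_, ?_, ?_, ?_, ?_, ?_, ?_, ?_, ?_⟩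
  · rw [hU, ← Finset.image_insert, ← Finset.image_insert]; exact h.gp.mir
  · rw [Finset.disjoint_left]
    intro x hx hx'
    obtain ⟨y, hy, rfl⟩ := Finset.mem_image.1 hx
    exact Finset.disjoint_left.1 h.dj hy (mem_image_mir.1 hx')
  · exact mem_image_mir.2 h.ha
  · exact mem_image_mir.2 h.ha'
  · intro e; exact h.ne (mir_inj e)
  · rw [hU, mem_image_mir]; exact h.hd
  · rw [hU, mem_image_mir]; exact h.hυ
  · intro e; exact h.hdυ (mir_inj e)
  · rw [hU, ← Finset.image_insert, ← Finset.image_insert]; exact h.he.mir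
  · rw [hU, ← Finset.image_insert]; exact h.he'.mir
  · rw [fn_mir, fn_mir]; exact h.up
  · intro z hz
    rw [hU] at hz
    obtain ⟨y, hy, rfl⟩ := Finset.mem_image.1 hz
    rw [fn_mir, fn_mir]; exact h.low y hy

/-- GDPR, the mirror image of GDPL -/
theorem gdpr (hL : GDPLStmt) (R B : Finset Pt) (a a' d υ c β : Pt) (h : DPData' R B a a' d υ c)
    (hβ : β ∈ B) (hv : HV (insert d (insert υ (R ∪ B))) β) : NL' R B a a' d υ ∨ LF' R B d υ := by
  have hU := union_image_mir R B
  have hres := hL (R.image mir) (B.image mir) (mir a) (mir a') (mir d) (mir υ) (mir c) (mir β)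
    h.mir (mem_image_mir.2 hβ) (by
      rw [hU, ← Finset.image_insert, ← Finset.image_insert]; exact hv.mir)
  rcases hres with ⟨lR, lB, w1, l', h1, h2, h3, h4, h5, h6⟩ | ⟨⟨w, hw, hw'⟩, h2⟩
  · left
    refine ⟨lR.map mir, lB.map mir, mir w1, l'.map mir, ?_, h2.mir, h3.mir, ?_, ?_, ?_⟩
    · have := h1.mir
      rw [Finset.image_insert, Finset.image_insert, image_mir_mir, image_mir_mir] at this
      simp only [mir_mir] at this
      exact this
    · rw [h4]; simp [mir_mir]
    · rw [← mem_image_mir, mir_mir]; exact h5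
    · have := dt_mir d υ (mir w1)
      rw [mir_mir] at this
      linarith
  · right
    refine ⟨?_, ?_⟩
    · rw [hU] at hw
      obtain ⟨y, hy, rfl⟩ := Finset.mem_image.1 hw
      rw [dt_mir] at hw'
      exact ⟨y, hy, by linarith⟩
    · intro r hr b hb e1 e2
      have := h2 (mir r) (mem_image_mir.2 hr) (mir b) (mem_image_mir.2 hb)
        (by rw [dt_mir]; linarith) (by rw [dt_mir]; linarith)
      rw [dt_mir] at this
      linarith

/-! ### second set of names, reversal, and the mirrored interface statements (helper45) -/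

theorem gp_mir {P : Finset Pt} (h : GP P) : GP (P.image mir) := h.mir

theorem HE.mirr {W : Finset Pt} {u v : Pt} (h : HE W u v) : HE (W.image TK.mir) (TK.mir v) (TK.mir u) :=
  h.mir

theorem HV.mirr {W : Finset Pt} {u : Pt} (h : HV W u) : HV (W.image TK.mir) (TK.mir u) := h.mir

theorem HamPath.mirr {W : Finset Pt} {s t : Pt} {l : List Pt} (h : HamPath W s t l) :
    HamPath (W.image TK.mir) (TK.mir s) (TK.mir t) (l.map TK.mir) := h.mir

theorem cnt_mir_pe (e : Pt × Pt) (l : List Pt) :
    cnt (mir e.1, mir e.2) (pe (l.map mir)) = cnt e (pe l) := by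
  rw [pe_mir]; exact cnt_mir e (pe l)

theorem TwoPaths.mirr {R B : Finset Pt} {r r' b b' : Pt} {lR lB : List Pt}
    (h : TwoPaths R B r r' b b' lR lB) :
    TwoPaths (R.image TK.mir) (B.image TK.mir) (TK.mir r) (TK.mir r') (TK.mir b) (TK.mir b')
      (lR.map TK.mir) (lB.map TK.mir) := h.mir

theorem FirstOne.mirr {l k : List Pt} (h : FirstOne l k) :
    FirstOne (l.map TK.mir) (k.map TK.mir) := h.mir

theorem LastOne.mirr {l k : List Pt} (h : LastOne l k) :
    LastOne (l.map TK.mir) (k.map TK.mir) := h.mir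

theorem cnt_reverse (e : Pt × Pt) (l : List Pt) : cnt e (pe l.reverse) = cnt e (pe l) := by
  rw [pe_reverse]
  unfold cnt
  rw [List.countP_reverse, List.countP_map]
  apply List.countP_congr
  intro f _
  simp only [Function.comp, decide_eq_true_eq]
  unfold CrossE
  simp only [Prod.fst_swap, Prod.snd_swap]
  exact cross_swap_right.symm

theorem TwoPaths.reverse {R B : Finset Pt} {r r' b b' : Pt} {lR lB : List Pt}
    (h : TwoPaths R B r r' b b' lR lB) : TwoPaths R B r' r b' b lR.reverse lB.reverse := by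
  refine ⟨h.hR.reverse, h.hB.reverse, ?_, ?_⟩
  · intro e he
    rw [pe_reverse, List.mem_reverse] at he
    obtain ⟨f, hf, rfl⟩ := List.mem_map.1 he
    rw [cnt_swap, cnt_reverse]
    exact h.cR f hf
  · intro e he
    rw [pe_reverse, List.mem_reverse] at he
    obtain ⟨f, hf, rfl⟩ := List.mem_map.1 he
    rw [cnt_swap, cnt_reverse]
    exact h.cB f hf

theorem FirstOne.reverse {l k : List Pt} (h : FirstOne l k) : LastOne l.reverse k.reverse := by
  intro e he
  rw [pe_reverse, List.getLast?_reverse, List.head?_map] at he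
  cases hl : (pe l).head? with
  | none => rw [hl] at he; simp at he
  | some f =>
    rw [hl] at he
    simp only [Option.map_some, Option.some.injEq] at he
    rw [← he, cnt_swap, cnt_reverse]
    exact h f hl

theorem LastOne.reverse {l k : List Pt} (h : LastOne l k) : FirstOne l.reverse k.reverse := by
  intro e he
  rw [pe_reverse, List.head?_reverse, List.getLast?_map] at he
  cases hl : (pe l).getLast? with
  | none => rw [hl] at he; simp at he
  | some f =>
    rw [hl] at he
    simp only [Option.map_some, Option.some.injEq] at he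
    rw [← he, cnt_swap, cnt_reverse]
    exact h f hl

/-- mirror image of SPa, paths reversed -/
theorem spa_mir (h : SPaStmt) {R B : Finset Pt} {a t u s β : Pt} (hG : GP (R ∪ B))
    (hD : Disjoint R B) (ha : a ∈ R) (ht : t ∈ R) (hu : u ∈ B) (hs : s ∈ B) (hat : a ≠ t)
    (hus : u ≠ s) (h1 : HE (R ∪ B) u a) (h2 : HE (R ∪ B) t s) (hβ : β ∈ B)
    (hv : HV (R ∪ B) β) (hb : 0 < dt t a β) :
    ∃ lR lB, TwoPaths R B t a s u lR lB ∧ LastOne lB lR := by
  obtain ⟨lR, lB, hT, hF⟩ := h (R.image mir) (B.image mir) (mir a) (mir t) (mir u) (mir s) (mir β)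
    (by rw [← Finset.image_union]; exact gp_mir hG)
    (by
      rw [Finset.disjoint_left]
      intro x hx hx'
      obtain ⟨y, hy, rfl⟩ := Finset.mem_image.1 hx
      obtain ⟨z, hz, hzy⟩ := Finset.mem_image.1 hx'
      rw [mir_inj hzy] at hz
      exact Finset.disjoint_left.1 hD hy hz)
    (Finset.mem_image_of_mem _ ha) (Finset.mem_image_of_mem _ ht) (Finset.mem_image_of_mem _ hu)
    (Finset.mem_image_of_mem _ hs) (fun e => hat (mir_inj e)) (fun e => hus (mir_inj e))
    (by rw [← Finset.image_union]; exact h1.mirr) (by rw [← Finset.image_union]; exact h2.mirr)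
    (Finset.mem_image_of_mem _ hβ) (by rw [← Finset.image_union]; exact hv.mirr)
    (by rw [dt_mir]; linarith)
  have hT' := hT.mirr.reverse
  have hF' := hF.mirr.reverse
  rw [image_mir_mir, image_mir_mir, mir_mir, mir_mir, mir_mir, mir_mir] at hT'
  exact ⟨_, _, hT', hF'⟩

/-- mirror image of SPb, paths reversed -/
theorem spb_mir (h : SPbStmt) {R B : Finset Pt} {a s u t : Pt} (hG : GP (R ∪ B))
    (hD : Disjoint R B) (ha : a ∈ R) (hs : s ∈ R) (hu : u ∈ B) (ht : t ∈ B) (has : a ≠ s)
    (hut : u ≠ t) (h1 : HE (R ∪ B) u a) (h2 : HE (R ∪ B) t s)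
    (hno : ∀ v ∈ B, HV (R ∪ B) v → ¬ 0 < dt u s v) :
    ∃ lR lB, TwoPaths R B s a t u lR lB ∧ LastOne lB lR := by
  obtain ⟨lR, lB, hT, hF⟩ := h (R.image mir) (B.image mir) (mir a) (mir s) (mir u) (mir t)
    (by rw [← Finset.image_union]; exact gp_mir hG)
    (by
      rw [Finset.disjoint_left]
      intro x hx hx'
      obtain ⟨y, hy, rfl⟩ := Finset.mem_image.1 hx
      obtain ⟨z, hz, hzy⟩ := Finset.mem_image.1 hx'
      rw [mir_inj hzy] at hz
      exact Finset.disjoint_left.1 hD hy hz)
    (Finset.mem_image_of_mem _ ha) (Finset.mem_image_of_mem _ hs) (Finset.mem_image_of_mem _ hu)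
    (Finset.mem_image_of_mem _ ht) (fun e => has (mir_inj e)) (fun e => hut (mir_inj e))
    (by rw [← Finset.image_union]; exact h1.mirr) (by rw [← Finset.image_union]; exact h2.mirr)
    (by
      intro v hv hHV hneg
      obtain ⟨w, hw, rfl⟩ := Finset.mem_image.1 hv
      rw [dt_mir] at hneg
      rw [← Finset.image_union] at hHV
      have := hHV.mirr
      rw [image_mir_mir, mir_mir] at this
      exact hno w hw this (by linarith))
  have hT' := hT.mirr.reverse
  have hF' := hF.mirr.reverse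
  rw [image_mir_mir, image_mir_mir, mir_mir, mir_mir, mir_mir, mir_mir] at hT'
  exact ⟨_, _, hT', hF'⟩

end Pool.Agent.TK
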