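import Pool.Agent.TK.Window

/-!
# Tokunaga's problem, g ≥ 4: the final nested window
-/

set_option autoImplicit false

namespace Pool.Agent.TK

/-- `z` on the chain from `g` to `gp` is beyond `p q` -/
theorem side_L1 {g d ρ gp z p q : Pt} (mg : dt p q g ≤ 0) (md : dt p q d < 0)
    (mgp : dt p q gp ≤ 0) (hT : 0 < dt g d gp) (h1 : 0 < dt g d z) (h2 : 0 < dt ρ gp z)
    (h3 : dt ρ gp d < 0) (h4 : 0 < dt ρ gp g) (h5 : 0 < dt g z gp) : dt p q z < 0 := by
  have e1 := bary g d gp z ρ gp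
  rw [dt_self_right] at e1
  have e0 : dt gp g z = dt g z gp := (dt_rot gp g z).symm
  rw [e0] at e1
  have i1 : 0 < dt d gp z := by
    by_contra hc
    have a1 := mul_pos hT h2
    have a2 := mul_nonneg (neg_nonneg.2 (not_lt.1 hc)) h4.le
    have a3 := mul_pos h5 (neg_pos.2 h3)
    nlinarith
  have e2 := bary g d gp z p q
  rw [e0] at e2
  by_contra hc
  have a1 := mul_nonneg hT.le (not_lt.1 hc)
  have a2 := mul_nonneg i1.le (neg_nonneg.2 mg)
  have a3 := mul_pos h5 (neg_pos.2 md)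
  have a4 := mul_nonneg h1.le (neg_nonneg.2 mgp)
  nlinarith

/-- mirror image of `side_L1`: chain from `gm` to `g'` -/
theorem side_L1' {gm d ρ g' z p q : Pt} (mg : dt p q gm ≤ 0) (md : dt p q d < 0)
    (mgp : dt p q g' ≤ 0) (hT : 0 < dt gm d g') (h1 : 0 < dt d g' z) (h2 : 0 < dt gm ρ z)
    (h3 : dt gm ρ d < 0) (h4 : 0 < dt gm ρ g') (h5 : 0 < dt gm z g') : dt p q z < 0 := by
  have e1 := bary gm d g' z gm ρ
  rw [dt_self_out] at e1
  have e0 : dt g' gm z = dt gm z g' := (dt_rot g' gm z).symm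
  rw [e0] at e1
  have i1 : 0 < dt gm d z := by
    by_contra hc
    have a1 := mul_pos hT h2
    have a2 := mul_nonneg (neg_nonneg.2 (not_lt.1 hc)) h4.le
    have a3 := mul_pos h5 (neg_pos.2 h3)
    nlinarith
  have e2 := bary gm d g' z p q
  rw [e0] at e2
  by_contra hc
  have a1 := mul_nonneg hT.le (not_lt.1 hc)
  have a2 := mul_nonneg h1.le (neg_nonneg.2 mg)
  have a3 := mul_pos h5 (neg_pos.2 md)
  have a4 := mul_nonneg i1.le (neg_nonneg.2 mgp)
  nlinarith

/-- wedge lemma at `g` -/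
theorem wedge1 {g d ρ z c : Pt} (lg : fn c ρ < fn c g) (ld : fn c d < fn c ρ)
    (lz : fn c ρ < fn c z) (hT : 0 < dt g d ρ) (h2 : dt g ρ z < 0) :
    0 < dt d ρ z := by
  have e1 := bary_fn c g d ρ z
  have e2 := bary_sum g d ρ z
  have e3 : dt ρ g z = - dt g ρ z := dt_swap g ρ z
  rw [e3] at e1 e2
  by_contra hc
  have a1 := mul_pos hT (sub_pos.2 lz)
  have a2 := mul_nonneg (neg_nonneg.2 (not_lt.1 hc)) (sub_pos.2 lg).le
  have a3 := mul_pos (neg_pos.2 h2) (sub_pos.2 ld)
  have e4 : dt g d z = dt g d ρ - dt d ρ z + dt g ρ z := by linarith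
  rw [e4] at e1
  nlinarith

theorem wedge2 {g d ρ z c : Pt} (lg : fn c ρ < fn c g) (ld : fn c d < fn c ρ)
    (lz : fn c ρ < fn c z) (hT : 0 < dt d g ρ) (h2 : dt ρ g z < 0) :
    0 < dt ρ d z := by
  have e1 := bary_fn c d g ρ z
  have e2 := bary_sum d g ρ z
  have e3 : dt g ρ z = - dt ρ g z := dt_swap ρ g z
  rw [e3] at e1 e2
  by_contra hc
  have a1 := mul_pos hT (sub_pos.2 lz)
  have a2 := mul_nonneg (neg_nonneg.2 (not_lt.1 hc)) (sub_pos.2 lg).le
  have a3 := mul_pos (neg_pos.2 h2) (sub_pos.2 ld)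
  have e4 : dt d g z = dt d g ρ + dt ρ g z - dt ρ d z := by linarith
  rw [e4] at e1
  nlinarith

/-- a positive combination of points on or beyond `p q` -/
theorem tri_neg {g d ρ z p q : Pt} (mg : dt p q g ≤ 0) (md : dt p q d ≤ 0) (mρ : dt p q ρ ≤ 0)
    (h1 : 0 ≤ dt d ρ z) (h2 : 0 ≤ dt ρ g z) (h3 : 0 ≤ dt g d z)
    (hs : 0 < dt d ρ z * (- dt p q g) + dt ρ g z * (- dt p q d) + dt g d z * (- dt p q ρ))  :
    dt p q z < 0 := by
  have e1 := bary g d ρ z p q
  have e2 := bary_sum g d ρ z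
  by_contra hc
  have hT : 0 ≤ dt g d ρ := by linarith
  have a1 := mul_nonneg hT (not_lt.1 hc)
  nlinarith

/-- side lemma for the chain between `g` and `g'` -/
theorem side_L2 {g d1 d2 ρ g' z p q c : Pt} (mg : dt p q g ≤ 0) (md1 : dt p q d1 < 0)
    (md2 : dt p q d2 < 0) (mρ : dt p q ρ < 0) (mg' : dt p q g' ≤ 0)
    (lg : fn c ρ < fn c g) (lg' : fn c ρ < fn c g') (l1 : fn c d1 < fn c ρ)
    (l2 : fn c d2 < fn c ρ) (lz : fn c ρ < fn c z) (hT : 0 < dt g d1 ρ) (hT' : 0 < dt d2 g' ρ)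
    (h1 : 0 < dt g d1 z) (h2 : 0 < dt d2 g' z) (h5 : 0 < dt g z g') : dt p q z < 0 := by
  rcases lt_or_ge (dt g ρ z) 0 with h3 | h3
  · have i := wedge1 lg l1 lz hT h3
    have e3 : dt ρ g z = - dt g ρ z := dt_swap g ρ z
    refine tri_neg mg md1.le mρ.le i.le (by linarith) h1.le ?_
    have a1 := mul_nonneg i.le (neg_nonneg.2 mg)
    have a2 := mul_pos (by linarith : 0 < dt ρ g z) (neg_pos.2 md1)
    have a3 := mul_pos h1 (neg_pos.2 mρ)
    linarith
  rcases lt_or_ge (dt ρ g' z) 0 with h4 | h4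
  · have i := wedge2 lg' l2 lz hT' h4
    have e3 : dt g' ρ z = - dt ρ g' z := dt_swap ρ g' z
    refine tri_neg md2.le mg' mρ.le (by linarith) i.le h2.le ?_
    have a1 := mul_nonneg i.le (neg_nonneg.2 mg')
    have a2 := mul_pos (by linarith : 0 < dt g' ρ z) (neg_pos.2 md2)
    have a3 := mul_pos h2 (neg_pos.2 mρ)
    linarith
  · have e0 : dt g' g z = dt g z g' := (dt_rot g' g z).symm
    refine tri_neg mg mρ.le mg' h4 (by rw [e0]; exact h5.le) h3 ?_
    rw [e0]
    have a1 := mul_nonneg h4 (neg_nonneg.2 mg)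
    have a2 := mul_pos h5 (neg_pos.2 mρ)
    have a3 := mul_nonneg h3 (neg_nonneg.2 mg')
    linarith

/-- the red chain of hull edges between two hull vertices -/
theorem chainK {R B S : Finset Pt} (hG : GP S) (hSR : ∀ z ∈ S, z ∉ B → z ∈ R) {g g' : Pt}
    (hg : HV S g) (hg' : HV S g') (hgR : g ∈ R) (hgR' : g' ∈ R) (hne : g ≠ g')
    (hz : ∀ z, HV S z → 0 < dt g z g' → z ∉ B) :
    ∃ K : List Pt, K.Nodup ∧ (∀ x ∈ K, x ∈ R) ∧ K.head? = some g ∧ K.getLast? = some g' ∧
      (∀ e ∈ pe K, HE S e.1 e.2) ∧ (∀ z ∈ K, z = g ∨ z = g' ∨ (HV S z ∧ 0 < dt g z g')) ∧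
      (∀ z, HV S z → 0 < dt g z g' → z ∈ K) := by
  obtain ⟨l1, l2, hn, hm, hb, he⟩ := hull_cut hG hg hg' hne
  have hbp := List.pairwise_append.1 hb
  have in1 : ∀ z ∈ l1, HV S z ∧ 0 < dt g z g' := by
    intro z hz
    exact ⟨(hm z).1 (by simp [hz]), hbp.2.2 z hz g' (by simp)⟩
  refine ⟨g :: (l1 ++ [g']), ?_, ?_, rfl, ?_, ?_, ?_, ?_⟩
  · have hsub : (g :: (l1 ++ [g'])).Sublist (g :: (l1 ++ g' :: l2)) := by
      apply List.Sublist.cons_cons
      apply List.Sublist.append (List.Sublist.refl _)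
      apply List.Sublist.cons_cons
      exact List.nil_sublist _
    exact hn.sublist hsub
  · intro x hx
    simp only [List.mem_cons, List.mem_append, List.not_mem_nil, or_false] at hx
    rcases hx with rfl | hx | rfl
    · exact hgR
    · have := in1 x hx
      exact hSR x this.1.1 (hz x this.1 this.2)
    · exact hgR'
  · rw [List.getLast?_cons, List.getLast?_append]; simp
  · intro e hee
    apply he
    have : g :: (l1 ++ g' :: l2) ++ [g] = [] ++ (g :: (l1 ++ [g'])) ++ (l2 ++ [g]) := by simp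
    rw [this]
    exact pe_infix hee
  · intro z hz
    simp only [List.mem_cons, List.mem_append, List.not_mem_nil, or_false] at hz
    rcases hz with h | h | h
    · exact Or.inl h
    · exact Or.inr (Or.inr (in1 z h))
    · exact Or.inr (Or.inl h)
  · intro z hzv hzs
    have h := (hm z).2 hzv
    simp only [List.mem_cons, List.mem_append, List.not_mem_nil, or_false] at h ⊢
    rcases h with h | h | h | h
    · exact Or.inl h
    · exact Or.inr (Or.inl h)
    · exact Or.inr (Or.inr h)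
    · exfalso
      have := (List.pairwise_cons.1 hbp.2.1).1 z h
      unfold Bef at this
      rw [dt_swap'] at this
      linarith

/-- closing the blue path of `Out` inside the window -/
theorem close_out {R B U : Finset Pt} {d ρ a w1 : Pt} {l l' k : List Pt} {E : List (Pt × Pt)}
    {Q : List (Pt × Pt) → Prop} (hQ : ∀ F G : List (Pt × Pt), Q G → Q (F ++ G))
    (hU : U ⊆ B) (hE : Cyc R E)
    (hl : HamPath (insert d (insert ρ (B \ U))) d ρ l) (hc : Conf E (pe l))
    (hl' : l = d :: w1 :: l') (hw1 : w1 ∈ B \ U) (hρ : ρ ∈ U) (hd : d ∈ U) (hdρ : d ≠ ρ)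
    (hup : ∀ z ∈ U, z ≠ ρ → fn a z < fn a ρ) (hlow : ∀ z ∈ R ∪ (B \ U), fn a ρ < fn a z)
    (hk : HamPath U ρ d k) (hQk : Q (pe k))
    {σ : ℝ} (hside : ∀ z ∈ U, 0 ≤ σ * dt ρ d z) (hw : σ * dt ρ d w1 < 0) :
    ∃ E F, Cyc R E ∧ Cyc B F ∧ Conf E F ∧ Q F := by
  classical
  have hunion : insert d (insert ρ (B \ U)) ∪ U = B := by
    ext z
    simp only [Finset.mem_union, Finset.mem_insert, Finset.mem_sdiff]
    constructor
    · rintro ((h | h | h) | h)
      · rw [h]; exact hU hd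
      · rw [h]; exact hU hρ
      · exact h.1
      · exact hU h
    · intro h
      by_cases hz : z ∈ U
      · exact Or.inr hz
      · exact Or.inl (Or.inr (Or.inr ⟨h, hz⟩))
  have hcyc := cyc_two hl hk hdρ (by
    intro z hz
    simp only [Finset.mem_inter, Finset.mem_insert, Finset.mem_sdiff] at hz
    simp only [Finset.mem_insert, Finset.mem_singleton]
    rcases hz.1 with h | h | h
    · exact Or.inl h
    · exact Or.inr h
    · exact absurd hz.2 h.2)
  rw [hunion] at hcyc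
  have hupE : ∀ z ∈ U, fn a z ≤ fn a ρ := by
    intro z hz
    by_cases h : z = ρ
    · rw [h]
    · exact (hup z hz h).le
  -- an edge of k has an end different from ρ
  have hkk : ∀ f ∈ pe k, (f.1 ∈ U ∧ f.2 ∈ U) ∧ (fn a f.1 < fn a ρ ∨ fn a f.2 < fn a ρ) := by
    intro f hf
    have := hk.inside f hf
    refine ⟨this, ?_⟩
    by_cases h1 : f.1 = ρ
    · right
      apply hup _ this.2
      intro h2
      obtain ⟨A, Bl, hAB⟩ := mem_pe_split hf
      have nd := hk.nd
      rw [hAB, List.nodup_append] at nd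
      exact (List.nodup_cons.1 nd.2.1).1 (by rw [h1, ← h2]; simp)
    · left; exact hup _ this.1 h1
  -- non-crossing with edges below
  have low : ∀ u v : Pt, fn a ρ ≤ fn a u → fn a ρ ≤ fn a v → ∀ f ∈ pe k, ¬ CrossE (u, v) f := by
    intro u v hu hv f hf
    have := hkk f hf
    refine not_cross_of_sep a (fn a ρ) hu hv (hupE _ this.1.1) (hupE _ this.1.2) ?_
    rcases this.2 with h | h
    · right; right; left; exact h
    · right; right; right; exact h
  refine ⟨E, pe l ++ pe k, hE, hcyc, ?_, hQ _ _ hQk⟩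
  apply hc.add hk.nc
  · intro e he f hf
    rw [hl', pe_cons_cons, List.mem_cons] at he
    rcases he with rfl | he
    · -- the first edge
      have := hkk f hf
      have s1 := hside _ this.1.1
      have s2 := hside _ this.1.2
      intro hcr
      -- separated by the line ρ d
      have e0 : ∀ z, σ * dt ρ d z = fn (σ * -(d.2 - ρ.2), σ * (d.1 - ρ.1)) z
          - fn (σ * -(d.2 - ρ.2), σ * (d.1 - ρ.1)) ρ := by
        intro z; unfold dt fn; simp; ring
      have hd0 : σ * dt ρ d d = 0 := by simp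
      refine not_cross_of_sep (σ * -(d.2 - ρ.2), σ * (d.1 - ρ.1))
        (fn (σ * -(d.2 - ρ.2), σ * (d.1 - ρ.1)) ρ) (p := f.1) (q := f.2) (r := d) (s := w1)
        ?_ ?_ ?_ ?_ ?_ (crossE_comm.1 hcr)
      · rw [e0] at s1; linarith
      · rw [e0] at s2; linarith
      · rw [e0] at hd0; linarith
      · rw [e0] at hw; linarith
      · right; right; right; rw [e0] at hw; linarith
    · -- edges below
      have hm := mem_of_mem_pe he
      have hnd := hl.nd
      rw [hl', List.nodup_cons] at hnd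
      have hb : ∀ z ∈ w1 :: l', fn a ρ ≤ fn a z := by
        intro z hz
        have h1 : z ∈ insert d (insert ρ (B \ U)) := hl.mem.1 (by rw [hl']; exact List.mem_cons_of_mem _ hz)
        rcases Finset.mem_insert.1 h1 with h | h
        · exact absurd (h ▸ hz) hnd.1
        rcases Finset.mem_insert.1 h with h | h
        · rw [h]
        · exact (hlow z (Finset.mem_union_right _ h)).le
      exact low e.1 e.2 (hb _ hm.1) (hb _ hm.2) f hf
  · intro e he f hf
    have := hE.inside e he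
    exact low e.1 e.2 (hlow _ (Finset.mem_union_left _ this.1)).le
      (hlow _ (Finset.mem_union_left _ this.2)).le f hf

end Pool.Agent.TK
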