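import Pool.Agent.TK.NestFin

/-!
# Tokunaga's problem, g ≥ 4: the final nested window, main theorem
-/

set_option autoImplicit false

namespace Pool.Agent.TK

theorem HE.weak {W : Finset Pt} {u v z : Pt} (h : HE W u v) (hz : z ∈ W) : 0 ≤ dt u v z := by
  by_cases a1 : z = u
  · rw [a1]; simp
  by_cases a2 : z = v
  · rw [a2]; simp
  exact (h.2.2.2 z hz a1 a2).le

theorem HamPath.conf_rev {R : Finset Pt} {s t : Pt} {l : List Pt} {F : List (Pt × Pt)}
    (_ : HamPath R s t l) (hc : Conf (pe l) F) : Conf (pe l.reverse) F :=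
  (conf_reverse hc.symm).symm

theorem FirstOne.rev_right {l k : List Pt} (h : FirstOne l k) : FirstOne l k.reverse := by
  intro e he
  rw [cnt_pe_reverse]; exact h e he

theorem LastOne.rev_right {l k : List Pt} (h : LastOne l k) : LastOne l k.reverse := by
  intro e he
  rw [cnt_pe_reverse]; exact h e he

theorem Nest.final (hL : GDPLStmt) (hBF : BFStmt) {R B U : Finset Pt} {p q ρ gm gp : Pt}
    (hN : Nest R B U p q ρ gm gp)
    (fin : ∀ z ∈ B, HV (R ∪ (B \ U)) z → ¬ dt p q z < 0) {β : Pt} (hβ : β ∈ B \ U)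
    (hβv : HV (R ∪ B) β) {Q : List (Pt × Pt) → Prop}
    (hQ : ∀ F G : List (Pt × Pt), Q G → Q (F ++ G))
    (hPQ : ∀ t, t ∈ U → t ≠ ρ → HV U ρ → HV U t → ∃ k, HamPath U ρ t k ∧ Q (pe k)) :
    ∃ E F, Cyc R E ∧ Cyc B F ∧ Conf E F ∧ Q F := by
  classical
  have hW := hN.win
  have hρU := hN.hρ
  have hρB : ρ ∈ B := hW.hU hρU
  have hρR : ρ ∉ R := fun h => Finset.disjoint_left.1 hW.dj h hρB
  have hSρ : R ∪ (B \ U.erase ρ) = insert ρ (R ∪ (B \ U)) := by
    ext z
    simp only [Finset.mem_union, Finset.mem_sdiff, Finset.mem_insert, Finset.mem_erase]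
    constructor
    · rintro (h | h)
      · exact Or.inr (Or.inl h)
      · by_cases hz : z = ρ
        · exact Or.inl hz
        · exact Or.inr (Or.inr ⟨h.1, fun h' => h.2 ⟨hz, h'⟩⟩)
    · rintro (h | h | h)
      · exact Or.inr ⟨h ▸ hρB, fun h' => h'.1 h⟩
      · exact Or.inl h
      · exact Or.inr ⟨h.1, fun h' => h.2 h'.2⟩
  have em := hN.em
  have ep := hN.ep
  rw [hSρ] at em ep
  set S : Finset Pt := R ∪ (B \ U) with hSdef
  have hρS : ρ ∉ S := by
    intro h
    rcases Finset.mem_union.1 h with h | h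
    · exact hρR h
    · exact (Finset.mem_sdiff.1 h).2 hρU
  have hSsub : S ⊆ R ∪ B := hW.sub
  have hGS : GP S := hW.gp.mono hSsub
  have hSR : ∀ z ∈ S, z ∉ B → z ∈ R := by
    intro z hz hzB
    rcases Finset.mem_union.1 hz with h | h
    · exact h
    · exact absurd (Finset.mem_sdiff.1 h).1 hzB
  have hρP : ρ ∈ R ∪ B := Finset.mem_union_right _ hρB
  have hρS' : insert ρ S ⊆ R ∪ B := by
    intro z hz
    rcases Finset.mem_insert.1 hz with rfl | hz
    · exact hρP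
    · exact hSsub hz
  have hUP : ∀ z ∈ U, z ∈ R ∪ B := fun z hz => Finset.mem_union_right _ (hW.hU hz)
  have hUS : ∀ z ∈ U, z ∉ S := by
    intro z hz h
    rcases Finset.mem_union.1 h with h | h
    · exact Finset.disjoint_left.1 hW.dj h (hW.hU hz)
    · exact (Finset.mem_sdiff.1 h).2 hz
  have hpS : p ∈ S := Finset.mem_union_left _ hW.pR
  have hqS : q ∈ S := Finset.mem_union_left _ hW.qR
  have hgmS : gm ∈ S := by
    rcases Finset.mem_insert.1 em.1 with h | h
    · exact absurd h em.ne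
    · exact h
  have hgpS : gp ∈ S := by
    rcases Finset.mem_insert.1 ep.2.1 with h | h
    · exact absurd h ep.ne.symm
    · exact h
  have hpρ : p ≠ ρ := fun e => hρS (e ▸ hpS)
  have hqρ : q ≠ ρ := fun e => hρS (e ▸ hqS)
  have hc3 : 3 ≤ (insert ρ S).card :=
    card_ge_three (Finset.mem_insert_of_mem hpS) (Finset.mem_insert_of_mem hqS)
      (Finset.mem_insert_self _ _) hW.pq hpρ hqρ
  have hgg : gp ≠ gm := by
    intro e
    rw [e] at ep
    exact em.not_symm hc3 ep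
  have hD : 0 < dt gm ρ gp := em.2.2.2 gp ep.2.1 hgg ep.ne.symm
  obtain ⟨_, a, ha⟩ := em.hv_right
  have hlow : ∀ z ∈ S, fn a ρ < fn a z := fun z hz =>
    ha z (Finset.mem_insert_of_mem hz) (fun e => hρS (e ▸ hz))
  have hcone : ∀ z ∈ U, z ≠ ρ → dt gm ρ z < 0 ∧ dt ρ gp z < 0 := fun z hz hzρ =>
    ⟨hN.cm z (Finset.mem_erase.2 ⟨hzρ, hz⟩), hN.cp z (Finset.mem_erase.2 ⟨hzρ, hz⟩)⟩
  have hup : ∀ z ∈ U, z ≠ ρ → fn a z < fn a ρ := fun z hz hzρ =>
    cone_fn hD (hcone z hz hzρ).1 (hcone z hz hzρ).2 (hlow gm hgmS) (hlow gp hgpS)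
  have hUρ : HV U ρ := by
    refine ⟨hρU, -a, ?_⟩
    intro z hz hzρ
    rw [fn_neg, fn_neg]
    have := hup z hz hzρ
    linarith
  obtain ⟨d0, hd0⟩ := hN.Dne
  have hd0' := Finset.mem_erase.1 hd0
  have hUc : 2 ≤ U.card := card_ge_two hρU hd0'.2 hd0'.1.symm
  have hGU : GP U := hW.gp.mono hUP
  obtain ⟨d1, hd1⟩ := hUρ.next hGU hUc
  obtain ⟨d2, hd2⟩ := hUρ.prev hGU hUc
  have d1U := hd1.2.1
  have d2U := hd2.1
  have d1ρ : d1 ≠ ρ := hd1.ne.symm
  have d2ρ : d2 ≠ ρ := hd2.ne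
  have hd12 : d1 = d2 ∨ 0 < dt ρ d1 d2 := by
    by_cases h : d1 = d2
    · exact Or.inl h
    · exact Or.inr (hd1.2.2.2 d2 d2U d2ρ (Ne.symm h))
  have hβS : β ∈ S := Finset.mem_union_right _ hβ
  -- the big sets
  have hsubd : ∀ d ∈ U, insert d (insert ρ S) ⊆ R ∪ B := by
    intro d hd z hz
    rcases Finset.mem_insert.1 hz with rfl | hz
    · exact hUP _ hd
    · exact hρS' hz
  have hhull : ∀ d ∈ U, d ≠ ρ → HV (insert d (insert ρ S)) d := by
    intro d hd hdρ
    refine ⟨Finset.mem_insert_self _ _, (-(ρ.2 - gm.2), ρ.1 - gm.1), ?_⟩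
    intro z hz hzd
    have hz' : z ∈ insert ρ S := by
      rcases Finset.mem_insert.1 hz with h | h
      · exact absurd h hzd
      · exact h
    have h1 := em.weak hz'
    have h2 := (hcone d hd hdρ).1
    rw [dt_eq_fn] at h1 h2
    linarith
  have hc2 : ∀ d : Pt, 2 ≤ (insert d (insert ρ S)).card := fun d =>
    card_ge_two (Finset.mem_insert_of_mem (Finset.mem_insert_of_mem hpS))
      (Finset.mem_insert_of_mem (Finset.mem_insert_of_mem hqS)) hW.pq
  obtain ⟨g, hg⟩ := (hhull d1 d1U d1ρ).prev (hW.gp.mono (hsubd d1 d1U)) (hc2 d1)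
  obtain ⟨g', hg'⟩ := (hhull d2 d2U d2ρ).next (hW.gp.mono (hsubd d2 d2U)) (hc2 d2)
  have hrs : ∀ d : Pt, ρ ∈ insert d (insert ρ S) := fun d => by simp
  have hSs : ∀ d : Pt, ∀ z ∈ S, z ∈ insert d (insert ρ S) := fun d z hz => by simp [hz]
  have gρ : g ≠ ρ := by
    intro e
    rw [e] at hg
    have h1 := hg.2.2.2 gm (hSs _ _ hgmS) em.ne (fun e => hUS d1 d1U (e ▸ hgmS))
    have h2 := (hcone d1 d1U d1ρ).1
    rw [← dt_rot] at h2
    linarith
  have gρ' : g' ≠ ρ := by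
    intro e
    rw [e] at hg'
    have h1 := hg'.2.2.2 gp (hSs _ _ hgpS) (fun e => hUS d2 d2U (e ▸ hgpS)) ep.ne.symm
    have h2 := (hcone d2 d2U d2ρ).2
    have h3 : dt ρ gp d2 = dt d2 ρ gp := by unfold dt; ring
    linarith
  have hgS : g ∈ S := by
    rcases Finset.mem_insert.1 hg.1 with h | h
    · exact absurd h hg.ne
    rcases Finset.mem_insert.1 h with h | h
    · exact absurd h gρ
    · exact h
  have hgS' : g' ∈ S := by
    rcases Finset.mem_insert.1 hg'.2.1 with h | h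
    · exact absurd h hg'.ne.symm
    rcases Finset.mem_insert.1 h with h | h
    · exact absurd h gρ'
    · exact h
  have hSd : ∀ z ∈ S, ∀ d ∈ U, z ≠ d := fun z hz d hd e => hUS d hd (e ▸ hz)
  have vg : HV S g := hg.hv_left.mono (fun z hz => hSs _ z hz) hgS
  have vg' : HV S g' := hg'.hv_right.mono (fun z hz => hSs _ z hz) hgS'
  have vgm : HV S gm := em.hv_left.mono (Finset.subset_insert _ _) hgmS
  have vgp : HV S gp := ep.hv_right.mono (Finset.subset_insert _ _) hgpS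
  have md1 := hW.dU d1 d1U
  have md2 := hW.dU d2 d2U
  have mρ := hW.dU ρ hρU
  -- positions with respect to p q
  have mg : dt p q g ≤ 0 := by
    by_contra hc
    push Not at hc
    have ngp : p ≠ g := by rintro rfl; simp at hc
    refine hW.hp.not_in_triangle (hSsub hgS) (hUP _ d1U) hW.hq.1 ?_ ?_ ?_
    · exact hg.2.2.2 p (hSs _ _ hpS) ngp (hSd p hpS d1 d1U)
    · rw [dt_swap'']; linarith
    · rw [dt_rot]; exact hc
  have mg' : dt p q g' ≤ 0 := by
    by_contra hc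
    push Not at hc
    have ngq : q ≠ g' := by rintro rfl; simp at hc
    refine hW.hq.not_in_triangle (hUP _ d2U) (hSsub hgS') hW.hp.1 ?_ ?_ ?_
    · exact hg'.2.2.2 q (hSs _ _ hqS) (hSd q hqS d2 d2U) ngq
    · rw [dt_rot']; exact hc
    · rw [dt_swap']; linarith
  have mgp : dt p q gp ≤ 0 :=
    side_right hW.gp hW.hp hW.hq (hSsub hgpS) (hUP _ d1U) (hcone d1 d1U d1ρ).2
      (ep.weak (Finset.mem_insert_of_mem hpS)) (ep.weak (Finset.mem_insert_of_mem hqS)) md1
  have mgm : dt p q gm ≤ 0 :=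
    side_left hW.gp hW.hp hW.hq (hSsub hgmS) (hUP _ d1U) (hcone d1 d1U d1ρ).1
      (em.weak (Finset.mem_insert_of_mem hpS)) (em.weak (Finset.mem_insert_of_mem hqS)) md1
  have red : ∀ z, HV S z → dt p q z ≤ 0 → z ∈ R := by
    intro z hz hm
    by_cases hzB : z ∈ B
    · exfalso
      have hne := hW.not_red hzB
      exact fin z hzB hz (lt_of_le_of_ne hm
        (hW.gp p hW.hp.1 q hW.hq.1 z (hSsub hz.1) hW.pq hne.1.symm hne.2.symm))
    · exact hSR z hz.1 hzB
  have hgR := red g vg mg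
  have hgR' := red g' vg' mg'
  have hgmR := red gm vgm mgm
  have hgpR := red gp vgp mgp
  -- basic orientations
  have o1 : ∀ z ∈ S, z ≠ g → 0 < dt g d1 z := fun z hz hzg =>
    hg.2.2.2 z (hSs _ z hz) hzg (hSd z hz d1 d1U)
  have o1ρ : 0 < dt g d1 ρ := hg.2.2.2 ρ (hrs _) gρ.symm d1ρ.symm
  have o2 : ∀ z ∈ S, z ≠ g' → 0 < dt d2 g' z := fun z hz hzg =>
    hg'.2.2.2 z (hSs _ z hz) (hSd z hz d2 d2U) hzg
  have o2ρ : 0 < dt d2 g' ρ := hg'.2.2.2 ρ (hrs _) d2ρ.symm gρ'.symm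
  have om : ∀ z ∈ S, z ≠ gm → 0 < dt gm ρ z := fun z hz hzg =>
    em.2.2.2 z (Finset.mem_insert_of_mem hz) hzg (fun e => hρS (e ▸ hz))
  have op : ∀ z ∈ S, z ≠ gp → 0 < dt ρ gp z := fun z hz hzg =>
    ep.2.2.2 z (Finset.mem_insert_of_mem hz) (fun e => hρS (e ▸ hz)) hzg
  have ggp : g ≠ gp := by
    intro e
    have h1 := (hcone d1 d1U d1ρ).2
    have h2 : dt g d1 ρ = dt ρ g d1 := by unfold dt; ring
    rw [e] at h2 o1ρ
    linarith
  have ggm' : g' ≠ gm := by
    intro e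
    have h1 := (hcone d2 d2U d2ρ).1
    have h2 : dt d2 g' ρ = dt g' ρ d2 := by unfold dt; ring
    rw [e] at h2 o2ρ
    linarith
  -- the order around ρ
  have lp := hlow p hpS
  have lq := hlow q hqS
  have lg := hlow g hgS
  have lg' := hlow g' hgS'
  have l1 := hup d1 d1U d1ρ
  have l2 := hup d2 d2U d2ρ
  have q1 : 0 < dt ρ q p := by
    have h1 : dt ρ q p = - dt p q ρ := dt_swap'' p q ρ
    rw [h1]; linarith
  have q2 : p = g ∨ 0 < dt ρ p g := by
    by_cases hpg : p = g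
    · exact Or.inl hpg
    right
    rcases lt_or_gt_of_ne (hW.gp ρ hρP p hW.hp.1 g (hSsub hgS) hpρ.symm gρ.symm hpg) with h | h
    · exfalso
      have h1 : dt g ρ p < 0 := by rw [← dt_rot']; rw [dt_rot]; exact h
      have h2 := wedge1 lg l1 lp o1ρ h1
      refine hW.hp.not_in_triangle (hSsub hgS) (hUP _ d1U) hρP (o1 p hpS hpg) h2 ?_
      rw [dt_swap']; linarith
    · exact h
  have q3 : g' = q ∨ 0 < dt ρ g' q := by
    by_cases hqg : g' = q
    · exact Or.inl hqg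
    right
    rcases lt_or_gt_of_ne (hW.gp ρ hρP g' (hSsub hgS') q hW.hq.1 gρ'.symm hqρ.symm hqg) with h | h
    · exfalso
      have h2 := wedge2 lg' l2 lq o2ρ h
      refine hW.hq.not_in_triangle (hUP _ d2U) (hSsub hgS') hρP (o2 q hqS (Ne.symm hqg)) ?_ h2
      rw [dt_swap]; linarith
    · exact h
  have q4 : 0 < dt ρ g' g := by
    have h1 : 0 < dt ρ g' p := by
      rcases q3 with h | h
      · rw [h]; exact q1
      · exact ang_trans lg' lq lp h q1
    rcases q2 with h | h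
    · rw [← h]; exact h1
    · exact ang_trans lg' lp lg h1 h
  have gg' : g ≠ g' := by
    rintro rfl; simp at q4
  have q5 : gp = g' ∨ 0 < dt g gp g' := by
    by_cases h0 : gp = g'
    · exact Or.inl h0
    right
    rcases lt_or_gt_of_ne (hW.gp g (hSsub hgS) gp (hSsub hgpS) g' (hSsub hgS') ggp gg' h0)
      with h | h
    · exfalso
      refine (hg'.hv_right).not_in_triangle (hrs _) (hSs _ _ hgpS) (hSs _ _ hgS) ?_ ?_ ?_
      · exact op g' hgS' (Ne.symm h0)
      · rw [dt_rot']; rw [dt_swap']; linarith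
      · rw [dt_rot']; exact q4
    · exact h
  have q6 : gm = g ∨ 0 < dt g gm g' := by
    by_cases h0 : gm = g
    · exact Or.inl h0
    right
    rcases lt_or_gt_of_ne (hW.gp g (hSsub hgS) gm (hSsub hgmS) g' (hSsub hgS') (Ne.symm h0) gg'
      (Ne.symm ggm')) with h | h
    · exfalso
      refine (hg.hv_left).not_in_triangle (hSs _ _ hgmS) (hrs _) (hSs _ _ hgS') ?_ ?_ ?_
      · exact om g hgS (Ne.symm h0)
      · exact q4
      · rw [dt_rot']; rw [dt_swap]
        have : dt g gm g' = dt gm g' g := by unfold dt; ring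
        linarith
    · exact h
  -- the chains
  have hz1 : ∀ z, HV S z → 0 < dt g z gp → dt p q z < 0 := by
    intro z hz h5
    have nz1 : z ≠ g := by rintro rfl; simp at h5
    have nz2 : z ≠ gp := by rintro rfl; simp at h5
    exact side_L1 mg md1 mgp (o1 gp hgpS (Ne.symm ggp)) (o1 z hz.1 nz1) (op z hz.1 nz2)
      (hcone d1 d1U d1ρ).2 (op g hgS ggp) h5
  have hz2 : ∀ z, HV S z → 0 < dt gm z g' → dt p q z < 0 := by
    intro z hz h5
    have nz1 : z ≠ gm := by rintro rfl; simp at h5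
    have nz2 : z ≠ g' := by rintro rfl; simp at h5
    refine side_L1' mgm md2 mg' ?_ (o2 z hz.1 nz2) (om z hz.1 nz1)
      (hcone d2 d2U d2ρ).1 (om g' hgS' ggm') h5
    have := o2 gm hgmS (Ne.symm ggm')
    have e : dt gm d2 g' = dt d2 g' gm := by unfold dt; ring
    rw [e]; exact this
  have hz3 : ∀ z, HV S z → 0 < dt g z g' → dt p q z < 0 := by
    intro z hz h5
    have nz1 : z ≠ g := by rintro rfl; simp at h5
    have nz2 : z ≠ g' := by rintro rfl; simp at h5
    exact side_L2 mg md1 md2 mρ mg' lg lg' l1 l2 (hlow z hz.1) o1ρ o2ρ (o1 z hz.1 nz1)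
      (o2 z hz.1 nz2) h5
  have nb : ∀ z, HV S z → dt p q z < 0 → z ∉ B := fun z hz hm hzB => fin z hzB hz hm
  obtain ⟨K1, k1n, k1R, k1h, k1l, k1e, k1m, k1i⟩ := chainK hGS hSR vg vgp hgR hgpR ggp
    (fun z hz h => nb z hz (hz1 z hz h))
  obtain ⟨K2, k2n, k2R, k2h, k2l, k2e, k2m, k2i⟩ := chainK hGS hSR vgm vg' hgmR hgR'
    (Ne.symm ggm') (fun z hz h => nb z hz (hz2 z hz h))
  obtain ⟨K3, k3n, k3R, k3h, k3l, k3e, k3m, k3i⟩ := chainK hGS hSR vg vg' hgR hgR' gg'
    (fun z hz h => nb z hz (hz3 z hz h))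
  have hBne : (B \ U).Nonempty := ⟨β, hβ⟩
  have hdisj : Disjoint R (B \ U) := Finset.disjoint_of_subset_right Finset.sdiff_subset hW.dj
  -- closing an `Out`
  have fin1 : Out R (B \ U) d1 ρ → ∃ E F, Cyc R E ∧ Cyc B F ∧ Conf E F ∧ Q F := by
    rintro ⟨E, l, w1, l', hE, hl, hc, hl', hw1, hw⟩
    obtain ⟨k, hk, hQk⟩ := hPQ d1 d1U d1ρ hUρ hd1.hv_right
    refine close_out (σ := 1) hQ hW.hU hE hl hc hl' hw1 hρU d1U d1ρ hup hlow hk hQk ?_ ?_
    · intro z hz
      have := hd1.weak hz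
      linarith
    · rw [dt_swap]; linarith
  have fin2 : Out' R (B \ U) d2 ρ → ∃ E F, Cyc R E ∧ Cyc B F ∧ Conf E F ∧ Q F := by
    rintro ⟨E, l, w1, l', hE, hl, hc, hl', hw1, hw⟩
    obtain ⟨k, hk, hQk⟩ := hPQ d2 d2U d2ρ hUρ hd2.hv_left
    refine close_out (σ := -1) hQ hW.hU hE hl hc hl' hw1 hρU d2U d2ρ hup hlow hk hQk ?_ ?_
    · intro z hz
      have := hd2.weak hz
      rw [dt_swap]; linarith
    · rw [dt_swap]; linarith
  -- data for the double penalty lemmas
  have hsub1 : R \ (K1.toFinset \ {g, gp}) ∪ (B \ U) ⊆ S :=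
    Finset.union_subset_union Finset.sdiff_subset (Finset.Subset.refl _)
  have hsub2 : R \ (K2.toFinset \ {gm, g'}) ∪ (B \ U) ⊆ S :=
    Finset.union_subset_union Finset.sdiff_subset (Finset.Subset.refl _)
  have ins : ∀ {X Y : Finset Pt} (d : Pt), X ⊆ Y → insert d X ⊆ insert d Y := fun d h =>
    Finset.insert_subset_insert d h
  have hdis : ∀ X : Finset Pt, X ⊆ R → Disjoint X (B \ U) := fun X hX =>
    Finset.disjoint_of_subset_left hX hdisj
  have hβ1 : ∀ (X : Finset Pt) (d : Pt), d ∈ U → X ∪ (B \ U) ⊆ S →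
      HV (insert d (insert ρ (X ∪ (B \ U)))) β := by
    intro X d hd hX
    exact hβv.mono ((ins d (ins ρ hX)).trans (hsubd d hd)) (by simp [Finset.mem_sdiff.1 hβ])
  have A1 : NL (R \ (K1.toFinset \ {g, gp})) (B \ U) g gp d1 ρ ∨
      LF (R \ (K1.toFinset \ {g, gp})) (B \ U) d1 ρ := by
    apply hL _ _ g gp d1 ρ a β _ hβ (hβ1 _ d1 d1U hsub1)
    have m1 : g ∈ R \ (K1.toFinset \ {g, gp}) := by simp [hgR]
    have m2 : gp ∈ R \ (K1.toFinset \ {g, gp}) := by simp [hgpR]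
    refine ⟨?_, hdis _ Finset.sdiff_subset, m1, m2, ggp, ?_, ?_, d1ρ, ?_, ?_, l1, ?_⟩
    · exact hW.gp.mono ((ins d1 (ins ρ hsub1)).trans (hsubd d1 d1U))
    · exact fun h => hUS d1 d1U (hsub1 h)
    · exact fun h => hρS (hsub1 h)
    · exact hg.mono (ins d1 (ins ρ hsub1)) (by simp [hgR]) (by simp)
    · exact ep.mono (ins ρ hsub1) (by simp) (by simp [hgpR])
    · exact fun z hz => hlow z (hsub1 hz)
  rcases A1 with A1 | A1
  · obtain ⟨lR, lB, w1, l', hT, hF, hLa, hl', hw1, hw⟩ := A1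
    obtain ⟨E, hE, hEc⟩ := closeK hGS hBne
      (fun h => hUS d1 d1U (Finset.mem_union_right _ h)) (fun h => hρS (Finset.mem_union_right _ h))
      d1ρ ggp k1n k1R k1h k1l k1e hT.hR hT.hB hT.conf hF hLa
    exact fin1 ⟨E, lB, w1, l', hE, hT.hB, hEc, hl', hw1, hw⟩
  have A2 : NL' (R \ (K2.toFinset \ {gm, g'})) (B \ U) g' gm d2 ρ ∨
      LF' (R \ (K2.toFinset \ {gm, g'})) (B \ U) d2 ρ := by
    apply gdpr hL _ _ g' gm d2 ρ a β _ hβ (hβ1 _ d2 d2U hsub2)
    have m1 : g' ∈ R \ (K2.toFinset \ {gm, g'}) := by simp [hgR']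
    have m2 : gm ∈ R \ (K2.toFinset \ {gm, g'}) := by simp [hgmR]
    refine ⟨?_, hdis _ Finset.sdiff_subset, m1, m2, ggm', ?_, ?_, d2ρ, ?_, ?_, l2, ?_⟩
    · exact hW.gp.mono ((ins d2 (ins ρ hsub2)).trans (hsubd d2 d2U))
    · exact fun h => hUS d2 d2U (hsub2 h)
    · exact fun h => hρS (hsub2 h)
    · exact hg'.mono (ins d2 (ins ρ hsub2)) (by simp) (by simp [hgR'])
    · exact em.mono (ins ρ hsub2) (by simp [hgmR]) (by simp)
    · exact fun z hz => hlow z (hsub2 hz)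
  rcases A2 with A2 | A2
  · obtain ⟨lR, lB, w1, l', hT, hF, hLa, hl', hw1, hw⟩ := A2
    obtain ⟨E, hE, hEc⟩ := closeK hGS hBne
      (fun h => hUS d2 d2U (Finset.mem_union_right _ h)) (fun h => hρS (Finset.mem_union_right _ h))
      d2ρ (Ne.symm ggm') k2n k2R k2h k2l k2e hT.hR.reverse hT.hB (hT.hR.conf_rev hT.conf)
      hF.rev_right hLa.rev_right
    exact fin2 ⟨E, lB, w1, l', hE, hT.hB, hEc, hl', hw1, hw⟩
  -- both fail
  have hBFr : Out R (B \ U) d1 ρ ∨ Out' R (B \ U) d2 ρ := by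
    apply hBF R (B \ U) d1 d2 ρ a g g' K3 _ hdisj hBne (hUS d1 d1U) (hUS d2 d2U) hρS d1ρ d2ρ hd12
      l1 l2 hlow hg hg' k3n k3R k3h k3l k3e gg' q4 _ _
    · apply hW.gp.mono
      intro z hz
      rcases Finset.mem_insert.1 hz with rfl | hz
      · exact hUP _ d1U
      · exact hsubd d2 d2U hz
    · intro r hr hrK b hb h1 h2
      apply A1.2 r _ b hb h1 h2
      rw [Finset.mem_sdiff, Finset.mem_sdiff, List.mem_toFinset]
      refine ⟨hr, ?_⟩
      rintro ⟨h3, h4⟩
      simp only [Finset.mem_insert, Finset.mem_singleton, not_or] at h4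
      rcases k1m r h3 with h | h | ⟨hv, h⟩
      · exact h4.1 h
      · exact h4.2 h
      -- r is between g and gp, hence in K3
      have h5 : 0 < dt g r g' := by
        rcases q5 with h6 | h6
        · rw [← h6]; exact h
        · obtain ⟨_, b1, hb1⟩ := vg
          have nr : r ≠ g := h4.1
          exact ang_trans (hb1 r hv.1 nr) (hb1 gp hgpS (Ne.symm ggp)) (hb1 g' hgS' (Ne.symm gg'))
            h h6
      rcases hrK (k3i r hv h5) with h7 | h7
      · exact h4.1 h7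
      · rw [h7] at h5; simp at h5
    · intro r hr hrK b hb h1 h2
      apply A2.2 r _ b hb h1 h2
      rw [Finset.mem_sdiff, Finset.mem_sdiff, List.mem_toFinset]
      refine ⟨hr, ?_⟩
      rintro ⟨h3, h4⟩
      simp only [Finset.mem_insert, Finset.mem_singleton, not_or] at h4
      rcases k2m r h3 with h | h | ⟨hv, h⟩
      · exact h4.1 h
      · exact h4.2 h
      have hrg : r ≠ g := by
        intro e
        rcases q6 with h6 | h6
        · exact h4.1 (e.trans h6.symm)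
        · rw [e] at h
          rw [dt_swap] at h
          linarith
      have h5 : 0 < dt g r g' := by
        rcases lt_or_gt_of_ne (hW.gp g (hSsub hgS) r (hSsub hv.1) g' (hSsub hgS') (Ne.symm hrg) gg'
          h4.2) with h5 | h5
        · exfalso
          rcases q6 with h6 | h6
          · rw [h6] at h; linarith
          · refine vg'.not_in_triangle hv.1 hgS hgmS ?_ h6 h
            rw [dt_swap]; linarith
        · exact h5
      rcases hrK (k3i r hv h5) with h7 | h7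
      · exact hrg h7
      · exact h4.2 h7
  rcases hBFr with h | h
  · exact fin1 h
  · exact fin2 h

end Pool.Agent.TK
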