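import Pool.Agent.TK.Hull

/-!
# Tokunaga's problem: non-crossing Hamiltonian paths, path lemma and line lemmas
-/

set_option autoImplicit false

namespace Pool.Agent.TK

@[simp] theorem pe_nil : pe [] = [] := rfl
@[simp] theorem pe_single (a : Pt) : pe [a] = [] := rfl
@[simp] theorem pe_cons_cons (a b : Pt) (l : List Pt) : pe (a :: b :: l) = (a, b) :: pe (b :: l) := rfl

theorem mem_of_mem_pe {l : List Pt} {e : Pt × Pt} (h : e ∈ pe l) : e.1 ∈ l ∧ e.2 ∈ l := by
  induction l with
  | nil => simp at h
  | cons a l ih =>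
    cases l with
    | nil => simp at h
    | cons b l =>
      rw [pe_cons_cons, List.mem_cons] at h
      rcases h with rfl | h
      · simp
      · have := ih h
        exact ⟨List.mem_cons_of_mem _ this.1, List.mem_cons_of_mem _ this.2⟩

theorem pe_append (l : List Pt) (a : Pt) (m : List Pt) :
    pe (l ++ a :: m) = pe (l ++ [a]) ++ pe (a :: m) := by
  induction l with
  | nil => simp
  | cons b l ih =>
    cases l with
    | nil => simp
    | cons c l =>
      simp only [List.cons_append, pe_cons_cons]
      have := ih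
      simp only [List.cons_append] at this
      rw [this]

theorem pe_reverse (l : List Pt) : pe l.reverse = ((pe l).map Prod.swap).reverse := by
  induction l with
  | nil => simp
  | cons a l ih =>
    cases l with
    | nil => simp
    | cons b l =>
      rw [List.reverse_cons, List.reverse_cons, List.append_assoc]
      rw [show [b] ++ [a] = b :: [a] from rfl, pe_append, ← List.reverse_cons, ih]
      simp

/-- non-crossing Hamiltonian path of `W` from `s` to `t` -/
structure HamPath (W : Finset Pt) (s t : Pt) (l : List Pt) : Prop where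
  nd : l.Nodup
  ts : l.toFinset = W
  hd : l.head? = some s
  la : l.getLast? = some t
  nc : (pe l).Pairwise (fun e f => ¬ CrossE e f)

theorem HamPath.mem {W : Finset Pt} {s t : Pt} {l : List Pt} (h : HamPath W s t l) {x : Pt} :
    x ∈ l ↔ x ∈ W := by rw [← h.ts, List.mem_toFinset]

theorem HamPath.singleton (s : Pt) : HamPath {s} s s [s] :=
  ⟨by simp, by simp, by simp, by simp, by simp⟩

theorem HamPath.pair {s t : Pt} (h : s ≠ t) : HamPath {s, t} s t [s, t] :=
  ⟨by simp [h], by simp, by simp, by simp, by simp⟩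

theorem HamPath.reverse {W : Finset Pt} {s t : Pt} {l : List Pt} (h : HamPath W s t l) :
    HamPath W t s l.reverse := by
  refine ⟨List.nodup_reverse.2 h.nd, by rw [List.toFinset_reverse]; exact h.ts, ?_, ?_, ?_⟩
  · rw [List.head?_reverse]; exact h.la
  · rw [List.getLast?_reverse]; exact h.hd
  · rw [pe_reverse, List.pairwise_reverse, List.pairwise_map]
    apply h.nc.imp
    intro e f hef hc
    apply hef
    unfold CrossE at *
    simp only [Prod.fst_swap, Prod.snd_swap] at hc
    exact (cross_swap_left.1 (cross_swap_right.1 hc)).symm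

theorem HamPath.cons {W : Finset Pt} {s c t : Pt} {l : List Pt} (hs : s ∈ W)
    (h : HamPath (W.erase s) c t l)
    (hc : ∀ r ∈ W.erase s, ∀ q ∈ W.erase s, ¬ Cross s c r q) : HamPath W s t (s :: l) := by
  have hsl : s ∉ l := by rw [h.mem]; simp
  cases l with
  | nil => have := h.hd; simp at this
  | cons d l =>
    have hd : d = c := by have := h.hd; simpa using this
    subst hd
    refine ⟨List.nodup_cons.2 ⟨hsl, h.nd⟩, ?_, by simp, ?_, ?_⟩
    · rw [List.toFinset_cons, h.ts, Finset.insert_erase hs]
    · rw [List.getLast?_cons_cons]; exact h.la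
    · rw [pe_cons_cons, List.pairwise_cons]
      refine ⟨?_, h.nc⟩
      intro e he
      have := mem_of_mem_pe he
      exact hc _ (h.mem.1 this.1) _ (h.mem.1 this.2)

/-- number of crossings of the path with the line `fn γ = k` -/
noncomputable def lc (γ : Pt) (k : ℝ) (l : List Pt) : ℕ :=
  (pe l).countP (fun e => decide ((fn γ e.1 - k) * (fn γ e.2 - k) < 0))

theorem lc_cons_cons (γ : Pt) (k : ℝ) (a b : Pt) (l : List Pt) :
    lc γ k (a :: b :: l) =
      lc γ k (b :: l) + (if (fn γ a - k) * (fn γ b - k) < 0 then 1 else 0) := by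
  unfold lc
  rw [pe_cons_cons, List.countP_cons]
  simp

theorem lc_zero_of_pos {γ : Pt} {k : ℝ} {l : List Pt} (h : ∀ x ∈ l, k ≤ fn γ x) : lc γ k l = 0 := by
  unfold lc
  rw [List.countP_eq_zero]
  intro e he
  have := mem_of_mem_pe he
  have h1 := h _ this.1
  have h2 := h _ this.2
  simp only [decide_eq_true_eq, not_lt]
  exact mul_nonneg (by linarith) (by linarith)

theorem lc_neg (γ : Pt) (k : ℝ) (l : List Pt) : lc (-γ) (-k) l = lc γ k l := by
  unfold lc
  congr 1
  funext e
  congr 1
  have : ∀ x, fn (-γ) x - -k = -(fn γ x - k) := by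
    intro x; unfold fn; simp; ring
  rw [this, this, neg_mul_neg]

theorem lc_zero_of_neg {γ : Pt} {k : ℝ} {l : List Pt} (h : ∀ x ∈ l, fn γ x ≤ k) : lc γ k l = 0 := by
  rw [← lc_neg]
  apply lc_zero_of_pos
  intro x hx
  have := h x hx
  have e : fn (-γ) x = - fn γ x := by unfold fn; simp; ring
  rw [e]; linarith

theorem lc_reverse (γ : Pt) (k : ℝ) (l : List Pt) : lc γ k l.reverse = lc γ k l := by
  unfold lc
  rw [pe_reverse, List.countP_reverse, List.countP_map]
  congr 1
  funext e
  simp [mul_comm]

theorem card_erase_lt {W : Finset Pt} {s : Pt} (hs : s ∈ W) : (W.erase s).card < W.card :=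
  Finset.card_lt_card (Finset.erase_ssubset hs)

/-- PATH LEMMA -/
theorem path_lemma (n : ℕ) : ∀ W : Finset Pt, W.card = n → GP W → ∀ s t : Pt, HV W s → HV W t →
    s ≠ t → ∃ l, HamPath W s t l := by
  induction n using Nat.strong_induction_on with
  | _ n ih =>
    intro W hW hG s t hs ht hst
    have h2 : 2 ≤ W.card := by
      have : ({s, t} : Finset Pt) ⊆ W := by
        intro x hx; simp at hx; rcases hx with rfl | rfl
        · exact hs.1
        · exact ht.1
      calc 2 = ({s, t} : Finset Pt).card := (Finset.card_pair hst).symm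
        _ ≤ W.card := Finset.card_le_card this
    obtain ⟨v, hv⟩ := hs.next hG h2
    obtain ⟨w, hw⟩ := hs.prev hG h2
    rcases Nat.lt_or_ge 2 W.card with h3 | h3
    · have hvw : v ≠ w := by
        intro e; subst e
        exact hv.not_symm h3 hw
      -- the common step
      have step : ∀ c, HV W c → c ≠ s → c ≠ t → (∀ r ∈ W.erase s, ∀ q ∈ W.erase s, ¬ Cross s c r q) →
          ∃ l, HamPath W s t l := by
        intro c hc hcs hct hcr
        obtain ⟨l, hl⟩ := ih (W.erase s).card (hW ▸ card_erase_lt hs.1) (W.erase s) rfl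
          (hG.mono (Finset.erase_subset _ _)) c t
          (hc.mono (Finset.erase_subset _ _) (Finset.mem_erase.2 ⟨hcs, hc.1⟩))
          (ht.mono (Finset.erase_subset _ _) (Finset.mem_erase.2 ⟨hst.symm, ht.1⟩)) hct
        exact ⟨s :: l, hl.cons hs.1 hcr⟩
      by_cases hvt : v = t
      · refine step w hw.hv_left hw.ne (by rw [← hvt]; exact hvw.symm) ?_
        intro r hr q hq
        exact hw.not_cross' (Finset.mem_of_mem_erase hr) (Finset.mem_of_mem_erase hq)
      · refine step v hv.hv_right hv.ne.symm hvt ?_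
        intro r hr q hq
        exact hv.not_cross (Finset.mem_of_mem_erase hr) (Finset.mem_of_mem_erase hq)
    · have : W = {s, t} := by
        symm
        apply Finset.eq_of_subset_of_card_le
        · intro x hx; simp at hx; rcases hx with rfl | rfl
          · exact hs.1
          · exact ht.1
        · rw [Finset.card_pair hst]; exact h3
      rw [this]
      exact ⟨_, HamPath.pair hst⟩

theorem HV.path {W : Finset Pt} (hG : GP W) {s t : Pt} (hs : HV W s) (ht : HV W t) (hst : s ≠ t) :
    ∃ l, HamPath W s t l := path_lemma W.card W rfl hG s t hs ht hst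

theorem fn_neg (γ x : Pt) : fn (-γ) x = - fn γ x := by unfold fn; simp; ring

theorem HamPath.lc_le_one {W : Finset Pt} {s t : Pt} {l : List Pt} (h : HamPath W s t l) {γ : Pt}
    {k : ℝ} (hp : ∀ x ∈ W, x ≠ s → k ≤ fn γ x) : lc γ k l ≤ 1 := by
  cases l with
  | nil => simp [lc]
  | cons a l =>
    have ha : a = s := by have := h.hd; simpa using this
    subst ha
    cases l with
    | nil => simp [lc]
    | cons b l =>
      rw [lc_cons_cons, lc_zero_of_pos]
      · split_ifs <;> simp
      · intro x hx
        apply hp x (h.mem.1 (List.mem_cons_of_mem _ hx))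
        intro e
        subst e
        exact (List.nodup_cons.1 h.nd).1 hx

/-- LINE LEMMA (a) -/
theorem line_lemma_a (n : ℕ) : ∀ W : Finset Pt, W.card = n → GP W → ∀ (γ : Pt) (k : ℝ),
    (∀ x ∈ W, fn γ x ≠ k) → ∀ s t : Pt, HV W s → HV W t → fn γ s < k → k < fn γ t →
    ∃ l, HamPath W s t l ∧ lc γ k l ≤ 1 := by
  induction n using Nat.strong_induction_on with
  | _ n ih =>
    intro W hW hG γ k h0 s t hs ht h1 h2
    have hst : s ≠ t := by intro e; rw [e] at h1; linarith
    have h2c : 2 ≤ W.card := by
      have : ({s, t} : Finset Pt) ⊆ W := by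
        intro x hx; simp at hx; rcases hx with rfl | rfl
        · exact hs.1
        · exact ht.1
      calc 2 = ({s, t} : Finset Pt).card := (Finset.card_pair hst).symm
        _ ≤ W.card := Finset.card_le_card this
    by_cases hm : ∀ x ∈ W, x ≠ s → k < fn γ x
    · obtain ⟨l, hl⟩ := hs.path hG ht hst
      exact ⟨l, hl, hl.lc_le_one (fun x hx hxs => (hm x hx hxs).le)⟩
    by_cases hp : ∀ x ∈ W, x ≠ t → fn γ x < k
    · obtain ⟨l, hl⟩ := ht.path hG hs hst.symm
      refine ⟨l.reverse, hl.reverse, ?_⟩
      rw [lc_reverse, ← lc_neg]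
      apply hl.lc_le_one
      intro x hx hxs
      rw [fn_neg]
      have := hp x hx hxs
      linarith
    obtain ⟨s1, hs1⟩ := hs.next hG h2c
    obtain ⟨s2, hs2⟩ := hs.prev hG h2c
    obtain ⟨t1, ht1⟩ := ht.next hG h2c
    obtain ⟨t2, ht2⟩ := ht.prev hG h2c
    -- step from s
    have stepS : ∀ c, HV W c → c ≠ s → fn γ c < k →
        (∀ r ∈ W.erase s, ∀ q ∈ W.erase s, ¬ Cross s c r q) →
        ∃ l, HamPath W s t l ∧ lc γ k l ≤ 1 := by
      intro c hc hcs hck hcr
      obtain ⟨l, hl, hll⟩ := ih (W.erase s).card (hW ▸ card_erase_lt hs.1) (W.erase s) rfl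
        (hG.mono (Finset.erase_subset _ _)) γ k (fun x hx => h0 x (Finset.mem_of_mem_erase hx)) c t
        (hc.mono (Finset.erase_subset _ _) (Finset.mem_erase.2 ⟨hcs, hc.1⟩))
        (ht.mono (Finset.erase_subset _ _) (Finset.mem_erase.2 ⟨hst.symm, ht.1⟩)) hck h2
      refine ⟨s :: l, hl.cons hs.1 hcr, ?_⟩
      cases l with
      | nil => simp [lc]
      | cons d l =>
        have hd : d = c := by have := hl.hd; simpa using this
        subst hd
        rw [lc_cons_cons, if_neg]
        · simpa using hll
        · rw [not_lt]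
          exact (mul_pos_of_neg_of_neg (by linarith) (by linarith)).le
    have stepT : ∀ c, HV W c → c ≠ t → k < fn γ c →
        (∀ r ∈ W.erase t, ∀ q ∈ W.erase t, ¬ Cross t c r q) →
        ∃ l, HamPath W s t l ∧ lc γ k l ≤ 1 := by
      intro c hc hct hck hcr
      obtain ⟨l, hl, hll⟩ := ih (W.erase t).card (hW ▸ card_erase_lt ht.1) (W.erase t) rfl
        (hG.mono (Finset.erase_subset _ _)) (-γ) (-k) (fun x hx => by
          rw [fn_neg]; intro e; exact h0 x (Finset.mem_of_mem_erase hx) (by linarith)) c s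
        (hc.mono (Finset.erase_subset _ _) (Finset.mem_erase.2 ⟨hct, hc.1⟩))
        (hs.mono (Finset.erase_subset _ _) (Finset.mem_erase.2 ⟨hst, hs.1⟩))
        (by rw [fn_neg]; linarith) (by rw [fn_neg]; linarith)
      refine ⟨(t :: l).reverse, (hl.cons ht.1 hcr).reverse, ?_⟩
      rw [lc_reverse]
      rw [lc_neg] at hll
      cases l with
      | nil => simp [lc]
      | cons d l =>
        have hd : d = c := by have := hl.hd; simpa using this
        subst hd
        rw [lc_cons_cons, if_neg]
        · simpa using hll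
        · rw [not_lt]
          exact (mul_pos (by linarith) (by linarith)).le
    rcases lt_or_gt_of_ne (h0 s1 hs1.2.1) with a1 | a1
    · exact stepS s1 hs1.hv_right hs1.ne.symm a1 (fun r hr q hq =>
        hs1.not_cross (Finset.mem_of_mem_erase hr) (Finset.mem_of_mem_erase hq))
    rcases lt_or_gt_of_ne (h0 s2 hs2.1) with a2 | a2
    · exact stepS s2 hs2.hv_left hs2.ne a2 (fun r hr q hq =>
        hs2.not_cross' (Finset.mem_of_mem_erase hr) (Finset.mem_of_mem_erase hq))
    rcases lt_or_gt_of_ne (h0 t1 ht1.2.1) with b1 | b1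
    swap
    · exact stepT t1 ht1.hv_right ht1.ne.symm b1 (fun r hr q hq =>
        ht1.not_cross (Finset.mem_of_mem_erase hr) (Finset.mem_of_mem_erase hq))
    rcases lt_or_gt_of_ne (h0 t2 ht2.1) with b2 | b2
    swap
    · exact stepT t2 ht2.hv_left ht2.ne b2 (fun r hr q hq =>
        ht2.not_cross' (Finset.mem_of_mem_erase hr) (Finset.mem_of_mem_erase hq))
    exfalso
    obtain ⟨e1, e2⟩ := bridge_unique hG hs1 ht2 h1 a1 b2 h2
    obtain ⟨e3, e4⟩ := bridge_unique (c := -γ) (k := -k) hG hs2 ht1 (by rw [fn_neg]; linarith)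
      (by rw [fn_neg]; linarith) (by rw [fn_neg]; linarith) (by rw [fn_neg]; linarith)
    have h3 : 3 ≤ W.card := by
      by_contra hcon
      have hW2 : W = {s, t} := by
        symm
        apply Finset.eq_of_subset_of_card_le
        · intro x hx; simp at hx; rcases hx with rfl | rfl
          · exact hs.1
          · exact ht.1
        · rw [Finset.card_pair hst]; omega
      apply hm
      intro x hx hxs
      rw [hW2] at hx
      simp at hx
      rcases hx with rfl | rfl
      · exact absurd rfl hxs
      · exact h2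
    apply hs1.not_symm h3
    rw [e2, ← e3]
    exact hs2

/-- LINE LEMMA (a) -/
theorem HV.path_line {W : Finset Pt} (hG : GP W) {γ : Pt} {k : ℝ} (h0 : ∀ x ∈ W, fn γ x ≠ k)
    {s t : Pt} (hs : HV W s) (ht : HV W t) (h1 : fn γ s < k) (h2 : k < fn γ t) :
    ∃ l, HamPath W s t l ∧ lc γ k l ≤ 1 := line_lemma_a W.card W rfl hG γ k h0 s t hs ht h1 h2

theorem HV.path_line' {W : Finset Pt} (hG : GP W) {γ : Pt} {k : ℝ} (h0 : ∀ x ∈ W, fn γ x ≠ k)
    {s t : Pt} (hs : HV W s) (ht : HV W t) (h1 : k < fn γ s) (h2 : fn γ t < k) :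
    ∃ l, HamPath W s t l ∧ lc γ k l ≤ 1 := by
  obtain ⟨l, hl, hll⟩ := ht.path_line hG h0 hs h2 h1
  exact ⟨l.reverse, hl.reverse, by rw [lc_reverse]; exact hll⟩

/-- LINE LEMMA (b) -/
theorem line_lemma_b (n : ℕ) : ∀ W : Finset Pt, W.card = n → GP W → ∀ (γ : Pt) (k : ℝ),
    (∀ x ∈ W, fn γ x ≠ k) → ∀ s t : Pt, HV W s → HV W t → s ≠ t → fn γ s < k → fn γ t < k →
    ∃ l, HamPath W s t l ∧ lc γ k l ≤ 2 := by
  induction n using Nat.strong_induction_on with
  | _ n ih =>
    intro W hW hG γ k h0 s t hs ht hst h1 h2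
    have h2c : 2 ≤ W.card := by
      have : ({s, t} : Finset Pt) ⊆ W := by
        intro x hx; simp at hx; rcases hx with rfl | rfl
        · exact hs.1
        · exact ht.1
      calc 2 = ({s, t} : Finset Pt).card := (Finset.card_pair hst).symm
        _ ≤ W.card := Finset.card_le_card this
    rcases Nat.lt_or_ge 2 W.card with h3 | h3
    swap
    · have : W = {s, t} := by
        symm
        apply Finset.eq_of_subset_of_card_le
        · intro x hx; simp at hx; rcases hx with rfl | rfl
          · exact hs.1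
          · exact ht.1
        · rw [Finset.card_pair hst]; exact h3
      rw [this]
      refine ⟨_, HamPath.pair hst, ?_⟩
      rw [lc_cons_cons]
      simp only [lc, pe_single, List.countP_nil]
      split_ifs <;> simp
    obtain ⟨s1, hs1⟩ := hs.next hG h2c
    obtain ⟨s2, hs2⟩ := hs.prev hG h2c
    have hss : s1 ≠ s2 := by
      intro e; subst e
      exact hs1.not_symm h3 hs2
    have step : ∀ c, HV W c → c ≠ s → c ≠ t →
        (∀ r ∈ W.erase s, ∀ q ∈ W.erase s, ¬ Cross s c r q) →
        ∃ l, HamPath W s t l ∧ lc γ k l ≤ 2 := by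
      intro c hc hcs hct hcr
      have hc' := hc.mono (Finset.erase_subset s _) (Finset.mem_erase.2 ⟨hcs, hc.1⟩)
      have ht' := ht.mono (Finset.erase_subset s _) (Finset.mem_erase.2 ⟨hst.symm, ht.1⟩)
      have hG' := hG.mono (Finset.erase_subset s W)
      rcases lt_or_gt_of_ne (h0 c hc.1) with hck | hck
      · obtain ⟨l, hl, hll⟩ := ih (W.erase s).card (hW ▸ card_erase_lt hs.1) (W.erase s) rfl
          hG' γ k (fun x hx => h0 x (Finset.mem_of_mem_erase hx)) c t hc' ht' hct hck h2
        refine ⟨s :: l, hl.cons hs.1 hcr, ?_⟩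
        cases l with
        | nil => simp [lc]
        | cons d l =>
          have hd : d = c := by have := hl.hd; simpa using this
          subst hd
          rw [lc_cons_cons, if_neg]
          · simpa using hll
          · rw [not_lt]
            exact (mul_pos_of_neg_of_neg (by linarith) (by linarith)).le
      · obtain ⟨l, hl, hll⟩ := hc'.path_line' hG' (fun x hx => h0 x (Finset.mem_of_mem_erase hx))
          ht' hck h2
        refine ⟨s :: l, hl.cons hs.1 hcr, ?_⟩
        cases l with
        | nil => simp [lc]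
        | cons d l =>
          have hd : d = c := by have := hl.hd; simpa using this
          subst hd
          rw [lc_cons_cons]
          split_ifs <;> omega
    by_cases e : s1 = t
    · refine step s2 hs2.hv_left hs2.ne (by rw [← e]; exact hss.symm) (fun r hr q hq =>
        hs2.not_cross' (Finset.mem_of_mem_erase hr) (Finset.mem_of_mem_erase hq))
    · exact step s1 hs1.hv_right hs1.ne.symm e (fun r hr q hq =>
        hs1.not_cross (Finset.mem_of_mem_erase hr) (Finset.mem_of_mem_erase hq))

theorem HV.path_same {W : Finset Pt} (hG : GP W) {γ : Pt} {k : ℝ} (h0 : ∀ x ∈ W, fn γ x ≠ k)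
    {s t : Pt} (hs : HV W s) (ht : HV W t) (hst : s ≠ t) (h1 : fn γ s < k) (h2 : fn γ t < k) :
    ∃ l, HamPath W s t l ∧ lc γ k l ≤ 2 := line_lemma_b W.card W rfl hG γ k h0 s t hs ht hst h1 h2

/-- every line is crossed at most twice by a suitable path -/
theorem HV.path_two {W : Finset Pt} (hG : GP W) {γ : Pt} {k : ℝ} (h0 : ∀ x ∈ W, fn γ x ≠ k)
    {s t : Pt} (hs : HV W s) (ht : HV W t) (hst : s ≠ t) :
    ∃ l, HamPath W s t l ∧ lc γ k l ≤ 2 := by
  rcases lt_or_gt_of_ne (h0 s hs.1) with h1 | h1 <;> rcases lt_or_gt_of_ne (h0 t ht.1) with h2 | h2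
  · exact hs.path_same hG h0 ht hst h1 h2
  · obtain ⟨l, hl, hll⟩ := hs.path_line hG h0 ht h1 h2
    exact ⟨l, hl, by omega⟩
  · obtain ⟨l, hl, hll⟩ := hs.path_line' hG h0 ht h1 h2
    exact ⟨l, hl, by omega⟩
  · obtain ⟨l, hl, hll⟩ := hs.path_same (γ := -γ) (k := -k) hG (fun x hx => by
      rw [fn_neg]; intro e; exact h0 x hx (by linarith)) ht hst (by rw [fn_neg]; linarith)
      (by rw [fn_neg]; linarith)
    rw [lc_neg] at hll
    exact ⟨l, hl, hll⟩

end Pool.Agent.TK
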