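import Pool.Agent.TK.StepMain

/-!
# Tokunaga's problem: the S-claim and the pair of chains (for the linear run lemma)
-/

set_option autoImplicit false

namespace Pool.Agent.TK

/-- the rightmost point is a run of its own -/
def LO (A B : Finset Pt) : Prop := ∀ f ∈ A ∪ B, (∀ x ∈ A ∪ B, x.1 ≤ f.1) →
  (f ∈ A → ∀ a ∈ A, a ≠ f → ∃ b ∈ B, a.1 < b.1) ∧
  (f ∈ B → ∀ b ∈ B, b ≠ f → ∃ a ∈ A, b.1 < a.1)

theorem iv_subset (A B : Finset Pt) : iv A B ⊆ A := fun _ h => (mem_iv.1 h).1

/-- facts about the next state -/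
theorem next_state {P A B : Finset Pt} (hx : DX P) (hA : A ⊆ P) (hB : B ⊆ P) (hD : Disjoint A B)
    (hBne : B.Nonempty) (hLO : LO A B) :
    (iv B (A \ iv A B)).Nonempty ∧ LO B (A \ iv A B) ∧
    (∀ v ∈ iv A B, ∀ a ∈ A \ iv A B, v.1 < a.1) ∧
    (A \ iv A B = ∅ → ∃ f, B = {f}) := by
  classical
  have hmem : ∀ a ∈ A \ iv A B, a ∈ A ∧ ∃ b ∈ B, b.1 < a.1 := by
    intro a ha
    rw [Finset.mem_sdiff, mem_iv] at ha
    refine ⟨ha.1, ?_⟩
    by_contra hc
    push Not at hc
    apply ha.2
    refine ⟨ha.1, ?_⟩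
    intro b hb
    refine lt_of_le_of_ne (hc b hb) (hx a (hA ha.1) b (hB hb) ?_)
    rintro rfl
    exact Finset.disjoint_left.1 hD ha.1 hb
  refine ⟨?_, ?_, ?_, ?_⟩
  · obtain ⟨b0, hb0, hm⟩ := Finset.exists_min_image B (fun b => b.1) hBne
    refine ⟨b0, mem_iv.2 ⟨hb0, ?_⟩⟩
    intro a ha
    obtain ⟨-, b, hb, hba⟩ := hmem a ha
    exact lt_of_le_of_lt (hm b hb) hba
  · intro f hf hfm
    obtain ⟨b0, hb0⟩ := hBne
    have hfAB : f ∈ A ∪ B := by
      rcases Finset.mem_union.1 hf with h | h
      · exact Finset.mem_union_right _ h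
      · exact Finset.mem_union_left _ (Finset.mem_sdiff.1 h).1
    have hfm' : ∀ x ∈ A ∪ B, x.1 ≤ f.1 := by
      intro x hx'
      rcases Finset.mem_union.1 hx' with h | h
      · by_cases hv : x ∈ iv A B
        · exact ((mem_iv.1 hv).2 b0 hb0).le.trans (hfm b0 (Finset.mem_union_left _ hb0))
        · exact hfm x (Finset.mem_union_right _ (Finset.mem_sdiff.2 ⟨h, hv⟩))
      · exact hfm x (Finset.mem_union_left _ h)
    have := hLO f hfAB hfm'
    constructor
    · intro hfB b hb hbf
      obtain ⟨a, ha, hba⟩ := this.2 hfB b hb hbf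
      refine ⟨a, Finset.mem_sdiff.2 ⟨ha, ?_⟩, hba⟩
      intro hv
      have := (mem_iv.1 hv).2 b hb
      linarith
    · intro hfA a ha haf
      exact this.1 (Finset.mem_sdiff.1 hfA).1 a (Finset.mem_sdiff.1 ha).1 haf
  · intro v hv a ha
    obtain ⟨-, b, hb, hba⟩ := hmem a ha
    exact ((mem_iv.1 hv).2 b hb).trans hba
  · intro h0
    have hAV : ∀ a ∈ A, ∀ b ∈ B, a.1 < b.1 := by
      intro a ha
      have : a ∈ iv A B := by
        by_contra hc
        have : a ∈ A \ iv A B := Finset.mem_sdiff.2 ⟨ha, hc⟩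
        rw [h0] at this
        simp at this
      exact (mem_iv.1 this).2
    obtain ⟨f, hf, hfm⟩ := Finset.exists_max_image B (fun b => b.1) hBne
    refine ⟨f, ?_⟩
    rw [Finset.eq_singleton_iff_unique_mem]
    refine ⟨hf, ?_⟩
    intro b hb
    by_contra hbf
    have hfm' : ∀ x ∈ A ∪ B, x.1 ≤ f.1 := by
      intro x hx'
      rcases Finset.mem_union.1 hx' with h | h
      · exact (hAV x h f hf).le
      · exact hfm x h
    obtain ⟨a, ha, hba⟩ := (hLO f (Finset.mem_union_right _ hf) hfm').2 hf b hb hbf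
    have := hAV a ha b hb
    linarith

/-- THE S-CLAIM -/
theorem S_all {P : Finset Pt} (hG : GP P) (hx : DX P) : ∀ n : ℕ, ∀ A B : Finset Pt, A ⊆ P → B ⊆ P →
    Disjoint A B → A.card + B.card = n → (iv A B).Nonempty → LO A B →
    ∀ p ∈ P, (∀ x ∈ A ∪ B, p.1 < x.1) → ∀ σ : ℝ, σ ≠ 0 →
    ∃ (s : Pt) (lA lB : List Pt), Cm P A B (iv A B) p σ s lA lB := by
  classical
  intro n
  induction n using Nat.strong_induction_on with
  | _ n ih =>
    intro A B hA hB hD hn hV hLO p hp hpx σ hσ
    rcases B.eq_empty_or_nonempty with hB0 | hBne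
    · -- base
      subst hB0
      have hAne : A.Nonempty := hV.mono (iv_subset A ∅)
      obtain ⟨f, hf, hfm⟩ := Finset.exists_max_image A (fun b => b.1) hAne
      have hAf : A = {f} := by
        rw [Finset.eq_singleton_iff_unique_mem]
        refine ⟨hf, ?_⟩
        intro a ha
        by_contra haf
        obtain ⟨b, hb, -⟩ := (hLO f (by simpa using hf) (by simpa using hfm)).1 hf a ha haf
        simp at hb
      have hiv : iv A ∅ = {f} := by
        ext x
        rw [mem_iv, hAf]
        simp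
      rw [hiv, hAf]
      refine ⟨f, [f], [], by simp, rfl, ?_, ?_, ?_⟩
      · left; intro v hv
        rw [Finset.mem_singleton] at hv
        rw [hv]
      · intro q _ _
        exact Gl.base q p f
      · intro y hy; simp at hy
    · obtain ⟨h1, h2, h3, h4⟩ := next_state hx hA hB hD hBne hLO
      obtain ⟨l, hl, hlm⟩ := Finset.exists_max_image (iv A B) (fun b => b.1) hV
      have hsub : iv A B ∪ (A \ iv A B) = A := Finset.union_sdiff_of_subset (iv_subset A B)
      have hVP : iv A B ⊆ P := (iv_subset A B).trans hA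
      have hA'P : A \ iv A B ⊆ P := Finset.sdiff_subset.trans hA
      have hcard : (A \ iv A B).card < A.card := by
        apply Finset.card_lt_card
        rw [Finset.ssubset_iff_of_subset Finset.sdiff_subset]
        exact ⟨l, (mem_iv.1 hl).1, fun h => (Finset.mem_sdiff.1 h).2 hl⟩
      have hN : ∀ σ : ℝ, σ ≠ 0 → ∃ (y : Pt) (lB lA' : List Pt),
          Cm P B (A \ iv A B) (iv B (A \ iv A B)) l σ y lB lA' := by
        intro σ hσ
        refine ih (B.card + (A \ iv A B).card) (by omega) B (A \ iv A B) hB hA'P ?_ rfl h1 h2 l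
          (hVP hl) ?_ σ hσ
        · exact (Finset.disjoint_of_subset_left Finset.sdiff_subset hD).symm
        · intro x hx'
          rcases Finset.mem_union.1 hx' with h | h
          · exact (mem_iv.1 hl).2 x h
          · exact h3 l hl x h
      have := step hG hx hA'P hB hVP hp
        (fun v hv => hpx v (Finset.mem_union_left _ (mem_iv.1 hv).1)) hl hlm
        (fun v hv => (mem_iv.1 hv).2) h3 h4 hN hσ
      rw [hsub] at this
      exact this

/-- the first run entered at its point `q`, which is the head of the chain -/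
theorem assemble2 {V A' B : Finset Pt} {q p t : Pt} {l lA' lB : List Pt} (hVne : V.Nonempty)
    (hN : Gl p t B A' lB lA') (hP : HamPath (insert q V) q t l) (hqV : q ∉ V)
    (hVB : ∀ v ∈ insert q V, ∀ b ∈ B, v.1 < b.1) (hVA : ∀ v ∈ insert q V, ∀ a ∈ A', v.1 < a.1)
    (hpA : ∀ a ∈ A', p.1 < a.1)
    (hy : ∀ y, lB.head? = some y → ∀ a ∈ A', y.1 < a.1)
    (hw : ∀ w, lA'.head? = some w → ∀ u ∈ insert q V, ∀ v ∈ insert q V, ¬ Cross u v t w)
    (hc : ∀ y, lB.head? = some y →
      cnt (p, y) (pe l) + cnt (p, y) (pe (t :: lA'.take 1)) ≤ 2)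
    (ht : lA' = [] → ∀ v ∈ V, v.1 ≤ t.1)
    (hLO : lA' = [] → ∃ f, lB = [f]) :
    ∃ s lA, s ∈ V ∧ lA.head? = some s ∧ Gl q p (V ∪ A') B lA lB := by
  cases l with
  | nil => have := hP.hd; simp at this
  | cons c l =>
    have hcq : c = q := by simpa using hP.hd
    subst hcq
    cases l with
    | nil =>
      exfalso
      obtain ⟨v, hv⟩ := hVne
      have := hP.mem.2 (Finset.mem_insert_of_mem hv)
      rw [List.mem_singleton] at this
      rw [this] at hv
      exact hqV hv
    | cons s l =>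
      refine ⟨s, (s :: l) ++ lA', ?_, rfl, ?_⟩
      · have h1 : s ∈ insert c V := hP.mem.1 (by simp)
        rcases Finset.mem_insert.1 h1 with h | h
        · exfalso
          have := (List.nodup_cons.1 hP.nd).1
          rw [h] at this
          simp at this
        · exact h
      · refine glue hN hP hqV hVB hVA hpA hy ?_ hc ht hLO
        intro w hw' e he
        have := mem_of_mem_pe he
        exact hw w hw' _ (hP.mem.1 this.1) _ (hP.mem.1 this.2)

/-- THE PAIR OF CHAINS -/
theorem chains {P : Finset Pt} (hG : GP P) (hx : DX P) {A B : Finset Pt} (hA : A ⊆ P) (hB : B ⊆ P)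
    (hD : Disjoint A B) (hBne : B.Nonempty) (hV : (iv A B).Nonempty) (hLO : LO A B) {q p : Pt}
    (hq : q ∈ P) (hp : p ∈ P) (hqp : q ≠ p) (hqx : ∀ x ∈ A ∪ B, q.1 < x.1)
    (hpx : ∀ x ∈ A ∪ B, p.1 < x.1) :
    ∃ (s : Pt) (lA lB : List Pt), s ∈ iv A B ∧ lA.head? = some s ∧ Gl q p A B lA lB := by
  classical
  have hone : (1 : ℝ) ≠ 0 := one_ne_zero
  rcases lt_or_gt_of_ne (hx q hq p hp hqp) with hlt | hlt
  · obtain ⟨s1, lA1, lB1, h1⟩ := S_all hG hx _ A B hA hB hD rfl hV hLO p hp hpx 1 hone
    obtain ⟨s2, lA2, lB2, h2⟩ := S_all hG hx _ A B hA hB hD rfl hV hLO p hp hpx (-1)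
      (neg_ne_zero.2 hone)
    have hle := En.le hx ((iv_subset A B).trans hA) h1.sV h2.sV h1.en h2.en
    have hs1 := mem_iv.1 h1.sV
    have hs2 := mem_iv.1 h2.sV
    have hp1 := hpx s1 (Finset.mem_union_left _ hs1.1)
    have hp2 := hpx s2 (Finset.mem_union_left _ hs2.1)
    rcases tri hG hone hq hp (hA hs1.1) hlt hp1 with ⟨g, -, -⟩ | ⟨-, g1, g2⟩
    · exact ⟨s1, lA1, lB1, h1.sV, h1.hd, h1.gd q hlt g⟩
    · rcases tri hG hone hq hp (hA hs2.1) hlt hp2 with ⟨-, g3, g4⟩ | ⟨g, -, -⟩
      · linarith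
      · exact ⟨s2, lA2, lB2, h2.sV, h2.hd, h2.gd q hlt (by linarith)⟩
  · -- the head `q` belongs to the first run
    obtain ⟨h1, h2, h3, h4⟩ := next_state hx hA hB hD hBne hLO
    obtain ⟨l, hl, hlm⟩ := Finset.exists_max_image (iv A B) (fun b => b.1) hV
    have hsub : iv A B ∪ (A \ iv A B) = A := Finset.union_sdiff_of_subset (iv_subset A B)
    have hVP : iv A B ⊆ P := (iv_subset A B).trans hA
    have hA'P : A \ iv A B ⊆ P := Finset.sdiff_subset.trans hA
    have hlP := hVP hl
    have hN : ∀ σ : ℝ, σ ≠ 0 → ∃ (y : Pt) (lB lA' : List Pt),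
        Cm P B (A \ iv A B) (iv B (A \ iv A B)) l σ y lB lA' := by
      intro σ hσ
      refine S_all hG hx _ B (A \ iv A B) hB hA'P ?_ rfl h1 h2 l hlP ?_ σ hσ
      · exact (Finset.disjoint_of_subset_left Finset.sdiff_subset hD).symm
      · intro x hx'
        rcases Finset.mem_union.1 hx' with h | h
        · exact (mem_iv.1 hl).2 x h
        · exact h3 l hl x h
    have hpl : p.1 < l.1 := hpx l (Finset.mem_union_left _ (mem_iv.1 hl).1)
    have hql : q.1 < l.1 := hqx l (Finset.mem_union_left _ (mem_iv.1 hl).1)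
    -- choice of the sign
    have hch : ∃ τ : ℝ, τ ≠ 0 ∧ ∃ (y : Pt) (lB lA' : List Pt),
        Cm P B (A \ iv A B) (iv B (A \ iv A B)) l τ y lB lA' ∧ τ * dt p l y < 0 := by
      obtain ⟨y1, lB1, lA1, hN1⟩ := hN 1 hone
      obtain ⟨y2, lB2, lA2, hN2⟩ := hN (-1) (neg_ne_zero.2 hone)
      have hle := En.le hx (fun x hx => hB (mem_iv.1 hx).1) hN1.sV hN2.sV hN1.en hN2.en
      have hy1 := (mem_iv.1 hN1.sV).1
      have hy2 := (mem_iv.1 hN2.sV).1
      rcases tri hG hone hp hlP (hB hy1) hpl ((mem_iv.1 hl).2 y1 hy1) with ⟨g, -, -⟩ | ⟨-, g1, g2⟩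
      · exact ⟨1, hone, y1, lB1, lA1, hN1, g⟩
      · rcases tri hG hone hp hlP (hB hy2) hpl ((mem_iv.1 hl).2 y2 hy2) with
          ⟨-, g3, g4⟩ | ⟨g, -, -⟩
        · linarith
        · exact ⟨-1, neg_ne_zero.2 hone, y2, lB2, lA2, hN2, by linarith⟩
    obtain ⟨τ, hτ, y, lB, lA', hC, hτl⟩ := hch
    have hyB := (mem_iv.1 hC.sV).1
    have hly := (mem_iv.1 hl).2 y hyB
    have hg : Gl p l B (A \ iv A B) lB lA' := hC.gd p hpl hτl
    have heq : ∀ z, lB.head? = some z → z = y := fun z hz => by
      rw [hC.hd] at hz; simpa using hz.symm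
    have hyv : ∀ z, lB.head? = some z → ∀ a ∈ A \ iv A B, z.1 < a.1 := by
      intro z hz a ha
      rw [heq z hz]; exact (mem_iv.1 hC.sV).2 a ha
    have hqV : q ∉ iv A B := fun h => by
      have := hqx q (Finset.mem_union_left _ (mem_iv.1 h).1)
      linarith
    have hZP : insert q (iv A B) ⊆ P := by
      intro x hx'
      rcases Finset.mem_insert.1 hx' with rfl | h
      · exact hq
      · exact hVP h
    have hZB : ∀ v ∈ insert q (iv A B), ∀ b ∈ B, v.1 < b.1 := by
      intro v hv b hb
      rcases Finset.mem_insert.1 hv with rfl | h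
      · exact hqx b (Finset.mem_union_right _ hb)
      · exact (mem_iv.1 h).2 b hb
    have hZA : ∀ v ∈ insert q (iv A B), ∀ a ∈ A \ iv A B, v.1 < a.1 := by
      intro v hv a ha
      rcases Finset.mem_insert.1 hv with rfl | h
      · exact hqx a (Finset.mem_union_left _ (Finset.mem_sdiff.1 ha).1)
      · exact h3 v h a ha
    have hpA : ∀ a ∈ A \ iv A B, p.1 < a.1 := fun a ha =>
      hpx a (Finset.mem_union_left _ (Finset.mem_sdiff.1 ha).1)
    have hpZ : ∀ v ∈ insert q (iv A B), p.1 < v.1 := by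
      intro v hv
      rcases Finset.mem_insert.1 hv with rfl | h
      · exact hlt
      · exact hpx v (Finset.mem_union_left _ (mem_iv.1 h).1)
    have hZy : ∀ v ∈ insert q (iv A B), v.1 < y.1 := fun v hv => hZB v hv y hyB
    have hlZ : l ∈ insert q (iv A B) := Finset.mem_insert_of_mem hl
    have hqZ : q ∈ insert q (iv A B) := Finset.mem_insert_self _ _
    have hlmZ : ∀ v ∈ insert q (iv A B), v.1 ≤ l.1 := by
      intro v hv
      rcases Finset.mem_insert.1 hv with rfl | h
      · exact hql.le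
      · exact hlm v h
    have hwA : ∀ w, lA'.head? = some w → w ∈ A \ iv A B := fun w hw =>
      hg.memB.1 (List.mem_of_mem_head? (by rw [hw]; rfl))
    have hql' : q ≠ l := by rintro rfl; linarith
    have hLO' : lA' = [] → ∃ f, lB = [f] := by
      intro h0
      have : A \ iv A B = ∅ := by rw [← hg.tsB, h0]; simp
      obtain ⟨f, hf⟩ := h4 this
      refine ⟨f, ?_⟩
      have h1 := hg.ndA
      have h2 := hg.tsA
      rw [hf] at h2
      cases lB with
      | nil => simp at h2
      | cons a r =>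
        have ha : a = f := by
          have : a ∈ (a :: r).toFinset := by simp
          rw [h2] at this; simpa using this
        cases r with
        | nil => rw [ha]
        | cons b r =>
          have hb : b = f := by
            have : b ∈ (a :: b :: r).toFinset := by simp
            rw [h2] at this; simpa using this
          rw [ha, hb] at h1
          simp at h1
    -- exit `l`
    have hexit : ∀ lp, HamPath (insert q (iv A B)) q l lp →
        cnt (p, y) (pe lp) + cnt (p, y) (pe (l :: lA'.take 1)) ≤ 2 →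
        ∃ (s : Pt) (lA lB : List Pt), s ∈ iv A B ∧ lA.head? = some s ∧ Gl q p A B lA lB := by
      intro lp hlp hc
      have hw1 : ∀ w, lA'.head? = some w →
          ∀ u ∈ insert q (iv A B), ∀ v ∈ insert q (iv A B), ¬ Cross u v l w := by
        intro w hw u hu v hv
        have := hZA l hlZ w (hwA w hw)
        exact not_cross_x l.1 (hlmZ u hu) (hlmZ v hv) le_rfl this.le
          (by right; right; right; exact this)
      have hc1 : ∀ z, lB.head? = some z →
          cnt (p, z) (pe lp) + cnt (p, z) (pe (l :: lA'.take 1)) ≤ 2 := by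
        intro z hz
        rw [heq z hz]; exact hc
      obtain ⟨s, lA, hs, hh, hgl⟩ := assemble2 hV hg hlp hqV hZB hZA hpA hyv hw1 hc1
        (fun _ => hlm) hLO'
      rw [hsub] at hgl
      exact ⟨s, lA, lB, hs, hh, hgl⟩
    by_cases hnoX : ∀ w, lA'.head? = some w → 0 < τ * dt l y w
    · obtain ⟨lp, hlp, hlpc⟩ := run_path hG hZP hp (hB hyB) hpZ hZy hqZ hlZ hql'
      apply hexit lp hlp
      have h0 : cnt (p, y) (pe (l :: lA'.take 1)) = 0 := by
        apply cnt_zero_take
        intro w hw
        have hyw : y.1 < w.1 := (mem_iv.1 hC.sV).2 w (hwA w hw)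
        exact x4np hpl hly hyw hτl (hnoX w hw)
      omega
    · push Not at hnoX
      obtain ⟨w, hw, hw'⟩ := hnoX
      have hwP : w ∈ P := hA'P (hwA w hw)
      have hyw : y.1 < w.1 := (mem_iv.1 hC.sV).2 w (hwA w hw)
      have hw'' : τ * dt l y w < 0 := by
        rcases tri hG hτ hlP (hB hyB) hwP hly hyw with ⟨g, -, -⟩ | ⟨g, -, -⟩
        · exact g
        · linarith
      have hle1 := cnt_le_one_take (p, y) l lA'
      by_cases hpure : ∀ v ∈ insert q (iv A B), τ * dt p v y < 0
      · obtain ⟨lp, hlp, -⟩ := run_path hG hZP hp (hB hyB) hpZ hZy hqZ hlZ hql'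
        apply hexit lp hlp
        have h0 : cnt (p, y) (pe lp) = 0 := by
          apply cnt_pure (σ := τ) _ hτ
          intro x hx'
          have := hpure x (hlp.mem.1 hx')
          rw [dt_swap' p x y]
          linarith
        omega
      · push Not at hpure
        obtain ⟨t0, ht0, ht0'⟩ := hpure
        have ht0'' : 0 < τ * dt p t0 y := by
          rcases tri hG hτ hp (hZP ht0) (hB hyB) (hpZ t0 ht0) (hZy t0 ht0) with
            ⟨g, -, -⟩ | ⟨g, -, -⟩
          · linarith
          · exact g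
        rcases tri hG hτ hp hq (hB hyB) hlt (hZy q hqZ) with ⟨g, -, -⟩ | ⟨g, -, -⟩
        · -- exit change
          obtain ⟨t, ht, w', lB'', lA'', hpt, hlB'', hlA'', hF, hgt⟩ :=
            exit_change hG hx hτ hZP hA'P hp hpZ hlZ hlmZ (hB hyB) hZy hC.xp hw hwP hyw hτl hw''
              ⟨t0, ht0, ht0''⟩
          have hw'A : w' ∈ A \ iv A B := hgt.memB.1 (List.mem_of_mem_head? (by rw [hlA'']; rfl))
          obtain ⟨lp, hlp, hlpc⟩ := run_path_opp hG hZP hp (hB hyB) hpZ hZy hqZ ht (σ := -τ)
            (by linarith) (by linarith)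
          have hne : lA'' ≠ [] := by rintro h; rw [h] at hlA''; simp at hlA''
          obtain ⟨s, lA, hs, hh, hgl⟩ := assemble2 hV hgt hlp hqV hZB hZA hpA
            (by
              intro z hz a ha
              have : z = y := by rw [hlB''] at hz; simpa using hz.symm
              rw [this]; exact (mem_iv.1 hC.sV).2 a ha)
            (by
              intro w1 hw1
              have : w1 = w' := by rw [hlA''] at hw1; simpa using hw1.symm
              rw [this]
              exact hF.not_cross hx hZP ht (fun z hz => hZA z hz w' hw'A))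
            (by
              intro z hz
              have : z = y := by rw [hlB''] at hz; simpa using hz.symm
              rw [this]
              have := cnt_le_one_take (p, y) t lA''
              omega)
            (fun h => absurd h hne) (fun h => absurd h hne)
          rw [hsub] at hgl
          exact ⟨s, lA, lB'', hs, hh, hgl⟩
        · obtain ⟨lp, hlp, hlpc⟩ := run_path_opp hG hZP hp (hB hyB) hpZ hZy hqZ hlZ g hτl
          apply hexit lp hlp
          omega

end Pool.Agent.TK
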