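import Pool.Agent.TK.Slant

/-!
# Tokunaga's problem: sweep around a hull vertex, the single penalty lemma
-/

set_option autoImplicit false

namespace Pool.Agent.TK

/-- SWEEP AROUND A HULL VERTEX: orientation preserving map which sorts the set by the angular order
around the hull vertex `s` (`t` = next hull vertex), `s` and `t` being the last two points -/
theorem sweep_at {P : Finset Pt} {s t : Pt} (h : HE P s t) :
    ∃ f : Pt → Pt, SignIso f P ∧ (∀ x ∈ P, ∀ y ∈ P, x ≠ y → (f x).1 ≠ (f y).1) ∧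
      (∀ x ∈ P, x ≠ s → x ≠ t → (f x).1 < (f s).1 ∧ (f x).1 < (f t).1) ∧
      (∀ x ∈ P, ∀ y ∈ P, 0 < dt s y x → (f x).1 < (f y).1) := by
  classical
  obtain ⟨-, c, hc⟩ := h.hv_left
  obtain ⟨hs, ht, hst, hz⟩ := h
  obtain ⟨e, he, hE⟩ := exists_small P s (s.1 - t.1, s.2 - t.2)
  set z : Pt := mv s (s.1 - t.1, s.2 - t.2) e with hzd
  have hE' : ∀ p ∈ P, ∀ q ∈ P, 0 < dt s p q → 0 < dt z p q := by
    intro p hp q hq h
    have := hE e he le_rfl p hp q hq (by rw [← dt_rot' p q s]; exact h)
    rw [dt_rot' p q]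
    exact this
  have hzs : ∀ x, dt z s x = e * dt s t x := by
    intro x
    rw [hzd]; unfold mv dt; ring
  have hts : fn c s < fn c t := hc t ht hst.symm
  have hfz : fn c z < fn c s := by
    have h5 : fn c z = fn c s + e * (fn c s - fn c t) := by
      rw [hzd]; unfold mv fn; ring
    have h7 : e * (fn c s - fn c t) < 0 := mul_neg_of_pos_of_neg he (by linarith)
    linarith
  have hc0 : c ≠ 0 := by
    rintro rfl
    unfold fn at hts
    simp at hts
  have hHalf : Half c z P := by
    intro x hx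
    by_cases hxs : x = s
    · rw [hxs]; exact hfz
    · have := hc x hx hxs
      linarith
  have hpr := pr_signIso hHalf
  set g : Pt → Pt := fun p => ng (pr c z p) with hg
  have hglt : ∀ p ∈ P, ∀ q ∈ P, ((g p).1 < (g q).1 ↔ 0 < dt z q p) := by
    intro p hp q hq
    rw [← pr_lt hc0 (hHalf q hq) (hHalf p hp)]
    rw [hg]
    unfold ng
    simp only
    constructor <;> intro h <;> linarith
  have hginj : Set.InjOn g (P : Set Pt) := by
    intro p hp q hq h
    apply hpr.inj hp hq
    rw [hg] at h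
    unfold ng at h
    simp only [Prod.mk.injEq, neg_inj] at h
    exact Prod.ext h.1 h.2
  obtain ⟨δ, hδ, hsh⟩ := exists_shear (P.image g)
  set f : Pt → Pt := fun p => sh δ (g p) with hf
  have hfne : ∀ p ∈ P, ∀ q ∈ P, p ≠ q → (f p).1 ≠ (f q).1 := by
    intro p hp q hq hpq
    exact sh_ne hδ hsh (Finset.mem_image_of_mem g hp) (Finset.mem_image_of_mem g hq)
      (fun e => hpq (hginj hp hq e))
  have hflt : ∀ p ∈ P, ∀ q ∈ P, 0 < dt z q p → (f p).1 < (f q).1 := by
    intro p hp q hq h
    exact hsh _ (Finset.mem_image_of_mem g hp) _ (Finset.mem_image_of_mem g hq)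
      ((hglt p hp q hq).2 h)
  have hfiso : SignIso f P := by
    constructor
    · intro p hp q hq h
      by_contra hc
      exact hfne p hp q hq hc (by rw [h])
    · intro p hp q hq r hr
      rw [hpr.sg p hp q hq r hr]
      rw [hf]
      simp only
      rw [dt_sh, hg]
      simp only
      rw [dt_ng]
  refine ⟨f, hfiso, hfne, ?_, ?_⟩
  · intro x hx hxs hxt
    have h1 := hz x hx hxs hxt
    constructor
    · apply hflt x hx s hs
      rw [hzs]
      exact mul_pos he h1
    · exact hflt x hx t ht (hE' t ht x hx h1)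
  · intro x hx y hy hxy
    exact hflt x hx y hy (hE' y hy x hx hxy)

theorem pe_length (l : List Pt) : (pe l).length = l.length - 1 := by
  unfold pe
  simp

theorem HamPath.length {W : Finset Pt} {s t : Pt} {l : List Pt} (h : HamPath W s t l) :
    l.length = W.card := by
  rw [← h.ts, List.toFinset_card_of_nodup h.nd]

/-- THE SINGLE PENALTY LEMMA: `s t` is a hull edge whose end points are the two tails, the heads
are the last two points around `s`, the last middle point around `s` is blue: then the blue head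
edge is crossed at most once -/
theorem single_penalty {R B : Finset Pt} {a u r' b' s t : Pt} (hG : GP (R ∪ B))
    (hd : Disjoint R B) (ha : a ∈ R) (hr' : r' ∈ R) (hu : u ∈ B) (hb' : b' ∈ B) (hrr : a ≠ r')
    (hbb : u ≠ b') (hst : (s = r' ∧ t = b') ∨ (s = b' ∧ t = r')) (h1 : HE (R ∪ B) s t)
    (h2 : ∀ z ∈ R ∪ B, z ≠ s → z ≠ u → z ≠ a → 0 < dt s z u ∧ 0 < dt s z a)
    (h3 : ∀ m ∈ R, m ≠ s → m ≠ t → m ≠ a → ∃ b ∈ B, b ≠ s ∧ b ≠ u ∧ 0 < dt s m b) :
    ∃ lR lB, TwoPaths R B a r' u b' lR lB ∧ FirstOne lB lR := by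
  classical
  have neq : ∀ x ∈ R, ∀ y ∈ B, x ≠ y := fun x hx y hy e =>
    (Finset.disjoint_left.1 hd hx) (e ▸ hy)
  obtain ⟨f, hf, fx, fr, fo⟩ := sweep_at h1
  have aP : a ∈ R ∪ B := Finset.mem_union_left _ ha
  have uP : u ∈ R ∪ B := Finset.mem_union_right _ hu
  have rP : r' ∈ R ∪ B := Finset.mem_union_left _ hr'
  have bP : b' ∈ R ∪ B := Finset.mem_union_right _ hb'
  have hsr : ∀ x, x ≠ r' → x ≠ b' → x ≠ s ∧ x ≠ t := by
    intro x h5 h6
    rcases hst with ⟨rfl, rfl⟩ | ⟨rfl, rfl⟩
    · exact ⟨h5, h6⟩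
    · exact ⟨h6, h5⟩
  have has : a ≠ s ∧ a ≠ t := hsr a hrr (neq a ha b' hb')
  have hus : u ≠ s ∧ u ≠ t := hsr u (neq r' hr' u hu).symm hbb
  have hleft : ∀ x ∈ R ∪ B, x ≠ a → x ≠ u → (f a).1 < (f x).1 ∧ (f u).1 < (f x).1 := by
    intro x hx hxa hxu
    by_cases hxs : x = s
    · rw [hxs]
      exact ⟨(fr a aP has.1 has.2).1, (fr u uP hus.1 hus.2).1⟩
    · have := h2 x hx hxs hxu hxa
      exact ⟨fo a aP x hx this.2, fo u uP x hx this.1⟩
  have hright : ∀ x ∈ R ∪ B, x ≠ r' → x ≠ b' → (f x).1 < (f r').1 ∧ (f x).1 < (f b').1 := by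
    intro x hx hxr hxb
    have h5 := hsr x hxr hxb
    have h6 := fr x hx h5.1 h5.2
    rcases hst with ⟨rfl, rfl⟩ | ⟨rfl, rfl⟩
    · exact h6
    · exact h6.symm
  -- the first middle point
  have hne : ((R ∪ B).filter (fun x => x ≠ a ∧ x ≠ u)).Nonempty :=
    ⟨r', Finset.mem_filter.2 ⟨rP, hrr.symm, neq r' hr' u hu⟩⟩
  obtain ⟨m0, hm0, hm0m⟩ := Finset.exists_min_image _ (fun x : Pt => (f x).1) hne
  obtain ⟨hm0P, hm0r, hm0b⟩ := Finset.mem_filter.1 hm0
  have hmin : ∀ x ∈ R ∪ B, x ≠ a → x ≠ u → (f m0).1 ≤ (f x).1 := fun x hx' h1 h2 =>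
    hm0m x (Finset.mem_filter.2 ⟨hx', h1, h2⟩)
  obtain ⟨kR, kB, hT, hF, -⟩ := linear_run_lemma (R := R.image f) (B := B.image f) (r := f a)
    (r' := f r') (b := f u) (b' := f b')
    (by rw [← Finset.image_union]; exact hf.gp hG)
    (by
      rw [Finset.disjoint_left]
      intro x hx hx'
      obtain ⟨y, hy, rfl⟩ := Finset.mem_image.1 hx
      obtain ⟨z, hz, hzy⟩ := Finset.mem_image.1 hx'
      have := hf.inj (Finset.mem_coe.2 (Finset.mem_union_right R hz))
        (Finset.mem_coe.2 (Finset.mem_union_left B hy)) hzy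
      exact neq y hy z hz this.symm)
    (by
      rw [← Finset.image_union]
      intro x hx y hy hxy
      obtain ⟨x, hx', rfl⟩ := Finset.mem_image.1 hx
      obtain ⟨y, hy', rfl⟩ := Finset.mem_image.1 hy
      exact fx x hx' y hy' (fun e => hxy (by rw [e])))
    (Finset.mem_image_of_mem f ha) (Finset.mem_image_of_mem f hr')
    (Finset.mem_image_of_mem f hu) (Finset.mem_image_of_mem f hb')
    (fun e => hrr (hf.inj aP rP e)) (fun e => hbb (hf.inj uP bP e))
    (by
      rw [← Finset.image_union]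
      intro x hx h5 h6
      obtain ⟨x, hx', rfl⟩ := Finset.mem_image.1 hx
      exact hleft x hx' (fun e => h5 (by rw [e])) (fun e => h6 (by rw [e])))
    (by
      rw [← Finset.image_union]
      intro x hx h5 h6
      obtain ⟨x, hx', rfl⟩ := Finset.mem_image.1 hx
      exact hright x hx' (fun e => h5 (by rw [e])) (fun e => h6 (by rw [e])))
  obtain ⟨lR, lB, hT2, hlR, hlB⟩ := TwoPaths.pull' hf ha hr' hu hb' hT
  have hmR : ∀ x ∈ lR, x ∈ R ∪ B := fun x hx => Finset.mem_union_left _ (hT2.hR.mem.1 hx)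
  have hmB : ∀ x ∈ lB, x ∈ R ∪ B := fun x hx => Finset.mem_union_right _ (hT2.hB.mem.1 hx)
  refine ⟨lR, lB, hT2, ?_⟩
  by_cases hmB' : m0 ∈ B
  · have h5 : FirstOne kB kR := by
      refine (hF (f m0) ?_ ?_ ?_ ?_).2 (Finset.mem_image_of_mem f hmB')
      · rw [← Finset.image_union]; exact Finset.mem_image_of_mem f hm0P
      · intro e; exact hm0r (hf.inj hm0P aP e)
      · intro e; exact hm0b (hf.inj hm0P uP e)
      · rw [← Finset.image_union]
        intro x hx h5 h6
        obtain ⟨x, hx', rfl⟩ := Finset.mem_image.1 hx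
        exact hmin x hx' (fun e => h5 (by rw [e])) (fun e => h6 (by rw [e]))
    apply FirstOne.pull hf hmB hmR
    rw [hlR, hlB]; exact h5
  · have hmR' : m0 ∈ R := by
      rcases Finset.mem_union.1 hm0P with h | h
      · exact h
      · exact absurd h hmB'
    have hcase : m0 = s ∨ m0 = t := by
      by_contra hcon
      push Not at hcon
      obtain ⟨b, hb, hbs, hbu, hb2⟩ := h3 m0 hmR' hcon.1 hcon.2 hm0r
      have hbP := Finset.mem_union_right R hb
      have h5 := fo b hbP m0 hm0P hb2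
      have h6 := hmin b hbP (neq a ha b hb).symm hbu
      linarith
    -- only four points
    have hR : R ⊆ {a, r'} := by
      intro x hx
      have hxP := Finset.mem_union_left B hx
      by_cases hxa : x = a
      · simp [hxa]
      by_cases hxr : x = r'
      · simp [hxr]
      exfalso
      have h5 := hsr x hxr (neq x hx b' hb')
      have h6 := fr x hxP h5.1 h5.2
      have h7 := hmin x hxP hxa (neq x hx u hu)
      rcases hcase with h | h
      · rw [h] at h7; linarith [h6.1]
      · rw [h] at h7; linarith [h6.2]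
    have hcard : R.card ≤ 2 := le_trans (Finset.card_le_card hR) Finset.card_le_two
    intro e he
    calc cnt e (pe lR) ≤ (pe lR).length := List.countP_le_length
      _ = lR.length - 1 := pe_length lR
      _ ≤ 1 := by rw [hT2.hR.length]; omega

end Pool.Agent.TK
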