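import Pool.Agent.TK.Stmts

/-!
# Tokunaga's problem: the S' lemma, absorption, and the one-penalty lemma SP1
-/

set_option autoImplicit false

namespace Pool.Agent.TK

/-! ### transport with penalties -/

theorem firstOne_map {P : Finset Pt} {g : Pt → Pt} (hg : SignIso g P) {l k : List Pt}
    (hl : ∀ x ∈ l, x ∈ P) (hk : ∀ x ∈ k, x ∈ P) (h : FirstOne l k) :
    FirstOne (l.map g) (k.map g) := by
  intro e he
  rw [pe_map, List.head?_map] at he
  rcases hh : (pe l).head? with _ | e0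
  · rw [hh] at he; simp at he
  · rw [hh] at he
    simp only [Option.map_some, Option.some.injEq] at he
    subst he
    have hm := mem_of_mem_pe (List.mem_of_mem_head? hh)
    rw [cnt_map hg (hl _ hm.1) (hl _ hm.2) hk]
    exact h e0 hh

theorem lastOne_map {P : Finset Pt} {g : Pt → Pt} (hg : SignIso g P) {l k : List Pt}
    (hl : ∀ x ∈ l, x ∈ P) (hk : ∀ x ∈ k, x ∈ P) (h : LastOne l k) :
    LastOne (l.map g) (k.map g) := by
  intro e he
  rw [pe_map, List.getLast?_map] at he
  rcases hh : (pe l).getLast? with _ | e0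
  · rw [hh] at he; simp at he
  · rw [hh] at he
    simp only [Option.map_some, Option.some.injEq] at he
    subst he
    have hm := mem_of_mem_pe (List.mem_of_mem_getLast? hh)
    rw [cnt_map hg (hl _ hm.1) (hl _ hm.2) hk]
    exact h e0 hh

/-- transport back, with the penalties -/
theorem TwoPaths.pull_one {R B : Finset Pt} {r r' b b' : Pt} {f : Pt → Pt}
    (hf : SignIso f (R ∪ B)) (hr : r ∈ R) (hr' : r' ∈ R) (hb : b ∈ B) (hb' : b' ∈ B)
    {lR lB : List Pt}
    (h : TwoPaths (R.image f) (B.image f) (f r) (f r') (f b) (f b') lR lB) :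
    ∃ kR kB, TwoPaths R B r r' b b' kR kB ∧ (FirstOne lR lB → FirstOne kR kB) ∧
      (FirstOne lB lR → FirstOne kB kR) ∧ (LastOne lR lB → LastOne kR kB) ∧
      (LastOne lB lR → LastOne kB kR) := by
  classical
  set g : Pt → Pt := Function.invFunOn f (↑(R ∪ B) : Set Pt) with hg
  have hgf : ∀ x ∈ R ∪ B, g (f x) = x := by
    intro x hx
    exact hf.inj.leftInvOn_invFunOn hx
  have hsg : SignIso g (R.image f ∪ B.image f) := by
    rw [← Finset.image_union]
    constructor
    · intro x hx' y hy' hxy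
      obtain ⟨x, hx, rfl⟩ := Finset.mem_image.1 (Finset.mem_coe.1 hx')
      obtain ⟨y, hy, rfl⟩ := Finset.mem_image.1 (Finset.mem_coe.1 hy')
      rw [hgf x hx, hgf y hy] at hxy
      rw [hxy]
    · intro p hp' q hq' s hs'
      obtain ⟨p, hp, rfl⟩ := Finset.mem_image.1 hp'
      obtain ⟨q, hq, rfl⟩ := Finset.mem_image.1 hq'
      obtain ⟨s, hs, rfl⟩ := Finset.mem_image.1 hs'
      rw [hgf p hp, hgf q hq, hgf s hs]
      exact (hf.sg p hp q hq s hs).symm
  have h2 := h.map hsg
  have eR : (R.image f).image g = R := by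
    rw [Finset.image_image]
    ext x
    simp only [Finset.mem_image, Function.comp]
    constructor
    · rintro ⟨y, hy, rfl⟩
      rw [hgf y (Finset.mem_union_left _ hy)]; exact hy
    · intro hx
      exact ⟨x, hx, hgf x (Finset.mem_union_left _ hx)⟩
  have eB : (B.image f).image g = B := by
    rw [Finset.image_image]
    ext x
    simp only [Finset.mem_image, Function.comp]
    constructor
    · rintro ⟨y, hy, rfl⟩
      rw [hgf y (Finset.mem_union_right _ hy)]; exact hy
    · intro hx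
      exact ⟨x, hx, hgf x (Finset.mem_union_right _ hx)⟩
  rw [eR, eB, hgf r (Finset.mem_union_left _ hr), hgf r' (Finset.mem_union_left _ hr'),
    hgf b (Finset.mem_union_right _ hb), hgf b' (Finset.mem_union_right _ hb')] at h2
  have mR : ∀ x ∈ lR, x ∈ R.image f ∪ B.image f := fun x hx =>
    Finset.mem_union_left _ (h.hR.mem.1 hx)
  have mB : ∀ x ∈ lB, x ∈ R.image f ∪ B.image f := fun x hx =>
    Finset.mem_union_right _ (h.hB.mem.1 hx)
  exact ⟨_, _, h2, firstOne_map hsg mR mB, firstOne_map hsg mB mR, lastOne_map hsg mR mB,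
    lastOne_map hsg mB mR⟩

/-! ### the S' lemma -/

theorem ev_smul (c : ℝ) (A : ℝ × ℝ × ℝ) (x : Pt) : ev (c • A) x = c * ev A x := by
  unfold ev; simp; ring

/-- S' LEMMA: heads `r, b` separated from the rest by `A`, tails `r', b'` separated by `C` -/
theorem s_prime {R B : Finset Pt} {r r' b b' : Pt} (hG : GP (R ∪ B)) (hd : Disjoint R B)
    (hr : r ∈ R) (hr' : r' ∈ R) (hb : b ∈ B) (hb' : b' ∈ B) (hrr : r ≠ r') (hbb : b ≠ b')
    (A C : ℝ × ℝ × ℝ) (hAr : ev A r ≤ 0) (hAb : ev A b ≤ 0)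
    (hA : ∀ x ∈ R ∪ B, x ≠ r → x ≠ b → 0 < ev A x) (hCr : ev C r' ≤ 0) (hCb : ev C b' ≤ 0)
    (hC : ∀ x ∈ R ∪ B, x ≠ r' → x ≠ b' → 0 < ev C x)
    (hpos : ∀ x ∈ R ∪ B, 0 < ev A x + ev C x) :
    ∃ lR lB, TwoPaths R B r r' b b' lR lB ∧
      (∀ m ∈ R ∪ B, m ≠ r → m ≠ b →
        (∀ x ∈ R ∪ B, x ≠ r → x ≠ b → x ≠ m → ev A m * ev C x < ev A x * ev C m) →
        (m ∈ R → FirstOne lR lB) ∧ (m ∈ B → FirstOne lB lR)) ∧
      (∀ m ∈ R ∪ B, m ≠ r' → m ≠ b' →
        (∀ x ∈ R ∪ B, x ≠ r' → x ≠ b' → x ≠ m → ev A x * ev C m < ev A m * ev C x) →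
        (m ∈ R → LastOne lR lB) ∧ (m ∈ B → LastOne lB lR)) := by
  classical
  have neq : ∀ x ∈ R, ∀ y ∈ B, x ≠ y := fun x hx y hy e =>
    (Finset.disjoint_left.1 hd hx) (e ▸ hy)
  have rP := Finset.mem_union_left B hr
  have rP' := Finset.mem_union_left B hr'
  have bP := Finset.mem_union_right R hb
  have bP' := Finset.mem_union_right R hb'
  set D := A + C with hD
  have evD : ∀ x, ev D x = ev A x + ev C x := fun x => ev_add A C x
  have posD : ∀ x ∈ R ∪ B, 0 < ev D x := fun x hx => by rw [evD]; exact hpos x hx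
  set w1 : ℝ := D.2.1 * A.2.2 - D.2.2 * A.2.1 with hw1
  set w2 : ℝ := D.2.2 * A.1 - D.1 * A.2.2 with hw2
  set w3 : ℝ := D.1 * A.2.1 - D.2.1 * A.1 with hw3
  set E : ℝ × ℝ × ℝ := (w1, w2, w3) with hE
  have hdet : 0 < det3 A E D := by
    have e1 : det3 A E D = w1 ^ 2 + w2 ^ 2 + w3 ^ 2 := by
      unfold det3
      rw [hE, hw1, hw2, hw3]
      ring
    rw [e1]
    by_contra hcon
    push Not at hcon
    have z1 : w1 = 0 := by
      have : w1 ^ 2 = 0 := le_antisymm (by nlinarith [sq_nonneg w2, sq_nonneg w3]) (sq_nonneg _)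
      exact pow_eq_zero_iff (two_ne_zero) |>.1 this
    have z2 : w2 = 0 := by
      have : w2 ^ 2 = 0 := le_antisymm (by nlinarith [sq_nonneg w1, sq_nonneg w3]) (sq_nonneg _)
      exact pow_eq_zero_iff (two_ne_zero) |>.1 this
    have z3 : w3 = 0 := by
      have : w3 ^ 2 = 0 := le_antisymm (by nlinarith [sq_nonneg w1, sq_nonneg w2]) (sq_nonneg _)
      exact pow_eq_zero_iff (two_ne_zero) |>.1 this
    have key : ev A r' * ev D r - ev A r * ev D r' =
        w1 * (r.2 - r'.2) + w2 * (r'.1 - r.1) + w3 * (r.1 * r'.2 - r'.1 * r.2) := by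
      unfold ev
      rw [hw1, hw2, hw3]
      ring
    rw [z1, z2, z3] at key
    have h1 : 0 < ev A r' * ev D r :=
      mul_pos (hA r' rP' hrr.symm (neq r' hr' b hb)) (posD r rP)
    have h2 : ev A r * ev D r' ≤ 0 := mul_nonpos_of_nonpos_of_nonneg hAr (posD r' rP').le
    linarith
  set g := pm A E D with hg
  have gx : ∀ x, (g x).1 = ev A x / ev D x := by
    intro x
    rw [hg]
    rfl
  obtain ⟨ε, hε, hsh⟩ := exists_shear ((R ∪ B).image g)
  have hcard : 3 ≤ (R ∪ B).card := by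
    have hsub : ({r, b, r'} : Finset Pt) ⊆ R ∪ B := by
      intro x hx
      simp at hx
      rcases hx with rfl | rfl | rfl
      · exact rP
      · exact bP
      · exact rP'
    have : ({r, b, r'} : Finset Pt).card = 3 := by
      rw [Finset.card_insert_of_notMem, Finset.card_pair (neq r' hr' b hb).symm]
      simp [neq r hr b hb, hrr]
    rw [← this]
    exact Finset.card_le_card hsub
  have sgg : ∀ p ∈ R ∪ B, ∀ q ∈ R ∪ B, ∀ r ∈ R ∪ B, 0 < dt p q r ↔ 0 < dt (g p) (g q) (g r) := by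
    intro p hp q hq r hr
    have hp' := posD p hp
    have hq' := posD q hq
    have hr' := posD r hr
    rw [hg, dt_pm A E D hp'.ne' hq'.ne' hr'.ne', div_pos_iff_of_pos_right (by positivity),
      mul_pos_iff_of_pos_left hdet]
  have hgiso := signIso_of_sg hG hcard sgg
  set f : Pt → Pt := fun x => sh ε (g x) with hf
  have hfiso : SignIso f (R ∪ B) := by
    apply signIso_of_sg hG hcard
    intro p hp q hq r hr
    rw [hf]
    simp only
    rw [dt_sh]
    exact sgg p hp q hq r hr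
  have hlt : ∀ x ∈ R ∪ B, ∀ y ∈ R ∪ B, (g x).1 < (g y).1 → (f x).1 < (f y).1 :=
    fun x hx y hy h => hsh _ (Finset.mem_image_of_mem g hx) _ (Finset.mem_image_of_mem g hy) h
  have hfi : ∀ x ∈ R ∪ B, ∀ y ∈ R ∪ B, f x = f y → x = y := fun x hx y hy h =>
    hfiso.inj (Finset.mem_coe.2 hx) (Finset.mem_coe.2 hy) h
  have hf1 : ∀ x ∈ R ∪ B, ∀ y ∈ R ∪ B, x ≠ y → (f x).1 ≠ (f y).1 := by
    intro x hx y hy hxy
    exact sh_ne hε hsh (Finset.mem_image_of_mem g hx) (Finset.mem_image_of_mem g hy)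
      (fun e => hxy (hgiso.inj (Finset.mem_coe.2 hx) (Finset.mem_coe.2 hy) e))
  have neg1 : ∀ x ∈ R ∪ B, ev A x ≤ 0 → (g x).1 ≤ 0 := fun x hx h => by
    rw [gx]; exact div_nonpos_of_nonpos_of_nonneg h (posD x hx).le
  have pos1 : ∀ x ∈ R ∪ B, 0 < ev A x → 0 < (g x).1 := fun x hx h => by
    rw [gx]; exact div_pos h (posD x hx)
  have one1 : ∀ x ∈ R ∪ B, ev C x ≤ 0 → 1 ≤ (g x).1 := fun x hx h => by
    rw [gx, le_div_iff₀ (posD x hx), evD]; linarith
  have one2 : ∀ x ∈ R ∪ B, 0 < ev C x → (g x).1 < 1 := fun x hx h => by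
    rw [gx, div_lt_one (posD x hx), evD]; linarith
  have cmp : ∀ x ∈ R ∪ B, ∀ y ∈ R ∪ B, ev A x * ev C y < ev A y * ev C x → (g x).1 < (g y).1 := by
    intro x hx y hy h
    rw [gx, gx, div_lt_div_iff₀ (posD x hx) (posD y hy), evD, evD]
    linarith
  obtain ⟨lR, lB, hT, hF, hL⟩ := linear_run_lemma (R := R.image f) (B := B.image f)
    (by rw [← Finset.image_union]; exact hfiso.gp hG)
    (by
      rw [Finset.disjoint_left]
      intro x hx hx'
      obtain ⟨y, hy, rfl⟩ := Finset.mem_image.1 hx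
      obtain ⟨z, hz, hzy⟩ := Finset.mem_image.1 hx'
      exact neq y hy z hz (hfi z (Finset.mem_union_right _ hz) y (Finset.mem_union_left _ hy) hzy).symm)
    (by
      rw [← Finset.image_union]
      intro x hx y hy hxy
      obtain ⟨x, hx', rfl⟩ := Finset.mem_image.1 hx
      obtain ⟨y, hy', rfl⟩ := Finset.mem_image.1 hy
      exact hf1 x hx' y hy' (fun e => hxy (by rw [e])))
    (Finset.mem_image_of_mem f hr) (Finset.mem_image_of_mem f hr')
    (Finset.mem_image_of_mem f hb) (Finset.mem_image_of_mem f hb')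
    (fun e => hrr (hfi r rP r' rP' e)) (fun e => hbb (hfi b bP b' bP' e))
    (by
      rw [← Finset.image_union]
      intro x hx h1 h2
      obtain ⟨x, hx', rfl⟩ := Finset.mem_image.1 hx
      have hxr : x ≠ r := fun e => h1 (by rw [e])
      have hxb : x ≠ b := fun e => h2 (by rw [e])
      have hp := pos1 x hx' (hA x hx' hxr hxb)
      exact ⟨hlt r rP x hx' (lt_of_le_of_lt (neg1 r rP hAr) hp),
        hlt b bP x hx' (lt_of_le_of_lt (neg1 b bP hAb) hp)⟩)
    (by
      rw [← Finset.image_union]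
      intro x hx h1 h2
      obtain ⟨x, hx', rfl⟩ := Finset.mem_image.1 hx
      have hxr : x ≠ r' := fun e => h1 (by rw [e])
      have hxb : x ≠ b' := fun e => h2 (by rw [e])
      have hp := one2 x hx' (hC x hx' hxr hxb)
      exact ⟨hlt x hx' r' rP' (lt_of_lt_of_le hp (one1 r' rP' hCr)),
        hlt x hx' b' bP' (lt_of_lt_of_le hp (one1 b' bP' hCb))⟩)
  obtain ⟨kR, kB, kT, k1, k2, k3, k4⟩ := TwoPaths.pull_one hfiso hr hr' hb hb' hT
  refine ⟨kR, kB, kT, ?_, ?_⟩
  · intro m hm hmr hmb hmm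
    have := hF (f m) (by rw [← Finset.image_union]; exact Finset.mem_image_of_mem f hm)
      (fun e => hmr (hfi m hm r rP e)) (fun e => hmb (hfi m hm b bP e)) (by
        rw [← Finset.image_union]
        intro y hy h1 h2
        obtain ⟨x, hx', rfl⟩ := Finset.mem_image.1 hy
        have hxr : x ≠ r := fun e => h1 (by rw [e])
        have hxb : x ≠ b := fun e => h2 (by rw [e])
        by_cases hxm : x = m
        · rw [hxm]
        · exact (hlt m hm x hx' (cmp m hm x hx' (hmm x hx' hxr hxb hxm))).le)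
    exact ⟨fun h => k1 (this.1 (Finset.mem_image_of_mem f h)),
      fun h => k2 (this.2 (Finset.mem_image_of_mem f h))⟩
  · intro m hm hmr hmb hmm
    have := hL (f m) (by rw [← Finset.image_union]; exact Finset.mem_image_of_mem f hm)
      (fun e => hmr (hfi m hm r' rP' e)) (fun e => hmb (hfi m hm b' bP' e)) (by
        rw [← Finset.image_union]
        intro y hy h1 h2
        obtain ⟨x, hx', rfl⟩ := Finset.mem_image.1 hy
        have hxr : x ≠ r' := fun e => h1 (by rw [e])
        have hxb : x ≠ b' := fun e => h2 (by rw [e])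
        by_cases hxm : x = m
        · rw [hxm]
        · exact (hlt x hx' m hm (cmp x hx' m hm (hmm x hx' hxr hxb hxm))).le)
    exact ⟨fun h => k3 (this.1 (Finset.mem_image_of_mem f h)),
      fun h => k4 (this.2 (Finset.mem_image_of_mem f h))⟩

end Pool.Agent.TK
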