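import Pool.Agent.TK.Transfer

/-!
# Tokunaga's problem: the 2-opt lemma

For arbitrary points `s ≠ t` of a finite set in general position and a line missing the set there is
a non-crossing Hamiltonian path from `s` to `t` with the least possible number of crossings
with the line (0, 1 or 2).
-/

set_option autoImplicit false

namespace Pool.Agent.TK

/-- the point in Euclidean space -/
noncomputable def toE (p : Pt) : EuclideanSpace ℝ (Fin 2) := !₂[p.1, p.2]

theorem toE_combo (a b : ℝ) (p q : Pt) : toE (a • p + b • q) = a • toE p + b • toE q := by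
  unfold toE
  ext i
  fin_cases i <;> simp

/-- Euclidean distance -/
noncomputable def el (p q : Pt) : ℝ := dist (toE p) (toE q)

theorem el_comm (p q : Pt) : el p q = el q p := dist_comm _ _

theorem el_triangle (p q r : Pt) : el p r ≤ el p q + el q r := dist_triangle _ _ _

theorem el_seg {a b : Pt} {x y : ℝ} (hx : 0 < x) (hy : 0 < y) (hxy : x + y = 1) :
    el a (x • a + y • b) + el (x • a + y • b) b = el a b := by
  unfold el
  apply dist_add_dist_of_mem_segment
  rw [toE_combo]
  exact ⟨x, y, hx.le, hy.le, hxy, rfl⟩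

theorem el_strict {a b c : Pt} {x y : ℝ} (hy : 0 < y) (hxy : x + y = 1)
    (h : dt a c b ≠ 0) : el a c < el a (x • a + y • b) + el (x • a + y • b) c := by
  apply lt_of_le_of_ne (el_triangle _ _ _)
  intro he
  unfold el at he
  have hw := dist_add_dist_eq_iff.1 he.symm
  obtain ⟨t, ht, hT⟩ := hw
  rw [toE_combo, AffineMap.lineMap_apply_module] at hT
  have e0 := congrArg (fun v : EuclideanSpace ℝ (Fin 2) => v 0) hT
  have e1 := congrArg (fun v : EuclideanSpace ℝ (Fin 2) => v 1) hT
  simp [toE] at e0 e1
  apply h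
  have hx : x = 1 - y := by linarith
  subst hx
  have : y * dt a c b = 0 := by
    unfold dt
    linear_combination (-(c.2 - a.2)) * (-e0) + (c.1 - a.1) * (-e1)
  rcases mul_eq_zero.1 this with h' | h'
  · linarith
  · exact h'

/-- 2-opt shortens -/
theorem two_opt_len {a b c d : Pt} (h : Cross a b c d) : el a c + el b d < el a b + el c d := by
  obtain ⟨x, y, z, w, hx, hy, hxy, hz, hw, hzw, hE⟩ := h.exists_inter
  have h1 : dt a b c * dt a b d < 0 := h.1
  have h2 : dt a c b ≠ 0 := by
    intro h0
    rw [dt_swap'] at h0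
    have : dt a b c = 0 := by linarith
    rw [this] at h1
    simp at h1
  have e1 := el_seg (a := a) (b := b) hx hy hxy
  have e2 := el_seg (a := c) (b := d) hz hw hzw
  have e3 := el_strict (a := a) (b := b) (c := c) (x := x) hy hxy h2
  have e4 := el_triangle b (x • a + y • b) d
  rw [← hE] at e2
  have e5 := el_comm b (x • a + y • b)
  have e6 := el_comm c (x • a + y • b)
  linarith

/-- sign change indicator -/
noncomputable def sc (γ : Pt) (k : ℝ) (e : Pt × Pt) : ℝ :=
  if (fn γ e.1 - k) * (fn γ e.2 - k) < 0 then 1 else 0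

theorem two_opt_sign {a b c d : Pt} (h : Cross a b c d) {γ : Pt} {k : ℝ} (ha : fn γ a ≠ k)
    (hb : fn γ b ≠ k) (hc : fn γ c ≠ k) (hd : fn γ d ≠ k) :
    sc γ k (a, c) + sc γ k (b, d) ≤ sc γ k (a, b) + sc γ k (c, d) := by
  obtain ⟨x, y, z, w, hx, hy, hxy, hz, hw, hzw, hE⟩ := h.exists_inter
  have e := congrArg (fn γ) hE
  rw [fn_combo, fn_combo] at e
  have e' : x * (fn γ a - k) + y * (fn γ b - k) = z * (fn γ c - k) + w * (fn γ d - k) := by
    have i1 : x * k + y * k = k := by rw [← add_mul, hxy, one_mul]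
    have i2 : z * k + w * k = k := by rw [← add_mul, hzw, one_mul]
    linarith
  unfold sc
  simp only
  have ha' := sub_ne_zero.2 ha
  have hb' := sub_ne_zero.2 hb
  have hc' := sub_ne_zero.2 hc
  have hd' := sub_ne_zero.2 hd
  generalize fn γ a - k = A at *
  generalize fn γ b - k = B at *
  generalize fn γ c - k = C at *
  generalize fn γ d - k = D at *
  have pp : ∀ u v : ℝ, 0 < u → 0 < v → ¬ (u * v < 0) := fun u v hu hv => by
    have := mul_pos hu hv; linarith
  have nn : ∀ u v : ℝ, u < 0 → v < 0 → ¬ (u * v < 0) := fun u v hu hv => by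
    have := mul_pos_of_neg_of_neg hu hv; linarith
  have pn : ∀ u v : ℝ, 0 < u → v < 0 → u * v < 0 := fun u v hu hv => mul_neg_of_pos_of_neg hu hv
  have np : ∀ u v : ℝ, u < 0 → 0 < v → u * v < 0 := fun u v hu hv => mul_neg_of_neg_of_pos hu hv
  rcases lt_or_gt_of_ne ha' with hA | hA <;> rcases lt_or_gt_of_ne hb' with hB | hB <;>
    rcases lt_or_gt_of_ne hc' with hC | hC <;> rcases lt_or_gt_of_ne hd' with hD | hD
  all_goals first
    | (simp only [if_pos, if_neg, pp _ _, nn _ _, pn _ _, np _ _, hA, hB, hC, hD,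
        not_false_eq_true] ; norm_num ; done)
    | (exfalso
       have := mul_pos hx (neg_pos.2 hA)
       have := mul_pos hy (neg_pos.2 hB)
       have := mul_pos hz hC
       have := mul_pos hw hD
       linarith)
    | (exfalso
       have := mul_pos hx hA
       have := mul_pos hy hB
       have := mul_pos hz (neg_pos.2 hC)
       have := mul_pos hw (neg_pos.2 hD)
       linarith)

/-- total weight of a path -/
noncomputable def sw (w : Pt × Pt → ℝ) (l : List Pt) : ℝ := ((pe l).map w).sum

theorem sw_append (w : Pt × Pt → ℝ) (l : List Pt) (a : Pt) (m : List Pt) :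
    sw w (l ++ a :: m) = sw w (l ++ [a]) + sw w (a :: m) := by
  unfold sw; rw [pe_append]; simp

theorem sw_cons_cons (w : Pt × Pt → ℝ) (a b : Pt) (l : List Pt) :
    sw w (a :: b :: l) = w (a, b) + sw w (b :: l) := by
  unfold sw; simp

theorem sw_reverse (w : Pt × Pt → ℝ) (hw : ∀ p q, w (p, q) = w (q, p)) (l : List Pt) :
    sw w l.reverse = sw w l := by
  unfold sw
  rw [pe_reverse, List.map_reverse, List.sum_reverse, List.map_map]
  congr 1
  apply List.map_congr_left
  rintro ⟨p, q⟩ _
  exact hw q p

theorem sw_middle (w : Pt × Pt → ℝ) (l1 : List Pt) (a : Pt) (M : List Pt) (d : Pt) (l2 : List Pt)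
    (b c : Pt) (hb : M.head? = some b) (hc : M.getLast? = some c) :
    sw w (l1 ++ a :: (M ++ d :: l2)) =
      sw w (l1 ++ [a]) + w (a, b) + sw w M + w (c, d) + sw w (d :: l2) := by
  rw [sw_append]
  have h1 : sw w (a :: (M ++ d :: l2)) = w (a, b) + sw w (M ++ d :: l2) := by
    cases M with
    | nil => simp at hb
    | cons b' M =>
      have : b' = b := by simpa using hb
      subst this
      rw [List.cons_append, sw_cons_cons]
  have h2 : sw w (M ++ d :: l2) = sw w M + w (c, d) + sw w (d :: l2) := by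
    rcases List.eq_nil_or_concat M with rfl | ⟨M', c', rfl⟩
    · simp at hc
    · have : c' = c := by simpa using hc
      subst this
      rw [List.concat_eq_append, List.append_assoc, List.singleton_append, sw_append, sw_cons_cons]
      ring
  rw [h1, h2]
  ring

theorem mem_pe_split {l : List Pt} {e : Pt × Pt} (h : e ∈ pe l) :
    ∃ A B : List Pt, l = A ++ e.1 :: e.2 :: B := by
  induction l with
  | nil => simp at h
  | cons a l ih =>
    cases l with
    | nil => simp at h
    | cons b l =>
      rw [pe_cons_cons, List.mem_cons] at h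
      rcases h with rfl | h
      · exact ⟨[], l, rfl⟩
      · obtain ⟨A, B, hAB⟩ := ih h
        exact ⟨a :: A, B, by rw [hAB]; rfl⟩

theorem exists_split_of_cross {l : List Pt}
    (h : ¬ (pe l).Pairwise (fun e f => ¬ CrossE e f)) :
    ∃ (l1 : List Pt) (a : Pt) (M : List Pt) (d : Pt) (l2 : List Pt) (b c : Pt),
      l = l1 ++ a :: (M ++ d :: l2) ∧ M.head? = some b ∧ M.getLast? = some c ∧ Cross a b c d := by
  induction l with
  | nil => simp at h
  | cons x l ih =>
    cases l with
    | nil => simp at h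
    | cons y l =>
      rw [pe_cons_cons, List.pairwise_cons] at h
      by_cases h1 : ∀ g ∈ pe (y :: l), ¬ CrossE (x, y) g
      · obtain ⟨l1, a, M, d, l2, b, c, hl, hb, hc, hx⟩ := ih (fun h2 => h ⟨h1, h2⟩)
        exact ⟨x :: l1, a, M, d, l2, b, c, by rw [hl]; rfl, hb, hc, hx⟩
      · push Not at h1
        obtain ⟨g, hg, hgc⟩ := h1
        obtain ⟨A, B, hAB⟩ := mem_pe_split hg
        refine ⟨[], x, A ++ [g.1], g.2, B, y, g.1, ?_, ?_, by simp, hgc⟩
        · rw [hAB]; simp
        · cases A with
          | nil =>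
            have : y = g.1 := by simpa using (List.cons.inj hAB).1
            simp [this]
          | cons a A =>
            have : y = a := by simpa using (List.cons.inj hAB).1
            simp [this]

theorem lc_eq_sw (γ : Pt) (k : ℝ) (l : List Pt) : (lc γ k l : ℝ) = sw (sc γ k) l := by
  unfold lc sw sc
  induction pe l with
  | nil => simp
  | cons e m ih =>
    rw [List.countP_cons, List.map_cons, List.sum_cons, ← ih]
    simp only [decide_eq_true_eq]
    split_ifs <;> push_cast <;> ring

/-- the competing lists -/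
def Comp (Z : Finset Pt) (s t : Pt) (l : List Pt) : Prop :=
  l.Nodup ∧ l.toFinset = Z ∧ l.head? = some s ∧ l.getLast? = some t

theorem comp_surgery {Z : Finset Pt} {s t : Pt} {l1 M l2 : List Pt} {a d : Pt}
    (h : Comp Z s t (l1 ++ a :: (M ++ d :: l2))) :
    Comp Z s t (l1 ++ a :: (M.reverse ++ d :: l2)) := by
  obtain ⟨h1, h2, h3, h4⟩ := h
  have hp : (l1 ++ a :: (M.reverse ++ d :: l2)).Perm (l1 ++ a :: (M ++ d :: l2)) := by
    apply List.Perm.append_left
    apply List.Perm.cons
    exact List.Perm.append_right _ (List.reverse_perm M)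
  refine ⟨hp.nodup_iff.2 h1, ?_, ?_, ?_⟩
  · rw [← h2]
    exact List.toFinset_eq_of_perm _ _ hp
  · cases l1 with
    | nil => simpa using h3
    | cons x l1 => simpa using h3
  · have e1 : ∀ N : List Pt, (l1 ++ a :: (N ++ d :: l2)).getLast? = (d :: l2).getLast? := by
      intro N
      have : l1 ++ a :: (N ++ d :: l2) = (l1 ++ a :: N) ++ d :: l2 := by simp
      rw [this, List.getLast?_append, List.getLast?_cons]
      simp
    rw [e1] at h4 ⊢
    exact h4

/-- a lexicographic minimum is non-crossing -/
theorem exists_min_path {Z : Finset Pt} {s t : Pt} {γ : Pt} {k : ℝ}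
    (h0 : ∀ x ∈ Z, fn γ x ≠ k) {l0 : List Pt} (hl0 : Comp Z s t l0) :
    ∃ l, HamPath Z s t l ∧ lc γ k l ≤ lc γ k l0 := by
  classical
  set S : Finset (List Pt) := (Z.toList.permutations.toFinset).filter (fun l => Comp Z s t l) with hS
  have memS : ∀ l, l ∈ S ↔ Comp Z s t l := by
    intro l
    rw [hS, Finset.mem_filter, List.mem_toFinset, List.mem_permutations]
    constructor
    · exact fun h => h.2
    · intro h
      refine ⟨?_, h⟩
      apply List.perm_of_nodup_nodup_toFinset_eq h.1 (Finset.nodup_toList Z)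
      rw [h.2.1]; simp
  have hne : S.Nonempty := ⟨l0, (memS l0).2 hl0⟩
  obtain ⟨m, hm, hmin⟩ := S.exists_min_image (fun l => lc γ k l) hne
  set S' : Finset (List Pt) := S.filter (fun l => lc γ k l = lc γ k m) with hS'
  have hne' : S'.Nonempty := ⟨m, Finset.mem_filter.2 ⟨hm, rfl⟩⟩
  obtain ⟨l, hl, hlmin⟩ := S'.exists_min_image (fun l => sw (fun e => el e.1 e.2) l) hne'
  have hlS := (Finset.mem_filter.1 hl).1
  have hleq := (Finset.mem_filter.1 hl).2
  have hC := (memS l).1 hlS
  refine ⟨l, ⟨hC.1, hC.2.1, hC.2.2.1, hC.2.2.2, ?_⟩, ?_⟩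
  · by_contra hcr
    obtain ⟨l1, a, M, d, l2, b, c, hE, hb, hc, hx⟩ := exists_split_of_cross hcr
    set l' := l1 ++ a :: (M.reverse ++ d :: l2) with hl'
    have hC' : Comp Z s t l' := comp_surgery (by rw [← hE]; exact hC)
    have hb' : M.reverse.head? = some c := by rw [List.head?_reverse]; exact hc
    have hc' : M.reverse.getLast? = some b := by rw [List.getLast?_reverse]; exact hb
    have mem : ∀ x ∈ l, fn γ x ≠ k := by
      intro x hx
      apply h0
      rw [← hC.2.1]
      exact List.mem_toFinset.2 hx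
    have bM : b ∈ M := List.mem_of_mem_head? hb
    have cM : c ∈ M := List.mem_of_getLast? hc
    have ha : fn γ a ≠ k := mem a (by rw [hE]; simp)
    have hd : fn γ d ≠ k := mem d (by rw [hE]; simp)
    have hbk : fn γ b ≠ k := mem b (by rw [hE]; simp [bM])
    have hck : fn γ c ≠ k := mem c (by rw [hE]; simp [cM])
    have i1 : (lc γ k l' : ℝ) ≤ lc γ k l := by
      rw [lc_eq_sw, lc_eq_sw, hE, hl', sw_middle _ _ _ _ _ _ _ _ hb hc,
        sw_middle _ _ _ _ _ _ _ _ hb' hc', sw_reverse]
      · have := two_opt_sign hx ha hbk hck hd (k := k)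
        linarith
      · intro p q
        unfold sc
        simp only [mul_comm]
    have i2 : lc γ k l' ≤ lc γ k l := by exact_mod_cast i1
    have i3 := hmin l' ((memS l').2 hC')
    have hl'S : l' ∈ S' := Finset.mem_filter.2 ⟨(memS l').2 hC', by omega⟩
    have i4 := hlmin l' hl'S
    have i5 : sw (fun e => el e.1 e.2) l' < sw (fun e => el e.1 e.2) l := by
      rw [hE, hl', sw_middle _ _ _ _ _ _ _ _ hb hc, sw_middle _ _ _ _ _ _ _ _ hb' hc', sw_reverse]
      · have := two_opt_len hx
        simp only
        linarith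
      · intro p q
        exact el_comm p q
    exact absurd i4 (not_le.2 i5)
  · rw [hleq]
    exact hmin l0 ((memS l0).2 hl0)

theorem lc_append_le (γ : Pt) (k : ℝ) (l m : List Pt) :
    lc γ k (l ++ m) ≤ lc γ k l + 1 + lc γ k m := by
  rcases List.eq_nil_or_concat l with rfl | ⟨l', c, rfl⟩
  · simp
  · cases m with
    | nil => simp; omega
    | cons d m =>
      rw [List.concat_eq_append, List.append_assoc, List.singleton_append]
      unfold lc
      rw [pe_append, List.countP_append, pe_cons_cons, List.countP_cons]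
      split_ifs <;> omega

/-- 2-OPT LEMMA, opposite sides -/
theorem two_opt_opp {Z : Finset Pt} {s t : Pt} {γ : Pt} {k : ℝ} (h0 : ∀ x ∈ Z, fn γ x ≠ k)
    (hs : s ∈ Z) (ht : t ∈ Z) (h1 : fn γ s < k) (h2 : k < fn γ t) :
    ∃ l, HamPath Z s t l ∧ lc γ k l ≤ 1 := by
  classical
  set A : Finset Pt := (Z.filter (fun x => fn γ x < k)).erase s with hA
  set C : Finset Pt := (Z.filter (fun x => k < fn γ x)).erase t with hC
  have mA : ∀ x, x ∈ A ↔ x ≠ s ∧ x ∈ Z ∧ fn γ x < k := by
    intro x; rw [hA, Finset.mem_erase, Finset.mem_filter]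
  have mC : ∀ x, x ∈ C ↔ x ≠ t ∧ x ∈ Z ∧ k < fn γ x := by
    intro x; rw [hC, Finset.mem_erase, Finset.mem_filter]
  have hst : s ≠ t := by intro e; rw [e] at h1; linarith
  suffices hcomp : Comp Z s t ((s :: A.toList) ++ (C.toList ++ [t])) by
    obtain ⟨l, hl, hll⟩ := exists_min_path (Z := Z) (s := s) (t := t) (γ := γ) (k := k) h0 hcomp
    refine ⟨l, hl, le_trans hll ?_⟩
    refine le_trans (lc_append_le _ _ _ _) ?_
    rw [lc_zero_of_neg, lc_zero_of_pos]
    · intro x hx
      simp only [List.mem_append, Finset.mem_toList, List.mem_singleton] at hx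
      rcases hx with hx | rfl
      · exact ((mC x).1 hx).2.2.le
      · exact h2.le
    · intro x hx
      simp only [List.mem_cons, Finset.mem_toList] at hx
      rcases hx with rfl | hx
      · exact h1.le
      · exact ((mA x).1 hx).2.2.le
  refine ⟨?_, ?_, ?_, ?_⟩
  · rw [List.nodup_append]
    refine ⟨?_, ?_, ?_⟩
    · rw [List.nodup_cons]
      refine ⟨?_, Finset.nodup_toList _⟩
      rw [Finset.mem_toList, mA]; simp
    · rw [List.nodup_append]
      refine ⟨Finset.nodup_toList _, by simp, ?_⟩
      intro x hx y hy e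
      simp only [Finset.mem_toList, List.mem_singleton] at hx hy
      rw [mC] at hx
      exact hx.1 (e.trans hy)
    · intro x hx y hy e
      simp only [List.mem_cons, Finset.mem_toList, List.mem_append, List.not_mem_nil,
        or_false] at hx hy
      have hx' : fn γ x < k := by
        rcases hx with rfl | hx
        · exact h1
        · exact ((mA x).1 hx).2.2
      have hy' : k < fn γ y := by
        rcases hy with hy | rfl
        · exact ((mC y).1 hy).2.2
        · exact h2
      rw [e] at hx'; linarith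
  · ext x
    simp only [List.toFinset_append, List.toFinset_cons, Finset.toList_toFinset,
      List.toFinset_nil, Finset.mem_union, Finset.mem_insert, mA, mC, Finset.notMem_empty, or_false]
    constructor
    · rintro ((rfl | h) | (h | rfl))
      · exact hs
      · exact h.2.1
      · exact h.2.1
      · exact ht
    · intro hx
      rcases lt_or_gt_of_ne (h0 x hx) with h | h
      · by_cases e : x = s
        · exact Or.inl (Or.inl e)
        · exact Or.inl (Or.inr ⟨e, hx, h⟩)
      · by_cases e : x = t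
        · exact Or.inr (Or.inr e)
        · exact Or.inr (Or.inl ⟨e, hx, h⟩)
  · simp
  · rw [List.getLast?_append, List.getLast?_append]; rfl

/-- 2-OPT LEMMA, same side -/
theorem two_opt_same {Z : Finset Pt} {s t : Pt} {γ : Pt} {k : ℝ} (h0 : ∀ x ∈ Z, fn γ x ≠ k)
    (hs : s ∈ Z) (ht : t ∈ Z) (hst : s ≠ t) (h1 : fn γ s < k) (h2 : fn γ t < k) :
    ∃ l, HamPath Z s t l ∧ lc γ k l ≤ 2 := by
  classical
  set A : Finset Pt := ((Z.filter (fun x => fn γ x < k)).erase s).erase t with hA
  set C : Finset Pt := (Z.filter (fun x => k < fn γ x)) with hC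
  have mA : ∀ x, x ∈ A ↔ x ≠ t ∧ x ≠ s ∧ x ∈ Z ∧ fn γ x < k := by
    intro x; rw [hA, Finset.mem_erase, Finset.mem_erase, Finset.mem_filter]
  have mC : ∀ x, x ∈ C ↔ x ∈ Z ∧ k < fn γ x := by
    intro x; rw [hC, Finset.mem_filter]
  suffices hcomp : Comp Z s t ((s :: A.toList) ++ (C.toList ++ [t])) by
    obtain ⟨l, hl, hll⟩ := exists_min_path (Z := Z) (s := s) (t := t) (γ := γ) (k := k) h0 hcomp
    refine ⟨l, hl, le_trans hll ?_⟩
    refine le_trans (lc_append_le _ _ _ _) ?_
    have e1 : lc γ k (s :: A.toList) = 0 := by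
      apply lc_zero_of_neg
      intro x hx
      simp only [List.mem_cons, Finset.mem_toList] at hx
      rcases hx with rfl | hx
      · exact h1.le
      · exact ((mA x).1 hx).2.2.2.le
    have e2 : lc γ k (C.toList ++ [t]) ≤ 1 := by
      refine le_trans (lc_append_le _ _ _ _) ?_
      rw [lc_zero_of_pos, lc_zero_of_neg]
      · intro x hx
        simp only [List.mem_singleton] at hx
        rw [hx]; exact h2.le
      · intro x hx
        rw [Finset.mem_toList, mC] at hx
        exact hx.2.le
    omega
  refine ⟨?_, ?_, ?_, ?_⟩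
  · rw [List.nodup_append]
    refine ⟨?_, ?_, ?_⟩
    · rw [List.nodup_cons]
      refine ⟨?_, Finset.nodup_toList _⟩
      rw [Finset.mem_toList, mA]; simp
    · rw [List.nodup_append]
      refine ⟨Finset.nodup_toList _, by simp, ?_⟩
      intro x hx y hy e
      simp only [Finset.mem_toList, List.mem_singleton] at hx hy
      rw [mC] at hx
      rw [e, hy] at hx
      linarith [hx.2]
    · intro x hx y hy e
      simp only [List.mem_cons, Finset.mem_toList, List.mem_append, List.not_mem_nil,
        or_false] at hx hy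
      have hx' : fn γ x < k ∧ x ≠ t := by
        rcases hx with rfl | hx
        · exact ⟨h1, hst⟩
        · exact ⟨((mA x).1 hx).2.2.2, ((mA x).1 hx).1⟩
      rcases hy with hy | rfl
      · have := ((mC y).1 hy).2
        rw [e] at hx'
        linarith [hx'.1]
      · exact hx'.2 e
  · ext x
    simp only [List.toFinset_append, List.toFinset_cons, Finset.toList_toFinset,
      List.toFinset_nil, Finset.mem_union, Finset.mem_insert, mA, mC, Finset.notMem_empty, or_false]
    constructor
    · rintro ((rfl | h) | (h | rfl))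
      · exact hs
      · exact h.2.2.1
      · exact h.1
      · exact ht
    · intro hx
      rcases lt_or_gt_of_ne (h0 x hx) with h | h
      · by_cases e : x = s
        · exact Or.inl (Or.inl e)
        · by_cases e' : x = t
          · exact Or.inr (Or.inr e')
          · exact Or.inl (Or.inr ⟨e', e, hx, h⟩)
      · exact Or.inr (Or.inl ⟨hx, h⟩)
  · simp
  · rw [List.getLast?_append, List.getLast?_append]; rfl

/-- 2-OPT LEMMA: arbitrary end points, at most two crossings with the line -/
theorem two_opt_two {Z : Finset Pt} {s t : Pt} {γ : Pt} {k : ℝ} (h0 : ∀ x ∈ Z, fn γ x ≠ k)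
    (hs : s ∈ Z) (ht : t ∈ Z) (hst : s ≠ t) :
    ∃ l, HamPath Z s t l ∧ lc γ k l ≤ 2 := by
  have h0' : ∀ x ∈ Z, fn (-γ) x ≠ -k := fun x hx => by
    rw [fn_neg]; intro e; exact h0 x hx (by linarith)
  rcases lt_or_gt_of_ne (h0 s hs) with h1 | h1 <;> rcases lt_or_gt_of_ne (h0 t ht) with h2 | h2
  · exact two_opt_same h0 hs ht hst h1 h2
  · obtain ⟨l, hl, hll⟩ := two_opt_opp h0 hs ht h1 h2
    exact ⟨l, hl, by omega⟩
  · obtain ⟨l, hl, hll⟩ := two_opt_opp h0' hs ht (by rw [fn_neg]; linarith) (by rw [fn_neg]; linarith)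
    rw [lc_neg] at hll
    exact ⟨l, hl, by omega⟩
  · obtain ⟨l, hl, hll⟩ := two_opt_same h0' hs ht hst (by rw [fn_neg]; linarith)
      (by rw [fn_neg]; linarith)
    rw [lc_neg] at hll
    exact ⟨l, hl, hll⟩

/-- arbitrary end points, opposite sides in the other direction -/
theorem two_opt_opp' {Z : Finset Pt} {s t : Pt} {γ : Pt} {k : ℝ} (h0 : ∀ x ∈ Z, fn γ x ≠ k)
    (hs : s ∈ Z) (ht : t ∈ Z) (h1 : k < fn γ s) (h2 : fn γ t < k) :
    ∃ l, HamPath Z s t l ∧ lc γ k l ≤ 1 := by
  obtain ⟨l, hl, hll⟩ := two_opt_opp h0 ht hs h2 h1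
  exact ⟨l.reverse, hl.reverse, by rw [lc_reverse]; exact hll⟩

end Pool.Agent.TK
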