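import Pool.Agent.TK.Transfer
import Pool.Agent.TK.TwoOpt

/-!
# Tokunaga's problem: slopes, x-sorted triples, counting lemmas (for the linear run lemma)
-/

set_option autoImplicit false

namespace Pool.Agent.TK

/-- slope -/
noncomputable def sl (a b : Pt) : ℝ := (b.2 - a.2) / (b.1 - a.1)

theorem sl_comm (a b : Pt) : sl a b = sl b a := by
  unfold sl
  rw [← neg_div_neg_eq]
  congr 1 <;> ring

theorem dt_slope {p a b : Pt} (ha : a.1 ≠ p.1) (hb : b.1 ≠ p.1) :
    dt p a b = (a.1 - p.1) * (b.1 - p.1) * (sl p b - sl p a) := by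
  have h1 : a.1 - p.1 ≠ 0 := sub_ne_zero.2 ha
  have h2 : b.1 - p.1 ≠ 0 := sub_ne_zero.2 hb
  unfold dt sl
  field_simp

theorem neg_tri {σ : ℝ} {a b c : Pt} (h1 : a.1 < b.1) (h2 : b.1 < c.1) (h : σ * dt a b c < 0) :
    σ * sl b c < σ * sl a c ∧ σ * sl a c < σ * sl a b := by
  have e1 : dt a b c = (b.1 - a.1) * (c.1 - a.1) * (sl a c - sl a b) :=
    dt_slope (by linarith) (by linarith)
  have e2 : dt a b c = (c.1 - a.1) * (c.1 - b.1) * (sl b c - sl a c) := by
    rw [← dt_rot', dt_slope (by linarith) (by linarith), sl_comm c a, sl_comm c b]; ring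
  constructor
  · rw [e2] at h
    by_contra hc
    have h3 : 0 ≤ σ * sl b c - σ * sl a c := by linarith
    have h4 : 0 ≤ (c.1 - a.1) * (c.1 - b.1) := mul_nonneg (by linarith) (by linarith)
    have h5 := mul_nonneg h4 h3
    linarith [show σ * ((c.1 - a.1) * (c.1 - b.1) * (sl b c - sl a c)) =
      (c.1 - a.1) * (c.1 - b.1) * (σ * sl b c - σ * sl a c) by ring]
  · rw [e1] at h
    by_contra hc
    have h3 : 0 ≤ σ * sl a c - σ * sl a b := by linarith
    have h4 : 0 ≤ (b.1 - a.1) * (c.1 - a.1) := mul_nonneg (by linarith) (by linarith)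
    have h5 := mul_nonneg h4 h3
    linarith [show σ * ((b.1 - a.1) * (c.1 - a.1) * (sl a c - sl a b)) =
      (b.1 - a.1) * (c.1 - a.1) * (σ * sl a c - σ * sl a b) by ring]

theorem pos_tri {σ : ℝ} {a b c : Pt} (h1 : a.1 < b.1) (h2 : b.1 < c.1) (h : 0 < σ * dt a b c) :
    σ * sl a b < σ * sl a c ∧ σ * sl a c < σ * sl b c := by
  have := neg_tri (σ := -σ) h1 h2 (by linarith)
  constructor <;> linarith [this.1, this.2]

/-- converse of `neg_tri` -/
theorem neg_of_sl {σ : ℝ} {a b c : Pt} (h1 : a.1 < b.1) (h2 : b.1 < c.1)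
    (h : σ * sl b c < σ * sl a c ∨ σ * sl a c < σ * sl a b ∨ σ * sl b c < σ * sl a b) :
    σ * dt a b c < 0 := by
  rcases lt_trichotomy (σ * dt a b c) 0 with g | g | g
  · exact g
  · exfalso
    have e1 : dt a b c = (b.1 - a.1) * (c.1 - a.1) * (sl a c - sl a b) :=
      dt_slope (by linarith) (by linarith)
    have e2 : dt a b c = (c.1 - a.1) * (c.1 - b.1) * (sl b c - sl a c) := by
      rw [← dt_rot', dt_slope (by linarith) (by linarith), sl_comm c a, sl_comm c b]; ring
    have k1 : (b.1 - a.1) * (c.1 - a.1) ≠ 0 :=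
      mul_ne_zero (by linarith) (by linarith)
    have k2 : (c.1 - a.1) * (c.1 - b.1) ≠ 0 :=
      mul_ne_zero (by linarith) (by linarith)
    have z1 : σ * sl a c = σ * sl a b := by
      rw [e1] at g
      have : (b.1 - a.1) * (c.1 - a.1) * (σ * sl a c - σ * sl a b) = 0 := by
        rw [← g]; ring
      rcases mul_eq_zero.1 this with h' | h'
      · exact absurd h' k1
      · linarith
    have z2 : σ * sl b c = σ * sl a c := by
      rw [e2] at g
      have : (c.1 - a.1) * (c.1 - b.1) * (σ * sl b c - σ * sl a c) = 0 := by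
        rw [← g]; ring
      rcases mul_eq_zero.1 this with h' | h'
      · exact absurd h' k2
      · linarith
    rcases h with h | h | h <;> linarith
  · exfalso
    have := pos_tri h1 h2 g
    rcases h with h | h | h <;> linarith [this.1, this.2]

/-- the two cases of an x-sorted triple -/
theorem tri {P : Finset Pt} (hG : GP P) {σ : ℝ} (hσ : σ ≠ 0) {a b c : Pt} (ha : a ∈ P) (hb : b ∈ P)
    (hc : c ∈ P) (h1 : a.1 < b.1) (h2 : b.1 < c.1) :
    (σ * dt a b c < 0 ∧ σ * sl b c < σ * sl a c ∧ σ * sl a c < σ * sl a b) ∨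
    (0 < σ * dt a b c ∧ σ * sl a b < σ * sl a c ∧ σ * sl a c < σ * sl b c) := by
  have h0 : dt a b c ≠ 0 := hG a ha b hb c hc (by rintro rfl; linarith) (by rintro rfl; linarith)
    (by rintro rfl; linarith)
  rcases lt_or_gt_of_ne (mul_ne_zero hσ h0) with h | h
  · exact Or.inl ⟨h, neg_tri h1 h2 h⟩
  · exact Or.inr ⟨h, pos_tri h1 h2 h⟩

theorem x4 {a b c d : Pt} (h1 : a.1 < b.1) (h2 : b.1 < c.1) (h3 : c.1 < d.1)
    (h : dt a b c * dt b c d ≤ 0) : ¬ Cross a c b d := by
  rintro ⟨i1, i2⟩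
  rw [dt_swap' a b c] at i1
  rw [dt_swap' b c d] at i2
  have e1 : dt b d a = dt a b d := dt_rot a b d
  rw [e1] at i2
  rcases lt_trichotomy (dt a b c) 0 with g | g | g
  · have g2 : dt a c d < 0 := by
      by_contra hc
      have := mul_nonneg_of_nonpos_of_nonpos g.le (by linarith : - dt a c d ≤ 0)
      linarith
    have t1 := neg_tri (σ := 1) h1 h2 (by linarith)
    have t2 := neg_tri (σ := 1) (h1.trans h2) h3 (by linarith)
    have g3 : dt a b d < 0 := by
      by_contra hc
      rcases lt_or_eq_of_le (not_lt.1 hc) with hc | hc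
      · have := pos_tri (σ := 1) h1 (h2.trans h3) (by linarith)
        linarith [this.1, this.2, t1.1, t1.2, t2.1, t2.2]
      · rw [← hc] at i2; linarith
    have g4 : dt b c d < 0 := by
      by_contra hc
      have := mul_nonneg_of_nonpos_of_nonpos g3.le (by linarith : - dt b c d ≤ 0)
      linarith
    have := mul_pos_of_neg_of_neg g g4
    linarith
  · rw [g] at i1; linarith
  · have g2 : 0 < dt a c d := by
      by_contra hc
      have := mul_nonneg g.le (by linarith : 0 ≤ - dt a c d)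
      linarith
    have t1 := pos_tri (σ := 1) h1 h2 (by linarith)
    have t2 := pos_tri (σ := 1) (h1.trans h2) h3 (by linarith)
    have g3 : 0 < dt a b d := by
      by_contra hc
      rcases lt_or_eq_of_le (not_lt.1 hc) with hc | hc
      · have := neg_tri (σ := 1) h1 (h2.trans h3) (by linarith)
        linarith [this.1, this.2, t1.1, t1.2, t2.1, t2.2]
      · rw [hc] at i2; linarith
    have g4 : 0 < dt b c d := by
      by_contra hc
      have := mul_nonneg g3.le (by linarith : 0 ≤ - dt b c d)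
      linarith
    have := mul_pos g g4
    linarith

theorem x4np {σ : ℝ} {a b c d : Pt} (h1 : a.1 < b.1) (h2 : b.1 < c.1) (h3 : c.1 < d.1)
    (ha : σ * dt a b c < 0) (hb : 0 < σ * dt b c d) : ¬ Cross a c b d := by
  apply x4 h1 h2 h3
  have h0 : σ ≠ 0 := by rintro rfl; linarith
  have h4 : 0 < σ * σ := mul_self_pos.2 ‹σ ≠ 0›
  have h5 : (σ * dt a b c) * (σ * dt b c d) < 0 := mul_neg_of_neg_of_pos ha hb
  by_contra hc
  have := mul_pos h4 (not_le.1 hc)
  linarith [show σ * σ * (dt a b c * dt b c d) = (σ * dt a b c) * (σ * dt b c d) by ring]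

theorem x4pn {σ : ℝ} {a b c d : Pt} (h1 : a.1 < b.1) (h2 : b.1 < c.1) (h3 : c.1 < d.1)
    (ha : 0 < σ * dt a b c) (hb : σ * dt b c d < 0) : ¬ Cross a c b d :=
  x4np (σ := -σ) h1 h2 h3 (by linarith) (by linarith)

/-- separation by a vertical line -/
theorem not_cross_x (k : ℝ) {p q r s : Pt} (h1 : p.1 ≤ k) (h2 : q.1 ≤ k) (h3 : k ≤ r.1)
    (h4 : k ≤ s.1) (h5 : p.1 < k ∨ q.1 < k ∨ k < r.1 ∨ k < s.1) : ¬ Cross p q r s := by
  rw [cross_comm]
  have e : ∀ x : Pt, fn ((1 : ℝ), (0 : ℝ)) x = x.1 := fun x => by unfold fn; simp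
  apply not_cross_of_sep ((1 : ℝ), (0 : ℝ)) k <;> simp only [e]
  · exact h3
  · exact h4
  · exact h1
  · exact h2
  · tauto

/-- separation by the line `a b`: `s` on the line, `q` strictly on one side -/
theorem sep_line {σ : ℝ} {a b q s u v : Pt} (hq : σ * dt a b q < 0) (hs : dt a b s = 0)
    (hu : 0 ≤ σ * dt a b u) (hv : 0 ≤ σ * dt a b v) : ¬ Cross q s u v := by
  rw [cross_comm]
  set γ : Pt := (σ * -(b.2 - a.2), σ * (b.1 - a.1)) with hγ
  have e : ∀ x : Pt, fn γ x - fn γ a = σ * dt a b x := fun x => by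
    rw [hγ]; unfold fn dt; simp; ring
  apply not_cross_of_sep γ (fn γ a)
  · linarith [e u]
  · linarith [e v]
  · linarith [e q]
  · have := e s
    rw [hs] at this
    linarith
  · right; right; left
    linarith [e q]

/-- number of crossings with a segment is at most the number of crossings with its line -/
theorem lcnt_le_lc (p y : Pt) (l : List Pt) :
    cnt (p, y) (pe l) ≤ lc (-(y.2 - p.2), y.1 - p.1) (fn (-(y.2 - p.2), y.1 - p.1) p) l := by
  unfold cnt lc
  apply List.countP_mono_left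
  intro e _ he
  simp only [decide_eq_true_eq] at he ⊢
  have := he.1
  simp only [dt_eq_fn p y] at this
  exact this

theorem lcnt_nil (e : Pt × Pt) : cnt e [] = 0 := rfl

theorem lcnt_append (e : Pt × Pt) (E F : List (Pt × Pt)) : cnt e (E ++ F) = cnt e E + cnt e F := by
  unfold cnt; rw [List.countP_append]

theorem lcnt_cons (e f : Pt × Pt) (E : List (Pt × Pt)) : cnt e (f :: E) = cnt e [f] + cnt e E :=
  lcnt_append e [f] E

theorem lcnt_zero {e : Pt × Pt} {E : List (Pt × Pt)} (h : ∀ f ∈ E, ¬ CrossE e f) : cnt e E = 0 := by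
  unfold cnt
  rw [List.countP_eq_zero]
  intro f hf
  simp only [decide_eq_true_eq]
  exact h f hf

theorem cnt_single_le (e f : Pt × Pt) : cnt e [f] ≤ 1 := by
  unfold cnt
  exact List.countP_le_length

theorem cnt_le_length (e : Pt × Pt) (E : List (Pt × Pt)) : cnt e E ≤ E.length := by
  unfold cnt
  exact List.countP_le_length

/-- all points of the path on one side of the line `p y` -/
theorem cnt_pure {σ : ℝ} {p y : Pt} {l : List Pt} (h : ∀ x ∈ l, 0 ≤ σ * dt p y x) (hσ : σ ≠ 0) :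
    cnt (p, y) (pe l) = 0 := by
  apply lcnt_zero
  intro f hf hc
  have hm := mem_of_mem_pe hf
  have h1 := h _ hm.1
  have h2 := h _ hm.2
  have h3 := mul_nonneg h1 h2
  have h4 : 0 < σ * σ := mul_self_pos.2 ‹σ ≠ 0›
  have h5 := hc.1
  simp only at h5
  have h6 := mul_pos_of_neg_of_neg (neg_lt_zero.2 h4) h5
  linarith [show σ * dt p y f.1 * (σ * dt p y f.2) = σ * σ * (dt p y f.1 * dt p y f.2) by ring]

/-- paths inside a run, with the number of crossings with `p y` -/
theorem run_path {P Z : Finset Pt} (hG : GP P) (hZ : Z ⊆ P) {p y s t : Pt} (hp : p ∈ P) (hy : y ∈ P)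
    (hpZ : ∀ z ∈ Z, p.1 < z.1) (hyZ : ∀ z ∈ Z, z.1 < y.1) (hs : s ∈ Z) (ht : t ∈ Z) (hst : s ≠ t) :
    ∃ l, HamPath Z s t l ∧ cnt (p, y) (pe l) ≤ 2 := by
  have h0 : ∀ x ∈ Z, fn (-(y.2 - p.2), y.1 - p.1) x ≠ fn (-(y.2 - p.2), y.1 - p.1) p := by
    intro x hx he
    have h1 := hpZ x hx
    have h2 := hyZ x hx
    apply hG p hp y hy x (hZ hx) (by rintro rfl; linarith) (by rintro rfl; linarith)
      (by rintro rfl; linarith)
    rw [dt_eq_fn, he]; ring
  obtain ⟨l, hl, hc⟩ := two_opt_two h0 hs ht hst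
  exact ⟨l, hl, (lcnt_le_lc p y l).trans hc⟩

/-- paths inside a run between opposite sides of the line `p y` -/
theorem run_path_opp {P Z : Finset Pt} (hG : GP P) (hZ : Z ⊆ P) {p y s t : Pt} (hp : p ∈ P)
    (hy : y ∈ P) (hpZ : ∀ z ∈ Z, p.1 < z.1) (hyZ : ∀ z ∈ Z, z.1 < y.1) (hs : s ∈ Z) (ht : t ∈ Z)
    {σ : ℝ} (h1 : 0 < σ * dt p s y) (h2 : σ * dt p t y < 0) :
    ∃ l, HamPath Z s t l ∧ cnt (p, y) (pe l) ≤ 1 := by
  have h0 : ∀ x ∈ Z, fn (-(y.2 - p.2), y.1 - p.1) x ≠ fn (-(y.2 - p.2), y.1 - p.1) p := by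
    intro x hx he
    have h1 := hpZ x hx
    have h2 := hyZ x hx
    apply hG p hp y hy x (hZ hx) (by rintro rfl; linarith) (by rintro rfl; linarith)
      (by rintro rfl; linarith)
    rw [dt_eq_fn, he]; ring
  have e : ∀ x : Pt, fn (-(y.2 - p.2), y.1 - p.1) x - fn (-(y.2 - p.2), y.1 - p.1) p
      = - dt p x y := fun x => by rw [← dt_eq_fn, dt_swap']
  have es := e s
  have et := e t
  rcases lt_trichotomy σ 0 with g | g | g
  · have hs' : dt p s y < 0 := by
      by_contra hc
      have := mul_nonneg_of_nonpos_of_nonpos g.le (by linarith : - dt p s y ≤ 0)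
      linarith
    have ht' : 0 < dt p t y := by
      by_contra hc
      have := mul_nonneg_of_nonpos_of_nonpos g.le (by linarith : dt p t y ≤ 0)
      linarith
    obtain ⟨l, hl, hc⟩ := two_opt_opp' h0 hs ht (by linarith) (by linarith)
    exact ⟨l, hl, (lcnt_le_lc p y l).trans hc⟩
  · rw [g] at h1; linarith
  · have hs' : 0 < dt p s y := by
      by_contra hc
      have := mul_nonneg g.le (by linarith : 0 ≤ - dt p s y)
      linarith
    have ht' : dt p t y < 0 := by
      by_contra hc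
      have := mul_nonneg g.le (by linarith : 0 ≤ dt p t y)
      linarith
    obtain ⟨l, hl, hc⟩ := two_opt_opp h0 hs ht (by linarith) (by linarith)
    exact ⟨l, hl, (lcnt_le_lc p y l).trans hc⟩

end Pool.Agent.TK
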