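import Pool.Agent.TK.Exit

/-!
# Tokunaga's problem: completions and the induction step (for the linear run lemma)
-/

set_option autoImplicit false

namespace Pool.Agent.TK

/-- the points of `A` left of all of `B` -/
noncomputable def iv (A B : Finset Pt) : Finset Pt := by
  classical exact A.filter (fun a => ∀ b ∈ B, a.1 < b.1)

theorem mem_iv {A B : Finset Pt} {x : Pt} : x ∈ iv A B ↔ x ∈ A ∧ ∀ b ∈ B, x.1 < b.1 := by
  unfold iv; rw [Finset.mem_filter]

/-- entry condition -/
def En (σ : ℝ) (V : Finset Pt) (p s : Pt) : Prop :=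
  (∀ v ∈ V, σ * sl p s ≤ σ * sl p v) ∨
  (∃ l ∈ V, (∀ v ∈ V, v.1 ≤ l.1) ∧ ∀ v ∈ V, σ * sl p l ≤ σ * sl p v)

/-- a completion of the state `(A, B, p)` of sign `σ` -/
structure Cm (P A B V : Finset Pt) (p : Pt) (σ : ℝ) (s : Pt) (lA lB : List Pt) : Prop where
  sV : s ∈ V
  hd : lA.head? = some s
  en : En σ V p s
  gd : ∀ q : Pt, q.1 < p.1 → σ * dt q p s < 0 → Gl q p A B lA lB
  xp : XP P A B p σ s lB

/-- the two entries are ordered -/
theorem En.le {P V : Finset Pt} (hx : DX P) (hV : V ⊆ P) {σ : ℝ} {p s s' : Pt} (hs : s ∈ V)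
    (hs' : s' ∈ V) (h : En σ V p s) (h' : En (-σ) V p s') : σ * sl p s ≤ σ * sl p s' := by
  rcases h with h | ⟨l, hl, hlm, h⟩
  · exact h s' hs'
  · rcases h' with h' | ⟨l', hl', hlm', h'⟩
    · have := h' s hs
      linarith
    · have : l = l' := by
        by_contra hne
        exact hx l (hV hl) l' (hV hl') hne (le_antisymm (hlm' l hl) (hlm l' hl'))
      subst this
      have a1 := h s hs
      have a2 := h' s hs
      have a3 := h s' hs'
      linarith

/-- choice of the entry point of a run -/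
theorem entry {P V : Finset Pt} (hG : GP P) (hx : DX P) (hV : V ⊆ P) {σ : ℝ} (hσ : σ ≠ 0)
    {p l : Pt} (hp : p ∈ P) (hpV : ∀ v ∈ V, p.1 < v.1) (hl : l ∈ V) (hlm : ∀ v ∈ V, v.1 ≤ l.1) :
    ∃ s ∈ V, (s = l → V = {l}) ∧
      ((∀ v ∈ V, σ * sl p s ≤ σ * sl p v) ∨ (s ≠ l ∧ ∀ v ∈ V, σ * sl p l ≤ σ * sl p v)) ∧
      (∀ q : Pt, q.1 < p.1 → σ * dt q p s < 0 → ∀ u ∈ V, ∀ v ∈ V, ¬ Cross q s u v) := by
  classical
  obtain ⟨L, hL, hLm⟩ := Finset.exists_min_image V (fun v => σ * sl p v) ⟨l, hl⟩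
  have hsep : ∀ q : Pt, q.1 < p.1 → σ * dt q p L < 0 → ∀ u ∈ V, ∀ v ∈ V, ¬ Cross q L u v := by
    intro q hqp hq u hu v hv
    have hL1 := hpV L hL
    have key : ∀ u ∈ V, 0 ≤ σ * dt p L u := by
      intro u hu
      rw [dt_slope (by linarith) (by linarith [hpV u hu])]
      have h1 := hLm u hu
      have h2 : 0 ≤ (L.1 - p.1) * (u.1 - p.1) := mul_nonneg (by linarith) (by linarith [hpV u hu])
      have h3 := mul_nonneg h2 (sub_nonneg.2 h1)
      linarith [show σ * ((L.1 - p.1) * (u.1 - p.1) * (sl p u - sl p L)) =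
        (L.1 - p.1) * (u.1 - p.1) * (σ * sl p u - σ * sl p L) by ring]
    exact sep_line (σ := σ) (a := p) (b := L) (by rw [dt_rot q p L]; exact hq)
      (by unfold dt; ring) (key u hu) (key v hv)
  by_cases hLl : L = l
  · by_cases hV1 : V = {l}
    · exact ⟨L, hL, fun _ => hV1, Or.inl hLm, hsep⟩
    · -- gap
      have hne : (V.erase l).Nonempty := by
        rw [Finset.nonempty_iff_ne_empty]
        intro h0
        apply hV1
        rw [Finset.eq_singleton_iff_unique_mem]
        refine ⟨hl, ?_⟩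
        intro x hx'
        by_contra hne
        have : x ∈ V.erase l := Finset.mem_erase.2 ⟨hne, hx'⟩
        rw [h0] at this
        simp at this
      obtain ⟨s, hs, hsm⟩ := Finset.exists_max_image (V.erase l) (fun v => σ * sl l v) hne
      have hs' := Finset.mem_erase.1 hs
      have hsl : s.1 < l.1 := lt_of_le_of_ne (hlm s hs'.2) (hx s (hV hs'.2) l (hV hl) hs'.1)
      refine ⟨s, hs'.2, fun h => absurd h hs'.1, Or.inr ⟨hs'.1, by rw [← hLl]; exact hLm⟩, ?_⟩
      intro q hqp hq u hu v hv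
      have key : ∀ u ∈ V, 0 ≤ σ * dt s l u := by
        intro u hu
        by_cases hul : u = l
        · rw [hul]; simp
        · have hul1 : u.1 < l.1 := lt_of_le_of_ne (hlm u hu) (hx u (hV hu) l (hV hl) hul)
          have h1 := hsm u (Finset.mem_erase.2 ⟨hul, hu⟩)
          rw [← dt_rot, dt_slope (by linarith) (by linarith)]
          have h2 : 0 ≤ (u.1 - l.1) * (s.1 - l.1) :=
            mul_nonneg_of_nonpos_of_nonpos (by linarith) (by linarith)
          have h3 := mul_nonneg h2 (sub_nonneg.2 h1)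
          linarith [show σ * ((u.1 - l.1) * (s.1 - l.1) * (sl l s - sl l u)) =
            (u.1 - l.1) * (s.1 - l.1) * (σ * sl l s - σ * sl l u) by ring]
      have hqs : q.1 < s.1 := hqp.trans (hpV s hs'.2)
      apply sep_line (σ := σ) (a := s) (b := l) _ (by unfold dt; ring) (key u hu) (key v hv)
      rw [← dt_rot']
      have a1 := neg_tri hqp (hpV s hs'.2) hq
      have hLs := hLm s hs'.2
      rw [hLl] at hLs
      rcases tri hG hσ hp (hV hs'.2) (hV hl) (hpV s hs'.2) hsl with ⟨-, g1, g2⟩ | ⟨-, g1, g2⟩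
      · exact neg_of_sl hqs hsl (Or.inr (Or.inr (by
          have a2 := neg_tri hqp (hpV s hs'.2) hq
          linarith [a1.1, a1.2])))
      · linarith
  · exact ⟨L, hL, fun h => absurd h hLl, Or.inl hLm, hsep⟩

/-- assembling a completion with exit `t` -/
theorem assemble {V A' B : Finset Pt} {q p s t : Pt} {l lA' lB : List Pt}
    (hN : Gl p t B A' lB lA') (hP : HamPath V s t l) (ht : t ∈ V) (hqp : q.1 < p.1)
    (hpV : ∀ v ∈ V, p.1 < v.1)
    (hVB : ∀ v ∈ V, ∀ b ∈ B, v.1 < b.1) (hVA : ∀ v ∈ V, ∀ a ∈ A', v.1 < a.1)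
    (hy : ∀ y, lB.head? = some y → ∀ a ∈ A', y.1 < a.1)
    (hqs : ∀ u ∈ V, ∀ v ∈ V, ¬ Cross q s u v)
    (hqw : ∀ w, lA'.head? = some w → ¬ Cross q s t w)
    (htw : ∀ w, lA'.head? = some w → ∀ u ∈ V, ∀ v ∈ V, ¬ Cross u v t w)
    (hc : ∀ y, lB.head? = some y →
      cnt (p, y) [(q, s)] + cnt (p, y) (pe l) + cnt (p, y) (pe (t :: lA'.take 1)) ≤ 2)
    (hlast : lA' = [] → ∀ v ∈ V, v.1 ≤ t.1)
    (hLO : lA' = [] → ∃ f, lB = [f]) :
    Gl q p (V ∪ A') B (l ++ lA') lB := by
  classical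
  have hqV : q ∉ V := fun h => absurd (hpV q h) (by linarith)
  have hpt := hpV t ht
  have hqins : ∀ v ∈ insert q V, ∀ x : Pt, (∀ v ∈ V, v.1 < x.1) → v.1 < x.1 := by
    intro v hv x hx
    rcases Finset.mem_insert.1 hv with rfl | hv
    · linarith [hx t ht]
    · exact hx v hv
  have hHP : HamPath (insert q V) q t (q :: l) := by
    apply HamPath.cons (Finset.mem_insert_self q V) (c := s)
    · rw [Finset.erase_insert hqV]; exact hP
    · rw [Finset.erase_insert hqV]; exact fun u hu v hv => hqs u hu v hv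
  have hpel : pe (q :: l) = (q, s) :: pe l := by
    cases l with
    | nil => have := hP.hd; simp at this
    | cons c l =>
      have : c = s := by simpa using hP.hd
      subst this
      rfl
  refine glue hN hHP hqV ?_ ?_ ?_ hy ?_ ?_ hlast hLO
  · intro v hv b hb
    exact hqins v hv b (fun v hv => hVB v hv b hb)
  · intro v hv a ha
    exact hqins v hv a (fun v hv => hVA v hv a ha)
  · intro a ha
    exact hpt.trans (hVA t ht a ha)
  · intro w hw e he
    rw [hpel, List.mem_cons] at he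
    rcases he with rfl | he
    · exact hqw w hw
    · have := mem_of_mem_pe he
      exact htw w hw _ (hP.mem.1 this.1) _ (hP.mem.1 this.2)
  · intro y hy'
    have := hc y hy'
    rw [hpel, lcnt_cons]
    exact this

theorem cnt_le_one_take (e : Pt × Pt) (t : Pt) (l : List Pt) :
    cnt e (pe (t :: l.take 1)) ≤ 1 := by
  cases l with
  | nil => simp [cnt]
  | cons w r =>
    simp only [List.take_succ_cons, List.take_zero, pe_cons_cons, pe_single]
    exact cnt_single_le _ _

theorem cnt_zero_take {e : Pt × Pt} {t : Pt} {l : List Pt}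
    (h : ∀ w, l.head? = some w → ¬ CrossE e (t, w)) : cnt e (pe (t :: l.take 1)) = 0 := by
  cases l with
  | nil => simp [cnt]
  | cons w r =>
    simp only [List.take_succ_cons, List.take_zero, pe_cons_cons, pe_single]
    apply lcnt_zero
    intro f hf
    rw [List.mem_singleton] at hf
    rw [hf]
    exact h w rfl

/-- assembling with the exit `l0`, the rightmost point of the run -/
theorem assemble_l {V A' B : Finset Pt} {q p s l0 : Pt} {l lA' lB : List Pt}
    (hN : Gl p l0 B A' lB lA') (hP : HamPath V s l0 l) (hl : l0 ∈ V) (hlm : ∀ v ∈ V, v.1 ≤ l0.1)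
    (hqp : q.1 < p.1) (hpV : ∀ v ∈ V, p.1 < v.1)
    (hVB : ∀ v ∈ V, ∀ b ∈ B, v.1 < b.1) (hVA : ∀ v ∈ V, ∀ a ∈ A', v.1 < a.1)
    (hy : ∀ y, lB.head? = some y → ∀ a ∈ A', y.1 < a.1)
    (hqs : ∀ u ∈ V, ∀ v ∈ V, ¬ Cross q s u v)
    (hc : ∀ y, lB.head? = some y →
      cnt (p, y) [(q, s)] + cnt (p, y) (pe l) + cnt (p, y) (pe (l0 :: lA'.take 1)) ≤ 2)
    (hLO : lA' = [] → ∃ f, lB = [f]) :
    Gl q p (V ∪ A') B (l ++ lA') lB := by
  have hs : s ∈ V := hP.mem.1 (List.mem_of_mem_head? (by rw [hP.hd]; rfl))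
  have hwA : ∀ w, lA'.head? = some w → w ∈ A' := fun w hw =>
    hN.memB.1 (List.mem_of_mem_head? (by rw [hw]; rfl))
  refine assemble hN hP hl hqp hpV hVB hVA hy hqs ?_ ?_ hc (fun _ => hlm) hLO
  · intro w hw
    have := hVA l0 hl w (hwA w hw)
    exact not_cross_x l0.1 (by linarith [hpV l0 hl]) (hlm s hs) le_rfl this.le
      (by right; right; right; exact this)
  · intro w hw u hu v hv
    have := hVA l0 hl w (hwA w hw)
    exact not_cross_x l0.1 (hlm u hu) (hlm v hv) le_rfl this.le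
      (by right; right; right; exact this)

end Pool.Agent.TK
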