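import Pool.Agent.TK.Step

/-!
# Tokunaga's problem: the induction step (for the linear run lemma)
-/

set_option autoImplicit false

namespace Pool.Agent.TK

/-- the induction step of the S-claim -/
theorem step {P : Finset Pt} (hG : GP P) (hx : DX P) {A' B V : Finset Pt} (hA' : A' ⊆ P)
    (hB : B ⊆ P) (hV : V ⊆ P) {p l : Pt} (hp : p ∈ P) (hpV : ∀ v ∈ V, p.1 < v.1) (hl : l ∈ V)
    (hlm : ∀ v ∈ V, v.1 ≤ l.1) (hVB : ∀ v ∈ V, ∀ b ∈ B, v.1 < b.1)
    (hVA : ∀ v ∈ V, ∀ a ∈ A', v.1 < a.1) (hLO : A' = ∅ → ∃ f, B = {f})
    (hN : ∀ σ : ℝ, σ ≠ 0 → ∃ (y : Pt) (lB lA' : List Pt), Cm P B A' (iv B A') l σ y lB lA')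
    {σ : ℝ} (hσ : σ ≠ 0) :
    ∃ (s : Pt) (lA lB : List Pt), Cm P (V ∪ A') B V p σ s lA lB := by
  classical
  obtain ⟨y1, lB1, lA1, hN1⟩ := hN σ hσ
  obtain ⟨y2, lB2, lA2, hN2⟩ := hN (-σ) (neg_ne_zero.2 hσ)
  have hpl := hpV l hl
  have hlP := hV hl
  have hO : σ * sl l y1 ≤ σ * sl l y2 :=
    En.le hx (fun x hx => hB (mem_iv.1 hx).1) hN1.sV hN2.sV hN1.en hN2.en
  have hy1B : y1 ∈ B := (mem_iv.1 hN1.sV).1
  have hy2B : y2 ∈ B := (mem_iv.1 hN2.sV).1
  have hly1 : l.1 < y1.1 := hVB l hl y1 hy1B
  have hly2 : l.1 < y2.1 := hVB l hl y2 hy2B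
  -- the heads
  have hyv1 : ∀ y, lB1.head? = some y → ∀ a ∈ A', y.1 < a.1 := by
    intro y hy a ha
    have : y = y1 := by rw [hN1.hd] at hy; simpa using hy.symm
    rw [this]; exact (mem_iv.1 hN1.sV).2 a ha
  have hyv2 : ∀ y, lB2.head? = some y → ∀ a ∈ A', y.1 < a.1 := by
    intro y hy a ha
    have : y = y2 := by rw [hN2.hd] at hy; simpa using hy.symm
    rw [this]; exact (mem_iv.1 hN2.sV).2 a ha
  have hLO' : ∀ {q' t' : Pt} {lB lA' : List Pt}, Gl q' t' B A' lB lA' → lA' = [] →
      ∃ f, lB = [f] := by
    intro q' t' lB lA' hg h0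
    have : A' = ∅ := by rw [← hg.tsB, h0]; simp
    obtain ⟨f, hf⟩ := hLO this
    refine ⟨f, ?_⟩
    have h1 := hg.ndA
    have h2 := hg.tsA
    rw [hf] at h2
    cases lB with
    | nil => simp at h2
    | cons a r =>
      have ha : a = f := by
        have : a ∈ (a :: r).toFinset := by simp
        rw [h2] at this; simpa using this
      cases r with
      | nil => rw [ha]
      | cons b r =>
        have hb : b = f := by
          have : b ∈ (a :: b :: r).toFinset := by simp
          rw [h2] at this; simpa using this
        rw [ha, hb] at h1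
        simp at h1
  obtain ⟨s, hsV, hs1, hs2, hsep⟩ := entry hG hx hV hσ hp hpV hl hlm
  have hps := hpV s hsV
  have hen : En σ V p s := by
    rcases hs2 with h | ⟨-, h⟩
    · exact Or.inl h
    · exact Or.inr ⟨l, hl, hlm, h⟩
  -- a path from the entry to `l`
  have hpath : ∀ (p' y : Pt), p' ∈ P → y ∈ P → (∀ v ∈ V, p'.1 < v.1) → (∀ v ∈ V, v.1 < y.1) →
      ∃ lp, HamPath V s l lp ∧ cnt (p', y) (pe lp) ≤ 2 := by
    intro p' y hp' hy h1 h2
    by_cases hsl : s = l
    · have hVl := hs1 hsl
      refine ⟨[l], ?_, ?_⟩
      · rw [hsl, hVl]; exact HamPath.singleton l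
      · simp [cnt]
    · exact run_path hG hV hp' hy h1 h2 hsV hl hsl
  -- crossing of `q s` with `p y`
  have hqspy : ∀ q y : Pt, q.1 < p.1 → s.1 < y.1 → σ * dt q p s < 0 → 0 < σ * dt p s y →
      cnt (p, y) [(q, s)] = 0 := by
    intro q y hqp hsy h1 h2
    apply lcnt_zero
    intro f hf
    rw [List.mem_singleton] at hf
    rw [hf]
    intro hc
    exact x4np hqp hps hsy h1 h2 hc.symm
  rcases tri hG hσ hp hlP (hB hy1B) hpl hly1 with ⟨hτ, hτ1, hτ2⟩ | ⟨hτ, hτ1, hτ2⟩
  · ---------------- case `l` is above `p y1`
    refine ⟨s, ?_⟩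
    rcases tri hG hσ hp (hV hsV) (hB hy1B) hps (hVB s hsV y1 hy1B) with
      ⟨hsy, hsy1, hsy2⟩ | ⟨hsy, hsy1, hsy2⟩
    · -- (a) the whole run is above `p y1`
      have hpure : ∀ v ∈ V, σ * sl v y1 < σ * sl p y1 ∧ σ * sl p y1 < σ * sl p v := by
        intro v hv
        have : σ * sl p y1 < σ * sl p v := by
          rcases hs2 with h | ⟨-, h⟩
          · linarith [h v hv]
          · linarith [h v hv]
        rcases tri hG hσ hp (hV hv) (hB hy1B) (hpV v hv) (hVB v hv y1 hy1B) with
          ⟨-, g1, g2⟩ | ⟨-, g1, g2⟩
        · exact ⟨g1, g2⟩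
        · linarith
      obtain ⟨lp, hlp, -⟩ := hpath p y1 hp (hB hy1B) hpV (fun v hv => hVB v hv y1 hy1B)
      have hcnt : ∀ p' : Pt, (∀ v ∈ V, σ * dt p' v y1 < 0) → cnt (p', y1) (pe lp) = 0 := by
        intro p' h
        apply cnt_pure (σ := σ) _ hσ
        intro x hx'
        have := h x (hlp.mem.1 hx')
        rw [dt_swap' p' x y1]
        linarith
      have hmk : ∀ q p' : Pt, Gl p' l B A' lB1 lA1 → q.1 < p'.1 → p'.1 ≤ p.1 →
          (∀ v ∈ V, σ * dt p' v y1 < 0) → (∀ u ∈ V, ∀ v ∈ V, ¬ Cross q s u v) →
          Gl q p' (V ∪ A') B (lp ++ lA1) lB1 := by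
        intro q p' hg hq hp' hv hsep'
        refine assemble_l hg hlp hl hlm hq (fun v hv => lt_of_le_of_lt hp' (hpV v hv)) hVB hVA hyv1
          hsep' ?_ (hLO' hg)
        intro y hy
        have : y = y1 := by rw [hN1.hd] at hy; simpa using hy.symm
        rw [this, hcnt p' hv]
        have h1 := cnt_single_le (p', y1) (q, s)
        have h2 := cnt_le_one_take (p', y1) l lA1
        omega
      have habv : ∀ v ∈ V, σ * dt p v y1 < 0 := by
        intro v hv
        have := hpure v hv
        rcases tri hG hσ hp (hV hv) (hB hy1B) (hpV v hv) (hVB v hv y1 hy1B) with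
          ⟨g, -, -⟩ | ⟨-, g1, g2⟩
        · exact g
        · linarith [this.1, this.2]
      refine ⟨lp ++ lA1, lB1, ?_⟩
      refine ⟨hsV, ?_, hen, ?_, ?_⟩
      · rw [List.head?_append, hlp.hd]; rfl
      · intro q hqp hqs
        exact hmk q p (hN1.gd p hpl hτ) hqp le_rfl habv (hsep q hqp hqs)
      · -- exchange property P1
        intro y hy hys
        have hyy : y = y1 := by rw [hN1.hd] at hy; simpa using hy.symm
        subst hyy
        left
        intro p'' hp'' hpp hp''s
        have a1 := neg_tri hpp hps hp''s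
        have hp''y : p''.1 < y.1 := hpp.trans (hpl.trans hly1)
        have a2 : σ * sl p y < σ * sl p'' y := by
          rcases tri hG hσ hp'' hp (hB hy1B) hpp (hpl.trans hly1) with ⟨-, g1, g2⟩ | ⟨-, g1, g2⟩
          · exact g1
          · linarith [a1.1, a1.2]
        have hall : ∀ v ∈ V, σ * dt p'' v y < 0 := by
          intro v hv
          have := hpure v hv
          rcases tri hG hσ hp'' (hV hv) (hB hy1B) (hpp.trans (hpV v hv)) (hVB v hv y hy1B) with
            ⟨g, -, -⟩ | ⟨-, g1, g2⟩
          · exact g
          · linarith [this.1, this.2]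
        refine ⟨hall s hsV, lp ++ lA1, by rw [List.head?_append, hlp.hd]; rfl, ?_⟩
        intro q hqp'' hqs _
        exact hmk q p'' (hN1.gd p'' (hpp.trans hpl) (hall l hl)) hqp'' hpp.le hall
          (hsep q (hqp''.trans hpp) hqs)
    · -- (b) the entry is below `p y1`
      obtain ⟨lp, hlp, hlpc⟩ := run_path_opp hG hV hp (hB hy1B) hpV (fun v hv => hVB v hv y1 hy1B)
        hsV hl hsy hτ
      refine ⟨lp ++ lA1, lB1, hsV, by rw [List.head?_append, hlp.hd]; rfl, hen, ?_, ?_⟩
      · intro q hqp hqs
        have hg := hN1.gd p hpl hτ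
        refine assemble_l hg hlp hl hlm hqp hpV hVB hVA hyv1 (hsep q hqp hqs) ?_ (hLO' hg)
        intro y hy
        have : y = y1 := by rw [hN1.hd] at hy; simpa using hy.symm
        rw [this, hqspy q y1 hqp (hVB s hsV y1 hy1B) hqs hsy]
        have h2 := cnt_le_one_take (p, y1) l lA1
        omega
      · intro y hy hys
        have : y = y1 := by rw [hN1.hd] at hy; simpa using hy.symm
        rw [this] at hys
        linarith
  · ---------------- case `l` is below `p y1`; we use `y2`
    have hτ' : 0 < σ * dt p l y2 := by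
      rcases tri hG hσ hp hlP (hB hy2B) hpl hly2 with ⟨-, g1, g2⟩ | ⟨g, -, -⟩
      · linarith
      · exact g
    have hly2s := pos_tri hpl hly2 hτ'
    have hg : Gl p l B A' lB2 lA2 := hN2.gd p hpl (by linarith)
    have hwA : ∀ w, lA2.head? = some w → w ∈ A' := fun w hw =>
      hg.memB.1 (List.mem_of_mem_head? (by rw [hw]; rfl))
    have heq2 : ∀ y, lB2.head? = some y → y = y2 := fun y hy => by
      rw [hN2.hd] at hy; simpa using hy.symm
    by_cases hallb : ∀ v ∈ V, 0 < σ * dt p v y2
    · -- (c) the whole run is below `p y2`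
      obtain ⟨lp, hlp, -⟩ := hpath p y2 hp (hB hy2B) hpV (fun v hv => hVB v hv y2 hy2B)
      have hcnt : cnt (p, y2) (pe lp) = 0 := by
        apply cnt_pure (σ := -σ) _ (neg_ne_zero.2 hσ)
        intro x hx'
        have := hallb x (hlp.mem.1 hx')
        rw [dt_swap' p x y2]
        linarith
      refine ⟨s, lp ++ lA2, lB2, hsV, by rw [List.head?_append, hlp.hd]; rfl, hen, ?_, ?_⟩
      · intro q hqp hqs
        refine assemble_l hg hlp hl hlm hqp hpV hVB hVA hyv2 (hsep q hqp hqs) ?_ (hLO' hg)
        intro y hy
        rw [heq2 y hy, hcnt]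
        have h1 := cnt_single_le (p, y2) (q, s)
        have h2 := cnt_le_one_take (p, y2) l lA2
        omega
      · intro y hy hys
        rw [heq2 y hy] at hys
        linarith [hallb s hsV]
    · push Not at hallb
      obtain ⟨v0, hv0, hv0'⟩ := hallb
      have hv0'' : σ * dt p v0 y2 < 0 := by
        rcases tri hG hσ hp (hV hv0) (hB hy2B) (hpV v0 hv0) (hVB v0 hv0 y2 hy2B) with
          ⟨g, -, -⟩ | ⟨g, -, -⟩
        · exact g
        · linarith
      by_cases hnoX : ∀ w, lA2.head? = some w → σ * dt l y2 w < 0
      · -- (d) the edge leaving `l` does not meet `p y2`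
        have hsl : s ≠ l := by
          intro h
          have := hs1 h
          rw [this, Finset.mem_singleton] at hv0
          rw [hv0] at hv0''
          linarith
        have hlw : ∀ p' : Pt, p'.1 < l.1 → 0 < σ * dt p' l y2 →
            cnt (p', y2) (pe (l :: lA2.take 1)) = 0 := by
          intro p' hp' h
          apply cnt_zero_take
          intro w hw
          have hyw : y2.1 < w.1 := (mem_iv.1 hN2.sV).2 w (hwA w hw)
          exact x4pn hp' hly2 hyw h (hnoX w hw)
        rcases tri hG hσ hp (hV hsV) (hB hy2B) hps (hVB s hsV y2 hy2B) with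
          ⟨hsy, hsy1, hsy2⟩ | ⟨hsy, hsy1, hsy2⟩
        · -- (d2) the entry is above `p y2`: gap case, exchange property P2
          have hgap : ∀ v ∈ V, σ * sl p l ≤ σ * sl p v := by
            rcases hs2 with h | ⟨-, h⟩
            · exfalso
              have := h l hl
              linarith [hly2s.1, hly2s.2]
            · exact h
          obtain ⟨lp, hlp, hlpc⟩ := run_path_opp hG hV hp (hB hy2B) hpV
            (fun v hv => hVB v hv y2 hy2B) hsV hl (σ := -σ) (by linarith) (by linarith)
          have hsl1 : s.1 < l.1 := lt_of_le_of_ne (hlm s hsV) (hx s (hV hsV) l hlP hsl)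
          refine ⟨s, lp ++ lA2, lB2, hsV, by rw [List.head?_append, hlp.hd]; rfl, hen, ?_, ?_⟩
          · intro q hqp hqs
            refine assemble_l hg hlp hl hlm hqp hpV hVB hVA hyv2 (hsep q hqp hqs) ?_ (hLO' hg)
            intro y hy
            rw [heq2 y hy, hlw p hpl hτ']
            have h1 := cnt_single_le (p, y2) (q, s)
            omega
          · intro y hy hys
            have hyy := heq2 y hy
            subst hyy
            right
            refine ⟨l, hlP, y1, hy1B, lB1, hN1.hd, hsl1, hly2, hly1, hτ', hO, ?_⟩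
            intro p'' hp'' hpp hp''s
            have a1 := neg_tri hpp hps hp''s
            have hpV'' : ∀ v ∈ V, p''.1 < v.1 := fun v hv => hpp.trans (hpV v hv)
            constructor
            · -- keep
              intro hkeep
              have hA1 : σ * dt p'' s y < 0 := by
                rcases tri hG hσ hp'' (hV hsV) (hB hy2B) (hpp.trans hps) (hVB s hsV y hy2B) with
                  ⟨g, -, -⟩ | ⟨-, g1, g2⟩
                · exact g
                · linarith [a1.1, a1.2]
              obtain ⟨lp', hlp', hlpc'⟩ := run_path_opp hG hV hp'' (hB hy2B) hpV''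
                (fun v hv => hVB v hv y hy2B) hsV hl (σ := -σ) (by linarith) (by linarith)
              have hg'' : Gl p'' l B A' lB2 lA2 := hN2.gd p'' (hpp.trans hpl) (by linarith)
              refine ⟨hA1, lp' ++ lA2, by rw [List.head?_append, hlp'.hd]; rfl, ?_⟩
              intro q hqp'' hqs _
              refine assemble_l hg'' hlp' hl hlm hqp'' hpV'' hVB hVA hyv2
                (hsep q (hqp''.trans hpp) hqs) ?_ (hLO' hg'')
              intro z hz
              rw [heq2 z hz, hlw p'' (hpp.trans hpl) hkeep]
              have h1 := cnt_single_le (p'', y) (q, s)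
              omega
            · -- switch
              intro hsw
              have b1 := neg_tri (hpV'' l hl) hly1 hsw
              have b2 : σ * sl p l < σ * sl p s := by
                rcases tri hG hσ hp (hV hsV) hlP hps hsl1 with ⟨-, g1, g2⟩ | ⟨-, g1, g2⟩
                · linarith
                · linarith [hgap s hsV]
              have b3 : σ * sl p l < σ * sl p'' l ∧ σ * sl p'' l < σ * sl p'' p := by
                rcases tri hG hσ hp'' hp hlP hpp hpl with ⟨-, g1, g2⟩ | ⟨-, g1, g2⟩
                · exact ⟨g1, g2⟩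
                · linarith [a1.1, a1.2]
              have hall : ∀ v ∈ V, σ * dt p'' v y1 < 0 := by
                intro v hv
                by_cases hvl : v = l
                · rw [hvl]; exact hsw
                · have hvl1 : v.1 < l.1 := lt_of_le_of_ne (hlm v hv) (hx v (hV hv) l hlP hvl)
                  have hgv := hgap v hv
                  have c1 : σ * sl v l < σ * sl p l ∧ σ * sl p l < σ * sl p v := by
                    rcases tri hG hσ hp (hV hv) hlP (hpV v hv) hvl1 with ⟨-, g1, g2⟩ | ⟨-, g1, g2⟩
                    · exact ⟨g1, g2⟩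
                    · linarith
                  rcases tri hG hσ hp'' (hV hv) (hB hy1B) (hpV'' v hv) (hVB v hv y1 hy1B) with
                    ⟨g, -, -⟩ | ⟨-, g1, g2⟩
                  · exact g
                  · exfalso
                    rcases tri hG hσ hp'' hp (hV hv) hpp (hpV v hv) with
                      ⟨-, g3, g4⟩ | ⟨-, g3, g4⟩
                    · rcases tri hG hσ hp'' (hV hv) hlP (hpV'' v hv) hvl1 with
                        ⟨-, g5, g6⟩ | ⟨-, g5, g6⟩
                      · linarith [b1.1, b1.2]
                      · linarith [c1.1, c1.2]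
                    · linarith [b1.1, b1.2, b3.1, b3.2]
              obtain ⟨lp', hlp', -⟩ := hpath p'' y1 hp'' (hB hy1B) hpV''
                (fun v hv => hVB v hv y1 hy1B)
              have hcnt : cnt (p'', y1) (pe lp') = 0 := by
                apply cnt_pure (σ := σ) _ hσ
                intro x hx'
                have := hall x (hlp'.mem.1 hx')
                rw [dt_swap' p'' x y1]
                linarith
              have hg'' : Gl p'' l B A' lB1 lA1 := hN1.gd p'' (hpp.trans hpl) hsw
              refine ⟨hall s hsV, lp' ++ lA1, by rw [List.head?_append, hlp'.hd]; rfl, ?_⟩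
              intro q hqp'' hqs _
              refine assemble_l hg'' hlp' hl hlm hqp'' hpV'' hVB hVA hyv1
                (hsep q (hqp''.trans hpp) hqs) ?_ (hLO' hg'')
              intro z hz
              have : z = y1 := by rw [hN1.hd] at hz; simpa using hz.symm
              rw [this, hcnt]
              have h1 := cnt_single_le (p'', y1) (q, s)
              have h2 := cnt_le_one_take (p'', y1) l lA1
              omega
        · -- (d1) the entry is below `p y2`
          obtain ⟨lp, hlp, hlpc⟩ := hpath p y2 hp (hB hy2B) hpV (fun v hv => hVB v hv y2 hy2B)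
          refine ⟨s, lp ++ lA2, lB2, hsV, by rw [List.head?_append, hlp.hd]; rfl, hen, ?_, ?_⟩
          · intro q hqp hqs
            refine assemble_l hg hlp hl hlm hqp hpV hVB hVA hyv2 (hsep q hqp hqs) ?_ (hLO' hg)
            intro y hy
            rw [heq2 y hy, hqspy q y2 hqp (hVB s hsV y2 hy2B) hqs hsy, hlw p hpl hτ']
            omega
          · intro y hy hys
            rw [heq2 y hy] at hys
            linarith
      · -- (e) exit change
        push Not at hnoX
        obtain ⟨w, hw, hw'⟩ := hnoX
        have hwP : w ∈ P := hA' (hwA w hw)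
        have hyw : y2.1 < w.1 := (mem_iv.1 hN2.sV).2 w (hwA w hw)
        have hw'' : 0 < σ * dt l y2 w := by
          rcases tri hG hσ hlP (hB hy2B) hwP hly2 hyw with ⟨g, -, -⟩ | ⟨g, -, -⟩
          · linarith
          · exact g
        obtain ⟨t, ht, w', lB'', lA'', hpt, hlB'', hlA'', hF, hgt⟩ :=
          exit_change hG hx (neg_ne_zero.2 hσ) hV hA' hp hpV hl hlm (hB hy2B)
            (fun v hv => hVB v hv y2 hy2B) hN2.xp hw hwP hyw (by linarith) (by linarith)
            ⟨v0, hv0, by linarith⟩
        -- the entry: the tangent point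
        obtain ⟨L, hL, hLm⟩ := Finset.exists_min_image V (fun v => σ * sl p v) ⟨l, hl⟩
        have hpL := hpV L hL
        have hLy : L.1 < y2.1 := hVB L hL y2 hy2B
        have hLb : 0 < σ * dt p L y2 := by
          have := hLm l hl
          rcases tri hG hσ hp (hV hL) (hB hy2B) hpL hLy with ⟨-, g1, g2⟩ | ⟨g, -, -⟩
          · linarith [hly2s.1, hly2s.2]
          · exact g
        have hw'A : w' ∈ A' := hgt.memB.1 (List.mem_of_mem_head? (by rw [hlA'']; rfl))
        have hyw' : y2.1 < w'.1 := (mem_iv.1 hN2.sV).2 w' hw'A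
        obtain ⟨lp, hlp, hlpc⟩ := run_path_opp hG hV hp (hB hy2B) hpV
          (fun v hv => hVB v hv y2 hy2B) hL ht (σ := σ) hLb (by linarith)
        have hsepL : ∀ q : Pt, q.1 < p.1 → σ * dt q p L < 0 →
            ∀ u ∈ V, ∀ v ∈ V, ¬ Cross q L u v := by
          intro q hqp hq u hu v hv
          have key : ∀ u ∈ V, 0 ≤ σ * dt p L u := by
            intro u hu
            rw [dt_slope (by linarith) (by linarith [hpV u hu])]
            have h1 := hLm u hu
            have h2 : 0 ≤ (L.1 - p.1) * (u.1 - p.1) :=
              mul_nonneg (by linarith) (by linarith [hpV u hu])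
            have h3 := mul_nonneg h2 (sub_nonneg.2 h1)
            linarith [show σ * ((L.1 - p.1) * (u.1 - p.1) * (sl p u - sl p L)) =
              (L.1 - p.1) * (u.1 - p.1) * (σ * sl p u - σ * sl p L) by ring]
          exact sep_line (σ := σ) (a := p) (b := L) (by rw [dt_rot q p L]; exact hq)
            (by unfold dt; ring) (key u hu) (key v hv)
        refine ⟨L, lp ++ lA'', lB'', hL, by rw [List.head?_append, hlp.hd]; rfl, Or.inl hLm, ?_, ?_⟩
        · intro q hqp hqs
          have hne : lA'' ≠ [] := by rintro h; rw [h] at hlA''; simp at hlA''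
          refine assemble hgt hlp ht hqp hpV hVB hVA ?_ (hsepL q hqp hqs) ?_ ?_ ?_
            (fun h => absurd h hne) (fun h => absurd h hne)
          · intro y hy a ha
            have : y = y2 := by rw [hlB''] at hy; simpa using hy.symm
            rw [this]; exact (mem_iv.1 hN2.sV).2 a ha
          · intro w1 hw1
            have : w1 = w' := by rw [hlA''] at hw1; simpa using hw1.symm
            rw [this]
            have htw := hVA t ht w' hw'A
            have hqt : q.1 < t.1 := hqp.trans (hpV t ht)
            rcases le_or_gt L.1 t.1 with h1 | h1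
            · exact not_cross_x t.1 hqt.le h1 le_rfl htw.le (by right; right; right; exact htw)
            · have hLw : L.1 < w'.1 := hVA L hL w' hw'A
              have c1 := neg_tri hqp hpL hqs
              have c2 : σ * dt q t L < 0 := by
                have := hLm t ht
                rcases tri hG hσ hp (hV ht) (hV hL) (hpV t ht) h1 with
                  ⟨-, g3, g4⟩ | ⟨-, g3, g4⟩
                · exact neg_of_sl hqt h1 (Or.inl (by linarith [c1.1, c1.2]))
                · linarith
              exact x4np hqt h1 hLw c2 (by have := hF.2 L hL h1; linarith)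
          · intro w1 hw1
            have : w1 = w' := by rw [hlA''] at hw1; simpa using hw1.symm
            rw [this]
            exact hF.not_cross hx hV ht (fun z hz => hVA z hz w' hw'A)
          · intro y hy
            have : y = y2 := by rw [hlB''] at hy; simpa using hy.symm
            rw [this]
            have h0 : cnt (p, y2) [(q, L)] = 0 := by
              apply lcnt_zero
              intro f hf
              rw [List.mem_singleton] at hf
              rw [hf]
              intro hc
              exact x4np hqp hpL hLy hqs hLb hc.symm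
            have h2 := cnt_le_one_take (p, y2) t lA''
            omega
        · intro y hy hys
          have : y = y2 := by rw [hlB''] at hy; simpa using hy.symm
          rw [this] at hys
          linarith

end Pool.Agent.TK
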