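import Pool.Agent.TK.Close0
import Pool.Agent.TK.LRL

/-!
# Tokunaga's problem: statements used for the case of at least four bichromatic hull edges

`HE P u v` is a COUNTERCLOCKWISE hull edge. Proofs on paper: note 608 on MP_9af0e8_co (there the
orientation is clockwise, the statements below are its mirror images).
-/

set_option autoImplicit false

namespace Pool.Agent.TK

/-- SPa: ccw order `a` red, `u` blue (penalty), ..., `s` blue, `t` red, ..., and a blue hull vertex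
`β` strictly between `t` and `a`. -/
def SPaStmt : Prop := ∀ (R B : Finset Pt) (a t u s β : Pt), GP (R ∪ B) → Disjoint R B →
  a ∈ R → t ∈ R → u ∈ B → s ∈ B → a ≠ t → u ≠ s → HE (R ∪ B) a u → HE (R ∪ B) s t →
  β ∈ B → HV (R ∪ B) β → dt t a β < 0 →
  ∃ lR lB, TwoPaths R B a t u s lR lB ∧ FirstOne lB lR

/-- SPb: ccw order `a` red, `u` blue (penalty), ..., `s` red, `t` blue, ...; no blue hull vertex
strictly between `u` and `s`. -/
def SPbStmt : Prop := ∀ (R B : Finset Pt) (a s u t : Pt), GP (R ∪ B) → Disjoint R B →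
  a ∈ R → s ∈ R → u ∈ B → t ∈ B → a ≠ s → u ≠ t → HE (R ∪ B) a u → HE (R ∪ B) s t →
  (∀ v ∈ B, HV (R ∪ B) v → ¬ dt u s v < 0) →
  ∃ lR lB, TwoPaths R B a s u t lR lB ∧ FirstOne lB lR

/-- the conclusion NL of the double penalty lemma: red path `a ⇝ a'`, blue path
`d, w1, ..., υ`, both end edges of the blue path crossed at most once, and `w1` on the side of
`a` of the line `d υ` -/
def NL (R B : Finset Pt) (a a' d υ : Pt) : Prop :=
  ∃ (lR lB : List Pt) (w1 : Pt) (l' : List Pt),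
    TwoPaths R (insert d (insert υ B)) a a' d υ lR lB ∧ FirstOne lB lR ∧ LastOne lB lR ∧
      lB = d :: w1 :: l' ∧ w1 ∈ B ∧ 0 < dt d υ w1

/-- the alternative LF -/
def LF (R B : Finset Pt) (d υ : Pt) : Prop :=
  (∃ w ∈ R ∪ B, dt d υ w < 0) ∧
    ∀ r ∈ R, ∀ b ∈ B, 0 < dt d υ r → 0 < dt d υ b → 0 < dt d b r

/-- the data of the double penalty lemma (ccw order `a, d, υ, a'`) -/
structure DPData (R B : Finset Pt) (a a' d υ c : Pt) : Prop where
  gp : GP (insert d (insert υ (R ∪ B)))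
  dj : Disjoint R B
  ha : a ∈ R
  ha' : a' ∈ R
  ne : a ≠ a'
  hd : d ∉ R ∪ B
  hυ : υ ∉ R ∪ B
  hdυ : d ≠ υ
  he : HE (insert d (insert υ (R ∪ B))) a d
  he' : HE (insert υ (R ∪ B)) υ a'
  up : fn c d < fn c υ
  low : ∀ z ∈ R ∪ B, fn c υ < fn c z

/-- GDPL, the double penalty lemma -/
def GDPLStmt : Prop := ∀ (R B : Finset Pt) (a a' d υ c β : Pt), DPData R B a a' d υ c →
  β ∈ B → HV (insert d (insert υ (R ∪ B))) β → NL R B a a' d υ ∨ LF R B d υ

/-- the slanted linear run lemma, in the form needed for GDPL: `a` is last around `υ`, the last run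
before `a` around `υ` is blue and lies on the side of `a` of the line `d υ`, the first point after
`a'` around `υ` is blue -/
def SlantStmt : Prop := ∀ (R B : Finset Pt) (a a' d υ c : Pt), DPData R B a a' d υ c →
  (∀ z ∈ R ∪ B, z ≠ a → 0 < dt υ z a) →
  (∃ b ∈ B, ∀ z ∈ R ∪ B, z ≠ a → z ≠ b → 0 < dt υ z b) →
  (∃ b ∈ B, ∀ z ∈ R ∪ B, z ≠ a' → z ≠ b → 0 < dt υ b z) →
  (∀ b ∈ B, (∀ r ∈ R, r ≠ a → 0 < dt υ r b) → 0 < dt d υ b) →
  NL R B a a' d υ

/-- HP lemma: a non-crossing Hamiltonian path between two hull vertices through a given hull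
edge -/
def HPStmt : Prop := ∀ (W : Finset Pt) (s t x y : Pt), GP W → HV W s → HV W t → s ≠ t →
  HE W x y → (W.card = 2 ∨ ¬ (({s, t} : Finset Pt) = {x, y})) →
  ∃ l, HamPath W s t l ∧ ((x, y) ∈ pe l ∨ (y, x) ∈ pe l)

/-- red cycle and blue Hamiltonian path from `x` to `y` -/
def Mix (R B : Finset Pt) (x y : Pt) : Prop :=
  ∃ (E : List (Pt × Pt)) (l : List Pt), Cyc R E ∧ HamPath B x y l ∧ Conf E (pe l)

/-- (C1): every monochromatic hull edge can be prescribed -/
def C1Stmt : Prop := ∀ (R B : Finset Pt) (x y : Pt), GP (R ∪ B) → Disjoint R B → 3 ≤ R.card →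
  x ∈ B → y ∈ B → HE (R ∪ B) x y → Mix R B x y

end Pool.Agent.TK
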