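import Pool.Agent.TK.Stmts

/-!
# Tokunaga's problem: statement of the direct construction when both double penalty lemmas fail
-/

set_option autoImplicit false

namespace Pool.Agent.TK

/-- red cycle and blue path `d, w1, ..., υ`, with `w1` on the positive side of the line `d υ` -/
def Out (R B : Finset Pt) (d υ : Pt) : Prop :=
  ∃ (E : List (Pt × Pt)) (l : List Pt) (w1 : Pt) (l' : List Pt),
    Cyc R E ∧ HamPath (insert d (insert υ B)) d υ l ∧ Conf E (pe l) ∧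
      l = d :: w1 :: l' ∧ w1 ∈ B ∧ 0 < dt d υ w1

/-- the same with `w1` on the negative side -/
def Out' (R B : Finset Pt) (d υ : Pt) : Prop :=
  ∃ (E : List (Pt × Pt)) (l : List Pt) (w1 : Pt) (l' : List Pt),
    Cyc R E ∧ HamPath (insert d (insert υ B)) d υ l ∧ Conf E (pe l) ∧
      l = d :: w1 :: l' ∧ w1 ∈ B ∧ dt d υ w1 < 0

/-- BOTH FAIL (ccw picture: `g` right, `g'` left, `d1` right, `d2` left above `υ`, the set
`R ∪ B` below `υ`). `K` is the red chain of hull edges from `g` to `g'` which closes the red path.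
Proof on paper: note 608, (5), BOTH FAIL. -/
def BFStmt : Prop := ∀ (R B : Finset Pt) (d1 d2 υ c g g' : Pt) (K : List Pt),
  GP (insert d1 (insert d2 (insert υ (R ∪ B)))) → Disjoint R B → B.Nonempty →
  d1 ∉ R ∪ B → d2 ∉ R ∪ B → υ ∉ R ∪ B → d1 ≠ υ → d2 ≠ υ → (d1 = d2 ∨ 0 < dt υ d1 d2) →
  fn c d1 < fn c υ → fn c d2 < fn c υ → (∀ z ∈ R ∪ B, fn c υ < fn c z) →
  HE (insert d1 (insert υ (R ∪ B))) g d1 → HE (insert d2 (insert υ (R ∪ B))) d2 g' →
  K.Nodup → (∀ x ∈ K, x ∈ R) → K.head? = some g → K.getLast? = some g' →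
  (∀ e ∈ pe K, HE (R ∪ B) e.1 e.2) → g ≠ g' → 0 < dt υ g' g →
  (∀ r ∈ R, (r ∈ K → r = g ∨ r = g') → ∀ b ∈ B, 0 < dt d1 υ r → 0 < dt d1 υ b → 0 < dt d1 b r) →
  (∀ r ∈ R, (r ∈ K → r = g ∨ r = g') → ∀ b ∈ B, dt d2 υ r < 0 → dt d2 υ b < 0 → dt d2 b r < 0) →
  Out R B d1 υ ∨ Out' R B d2 υ

end Pool.Agent.TK
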