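import Pool.Agent.TK.Stmts2
import Pool.Agent.TK.Reduce
import Pool.Agent.TK.HullList

/-!
# Tokunaga's problem: top level

`sstmt` is the S-theorem; `top` is the case split on the hull.
-/

set_option autoImplicit false

namespace Pool.Agent.TK

theorem lrlStmt : LRLStmt := by
  intro R B r r' b b' hG hD hr hr' hb hb' hrr hbb hx hl hrt
  obtain ⟨lR, lB, h, _⟩ := linear_run_lemma hG hD hx hr hr' hb hb' hrr hbb hl hrt
  exact ⟨lR, lB, h⟩

/-- the S-theorem -/
theorem sstmt : SStmt := by
  intro R B r r' b b' hG hd hr hr' hb hb' hrr hbb h1 h2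
  exact S_of_LRL lrlStmt hG hd hr hr' hb hb' hrr hbb h1 h2

theorem GoodCycles.swap {R B : Finset Pt} {lR lB : List Pt} (h : GoodCycles R B lR lB) :
    GoodCycles B R lB lR :=
  ⟨h.nodB, h.nodR, h.toB, h.toR, h.ncB, h.ncR, h.cB, h.cR⟩

theorem good_swap {R B : Finset Pt} (h : ∃ lR lB, GoodCycles B R lR lB) :
    ∃ lR lB, GoodCycles R B lR lB := by
  obtain ⟨lR, lB, h⟩ := h
  exact ⟨lB, lR, h.swap⟩

/-- a red cycle and a blue path between the ends of a hull edge give the two cycles -/
theorem Mix.good {R B : Finset Pt} {x y : Pt} (h : Mix R B x y) (hx : x ∈ B) (hy : y ∈ B)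
    (he : HE (R ∪ B) x y) : ∃ lR lB, GoodCycles R B lR lB := by
  obtain ⟨E, l, hE, hl, hc⟩ := h
  have hxy : x ≠ y := he.ne
  obtain ⟨F, hF, hc'⟩ := close_arc (P := R ∪ B) (K := {x, y}) (k := [y, x]) hl hxy
    Finset.subset_union_right
    (by
      intro z hz
      rcases Finset.mem_insert.1 hz with h | h
      · rw [h]; exact Finset.mem_union_right _ hx
      · rw [Finset.mem_singleton.1 h]; exact Finset.mem_union_right _ hy)
    Finset.inter_subset_right (by simp [hxy.symm]) (by
      ext z
      simp only [List.toFinset_cons, List.toFinset_nil, Finset.mem_insert, Finset.mem_singleton,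
        Finset.notMem_empty, or_false]
      tauto) rfl rfl
    (by
      intro e hee
      have : e = (y, x) := by simpa [pe] using hee
      rw [this]
      exact Or.inr he)
    (hE.inside.mono Finset.subset_union_left) hc
  have hB : B ∪ {x, y} = B := by
    apply Finset.union_eq_left.2
    intro z hz
    rcases Finset.mem_insert.1 hz with h | h
    · rw [h]; exact hx
    · rw [Finset.mem_singleton.1 h]; exact hy
  rw [hB] at hF
  exact good_of_conf hE hF hc'

/-- the hull is alternating -/
def Alt (R B : Finset Pt) : Prop := ∀ u v, HE (R ∪ B) u v → (u ∈ R ∧ v ∈ B) ∨ (u ∈ B ∧ v ∈ R)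

/-- the case of an alternating hull -/
def AltStmt : Prop := ∀ (R B : Finset Pt), GP (R ∪ B) → Disjoint R B → 3 ≤ R.card → 3 ≤ B.card →
  Alt R B → ∃ lR lB, GoodCycles R B lR lB

/-- the theorem for lists from the two cases -/
theorem top (hC : C1Stmt) (hA : AltStmt) (R B : Finset Pt) (hd : Disjoint R B) (hR : 3 ≤ R.card)
    (hB : 3 ≤ B.card) (hG : GP (R ∪ B)) : ∃ lR lB : List Pt, GoodCycles R B lR lB := by
  by_cases hAlt : Alt R B
  · exact hA R B hG hd hR hB hAlt
  · unfold Alt at hAlt
    push Not at hAlt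
    obtain ⟨u, v, he, h1, h2⟩ := hAlt
    rcases Finset.mem_union.1 he.1 with hu | hu <;> rcases Finset.mem_union.1 he.2.1 with hv | hv
    · -- both red
      have hGs : GP (B ∪ R) := by rw [Finset.union_comm]; exact hG
      have hes : HE (B ∪ R) u v := by rw [Finset.union_comm]; exact he
      exact good_swap ((hC B R u v hGs hd.symm hB hu hv hes).good hu hv hes)
    · exact absurd hv (h1 hu)
    · exact absurd hv (h2 hu)
    · exact (hC R B u v hG hd hR hu hv he).good hu hv he

end Pool.Agent.TK
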