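import Pool.Agent.TK.Paths

/-!
# Tokunaga's problem: pairs of paths, transport by orientation preserving maps, projective map
-/

set_option autoImplicit false

namespace Pool.Agent.TK

/-- a red path and a blue path, every edge crossed at most twice -/
structure TwoPaths (R B : Finset Pt) (r r' b b' : Pt) (lR lB : List Pt) : Prop where
  hR : HamPath R r r' lR
  hB : HamPath B b b' lB
  cR : ∀ e ∈ pe lR, cnt e (pe lB) ≤ 2
  cB : ∀ f ∈ pe lB, cnt f (pe lR) ≤ 2

theorem TwoPaths.swap {R B : Finset Pt} {r r' b b' : Pt} {lR lB : List Pt}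
    (h : TwoPaths R B r r' b b' lR lB) : TwoPaths B R b b' r r' lB lR :=
  ⟨h.hB, h.hR, h.cB, h.cR⟩

/-- `f` preserves orientation signs and is injective on `P` -/
structure SignIso (f : Pt → Pt) (P : Finset Pt) : Prop where
  inj : Set.InjOn f P
  sg : ∀ p ∈ P, ∀ q ∈ P, ∀ r ∈ P, 0 < dt p q r ↔ 0 < dt (f p) (f q) (f r)

theorem SignIso.mono {f : Pt → Pt} {P Q : Finset Pt} (h : SignIso f P) (hQ : Q ⊆ P) : SignIso f Q :=
  ⟨h.inj.mono (by exact_mod_cast hQ), fun p hp q hq r hr => h.sg p (hQ hp) q (hQ hq) r (hQ hr)⟩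

theorem SignIso.neg {f : Pt → Pt} {P : Finset Pt} (h : SignIso f P) {p q r : Pt} (hp : p ∈ P)
    (hq : q ∈ P) (hr : r ∈ P) : dt p q r < 0 ↔ dt (f p) (f q) (f r) < 0 := by
  have := h.sg q hq p hp r hr
  rw [dt_swap p q r, dt_swap (f p) (f q) (f r)] at this
  constructor
  · intro h1; have := this.1 (by linarith); linarith
  · intro h1; have := this.2 (by linarith); linarith

theorem SignIso.zero {f : Pt → Pt} {P : Finset Pt} (h : SignIso f P) {p q r : Pt} (hp : p ∈ P)
    (hq : q ∈ P) (hr : r ∈ P) : dt p q r = 0 ↔ dt (f p) (f q) (f r) = 0 := by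
  have h1 := h.sg p hp q hq r hr
  have h2 := h.neg hp hq hr
  constructor
  · intro h0
    rcases lt_trichotomy (dt (f p) (f q) (f r)) 0 with h | h | h
    · have := h2.2 h; linarith
    · exact h
    · have := h1.2 h; linarith
  · intro h0
    rcases lt_trichotomy (dt p q r) 0 with h | h | h
    · have := h2.1 h; linarith
    · exact h
    · have := h1.1 h; linarith

theorem SignIso.cross {f : Pt → Pt} {P : Finset Pt} (h : SignIso f P) {p q r s : Pt} (hp : p ∈ P)
    (hq : q ∈ P) (hr : r ∈ P) (hs : s ∈ P) : Cross p q r s ↔ Cross (f p) (f q) (f r) (f s) := by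
  unfold Cross
  rw [mul_neg_iff, mul_neg_iff, mul_neg_iff, mul_neg_iff]
  have a1 := h.sg p hp q hq r hr
  have a2 := h.neg hp hq hr
  have b1 := h.sg p hp q hq s hs
  have b2 := h.neg hp hq hs
  have c1 := h.sg r hr s hs p hp
  have c2 := h.neg hr hs hp
  have d1 := h.sg r hr s hs q hq
  have d2 := h.neg hr hs hq
  rw [a1, a2, b1, b2, c1, c2, d1, d2]

theorem SignIso.gp {f : Pt → Pt} {P : Finset Pt} (h : SignIso f P) (hG : GP P) :
    GP (P.image f) := by
  intro p hp' q hq' r hr' h1 h2 h3
  obtain ⟨p, hp, rfl⟩ := Finset.mem_image.1 hp'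
  obtain ⟨q, hq, rfl⟩ := Finset.mem_image.1 hq'
  obtain ⟨r, hr, rfl⟩ := Finset.mem_image.1 hr'
  intro h0
  exact hG p hp q hq r hr (fun e => h1 (by rw [e])) (fun e => h2 (by rw [e]))
    (fun e => h3 (by rw [e])) ((h.zero hp hq hr).2 h0)

theorem pe_map (f : Pt → Pt) (l : List Pt) : pe (l.map f) = (pe l).map (fun e => (f e.1, f e.2)) := by
  induction l with
  | nil => simp
  | cons a l ih =>
    cases l with
    | nil => simp
    | cons b l =>
      simp only [List.map_cons, pe_cons_cons] at *
      rw [ih]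

theorem HamPath.map {W : Finset Pt} {s t : Pt} {l : List Pt} (h : HamPath W s t l) {f : Pt → Pt}
    (hf : SignIso f W) : HamPath (W.image f) (f s) (f t) (l.map f) := by
  refine ⟨?_, ?_, ?_, ?_, ?_⟩
  · apply List.Nodup.map_on _ h.nd
    intro x hx y hy hxy
    exact hf.inj (h.mem.1 hx) (h.mem.1 hy) hxy
  · rw [← h.ts]
    ext x
    simp
  · rw [List.head?_map, h.hd]; rfl
  · rw [List.getLast?_map, h.la]; rfl
  · rw [pe_map, List.pairwise_map]
    have h1 := h.nc
    rw [List.pairwise_iff_forall_sublist] at h1 ⊢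
    intro e g hs
    have he : e ∈ pe l := hs.subset (by simp)
    have hg : g ∈ pe l := hs.subset (by simp)
    have e1 := mem_of_mem_pe he
    have g1 := mem_of_mem_pe hg
    have := h1 hs
    intro hc
    apply this
    unfold CrossE at *
    exact (hf.cross (h.mem.1 e1.1) (h.mem.1 e1.2) (h.mem.1 g1.1) (h.mem.1 g1.2)).2 hc

theorem cnt_map {P : Finset Pt} {f : Pt → Pt} (hf : SignIso f P) {e : Pt × Pt} (he1 : e.1 ∈ P)
    (he2 : e.2 ∈ P) {l : List Pt} (hl : ∀ x ∈ l, x ∈ P) :
    cnt (f e.1, f e.2) (pe (l.map f)) = cnt e (pe l) := by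
  unfold cnt
  rw [pe_map, List.countP_map]
  apply List.countP_congr
  intro g hg
  have := mem_of_mem_pe hg
  simp only [Function.comp, decide_eq_true_eq]
  unfold CrossE
  exact (hf.cross he1 he2 (hl _ this.1) (hl _ this.2)).symm

theorem TwoPaths.map {R B : Finset Pt} {r r' b b' : Pt} {lR lB : List Pt}
    (h : TwoPaths R B r r' b b' lR lB) {f : Pt → Pt} (hf : SignIso f (R ∪ B)) :
    TwoPaths (R.image f) (B.image f) (f r) (f r') (f b) (f b') (lR.map f) (lB.map f) := by
  have mR : ∀ x ∈ lR, x ∈ R ∪ B := fun x hx => Finset.mem_union_left _ (h.hR.mem.1 hx)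
  have mB : ∀ x ∈ lB, x ∈ R ∪ B := fun x hx => Finset.mem_union_right _ (h.hB.mem.1 hx)
  refine ⟨h.hR.map (hf.mono Finset.subset_union_left), h.hB.map (hf.mono Finset.subset_union_right),
    ?_, ?_⟩
  · intro e he'
    rw [pe_map] at he'
    obtain ⟨e, he, rfl⟩ := List.mem_map.1 he'
    have := mem_of_mem_pe he
    rw [cnt_map hf (mR _ this.1) (mR _ this.2) mB]
    exact h.cR e he
  · intro e he'
    rw [pe_map] at he'
    obtain ⟨e, he, rfl⟩ := List.mem_map.1 he'
    have := mem_of_mem_pe he
    rw [cnt_map hf (mB _ this.1) (mB _ this.2) mR]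
    exact h.cB e he

/-- transport back: a solution for the images gives a solution for the points -/
theorem TwoPaths.pull {R B : Finset Pt} {r r' b b' : Pt} {f : Pt → Pt} (hf : SignIso f (R ∪ B))
    (hr : r ∈ R) (hr' : r' ∈ R) (hb : b ∈ B) (hb' : b' ∈ B)
    (h : ∃ lR lB, TwoPaths (R.image f) (B.image f) (f r) (f r') (f b) (f b') lR lB) :
    ∃ lR lB, TwoPaths R B r r' b b' lR lB := by
  classical
  obtain ⟨lR, lB, h⟩ := h
  set g : Pt → Pt := Function.invFunOn f (↑(R ∪ B) : Set Pt) with hg
  have hgf : ∀ x ∈ R ∪ B, g (f x) = x := by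
    intro x hx
    exact hf.inj.leftInvOn_invFunOn hx
  have hsg : SignIso g (R.image f ∪ B.image f) := by
    rw [← Finset.image_union]
    constructor
    · intro x hx' y hy' hxy
      obtain ⟨x, hx, rfl⟩ := Finset.mem_image.1 (Finset.mem_coe.1 hx')
      obtain ⟨y, hy, rfl⟩ := Finset.mem_image.1 (Finset.mem_coe.1 hy')
      rw [hgf x hx, hgf y hy] at hxy
      rw [hxy]
    · intro p hp' q hq' s hs'
      obtain ⟨p, hp, rfl⟩ := Finset.mem_image.1 hp'
      obtain ⟨q, hq, rfl⟩ := Finset.mem_image.1 hq'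
      obtain ⟨s, hs, rfl⟩ := Finset.mem_image.1 hs'
      rw [hgf p hp, hgf q hq, hgf s hs]
      exact (hf.sg p hp q hq s hs).symm
  have h2 := h.map hsg
  have eR : (R.image f).image g = R := by
    rw [Finset.image_image]
    ext x
    simp only [Finset.mem_image, Function.comp]
    constructor
    · rintro ⟨y, hy, rfl⟩
      rw [hgf y (Finset.mem_union_left _ hy)]; exact hy
    · intro hx
      exact ⟨x, hx, hgf x (Finset.mem_union_left _ hx)⟩
  have eB : (B.image f).image g = B := by
    rw [Finset.image_image]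
    ext x
    simp only [Finset.mem_image, Function.comp]
    constructor
    · rintro ⟨y, hy, rfl⟩
      rw [hgf y (Finset.mem_union_right _ hy)]; exact hy
    · intro hx
      exact ⟨x, hx, hgf x (Finset.mem_union_right _ hx)⟩
  rw [eR, eB, hgf r (Finset.mem_union_left _ hr), hgf r' (Finset.mem_union_left _ hr'),
    hgf b (Finset.mem_union_right _ hb), hgf b' (Finset.mem_union_right _ hb')] at h2
  exact ⟨_, _, h2⟩

/-- the projective map sending `z` to vertical infinity, the half plane `fn a > fn a z` to the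
half plane above the `x` axis; the angular order around `z` becomes the order of `x`
coordinates -/
noncomputable def pr (a z p : Pt) : Pt :=
  (-((a.2 * (p.1 - z.1) - a.1 * (p.2 - z.2)) / (fn a p - fn a z)), 1 / (fn a p - fn a z))

theorem dt_pr (a z p q r : Pt) (hp : fn a z < fn a p) (hq : fn a z < fn a q)
    (hr : fn a z < fn a r) :
    dt (pr a z p) (pr a z q) (pr a z r) =
      (a.1 ^ 2 + a.2 ^ 2) * dt p q r / ((fn a p - fn a z) * (fn a q - fn a z) * (fn a r - fn a z)) := by
  have h1 : fn a p - fn a z ≠ 0 := by linarith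
  have h2 : fn a q - fn a z ≠ 0 := by linarith
  have h3 : fn a r - fn a z ≠ 0 := by linarith
  unfold dt pr
  simp only
  field_simp
  unfold fn
  ring

theorem pr_sub (a z p q : Pt) (hp : fn a z < fn a p) (hq : fn a z < fn a q) :
    (pr a z q).1 - (pr a z p).1 =
      (a.1 ^ 2 + a.2 ^ 2) * dt z p q / ((fn a p - fn a z) * (fn a q - fn a z)) := by
  have h1 : fn a p - fn a z ≠ 0 := by linarith
  have h2 : fn a q - fn a z ≠ 0 := by linarith
  unfold dt pr
  simp only
  field_simp
  unfold fn
  ring

theorem pr_signIso {a z : Pt} {P : Finset Pt} (hH : Half a z P) : SignIso (pr a z) P := by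
  by_cases ha : a.1 ^ 2 + a.2 ^ 2 = 0
  · have h1 : a.1 = 0 := by nlinarith [sq_nonneg a.1, sq_nonneg a.2]
    have h2 : a.2 = 0 := by nlinarith [sq_nonneg a.1, sq_nonneg a.2]
    have hP : P = ∅ := by
      rw [Finset.eq_empty_iff_forall_notMem]
      intro x hx
      have := hH x hx
      unfold fn at this
      rw [h1, h2] at this
      simp at this
    subst hP
    exact ⟨by simp, by simp⟩
  have hapos : 0 < a.1 ^ 2 + a.2 ^ 2 := lt_of_le_of_ne (by positivity) (Ne.symm ha)
  constructor
  · intro p hp q hq hpq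
    have hp' := hH p hp
    have hq' := hH q hq
    have e1 := congrArg Prod.fst hpq
    have e2 := congrArg Prod.snd hpq
    unfold pr at e1 e2
    simp only at e1 e2
    have e3 : fn a p - fn a z = fn a q - fn a z := by
      have := congrArg (fun t => 1 / t) e2
      simpa using this
    rw [e3] at e1
    have h0 : fn a q - fn a z ≠ 0 := by linarith
    rw [neg_inj, div_left_inj' h0] at e1
    unfold fn at e3
    have f1 : (a.1 ^ 2 + a.2 ^ 2) * (p.1 - q.1) = 0 := by linear_combination a.1 * e3 + a.2 * e1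
    have f2 : (a.1 ^ 2 + a.2 ^ 2) * (p.2 - q.2) = 0 := by linear_combination a.2 * e3 - a.1 * e1
    rcases mul_eq_zero.1 f1 with h | h
    · exact absurd h ha
    rcases mul_eq_zero.1 f2 with h' | h'
    · exact absurd h' ha
    ext <;> linarith
  · intro p hp q hq r hr
    have hp' := hH p hp
    have hq' := hH q hq
    have hr' := hH r hr
    rw [dt_pr a z p q r hp' hq' hr']
    have hden : 0 < (fn a p - fn a z) * (fn a q - fn a z) * (fn a r - fn a z) :=
      mul_pos (mul_pos (by linarith) (by linarith)) (by linarith)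
    constructor
    · intro h
      exact div_pos (mul_pos hapos h) hden
    · intro h
      have h1 := (div_pos_iff_of_pos_right hden).1 h
      exact (mul_pos_iff_of_pos_left hapos).1 h1

/-- the order around `z` is the `x` order of the images -/
theorem pr_lt {a z p q : Pt} (ha : a ≠ 0) (hp : fn a z < fn a p) (hq : fn a z < fn a q) :
    (pr a z p).1 < (pr a z q).1 ↔ 0 < dt z p q := by
  have hapos : 0 < a.1 ^ 2 + a.2 ^ 2 := by
    have : a.1 ≠ 0 ∨ a.2 ≠ 0 := by
      by_contra hcon
      push Not at hcon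
      exact ha (Prod.ext hcon.1 hcon.2)
    rcases this with h | h
    · have := sq_pos_of_ne_zero h; positivity
    · have := sq_pos_of_ne_zero h; positivity
  have h := pr_sub a z p q hp hq
  have hden : 0 < (fn a p - fn a z) * (fn a q - fn a z) := mul_pos (by linarith) (by linarith)
  rw [← sub_pos, h, div_pos_iff_of_pos_right hden, mul_pos_iff_of_pos_left hapos]

end Pool.Agent.TK
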