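import Pool.Agent.TK.Close0

/-!
# Tokunaga's problem, g ≥ 4: algebraic lemmas on orientations
-/

set_option autoImplicit false

namespace Pool.Agent.TK

/-- barycentric identity -/
theorem bary (g r g' d c c' : Pt) :
    dt g r g' * dt c c' d = dt r g' d * dt c c' g + dt g' g d * dt c c' r + dt g r d * dt c c' g' := by
  unfold dt; ring

theorem bary_sum (g r g' d : Pt) : dt g r g' = dt r g' d + dt g' g d + dt g r d := by
  unfold dt; ring

theorem bary_fn (a g r g' d : Pt) :
    dt g r g' * fn a d = dt r g' d * fn a g + dt g' g d * fn a r + dt g r d * fn a g' := by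
  unfold dt fn; ring

/-- a point in the cone opposite to the set at the hull vertex `r` sees every edge seen by `r` -/
theorem cone_sees {g r g' d c c' : Pt} (hD : 0 < dt g r g') (h1 : dt g r d < 0) (h2 : dt r g' d < 0)
    (hr : dt c c' r < 0) (hg : 0 ≤ dt c c' g) (hg' : 0 ≤ dt c c' g') : dt c c' d < 0 := by
  have e1 := bary g r g' d c c'
  have e2 := bary_sum g r g' d
  have e3 : 0 < dt g' g d := by linarith
  have i1 := mul_nonneg_of_nonpos_of_nonpos h2.le (neg_nonpos.2 hg)
  have i2 := mul_pos e3 (neg_pos.2 hr)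
  have i3 := mul_nonneg_of_nonpos_of_nonpos h1.le (neg_nonpos.2 hg')
  by_contra hc
  have i4 := mul_nonneg hD.le (not_lt.1 hc)
  nlinarith

/-- a functional increasing from `r` to the set decreases from `r` to the opposite cone -/
theorem cone_fn {g r g' d a : Pt} (hD : 0 < dt g r g') (h1 : dt g r d < 0) (h2 : dt r g' d < 0)
    (hg : fn a r < fn a g) (hg' : fn a r < fn a g') : fn a d < fn a r := by
  have e1 := bary_fn a g r g' d
  have e2 := bary_sum g r g' d
  have i1 := mul_pos (neg_pos.2 h2) (sub_pos.2 hg)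
  have i3 := mul_pos (neg_pos.2 h1) (sub_pos.2 hg')
  by_contra hc
  have i4 := mul_nonneg hD.le (sub_nonneg.2 (not_lt.1 hc))
  have e3 : dt g' g d = dt g r g' - dt r g' d - dt g r d := by linarith
  rw [e3] at e1
  nlinarith

/-- crossing identity -/
theorem cross_ident_dt (p q k d c c' : Pt) :
    dt p q k * dt c c' d - dt p q d * dt c c' k = dt k d q * dt c c' p - dt k d p * dt c c' q := by
  unfold dt; ring

/-- SIDE LEMMA: an edge seen by a point beyond `p q` has its ends on or beyond `p q` -/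
theorem side_left {P : Finset Pt} (hG : GP P) {p q k k' d : Pt} (hp : HV P p) (hq : HV P q)
    (hk : k ∈ P) (hd : d ∈ P) (hs : dt k k' d < 0) (h1 : 0 ≤ dt k k' p)
    (h2 : 0 ≤ dt k k' q) (hpq : dt p q d < 0) : dt p q k ≤ 0 := by
  by_contra hc
  push Not at hc
  have nkp : k ≠ p := by rintro rfl; simp at hc
  have nkq : k ≠ q := by rintro rfl; simp at hc
  have ndp : d ≠ p := by rintro rfl; simp at hpq
  have ndq : d ≠ q := by rintro rfl; simp at hpq
  have nkd : k ≠ d := by rintro rfl; simp at hs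
  have a1 : ¬ 0 < dt k d p := by
    intro h
    apply hp.not_in_triangle hq.1 hk hd _ h
    · rw [dt_swap'']; linarith
    · rw [dt_rot]; exact hc
  have a2 : ¬ dt k d q < 0 := by
    intro h
    apply hq.not_in_triangle hk hp.1 hd
    · rw [dt_rot']; exact hc
    · rw [dt_swap']; linarith
    · rw [dt_swap]; linarith
  have b1 : dt k d p < 0 :=
    lt_of_le_of_ne (not_lt.1 a1) (hG k hk d hd p hp.1 nkd nkp ndp)
  have b2 : 0 < dt k d q :=
    lt_of_le_of_ne (not_lt.1 a2) (hG k hk d hd q hq.1 nkd nkq ndq).symm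
  have e := cross_ident_dt p q k d k k'
  rw [dt_self_out] at e
  have i1 := mul_pos hc (neg_pos.2 hs)
  have i2 := mul_nonneg b2.le h1
  have i3 := mul_nonneg (neg_pos.2 b1).le h2
  nlinarith

theorem side_right {P : Finset Pt} (hG : GP P) {p q k k' d : Pt} (hp : HV P p) (hq : HV P q)
    (hk : k' ∈ P) (hd : d ∈ P) (hs : dt k k' d < 0) (h1 : 0 ≤ dt k k' p)
    (h2 : 0 ≤ dt k k' q) (hpq : dt p q d < 0) : dt p q k' ≤ 0 := by
  by_contra hc
  push Not at hc
  have nkp : k' ≠ p := by rintro rfl; simp at hc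
  have nkq : k' ≠ q := by rintro rfl; simp at hc
  have ndp : d ≠ p := by rintro rfl; simp at hpq
  have ndq : d ≠ q := by rintro rfl; simp at hpq
  have nkd : k' ≠ d := by rintro rfl; simp at hs
  have a1 : ¬ 0 < dt k' d p := by
    intro h
    apply hp.not_in_triangle hq.1 hk hd _ h
    · rw [dt_swap'']; linarith
    · rw [dt_rot]; exact hc
  have a2 : ¬ dt k' d q < 0 := by
    intro h
    apply hq.not_in_triangle hk hp.1 hd
    · rw [dt_rot']; exact hc
    · rw [dt_swap']; linarith
    · rw [dt_swap]; linarith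
  have b1 : dt k' d p < 0 :=
    lt_of_le_of_ne (not_lt.1 a1) (hG k' hk d hd p hp.1 nkd nkp ndp)
  have b2 : 0 < dt k' d q :=
    lt_of_le_of_ne (not_lt.1 a2) (hG k' hk d hd q hq.1 nkd nkq ndq).symm
  have e := cross_ident_dt p q k' d k k'
  rw [dt_self_right] at e
  have i1 := mul_pos hc (neg_pos.2 hs)
  have i2 := mul_nonneg b2.le h1
  have i3 := mul_nonneg (neg_pos.2 b1).le h2
  nlinarith

/-- CHORD LEMMA: `d` beyond the first edge `h c`, beyond the last edge `c' h'` and beyond `p q` is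
beyond the chord `h h'` -/
theorem chord {h h' c c' p q d : Pt} (h1 : dt h c d < 0) (h2 : dt c' h' d < 0)
    (f1 : 0 ≤ dt h c p) (f2 : 0 ≤ dt c' h' p) (g1 : 0 < dt h c h') (g2 : 0 < dt c' h' h)
    (hp : 0 < dt h h' p) (m0 : dt p q d < 0) (m1 : dt p q h < 0) (m2 : dt p q h' < 0)
    (hne : dt h h' d ≠ 0) : dt h h' d < 0 := by
  rcases lt_or_gt_of_ne hne with h0 | h0
  · exact h0
  exfalso
  -- barycentric coordinates of p with respect to d, h, h'
  have hD : dt d h h' = dt h h' d := by rw [← dt_rot]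
  have hD0 : 0 < dt d h h' := by rw [hD]; exact h0
  have e1 := bary d h h' p h c
  have e2 := bary d h h' p c' h'
  have e3 := bary d h h' p p q
  rw [dt_self_out] at e1
  rw [dt_self_right] at e2
  rw [dt_self_out] at e3
  -- coefficients
  have i1 : 0 < dt d h p := by
    by_contra hc
    have a1 := mul_nonneg hD0.le f1
    have a2 := mul_pos hp (neg_pos.2 h1)
    have a3 := mul_nonneg (neg_nonneg.2 (not_lt.1 hc)) g1.le
    nlinarith
  have i2 : 0 < dt h' d p := by
    by_contra hc
    have a1 := mul_nonneg hD0.le f2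
    have a2 := mul_pos hp (neg_pos.2 h2)
    have a3 := mul_nonneg (neg_nonneg.2 (not_lt.1 hc)) g2.le
    nlinarith
  have b1 := mul_pos hp (neg_pos.2 m0)
  have b2 := mul_pos i2 (neg_pos.2 m1)
  have b3 := mul_pos i1 (neg_pos.2 m2)
  nlinarith

/-- a hull vertex is not inside a quadrilateral `p x y q` -/
theorem HV.not_in_quad {P : Finset Pt} (hG : GP P) {z p x y q : Pt} (h : HV P z) (hp : p ∈ P)
    (hx : x ∈ P) (hy : y ∈ P) (hq : q ∈ P) (hpy : p ≠ y) (hzy : z ≠ y) (h1 : 0 < dt p x z)
    (h2 : 0 < dt x y z) (h3 : 0 < dt y q z) (h4 : 0 < dt q p z) : False := by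
  have nzp : z ≠ p := by rintro rfl; simp at h1
  rcases lt_or_gt_of_ne (hG p hp y hy z h.1 hpy nzp.symm hzy.symm) with h5 | h5
  · exact h.not_in_triangle hp hx hy h1 h2 (by rw [dt_swap]; linarith)
  · exact h.not_in_triangle hp hy hq h5 h3 h4

/-- position lemma for the reduction at `x` -/
theorem red_pos {g g' x y b : Pt} (h1 : dt g g' x < 0) (h2 : 0 ≤ dt g g' b) (h3 : 0 ≤ dt g g' y)
    (h4 : 0 < dt y g b) (h5 : 0 < dt x y g) : 0 < dt g x b := by
  have key : dt g x b * dt g g' y = (- dt g g' x) * dt y g b + dt x y g * dt g g' b := by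
    unfold dt; ring
  have i1 := mul_pos (neg_pos.2 h1) h4
  have i2 := mul_nonneg h5.le h2
  by_contra hc
  have i3 := mul_nonneg (neg_nonneg.2 (not_lt.1 hc)) h3
  nlinarith

/-- a segment entering the hull crosses at most one hull edge -/
theorem enter_unique {W : Finset Pt} (hG : GP W) {x w u v u' v' : Pt} (hw : w ∈ W)
    (h1 : HE W u v) (h2 : HE W u' v') (c1 : Cross x w u v) (c2 : Cross x w u' v') :
    u = u' ∧ v = v' := by
  have main : ∀ u v : Pt, HE W u v → Cross x w u v → 0 < dt x w u ∧ dt x w v < 0 := by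
    intro u v h c
    have hne := c.ne
    have i1 : 0 < dt u v w := h.2.2.2 w hw hne.2.2.2.1 hne.2.2.2.2.1
    have i2 : dt u v x < 0 := by
      by_contra hc
      exact absurd c.2 (not_lt.2 (mul_nonneg (not_lt.1 hc) i1.le))
    have e : dt u v w - dt u v x = dt x w u - dt x w v := by unfold dt; ring
    have i3 : dt x w v < dt x w u := by linarith
    rcases mul_neg_iff.1 c.1 with ⟨a, b⟩ | ⟨a, b⟩
    · exact ⟨a, b⟩
    · linarith
  obtain ⟨a1, a2⟩ := main u v h1 c1
  obtain ⟨b1, b2⟩ := main u' v' h2 c2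
  -- functional -dt x w
  have e : ∀ z, dt x w z = fn (-(w.2 - x.2), w.1 - x.1) z - fn (-(w.2 - x.2), w.1 - x.1) x :=
    fun z => dt_eq_fn x w z
  refine bridge_unique hG (c := -(-(w.2 - x.2), w.1 - x.1))
    (k := - fn (-(w.2 - x.2), w.1 - x.1) x) h1 h2 ?_ ?_ ?_ ?_
  · rw [fn_neg]; have := e u; linarith
  · rw [fn_neg]; have := e v; linarith
  · rw [fn_neg]; have := e u'; linarith
  · rw [fn_neg]; have := e v'; linarith

end Pool.Agent.TK
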