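import Pool.Agent.TK.WAlg
import Pool.Agent.TK.Mirror

/-!
# Tokunaga's problem, g ≥ 4: closing lemmas
-/

set_option autoImplicit false

namespace Pool.Agent.TK

theorem Conf.left {E F G : List (Pt × Pt)} (h : Conf E (F ++ G)) : Conf E F := by
  refine ⟨h.ncE, (List.pairwise_append.1 h.ncF).1, ?_, ?_⟩
  · intro e he
    have := h.cE e he
    rw [cnt_append] at this
    omega
  · intro f hf
    exact h.cF f (List.mem_append_left _ hf)

/-- two paths with common ends form a closed polygon -/
theorem cyc_two {B K : Finset Pt} {b b' : Pt} {l k : List Pt}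
    (hl : HamPath B b b' l) (hk : HamPath K b' b k) (hbb : b ≠ b') (hBK : B ∩ K ⊆ {b, b'}) :
    Cyc (B ∪ K) (pe l ++ pe k) := by
  obtain ⟨m, hm⟩ : ∃ m, k = b' :: (m ++ [b]) := by
    cases hk' : k with
    | nil => have := hk.hd; rw [hk'] at this; simp at this
    | cons x k1 =>
      have hx : x = b' := by have := hk.hd; rw [hk'] at this; simpa using this
      rcases List.eq_nil_or_concat k1 with h | ⟨m, y, h⟩
      · exfalso
        have := hk.la
        rw [hk', h] at this
        simp at this
        exact hbb (this.symm.trans hx)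
      · have hy : y = b := by
          have := hk.la
          rw [hk', h] at this
          simpa [List.getLast?_cons] using this
        exact ⟨m, by rw [hx, h, hy, List.concat_eq_append]⟩
  have hmk : ∀ x ∈ m, x ∈ K ∧ x ≠ b ∧ x ≠ b' := by
    intro x hx
    have nd := hk.nd
    rw [hm] at nd
    rw [List.nodup_cons, List.nodup_append] at nd
    refine ⟨hk.mem.1 (by rw [hm]; simp [hx]), ?_, ?_⟩
    · intro e
      exact nd.2.2.2 x hx b (by simp) e
    · intro e
      exact nd.1 (by rw [← e]; simp [hx])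
  refine ⟨l ++ m, ?_, ?_, ?_⟩
  · rw [List.nodup_append]
    refine ⟨hl.nd, ?_, ?_⟩
    · have nd := hk.nd
      rw [hm, List.nodup_cons, List.nodup_append] at nd
      exact nd.2.1
    · intro x hx y hy e
      subst e
      have h3 := hmk x hy
      have := hBK (Finset.mem_inter.2 ⟨hl.mem.1 hx, h3.1⟩)
      simp only [Finset.mem_insert, Finset.mem_singleton] at this
      rcases this with h | h
      · exact h3.2.1 h
      · exact h3.2.2 h
  · ext x
    rw [List.mem_toFinset, List.mem_append, Finset.mem_union, hl.mem]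
    constructor
    · rintro (h | h)
      · exact Or.inl h
      · exact Or.inr (hmk x h).1
    · rintro (h | h)
      · exact Or.inl h
      · have := hk.mem.2 h
        rw [hm] at this
        simp only [List.mem_cons, List.mem_append, List.not_mem_nil, or_false] at this
        rcases this with h | h | h
        · left; rw [h]; rw [← hl.mem]; exact List.mem_of_getLast? hl.la
        · exact Or.inr h
        · left; rw [h]; rw [← hl.mem]; exact List.mem_of_mem_head? hl.hd
  · rw [ce_two hl.hd hl.la, hm]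

theorem ce_rotate (l : List Pt) (n : ℕ) : ce (l.rotate n) = (ce l).rotate n := by
  unfold ce
  have h : (l.rotate n).rotate 1 = (l.rotate 1).rotate n := by
    rw [List.rotate_rotate, List.rotate_rotate, Nat.add_comm]
  rw [h]
  exact (List.zipWith_rotate_distrib Prod.mk l (l.rotate 1) n (by simp)).symm

/-- a closed polygon containing the edge `x y` is a path from `y` to `x` closed by this edge -/
theorem mix_of_cycle' {B : Finset Pt} {E F : List (Pt × Pt)} {x y : Pt} (hF : Cyc B F)
    (hc : Conf E F) (hxy : (x, y) ∈ F) : ∃ l, HamPath B y x l ∧ Conf E (pe l) := by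
  obtain ⟨l0, n, t, p⟩ := hF
  have h1 : (x, y) ∈ ce l0 := p.mem_iff.2 hxy
  obtain ⟨i, hi, he⟩ := List.mem_iff_getElem.1 h1
  rw [ce_getElem] at he
  have hil : i < l0.length := by rw [ce_length] at hi; exact hi
  simp only [Prod.mk.injEq] at he
  obtain ⟨hx, hy⟩ := he
  -- rotate
  set l1 := l0.rotate (i + 1) with hl1
  have hn : l1.Nodup := List.nodup_rotate.2 n
  have hlen : l1.length = l0.length := List.length_rotate l0 (i + 1)
  have hpos : 0 < l0.length := by omega
  have hd : l1[0]'(by omega) = y := by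
    have h2 := List.getElem_rotate l0 (i + 1) 0 (by rw [List.length_rotate]; omega)
    refine h2.trans ?_
    rw [← hy]
    simp only [Nat.zero_add]
  have hla : l1[l0.length - 1]'(by omega) = x := by
    have h2 := List.getElem_rotate l0 (i + 1) (l0.length - 1) (by rw [List.length_rotate]; omega)
    refine h2.trans ?_
    rw [← hx]
    have h3 : (l0.length - 1 + (i + 1)) % l0.length = i := by
      have : l0.length - 1 + (i + 1) = i + l0.length := by omega
      rw [this, Nat.add_mod_right, Nat.mod_eq_of_lt hil]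
    simp only [h3]
  have hts : l1.toFinset = B := by
    rw [← t, hl1]; ext z; simp
  cases hl : l1 with
  | nil => rw [hl] at hlen; simp at hlen; omega
  | cons a m =>
    have ha : a = y := by
      have : l1[0]'(by omega) = a := by simp only [hl, List.getElem_cons_zero]
      rw [← this]; exact hd
    have hlast : (a :: m).getLast? = some x := by
      rw [← hl, List.getLast?_eq_getElem?, hlen, List.getElem?_eq_getElem (by omega)]
      simp only [hla]
    have hce : ce l1 = pe (a :: m) ++ pe (x :: [a]) := by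
      have := ce_two (l := a :: m) (a := a) (b := x) rfl hlast []
      rw [List.append_nil] at this
      rw [hl, this]; rfl
    have hperm : (pe (a :: m) ++ pe (x :: [a])).Perm F := by
      rw [← hce, hl1, ce_rotate]
      exact (List.rotate_perm _ _).trans p
    have hconf : Conf E (pe (a :: m)) := (hc.perm (List.Perm.refl E) hperm.symm).left
    refine ⟨a :: m, ⟨?_, ?_, ?_, hlast, hconf.ncF⟩, hconf⟩
    · rw [← hl]; exact hn
    · rw [← hl]; exact hts
    · rw [ha]; rfl

theorem mix_of_cycle {R B : Finset Pt} {E F : List (Pt × Pt)} {x y : Pt} (hE : Cyc R E)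
    (hF : Cyc B F) (hc : Conf E F) (hxy : (x, y) ∈ F ∨ (y, x) ∈ F) : Mix R B x y := by
  rcases hxy with h | h
  · obtain ⟨l, h1, h2⟩ := mix_of_cycle' hF hc h
    exact Mix.symm ⟨E, l, hE, h1, h2⟩
  · obtain ⟨l, h1, h2⟩ := mix_of_cycle' hF hc h
    exact ⟨E, l, hE, h1, h2⟩

/-- SCLOSE: consecutive hull vertices `b, rs, b'` with `rs` red, `b, b'` blue -/
theorem sclose (hS : SStmt) {R B : Finset Pt} (hG : GP (R ∪ B)) (hd : Disjoint R B)
    {rs : List Pt} {b b' : Pt} (hne : rs ≠ []) (hrs : ∀ x ∈ rs, x ∈ R) (hn : rs.Nodup)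
    (hb : b ∈ B) (hb' : b' ∈ B) (hbb : b ≠ b')
    (he : ∀ e ∈ pe (b :: (rs ++ [b'])), HE (R ∪ B) e.1 e.2) : Mix R B b b' := by
  obtain ⟨x1, rs1, h1⟩ : ∃ x1 rs1, rs = x1 :: rs1 := by
    cases rs with
    | nil => exact absurd rfl hne
    | cons a l => exact ⟨a, l, rfl⟩
  obtain ⟨rs2, xp, h2⟩ : ∃ rs2 xp, rs = rs2 ++ [xp] := by
    rcases List.eq_nil_or_concat rs with h | ⟨l, a, h⟩
    · exact absurd h hne
    · exact ⟨l, a, by rw [h, List.concat_eq_append]⟩
  have e1 : HE (R ∪ B) b x1 := by
    apply he (b, x1)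
    rw [h1]; simp
  have e2 : HE (R ∪ B) xp b' := by
    apply he (xp, b')
    have : b :: (rs ++ [b']) = (b :: rs2) ++ xp :: [b'] := by rw [h2]; simp
    rw [this, pe_append]
    simp
  have e3 : ∀ e ∈ pe rs, HE (R ∪ B) e.1 e.2 := by
    intro e he'
    apply he e
    have : b :: (rs ++ [b']) = [b] ++ x1 :: (rs1 ++ [b']) := by rw [h1]; simp
    rw [this, pe_append]
    apply List.mem_append_right
    have h3 : x1 :: (rs1 ++ [b']) = rs2 ++ xp :: [b'] := by
      have : x1 :: (rs1 ++ [b']) = rs ++ [b'] := by rw [h1]; simp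
      rw [this, h2]; simp
    rw [h3, pe_append, ← h2]
    exact List.mem_append_left _ he'
  obtain ⟨X1, x, x', hxx, hx, hx', hd1, hG1, g1, g2, _, hclose⟩ :=
    open_colour hG hd hn hrs (by rw [h1]; rfl) (by rw [h2]; simp) e3 hb hb' e1 e2 (fun _ => hbb)
  obtain ⟨lR, lB, hT⟩ := hS X1 B x x' b b' hG1 hd1 hx hx' hb hb' hxx hbb (Or.inr g1) (Or.inl g2)
  obtain ⟨F, hF, hFc⟩ := hclose (pe lB) lR hT.hB.inside hT.hR hT.conf.symm
  exact ⟨F, lB, hF, hT.hB, hFc.symm⟩

/-- edges of a Hamiltonian path with at least three vertices never join the two ends -/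
theorem pe_ends {h' h : Pt} {m : List Pt} (hm : m ≠ []) {e : Pt × Pt}
    (he : e ∈ pe (h' :: (m ++ [h]))) :
    (e.1 = h' ∧ e.2 ∈ m) ∨ (e.1 ∈ m ∧ e.2 ∈ m) ∨ (e.1 ∈ m ∧ e.2 = h) := by
  cases m with
  | nil => exact absurd rfl hm
  | cons a m =>
    rw [List.cons_append, pe_cons_cons, List.mem_cons] at he
    rcases he with rfl | he
    · left; simp
    · right
      rcases List.eq_nil_or_concat (a :: m) with h0 | ⟨l, z, h0⟩
      · simp at h0
      · have h1 : a :: (m ++ [h]) = l ++ z :: [h] := by
          have : a :: (m ++ [h]) = (a :: m) ++ [h] := by simp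
          rw [this, h0]; simp
        rw [h1, pe_append, List.mem_append] at he
        rcases he with he | he
        · left
          have := mem_of_mem_pe he
          rw [h0, List.concat_eq_append]
          exact this
        · right
          simp only [pe_cons_cons, pe_single, List.mem_singleton] at he
          rw [he]
          refine ⟨?_, rfl⟩
          rw [h0, List.concat_eq_append]
          simp

/-- a path closed by a path outside: `S = R ∪ (B \ U)` on the inner side -/
theorem insert_path {R B U W : Finset Pt} {h h' c c' : Pt} {k : List Pt} (hUB : U ⊆ B)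
    (hUne : U.Nonempty) (hhU : h ∉ U) (hhU' : h' ∉ U)
    (hW : W = insert h (insert h' U)) (hhh : h ≠ h')
    (e1 : HE (R ∪ (B \ U)) h c) (e2 : HE (R ∪ (B \ U)) c' h')
    (s1 : ∀ d ∈ U, dt h c d < 0) (s2 : ∀ d ∈ U, dt c' h' d < 0) (hk : HamPath W h' h k)
    {u v : Pt} (hu : u ∈ R ∪ (B \ U)) (hv : v ∈ R ∪ (B \ U)) :
    ∀ f ∈ pe k, ¬ Cross u v f.1 f.2 := by
  -- shape of k
  obtain ⟨m, hm⟩ : ∃ m, k = h' :: (m ++ [h]) := by
    cases hk' : k with
    | nil => have := hk.hd; rw [hk'] at this; simp at this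
    | cons x k1 =>
      have hx : x = h' := by have := hk.hd; rw [hk'] at this; simpa using this
      rcases List.eq_nil_or_concat k1 with h0 | ⟨m, y, h0⟩
      · exfalso
        have := hk.la
        rw [hk', h0] at this
        simp at this
        exact hhh (this.symm.trans hx)
      · have hy : y = h := by
          have := hk.la
          rw [hk', h0] at this
          simpa [List.getLast?_cons] using this
        exact ⟨m, by rw [hx, h0, hy, List.concat_eq_append]⟩
  have nd := hk.nd
  rw [hm, List.nodup_cons, List.nodup_append] at nd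
  have hmU : ∀ z ∈ m, z ∈ U := by
    intro z hz
    have h1 : z ∈ W := hk.mem.1 (by rw [hm]; simp [hz])
    rw [hW, Finset.mem_insert, Finset.mem_insert] at h1
    rcases h1 with h1 | h1 | h1
    · exact absurd h1 (nd.2.2.2 z hz h (by simp))
    · exfalso; exact nd.1 (by rw [← h1]; simp [hz])
    · exact h1
  have hmne : m ≠ [] := by
    rintro rfl
    obtain ⟨z, hz⟩ := hUne
    have h1 : z ∈ k := hk.mem.2 (by rw [hW]; simp [hz])
    rw [hm] at h1
    simp only [List.nil_append, List.mem_cons, List.not_mem_nil, or_false] at h1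
    rcases h1 with h1 | h1
    · exact hhU' (h1 ▸ hz)
    · exact hhU (h1 ▸ hz)
  have w1 : ∀ z ∈ R ∪ (B \ U), 0 ≤ dt h c z := by
    intro z hz
    by_cases a1 : z = h
    · rw [a1]; simp
    by_cases a2 : z = c
    · rw [a2]; simp
    exact (e1.2.2.2 z hz a1 a2).le
  have w2 : ∀ z ∈ R ∪ (B \ U), 0 ≤ dt c' h' z := by
    intro z hz
    by_cases a1 : z = c'
    · rw [a1]; simp
    by_cases a2 : z = h'
    · rw [a2]; simp
    exact (e2.2.2.2 z hz a1 a2).le
  have sep : ∀ (a b : Pt), (∀ z ∈ R ∪ (B \ U), 0 ≤ dt a b z) → ∀ z1 z2 : Pt,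
      dt a b z1 ≤ 0 → dt a b z2 ≤ 0 → (dt a b z1 < 0 ∨ dt a b z2 < 0) →
      ¬ Cross u v z1 z2 := by
    intro a b hab z1 z2 i1 i2 i3
    have e := dt_eq_fn a b
    refine not_cross_of_sep (-(b.2 - a.2), b.1 - a.1) (fn (-(b.2 - a.2), b.1 - a.1) a)
      ?_ ?_ ?_ ?_ ?_
    · have := hab u hu; rw [e] at this; linarith
    · have := hab v hv; rw [e] at this; linarith
    · rw [e] at i1; linarith
    · rw [e] at i2; linarith
    · rcases i3 with i3 | i3
      · rw [e] at i3; right; right; left; linarith
      · rw [e] at i3; right; right; right; linarith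
  intro f hf
  rw [hm] at hf
  rcases pe_ends hmne hf with ⟨a1, a2⟩ | ⟨a1, a2⟩ | ⟨a1, a2⟩
  · have i := s2 _ (hmU _ a2)
    exact sep c' h' w2 f.1 f.2 (by rw [a1]; simp) i.le (Or.inr i)
  · have i := s1 _ (hmU _ a1)
    have i' := s1 _ (hmU _ a2)
    exact sep h c w1 f.1 f.2 i.le i'.le (Or.inl i)
  · have i := s1 _ (hmU _ a1)
    exact sep h c w1 f.1 f.2 i.le (by rw [a2]; simp) (Or.inl i)

/-- INSERTION LEMMA -/
theorem insert_mix {R B U : Finset Pt} {h h' c c' : Pt} {Q : List (Pt × Pt) → Prop}
    (hUB : U ⊆ B) (hUne : U.Nonempty)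
    (hh : h ∈ B \ U) (hh' : h' ∈ B \ U) (hhh : h ≠ h')
    (e1 : HE (R ∪ (B \ U)) h c) (e2 : HE (R ∪ (B \ U)) c' h')
    (s1 : ∀ d ∈ U, dt h c d < 0) (s2 : ∀ d ∈ U, dt c' h' d < 0)
    (hQ : ∀ F G : List (Pt × Pt), Q G → Q (F ++ G))
    (hk : ∃ k, HamPath (insert h (insert h' U)) h' h k ∧ Q (pe k))
    (hm : Mix R (B \ U) h h') :
    ∃ E F, Cyc R E ∧ Cyc B F ∧ Conf E F ∧ Q F := by
  classical
  obtain ⟨k, hk, hQk⟩ := hk
  obtain ⟨E, l, hE, hl, hc⟩ := hm
  have hhU : h ∉ U := (Finset.mem_sdiff.1 hh).2
  have hhU' : h' ∉ U := (Finset.mem_sdiff.1 hh').2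
  have key := fun {u v : Pt} (hu : u ∈ R ∪ (B \ U)) (hv : v ∈ R ∪ (B \ U)) =>
    insert_path hUB hUne hhU hhU' rfl hhh e1 e2 s1 s2 hk hu hv
  have hBK : (B \ U) ∩ insert h (insert h' U) ⊆ {h, h'} := by
    intro z hz
    rw [Finset.mem_inter, Finset.mem_sdiff, Finset.mem_insert, Finset.mem_insert] at hz
    rcases hz.2 with h1 | h1 | h1
    · simp [h1]
    · simp [h1]
    · exact absurd h1 hz.1.2
  have hU : (B \ U) ∪ insert h (insert h' U) = B := by
    ext z
    simp only [Finset.mem_union, Finset.mem_sdiff, Finset.mem_insert]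
    constructor
    · rintro (h1 | h1 | h1 | h1)
      · exact h1.1
      · rw [h1]; exact (Finset.mem_sdiff.1 hh).1
      · rw [h1]; exact (Finset.mem_sdiff.1 hh').1
      · exact hUB h1
    · intro h1
      by_cases hz : z ∈ U
      · exact Or.inr (Or.inr (Or.inr hz))
      · exact Or.inl ⟨h1, hz⟩
  refine ⟨E, pe l ++ pe k, hE, ?_, ?_, hQ _ _ hQk⟩
  · have := cyc_two hl hk hhh hBK
    rw [hU] at this
    exact this
  · apply hc.add hk.nc
    · intro e he f hf
      have := hl.inside e he
      exact key (Finset.mem_union_right _ this.1) (Finset.mem_union_right _ this.2) f hf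
    · intro e he f hf
      have := hE.inside e he
      exact key (Finset.mem_union_left _ this.1) (Finset.mem_union_left _ this.2) f hf

/-- at most one crossing if all crossing edges coincide -/
theorem cnt_le_one_of_unique {e : Pt × Pt} {L : List (Pt × Pt)} (hn : L.Nodup)
    (h : ∀ f ∈ L, ∀ g ∈ L, CrossE e f → CrossE e g → f = g) : cnt e L ≤ 1 := by
  induction L with
  | nil => simp [cnt]
  | cons a L ih =>
    rw [cnt_cons]
    have h1 := ih (List.nodup_cons.1 hn).2 (fun f hf g hg => h f (List.mem_cons_of_mem _ hf) g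
      (List.mem_cons_of_mem _ hg))
    split_ifs with hc
    · rw [cnt_zero]
      intro f hf hcf
      have := h a (by simp) f (List.mem_cons_of_mem _ hf) hc hcf
      rw [this] at hn
      exact (List.nodup_cons.1 hn).1 hf
    · exact h1

theorem pe_nodup {l : List Pt} (h : l.Nodup) : (pe l).Nodup := by
  induction l with
  | nil => simp
  | cons a l ih =>
    cases l with
    | nil => simp
    | cons b l =>
      rw [pe_cons_cons, List.nodup_cons]
      refine ⟨?_, ih (List.nodup_cons.1 h).2⟩
      intro hm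
      exact (List.nodup_cons.1 h).1 (mem_of_mem_pe hm).1

/-- an edge from outside into the set crosses the hull chain at most once -/
theorem cnt_enter {W : Finset Pt} (hG : GP W) {K : List Pt} (hK : K.Nodup)
    (hKe : ∀ e ∈ pe K, HE W e.1 e.2) {x w : Pt} (hw : w ∈ W) : cnt (x, w) (pe K) ≤ 1 := by
  apply cnt_le_one_of_unique (pe_nodup hK)
  intro f hf g hg h1 h2
  obtain ⟨a, b⟩ := enter_unique hG hw (hKe f hf) (hKe g hg) h1 h2
  exact Prod.ext a b

theorem cnt_pe_reverse (e : Pt × Pt) (l : List Pt) : cnt e (pe l.reverse) = cnt e (pe l) := by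
  rw [pe_reverse]
  unfold cnt
  rw [List.countP_reverse, List.countP_map]
  apply List.countP_congr
  intro f _
  simp only [Function.comp, decide_eq_true_eq]
  unfold CrossE
  simp only [Prod.fst_swap, Prod.snd_swap]
  exact cross_swap_right.symm

/-- CLOSING ALONG A CHAIN crossed by the two end edges of the other path -/
theorem closeK {R B : Finset Pt} {d υ a a' : Pt} {K lR lB : List Pt} (hG : GP (R ∪ B))
    (hB : B.Nonempty) (hdB : d ∉ B) (hυB : υ ∉ B) (hdυ : d ≠ υ) (haa : a ≠ a')
    (hKn : K.Nodup) (hKR : ∀ x ∈ K, x ∈ R) (hKh : K.head? = some a) (hKl : K.getLast? = some a')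
    (hKe : ∀ e ∈ pe K, HE (R ∪ B) e.1 e.2)
    (hR : HamPath (R \ (K.toFinset \ {a, a'})) a a' lR)
    (hBp : HamPath (insert d (insert υ B)) d υ lB)
    (hc : Conf (pe lR) (pe lB)) (h1 : FirstOne lB lR) (h2 : LastOne lB lR) :
    ∃ E, Cyc R E ∧ Conf E (pe lB) := by
  classical
  have ha : a ∈ K := List.mem_of_mem_head? (by rw [hKh]; rfl)
  have ha' : a' ∈ K := List.mem_of_getLast? hKl
  -- shape of lB
  obtain ⟨m, hm⟩ : ∃ m, lB = d :: (m ++ [υ]) := by
    cases hk' : lB with
    | nil => have := hBp.hd; rw [hk'] at this; simp at this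
    | cons x k1 =>
      have hx : x = d := by have := hBp.hd; rw [hk'] at this; simpa using this
      rcases List.eq_nil_or_concat k1 with h0 | ⟨m, y, h0⟩
      · exfalso
        have := hBp.la
        rw [hk', h0] at this
        simp at this
        exact hdυ (hx.symm.trans this)
      · have hy : y = υ := by
          have := hBp.la
          rw [hk', h0] at this
          simpa [List.getLast?_cons] using this
        exact ⟨m, by rw [hx, h0, hy, List.concat_eq_append]⟩
  have nd := hBp.nd
  rw [hm, List.nodup_cons, List.nodup_append] at nd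
  have hmB : ∀ z ∈ m, z ∈ B := by
    intro z hz
    have h1 : z ∈ insert d (insert υ B) := hBp.mem.1 (by rw [hm]; simp [hz])
    rw [Finset.mem_insert, Finset.mem_insert] at h1
    rcases h1 with h1 | h1 | h1
    · exfalso; exact nd.1 (by rw [← h1]; simp [hz])
    · exact absurd h1 (nd.2.2.2 z hz υ (by simp))
    · exact h1
  have hmne : m ≠ [] := by
    rintro rfl
    obtain ⟨z, hz⟩ := hB
    have h1 : z ∈ lB := hBp.mem.2 (by simp [hz])
    rw [hm] at h1
    simp only [List.nil_append, List.mem_cons, List.not_mem_nil, or_false] at h1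
    rcases h1 with h1 | h1
    · exact hdB (h1 ▸ hz)
    · exact hυB (h1 ▸ hz)
  -- first and last edges
  obtain ⟨w1, m1, hm1⟩ : ∃ w1 m1, m = w1 :: m1 := by
    cases m with
    | nil => exact absurd rfl hmne
    | cons w m => exact ⟨w, m, rfl⟩
  obtain ⟨m2, w2, hm2⟩ : ∃ m2 w2, m = m2 ++ [w2] := by
    rcases List.eq_nil_or_concat m with h0 | ⟨l, z, h0⟩
    · exact absurd h0 hmne
    · exact ⟨l, z, by rw [h0, List.concat_eq_append]⟩
  have hdec : pe lB = (d, w1) :: (pe m ++ [(w2, υ)]) := by
    rw [hm, hm1, List.cons_append, pe_cons_cons]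
    congr 1
    have : w1 :: (m1 ++ [υ]) = m2 ++ w2 :: [υ] := by
      have : w1 :: (m1 ++ [υ]) = m ++ [υ] := by rw [hm1]; simp
      rw [this, hm2]; simp
    rw [this, pe_append, ← hm2, ← hm1]
    simp
  have hw1 : w1 ∈ B := hmB _ (by rw [hm1]; simp)
  have hw2 : w2 ∈ B := hmB _ (by rw [hm2]; simp)
  have hKP : HamPath K.toFinset a a' K := by
    refine ⟨hKn, rfl, hKh, hKl, ?_⟩
    rw [List.pairwise_iff_forall_sublist]
    intro e f hs hcr
    have he : e ∈ pe K := hs.subset (by simp)
    have hf : f ∈ pe K := hs.subset (by simp)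
    have me := mem_of_mem_pe he
    exact (hKe f hf).not_cross (Finset.mem_union_left _ (hKR _ me.1))
      (Finset.mem_union_left _ (hKR _ me.2)) (crossE_comm.1 hcr)
  have hcyc := cyc_two hR hKP.reverse haa (by
    intro z hz
    rw [Finset.mem_inter, Finset.mem_sdiff, Finset.mem_sdiff] at hz
    by_contra hcon
    exact hz.1.2 ⟨hz.2, hcon⟩)
  have hU : R \ (K.toFinset \ {a, a'}) ∪ K.toFinset = R := by
    ext z
    rw [Finset.mem_union, Finset.mem_sdiff, Finset.mem_sdiff, List.mem_toFinset]
    constructor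
    · rintro (h | h)
      · exact h.1
      · exact hKR z h
    · intro h
      by_cases hz : z ∈ K
      · exact Or.inr hz
      · exact Or.inl ⟨h, fun h' => hz h'.1⟩
  rw [hU] at hcyc
  refine ⟨_, hcyc, ?_⟩
  -- hull edges are not crossed from inside
  have hin : ∀ e ∈ pe K, ∀ u v : Pt, u ∈ R ∪ B → v ∈ R ∪ B → ¬ CrossE e (u, v) := by
    intro e he u v hu hv
    exact (hKe e he).not_cross hu hv
  have hKrev : ∀ e : Pt × Pt, e ∈ pe K.reverse → ∃ g ∈ pe K, e = g.swap := by
    intro e he
    rw [pe_reverse, List.mem_reverse] at he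
    obtain ⟨g, hg, rfl⟩ := List.mem_map.1 he
    exact ⟨g, hg, rfl⟩
  have hlRin : ∀ e ∈ pe lR, e.1 ∈ R ∪ B ∧ e.2 ∈ R ∪ B := by
    intro e he
    have := hR.inside e he
    exact ⟨Finset.mem_union_left _ (Finset.mem_sdiff.1 this.1).1,
      Finset.mem_union_left _ (Finset.mem_sdiff.1 this.2).1⟩
  refine ⟨?_, hBp.nc, ?_, ?_⟩
  · rw [List.pairwise_append]
    refine ⟨hR.nc, hKP.reverse.nc, ?_⟩
    intro e he f hf hcr
    obtain ⟨g, hg, rfl⟩ := hKrev f hf
    have := hlRin e he
    apply hin g hg e.1 e.2 this.1 this.2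
    unfold CrossE at hcr ⊢
    simp only [Prod.fst_swap, Prod.snd_swap] at hcr
    exact (cross_swap_right.1 hcr).symm
  · intro e he
    rcases List.mem_append.1 he with he | he
    · exact hc.cE e he
    · obtain ⟨g, hg, rfl⟩ := hKrev e he
      rw [cnt_swap, hdec]
      have h0 : cnt g (pe m) = 0 := by
        apply cnt_zero
        intro f hf
        have := mem_of_mem_pe hf
        exact hin g hg f.1 f.2 (Finset.mem_union_right _ (hmB _ this.1))
          (Finset.mem_union_right _ (hmB _ this.2))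
      rw [cnt_cons, cnt_append, h0, cnt_cons, cnt_nil]
      split_ifs <;> simp
  · intro f hf
    rw [cnt_append, cnt_pe_reverse]
    rw [hdec, List.mem_cons, List.mem_append, List.mem_singleton] at hf
    rcases hf with rfl | hf | rfl
    · have i1 : cnt (d, w1) (pe lR) ≤ 1 := h1 _ (by rw [hdec]; rfl)
      have i2 := cnt_enter hG hKn hKe (x := d) (Finset.mem_union_right R hw1)
      omega
    · have i1 : cnt f (pe K) = 0 := by
        apply cnt_zero
        intro g hg hcr
        have := mem_of_mem_pe hf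
        exact hin g hg f.1 f.2 (Finset.mem_union_right _ (hmB _ this.1))
          (Finset.mem_union_right _ (hmB _ this.2)) (crossE_comm.1 hcr)
      have i2 : cnt f (pe lR) ≤ 2 := by
        apply hc.cF
        rw [hdec]
        simp [hf]
      omega
    · have i1 : cnt (w2, υ) (pe lR) ≤ 1 := h2 _ (by
        rw [hdec]; simp [List.getLast?_cons, List.getLast?_append])
      have i2 : cnt (w2, υ) (pe K) ≤ 1 := by
        have := cnt_enter hG hKn hKe (x := υ) (Finset.mem_union_right R hw2)
        rw [← cnt_swap] at this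
        exact this
      omega

end Pool.Agent.TK
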