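import Pool.Agent.TK.NestMain

/-!
# Tokunaga's problem, g ≥ 4: thin windows, induction over windows
-/

set_option autoImplicit false

namespace Pool.Agent.TK

theorem thin_functional {S : Finset Pt} {d υ : Pt} (hdυ : d ≠ υ) (h : ∀ z ∈ S, 0 < dt d υ z) :
    ∃ c : Pt, fn c d < fn c υ ∧ ∀ z ∈ S, fn c υ < fn c z := by
  classical
  set v : Pt := (υ.1 - d.1, υ.2 - d.2) with hv
  obtain ⟨M, hM⟩ := (S.image (fun z => -(fn v z - fn v υ) / dt d υ z)).exists_le
  have hvv : 0 < v.1 * v.1 + v.2 * v.2 := by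
    have : v.1 ≠ 0 ∨ v.2 ≠ 0 := by
      by_contra hcon
      push Not at hcon
      apply hdυ
      have h1 : υ.1 - d.1 = 0 := hcon.1
      have h2 : υ.2 - d.2 = 0 := hcon.2
      ext <;> linarith
    rcases this with h | h
    · have := mul_self_pos.2 h; nlinarith [mul_self_nonneg v.2]
    · have := mul_self_pos.2 h; nlinarith [mul_self_nonneg v.1]
  refine ⟨(v.1 + (M + 1) * -(υ.2 - d.2), v.2 + (M + 1) * (υ.1 - d.1)), ?_, ?_⟩
  · have e : fn (v.1 + (M + 1) * -(υ.2 - d.2), v.2 + (M + 1) * (υ.1 - d.1)) υ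
        - fn (v.1 + (M + 1) * -(υ.2 - d.2), v.2 + (M + 1) * (υ.1 - d.1)) d
        = v.1 * v.1 + v.2 * v.2 := by
      rw [hv]; unfold fn; simp; ring
    linarith
  · intro z hz
    have e : fn (v.1 + (M + 1) * -(υ.2 - d.2), v.2 + (M + 1) * (υ.1 - d.1)) z
        - fn (v.1 + (M + 1) * -(υ.2 - d.2), v.2 + (M + 1) * (υ.1 - d.1)) υ
        = (fn v z - fn v υ) + (M + 1) * dt d υ z := by
      rw [hv]; unfold fn dt; simp; ring
    have hp := h z hz
    have h1 := hM _ (Finset.mem_image_of_mem _ hz)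
    have h2 : -(fn v z - fn v υ) ≤ M * dt d υ z := by
      rwa [div_le_iff₀ hp] at h1
    nlinarith

theorem thin_final (hL : GDPLStmt) {R B : Finset Pt} {p q d υ β : Pt}
    (hG : GP (insert d (insert υ (R ∪ B)))) (hdj : Disjoint R B)
    (h1 : HE (insert d (insert υ (R ∪ B))) p d) (h2 : HE (insert d (insert υ (R ∪ B))) d υ)
    (h3 : HE (insert d (insert υ (R ∪ B))) υ q) (hp : p ∈ R) (hq : q ∈ R) (hpq : p ≠ q)
    (hd : d ∉ R ∪ B) (hυ : υ ∉ R ∪ B)
    (fin : ∀ z, HV (R ∪ B) z → 0 < dt p z q → z ∉ B) (hβ : β ∈ B)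
    (hβv : HV (insert d (insert υ (R ∪ B))) β) :
    ∃ E lB, Cyc R E ∧ HamPath (insert d (insert υ B)) d υ lB ∧ Conf E (pe lB) := by
  classical
  have hsub : R ∪ B ⊆ insert d (insert υ (R ∪ B)) := by
    intro z hz; simp only [Finset.mem_insert]; exact Or.inr (Or.inr hz)
  have hGS := hG.mono hsub
  have hpS : p ∈ R ∪ B := Finset.mem_union_left _ hp
  have hqS : q ∈ R ∪ B := Finset.mem_union_left _ hq
  obtain ⟨c, hc1, hc2⟩ := thin_functional (S := R ∪ B) h2.ne (fun z hz =>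
    h2.2.2.2 z (hsub hz) (fun e => hd (e ▸ hz)) (fun e => hυ (e ▸ hz)))
  obtain ⟨K, kn, kR, kh, kl, ke, km, ki⟩ := chainK (B := B) (R := R) hGS (by
      intro z hz hzB
      rcases Finset.mem_union.1 hz with h | h
      · exact h
      · exact absurd h hzB) (h1.hv_left.mono hsub hpS) (h3.hv_right.mono hsub hqS) hp hq hpq fin
  have hsub1 : R \ (K.toFinset \ {p, q}) ∪ B ⊆ R ∪ B :=
    Finset.union_subset_union Finset.sdiff_subset (Finset.Subset.refl _)
  have ins : ∀ {X Y : Finset Pt} (d : Pt), X ⊆ Y → insert d X ⊆ insert d Y := fun d h =>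
    Finset.insert_subset_insert d h
  have A1 : NL (R \ (K.toFinset \ {p, q})) B p q d υ ∨ LF (R \ (K.toFinset \ {p, q})) B d υ := by
    apply hL _ _ p q d υ c β _ hβ
      (hβv.mono (ins d (ins υ hsub1)) (by simp [hβ]))
    refine ⟨hG.mono (ins d (ins υ hsub1)), ?_, by simp [hp], by simp [hq], hpq,
      fun h => hd (hsub1 h), fun h => hυ (hsub1 h), h2.ne, ?_, ?_, hc1,
      fun z hz => hc2 z (hsub1 hz)⟩
    · exact Finset.disjoint_of_subset_left Finset.sdiff_subset hdj
    · exact h1.mono (ins d (ins υ hsub1)) (by simp [hp]) (by simp)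
    · refine h3.mono ?_ (by simp) (by simp [hq])
      exact (ins υ hsub1).trans (Finset.subset_insert _ _)
  rcases A1 with ⟨lR, lB, w1, l', hT, hF, hLa, hl', hw1, hw⟩ | ⟨⟨w, hw, hw'⟩, -⟩
  · obtain ⟨E, hE, hEc⟩ := closeK hGS ⟨β, hβ⟩ (fun h => hd (Finset.mem_union_right _ h))
      (fun h => hυ (Finset.mem_union_right _ h)) h2.ne hpq kn kR kh kl ke hT.hR hT.hB hT.conf hF hLa
    exact ⟨E, lB, hE, hT.hB, hEc⟩
  · exfalso
    have hw2 := hsub1 hw
    have := h2.2.2.2 w (hsub hw2) (fun e => hd (e ▸ hw2)) (fun e => hυ (e ▸ hw2))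
    linarith

/-- the single blue vertex `x`, doubled -/
theorem copy_final (hL : GDPLStmt) {R B : Finset Pt} {p q x β : Pt} (hG : GP (R ∪ B))
    (hdj : Disjoint R B) (h1 : HE (R ∪ B) p x) (h2 : HE (R ∪ B) x q) (hx : x ∈ B) (hp : p ∈ R)
    (hq : q ∈ R) (hpq : p ≠ q)
    (fin : ∀ z ∈ B, HV (R ∪ (B \ {x})) z → ¬ dt p q z < 0) (hβ : β ∈ B) (hβx : β ≠ x)
    (hβv : HV (R ∪ B) β) : ∃ E F, Cyc R E ∧ Cyc B F ∧ Conf E F := by
  classical
  obtain ⟨c, hc, hGc, e1, e2, e3, hcopy⟩ := exists_double hG h1 h2 hpq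
  have hxR : x ∉ R := fun h => Finset.disjoint_left.1 hdj h hx
  have hcB : c ∉ B := fun h => hc (Finset.mem_union_right _ h)
  have hcx : c ≠ x := fun h => hcB (h ▸ hx)
  have hset : insert x (insert c (R ∪ (B \ {x}))) = insert c (R ∪ B) := by
    ext z
    simp only [Finset.mem_insert, Finset.mem_union, Finset.mem_sdiff, Finset.mem_singleton]
    constructor
    · rintro (h | h | h | h)
      · rw [h]; exact Or.inr (Or.inr hx)
      · exact Or.inl h
      · exact Or.inr (Or.inl h)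
      · exact Or.inr (Or.inr h.1)
    · rintro (h | h | h)
      · exact Or.inr (Or.inl h)
      · exact Or.inr (Or.inr (Or.inl h))
      · by_cases hz : z = x
        · exact Or.inl hz
        · exact Or.inr (Or.inr (Or.inr ⟨h, hz⟩))
  have hβv' : HV (insert c (R ∪ B)) β := by
    have hc2 : 2 ≤ (R ∪ B).card := card_ge_two h1.1 h1.2.1 h1.ne
    obtain ⟨γ, hγ⟩ := hβv.next hG hc2
    have hγx : γ ≠ x := by
      intro e
      rw [e] at hγ
      have := hγ.prev_unique h1
      exact Finset.disjoint_left.1 hdj hp (this ▸ hβ)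
    have : HE (insert c (R ∪ B)) β γ := by
      refine ⟨Finset.mem_insert_of_mem hγ.1, Finset.mem_insert_of_mem hγ.2.1, hγ.ne, ?_⟩
      intro z hz a1 a2
      rcases Finset.mem_insert.1 hz with rfl | hz
      · exact (hcopy β hγ.1 γ hγ.2.1 hβx hγx).1
          (hγ.2.2.2 x (Finset.mem_union_right _ hx) hβx.symm hγx.symm)
      · exact hγ.2.2.2 z hz a1 a2
    exact this.hv_left
  obtain ⟨E, lB, hE, hlB, hEc⟩ := thin_final hL (R := R) (B := B \ {x}) (d := x) (υ := c)
    (p := p) (q := q) (β := β) (by rw [hset]; exact hGc)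
    (Finset.disjoint_of_subset_right Finset.sdiff_subset hdj) (by rw [hset]; exact e1)
    (by rw [hset]; exact e2) (by rw [hset]; exact e3) hp hq hpq
    (by simp [hxR])
    (by
      intro h
      apply hc
      rcases Finset.mem_union.1 h with h | h
      · exact Finset.mem_union_left _ h
      · exact Finset.mem_union_right _ (Finset.mem_sdiff.1 h).1)
    (by
      intro z hz hzs hzB
      apply fin z (Finset.mem_sdiff.1 hzB).1 hz
      rw [dt_swap']; linarith)
    (by simp [hβ, hβx]) (by rw [hset]; exact hβv')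
  have hB : insert x (insert c (B \ {x})) = insert c B := by
    ext z
    simp only [Finset.mem_insert, Finset.mem_sdiff, Finset.mem_singleton]
    constructor
    · rintro (h | h | h)
      · rw [h]; exact Or.inr hx
      · exact Or.inl h
      · exact Or.inr h.1
    · rintro (h | h)
      · exact Or.inr (Or.inl h)
      · by_cases hz : z = x
        · exact Or.inl hz
        · exact Or.inr (Or.inr ⟨h, hz⟩)
  rw [hB] at hlB
  obtain ⟨F, hF, hFc⟩ := close_copy (P := R ∪ B) hx Finset.subset_union_right hc hcopy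
    (hE.inside.mono Finset.subset_union_left) hlB hEc
  exact ⟨E, F, hE, hF, hFc⟩

/-- induction over nested windows -/
theorem nest_all (hS : SStmt) (hL : GDPLStmt) (hBF : BFStmt) {R B U0 : Finset Pt} {p q β : Pt}
    (hβ : β ∈ B) (hβv : HV (R ∪ B) β) (hβs : ¬ dt p q β < 0)
    (IH : ∀ B' : Finset Pt, B' ⊂ B → ∀ x y, x ∈ B' → y ∈ B' → HE (R ∪ B') x y → Mix R B' x y)
    {Q : List (Pt × Pt) → Prop} (hQ : ∀ F G : List (Pt × Pt), Q G → Q (F ++ G))
    (hPQ : ∀ (W : Finset Pt) (s t : Pt), U0 ⊆ W → W ⊆ B → HV W s → HV W t → s ≠ t → s ∉ U0 →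
      ∃ k, HamPath W s t k ∧ Q (pe k)) :
    ∀ n : ℕ, ∀ U : Finset Pt, (B \ U).card = n → ∀ ρ gm gp, Nest R B U p q ρ gm gp →
      U0 ⊆ U.erase ρ → ∃ E F, Cyc R E ∧ Cyc B F ∧ Conf E F ∧ Q F := by
  classical
  intro n
  induction n using Nat.strong_induction_on with
  | _ n ih =>
    intro U hn ρ gm gp hN hU0
    have hW := hN.win
    have hβU : β ∈ B \ U := Finset.mem_sdiff.2 ⟨hβ, fun h => hβs (hW.dU β h)⟩
    have hU0U : U0 ⊆ U := hU0.trans (Finset.erase_subset _ _)
    by_cases h0 : ∀ z ∈ B, HV (R ∪ (B \ U)) z → ¬ dt p q z < 0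
    · refine hN.final hL hBF h0 hβU hβv hQ ?_
      intro t ht htρ h1 h2
      exact hPQ U ρ t hU0U hW.hU h1 h2 (Ne.symm htρ) (fun h => (Finset.mem_erase.1 (hU0 h)).1 rfl)
    push Not at h0
    obtain ⟨z, hzB, hzv, hzs⟩ := h0
    by_cases h1 : ∀ z' ∈ B, HV (R ∪ (B \ U)) z' → dt p q z' < 0 → z' = z
    · obtain ⟨gm', gp', hN'⟩ := hW.grow hzv hzB hzs h1
      have hzS : z ∈ B \ U := by
        rcases Finset.mem_union.1 hzv.1 with h | h
        · exact absurd hzB (Finset.disjoint_left.1 hW.dj h)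
        · exact h
      refine ih (B \ insert z U).card ?_ (insert z U) rfl z gm' gp' hN' ?_
      · rw [← hn]
        apply Finset.card_lt_card
        rw [Finset.ssubset_iff_of_subset (Finset.sdiff_subset_sdiff (Finset.Subset.refl _)
          (Finset.subset_insert _ _))]
        exact ⟨z, hzS, by simp⟩
      · rw [Finset.erase_insert (Finset.mem_sdiff.1 hzS).2]; exact hU0U
    · push Not at h1
      obtain ⟨z', hzB', hzv', hzs', hne⟩ := h1
      refine hW.reduce2 hS ?_ hQ ?_ ⟨z, z', Ne.symm hne, hzv, hzv', hzB, hzB', hzs, hzs'⟩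
      · intro x y hx hy hxy
        apply IH (B \ U) _ x y hx hy hxy
        rw [Finset.ssubset_iff_of_subset Finset.sdiff_subset]
        obtain ⟨u, hu⟩ := hW.une
        exact ⟨u, hW.hU hu, by simp [hu]⟩
      · intro s t hs ht hst v1 v2
        refine hPQ _ s t ?_ ?_ v1 v2 hst ?_
        · intro w hw; simp [hU0U hw]
        · intro w hw
          rcases Finset.mem_insert.1 hw with rfl | hw
          · exact (Finset.mem_sdiff.1 hs).1
          rcases Finset.mem_insert.1 hw with rfl | hw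
          · exact (Finset.mem_sdiff.1 ht).1
          · exact hW.hU hw
        · exact fun h => (Finset.mem_sdiff.1 hs).2 (hU0U h)

/-- induction from a window which is not nested, given the solution of the final case -/
theorem win_all (hS : SStmt) (hL : GDPLStmt) (hBF : BFStmt) {R B U : Finset Pt} {p q β : Pt}
    (hW : Win R B U p q)
    (hβ : β ∈ B) (hβv : HV (R ∪ B) β) (hβs : ¬ dt p q β < 0)
    (IH : ∀ B' : Finset Pt, B' ⊂ B → ∀ x y, x ∈ B' → y ∈ B' → HE (R ∪ B') x y → Mix R B' x y)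
    {Q : List (Pt × Pt) → Prop} (hQ : ∀ F G : List (Pt × Pt), Q G → Q (F ++ G))
    (hPQ : ∀ (W : Finset Pt) (s t : Pt), U ⊆ W → W ⊆ B → HV W s → HV W t → s ≠ t → s ∉ U →
      ∃ k, HamPath W s t k ∧ Q (pe k))
    (hfin : (∀ z ∈ B, HV (R ∪ (B \ U)) z → ¬ dt p q z < 0) →
      ∃ E F, Cyc R E ∧ Cyc B F ∧ Conf E F ∧ Q F) :
    ∃ E F, Cyc R E ∧ Cyc B F ∧ Conf E F ∧ Q F := by
  classical
  by_cases h0 : ∀ z ∈ B, HV (R ∪ (B \ U)) z → ¬ dt p q z < 0
  · exact hfin h0
  push Not at h0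
  obtain ⟨z, hzB, hzv, hzs⟩ := h0
  by_cases h1 : ∀ z' ∈ B, HV (R ∪ (B \ U)) z' → dt p q z' < 0 → z' = z
  · obtain ⟨gm', gp', hN'⟩ := hW.grow hzv hzB hzs h1
    have hzS : z ∈ B \ U := by
      rcases Finset.mem_union.1 hzv.1 with h | h
      · exact absurd hzB (Finset.disjoint_left.1 hW.dj h)
      · exact h
    refine nest_all hS hL hBF hβ hβv hβs IH hQ hPQ _ (insert z U) rfl z gm' gp' hN' ?_
    rw [Finset.erase_insert (Finset.mem_sdiff.1 hzS).2]
  · push Not at h1
    obtain ⟨z', hzB', hzv', hzs', hne⟩ := h1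
    refine hW.reduce2 hS ?_ hQ ?_ ⟨z, z', Ne.symm hne, hzv, hzv', hzB, hzB', hzs, hzs'⟩
    · intro x y hx hy hxy
      apply IH (B \ U) _ x y hx hy hxy
      rw [Finset.ssubset_iff_of_subset Finset.sdiff_subset]
      obtain ⟨u, hu⟩ := hW.une
      exact ⟨u, hW.hU hu, by simp [hu]⟩
    · intro s t hs ht hst v1 v2
      refine hPQ _ s t ?_ ?_ v1 v2 hst ?_
      · intro w hw; simp [hw]
      · intro w hw
        rcases Finset.mem_insert.1 hw with rfl | hw
        · exact (Finset.mem_sdiff.1 hs).1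
        rcases Finset.mem_insert.1 hw with rfl | hw
        · exact (Finset.mem_sdiff.1 ht).1
        · exact hW.hU hw
      · exact fun h => (Finset.mem_sdiff.1 hs).2 h

end Pool.Agent.TK
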