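import Pool.Agent.TK.WBase

/-!
# Tokunaga's problem, g ≥ 4: windows
-/

set_option autoImplicit false

namespace Pool.Agent.TK

/-- splitting a list at its first element satisfying `P` -/
theorem first_split {α : Type*} (P : α → Prop) (l : List α) (h : ∃ x ∈ l, P x) :
    ∃ A x M, l = A ++ x :: M ∧ P x ∧ ∀ a ∈ A, ¬ P a := by
  classical
  induction l with
  | nil => simp at h
  | cons a l ih =>
    by_cases ha : P a
    · exact ⟨[], a, l, rfl, ha, by simp⟩
    · obtain ⟨x, hx, hP⟩ := h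
      rcases List.mem_cons.1 hx with rfl | hx
      · exact absurd hP ha
      · obtain ⟨A, y, M, h1, h2, h3⟩ := ih ⟨x, hx, hP⟩
        refine ⟨a :: A, y, M, by rw [h1]; rfl, h2, ?_⟩
        intro b hb
        rcases List.mem_cons.1 hb with rfl | hb
        · exact ha
        · exact h3 b hb

/-- splitting a list at its last element satisfying `P` -/
theorem last_split {α : Type*} (P : α → Prop) (l : List α) (h : ∃ x ∈ l, P x) :
    ∃ A x M, l = A ++ x :: M ∧ P x ∧ ∀ a ∈ M, ¬ P a := by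
  obtain ⟨A, x, M, h1, h2, h3⟩ := first_split P l.reverse (by
    obtain ⟨x, hx, hP⟩ := h
    exact ⟨x, List.mem_reverse.2 hx, hP⟩)
  refine ⟨M.reverse, x, A.reverse, ?_, h2, ?_⟩
  · have := congrArg List.reverse h1
    rw [List.reverse_reverse] at this
    rw [this]; simp
  · intro a ha; exact h3 a (List.mem_reverse.1 ha)

theorem mem_pe_of_split {L A Bl : List Pt} {x y : Pt} (h : L = A ++ x :: y :: Bl) :
    (x, y) ∈ pe L := by
  rw [h, pe_append]
  apply List.mem_append_right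
  simp

theorem pe_infix {X Y Z : List Pt} {e : Pt × Pt} (h : e ∈ pe Y) : e ∈ pe (X ++ Y ++ Z) := by
  obtain ⟨A, Bl, hAB⟩ := mem_pe_split h
  apply mem_pe_of_split (A := X ++ A) (Bl := Bl ++ Z) (x := e.1) (y := e.2)
  rw [hAB]; simp

/-- first and last edge of the path `h, Rs, h'` -/
theorem path_succ (h h' : Pt) (Rs : List Pt) :
    ∃ c c', (h, c) ∈ pe (h :: (Rs ++ [h'])) ∧ (c', h') ∈ pe (h :: (Rs ++ [h'])) ∧
      (Rs = [] → c = h' ∧ c' = h) ∧ (Rs ≠ [] → c ∈ Rs ∧ c' ∈ Rs) := by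
  cases Rs with
  | nil => exact ⟨h', h, by simp, by simp, by simp, by simp⟩
  | cons a l =>
    rcases List.eq_nil_or_concat (a :: l) with h0 | ⟨m, z, h0⟩
    · simp at h0
    · refine ⟨a, z, by simp, ?_, by simp, ?_⟩
      · apply mem_pe_of_split (A := h :: m) (Bl := [])
        rw [h0]; simp
      · intro _
        refine ⟨by simp, ?_⟩
        rw [h0]; simp

/-- a window -/
structure Win (R B U : Finset Pt) (p q : Pt) : Prop where
  gp : GP (R ∪ B)
  dj : Disjoint R B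
  hU : U ⊆ B
  une : U.Nonempty
  hp : HV (R ∪ B) p
  hq : HV (R ∪ B) q
  pR : p ∈ R
  qR : q ∈ R
  pq : p ≠ q
  dU : ∀ d ∈ U, dt p q d < 0
  inv : ∀ g g', HE (R ∪ (B \ U)) g g' → (g ∈ B ∧ dt p q g < 0) ∨ (g' ∈ B ∧ dt p q g' < 0) →
    ∀ d ∈ U, dt g g' d < 0

theorem Win.sub {R B U : Finset Pt} {p q : Pt} (_ : Win R B U p q) :
    R ∪ (B \ U) ⊆ R ∪ B := Finset.union_subset_union (Finset.Subset.refl _) Finset.sdiff_subset

theorem Win.hp' {R B U : Finset Pt} {p q : Pt} (h : Win R B U p q) : HV (R ∪ (B \ U)) p :=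
  h.hp.mono h.sub (Finset.mem_union_left _ h.pR)

theorem Win.hq' {R B U : Finset Pt} {p q : Pt} (h : Win R B U p q) : HV (R ∪ (B \ U)) q :=
  h.hq.mono h.sub (Finset.mem_union_left _ h.qR)

theorem Win.not_red {R B U : Finset Pt} {p q z : Pt} (h : Win R B U p q) (hz : z ∈ B) :
    z ≠ p ∧ z ≠ q :=
  ⟨fun e => Finset.disjoint_left.1 h.dj h.pR (e ▸ hz),
   fun e => Finset.disjoint_left.1 h.dj h.qR (e ▸ hz)⟩

theorem card_ge_two {S : Finset Pt} {p q : Pt} (hp : p ∈ S) (hq : q ∈ S) (h : p ≠ q) :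
    2 ≤ S.card := by
  have h1 : ({p, q} : Finset Pt) ⊆ S := by
    intro x hx
    rcases Finset.mem_insert.1 hx with rfl | hx
    · exact hp
    · rw [Finset.mem_singleton.1 hx]; exact hq
  calc 2 = ({p, q} : Finset Pt).card := (Finset.card_pair h).symm
    _ ≤ S.card := Finset.card_le_card h1

theorem card_ge_three {S : Finset Pt} {p q r : Pt} (hp : p ∈ S) (hq : q ∈ S) (hr : r ∈ S)
    (h1 : p ≠ q) (h2 : p ≠ r) (h3 : q ≠ r) : 3 ≤ S.card := by
  have hs : ({p, q, r} : Finset Pt) ⊆ S := by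
    intro x hx
    simp only [Finset.mem_insert, Finset.mem_singleton] at hx
    rcases hx with rfl | rfl | rfl
    · exact hp
    · exact hq
    · exact hr
  have : ({p, q, r} : Finset Pt).card = 3 := by
    rw [Finset.card_insert_of_notMem, Finset.card_pair h3]
    simp [h1, h2]
  rw [← this]
  exact Finset.card_le_card hs

/-- the hull list starting at `p`, cut at the hull vertex `q` -/
theorem hull_cut {S : Finset Pt} (hG : GP S) {p q : Pt} (hp : HV S p) (hq : HV S q) (hpq : p ≠ q) :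
    ∃ l1 l2 : List Pt, (p :: (l1 ++ q :: l2)).Nodup ∧
      (∀ x, x ∈ p :: (l1 ++ q :: l2) ↔ HV S x) ∧ (l1 ++ q :: l2).Pairwise (Bef p) ∧
      (∀ e ∈ pe (p :: (l1 ++ q :: l2) ++ [p]), HE S e.1 e.2) := by
  obtain ⟨l, hn, hm, hb, he⟩ := hull_list hG (card_ge_two hp.1 hq.1 hpq) hp
  have hql : q ∈ l := by
    rcases List.mem_cons.1 ((hm q).2 hq) with h | h
    · exact absurd h hpq.symm
    · exact h
  obtain ⟨l1, l2, rfl⟩ := List.append_of_mem hql
  refine ⟨l1, l2, hn, hm, hb, ?_⟩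
  rw [ce_cons] at he
  exact he

/-- reduction with two blue vertices in the window -/
theorem Win.reduce2 (hS : SStmt) {R B U : Finset Pt} {p q : Pt} (hW : Win R B U p q)
    (IH : ∀ x y, x ∈ B \ U → y ∈ B \ U → HE (R ∪ (B \ U)) x y → Mix R (B \ U) x y)
    {Q : List (Pt × Pt) → Prop} (hQ : ∀ F G : List (Pt × Pt), Q G → Q (F ++ G))
    (hPQ : ∀ s t, s ∈ B \ U → t ∈ B \ U → s ≠ t → HV (insert s (insert t U)) s →
      HV (insert s (insert t U)) t → ∃ k, HamPath (insert s (insert t U)) s t k ∧ Q (pe k))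
    (h2 : ∃ z1 z2, z1 ≠ z2 ∧ HV (R ∪ (B \ U)) z1 ∧ HV (R ∪ (B \ U)) z2 ∧ z1 ∈ B ∧ z2 ∈ B ∧
      dt p q z1 < 0 ∧ dt p q z2 < 0) :
    ∃ E F, Cyc R E ∧ Cyc B F ∧ Conf E F ∧ Q F := by
  classical
  obtain ⟨z1, z2, hz, v1, v2, b1, b2, s1, s2⟩ := h2
  have hGS : GP (R ∪ (B \ U)) := hW.gp.mono hW.sub
  obtain ⟨l1, l2, hn, hm, hb, he⟩ := hull_cut hGS hW.hp' hW.hq' hW.pq
  have hbp := List.pairwise_append.1 hb
  have before : ∀ z ∈ l1, dt p q z < 0 := by
    intro z hz
    have := hbp.2.2 z hz q (by simp)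
    unfold Bef at this
    rw [dt_swap']; linarith
  have inl1 : ∀ z, HV (R ∪ (B \ U)) z → z ∈ B → dt p q z < 0 → z ∈ l1 := by
    intro z hz hzB hzs
    have hne := hW.not_red hzB
    rcases List.mem_cons.1 ((hm z).2 hz) with h | h
    · exact absurd h hne.1
    rcases List.mem_append.1 h with h | h
    · exact h
    rcases List.mem_cons.1 h with h | h
    · exact absurd h hne.2
    · exfalso
      have := (List.pairwise_cons.1 hbp.2.1).1 z h
      unfold Bef at this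
      linarith
  have m1 := inl1 z1 v1 b1 s1
  have m2 := inl1 z2 v2 b2 s2
  obtain ⟨A, h, M, hA, hhB, hAr⟩ := first_split (fun z => z ∈ B) l1 ⟨z1, m1, b1⟩
  have hM : ∃ z ∈ M, z ∈ B := by
    rw [hA] at m1 m2
    rcases List.mem_append.1 m1 with h' | h'
    · exact absurd b1 (hAr z1 h')
    rcases List.mem_append.1 m2 with h'' | h''
    · exact absurd b2 (hAr z2 h'')
    rcases List.mem_cons.1 h' with h' | h'
    · rcases List.mem_cons.1 h'' with h'' | h''
      · exact absurd (h'.trans h''.symm) hz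
      · exact ⟨z2, h'', b2⟩
    · exact ⟨z1, h', b1⟩
  obtain ⟨Rs, h', C, hMC, hh'B, hRs⟩ := first_split (fun z => z ∈ B) M hM
  have hl1 : l1 = A ++ h :: (Rs ++ h' :: C) := by rw [hA, hMC]
  have mh : h ∈ l1 := by rw [hl1]; simp
  have mh' : h' ∈ l1 := by rw [hl1]; simp
  have mRs : ∀ z ∈ Rs, z ∈ l1 := by intro z hz; rw [hl1]; simp [hz]
  have vtx : ∀ z ∈ l1, HV (R ∪ (B \ U)) z := by
    intro z hz
    exact (hm z).1 (by simp [hz])
  have hnl1 : l1.Nodup := (List.nodup_append.1 (List.nodup_cons.1 hn).2).1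
  have hnn := hnl1
  rw [hl1, List.nodup_append, List.nodup_cons, List.nodup_append] at hnn
  have hhh : h ≠ h' := fun e => hnn.2.1.1 (by rw [e]; simp)
  have hhS : h ∈ B \ U := by
    rcases Finset.mem_union.1 (vtx h mh).1 with h0 | h0
    · exact absurd hhB (Finset.disjoint_left.1 hW.dj h0)
    · exact h0
  have hhS' : h' ∈ B \ U := by
    rcases Finset.mem_union.1 (vtx h' mh').1 with h0 | h0
    · exact absurd hh'B (Finset.disjoint_left.1 hW.dj h0)
    · exact h0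
  have hRsR : ∀ z ∈ Rs, z ∈ R := by
    intro z hz
    rcases Finset.mem_union.1 (vtx z (mRs z hz)).1 with h0 | h0
    · exact h0
    · exact absurd (Finset.mem_sdiff.1 h0).1 (hRs z hz)
  -- edges
  have hedge : ∀ e ∈ pe (h :: (Rs ++ [h'])), HE (R ∪ (B \ U)) e.1 e.2 := by
    intro e hee
    apply he
    have : p :: (l1 ++ q :: l2) ++ [p] =
        (p :: A) ++ (h :: (Rs ++ [h'])) ++ (C ++ q :: l2 ++ [p]) := by
      rw [hl1]; simp
    rw [this]
    exact pe_infix hee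
  obtain ⟨c, c', ec, ec', hnil, hcons⟩ := path_succ h h' Rs
  have e1 := hedge _ ec
  have e2 := hedge _ ec'
  simp only at e1 e2
  have t1 : ∀ d ∈ U, dt h c d < 0 := hW.inv h c e1 (Or.inl ⟨hhB, before h mh⟩)
  have t2 : ∀ d ∈ U, dt c' h' d < 0 := hW.inv c' h' e2 (Or.inr ⟨hh'B, before h' mh'⟩)
  -- the chord
  have hch : ∀ d ∈ U, dt h h' d < 0 := by
    intro d hd
    by_cases hRn : Rs = []
    · obtain ⟨rfl, _⟩ := hnil hRn
      exact t1 d hd
    obtain ⟨hcR, hcR'⟩ := hcons hRn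
    have nhc' : h' ≠ c := fun e => hRs c hcR (e ▸ hh'B)
    have nhc'' : h ≠ c' := fun e => hRs c' hcR' (e ▸ hhB)
    have hpS := hW.hp'.1
    have hdB : d ∈ B := hW.hU hd
    have hdU : ∀ z ∈ B \ U, z ≠ d := fun z hz e => (Finset.mem_sdiff.1 hz).2 (e ▸ hd)
    have w : ∀ {a b z : Pt}, HE (R ∪ (B \ U)) a b → z ∈ R ∪ (B \ U) → 0 ≤ dt a b z := by
      intro a b z hab hz
      by_cases a1 : z = a
      · rw [a1]; simp
      by_cases a2 : z = b
      · rw [a2]; simp
      exact (hab.2.2.2 z hz a1 a2).le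
    have bpp : 0 < dt p h h' := by
      have hb1 := hbp.1
      rw [hl1, List.pairwise_append, List.pairwise_cons] at hb1
      exact hb1.2.1.1 h' (by simp)
    refine chord (p := p) (q := q) (t1 d hd) (t2 d hd) (w e1 hpS) (w e2 hpS)
      (e1.2.2.2 h' (Finset.mem_union_right _ hhS') hhh.symm nhc')
      (e2.2.2.2 h (Finset.mem_union_right _ hhS) nhc'' hhh) ?_ (hW.dU d hd) (before h mh)
      (before h' mh') ?_
    · rw [dt_rot]; exact bpp
    · exact hW.gp h (Finset.mem_union_right _ hhB) h' (Finset.mem_union_right _ hh'B) d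
        (Finset.mem_union_right _ hdB) hhh (hdU h hhS) (hdU h' hhS')
  have hWe : HE (insert h' (insert h U)) h' h := by
    refine ⟨by simp, by simp, hhh.symm, ?_⟩
    intro z hz a1 a2
    rcases Finset.mem_insert.1 hz with h0 | hz
    · exact absurd h0 a1
    rcases Finset.mem_insert.1 hz with h0 | hz
    · exact absurd h0 a2
    · rw [dt_swap]
      have := hch z hz
      linarith
  have hMix : Mix R (B \ U) h h' := by
    by_cases hRn : Rs = []
    · obtain ⟨rfl, _⟩ := hnil hRn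
      exact IH h c hhS hhS' e1
    · refine sclose hS hGS ?_ hRn hRsR ?_ hhS hhS' hhh hedge
      · exact Finset.disjoint_of_subset_right Finset.sdiff_subset hW.dj
      · exact hnn.2.1.2.1
  obtain ⟨k, hk, hQk⟩ := hPQ h' h hhS' hhS hhh.symm hWe.hv_left hWe.hv_right
  refine insert_mix hW.hU hW.une hhS hhS' hhh e1 e2 t1 t2 hQ ⟨k, ?_, hQk⟩ hMix
  have : insert h (insert h' U) = insert h' (insert h U) := Finset.insert_comm _ _ _
  rw [this]
  exact hk

/-- a nested window: `ρ` was added last -/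
structure Nest (R B U : Finset Pt) (p q ρ gm gp : Pt) : Prop where
  win : Win R B U p q
  hρ : ρ ∈ U
  Dne : (U.erase ρ).Nonempty
  em : HE (R ∪ (B \ U.erase ρ)) gm ρ
  ep : HE (R ∪ (B \ U.erase ρ)) ρ gp
  cm : ∀ d ∈ U.erase ρ, dt gm ρ d < 0
  cp : ∀ d ∈ U.erase ρ, dt ρ gp d < 0

theorem Win.grow {R B U : Finset Pt} {p q ρ : Pt} (hW : Win R B U p q) (hρ : HV (R ∪ (B \ U)) ρ)
    (hρB : ρ ∈ B) (hρs : dt p q ρ < 0)
    (hun : ∀ z ∈ B, HV (R ∪ (B \ U)) z → dt p q z < 0 → z = ρ) :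
    ∃ gm gp, Nest R B (insert ρ U) p q ρ gm gp := by
  classical
  have hGS : GP (R ∪ (B \ U)) := hW.gp.mono hW.sub
  have hne := hW.not_red hρB
  have hρS : ρ ∈ B \ U := by
    rcases Finset.mem_union.1 hρ.1 with h | h
    · exact absurd hρB (Finset.disjoint_left.1 hW.dj h)
    · exact h
  have hρU : ρ ∉ U := (Finset.mem_sdiff.1 hρS).2
  have hc3 : 3 ≤ (R ∪ (B \ U)).card :=
    card_ge_three hW.hp'.1 hW.hq'.1 hρ.1 hW.pq hne.1.symm hne.2.symm
  obtain ⟨gp, hgp⟩ := hρ.next hGS (by omega)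
  obtain ⟨gm, hgm⟩ := hρ.prev hGS (by omega)
  have hgg : gp ≠ gm := by
    intro e
    rw [e] at hgp
    exact hgm.not_symm hc3 hgp
  have cm : ∀ d ∈ U, dt gm ρ d < 0 := hW.inv gm ρ hgm (Or.inr ⟨hρB, hρs⟩)
  have cp : ∀ d ∈ U, dt ρ gp d < 0 := hW.inv ρ gp hgp (Or.inl ⟨hρB, hρs⟩)
  have hD : 0 < dt gm ρ gp := hgm.2.2.2 gp hgp.2.1 hgg hgp.ne.symm
  have hS' : R ∪ (B \ insert ρ U) = (R ∪ (B \ U)).erase ρ := by
    ext z
    simp only [Finset.mem_union, Finset.mem_sdiff, Finset.mem_insert, Finset.mem_erase]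
    constructor
    · rintro (h | h)
      · exact ⟨fun e => Finset.disjoint_left.1 hW.dj h (e ▸ hρB), Or.inl h⟩
      · exact ⟨fun e => h.2 (Or.inl e), Or.inr ⟨h.1, fun h' => h.2 (Or.inr h')⟩⟩
    · rintro ⟨h1, h | h⟩
      · exact Or.inl h
      · refine Or.inr ⟨h.1, ?_⟩
        rintro (h' | h')
        · exact h1 h'
        · exact h.2 h'
  have herase : (insert ρ U).erase ρ = U := Finset.erase_insert hρU
  refine ⟨gm, gp, ⟨⟨hW.gp, hW.dj, ?_, ⟨ρ, Finset.mem_insert_self _ _⟩, hW.hp, hW.hq, hW.pR, hW.qR,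
    hW.pq, ?_, ?_⟩, Finset.mem_insert_self _ _, ?_, ?_, ?_, ?_, ?_⟩⟩
  · intro z hz
    rcases Finset.mem_insert.1 hz with rfl | hz
    · exact hρB
    · exact hW.hU hz
  · intro d hd
    rcases Finset.mem_insert.1 hd with rfl | hd
    · exact hρs
    · exact hW.dU d hd
  · intro g g' hg hbl
    rw [hS'] at hg
    have hgS : g ∈ R ∪ (B \ U) := Finset.mem_of_mem_erase hg.1
    have hgS' : g' ∈ R ∪ (B \ U) := Finset.mem_of_mem_erase hg.2.1
    have hgρ : g ≠ ρ := Finset.ne_of_mem_erase hg.1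
    have hgρ' : g' ≠ ρ := Finset.ne_of_mem_erase hg.2.1
    have hsee : dt g g' ρ < 0 := by
      rcases lt_or_gt_of_ne (hGS g hgS g' hgS' ρ hρ.1 hg.ne hgρ hgρ') with h | h
      · exact h
      exfalso
      have hfull : HE (R ∪ (B \ U)) g g' := by
        refine ⟨hgS, hgS', hg.ne, ?_⟩
        intro z hz a1 a2
        by_cases a3 : z = ρ
        · rw [a3]; exact h
        · exact hg.2.2.2 z (Finset.mem_erase.2 ⟨a3, hz⟩) a1 a2
      rcases hbl with ⟨x1, x2⟩ | ⟨x1, x2⟩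
      · exact hgρ (hun g x1 hfull.hv_left x2)
      · exact hgρ' (hun g' x1 hfull.hv_right x2)
    have w : ∀ z ∈ R ∪ (B \ U), z ≠ ρ → 0 ≤ dt g g' z := by
      intro z hz a3
      by_cases a1 : z = g
      · rw [a1]; simp
      by_cases a2 : z = g'
      · rw [a2]; simp
      exact (hg.2.2.2 z (Finset.mem_erase.2 ⟨a3, hz⟩) a1 a2).le
    intro d hd
    rcases Finset.mem_insert.1 hd with rfl | hd
    · exact hsee
    · exact cone_sees hD (cm d hd) (cp d hd) hsee (w gm hgm.1 hgm.ne) (w gp hgp.2.1 hgp.ne.symm)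
  · rw [herase]; exact hW.une
  · rw [herase]; exact hgm
  · rw [herase]; exact hgp
  · rw [herase]; exact cm
  · rw [herase]; exact cp

end Pool.Agent.TK
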